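import Pool.Agent.Lib_helper68.Exact.Leaf

/-!
# Crossing in the leaves of the decision tree
-/

set_option autoImplicit false
set_option linter.unusedSectionVars false
set_option linter.unusedSimpArgs false
set_option linter.unnecessarySeqFocus false
set_option linter.unreachableTactic false
set_option linter.unusedTactic false

namespace Pool.Agent.Exact

open Finset

variable {V : Type*} [Fintype V] [DecidableEq V]
variable {B : V → V → ℤ} {Rl : Finset V} {ℓ nQ nP : ℕ} {uq up : ℕ → V} {q p : ℕ → ℝ}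

section basic

variable (h : Frame B Rl ℓ nQ nP uq up q p)
include h

lemma Frame.qa {i j : ℕ} (hij : i ≤ j) (hj : j < 2 * ℓ) : q j ≤ q i := h.sys.chQ.anti i j hij hj
lemma Frame.pa {i j : ℕ} (hij : i ≤ j) (hj : j < 2 * ℓ) : p j ≤ p i := h.sys.chP.anti i j hij hj
lemma Frame.qn {i : ℕ} (hi : i < 2 * ℓ) : 0 ≤ q i := h.sys.chQ.nn i hi
lemma Frame.pn {i : ℕ} (hi : i < 2 * ℓ) : 0 ≤ p i := h.sys.chP.nn i hi

/-- `D(l) + AA(i) ≤ AA(j)` for `i ≤ l < j` -/
lemma Frame.qgA {i l j : ℕ} (h1 : i ≤ l) (h2 : l < j) (h3 : j ≤ ℓ) :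
    AA q i + (q (2 * l) - q (2 * l + 1)) ≤ AA q j := by
  have := gap_le_AA h.sys.chQ h1 h2 (by omega)
  linarith

lemma Frame.pgA {i l j : ℕ} (h1 : i ≤ l) (h2 : l < j) (h3 : j ≤ ℓ) :
    AA p i + (p (2 * l) - p (2 * l + 1)) ≤ AA p j := h.swap.qgA h1 h2 h3

/-- monotonicity -/
lemma Frame.qAm {i j : ℕ} (h1 : i ≤ j) (h3 : j ≤ ℓ) : AA q i ≤ AA q j :=
  AA_mono h.sys.chQ h1 (by omega)

lemma Frame.pAm {i j : ℕ} (h1 : i ≤ j) (h3 : j ≤ ℓ) : AA p i ≤ AA p j := h.swap.qAm h1 h3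

/-- `A(j) - A(i) + q (2j) ≤ q (2i)` -/
lemma Frame.qE {i j : ℕ} (h1 : i ≤ j) (h3 : j < ℓ) : AA q j - AA q i + q (2 * j) ≤ q (2 * i) := by
  have := EE_mono h.sys.chQ h1 (by omega)
  linarith

lemma Frame.pE {i j : ℕ} (h1 : i ≤ j) (h3 : j < ℓ) : AA p j - AA p i + p (2 * j) ≤ p (2 * i) :=
  h.swap.qE h1 h3

/-- an even difference in the part `i ≤ l < j` -/
lemma Frame.qgE {i l j : ℕ} (h1 : i ≤ l) (h2 : l < j) (h3 : j < ℓ) :
    AA q j - AA q i + q (2 * j) + (q (2 * l + 1) - q (2 * l + 2)) ≤ q (2 * i) := by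
  have := gap_le_EE h.sys.chQ h1 h2 (by omega)
  linarith

lemma Frame.pgE {i l j : ℕ} (h1 : i ≤ l) (h2 : l < j) (h3 : j < ℓ) :
    AA p j - AA p i + p (2 * j) + (p (2 * l + 1) - p (2 * l + 2)) ≤ p (2 * i) :=
  h.swap.qgE h1 h2 h3

/-- the whole tail -/
lemma Frame.qT {i : ℕ} (hi : i < ℓ) : AA q ℓ - AA q i ≤ q (2 * i) := by
  have hl := h.l2
  have h1 := h.qE (i := i) (j := ℓ - 1) (by omega) (by omega)
  have h2 := AA_succ q (ℓ - 1)
  rw [show ℓ - 1 + 1 = ℓ by omega] at h2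
  have h3 := h.qn (i := 2 * (ℓ - 1) + 1) (by omega)
  linarith

lemma Frame.pT {i : ℕ} (hi : i < ℓ) : AA p ℓ - AA p i ≤ p (2 * i) := h.swap.qT hi

end basic

variable {θ ζ y lam : ℝ}

/-- leaf L1 -/
theorem Frame.leafL1 (h : Frame B Rl ℓ nQ nP uq up q p) (hq0 : q 0 = θ + y)
    (hθ : θ = ζ + y + lam) (hy : 0 ≤ y) {i : ℕ} (hi : i < ℓ)
    (hD : θ - 2 < q (2 * i) - q (2 * i + 1)) (hp : p 0 < y + 2) {D : ℝ}
    (hlam : D + 2 ≤ ζ + lam) :
    (CrI B uq up q p (2 * i + 1) 0 D → Val B θ) ∧ (CrSI B uq up p (2 * i + 1) 0 D → Val B θ) := by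
  have hl := h.l2
  have e1 := h.qgA (Nat.zero_le i) (Nat.lt_succ_self i) (by omega)
  have e2 := h.qE (Nat.zero_le i) hi
  have e4 := AA_succ q i
  have e6 := h.qn (i := 2 * i + 1) (by omega)
  have e7 := h.qAm (Nat.zero_le i) hi.le
  have e8 := h.pn (i := 0) (by omega)
  have e9 := AA_zero q
  have e10 := AA_zero p
  simp only [Nat.mul_zero, AA_zero, sub_zero] at e1 e2 e7
  have items : ∀ l < i, q (2 * l + 1) - q (2 * l + 2) ≤ y + 2 := by
    intro l hl'
    have := h.qgE (Nat.zero_le l) hl' hi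
    simp only [Nat.mul_zero, AA_zero, sub_zero] at this
    linarith
  constructor
  · intro hC
    refine h.crPure (K := y + 2) (D := D) i 0 hi (Nat.zero_le _) (by linarith) (by linarith)
      (by simpa using hp.le) items (fun l h3 => absurd h3 (Nat.not_lt_zero _)) (by linarith) ?_ hC
    simp only [Nat.mul_zero, AA_zero]
    linarith
  · intro hC
    refine h.crsPure (K := y + 2) (D := D) i 0 hi (Nat.zero_le _) (by linarith)
      (by simp only [Nat.mul_zero]; linarith) items (fun l h3 => absurd h3 (Nat.not_lt_zero _)) (by linarith) ?_ hC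
    simp only [Nat.mul_zero, AA_zero]
    linarith

/-- leaf 1a -/
theorem Frame.leaf1a (h : Frame B Rl ℓ nQ nP uq up q p) (hq0 : q 0 = θ + y) (hpq : p 0 ≤ q 0)
    (hθ : θ = ζ + y + lam) (hy : 0 ≤ y) {i j : ℕ} (hi : i < ℓ) (hj : j + 1 < ℓ)
    (hD : θ < q (2 * i) - q (2 * i + 1)) (hE : θ - 2 < p (2 * j + 1) - p (2 * j + 2)) {D : ℝ}
    (hlam : D + 2 ≤ ζ + lam) :
    (CrI B uq up q p (2 * i + 1) (2 * (j + 1)) D → Val B θ) ∧
      (CrSI B uq up p (2 * i + 1) (2 * (j + 1)) D → Val B θ) := by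
  have hl := h.l2
  have e1 := h.qgA (Nat.zero_le i) (Nat.lt_succ_self i) (by omega)
  have e2 := h.qE (Nat.zero_le i) hi
  have e4 := AA_succ q i
  have e6 := h.qn (i := 2 * i + 1) (by omega)
  have e7 := h.qAm (Nat.zero_le i) hi.le
  have f1 := h.pgE (Nat.zero_le j) (Nat.lt_succ_self j) (by omega)
  have f2 := h.pn (i := 2 * (j + 1)) (by omega)
  have f3 := h.pAm (Nat.zero_le (j + 1)) (by omega)
  have f4 := h.pa (i := 0) (j := 2 * (j + 1)) (Nat.zero_le _) (by omega)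
  simp only [Nat.mul_zero, AA_zero, sub_zero] at e1 e2 e7 f1 f3
  have f5 : p (2 * (j + 1)) = p (2 * j + 2) := by ring_nf
  simp only [Nat.succ_eq_add_one] at f1
  have items : ∀ l < i, q (2 * l + 1) - q (2 * l + 2) ≤ y + 2 := by
    intro l hl'
    have := h.qgE (Nat.zero_le l) hl' hi
    simp only [Nat.mul_zero, AA_zero, sub_zero] at this
    linarith
  have itemsP : ∀ l < j + 1, p (2 * l) - p (2 * l + 1) ≤ y + 2 := by
    intro l hl'
    have := h.pgA (Nat.zero_le l) hl' (by omega)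
    simp only [AA_zero] at this
    linarith
  constructor
  · intro hC
    refine h.crPure (K := y + 2) (D := D) i (j + 1) hi (by omega) (by linarith) (by linarith)
      (by linarith) items itemsP (by linarith) ?_ hC
    linarith
  · intro hC
    refine h.crsPure (K := y + 2) (D := D) i (j + 1) hi (by omega) (by linarith)
      (by linarith) items itemsP (by linarith) ?_ hC
    linarith

/-- leaf 1c -/
theorem Frame.leaf1c (h : Frame B Rl ℓ nQ nP uq up q p) (hq0 : q 0 = θ + y) (hpq : p 0 ≤ q 0)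
    (hθ : θ = ζ + y + lam) (hy : 0 ≤ y) {i r : ℕ} (hi : i < ℓ) (hr : r < ℓ) {MB : ℝ}
    (hD : θ < q (2 * i) - q (2 * i + 1)) (hA : AA q ℓ + AA p ℓ < 2 * y + 2 * MB)
    (hh : ∀ l < r, θ < p (2 * l + 1)) (hp : p (2 * r) < q (2 * i) - q (2 * i + 1) - θ + 2)
    {D : ℝ} (hlam : D + 2 ≤ ζ + lam) (hM : 2 * D + 2 * MB + 2 ≤ 3 * ζ + 3 * lam) :
    (CrI B uq up q p (2 * i + 1) (2 * r) D → Val B θ) ∧
      (CrSI B uq up p (2 * i + 1) (2 * r) D → Val B θ) := by
  have hl := h.l2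
  have e1 := h.qgA (Nat.zero_le i) (Nat.lt_succ_self i) (by omega)
  have e2 := h.qE (Nat.zero_le i) hi
  have e4 := AA_succ q i
  have e5 := h.qAm (i := i + 1) (j := ℓ) (by omega) le_rfl
  have e6 := h.qn (i := 2 * i + 1) (by omega)
  have e7 := h.qAm (Nat.zero_le i) hi.le
  have f1 := h.pAm (i := r) (j := ℓ) (by omega) le_rfl
  simp only [Nat.mul_zero, AA_zero, sub_zero] at e1 e2 e7
  simp only [Nat.succ_eq_add_one] at e1
  have items : ∀ l < i, q (2 * l + 1) - q (2 * l + 2) ≤ y + 2 := by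
    intro l hl'
    have := h.qgE (Nat.zero_le l) hl' hi
    simp only [Nat.mul_zero, AA_zero, sub_zero] at this
    linarith
  have itemsP : ∀ l < r, p (2 * l) - p (2 * l + 1) ≤ y + 2 := by
    intro l hl'
    have h1 := hh l hl'
    have h2 := h.pa (i := 0) (j := 2 * l) (Nat.zero_le _) (by omega)
    linarith
  constructor
  · intro hC
    refine h.crPure (K := y + 2) (D := D) i r hi hr.le (by linarith) (by linarith)
      (by linarith) items itemsP (by linarith) ?_ hC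
    linarith
  · intro hC
    refine h.crsPure (K := y + 2) (D := D) i r hi hr.le (by linarith)
      (by linarith) items itemsP (by linarith) ?_ hC
    linarith

/-- leaf 2a -/
theorem Frame.leaf2a (h : Frame B Rl ℓ nQ nP uq up q p) (hq0 : q 0 = θ + y) (hpq : p 0 ≤ q 0 - 1)
    {i j : ℕ} (hi : i + 1 < ℓ) (hj : j < ℓ) {MB : ℝ} (hMB : 0 ≤ MB)
    (hE : θ - MB < q (2 * i + 1) - q (2 * i + 2)) (hD : θ < p (2 * j) - p (2 * j + 1))
    {D : ℝ} (h1 : D + MM B (uq 1) (up 0) + (y + MB - (q 0 - q 1)) ≤ θ)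
    (h2 : D + MM B (uq 1) (up 0) + (y - 1 + MB) ≤ θ) :
    (CrI B uq up q p (2 * (i + 1)) (2 * j + 1) D → Val B θ) ∧
      (CrSI B uq up p (2 * (i + 1)) (2 * j + 1) D → Val B θ) := by
  have hl := h.l2
  have e1 := h.qgE (Nat.zero_le i) (Nat.lt_succ_self i) (by omega)
  have e2 := AA_succ q 0
  have e3 := h.qn (i := 2 * (i + 1)) (by omega)
  have e4 := h.qa (i := 1) (j := 2 * i + 1) (by omega) (by omega)
  have e5 := h.qa (i := 0) (j := 1) (by omega) (by omega)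
  have e6 : q (2 * (i + 1)) = q (2 * i + 2) := by ring_nf
  have e7 := h.qAm (i := 1) (j := i + 1) (by omega) (by omega)
  have f1 := h.pgA (Nat.zero_le j) (Nat.lt_succ_self j) (by omega)
  have f2 := h.pE (Nat.zero_le j) hj
  have f4 := AA_succ p j
  have f6 := h.pn (i := 2 * j + 1) (by omega)
  have f7 := h.pAm (Nat.zero_le j) hj.le
  have f8 := h.pa (i := 0) (j := 2 * j) (Nat.zero_le _) (by omega)
  simp only [Nat.mul_zero, AA_zero, sub_zero, Nat.succ_eq_add_one, zero_add] at e1 e2 f1 f2 f7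
  set K := max (y + MB - (q 0 - q 1)) (y - 1 + MB) with hK
  have k1 : y + MB - (q 0 - q 1) ≤ K := le_max_left _ _
  have k2 : y - 1 + MB ≤ K := le_max_right _ _
  have k3 : D + MM B (uq 1) (up 0) + K ≤ θ := by
    rw [hK, ← max_add_add_left]
    exact max_le h1 h2
  have k0 : 0 ≤ K := by linarith
  have i0 : |q 1 - p 0| ≤ K := by
    rw [abs_le]; constructor <;> linarith
  have iQ : ∀ l, 1 ≤ l → l < i + 1 → q (2 * l) - q (2 * l + 1) ≤ K := by
    intro l h5 h6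
    have := h.qgA h5 h6 (by omega)
    linarith
  have iP : ∀ l < j, p (2 * l + 1) - p (2 * l + 2) ≤ K := by
    intro l h6
    have := h.pgE (Nat.zero_le l) h6 hj
    simp only [Nat.mul_zero, AA_zero, sub_zero] at this
    linarith
  have ht : D + MM B (uq 1) (up 0) + (|q 1 - p 0| + (AA q (i + 1) - AA q 1) +
      (p 0 - p (2 * j) - AA p j) + q (2 * (i + 1)) + p (2 * j + 1)) / 2 ≤ θ := by
    rcases abs_cases (q 1 - p 0) with ⟨h5, _⟩ | ⟨h5, _⟩ <;> rw [h5] <;> linarith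
  constructor
  · intro hC
    exact h.crMix (K := K) (D := D) i j hi.le hj k0 (by linarith) (by linarith) i0 iQ iP k3 ht hC
  · intro hC
    exact h.crsMix (K := K) (D := D) i j hi.le hj k0 (by linarith) i0 iQ iP k3 (by linarith) hC

/-- leaf 2c, normal crossing -/
theorem Frame.leaf2c (h : Frame B Rl ℓ nQ nP uq up q p) (hq0 : q 0 = θ + y) (hpq : p 0 ≤ q 0 - 1)
    (hθ : θ = ζ + y + lam) {i j : ℕ} (hi : i + 1 < ℓ) (hj : j < ℓ) {MB : ℝ}
    (hD : θ < p (2 * j) - p (2 * j + 1)) (hA : AA q ℓ + AA p ℓ < 2 * y + 2 * MB)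
    (hq : q (2 * (i + 1)) < p (2 * j) - p (2 * j + 1) - θ + 2)
    {D : ℝ} (h1 : D + MM B (uq 1) (up 0) + (y + 1) ≤ θ)
    (h2 : D + MM B (uq 1) (up 0) + (y - ζ - lam + 2 * MB) ≤ θ)
    (h3 : D + MM B (uq 1) (up 0) + (2 * y - ζ - lam - 2 * (q 0 - q 1) + 2 * MB + 2) / 2 ≤ θ)
    (hC : CrI B uq up q p (2 * (i + 1)) (2 * j + 1) D) : Val B θ := by
  have hl := h.l2
  have e2 := AA_succ q 0
  have e4 := h.qAm (i := 1) (j := ℓ) (by omega) le_rfl
  have e5 := h.qa (i := 0) (j := 1) (by omega) (by omega)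
  have e7 := h.qAm (i := 1) (j := i + 1) (by omega) (by omega)
  have e8 := h.qAm (i := i + 1) (j := ℓ) (by omega) le_rfl
  have f1 := h.pgA (Nat.zero_le j) (Nat.lt_succ_self j) (by omega)
  have f2 := h.pE (Nat.zero_le j) hj
  have f4 := AA_succ p j
  have f5 := h.pAm (i := j + 1) (j := ℓ) (by omega) le_rfl
  have f6 := h.pn (i := 2 * j + 1) (by omega)
  have f7 := h.pAm (Nat.zero_le j) hj.le
  have f8 := h.pa (i := 0) (j := 2 * j) (Nat.zero_le _) (by omega)
  simp only [Nat.mul_zero, AA_zero, sub_zero, Nat.succ_eq_add_one, zero_add] at e2 f1 f2 f7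
  set K := max (y + 1) (y - ζ - lam + 2 * MB) with hK
  have k1 : y + 1 ≤ K := le_max_left _ _
  have k2 : y - ζ - lam + 2 * MB ≤ K := le_max_right _ _
  have k3 : D + MM B (uq 1) (up 0) + K ≤ θ := by
    rw [hK, ← max_add_add_left]
    exact max_le h1 h2
  have k0 : 0 ≤ K := by linarith
  have i0 : |q 1 - p 0| ≤ K := by
    rw [abs_le]; constructor <;> linarith
  have iQ : ∀ l, 1 ≤ l → l < i + 1 → q (2 * l) - q (2 * l + 1) ≤ K := by
    intro l h5 h6
    have := h.qgA h5 h6 (by omega)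
    linarith
  have iP : ∀ l < j, p (2 * l + 1) - p (2 * l + 2) ≤ K := by
    intro l h6
    have := h.pgE (Nat.zero_le l) h6 hj
    simp only [Nat.mul_zero, AA_zero, sub_zero] at this
    linarith
  have ht : D + MM B (uq 1) (up 0) + (|q 1 - p 0| + (AA q (i + 1) - AA q 1) +
      (p 0 - p (2 * j) - AA p j) + q (2 * (i + 1)) + p (2 * j + 1)) / 2 ≤ θ := by
    rcases abs_cases (q 1 - p 0) with ⟨h5, _⟩ | ⟨h5, _⟩ <;> rw [h5] <;> linarith
  exact h.crMix (K := K) (D := D) i j hi.le hj k0 (by linarith) (by linarith) i0 iQ iP k3 ht hC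

/-- leaf 2c, last crossing -/
theorem Frame.leaf2cs (h : Frame B Rl ℓ nQ nP uq up q p) (hq0 : q 0 = θ + y) (hpq : p 0 ≤ q 0 - 1)
    (hθ : θ = ζ + y + lam) {i j : ℕ} (hi : i + 1 < ℓ) (hj : j < ℓ) {MB : ℝ}
    (hD : θ < p (2 * j) - p (2 * j + 1)) (hA : AA q ℓ + AA p ℓ < 2 * y + 2 * MB)
    {D : ℝ} (h1 : D + MM B (uq 1) (up 0) + y ≤ θ)
    (h2 : D + MM B (uq 1) (up 0) + (y - ζ - lam + 2 * MB) ≤ θ)
    (hC : CrSI B uq up p (2 * (i + 1)) (2 * j + 1) D) : Val B θ := by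
  have hl := h.l2
  have e2 := AA_succ q 0
  have e4 := h.qAm (i := 1) (j := ℓ) (by omega) le_rfl
  have e5 := h.qa (i := 0) (j := 1) (by omega) (by omega)
  have e7 := h.qAm (i := 1) (j := i + 1) (by omega) (by omega)
  have e8 := h.qAm (i := i + 1) (j := ℓ) (by omega) le_rfl
  have f1 := h.pgA (Nat.zero_le j) (Nat.lt_succ_self j) (by omega)
  have f2 := h.pE (Nat.zero_le j) hj
  have f4 := AA_succ p j
  have f5 := h.pAm (i := j + 1) (j := ℓ) (by omega) le_rfl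
  have f6 := h.pn (i := 2 * j + 1) (by omega)
  have f7 := h.pAm (Nat.zero_le j) hj.le
  have f8 := h.pa (i := 0) (j := 2 * j) (Nat.zero_le _) (by omega)
  simp only [Nat.mul_zero, AA_zero, sub_zero, Nat.succ_eq_add_one, zero_add] at e2 f1 f2 f7
  set K := max y (y - ζ - lam + 2 * MB) with hK
  have k1 : y ≤ K := le_max_left _ _
  have k2 : y - ζ - lam + 2 * MB ≤ K := le_max_right _ _
  have k3 : D + MM B (uq 1) (up 0) + K ≤ θ := by
    rw [hK, ← max_add_add_left]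
    exact max_le h1 h2
  have k0 : 0 ≤ K := by linarith
  have i0 : |q 1 - p 0| ≤ K := by
    rw [abs_le]; constructor <;> linarith
  have iQ : ∀ l, 1 ≤ l → l < i + 1 → q (2 * l) - q (2 * l + 1) ≤ K := by
    intro l h5 h6
    have := h.qgA h5 h6 (by omega)
    linarith
  have iP : ∀ l < j, p (2 * l + 1) - p (2 * l + 2) ≤ K := by
    intro l h6
    have := h.pgE (Nat.zero_le l) h6 hj
    simp only [Nat.mul_zero, AA_zero, sub_zero] at this
    linarith
  have ht : D + MM B (uq 1) (up 0) + (|q 1 - p 0| + (AA q (i + 1) - AA q 1) +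
      (p 0 - p (2 * j) - AA p j) + p (2 * j + 1)) / 2 ≤ θ := by
    rcases abs_cases (q 1 - p 0) with ⟨h5, _⟩ | ⟨h5, _⟩ <;> rw [h5] <;> linarith
  exact h.crsMix (K := K) (D := D) i j hi.le hj k0 (by linarith) i0 iQ iP k3 (by linarith) hC

/-- leaf 3b -/
theorem Frame.leaf3b (h : Frame B Rl ℓ nQ nP uq up q p) (hq0 : q 0 = θ + y) (hpq : p 0 ≤ q 0)
    (hθ : θ = ζ + y + lam) (hy : 0 ≤ y) {l j : ℕ} (hi : l < ℓ) (hj : j + 1 < ℓ) {MB MH : ℝ}
    (hMB : MB ≤ 2) (hE : θ - MB < p (2 * j + 1) - p (2 * j + 2)) (hA : 2 * θ < AA q ℓ + AA p ℓ)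
    (hq : q (2 * l + 1) < p (2 * j + 1) - p (2 * j + 2) - θ + MH)
    {D : ℝ} (hlam : D + 2 ≤ ζ + lam) (hMH : MH ≤ ζ + lam + 2) (hMB' : MB ≤ ζ + lam + 2) :
    (CrI B uq up q p (2 * l + 1) (2 * (j + 1)) D → Val B θ) ∧
      (CrSI B uq up p (2 * l + 1) (2 * (j + 1)) D → Val B θ) := by
  have hl := h.l2
  have e1 := h.qT hi
  have e2 := h.qT (i := 0) (by omega)
  have e6 := h.qn (i := 2 * l + 1) (by omega)
  have f1 := h.pgE (Nat.zero_le j) (Nat.lt_succ_self j) (by omega)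
  have f2 := h.pn (i := 2 * (j + 1)) (by omega)
  have f3 := h.pAm (Nat.zero_le (j + 1)) (by omega)
  have f4 := h.pT (i := j + 1) (by omega)
  have f5 : p (2 * (j + 1)) = p (2 * j + 2) := by ring_nf
  simp only [Nat.mul_zero, AA_zero, sub_zero, Nat.succ_eq_add_one] at f1 f3 e2
  have e7 := h.qAm (i := l) (j := ℓ) (by omega) le_rfl
  have items : ∀ l' < l, q (2 * l' + 1) - q (2 * l' + 2) ≤ y + 2 := by
    intro l' hl'
    have := h.qgE (Nat.zero_le l') hl' hi
    simp only [Nat.mul_zero, AA_zero, sub_zero] at this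
    linarith
  have itemsP : ∀ l' < j + 1, p (2 * l') - p (2 * l' + 1) ≤ y + 2 := by
    intro l' hl'
    have := h.pgA (Nat.zero_le l') hl' (by omega)
    simp only [AA_zero] at this
    linarith
  constructor
  · intro hC
    refine h.crPure (K := y + 2) (D := D) l (j + 1) hi (by omega) (by linarith) (by linarith)
      (by linarith) items itemsP (by linarith) ?_ hC
    linarith
  · intro hC
    refine h.crsPure (K := y + 2) (D := D) l (j + 1) hi (by omega) (by linarith)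
      (by linarith) items itemsP (by linarith) ?_ hC
    linarith

/-- leaf 3c -/
theorem Frame.leaf3c (h : Frame B Rl ℓ nQ nP uq up q p) (hq0 : q 0 = θ + y) (hpq : p 0 ≤ q 0)
    (hθ : θ = ζ + y + lam) (hzl : 0 ≤ ζ + lam) {i l : ℕ} (hi : i + 1 < ℓ)
    (hj : l < ℓ) {MB MH : ℝ}
    (hE : θ - MB < q (2 * i + 1) - q (2 * i + 2)) (hA : 2 * θ < AA q ℓ + AA p ℓ)
    (hp : p (2 * l + 1) < q (2 * i + 1) - q (2 * i + 2) - θ + MH)
    {D : ℝ} (h1 : D + MM B (uq 1) (up 0) + (y + MB) ≤ θ)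
    (h2 : D + MM B (uq 1) (up 0) + (y - ζ - lam + MH) ≤ θ) :
    (CrI B uq up q p (2 * (i + 1)) (2 * l + 1) D → Val B θ) ∧
      (CrSI B uq up p (2 * (i + 1)) (2 * l + 1) D → Val B θ) := by
  have hl := h.l2
  have e1 := h.qgE (Nat.zero_le i) (Nat.lt_succ_self i) (by omega)
  have e2 := AA_succ q 0
  have e3 := h.qn (i := 2 * (i + 1)) (by omega)
  have e4 := h.qa (i := 1) (j := 2 * i + 1) (by omega) (by omega)
  have e5 := h.qa (i := 0) (j := 1) (by omega) (by omega)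
  have e6 : q (2 * (i + 1)) = q (2 * i + 2) := by ring_nf
  have e7 := h.qAm (i := 1) (j := i + 1) (by omega) (by omega)
  have e8 := h.qT (i := i + 1) (by omega)
  have f1 := h.pT hj
  have f2 := h.pT (i := 0) (by omega)
  have f3 := h.pn (i := 2 * l + 1) (by omega)
  simp only [Nat.mul_zero, AA_zero, sub_zero, Nat.succ_eq_add_one, zero_add] at e1 e2 f2
  set K := max (y + MB) (y - ζ - lam + MH) with hK
  have k1 : y + MB ≤ K := le_max_left _ _
  have k2 : y - ζ - lam + MH ≤ K := le_max_right _ _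
  have k3 : D + MM B (uq 1) (up 0) + K ≤ θ := by
    rw [hK, ← max_add_add_left]
    exact max_le h1 h2
  have k0 : 0 ≤ K := by linarith
  have i0 : |q 1 - p 0| ≤ K := by
    rw [abs_le]; constructor <;> linarith
  have iQ : ∀ l', 1 ≤ l' → l' < i + 1 → q (2 * l') - q (2 * l' + 1) ≤ K := by
    intro l' h5 h6
    have := h.qgA h5 h6 (by omega)
    linarith
  have iP : ∀ l' < l, p (2 * l' + 1) - p (2 * l' + 2) ≤ K := by
    intro l' h6
    have := h.pgE (Nat.zero_le l') h6 hj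
    simp only [Nat.mul_zero, AA_zero, sub_zero] at this
    linarith
  have ht : D + MM B (uq 1) (up 0) + (|q 1 - p 0| + (AA q (i + 1) - AA q 1) +
      (p 0 - p (2 * l) - AA p l) + q (2 * (i + 1)) + p (2 * l + 1)) / 2 ≤ θ := by
    rcases abs_cases (q 1 - p 0) with ⟨h5, _⟩ | ⟨h5, _⟩ <;> rw [h5] <;> linarith
  constructor
  · intro hC
    exact h.crMix (K := K) (D := D) i l hi.le hj k0 (by linarith) (by linarith) i0 iQ iP k3 ht hC
  · intro hC
    exact h.crsMix (K := K) (D := D) i l hi.le hj k0 (by linarith) i0 iQ iP k3 (by linarith) hC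

end Pool.Agent.Exact
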