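import Pool.Agent.Lib_helper68.JudiciousUpper
import Pool.Agent.Lib_helper68.Exact.PoAll
import Pool.Agent.Lib_helper23.Exact.Small

/-!
# From the leaves of the decision tree to the constant of the problem
-/

set_option autoImplicit false
set_option linter.unusedSectionVars false

namespace Pool.Agent.Exact

open Finset

/-- all leaves of the decision tree are good -/
def LeafsOK : Prop := ∀ (V : Type) [Fintype V] [DecidableEq V] (B : V → V → ℤ) (Rl : Finset V)
  (ℓ nQ nP : ℕ) (uq up : ℕ → V) (q p : ℕ → ℝ) (k : ℤ) (θ : ℝ), Ctx B Rl ℓ nQ nP uq up q p k θ →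
  2 * k - 1 ≤ (Rl.card : ℤ) → p 0 ≤ q 0 → LeafC B Rl.card ℓ nQ nP uq up q p θ → Val B θ

section
variable {V : Type} [Fintype V] [DecidableEq V]
variable {B : V → V → ℤ} {Rl : Finset V} {ℓ nQ nP : ℕ} {uq up : ℕ → V} {q p : ℕ → ℝ}
variable {k : ℤ} {θ : ℝ}

lemma Ctx.valAux (H : LeafsOK) (h : Ctx B Rl ℓ nQ nP uq up q p k θ) (hpq : p 0 ≤ q 0)
    (hw : (∃ j < ℓ, θ < p (2 * j) - p (2 * j + 1)) → (∃ i < ℓ, θ < q (2 * i) - q (2 * i + 1)) ∨
      p 0 ≤ q 0 - 1) : Val B θ := by
  rcases lt_or_ge (Rl.card : ℤ) (2 * k - 1) with hn | hn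
  · exact h.small hn hpq
  · by_contra hnv
    obtain ⟨uq', h', hL⟩ := h.leafC hn hnv hpq hw
    exact hnv (H V B Rl ℓ nQ nP uq' up q p k θ h' hn hpq hL)

lemma Ctx.valLt (H : LeafsOK) (h : Ctx B Rl ℓ nQ nP uq up q p k θ) (hpq : p 0 < q 0) :
    Val B θ := by
  have hl := h.fr.l2
  refine h.valAux H hpq.le fun _ => Or.inr ?_
  have h1 := h.fr.sys.wtQ 0 (by omega)
  have h2 := h.fr.sys.wtP 0 (by omega)
  have h3 : ((im B (uq 0) : ℤ) : ℝ) > ((-im B (up 0) : ℤ) : ℝ) := by
    push_cast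
    rw [h1, h2]
    linarith
  have h4 : -im B (up 0) + 1 ≤ im B (uq 0) := by
    have : -im B (up 0) < im B (uq 0) := by exact_mod_cast h3
    omega
  have h5 : ((-im B (up 0) + 1 : ℤ) : ℝ) ≤ ((im B (uq 0) : ℤ) : ℝ) := by exact_mod_cast h4
  push_cast at h5
  rw [h1, h2] at h5
  linarith

theorem Ctx.val (H : LeafsOK) (h : Ctx B Rl ℓ nQ nP uq up q p k θ) : Val B θ := by
  rcases lt_trichotomy (p 0) (q 0) with hpq | hpq | hpq
  · exact h.valLt H hpq
  · by_cases hc : (∃ j < ℓ, θ < p (2 * j) - p (2 * j + 1)) →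
        (∃ i < ℓ, θ < q (2 * i) - q (2 * i + 1))
    · exact h.valAux H hpq.le fun h1 => Or.inl (hc h1)
    · push Not at hc
      exact Val_Tr (h.swap.valAux H hpq.ge fun _ => Or.inl hc.1)
  · exact Val_Tr (h.swap.valLt H hpq)

end

section
variable {V : Type} [Fintype V] [DecidableEq V] {B : V → V → ℤ}

lemma mm_Bx (d : ℕ) : mm (Bx B d) = mm B := by
  unfold mm
  simp [Fintype.sum_sum_type, Bx]

theorem val_digraph (H : LeafsOK) (h0 : ∀ u v, 0 ≤ B u v) (h1 : ∀ u v, B u v ≤ 1)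
    (hB : ∀ v, B v v = 0) {k : ℤ} (k3 : 3 ≤ k) (hout : ∀ v, k ≤ ∑ u, B v u) :
    Val B ((mm B : ℝ) / (2 * k - 1)) := by
  obtain ⟨d, L, nQ, nP, uq, up, q, p, hs, hL⟩ := exists_sys h0 h1 hB
  obtain ⟨ℓ, rfl⟩ := hL.two_dvd
  have k3r : (3 : ℝ) ≤ k := by exact_mod_cast k3
  have hC : Ctx (Bx B d) ((univ : Finset V).map ⟨Sum.inl, Sum.inl_injective⟩) ℓ nQ nP uq up q p
      k ((mm B : ℝ) / (2 * k - 1)) := by
    refine ⟨⟨hs⟩, k3, ?_, Or.inl ?_⟩
    · rw [mm_Bx]
      exact mul_div_cancel₀ _ (by linarith)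
    · intro v hv
      rw [Finset.mem_map] at hv
      obtain ⟨w, -, rfl⟩ := hv
      have e : ∑ u, Bx B d (Sum.inl w) u = ∑ u, B w u := by
        simp [Fintype.sum_sum_type, Bx]
      show k ≤ ∑ u, Bx B d (Sum.inl w) u
      rw [e]
      exact hout w
  exact Val_Bx (hC.val H)

end

open Pool.Agent.Judicious

section
variable {V : Type} [Fintype V] [DecidableEq V]

lemma four_cut (D : Finset (V × V)) (x : V → ℤ) (hx : ∀ v, x v = 1 ∨ x v = -1) :
    4 * (cut D (univ.filter fun v => x v = 1) (univ.filter fun v => x v = 1)ᶜ : ℤ) =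
      ∑ u, ∑ v, (dd D u v : ℤ) * ((1 + x u) * (1 - x v)) := by
  rw [cut_eq_sum]
  push_cast
  rw [Finset.mul_sum, Finset.sum_filter]
  refine Finset.sum_congr rfl fun u _ => ?_
  rcases hx u with h1 | h1
  · rw [if_pos h1, h1, Finset.mul_sum, Finset.compl_filter, Finset.sum_filter]
    refine Finset.sum_congr rfl fun v _ => ?_
    rcases hx v with h2 | h2
    · rw [if_neg (by simp [h2]), h2]; ring
    · rw [if_pos (by rw [h2]; norm_num), h2]; ring
  · rw [if_neg (by rw [h1]; norm_num), h1]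
    simp

lemma four_cut' (D : Finset (V × V)) (x : V → ℤ) (hx : ∀ v, x v = 1 ∨ x v = -1) :
    4 * (cut D (univ.filter fun v => x v = 1) (univ.filter fun v => x v = 1)ᶜ : ℤ) =
      D.card + ∑ v, im (fun u v => (dd D u v : ℤ)) v * x v -
        Qd (fun u v => (dd D u v : ℤ)) univ x := by
  rw [four_cut D x hx, card_eq_sum_dd]
  unfold im Qd
  have e1 : ∑ v, (∑ u, (dd D v u : ℤ) - ∑ u, (dd D u v : ℤ)) * x v =
      ∑ u, ∑ v, (dd D u v : ℤ) * x u - ∑ u, ∑ v, (dd D u v : ℤ) * x v := by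
    have e2 : ∑ u, ∑ v, (dd D u v : ℤ) * x v = ∑ v, ∑ u, (dd D u v : ℤ) * x v :=
      Finset.sum_comm
    rw [e2, ← Finset.sum_sub_distrib]
    refine Finset.sum_congr rfl fun v _ => ?_
    rw [sub_mul, Finset.sum_mul, Finset.sum_mul]
  rw [e1]
  push_cast
  rw [← Finset.sum_sub_distrib, ← Finset.sum_add_distrib, ← Finset.sum_sub_distrib]
  refine Finset.sum_congr rfl fun u _ => ?_
  rw [← Finset.sum_sub_distrib, ← Finset.sum_add_distrib, ← Finset.sum_sub_distrib]
  refine Finset.sum_congr rfl fun v _ => ?_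
  ring

theorem best_ge (D : Finset (V × V)) {θ : ℝ} (h : Val (fun u v => (dd D u v : ℤ)) θ) :
    (D.card : ℝ) - θ ≤ 4 * best D := by
  obtain ⟨x, hx, hv⟩ := h
  set X : Finset V := univ.filter fun v => x v = 1 with hX
  have h1 := four_cut' D x hx
  have h2 := four_cut' D (fun v => - x v) (fun v => by rcases hx v with h | h <;> simp [h])
  have e1 : (univ.filter fun v => - x v = 1) = Xᶜ := by
    rw [hX, Finset.compl_filter]
    ext v
    simp only [Finset.mem_filter, Finset.mem_univ, true_and]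
    rcases hx v with h | h <;> simp [h]
  rw [← hX] at h1
  rw [e1, compl_compl] at h2
  have e2 : Qd (fun u v => (dd D u v : ℤ)) univ (fun v => - x v) =
      Qd (fun u v => (dd D u v : ℤ)) univ x := by
    unfold Qd
    refine Finset.sum_congr rfl fun u _ => Finset.sum_congr rfl fun v _ => ?_
    ring
  have e3 : ∑ v, im (fun u v => (dd D u v : ℤ)) v * (- x v) =
      - ∑ v, im (fun u v => (dd D u v : ℤ)) v * x v := by
    rw [← Finset.sum_neg_distrib]
    exact Finset.sum_congr rfl fun v _ => by ring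
  rw [e2, e3] at h2
  have h3 : min (cut D X Xᶜ) (cut D Xᶜ X) ≤ best D :=
    Finset.le_sup (f := fun X : Finset V => min (cut D X Xᶜ) (cut D Xᶜ X)) (Finset.mem_univ X)
  have h1r : 4 * (cut D X Xᶜ : ℝ) = D.card +
      ((∑ v, im (fun u v => (dd D u v : ℤ)) v * x v : ℤ) : ℝ) -
        ((Qd (fun u v => (dd D u v : ℤ)) univ x : ℤ) : ℝ) := by exact_mod_cast h1
  have h2r : 4 * (cut D Xᶜ X : ℝ) = D.card +
      ((- ∑ v, im (fun u v => (dd D u v : ℤ)) v * x v : ℤ) : ℝ) -
        ((Qd (fun u v => (dd D u v : ℤ)) univ x : ℤ) : ℝ) := by exact_mod_cast h2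
  push_cast at h1r h2r hv
  have h4 := le_abs_self (∑ v, ((im (fun u v => (dd D u v : ℤ)) v : ℤ) : ℝ) * (x v : ℝ))
  have h5 := neg_abs_le (∑ v, ((im (fun u v => (dd D u v : ℤ)) v : ℤ) : ℝ) * (x v : ℝ))
  rcases le_total (cut D X Xᶜ) (cut D Xᶜ X) with h6 | h6
  · rw [min_eq_left h6] at h3
    have h7 : (cut D X Xᶜ : ℝ) ≤ best D := by exact_mod_cast h3
    linarith
  · rw [min_eq_right h6] at h3
    have h7 : (cut D Xᶜ X : ℝ) ≤ best D := by exact_mod_cast h3
    linarith

end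

/-- **The exact value of the constant, if all leaves are good.** -/
theorem c_exact (H : LeafsOK) (k : ℕ) (hk : 1 ≤ k) : c k = ((k : ℝ) - 1) / (2 * (2 * k - 1)) := by
  refine le_antisymm (c_upper k hk) ?_
  rcases (show k = 1 ∨ k = 2 ∨ 3 ≤ k by omega) with h1 | h1 | h1
  · subst h1
    have := c_lower 1 le_rfl
    norm_num at this ⊢
    exact this
  · subst h1
    rw [c_two]
    norm_num
  · refine le_csInf (ratios_nonempty k hk) ?_
    rintro r ⟨V, _, _, D, hD, hout, hcard, rfl⟩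
    have k3r : (3 : ℝ) ≤ k := by exact_mod_cast h1
    have hc : (0 : ℝ) < D.card := by exact_mod_cast hcard
    have hv := val_digraph (B := fun u v => (dd D u v : ℤ)) H (fun u v => by positivity)
      (fun u v => by unfold dd; split_ifs <;> norm_num)
      (fun v => by
        unfold dd
        have : (v, v) ∉ D := fun h => hD _ h rfl
        simp [this]) (k := k) (by exact_mod_cast h1)
      (fun v => by
        have h2 := hout v
        rw [outdeg_eq_sum] at h2
        exact_mod_cast h2)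
    have hm : (mm (fun u v => (dd D u v : ℤ)) : ℝ) = D.card := by
      have : mm (fun u v => (dd D u v : ℤ)) = (D.card : ℤ) := by
        unfold mm
        rw [card_eq_sum_dd]
        push_cast
        rfl
      rw [this]
      push_cast
      rfl
    rw [hm] at hv
    have h2 := best_ge D hv
    have h3 : (0 : ℝ) < 2 * k - 1 := by linarith
    rw [div_le_div_iff₀ (by linarith) hc]
    push_cast at h2
    have h4 : (D.card : ℝ) / (2 * k - 1) * (2 * k - 1) = D.card := by
      field_simp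
    have h5 := mul_le_mul_of_nonneg_right h2 h3.le
    rw [sub_mul, h4] at h5
    linarith

end Pool.Agent.Exact
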