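import Pool.Agent.Lib_helper68.Exact.Leaf2

/-!
# Arrangements of all hubs, with an odd number of hubs of the first type
-/

set_option autoImplicit false
set_option linter.unusedSectionVars false
set_option linter.unusedSimpArgs false
set_option linter.unnecessarySeqFocus false
set_option linter.unreachableTactic false
set_option linter.unusedTactic false

namespace Pool.Agent.Exact

open Finset

variable {V : Type*} [Fintype V] [DecidableEq V]
variable {B : V → V → ℤ} {Rl : Finset V} {ℓ nQ nP : ℕ} {uq up : ℕ → V} {q p : ℕ → ℝ}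

/-- sorted pairs, the lowest vertex of the odd type single -/
theorem Frame.tA (h : Frame B Rl ℓ nQ nP uq up q p) {K : ℝ} (i j : ℕ) (hi : i < ℓ) (hj : j ≤ ℓ)
    (h0 : q (2 * i) ≤ K) (hQ : ∀ l < i, q (2 * l) - q (2 * l + 1) ≤ K)
    (hP : ∀ l < j, p (2 * l) - p (2 * l + 1) ≤ K) :
    StI B uq up (hb (2 * i + 1) (2 * j)) 0 K (AA q i + q (2 * i) + AA p j) := by
  have h1 := h.Qe (K := K) 0 i (Nat.zero_le _) hi.le fun l _ h2 => hQ l h2
  have h2 := h.Pe (K := K) 0 j (Nat.zero_le _) hj fun l _ h2 => hP l h2
  have h3 := h.Q1 (K := K) (2 * i) (by omega) h0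
  have h4 := h.join (U := iq (2 * 0) (2 * i) ∪ iq (2 * i) (2 * i + 1)) h1 h3 rfl
    (by (intro x hx; revert hx; rcases x with x | x <;>
    simp only [Finset.mem_union, Finset.mem_insert, Finset.mem_singleton, inl_mem_full,
      inr_mem_full, inl_mem_iq, inr_mem_iq, inl_mem_ip, inr_mem_ip, Sum.inl.injEq, Sum.inr.injEq,
      reduceCtorEq, Finset.notMem_empty, or_false, false_or, false_imp_iff, imp_false,
      implies_true, not_false_eq_true, iff_false, false_iff] <;> omega)) (by (rw [Finset.disjoint_left]; intro x hx hx'; revert hx hx'; rcases x with x | x <;>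
    simp only [Finset.mem_union, Finset.mem_insert, Finset.mem_singleton, inl_mem_full,
      inr_mem_full, inl_mem_iq, inr_mem_iq, inl_mem_ip, inr_mem_ip, Sum.inl.injEq, Sum.inr.injEq,
      reduceCtorEq, Finset.notMem_empty, or_false, false_or, false_imp_iff, imp_false,
      implies_true, not_false_eq_true, iff_false, false_iff] <;> omega))
  have h5 := h.join (U := hb (2 * i + 1) (2 * j)) h4 h2 (by unfold hb; (ext x; rcases x with x | x <;>
    simp only [Finset.mem_union, Finset.mem_insert, Finset.mem_singleton, inl_mem_full,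
      inr_mem_full, inl_mem_iq, inr_mem_iq, inl_mem_ip, inr_mem_ip, Sum.inl.injEq, Sum.inr.injEq,
      reduceCtorEq, Finset.notMem_empty, or_false, false_or, false_imp_iff, imp_false,
      implies_true, not_false_eq_true, iff_false, false_iff] <;> omega))
    (by unfold hb; (intro x hx; revert hx; rcases x with x | x <;>
    simp only [Finset.mem_union, Finset.mem_insert, Finset.mem_singleton, inl_mem_full,
      inr_mem_full, inl_mem_iq, inr_mem_iq, inl_mem_ip, inr_mem_ip, Sum.inl.injEq, Sum.inr.injEq,
      reduceCtorEq, Finset.notMem_empty, or_false, false_or, false_imp_iff, imp_false,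
      implies_true, not_false_eq_true, iff_false, false_iff] <;> omega)) (by (rw [Finset.disjoint_left]; intro x hx hx'; revert hx hx'; rcases x with x | x <;>
    simp only [Finset.mem_union, Finset.mem_insert, Finset.mem_singleton, inl_mem_full,
      inr_mem_full, inl_mem_iq, inr_mem_iq, inl_mem_ip, inr_mem_ip, Sum.inl.injEq, Sum.inr.injEq,
      reduceCtorEq, Finset.notMem_empty, or_false, false_or, false_imp_iff, imp_false,
      implies_true, not_false_eq_true, iff_false, false_iff] <;> omega))
  rw [AA_zero, AA_zero] at h5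
  exact h5.mono (by norm_num) le_rfl (by linarith)

/-- sorted pairs of the hubs except the lowest of the odd type -/
theorem Frame.tA' (h : Frame B Rl ℓ nQ nP uq up q p) {K : ℝ} (i j : ℕ) (hi : i < ℓ) (hj : j ≤ ℓ)
    (hQ : ∀ l < i, q (2 * l) - q (2 * l + 1) ≤ K)
    (hP : ∀ l < j, p (2 * l) - p (2 * l + 1) ≤ K) :
    StI B uq up ((hb (2 * i + 1) (2 * j)).erase (Sum.inl (2 * i))) 0 K (AA q i + AA p j) := by
  have h1 := h.Qe (K := K) 0 i (Nat.zero_le _) hi.le fun l _ h2 => hQ l h2
  have h2 := h.Pe (K := K) 0 j (Nat.zero_le _) hj fun l _ h2 => hP l h2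
  have e : (hb (2 * i + 1) (2 * j)).erase (Sum.inl (2 * i)) = iq (2 * 0) (2 * i) ∪
      ip (2 * 0) (2 * j) := by
    unfold hb
    ext x
    rcases x with x | x <;>
      simp only [Finset.mem_erase, Finset.mem_union, inl_mem_iq, inl_mem_ip, inr_mem_iq,
        inr_mem_ip, ne_eq, Sum.inl.injEq, reduceCtorEq, not_false_eq_true, or_false, false_or,
        true_and] <;> omega
  have h5 := h.join h1 h2 e (by rw [e]; (intro x hx; revert hx; rcases x with x | x <;>
    simp only [Finset.mem_union, Finset.mem_insert, Finset.mem_singleton, inl_mem_full,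
      inr_mem_full, inl_mem_iq, inr_mem_iq, inl_mem_ip, inr_mem_ip, Sum.inl.injEq, Sum.inr.injEq,
      reduceCtorEq, Finset.notMem_empty, or_false, false_or, false_imp_iff, imp_false,
      implies_true, not_false_eq_true, iff_false, false_iff] <;> omega)) (by (rw [Finset.disjoint_left]; intro x hx hx'; revert hx hx'; rcases x with x | x <;>
    simp only [Finset.mem_union, Finset.mem_insert, Finset.mem_singleton, inl_mem_full,
      inr_mem_full, inl_mem_iq, inr_mem_iq, inl_mem_ip, inr_mem_ip, Sum.inl.injEq, Sum.inr.injEq,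
      reduceCtorEq, Finset.notMem_empty, or_false, false_or, false_imp_iff, imp_false,
      implies_true, not_false_eq_true, iff_false, false_iff] <;> omega))
  rw [AA_zero, AA_zero] at h5
  exact h5.mono (by norm_num) le_rfl (by linarith)

/-- the triple `q₀ +, q_{2i-1} -, q_{2i} -` -/
theorem Frame.tTO (h : Frame B Rl ℓ nQ nP uq up q p) {K M : ℝ} (i j : ℕ) (hi : i + 1 < ℓ)
    (hj : j ≤ ℓ) (h0 : |q 0 - q (2 * i + 1) - q (2 * i + 2)| ≤ K)
    (hM : ((MM B (uq (2 * i + 1)) (uq (2 * i + 2)) - MM B (uq 0) (uq (2 * i + 1)) -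
      MM B (uq 0) (uq (2 * i + 2)) : ℤ) : ℝ) ≤ M)
    (hQ : ∀ l < i, q (2 * l + 1) - q (2 * l + 2) ≤ K)
    (hP : ∀ l < j, p (2 * l) - p (2 * l + 1) ≤ K) :
    StI B uq up (hb (2 * (i + 1) + 1) (2 * j)) M K
      (|q 0 - q (2 * i + 1) - q (2 * i + 2)| + (q 0 - q (2 * i) - AA q i) + AA p j) := by
  have h1 := h.Qo (K := K) 0 i (Nat.zero_le _) (by omega) fun l _ h2 => hQ l h2
  have h2 := h.Pe (K := K) 0 j (Nat.zero_le _) hj fun l _ h2 => hP l h2
  have w1 := h.sys.wtQ 0 (by omega)
  have w2 := h.sys.wtQ (2 * i + 1) (by omega)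
  have w3 := h.sys.wtQ (2 * i + 2) (by omega)
  have h3 := h.tri (x := Sum.inl 0) (y := Sum.inl (2 * i + 1)) (z := Sum.inl (2 * i + 2))
    (by rw [inl_mem_full]; omega) (by rw [inl_mem_full]; omega) (by rw [inl_mem_full]; omega)
    (by simp) (by simp) (by simp) 1 (-1) (-1) (Or.inl rfl) (Or.inr rfl) (Or.inr rfl)
    (M := M) (K := |q 0 - q (2 * i + 1) - q (2 * i + 2)|) (by
      refine le_trans (le_of_eq ?_) hM
      simp only [vx, Sum.elim_inl]
      push_cast; ring) (by
      simp only [vx, Sum.elim_inl]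
      push_cast
      rw [w1, w2, w3]
      rw [show q 0 * 1 + q (2 * i + 1) * -1 + q (2 * i + 2) * -1 =
        q 0 - q (2 * i + 1) - q (2 * i + 2) by ring])
  have h3' : StI B uq up {Sum.inl 0, Sum.inl (2 * i + 1), Sum.inl (2 * i + 2)} M K
      |q 0 - q (2 * i + 1) - q (2 * i + 2)| := StI.mono h3 le_rfl h0 le_rfl
  have h4 := h.join (U := {Sum.inl 0, Sum.inl (2 * i + 1), Sum.inl (2 * i + 2)} ∪
    iq (2 * 0 + 1) (2 * i + 1)) h3' h1 rfl (by (intro x hx; revert hx; rcases x with x | x <;>
    simp only [Finset.mem_union, Finset.mem_insert, Finset.mem_singleton, inl_mem_full,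
      inr_mem_full, inl_mem_iq, inr_mem_iq, inl_mem_ip, inr_mem_ip, Sum.inl.injEq, Sum.inr.injEq,
      reduceCtorEq, Finset.notMem_empty, or_false, false_or, false_imp_iff, imp_false,
      implies_true, not_false_eq_true, iff_false, false_iff] <;> omega)) (by (rw [Finset.disjoint_left]; intro x hx hx'; revert hx hx'; rcases x with x | x <;>
    simp only [Finset.mem_union, Finset.mem_insert, Finset.mem_singleton, inl_mem_full,
      inr_mem_full, inl_mem_iq, inr_mem_iq, inl_mem_ip, inr_mem_ip, Sum.inl.injEq, Sum.inr.injEq,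
      reduceCtorEq, Finset.notMem_empty, or_false, false_or, false_imp_iff, imp_false,
      implies_true, not_false_eq_true, iff_false, false_iff] <;> omega))
  have h5 := h.join (U := hb (2 * (i + 1) + 1) (2 * j)) h4 h2 (by unfold hb; (ext x; rcases x with x | x <;>
    simp only [Finset.mem_union, Finset.mem_insert, Finset.mem_singleton, inl_mem_full,
      inr_mem_full, inl_mem_iq, inr_mem_iq, inl_mem_ip, inr_mem_ip, Sum.inl.injEq, Sum.inr.injEq,
      reduceCtorEq, Finset.notMem_empty, or_false, false_or, false_imp_iff, imp_false,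
      implies_true, not_false_eq_true, iff_false, false_iff] <;> omega))
    (by unfold hb; (intro x hx; revert hx; rcases x with x | x <;>
    simp only [Finset.mem_union, Finset.mem_insert, Finset.mem_singleton, inl_mem_full,
      inr_mem_full, inl_mem_iq, inr_mem_iq, inl_mem_ip, inr_mem_ip, Sum.inl.injEq, Sum.inr.injEq,
      reduceCtorEq, Finset.notMem_empty, or_false, false_or, false_imp_iff, imp_false,
      implies_true, not_false_eq_true, iff_false, false_iff] <;> omega)) (by (rw [Finset.disjoint_left]; intro x hx hx'; revert hx hx'; rcases x with x | x <;>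
    simp only [Finset.mem_union, Finset.mem_insert, Finset.mem_singleton, inl_mem_full,
      inr_mem_full, inl_mem_iq, inr_mem_iq, inl_mem_ip, inr_mem_ip, Sum.inl.injEq, Sum.inr.injEq,
      reduceCtorEq, Finset.notMem_empty, or_false, false_or, false_imp_iff, imp_false,
      implies_true, not_false_eq_true, iff_false, false_iff] <;> omega))
  rw [AA_zero, AA_zero] at h5
  refine h5.mono (by linarith) le_rfl ?_
  rw [Nat.mul_zero]
  linarith

/-- the triple `p₀ +, p_{2j-1} -, q_{2i} +` -/
theorem Frame.tTE (h : Frame B Rl ℓ nQ nP uq up q p) {K M : ℝ} (i j : ℕ) (hi : i < ℓ)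
    (hj : j < ℓ) (h0 : |p 0 - p (2 * j + 1) - q (2 * i)| ≤ K)
    (hM : ((MM B (up 0) (uq (2 * i)) - MM B (up 0) (up (2 * j + 1)) -
      MM B (up (2 * j + 1)) (uq (2 * i)) : ℤ) : ℝ) ≤ M)
    (hQ : ∀ l < i, q (2 * l) - q (2 * l + 1) ≤ K)
    (hP : ∀ l < j, p (2 * l + 1) - p (2 * l + 2) ≤ K) :
    StI B uq up (hb (2 * i + 1) (2 * (j + 1))) M K
      (|p 0 - p (2 * j + 1) - q (2 * i)| + AA q i + (p 0 - p (2 * j) - AA p j)) := by
  have h1 := h.Qe (K := K) 0 i (Nat.zero_le _) hi.le fun l _ h2 => hQ l h2
  have h2 := h.Po (K := K) 0 j (Nat.zero_le _) hj fun l _ h2 => hP l h2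
  have w1 := h.sys.wtP 0 (by omega)
  have w2 := h.sys.wtP (2 * j + 1) (by omega)
  have w3 := h.sys.wtQ (2 * i) (by omega)
  have h3 := h.tri (x := Sum.inr 0) (y := Sum.inr (2 * j + 1)) (z := Sum.inl (2 * i))
    (by rw [inr_mem_full]; omega) (by rw [inr_mem_full]; omega) (by rw [inl_mem_full]; omega)
    (by simp) (by simp) (by simp) 1 (-1) 1 (Or.inl rfl) (Or.inr rfl) (Or.inl rfl)
    (M := M) (K := |p 0 - p (2 * j + 1) - q (2 * i)|) (by
      refine le_trans (le_of_eq ?_) hM
      simp only [vx, Sum.elim_inl, Sum.elim_inr]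
      push_cast; ring) (by
      simp only [vx, Sum.elim_inl, Sum.elim_inr]
      push_cast
      rw [w1, w2, w3]
      rw [show -p 0 * 1 + -p (2 * j + 1) * -1 + q (2 * i) * 1 =
        -(p 0 - p (2 * j + 1) - q (2 * i)) by ring, abs_neg])
  have h3' : StI B uq up {Sum.inr 0, Sum.inr (2 * j + 1), Sum.inl (2 * i)} M K
      |p 0 - p (2 * j + 1) - q (2 * i)| := StI.mono h3 le_rfl h0 le_rfl
  have h4 := h.join (U := {Sum.inr 0, Sum.inr (2 * j + 1), Sum.inl (2 * i)} ∪
    iq (2 * 0) (2 * i)) h3' h1 rfl (by (intro x hx; revert hx; rcases x with x | x <;>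
    simp only [Finset.mem_union, Finset.mem_insert, Finset.mem_singleton, inl_mem_full,
      inr_mem_full, inl_mem_iq, inr_mem_iq, inl_mem_ip, inr_mem_ip, Sum.inl.injEq, Sum.inr.injEq,
      reduceCtorEq, Finset.notMem_empty, or_false, false_or, false_imp_iff, imp_false,
      implies_true, not_false_eq_true, iff_false, false_iff] <;> omega)) (by (rw [Finset.disjoint_left]; intro x hx hx'; revert hx hx'; rcases x with x | x <;>
    simp only [Finset.mem_union, Finset.mem_insert, Finset.mem_singleton, inl_mem_full,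
      inr_mem_full, inl_mem_iq, inr_mem_iq, inl_mem_ip, inr_mem_ip, Sum.inl.injEq, Sum.inr.injEq,
      reduceCtorEq, Finset.notMem_empty, or_false, false_or, false_imp_iff, imp_false,
      implies_true, not_false_eq_true, iff_false, false_iff] <;> omega))
  have h5 := h.join (U := hb (2 * i + 1) (2 * (j + 1))) h4 h2 (by unfold hb; (ext x; rcases x with x | x <;>
    simp only [Finset.mem_union, Finset.mem_insert, Finset.mem_singleton, inl_mem_full,
      inr_mem_full, inl_mem_iq, inr_mem_iq, inl_mem_ip, inr_mem_ip, Sum.inl.injEq, Sum.inr.injEq,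
      reduceCtorEq, Finset.notMem_empty, or_false, false_or, false_imp_iff, imp_false,
      implies_true, not_false_eq_true, iff_false, false_iff] <;> omega))
    (by unfold hb; (intro x hx; revert hx; rcases x with x | x <;>
    simp only [Finset.mem_union, Finset.mem_insert, Finset.mem_singleton, inl_mem_full,
      inr_mem_full, inl_mem_iq, inr_mem_iq, inl_mem_ip, inr_mem_ip, Sum.inl.injEq, Sum.inr.injEq,
      reduceCtorEq, Finset.notMem_empty, or_false, false_or, false_imp_iff, imp_false,
      implies_true, not_false_eq_true, iff_false, false_iff] <;> omega)) (by (rw [Finset.disjoint_left]; intro x hx hx'; revert hx hx'; rcases x with x | x <;>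
    simp only [Finset.mem_union, Finset.mem_insert, Finset.mem_singleton, inl_mem_full,
      inr_mem_full, inl_mem_iq, inr_mem_iq, inl_mem_ip, inr_mem_ip, Sum.inl.injEq, Sum.inr.injEq,
      reduceCtorEq, Finset.notMem_empty, or_false, false_or, false_imp_iff, imp_false,
      implies_true, not_false_eq_true, iff_false, false_iff] <;> omega))
  rw [AA_zero, AA_zero] at h5
  refine h5.mono (by linarith) le_rfl ?_
  rw [Nat.mul_zero]
  linarith

/-- `(q_{2i}, p₀)` aligned, `p_{2j-1}` single -/
theorem Frame.tS4 (h : Frame B Rl ℓ nQ nP uq up q p) {K : ℝ} (i j : ℕ) (hi : i < ℓ)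
    (hj : j < ℓ) (h0 : |q (2 * i) - p 0| ≤ K) (h1 : p (2 * j + 1) ≤ K)
    (hQ : ∀ l < i, q (2 * l) - q (2 * l + 1) ≤ K)
    (hP : ∀ l < j, p (2 * l + 1) - p (2 * l + 2) ≤ K) :
    StI B uq up (hb (2 * i + 1) (2 * (j + 1))) (MM B (uq (2 * i)) (up 0)) K
      (|q (2 * i) - p 0| + AA q i + (p 0 - p (2 * j) - AA p j) + p (2 * j + 1)) := by
  have a1 := h.Qe (K := K) 0 i (Nat.zero_le _) hi.le fun l _ h2 => hQ l h2
  have a2 := h.Po (K := K) 0 j (Nat.zero_le _) hj fun l _ h2 => hP l h2
  have a3 := h.QP (K := K) (2 * i) 0 (by omega) (by omega) h0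
  have a4 := h.P1 (K := K) (2 * j + 1) (by omega) h1
  have b1 := h.join (U := {Sum.inl (2 * i), Sum.inr 0} ∪ iq (2 * 0) (2 * i)) a3 a1 rfl
    (by (intro x hx; revert hx; rcases x with x | x <;>
    simp only [Finset.mem_union, Finset.mem_insert, Finset.mem_singleton, inl_mem_full,
      inr_mem_full, inl_mem_iq, inr_mem_iq, inl_mem_ip, inr_mem_ip, Sum.inl.injEq, Sum.inr.injEq,
      reduceCtorEq, Finset.notMem_empty, or_false, false_or, false_imp_iff, imp_false,
      implies_true, not_false_eq_true, iff_false, false_iff] <;> omega)) (by (rw [Finset.disjoint_left]; intro x hx hx'; revert hx hx'; rcases x with x | x <;>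
    simp only [Finset.mem_union, Finset.mem_insert, Finset.mem_singleton, inl_mem_full,
      inr_mem_full, inl_mem_iq, inr_mem_iq, inl_mem_ip, inr_mem_ip, Sum.inl.injEq, Sum.inr.injEq,
      reduceCtorEq, Finset.notMem_empty, or_false, false_or, false_imp_iff, imp_false,
      implies_true, not_false_eq_true, iff_false, false_iff] <;> omega))
  have b2 := h.join (U := ip (2 * 0 + 1) (2 * j + 1) ∪ ip (2 * j + 1) (2 * j + 1 + 1)) a2 a4 rfl
    (by (intro x hx; revert hx; rcases x with x | x <;>
    simp only [Finset.mem_union, Finset.mem_insert, Finset.mem_singleton, inl_mem_full,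
      inr_mem_full, inl_mem_iq, inr_mem_iq, inl_mem_ip, inr_mem_ip, Sum.inl.injEq, Sum.inr.injEq,
      reduceCtorEq, Finset.notMem_empty, or_false, false_or, false_imp_iff, imp_false,
      implies_true, not_false_eq_true, iff_false, false_iff] <;> omega)) (by (rw [Finset.disjoint_left]; intro x hx hx'; revert hx hx'; rcases x with x | x <;>
    simp only [Finset.mem_union, Finset.mem_insert, Finset.mem_singleton, inl_mem_full,
      inr_mem_full, inl_mem_iq, inr_mem_iq, inl_mem_ip, inr_mem_ip, Sum.inl.injEq, Sum.inr.injEq,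
      reduceCtorEq, Finset.notMem_empty, or_false, false_or, false_imp_iff, imp_false,
      implies_true, not_false_eq_true, iff_false, false_iff] <;> omega))
  have b3 := h.join (U := hb (2 * i + 1) (2 * (j + 1))) b1 b2 (by unfold hb; (ext x; rcases x with x | x <;>
    simp only [Finset.mem_union, Finset.mem_insert, Finset.mem_singleton, inl_mem_full,
      inr_mem_full, inl_mem_iq, inr_mem_iq, inl_mem_ip, inr_mem_ip, Sum.inl.injEq, Sum.inr.injEq,
      reduceCtorEq, Finset.notMem_empty, or_false, false_or, false_imp_iff, imp_false,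
      implies_true, not_false_eq_true, iff_false, false_iff] <;> omega))
    (by unfold hb; (intro x hx; revert hx; rcases x with x | x <;>
    simp only [Finset.mem_union, Finset.mem_insert, Finset.mem_singleton, inl_mem_full,
      inr_mem_full, inl_mem_iq, inr_mem_iq, inl_mem_ip, inr_mem_ip, Sum.inl.injEq, Sum.inr.injEq,
      reduceCtorEq, Finset.notMem_empty, or_false, false_or, false_imp_iff, imp_false,
      implies_true, not_false_eq_true, iff_false, false_iff] <;> omega)) (by (rw [Finset.disjoint_left]; intro x hx hx'; revert hx hx'; rcases x with x | x <;>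
    simp only [Finset.mem_union, Finset.mem_insert, Finset.mem_singleton, inl_mem_full,
      inr_mem_full, inl_mem_iq, inr_mem_iq, inl_mem_ip, inr_mem_ip, Sum.inl.injEq, Sum.inr.injEq,
      reduceCtorEq, Finset.notMem_empty, or_false, false_or, false_imp_iff, imp_false,
      implies_true, not_false_eq_true, iff_false, false_iff] <;> omega))
  rw [AA_zero, AA_zero] at b3
  refine b3.mono (by linarith) le_rfl ?_
  rw [Nat.mul_zero]
  linarith

/-- the same without the single vertex -/
theorem Frame.tS4' (h : Frame B Rl ℓ nQ nP uq up q p) {K : ℝ} (i j : ℕ) (hi : i < ℓ)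
    (hj : j < ℓ) (h0 : |q (2 * i) - p 0| ≤ K)
    (hQ : ∀ l < i, q (2 * l) - q (2 * l + 1) ≤ K)
    (hP : ∀ l < j, p (2 * l + 1) - p (2 * l + 2) ≤ K) :
    StI B uq up ((hb (2 * i + 1) (2 * (j + 1))).erase (Sum.inr (2 * j + 1)))
      (MM B (uq (2 * i)) (up 0)) K
      (|q (2 * i) - p 0| + AA q i + (p 0 - p (2 * j) - AA p j)) := by
  have a1 := h.Qe (K := K) 0 i (Nat.zero_le _) hi.le fun l _ h2 => hQ l h2
  have a2 := h.Po (K := K) 0 j (Nat.zero_le _) hj fun l _ h2 => hP l h2
  have a3 := h.QP (K := K) (2 * i) 0 (by omega) (by omega) h0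
  have b1 := h.join (U := {Sum.inl (2 * i), Sum.inr 0} ∪ iq (2 * 0) (2 * i)) a3 a1 rfl
    (by (intro x hx; revert hx; rcases x with x | x <;>
    simp only [Finset.mem_union, Finset.mem_insert, Finset.mem_singleton, inl_mem_full,
      inr_mem_full, inl_mem_iq, inr_mem_iq, inl_mem_ip, inr_mem_ip, Sum.inl.injEq, Sum.inr.injEq,
      reduceCtorEq, Finset.notMem_empty, or_false, false_or, false_imp_iff, imp_false,
      implies_true, not_false_eq_true, iff_false, false_iff] <;> omega)) (by (rw [Finset.disjoint_left]; intro x hx hx'; revert hx hx'; rcases x with x | x <;>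
    simp only [Finset.mem_union, Finset.mem_insert, Finset.mem_singleton, inl_mem_full,
      inr_mem_full, inl_mem_iq, inr_mem_iq, inl_mem_ip, inr_mem_ip, Sum.inl.injEq, Sum.inr.injEq,
      reduceCtorEq, Finset.notMem_empty, or_false, false_or, false_imp_iff, imp_false,
      implies_true, not_false_eq_true, iff_false, false_iff] <;> omega))
  have e : (hb (2 * i + 1) (2 * (j + 1))).erase (Sum.inr (2 * j + 1)) =
      ({Sum.inl (2 * i), Sum.inr 0} ∪ iq (2 * 0) (2 * i)) ∪ ip (2 * 0 + 1) (2 * j + 1) := by
    unfold hb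
    ext x
    rcases x with x | x <;>
      simp only [Finset.mem_erase, Finset.mem_union, Finset.mem_insert, Finset.mem_singleton,
        inl_mem_iq, inl_mem_ip, inr_mem_iq,
        inr_mem_ip, ne_eq, Sum.inl.injEq, Sum.inr.injEq, reduceCtorEq, not_false_eq_true, or_false,
        false_or, true_and] <;> omega
  have b3 := h.join b1 a2 e (by rw [e]; (intro x hx; revert hx; rcases x with x | x <;>
    simp only [Finset.mem_union, Finset.mem_insert, Finset.mem_singleton, inl_mem_full,
      inr_mem_full, inl_mem_iq, inr_mem_iq, inl_mem_ip, inr_mem_ip, Sum.inl.injEq, Sum.inr.injEq,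
      reduceCtorEq, Finset.notMem_empty, or_false, false_or, false_imp_iff, imp_false,
      implies_true, not_false_eq_true, iff_false, false_iff] <;> omega)) (by (rw [Finset.disjoint_left]; intro x hx hx'; revert hx hx'; rcases x with x | x <;>
    simp only [Finset.mem_union, Finset.mem_insert, Finset.mem_singleton, inl_mem_full,
      inr_mem_full, inl_mem_iq, inr_mem_iq, inl_mem_ip, inr_mem_ip, Sum.inl.injEq, Sum.inr.injEq,
      reduceCtorEq, Finset.notMem_empty, or_false, false_or, false_imp_iff, imp_false,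
      implies_true, not_false_eq_true, iff_false, false_iff] <;> omega))
  rw [AA_zero, AA_zero] at b3
  refine b3.mono (by linarith) le_rfl ?_
  rw [Nat.mul_zero]
  linarith

/-- the triple `q₀ +, p_{2j-2} +, p_{2j-1} +` -/
theorem Frame.tG3 (h : Frame B Rl ℓ nQ nP uq up q p) {K M : ℝ} (i j : ℕ) (hi : i < ℓ)
    (hj : j < ℓ) (h0 : |q 0 - p (2 * j) - p (2 * j + 1)| ≤ K)
    (hM : ((MM B (uq 0) (up (2 * j)) + MM B (uq 0) (up (2 * j + 1)) +
      MM B (up (2 * j)) (up (2 * j + 1)) : ℤ) : ℝ) ≤ M)
    (hQ : ∀ l < i, q (2 * l + 1) - q (2 * l + 2) ≤ K)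
    (hP : ∀ l < j, p (2 * l) - p (2 * l + 1) ≤ K) :
    StI B uq up (hb (2 * i + 1) (2 * (j + 1))) M K
      (|q 0 - p (2 * j) - p (2 * j + 1)| + (q 0 - q (2 * i) - AA q i) + AA p j) := by
  have h1 := h.Qo (K := K) 0 i (Nat.zero_le _) hi fun l _ h2 => hQ l h2
  have h2 := h.Pe (K := K) 0 j (Nat.zero_le _) hj.le fun l _ h2 => hP l h2
  have w1 := h.sys.wtQ 0 (by omega)
  have w2 := h.sys.wtP (2 * j) (by omega)
  have w3 := h.sys.wtP (2 * j + 1) (by omega)
  have h3 := h.tri (x := Sum.inl 0) (y := Sum.inr (2 * j)) (z := Sum.inr (2 * j + 1))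
    (by rw [inl_mem_full]; omega) (by rw [inr_mem_full]; omega) (by rw [inr_mem_full]; omega)
    (by simp) (by simp) (by simp) 1 1 1 (Or.inl rfl) (Or.inl rfl) (Or.inl rfl)
    (M := M) (K := |q 0 - p (2 * j) - p (2 * j + 1)|) (by
      refine le_trans (le_of_eq ?_) hM
      simp only [vx, Sum.elim_inl, Sum.elim_inr]
      push_cast; ring) (by
      simp only [vx, Sum.elim_inl, Sum.elim_inr]
      push_cast
      rw [w1, w2, w3]
      rw [show q 0 * 1 + -p (2 * j) * 1 + -p (2 * j + 1) * 1 =
        q 0 - p (2 * j) - p (2 * j + 1) by ring])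
  have h3' : StI B uq up {Sum.inl 0, Sum.inr (2 * j), Sum.inr (2 * j + 1)} M K
      |q 0 - p (2 * j) - p (2 * j + 1)| := StI.mono h3 le_rfl h0 le_rfl
  have h4 := h.join (U := {Sum.inl 0, Sum.inr (2 * j), Sum.inr (2 * j + 1)} ∪
    iq (2 * 0 + 1) (2 * i + 1)) h3' h1 rfl (by (intro x hx; revert hx; rcases x with x | x <;>
    simp only [Finset.mem_union, Finset.mem_insert, Finset.mem_singleton, inl_mem_full,
      inr_mem_full, inl_mem_iq, inr_mem_iq, inl_mem_ip, inr_mem_ip, Sum.inl.injEq, Sum.inr.injEq,
      reduceCtorEq, Finset.notMem_empty, or_false, false_or, false_imp_iff, imp_false,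
      implies_true, not_false_eq_true, iff_false, false_iff] <;> omega)) (by (rw [Finset.disjoint_left]; intro x hx hx'; revert hx hx'; rcases x with x | x <;>
    simp only [Finset.mem_union, Finset.mem_insert, Finset.mem_singleton, inl_mem_full,
      inr_mem_full, inl_mem_iq, inr_mem_iq, inl_mem_ip, inr_mem_ip, Sum.inl.injEq, Sum.inr.injEq,
      reduceCtorEq, Finset.notMem_empty, or_false, false_or, false_imp_iff, imp_false,
      implies_true, not_false_eq_true, iff_false, false_iff] <;> omega))
  have h5 := h.join (U := hb (2 * i + 1) (2 * (j + 1))) h4 h2 (by unfold hb; (ext x; rcases x with x | x <;>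
    simp only [Finset.mem_union, Finset.mem_insert, Finset.mem_singleton, inl_mem_full,
      inr_mem_full, inl_mem_iq, inr_mem_iq, inl_mem_ip, inr_mem_ip, Sum.inl.injEq, Sum.inr.injEq,
      reduceCtorEq, Finset.notMem_empty, or_false, false_or, false_imp_iff, imp_false,
      implies_true, not_false_eq_true, iff_false, false_iff] <;> omega))
    (by unfold hb; (intro x hx; revert hx; rcases x with x | x <;>
    simp only [Finset.mem_union, Finset.mem_insert, Finset.mem_singleton, inl_mem_full,
      inr_mem_full, inl_mem_iq, inr_mem_iq, inl_mem_ip, inr_mem_ip, Sum.inl.injEq, Sum.inr.injEq,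
      reduceCtorEq, Finset.notMem_empty, or_false, false_or, false_imp_iff, imp_false,
      implies_true, not_false_eq_true, iff_false, false_iff] <;> omega)) (by (rw [Finset.disjoint_left]; intro x hx hx'; revert hx hx'; rcases x with x | x <;>
    simp only [Finset.mem_union, Finset.mem_insert, Finset.mem_singleton, inl_mem_full,
      inr_mem_full, inl_mem_iq, inr_mem_iq, inl_mem_ip, inr_mem_ip, Sum.inl.injEq, Sum.inr.injEq,
      reduceCtorEq, Finset.notMem_empty, or_false, false_or, false_imp_iff, imp_false,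
      implies_true, not_false_eq_true, iff_false, false_iff] <;> omega))
  rw [AA_zero, AA_zero] at h5
  refine h5.mono (by linarith) le_rfl ?_
  rw [Nat.mul_zero]
  linarith

/-- `(q_{2i}, p_{2j-2})` aligned, `p_{2j-1}` single -/
theorem Frame.tS2 (h : Frame B Rl ℓ nQ nP uq up q p) {K : ℝ} (i j : ℕ) (hi : i < ℓ)
    (hj : j < ℓ) (h0 : |q (2 * i) - p (2 * j)| ≤ K) (h1 : p (2 * j + 1) ≤ K)
    (hQ : ∀ l < i, q (2 * l) - q (2 * l + 1) ≤ K)
    (hP : ∀ l < j, p (2 * l) - p (2 * l + 1) ≤ K) :
    StI B uq up (hb (2 * i + 1) (2 * (j + 1))) (MM B (uq (2 * i)) (up (2 * j))) K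
      (|q (2 * i) - p (2 * j)| + AA q i + AA p j + p (2 * j + 1)) := by
  have a1 := h.Qe (K := K) 0 i (Nat.zero_le _) hi.le fun l _ h2 => hQ l h2
  have a2 := h.Pe (K := K) 0 j (Nat.zero_le _) hj.le fun l _ h2 => hP l h2
  have a3 := h.QP (K := K) (2 * i) (2 * j) (by omega) (by omega) h0
  have a4 := h.P1 (K := K) (2 * j + 1) (by omega) h1
  have b1 := h.join (U := {Sum.inl (2 * i), Sum.inr (2 * j)} ∪ iq (2 * 0) (2 * i)) a3 a1 rfl
    (by (intro x hx; revert hx; rcases x with x | x <;>
    simp only [Finset.mem_union, Finset.mem_insert, Finset.mem_singleton, inl_mem_full,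
      inr_mem_full, inl_mem_iq, inr_mem_iq, inl_mem_ip, inr_mem_ip, Sum.inl.injEq, Sum.inr.injEq,
      reduceCtorEq, Finset.notMem_empty, or_false, false_or, false_imp_iff, imp_false,
      implies_true, not_false_eq_true, iff_false, false_iff] <;> omega)) (by (rw [Finset.disjoint_left]; intro x hx hx'; revert hx hx'; rcases x with x | x <;>
    simp only [Finset.mem_union, Finset.mem_insert, Finset.mem_singleton, inl_mem_full,
      inr_mem_full, inl_mem_iq, inr_mem_iq, inl_mem_ip, inr_mem_ip, Sum.inl.injEq, Sum.inr.injEq,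
      reduceCtorEq, Finset.notMem_empty, or_false, false_or, false_imp_iff, imp_false,
      implies_true, not_false_eq_true, iff_false, false_iff] <;> omega))
  have b2 := h.join (U := ip (2 * 0) (2 * j) ∪ ip (2 * j + 1) (2 * j + 1 + 1)) a2 a4 rfl
    (by (intro x hx; revert hx; rcases x with x | x <;>
    simp only [Finset.mem_union, Finset.mem_insert, Finset.mem_singleton, inl_mem_full,
      inr_mem_full, inl_mem_iq, inr_mem_iq, inl_mem_ip, inr_mem_ip, Sum.inl.injEq, Sum.inr.injEq,
      reduceCtorEq, Finset.notMem_empty, or_false, false_or, false_imp_iff, imp_false,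
      implies_true, not_false_eq_true, iff_false, false_iff] <;> omega)) (by (rw [Finset.disjoint_left]; intro x hx hx'; revert hx hx'; rcases x with x | x <;>
    simp only [Finset.mem_union, Finset.mem_insert, Finset.mem_singleton, inl_mem_full,
      inr_mem_full, inl_mem_iq, inr_mem_iq, inl_mem_ip, inr_mem_ip, Sum.inl.injEq, Sum.inr.injEq,
      reduceCtorEq, Finset.notMem_empty, or_false, false_or, false_imp_iff, imp_false,
      implies_true, not_false_eq_true, iff_false, false_iff] <;> omega))
  have b3 := h.join (U := hb (2 * i + 1) (2 * (j + 1))) b1 b2 (by unfold hb; (ext x; rcases x with x | x <;>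
    simp only [Finset.mem_union, Finset.mem_insert, Finset.mem_singleton, inl_mem_full,
      inr_mem_full, inl_mem_iq, inr_mem_iq, inl_mem_ip, inr_mem_ip, Sum.inl.injEq, Sum.inr.injEq,
      reduceCtorEq, Finset.notMem_empty, or_false, false_or, false_imp_iff, imp_false,
      implies_true, not_false_eq_true, iff_false, false_iff] <;> omega))
    (by unfold hb; (intro x hx; revert hx; rcases x with x | x <;>
    simp only [Finset.mem_union, Finset.mem_insert, Finset.mem_singleton, inl_mem_full,
      inr_mem_full, inl_mem_iq, inr_mem_iq, inl_mem_ip, inr_mem_ip, Sum.inl.injEq, Sum.inr.injEq,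
      reduceCtorEq, Finset.notMem_empty, or_false, false_or, false_imp_iff, imp_false,
      implies_true, not_false_eq_true, iff_false, false_iff] <;> omega)) (by (rw [Finset.disjoint_left]; intro x hx hx'; revert hx hx'; rcases x with x | x <;>
    simp only [Finset.mem_union, Finset.mem_insert, Finset.mem_singleton, inl_mem_full,
      inr_mem_full, inl_mem_iq, inr_mem_iq, inl_mem_ip, inr_mem_ip, Sum.inl.injEq, Sum.inr.injEq,
      reduceCtorEq, Finset.notMem_empty, or_false, false_or, false_imp_iff, imp_false,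
      implies_true, not_false_eq_true, iff_false, false_iff] <;> omega))
  rw [AA_zero, AA_zero] at b3
  exact b3.mono (by linarith) le_rfl (by linarith)

/-- `(q₀, p₀)` aligned, `p_{2j-1}` single -/
theorem Frame.tB (h : Frame B Rl ℓ nQ nP uq up q p) {K : ℝ} (i j : ℕ) (hi : i < ℓ)
    (hj : j < ℓ) (h0 : |q 0 - p 0| ≤ K) (h1 : p (2 * j + 1) ≤ K)
    (hQ : ∀ l < i, q (2 * l + 1) - q (2 * l + 2) ≤ K)
    (hP : ∀ l < j, p (2 * l + 1) - p (2 * l + 2) ≤ K) :
    StI B uq up (hb (2 * i + 1) (2 * (j + 1))) (MM B (uq 0) (up 0)) K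
      (|q 0 - p 0| + (q 0 - q (2 * i) - AA q i) + (p 0 - p (2 * j) - AA p j) +
        p (2 * j + 1)) := by
  have hl := h.l2
  have a1 := h.Qo (K := K) 0 i (Nat.zero_le _) hi fun l _ h2 => hQ l h2
  have a2 := h.Po (K := K) 0 j (Nat.zero_le _) hj fun l _ h2 => hP l h2
  have a3 := h.QP (K := K) 0 0 (by omega) (by omega) h0
  have a4 := h.P1 (K := K) (2 * j + 1) (by omega) h1
  have b1 := h.join (U := {Sum.inl 0, Sum.inr 0} ∪ iq (2 * 0 + 1) (2 * i + 1)) a3 a1 rfl
    (by (intro x hx; revert hx; rcases x with x | x <;>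
    simp only [Finset.mem_union, Finset.mem_insert, Finset.mem_singleton, inl_mem_full,
      inr_mem_full, inl_mem_iq, inr_mem_iq, inl_mem_ip, inr_mem_ip, Sum.inl.injEq, Sum.inr.injEq,
      reduceCtorEq, Finset.notMem_empty, or_false, false_or, false_imp_iff, imp_false,
      implies_true, not_false_eq_true, iff_false, false_iff] <;> omega)) (by (rw [Finset.disjoint_left]; intro x hx hx'; revert hx hx'; rcases x with x | x <;>
    simp only [Finset.mem_union, Finset.mem_insert, Finset.mem_singleton, inl_mem_full,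
      inr_mem_full, inl_mem_iq, inr_mem_iq, inl_mem_ip, inr_mem_ip, Sum.inl.injEq, Sum.inr.injEq,
      reduceCtorEq, Finset.notMem_empty, or_false, false_or, false_imp_iff, imp_false,
      implies_true, not_false_eq_true, iff_false, false_iff] <;> omega))
  have b2 := h.join (U := ip (2 * 0 + 1) (2 * j + 1) ∪ ip (2 * j + 1) (2 * j + 1 + 1)) a2 a4 rfl
    (by (intro x hx; revert hx; rcases x with x | x <;>
    simp only [Finset.mem_union, Finset.mem_insert, Finset.mem_singleton, inl_mem_full,
      inr_mem_full, inl_mem_iq, inr_mem_iq, inl_mem_ip, inr_mem_ip, Sum.inl.injEq, Sum.inr.injEq,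
      reduceCtorEq, Finset.notMem_empty, or_false, false_or, false_imp_iff, imp_false,
      implies_true, not_false_eq_true, iff_false, false_iff] <;> omega)) (by (rw [Finset.disjoint_left]; intro x hx hx'; revert hx hx'; rcases x with x | x <;>
    simp only [Finset.mem_union, Finset.mem_insert, Finset.mem_singleton, inl_mem_full,
      inr_mem_full, inl_mem_iq, inr_mem_iq, inl_mem_ip, inr_mem_ip, Sum.inl.injEq, Sum.inr.injEq,
      reduceCtorEq, Finset.notMem_empty, or_false, false_or, false_imp_iff, imp_false,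
      implies_true, not_false_eq_true, iff_false, false_iff] <;> omega))
  have b3 := h.join (U := hb (2 * i + 1) (2 * (j + 1))) b1 b2 (by unfold hb; (ext x; rcases x with x | x <;>
    simp only [Finset.mem_union, Finset.mem_insert, Finset.mem_singleton, inl_mem_full,
      inr_mem_full, inl_mem_iq, inr_mem_iq, inl_mem_ip, inr_mem_ip, Sum.inl.injEq, Sum.inr.injEq,
      reduceCtorEq, Finset.notMem_empty, or_false, false_or, false_imp_iff, imp_false,
      implies_true, not_false_eq_true, iff_false, false_iff] <;> omega))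
    (by unfold hb; (intro x hx; revert hx; rcases x with x | x <;>
    simp only [Finset.mem_union, Finset.mem_insert, Finset.mem_singleton, inl_mem_full,
      inr_mem_full, inl_mem_iq, inr_mem_iq, inl_mem_ip, inr_mem_ip, Sum.inl.injEq, Sum.inr.injEq,
      reduceCtorEq, Finset.notMem_empty, or_false, false_or, false_imp_iff, imp_false,
      implies_true, not_false_eq_true, iff_false, false_iff] <;> omega)) (by (rw [Finset.disjoint_left]; intro x hx hx'; revert hx hx'; rcases x with x | x <;>
    simp only [Finset.mem_union, Finset.mem_insert, Finset.mem_singleton, inl_mem_full,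
      inr_mem_full, inl_mem_iq, inr_mem_iq, inl_mem_ip, inr_mem_ip, Sum.inl.injEq, Sum.inr.injEq,
      reduceCtorEq, Finset.notMem_empty, or_false, false_or, false_imp_iff, imp_false,
      implies_true, not_false_eq_true, iff_false, false_iff] <;> omega))
  rw [AA_zero, AA_zero] at b3
  refine b3.mono (by linarith) le_rfl ?_
  rw [Nat.mul_zero]
  linarith

/-- the final arrangement with two aligned pairs -/
theorem Frame.aTwo (h : Frame B Rl ℓ nQ nP uq up q p) {K : ℝ} (i j : ℕ) (hi : i + 1 < ℓ)
    (hj : j < ℓ) (h0 : |q 1 - p 0| ≤ K) (h1 : |q (2 * (i + 1)) - p (2 * j + 1)| ≤ K)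
    (hQ : ∀ l, 1 ≤ l → l < i + 1 → q (2 * l) - q (2 * l + 1) ≤ K)
    (hP : ∀ l < j, p (2 * l + 1) - p (2 * l + 2) ≤ K) :
    StI B uq up (hb1 (2 * (i + 1) + 1) (2 * (j + 1)))
      (MM B (uq 1) (up 0) + MM B (uq (2 * (i + 1))) (up (2 * j + 1))) K
      (|q 1 - p 0| + |q (2 * (i + 1)) - p (2 * j + 1)| + (AA q (i + 1) - AA q 1) +
        (p 0 - p (2 * j) - AA p j)) := by
  have a1 := h.Qe (K := K) 1 (i + 1) (by omega) hi.le hQ
  have a2 := h.Po (K := K) 0 j (Nat.zero_le _) hj fun l _ h2 => hP l h2
  have a3 := h.QP (K := K) 1 0 (by omega) (by omega) h0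
  have a4 := h.QP (K := K) (2 * (i + 1)) (2 * j + 1) (by omega) (by omega) h1
  have b1 := h.join (U := {Sum.inl 1, Sum.inr 0} ∪ iq (2 * 1) (2 * (i + 1))) a3 a1 rfl
    (by (intro x hx; revert hx; rcases x with x | x <;>
    simp only [Finset.mem_union, Finset.mem_insert, Finset.mem_singleton, inl_mem_full,
      inr_mem_full, inl_mem_iq, inr_mem_iq, inl_mem_ip, inr_mem_ip, Sum.inl.injEq, Sum.inr.injEq,
      reduceCtorEq, Finset.notMem_empty, or_false, false_or, false_imp_iff, imp_false,
      implies_true, not_false_eq_true, iff_false, false_iff] <;> omega)) (by (rw [Finset.disjoint_left]; intro x hx hx'; revert hx hx'; rcases x with x | x <;>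
    simp only [Finset.mem_union, Finset.mem_insert, Finset.mem_singleton, inl_mem_full,
      inr_mem_full, inl_mem_iq, inr_mem_iq, inl_mem_ip, inr_mem_ip, Sum.inl.injEq, Sum.inr.injEq,
      reduceCtorEq, Finset.notMem_empty, or_false, false_or, false_imp_iff, imp_false,
      implies_true, not_false_eq_true, iff_false, false_iff] <;> omega))
  have b2 := h.join (U := {Sum.inl (2 * (i + 1)), Sum.inr (2 * j + 1)} ∪
    ip (2 * 0 + 1) (2 * j + 1)) a4 a2 rfl (by (intro x hx; revert hx; rcases x with x | x <;>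
    simp only [Finset.mem_union, Finset.mem_insert, Finset.mem_singleton, inl_mem_full,
      inr_mem_full, inl_mem_iq, inr_mem_iq, inl_mem_ip, inr_mem_ip, Sum.inl.injEq, Sum.inr.injEq,
      reduceCtorEq, Finset.notMem_empty, or_false, false_or, false_imp_iff, imp_false,
      implies_true, not_false_eq_true, iff_false, false_iff] <;> omega)) (by (rw [Finset.disjoint_left]; intro x hx hx'; revert hx hx'; rcases x with x | x <;>
    simp only [Finset.mem_union, Finset.mem_insert, Finset.mem_singleton, inl_mem_full,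
      inr_mem_full, inl_mem_iq, inr_mem_iq, inl_mem_ip, inr_mem_ip, Sum.inl.injEq, Sum.inr.injEq,
      reduceCtorEq, Finset.notMem_empty, or_false, false_or, false_imp_iff, imp_false,
      implies_true, not_false_eq_true, iff_false, false_iff] <;> omega))
  have b3 := h.join (U := hb1 (2 * (i + 1) + 1) (2 * (j + 1))) b1 b2 (by unfold hb1; (ext x; rcases x with x | x <;>
    simp only [Finset.mem_union, Finset.mem_insert, Finset.mem_singleton, inl_mem_full,
      inr_mem_full, inl_mem_iq, inr_mem_iq, inl_mem_ip, inr_mem_ip, Sum.inl.injEq, Sum.inr.injEq,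
      reduceCtorEq, Finset.notMem_empty, or_false, false_or, false_imp_iff, imp_false,
      implies_true, not_false_eq_true, iff_false, false_iff] <;> omega))
    (by unfold hb1; (intro x hx; revert hx; rcases x with x | x <;>
    simp only [Finset.mem_union, Finset.mem_insert, Finset.mem_singleton, inl_mem_full,
      inr_mem_full, inl_mem_iq, inr_mem_iq, inl_mem_ip, inr_mem_ip, Sum.inl.injEq, Sum.inr.injEq,
      reduceCtorEq, Finset.notMem_empty, or_false, false_or, false_imp_iff, imp_false,
      implies_true, not_false_eq_true, iff_false, false_iff] <;> omega)) (by (rw [Finset.disjoint_left]; intro x hx hx'; revert hx hx'; rcases x with x | x <;>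
    simp only [Finset.mem_union, Finset.mem_insert, Finset.mem_singleton, inl_mem_full,
      inr_mem_full, inl_mem_iq, inr_mem_iq, inl_mem_ip, inr_mem_ip, Sum.inl.injEq, Sum.inr.injEq,
      reduceCtorEq, Finset.notMem_empty, or_false, false_or, false_imp_iff, imp_false,
      implies_true, not_false_eq_true, iff_false, false_iff] <;> omega))
  rw [AA_zero] at b3
  refine b3.mono (by linarith) le_rfl ?_
  rw [Nat.mul_zero]
  linarith

/-- the mixed arrangement with the lowest vertices aligned -/
theorem Frame.aMixLow (h : Frame B Rl ℓ nQ nP uq up q p) {K : ℝ} (i j : ℕ) (hi : i < ℓ)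
    (hj : j < ℓ) (h0 : |q (2 * i + 1) - p (2 * j)| ≤ K)
    (hQ : ∀ l < i, q (2 * l + 1) - q (2 * l + 2) ≤ K)
    (hP : ∀ l < j, p (2 * l) - p (2 * l + 1) ≤ K) :
    StI B uq up (hb1 (2 * (i + 1)) (2 * j + 1)) (MM B (uq (2 * i + 1)) (up (2 * j))) K
      (|q (2 * i + 1) - p (2 * j)| + (q 0 - q (2 * i) - AA q i) + AA p j) := by
  have a1 := h.Qo (K := K) 0 i (Nat.zero_le _) hi fun l _ h2 => hQ l h2
  have a2 := h.Pe (K := K) 0 j (Nat.zero_le _) hj.le fun l _ h2 => hP l h2
  have a3 := h.QP (K := K) (2 * i + 1) (2 * j) (by omega) (by omega) h0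
  have b1 := h.join (U := {Sum.inl (2 * i + 1), Sum.inr (2 * j)} ∪ iq (2 * 0 + 1) (2 * i + 1))
    a3 a1 rfl (by (intro x hx; revert hx; rcases x with x | x <;>
    simp only [Finset.mem_union, Finset.mem_insert, Finset.mem_singleton, inl_mem_full,
      inr_mem_full, inl_mem_iq, inr_mem_iq, inl_mem_ip, inr_mem_ip, Sum.inl.injEq, Sum.inr.injEq,
      reduceCtorEq, Finset.notMem_empty, or_false, false_or, false_imp_iff, imp_false,
      implies_true, not_false_eq_true, iff_false, false_iff] <;> omega)) (by (rw [Finset.disjoint_left]; intro x hx hx'; revert hx hx'; rcases x with x | x <;>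
    simp only [Finset.mem_union, Finset.mem_insert, Finset.mem_singleton, inl_mem_full,
      inr_mem_full, inl_mem_iq, inr_mem_iq, inl_mem_ip, inr_mem_ip, Sum.inl.injEq, Sum.inr.injEq,
      reduceCtorEq, Finset.notMem_empty, or_false, false_or, false_imp_iff, imp_false,
      implies_true, not_false_eq_true, iff_false, false_iff] <;> omega))
  have b3 := h.join (U := hb1 (2 * (i + 1)) (2 * j + 1)) b1 a2 (by unfold hb1; (ext x; rcases x with x | x <;>
    simp only [Finset.mem_union, Finset.mem_insert, Finset.mem_singleton, inl_mem_full,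
      inr_mem_full, inl_mem_iq, inr_mem_iq, inl_mem_ip, inr_mem_ip, Sum.inl.injEq, Sum.inr.injEq,
      reduceCtorEq, Finset.notMem_empty, or_false, false_or, false_imp_iff, imp_false,
      implies_true, not_false_eq_true, iff_false, false_iff] <;> omega))
    (by unfold hb1; (intro x hx; revert hx; rcases x with x | x <;>
    simp only [Finset.mem_union, Finset.mem_insert, Finset.mem_singleton, inl_mem_full,
      inr_mem_full, inl_mem_iq, inr_mem_iq, inl_mem_ip, inr_mem_ip, Sum.inl.injEq, Sum.inr.injEq,
      reduceCtorEq, Finset.notMem_empty, or_false, false_or, false_imp_iff, imp_false,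
      implies_true, not_false_eq_true, iff_false, false_iff] <;> omega)) (by (rw [Finset.disjoint_left]; intro x hx hx'; revert hx hx'; rcases x with x | x <;>
    simp only [Finset.mem_union, Finset.mem_insert, Finset.mem_singleton, inl_mem_full,
      inr_mem_full, inl_mem_iq, inr_mem_iq, inl_mem_ip, inr_mem_ip, Sum.inl.injEq, Sum.inr.injEq,
      reduceCtorEq, Finset.notMem_empty, or_false, false_or, false_imp_iff, imp_false,
      implies_true, not_false_eq_true, iff_false, false_iff] <;> omega))
  rw [AA_zero, AA_zero] at b3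
  refine b3.mono (by linarith) le_rfl ?_
  rw [Nat.mul_zero]
  linarith

end Pool.Agent.Exact
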