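import Pool.Agent.Lib_helper68.Exact.Cut

/-!
# The path statement if the rest is independent
-/

set_option autoImplicit false
set_option linter.unusedSectionVars false
set_option linter.unusedSimpArgs false
set_option linter.unnecessarySeqFocus false
set_option linter.unreachableTactic false
set_option linter.unusedTactic false

namespace Pool.Agent.Exact

open Finset

section
variable {V : Type*} [Fintype V] [DecidableEq V] {B : V → V → ℤ}

/-- **Path statement for an independent rest.** -/
theorem path_indep (h0 : ∀ u v, 0 ≤ B u v) (h1 : ∀ u v, B u v ≤ 1) (hB : ∀ v, B v v = 0)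
    (h : V) (hq : 0 < im B h) {S C : Finset V} (hind : ∀ u ∈ S, ∀ v ∈ S, MM B u v = 0)
    (hhS : h ∉ S) (hC : h ∉ C) (hd : Disjoint S C) (hu : insert h (S ∪ C) = univ) {b : ℤ}
    (hb0 : 0 ≤ b) (hb : ∀ v ∈ S, MM B h v = 2 → 1 ≤ b) :
    Cr B S C (b : ℝ) ∨ Out B (MM B h) S C (b : ℝ) ((im B h - Gam B h S : ℤ) : ℝ) := by
  classical
  have ha : ∀ v, 0 ≤ MM B h v ∧ MM B h v ≤ 2 := fun v => MM_range h0 h1 h v
  have hGamS : Gam B h S = ∑ v ∈ S.filter (Harm (MM B h) (im B)), |MM B h v + im B v| := by
    unfold Gam
    congr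
  rw [hGamS]
  set a := MM B h with hadef
  obtain ⟨x', b1, b2, b3, b4⟩ := place hB ha (im B) (b := b) S.card S ∅ (fun _ => 1) rfl
    (fun _ => Or.inl rfl) PathB.empty (Finset.disjoint_empty_left _) (by rw [DD_empty]; exact hb0)
    (fun v hv h2 => by rw [DD_empty]; have := hb v hv h2; linarith) (by simp) hind
  rw [Finset.empty_union] at b3 b4
  rw [Finset.sum_empty, DD_empty] at b4
  rcases b3 with ⟨b3, b5⟩ | ⟨y, hyS, c1, c2, c3, c4, c5, c6⟩
  · rcases run hB h0 h S C hhS hC hd hu b1 hb0 b3 hq with h3 | ⟨h3, h4, h5⟩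
    · exact Or.inl h3
    · right; left
      refine ⟨_, _, ?_, ?_, ?_, h5⟩
      · exact_mod_cast h3.le
      · exact_mod_cast h4
      · have : DD B a x' S + (im B h + ∑ v ∈ S, im B v * x' v) ≤
            im B h - ∑ v ∈ S.filter (Harm a (im B)), |a v + im B v| := by linarith
        exact_mod_cast this
  · rcases run_last hB h0 h S C hhS hC hd hu b1 hb0 hyS c1 hq with h3 | ⟨h3, h4, h5⟩
    · exact Or.inl h3
    · right; right
      have hsum : ∑ v ∈ S, im B v * x' v = im B y + ∑ v ∈ S.erase y, im B v * x' v := by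
        rw [← Finset.add_sum_erase _ _ hyS, c6, mul_one]
      rw [DD_empty] at c5
      refine ⟨y, hyS, c2, c3, ((DD B a x' (S.erase y) : ℤ) : ℝ),
        ((im B h + ∑ v ∈ S.erase y, im B v * x' v : ℤ) : ℝ), ?_, ?_, ?_, ?_, h4, ?_⟩
      · exact_mod_cast h3
      · have : DD B a x' (S.erase y) ≤ b := by linarith
        exact_mod_cast this
      · have : DD B a x' (S.erase y) + a y ≤ b + 1 := by
          rcases (show a y = 1 ∨ a y = 2 by have := ha y; omega) with h6 | h6
          · linarith
          · have := hb y hyS h6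
            linarith
        exact_mod_cast this
      · have : DD B a x' (S.erase y) + (im B h + ∑ v ∈ S.erase y, im B v * x' v) + a y +
            im B y ≤ im B h - ∑ v ∈ S.filter (Harm a (im B)), |a v + im B v| := by
          rw [hsum] at b4
          linarith
        exact_mod_cast this
      · intro M K t hK hst
        have h6 := h5 M K t hK hst
        have e1 : ((DD B (MM B h) x' S : ℤ) : ℝ) =
            ((DD B a x' (S.erase y) : ℤ) : ℝ) + (a y : ℝ) := by
          rw [← hadef, c4]; push_cast; ring
        have e2 : ((im B h + ∑ v ∈ S, im B v * x' v : ℤ) : ℝ) =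
            ((im B h + ∑ v ∈ S.erase y, im B v * x' v : ℤ) : ℝ) + ((im B y : ℤ) : ℝ) := by
          rw [hsum]; push_cast; ring
        rw [e1, e2] at h6
        exact h6

end

section
variable {V : Type*} [Fintype V] [DecidableEq V]
variable {B : V → V → ℤ} {Rl : Finset V} {ℓ nQ nP : ℕ} {uq up : ℕ → V} {q p : ℕ → ℝ}

/-- **The path statement for a cut with independent rest.** -/
theorem Frame.cut0 (h : Frame B Rl ℓ nQ nP uq up q p) {a b : ℕ} (ha1 : 1 ≤ a) (haQ : a ≤ nQ)
    (hbP : b ≤ nP) (hq0 : 0 < q 0)
    (hind : ∀ u ∈ vs uq up (rr nQ nP a b), ∀ v ∈ vs uq up (rr nQ nP a b), MM B u v = 0)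
    {c : ℤ} (hc0 : 0 ≤ c) (hc : ∀ v ∈ vs uq up (rr nQ nP a b), MM B (uq 0) v = 2 → 1 ≤ c) :
    CrI B uq up q p a b (c : ℝ) ∨
      OutI B uq up a b (vs uq up (rr nQ nP a b)) (c : ℝ)
        (q 0 - Gam B (uq 0) (vs uq up (rr nQ nP a b))) := by
  classical
  have hQ := h.nQle
  have hP := h.nPle
  have hB0 := h.sys.B0
  have hB1 := h.sys.B1
  have hBd := h.sys.Bd
  set R := vs uq up (rr nQ nP a b) with hR
  set hv : V := uq 0 with hhv
  set Cv : Finset V := vs uq up (hb1 a b ∪ dm ℓ nQ nP) with hCv
  have hfull : insert (Sum.inl 0) (rr nQ nP a b ∪ (hb1 a b ∪ dm ℓ nQ nP)) = full ℓ := by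
    unfold rr hb1 dm
    (ext x; rcases x with x | x <;>
    simp only [Finset.mem_union, Finset.mem_insert, Finset.mem_singleton, inl_mem_full,
      inr_mem_full, inl_mem_iq, inr_mem_iq, inl_mem_ip, inr_mem_ip, Sum.inl.injEq, Sum.inr.injEq,
      reduceCtorEq, Finset.notMem_empty, or_false, false_or, false_imp_iff, imp_false,
      implies_true, not_false_eq_true, iff_false, false_iff] <;> omega)
  have hRf : rr nQ nP a b ⊆ full ℓ := by unfold rr; (intro x hx; revert hx; rcases x with x | x <;>
    simp only [Finset.mem_union, Finset.mem_insert, Finset.mem_singleton, inl_mem_full,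
      inr_mem_full, inl_mem_iq, inr_mem_iq, inl_mem_ip, inr_mem_ip, Sum.inl.injEq, Sum.inr.injEq,
      reduceCtorEq, Finset.notMem_empty, or_false, false_or, false_imp_iff, imp_false,
      implies_true, not_false_eq_true, iff_false, false_iff] <;> omega)
  have hCf : hb1 a b ∪ dm ℓ nQ nP ⊆ full ℓ := by unfold hb1 dm; (intro x hx; revert hx; rcases x with x | x <;>
    simp only [Finset.mem_union, Finset.mem_insert, Finset.mem_singleton, inl_mem_full,
      inr_mem_full, inl_mem_iq, inr_mem_iq, inl_mem_ip, inr_mem_ip, Sum.inl.injEq, Sum.inr.injEq,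
      reduceCtorEq, Finset.notMem_empty, or_false, false_or, false_imp_iff, imp_false,
      implies_true, not_false_eq_true, iff_false, false_iff] <;> omega)
  have h0R : (Sum.inl 0 : ℕ ⊕ ℕ) ∉ rr nQ nP a b := by
    unfold rr
    simp only [Finset.mem_union, inl_mem_iq, inl_mem_ip, or_false, not_and]
    omega
  have h0C : (Sum.inl 0 : ℕ ⊕ ℕ) ∉ hb1 a b ∪ dm ℓ nQ nP := by
    unfold hb1 dm
    simp only [Finset.mem_union, inl_mem_iq, inl_mem_ip, or_false, not_or, not_and]
    omega
  have h0f : (Sum.inl 0 : ℕ ⊕ ℕ) ∈ full ℓ := by simp; omega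
  have hnot : ∀ I ⊆ full ℓ, (Sum.inl 0 : ℕ ⊕ ℕ) ∉ I → hv ∉ vs uq up I := by
    intro I hI h0 hmem
    unfold vs at hmem
    rw [Finset.mem_image] at hmem
    obtain ⟨x, hx, hx'⟩ := hmem
    have := h.inj (hI hx) h0f hx'
    rw [this] at hx
    exact h0 hx
  have hhR : hv ∉ R := hnot _ hRf h0R
  have hhC : hv ∉ Cv := hnot _ hCf h0C
  have hdRC : Disjoint R Cv := by
    refine h.disj hRf hCf ?_
    unfold rr hb1 dm
    (rw [Finset.disjoint_left]; intro x hx hx'; revert hx hx'; rcases x with x | x <;>
    simp only [Finset.mem_union, Finset.mem_insert, Finset.mem_singleton, inl_mem_full,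
      inr_mem_full, inl_mem_iq, inr_mem_iq, inl_mem_ip, inr_mem_ip, Sum.inl.injEq, Sum.inr.injEq,
      reduceCtorEq, Finset.notMem_empty, or_false, false_or, false_imp_iff, imp_false,
      implies_true, not_false_eq_true, iff_false, false_iff] <;> omega)
  have huniv : insert hv (R ∪ Cv) = Finset.univ := by
    rw [hR, hCv]
    unfold vs
    rw [← Finset.image_union, ← h.univ, ← hfull, Finset.image_insert]
    rfl
  have himq : ((im B hv : ℤ) : ℝ) = q 0 := h.sys.wtQ 0 (by omega)
  have hq : 0 < im B hv := by
    have : (0 : ℝ) < ((im B hv : ℤ) : ℝ) := by rw [himq]; exact hq0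
    exact_mod_cast this
  have hqn : 0 ≤ q a := h.sys.chQ.nn a (by omega)
  have hpn : 0 ≤ p b := h.sys.chP.nn b (by omega)
  have bQ : ∀ v ∈ R, 0 ≤ im B v → ((im B v : ℤ) : ℝ) ≤ q a := by
    intro v hv' hv0
    rw [hR] at hv'
    unfold vs rr at hv'
    simp only [Finset.mem_image, Finset.mem_union, Sum.exists, inl_mem_iq, inl_mem_ip,
      inr_mem_iq, inr_mem_ip, or_false, false_or, vx, Sum.elim_inl, Sum.elim_inr] at hv'
    rcases hv' with ⟨i, hi, rfl⟩ | ⟨i, hi, rfl⟩
    · rw [h.sys.wtQ i (by omega)]
      exact h.sys.chQ.anti a i hi.1 (by omega)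
    · rw [h.sys.wtP i (by omega)]
      have := h.sys.chP.nn i (by omega)
      linarith
  have bP : ∀ v ∈ R, im B v < 0 → -((im B v : ℤ) : ℝ) ≤ p b := by
    intro v hv' hv0
    rw [hR] at hv'
    unfold vs rr at hv'
    simp only [Finset.mem_image, Finset.mem_union, Sum.exists, inl_mem_iq, inl_mem_ip,
      inr_mem_iq, inr_mem_ip, or_false, false_or, vx, Sum.elim_inl, Sum.elim_inr] at hv'
    rcases hv' with ⟨i, hi, rfl⟩ | ⟨i, hi, rfl⟩
    · have h7 := h.sys.wtQ i (by omega)
      have h8 := h.sys.chQ.nn i (by omega)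
      have h9 : ((im B (uq i) : ℤ) : ℝ) < 0 := by exact_mod_cast hv0
      linarith
    · rw [h.sys.wtP i (by omega), neg_neg]
      exact h.sys.chP.anti b i hi.1 (by omega)
  rcases path_indep hB0 hB1 hBd hv hq hind hhR hhC hdRC huniv hc0 hc with h3 | hO
  · left
    intro M K t hK hqa hpb hst
    have h4 := h.withDm hK hst (by unfold hb1 rr; (intro x hx; revert hx; rcases x with x | x <;>
    simp only [Finset.mem_union, Finset.mem_insert, Finset.mem_singleton, inl_mem_full,
      inr_mem_full, inl_mem_iq, inr_mem_iq, inl_mem_ip, inr_mem_ip, Sum.inl.injEq, Sum.inr.injEq,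
      reduceCtorEq, Finset.notMem_empty, or_false, false_or, false_imp_iff, imp_false,
      implies_true, not_false_eq_true, iff_false, false_iff] <;> omega))
    exact h3 M K t (q a) (p b) hK h4 bQ hqa hqn bP hpb hpn
  · right
    have hβ : ((im B hv - Gam B hv R : ℤ) : ℝ) = q 0 - Gam B hv R := by
      push_cast
      rw [himq]
    rcases hO with hE | hE
    · left
      obtain ⟨D, L, h3, h4, h5, h6⟩ := hE
      refine ⟨D, L, h3, h4, by rw [← hβ]; exact h5, ?_⟩
      intro M K t hK hst
      exact h6 M K t hK (h.withDm hK hst (by unfold hb1 rr; (intro x hx; revert hx; rcases x with x | x <;>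
    simp only [Finset.mem_union, Finset.mem_insert, Finset.mem_singleton, inl_mem_full,
      inr_mem_full, inl_mem_iq, inr_mem_iq, inl_mem_ip, inr_mem_ip, Sum.inl.injEq, Sum.inr.injEq,
      reduceCtorEq, Finset.notMem_empty, or_false, false_or, false_imp_iff, imp_false,
      implies_true, not_false_eq_true, iff_false, false_iff] <;> omega)))
    · right
      obtain ⟨y, hy, h3, h4, D, L, h5, h6, h6', h7, h8, h9⟩ := hE
      refine ⟨y, hy, h3, h4, D, L, h5, h6, h6', by rw [← hβ]; exact h7, ?_, ?_⟩
      · intro M K t hK hst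
        refine h8 M K t hK ?_
        have hyR : y ∈ vs uq up (rr nQ nP a b) := hy
        have hdm : Disjoint (insert y (vs uq up (hb1 a b))) ((dm ℓ nQ nP).image (vx uq up)) := by
          rw [Finset.disjoint_insert_left]
          constructor
          · have : Disjoint (rr nQ nP a b) (dm ℓ nQ nP) := by
              unfold rr dm
              (rw [Finset.disjoint_left]; intro x hx hx'; revert hx hx'; rcases x with x | x <;>
    simp only [Finset.mem_union, Finset.mem_insert, Finset.mem_singleton, inl_mem_full,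
      inr_mem_full, inl_mem_iq, inr_mem_iq, inl_mem_ip, inr_mem_ip, Sum.inl.injEq, Sum.inr.injEq,
      reduceCtorEq, Finset.notMem_empty, or_false, false_or, false_imp_iff, imp_false,
      implies_true, not_false_eq_true, iff_false, false_iff] <;> omega)
            exact Finset.disjoint_left.1 (h.disj hRf (by unfold dm; (intro x hx; revert hx; rcases x with x | x <;>
    simp only [Finset.mem_union, Finset.mem_insert, Finset.mem_singleton, inl_mem_full,
      inr_mem_full, inl_mem_iq, inr_mem_iq, inl_mem_ip, inr_mem_ip, Sum.inl.injEq, Sum.inr.injEq,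
      reduceCtorEq, Finset.notMem_empty, or_false, false_or, false_imp_iff, imp_false,
      implies_true, not_false_eq_true, iff_false, false_iff] <;> omega)) this) hyR
          · exact h.disj (by unfold hb1; (intro x hx; revert hx; rcases x with x | x <;>
    simp only [Finset.mem_union, Finset.mem_insert, Finset.mem_singleton, inl_mem_full,
      inr_mem_full, inl_mem_iq, inr_mem_iq, inl_mem_ip, inr_mem_ip, Sum.inl.injEq, Sum.inr.injEq,
      reduceCtorEq, Finset.notMem_empty, or_false, false_or, false_imp_iff, imp_false,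
      implies_true, not_false_eq_true, iff_false, false_iff] <;> omega)) (by unfold dm; (intro x hx; revert hx; rcases x with x | x <;>
    simp only [Finset.mem_union, Finset.mem_insert, Finset.mem_singleton, inl_mem_full,
      inr_mem_full, inl_mem_iq, inr_mem_iq, inl_mem_ip, inr_mem_ip, Sum.inl.injEq, Sum.inr.injEq,
      reduceCtorEq, Finset.notMem_empty, or_false, false_or, false_imp_iff, imp_false,
      implies_true, not_false_eq_true, iff_false, false_iff] <;> omega)) (by
              unfold hb1 dm
              (rw [Finset.disjoint_left]; intro x hx hx'; revert hx hx'; rcases x with x | x <;>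
    simp only [Finset.mem_union, Finset.mem_insert, Finset.mem_singleton, inl_mem_full,
      inr_mem_full, inl_mem_iq, inr_mem_iq, inl_mem_ip, inr_mem_ip, Sum.inl.injEq, Sum.inr.injEq,
      reduceCtorEq, Finset.notMem_empty, or_false, false_or, false_imp_iff, imp_false,
      implies_true, not_false_eq_true, iff_false, false_iff] <;> omega))
        have h10 := St.union hst (h.stDm hK) hdm
        have e1 : insert y (vs uq up (hb1 a b)) ∪ (dm ℓ nQ nP).image (vx uq up) =
            insert y Cv := by
          rw [hCv]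
          unfold vs
          rw [Finset.image_union, Finset.insert_union]
        rw [e1] at h10
        exact h10.mono (by norm_num) le_rfl (by norm_num)
      · intro M K t hK hst
        exact h9 M K t hK (h.withDm hK hst (by unfold hb1 rr; (intro x hx; revert hx; rcases x with x | x <;>
    simp only [Finset.mem_union, Finset.mem_insert, Finset.mem_singleton, inl_mem_full,
      inr_mem_full, inl_mem_iq, inr_mem_iq, inl_mem_ip, inr_mem_ip, Sum.inl.injEq, Sum.inr.injEq,
      reduceCtorEq, Finset.notMem_empty, or_false, false_or, false_imp_iff, imp_false,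
      implies_true, not_false_eq_true, iff_false, false_iff] <;> omega)))

end
end Pool.Agent.Exact
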