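import Pool.Agent.Lib_helper68.Exact.PoNC3
import Pool.Agent.Lib_helper68.Exact.Cut0

/-!
# No crossing, hubs of both types, an odd number of the first: empty `Rs`
-/

set_option autoImplicit false
set_option linter.unusedSectionVars false

namespace Pool.Agent.Exact

open Finset

variable {V : Type*} [Fintype V] [DecidableEq V]
variable {B : V → V → ℤ} {Rl : Finset V} {ℓ nQ nP : ℕ} {uq up : ℕ → V} {q p : ℕ → ℝ}
variable {k : ℤ} {θ : ℝ}

lemma BlocksN.gz {N S : Finset V} {g : ℤ} (h : BlocksN B N S g) (hS : S = ∅) : g = 0 := by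
  cases h with
  | empty => rfl
  | star S' g' c L _ _ _ _ _ _ _ _ =>
    exfalso
    have : c ∈ S' ∪ insert c L := by simp
    rw [hS] at this
    simp at this
  | hole S' g' u v w _ _ _ _ _ _ _ _ _ =>
    exfalso
    have : w ∈ insert w (S' ∪ {u, v}) := by simp
    rw [hS] at this
    simp at this

/-- the positive vertices of the rest -/
lemma Frame.posR (h : Frame B Rl ℓ nQ nP uq up q p) {a b : ℕ} {v : V}
    (hv : v ∈ vs uq up (rr nQ nP a b)) (hv0 : 0 ≤ im B v) (ha : a < 2 * ℓ) :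
    |((im B v : ℤ) : ℝ)| ≤ q a := by
  have hQ := h.nQle
  have hP := h.nPle
  have hv0' : (0 : ℝ) ≤ ((im B v : ℤ) : ℝ) := by exact_mod_cast hv0
  have hqa := h.sys.chQ.nn a ha
  unfold vs at hv
  rw [Finset.mem_image] at hv
  obtain ⟨x, hx, rfl⟩ := hv
  rw [abs_of_nonneg hv0']
  rcases x with l | l
  · have hx' : a ≤ l ∧ l < nQ := by
      unfold rr at hx
      simpa only [Finset.mem_union, inl_mem_iq, inl_mem_ip, or_false] using hx
    have h1 : ((im B (vx uq up (Sum.inl l)) : ℤ) : ℝ) = q l := h.sys.wtQ l (by omega)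
    rw [h1]
    exact h.sys.chQ.anti a l hx'.1 (by omega)
  · have hx' : b ≤ l ∧ l < nP := by
      unfold rr at hx
      simpa only [Finset.mem_union, inr_mem_iq, inr_mem_ip, false_or] using hx
    have h1 : ((im B (vx uq up (Sum.inr l)) : ℤ) : ℝ) = - p l := h.sys.wtP l (by omega)
    have := h.sys.chP.nn l (by omega)
    rw [h1]
    linarith

section
variable (h : Ctx B Rl ℓ nQ nP uq up q p k θ)
include h

/-- the end of the path fails only because of the total, empty `Rs` -/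
theorem Ctx.tot0 (hnv : ¬ Val B θ) {i j : ℕ} (hi : i < ℓ) (hj : j < ℓ)
    (haQ : 2 * i + 1 ≤ nQ) (hbP : 2 * (j + 1) ≤ nP) {S : Finset V}
    (hS : S ⊆ vs uq up (rr nQ nP (2 * i + 1) (2 * (j + 1)))) {D1 β : ℝ}
    (hO : OutI B uq up (2 * i + 1) (2 * (j + 1)) S D1 β)
    (hCrS : CrSI B uq up p (2 * i + 1) (2 * (j + 1)) (D1 + 1) → Val B θ)
    (m1 : θ ≤ q (2 * i) + AA q i) (hy : D1 + 1 + q 0 ≤ 2 * θ)
    (hP : D1 + 1 + (p 0 - p (2 * j + 1)) ≤ θ) (hβ : β ≤ θ) :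
    2 * θ < D1 + 1 + β + (q 0 - q (2 * i) - AA q i + AA p (j + 1)) := by
  have hl := h.fr.l2
  obtain ⟨q1, q2, q3, q4⟩ := h.fr.qgap hi
  obtain ⟨p1, p2, p3, p4⟩ := h.fr.pgap hj
  have e1 := AA_succ p j
  have e2 := h.fr.pa (i := 2 * j) (j := 2 * j + 1) (by omega) (by omega)
  by_contra hc
  push Not at hc
  have hst := h.fr.aPure (K := θ - (D1 + 1)) i (j + 1) hi (by omega)
    (fun l hl' => by have := q4 l hl'; linarith) (fun l hl' => by
      rcases Nat.lt_succ_iff_lt_or_eq.1 hl' with h1 | h1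
      · have := p3 l h1; linarith
      · subst h1; linarith)
  exact hnv (h.fr.closeOut2 hbP haQ hS hO hCrS hst (by linarith) (by linarith) (by linarith)
    (by linarith))

/-- the last crossing in the leaf 1a -/
theorem Ctx.crs1a {i j : ℕ} (hi : i < ℓ) (hj : j + 1 < ℓ) (hpq : p 0 ≤ q 0)
    (hD : θ < q (2 * i) - q (2 * i + 1)) (hE : θ - 2 < p (2 * j + 1) - p (2 * j + 2)) {D : ℝ}
    (hp0 : p 0 ≤ Rl.card - 1 - k) (d1 : D + (Rl.card + 1 - k) ≤ 2 * θ)
    (d2 : 2 * D + 1 + 2 * q 0 ≤ 4 * θ)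
    (hC : CrSI B uq up p (2 * i + 1) (2 * (j + 1)) D) : Val B θ := by
  have hl := h.fr.l2
  obtain ⟨q1, q2, q3, q4⟩ := h.fr.qgap hi
  obtain ⟨p1, p2, p3, p4⟩ := h.fr.pgap (j := j) (by omega)
  have e1 := AA_succ p j
  have e2 := h.fr.pa (i := 2 * j) (j := 2 * j + 1) (by omega) (by omega)
  have e3 := h.fr.pa (i := 0) (j := 2 * j + 1) (by omega) (by omega)
  have f1 := h.fr.qn (i := 2 * i + 1) (by omega)
  have f2 := h.fr.pn (i := 2 * j + 2) (by omega)
  have f3 : p (2 * (j + 1)) = p (2 * j + 2) := by ring_nf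
  refine h.fr.crsPure (K := θ - D) (D := D) i (j + 1) hi (by omega) (by linarith)
    (by linarith) (fun l hl' => by have := q4 l hl'; linarith) (fun l hl' => by
      rcases Nat.lt_succ_iff_lt_or_eq.1 hl' with h1 | h1
      · have := p3 l h1; linarith
      · subst h1; linarith) (by linarith) (by linarith) hC

/-- the last crossing in the leaf 1c -/
theorem Ctx.crs1c {i j : ℕ} (hi : i < ℓ) (hj : j + 1 < ℓ) (hpq : p 0 ≤ q 0)
    (hD : θ < q (2 * i) - q (2 * i + 1)) (hE : θ < p (2 * j + 1))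
    (hA : AA q ℓ + AA p ℓ < 2 * (q 0 - θ) + 2 * MM B (uq 0) (up 0))
    (hp2 : p (2 * (j + 1)) < q (2 * i) - q (2 * i + 1) - θ + 2) {D : ℝ}
    (hp0 : p 0 ≤ Rl.card - 1 - k) (d1 : D + (Rl.card - 1 - k) ≤ 2 * θ)
    (d2 : 2 * D + 1 + 2 * q 0 ≤ 4 * θ) (d3 : D + 1 + q 0 ≤ 2 * θ)
    (d4 : 2 * D + 2 * MM B (uq 0) (up 0) + 1 + 3 * q 0 ≤ 6 * θ)
    (hC : CrSI B uq up p (2 * i + 1) (2 * (j + 1)) D) : Val B θ := by
  have hl := h.fr.l2
  obtain ⟨q1, q2, q3, q4⟩ := h.fr.qgap hi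
  obtain ⟨p1, p2, p3, p4⟩ := h.fr.pgap (j := j) (by omega)
  have e1 := AA_succ p j
  have e2 := h.fr.pa (i := 2 * j) (j := 2 * j + 1) (by omega) (by omega)
  have e3 := h.fr.pa (i := 0) (j := 2 * j + 1) (by omega) (by omega)
  have e4 := h.fr.qa (i := 0) (j := 2 * i) (by omega) (by omega)
  have f1 := h.fr.qn (i := 2 * i + 1) (by omega)
  have f2 := h.fr.pn (i := 2 * j + 2) (by omega)
  have f3 : p (2 * (j + 1)) = p (2 * j + 2) := by ring_nf
  have g1 := h.fr.qgA (Nat.zero_le i) (Nat.lt_succ_self i) (by omega)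
  have g2 := h.fr.qAm (i := i + 1) (j := ℓ) (by omega) le_rfl
  have g3 := h.fr.pAm (i := j + 1) (j := ℓ) (by omega) le_rfl
  have g4 := AA_succ q i
  simp only [AA_zero, Nat.succ_eq_add_one] at g1
  refine h.fr.crsPure (K := θ - D) (D := D) i (j + 1) hi (by omega) (by linarith)
    (by linarith) (fun l hl' => by have := q4 l hl'; linarith) (fun l hl' => by
      rcases Nat.lt_succ_iff_lt_or_eq.1 hl' with h1 | h1
      · have := p3 l h1; linarith
      · subst h1; linarith) (by linarith) (by linarith) hC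

/-- leaf 1a, independent rest: the item fails -/
theorem Ctx.pe1a (hn : 2 * k - 1 ≤ (Rl.card : ℤ)) (hnv : ¬ Val B θ) (hpq : p 0 ≤ q 0)
    {i j : ℕ} (hi : i < ℓ) (hj : j + 1 < ℓ)
    (hD : θ < q (2 * i) - q (2 * i + 1)) (hE : θ - 2 < p (2 * j + 1) - p (2 * j + 2))
    (hC : Closed B nQ nP uq up q p θ (2 * i + 1) (2 * (j + 1)))
    (hp0 : p 0 ≤ Rl.card - 1 - k)
    (hμ : 1 < Rl.card + 1 - k - θ → Rl.card - 2 ≤ q 0 → 3 ≤ 2 * θ - Rl.card + 1)
    {S : Finset V} (hSR : S ⊆ vs uq up (rr nQ nP (2 * i + 1) (2 * (j + 1)))) {g Y : ℤ}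
    (hg : 0 ≤ g) (hY : Y = 0)
    (hT2 : T2I B uq up (2 * i + 1) (2 * (j + 1)) S g Y) {c : ℤ} (c0 : 0 ≤ c) (c1 : c ≤ 1)
    (hc : (c : ℝ) ≤ cRr B nQ nP uq up (2 * i + 1) (2 * (j + 1))) {Γ : ℝ}
    (hT1 : CrI B uq up q p (2 * i + 1) (2 * (j + 1)) (c : ℝ) ∨
      OutI B uq up (2 * i + 1) (2 * (j + 1)) S (c : ℝ) (q 0 - Γ)) : Γ < q 0 - θ := by
  have hl := h.fr.l2
  have hθ3 := h.θ3 hn
  have hlam := h.lam2 hn
  have k3r := h.k3r
  have haQ := hC.aQ
  have hbP := hC.bP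
  have hcR' := h.cR hC.a1 haQ hbP
  have c0r : (0 : ℝ) ≤ c := by exact_mod_cast c0
  have c1r : (c : ℝ) ≤ 1 := by exact_mod_cast c1
  have g0r : (0 : ℝ) ≤ g := by exact_mod_cast hg
  have hY0 : (Y : ℝ) = 0 := by exact_mod_cast hY
  obtain ⟨q1, q2, q3, q4⟩ := h.fr.qgap hi
  obtain ⟨p1, p2, p3, p4⟩ := h.fr.pgap (j := j) (by omega)
  have e1 := AA_succ p j
  have e2 := h.fr.pa (i := 2 * j) (j := 2 * j + 1) (by omega) (by omega)
  have e3 := h.fr.pa (i := 0) (j := 2 * j + 1) (by omega) (by omega)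
  have f1 := h.fr.qn (i := 2 * i + 1) (by omega)
  have f2 := h.fr.pn (i := 2 * j + 2) (by omega)
  have f3 : p (2 * (j + 1)) = p (2 * j + 2) := by ring_nf
  have f4 := h.fr.qa (i := 0) (j := 2 * i) (by omega) (by omega)
  have hq0 : 0 < q 0 := by linarith
  have hqn := h.qle (i := 0) (by omega) hq0
  obtain ⟨ζ, hζ0, hζ⟩ := h.zeta (i := 0) (by omega) hq0
  have hζc : ζ ≤ 1 ∨ q 0 ≤ Rl.card - 3 := by
    rcases (show ζ ≤ 1 ∨ 2 ≤ ζ by omega) with h1 | h1
    · exact Or.inl h1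
    · right
      have : (2 : ℝ) ≤ ζ := by exact_mod_cast h1
      linarith
  rcases hT1 with hT1 | hT1
  · refine absurd ((h.fr.leaf1a (y := q 0 - θ) (ζ := Rl.card - 1 - q 0)
      (lam := 2 * θ - Rl.card + 1) (by ring) hpq (by ring) (by linarith) hi hj hD hE
      (D := c) (by linarith)).1 hT1) hnv
  by_contra hΓ
  push Not at hΓ
  have hT := h.tot0 hnv hi (by omega) haQ hbP hSR hT1
    (fun hC' => h.crs1a hi hj hpq hD hE hp0 (by linarith) (by
      rcases hζc with h1 | h1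
      · have h2 : (c : ℝ) + q 0 ≤ Rl.card - 1 := by linarith
        linarith
      · linarith) hC') (by linarith) (by linarith) (by linarith) (by linarith)
  have hT' : θ < c + 1 + (q 0 - q (2 * i) - AA q i + AA p (j + 1)) := by linarith
  have hK1 : 1 < Rl.card + 1 - k - θ := by linarith
  have hμ' : (Rl.card : ℝ) + 2 ≤ 2 * θ ∨ q 0 ≤ Rl.card - 3 := by
    rcases hζc with h1 | h1
    · left
      have h1r : (ζ : ℝ) ≤ 1 := by exact_mod_cast h1
      have := hμ hK1 (by linarith)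
      linarith
    · exact Or.inr h1
  have hb : ∀ v ∈ S, |((im B v : ℤ) : ℝ)| ≤ max (q 0 - θ) (Rl.card + 1 - k - θ) := by
    intro v hv
    rcases lt_or_ge (im B v) 0 with hv0 | hv0
    · have h1 := h.fr.negR (hSR hv) hv0
      exact le_trans (by linarith) (le_max_right _ _)
    · have h1 := h.fr.posR (hSR hv) hv0 (by omega)
      exact le_trans (by linarith) (le_max_left _ _)
  refine h.poW hnv hi (by omega) hT2 (z := max (q 0 - θ) (Rl.card + 1 - k - θ)) (D1 := c)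
    (le_trans (by linarith) (le_max_left _ _)) hb
    (by rw [hY0]; exact le_trans (by linarith) (le_max_left _ _)) hT' (by linarith)
    (by linarith) (by linarith) ?_ ?_ ?_
  · rcases hμ' with h1 | h1 <;> linarith
  · rw [← max_add_add_right]
    refine max_le ?_ ?_ <;> linarith
  · rw [← max_add_add_right, ← max_add_add_right, ← max_add_add_right]
    refine max_le ?_ ?_
    · rcases hμ' with h1 | h1 <;> linarith
    · linarith

/-- leaf 1c, independent rest: the item fails -/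
theorem Ctx.pe1c (hn : 2 * k - 1 ≤ (Rl.card : ℤ)) (hnv : ¬ Val B θ) (hpq : p 0 ≤ q 0)
    {i j : ℕ} (hi : i < ℓ) (hj : j + 1 < ℓ)
    (hD : θ < q (2 * i) - q (2 * i + 1)) (hE : θ < p (2 * j + 1))
    (hh : ∀ l < j + 1, θ < p (2 * l + 1))
    (hA : AA q ℓ + AA p ℓ < 2 * (q 0 - θ) + 2 * MM B (uq 0) (up 0))
    (hp2 : p (2 * (j + 1)) < q (2 * i) - q (2 * i + 1) - θ + 2)
    (hC : Closed B nQ nP uq up q p θ (2 * i + 1) (2 * (j + 1)))
    (hp0 : p 0 ≤ Rl.card - 1 - k)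
    (hμ : 1 < Rl.card + 1 - k - θ → Rl.card - 2 ≤ q 0 → 3 ≤ 2 * θ - Rl.card + 1)
    {S : Finset V} (hSR : S ⊆ vs uq up (rr nQ nP (2 * i + 1) (2 * (j + 1))))
    (hneg : ∀ v ∈ S, im B v < 0 → |((im B v : ℤ) : ℝ)| ≤ Rl.card - 1 - θ) {g Y : ℤ}
    (hg : 0 ≤ g) (hY : Y = 0)
    (hT2 : T2I B uq up (2 * i + 1) (2 * (j + 1)) S g Y) {c : ℤ} (c0 : 0 ≤ c) (c1 : c ≤ 1)
    (hc : (c : ℝ) ≤ cRr B nQ nP uq up (2 * i + 1) (2 * (j + 1))) {Γ : ℝ}
    (hT1 : CrI B uq up q p (2 * i + 1) (2 * (j + 1)) (c : ℝ) ∨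
      OutI B uq up (2 * i + 1) (2 * (j + 1)) S (c : ℝ) (q 0 - Γ)) : Γ < q 0 - θ := by
  have hl := h.fr.l2
  have hθ3 := h.θ3 hn
  have hlam := h.lam2 hn
  have k3r := h.k3r
  have haQ := hC.aQ
  have hbP := hC.bP
  have hM2 := h.MM2 (uq 0) (up 0)
  have hcR' := h.cR hC.a1 haQ hbP
  have hcRB := h.cRB hC.a1 haQ hbP (by omega)
  have c0r : (0 : ℝ) ≤ c := by exact_mod_cast c0
  have c1r : (c : ℝ) ≤ 1 := by exact_mod_cast c1
  have g0r : (0 : ℝ) ≤ g := by exact_mod_cast hg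
  have hY0 : (Y : ℝ) = 0 := by exact_mod_cast hY
  obtain ⟨q1, q2, q3, q4⟩ := h.fr.qgap hi
  obtain ⟨p1, p2, p3, p4⟩ := h.fr.pgap (j := j) (by omega)
  have e1 := AA_succ p j
  have e2 := h.fr.pa (i := 2 * j) (j := 2 * j + 1) (by omega) (by omega)
  have e3 := h.fr.pa (i := 0) (j := 2 * j + 1) (by omega) (by omega)
  have f1 := h.fr.qn (i := 2 * i + 1) (by omega)
  have f4 := h.fr.qa (i := 0) (j := 2 * i) (by omega) (by omega)
  have hq0 : 0 < q 0 := by linarith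
  have hqn := h.qle (i := 0) (by omega) hq0
  obtain ⟨ζ, hζ0, hζ⟩ := h.zeta (i := 0) (by omega) hq0
  have hζc : ζ ≤ 1 ∨ q 0 ≤ Rl.card - 3 := by
    rcases (show ζ ≤ 1 ∨ 2 ≤ ζ by omega) with h1 | h1
    · exact Or.inl h1
    · right
      have : (2 : ℝ) ≤ ζ := by exact_mod_cast h1
      linarith
  rcases hT1 with hT1 | hT1
  · refine absurd ((h.fr.leaf1c (y := q 0 - θ) (ζ := Rl.card - 1 - q 0)
      (lam := 2 * θ - Rl.card + 1) (by ring) hpq (by ring) (by linarith) hi hj hD hA hh hp2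
      (D := c) (by linarith) (by linarith)).1 hT1) hnv
  by_contra hΓ
  push Not at hΓ
  have hT := h.tot0 hnv hi (by omega) haQ hbP hSR hT1
    (fun hC' => h.crs1c hi hj hpq hD hE hA hp2 hp0 (by linarith) (by
      rcases hζc with h1 | h1
      · have h2 : (c : ℝ) + q 0 ≤ Rl.card - 1 := by linarith
        linarith
      · linarith) (by linarith) (by linarith) hC') (by linarith) (by linarith) (by linarith)
      (by linarith)
  have hT' : θ < c + 1 + (q 0 - q (2 * i) - AA q i + AA p (j + 1)) := by linarith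
  have hK1 : 1 < Rl.card + 1 - k - θ := by linarith
  have hμ' : (Rl.card : ℝ) + 2 ≤ 2 * θ ∨ q 0 ≤ Rl.card - 3 := by
    rcases hζc with h1 | h1
    · left
      have h1r : (ζ : ℝ) ≤ 1 := by exact_mod_cast h1
      have := hμ hK1 (by linarith)
      linarith
    · exact Or.inr h1
  have hb : ∀ v ∈ S, |((im B v : ℤ) : ℝ)| ≤ Rl.card - 1 - θ := by
    intro v hv
    rcases lt_or_ge (im B v) 0 with hv0 | hv0
    · exact hneg v hv hv0
    · have h1 := h.fr.posR (hSR hv) hv0 (by omega)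
      linarith
  refine h.poW hnv hi (by omega) hT2 (z := Rl.card - 1 - θ) (D1 := c)
    (by linarith) hb (by rw [hY0]; linarith) hT' (by linarith)
    (by linarith) (by linarith) ?_ (by linarith) ?_
  · rcases hμ' with h1 | h1 <;> linarith
  · rcases hμ' with h1 | h1 <;> linarith

/-- leaf 3b, independent rest: the item fails -/
theorem Ctx.pe3b (hn : 2 * k - 1 ≤ (Rl.card : ℤ)) (hnv : ¬ Val B θ) (hpq : p 0 ≤ q 0)
    {i j : ℕ} (hi : i < ℓ) (hj : j + 1 < ℓ)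
    (hlam : 3 < 2 * θ - (Rl.card : ℝ) + 1)
    (hz : q 0 + MM B (uq 0) (up 0) + 2 ≤ 2 * θ)
    (hA : 2 * θ < AA q ℓ + AA p ℓ)
    (hE : θ - MM B (uq 0) (up 0) < p (2 * j + 1) - p (2 * j + 2))
    (h1 : θ - (MM B (uq 0) (up 0) + 2) < q (2 * i))
    (h2 : q (2 * i + 1) ≤ θ - (MM B (uq 0) (up 0) + 2))
    (h3 : q (2 * i + 1) < p (2 * j + 1) - p (2 * j + 2) - θ + (MM B (uq 0) (up 0) + 2))
    (hC : Closed B nQ nP uq up q p θ (2 * i + 1) (2 * (j + 1)))
    (hp0 : p 0 ≤ Rl.card - 1 - k)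
    {S : Finset V} (hSR : S ⊆ vs uq up (rr nQ nP (2 * i + 1) (2 * (j + 1)))) {g Y : ℤ}
    (hg : 0 ≤ g) (hY : Y = 0)
    (hT2 : T2I B uq up (2 * i + 1) (2 * (j + 1)) S g Y) {c : ℤ} (c0 : 0 ≤ c) (c1 : c ≤ 1)
    (hc : (c : ℝ) ≤ cRr B nQ nP uq up (2 * i + 1) (2 * (j + 1))) {Γ : ℝ}
    (hT1 : CrI B uq up q p (2 * i + 1) (2 * (j + 1)) (c : ℝ) ∨
      OutI B uq up (2 * i + 1) (2 * (j + 1)) S (c : ℝ) (q 0 - Γ)) : Γ < q 0 - θ := by
  have hl := h.fr.l2
  have hθ3 := h.θ3 hn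
  have k3r := h.k3r
  have haQ := hC.aQ
  have hbP := hC.bP
  have hqθ := h.top hnv hpq
  have hM2 := h.MM2 (uq 0) (up 0)
  have hM0 := h.MM0 (uq 0) (up 0)
  have hcR' := h.cR hC.a1 haQ hbP
  have hcRB := h.cRB hC.a1 haQ hbP (by omega)
  have c0r : (0 : ℝ) ≤ c := by exact_mod_cast c0
  have c1r : (c : ℝ) ≤ 1 := by exact_mod_cast c1
  have g0r : (0 : ℝ) ≤ g := by exact_mod_cast hg
  have hY0 : (Y : ℝ) = 0 := by exact_mod_cast hY
  obtain ⟨q1, q2, q3, q4⟩ := h.fr.qgap hi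
  obtain ⟨p1, p2, p3, p4⟩ := h.fr.pgap (j := j) (by omega)
  have e1 := AA_succ p j
  have e2 := h.fr.pa (i := 2 * j) (j := 2 * j + 1) (by omega) (by omega)
  have e3 := h.fr.pa (i := 0) (j := 2 * j + 1) (by omega) (by omega)
  have f1 := h.fr.qn (i := 2 * i + 1) (by omega)
  have f2 := h.fr.pn (i := 2 * j + 2) (by omega)
  have f3 : p (2 * (j + 1)) = p (2 * j + 2) := by ring_nf
  have f4 := h.fr.qa (i := 0) (j := 2 * i) (by omega) (by omega)
  have f5 := h.fr.qT (i := i) hi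
  have f6 := h.fr.pT (i := j + 1) (by omega)
  have hq0 : 0 < q 0 := by linarith
  have hqn := h.qle (i := 0) (by omega) hq0
  have hMz := h.MM_le (up 0) (i := 0) (by omega) hq0 (h.uqp (by omega) (by omega))
  have key := fun (D : ℝ) (hD' : D + 2 ≤ ((Rl.card : ℝ) - 1 - q 0) + (2 * θ - Rl.card + 1)) =>
    h.fr.leaf3b (y := q 0 - θ) (ζ := Rl.card - 1 - q 0) (lam := 2 * θ - Rl.card + 1)
      (by ring) hpq (by ring) (by linarith) hi hj hM2 hE hA h3 hD' (by linarith) (by linarith)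
  rcases hT1 with hT1 | hT1
  · exact absurd ((key c (by linarith)).1 hT1) hnv
  by_contra hΓ
  push Not at hΓ
  have hT := h.tot0 hnv hi (by omega) haQ hbP hSR hT1
    (fun hC' => (key (c + 1) (by linarith)).2 hC') (by linarith) (by linarith) (by linarith)
    (by linarith)
  have hT' : θ < c + 1 + (q 0 - q (2 * i) - AA q i + AA p (j + 1)) := by linarith
  have hb : ∀ v ∈ S, |((im B v : ℤ) : ℝ)| ≤
      max (θ - (MM B (uq 0) (up 0) + 2)) (Rl.card - 1 - k - θ + MM B (uq 0) (up 0)) := by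
    intro v hv
    rcases lt_or_ge (im B v) 0 with hv0 | hv0
    · have h1 := h.fr.negR (hSR hv) hv0
      exact le_trans (by linarith) (le_max_right _ _)
    · have h1 := h.fr.posR (hSR hv) hv0 (by omega)
      exact le_trans (by linarith) (le_max_left _ _)
  refine h.poW hnv hi (by omega) hT2
    (z := max (θ - (MM B (uq 0) (up 0) + 2)) (Rl.card - 1 - k - θ + MM B (uq 0) (up 0)))
    (D1 := c) (le_trans f1 (h2.trans (le_max_left _ _))) hb
    (by rw [hY0]; exact le_trans f1 (h2.trans (le_max_left _ _))) hT' (by linarith)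
    (by linarith) (by linarith) (by linarith) ?_ ?_
  · rw [← max_add_add_right]
    refine max_le ?_ ?_ <;> linarith
  · rw [← max_add_add_right, ← max_add_add_right, ← max_add_add_right]
    refine max_le ?_ ?_ <;> linarith

end
end Pool.Agent.Exact
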