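import Pool.Agent.Lib_helper68.Exact.PoNC

/-!
# No crossing, hubs of both types, an odd number of the first, minimum outdegree at least `k`:
the leaves 1a, 1c, 3b with nonempty `Rs`
-/

set_option autoImplicit false
set_option linter.unusedSectionVars false

namespace Pool.Agent.Exact

open Finset

variable {V : Type*} [Fintype V] [DecidableEq V]
variable {B : V → V → ℤ} {Rl : Finset V} {ℓ nQ nP : ℕ} {uq up : ℕ → V} {q p : ℕ → ℝ}
variable {k : ℤ} {θ : ℝ}

/-- the negative vertices of the rest -/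
lemma Frame.negR (h : Frame B Rl ℓ nQ nP uq up q p) {a b : ℕ} {v : V}
    (hv : v ∈ vs uq up (rr nQ nP a b)) (hv0 : im B v < 0) : |((im B v : ℤ) : ℝ)| ≤ p b := by
  have hQ := h.nQle
  have hP := h.nPle
  have hv0' : ((im B v : ℤ) : ℝ) < 0 := by exact_mod_cast hv0
  unfold vs at hv
  rw [Finset.mem_image] at hv
  obtain ⟨x, hx, rfl⟩ := hv
  rcases x with l | l
  · exfalso
    have hx' : a ≤ l ∧ l < nQ := by
      unfold rr at hx
      simpa only [Finset.mem_union, inl_mem_iq, inl_mem_ip, or_false] using hx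
    have h1 : ((im B (vx uq up (Sum.inl l)) : ℤ) : ℝ) = q l := h.sys.wtQ l (by omega)
    rw [h1] at hv0'
    have := h.sys.chQ.nn l (by omega)
    linarith
  · have hx' : b ≤ l ∧ l < nP := by
      unfold rr at hx
      simpa only [Finset.mem_union, inr_mem_iq, inr_mem_ip, false_or] using hx
    have h1 : ((im B (vx uq up (Sum.inr l)) : ℤ) : ℝ) = - p l := h.sys.wtP l (by omega)
    rw [abs_of_neg hv0', h1, neg_neg]
    exact h.sys.chP.anti b l hx'.1 (by omega)

section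
variable (h : Ctx B Rl ℓ nQ nP uq up q p k θ)
include h

variable {Rs S : Finset V} {g : ℤ} {Kc : V → Finset V} {pick : Finset V → V}

/-- the arrangements `A`, `TE` and `TO` if the hubs of the first type are low -/
theorem Ctx.poA3 {i j : ℕ} (hi : i < ℓ) (hj : j < ℓ) {S : Finset V} {g Y : ℤ}
    (hT2 : T2I B uq up (2 * i + 1) (2 * (j + 1)) S g Y) {z m : ℝ} (hz0 : 0 ≤ z)
    (hS : ∀ v ∈ S, |((im B v : ℤ) : ℝ)| ≤ z) (hY : (Y : ℝ) ≤ z)
    (a1 : q (2 * i) ≤ θ + g) (g2 : (2 : ℝ) ≤ g) (hθ : 0 ≤ θ)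
    (hQ : ∀ l < ℓ, q (2 * l) - q (2 * l + 1) ≤ θ) (hP : ∀ l < ℓ, p (2 * l) - p (2 * l + 1) ≤ θ)
    (m1 : θ - m ≤ q (2 * i))
    (gP : p 0 - p (2 * j + 1) ≤ θ + g - 2) (gP' : p 0 - p (2 * j + 1) ≤ q (2 * i))
    (hz : z + 4 ≤ θ + g) (hE : q 0 - θ + m ≤ θ + g - 2) (hI2 : q 0 + 2 * m + 2 ≤ 3 * θ + g)
    (hI3 : z + 4 + 2 * q 0 + 3 * m ≤ 5 * θ + 2 * g) : Val B θ := by
  have hl := h.fr.l2
  by_contra hn
  obtain ⟨q1, q2, q3, q4⟩ := h.fr.qgap hi
  obtain ⟨p1, p2, p3, p4⟩ := h.fr.pgap hj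
  have e1 := AA_succ p j
  have e2 := h.fr.pa (i := 2 * j) (j := 2 * j + 1) (by omega) (by omega)
  have e3 := h.fr.pa (i := 0) (j := 2 * j + 1) (by omega) (by omega)
  have e4 := h.fr.qa (i := 0) (j := 2 * i) (by omega) (by omega)
  have e6 := h.fr.pa (i := 0) (j := 2 * j) (by omega) (by omega)
  have F1 := h.fr.tA (K := θ + g) i (j + 1) hi (by omega) a1
    (fun l hl' => by have := hQ l (by omega); linarith) (fun l hl' => by
      have := hP l (by omega); linarith)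
  have G1 : 2 * θ + 2 * g < z + (AA q i + q (2 * i) + AA p (j + 1)) + 2 * 0 := by
    by_contra hc
    push Not at hc
    exact hn (hT2.close F1 (by linarith) hz0 hS hY (by linarith) (by linarith) hc)
  rcases le_or_gt (AA q i) (AA p (j + 1)) with h1 | h1
  · -- `TE`
    have h2 : |p 0 - p (2 * j + 1) - q (2 * i)| = q (2 * i) - (p 0 - p (2 * j + 1)) := by
      rw [abs_of_nonpos (by linarith)]; ring
    have hM : ((MM B (up 0) (uq (2 * i)) - MM B (up 0) (up (2 * j + 1)) -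
      MM B (up (2 * j + 1)) (uq (2 * i)) : ℤ) : ℝ) ≤ 2 := by
      have h3 := h.MM2z (up 0) (uq (2 * i))
      have h4 := h.MM0z (up 0) (up (2 * j + 1))
      have h5 := h.MM0z (up (2 * j + 1)) (uq (2 * i))
      exact_mod_cast (by linarith : MM B (up 0) (uq (2 * i)) - MM B (up 0) (up (2 * j + 1)) -
        MM B (up (2 * j + 1)) (uq (2 * i)) ≤ 2)
    have F2 := h.fr.tTE (K := θ + g - 2) (M := 2) i j hi hj
      (by rw [h2]; linarith) hM (fun l hl' => by have := hQ l (by omega); linarith)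
      (fun l hl' => by have := p4 l hl'; linarith)
    refine hn (hT2.close F2 (by linarith) hz0 hS hY (by linarith) (by linarith) ?_)
    rw [h2]
    linarith
  · -- `TO`
    rcases Nat.eq_zero_or_pos i with h0 | h0
    · subst h0
      rw [AA_zero] at h1 G1
      linarith
    · obtain ⟨i, rfl⟩ : ∃ m, i = m + 1 := ⟨i - 1, by omega⟩
      have f1 := AA_succ q i
      obtain ⟨r1, r2, r3, r4⟩ := h.fr.qgap (i := i) (by omega)
      have f2 := h.fr.qa (i := 2 * i) (j := 2 * i + 1) (by omega) (by omega)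
      have f3 := h.fr.qa (i := 2 * i + 1) (j := 2 * (i + 1)) (by omega) (by omega)
      have f4 : q (2 * (i + 1)) = q (2 * i + 2) := by ring_nf
      have hM : ((MM B (uq (2 * i + 1)) (uq (2 * i + 2)) - MM B (uq 0) (uq (2 * i + 1)) -
        MM B (uq 0) (uq (2 * i + 2)) : ℤ) : ℝ) ≤ 2 := by
        have h3 := h.MM2z (uq (2 * i + 1)) (uq (2 * i + 2))
        have h4 := h.MM0z (uq 0) (uq (2 * i + 1))
        have h5 := h.MM0z (uq 0) (uq (2 * i + 2))
        exact_mod_cast (by linarith : MM B (uq (2 * i + 1)) (uq (2 * i + 2)) -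
          MM B (uq 0) (uq (2 * i + 1)) - MM B (uq 0) (uq (2 * i + 2)) ≤ 2)
      have F2 := h.fr.tTO (K := θ + g - 2) (M := 2) i (j + 1) (by omega) (by omega)
        (abs_le.2 ⟨by linarith, by linarith⟩) hM
        (fun l hl' => by have := r4 l hl'; linarith)
        (fun l hl' => by have := hP l (by omega); linarith)
      refine hn (hT2.close F2 (by linarith) hz0 hS hY (by linarith) (by linarith) ?_)
      rcases le_or_gt 0 (q 0 - q (2 * i + 1) - q (2 * i + 2)) with h5 | h5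
      · rw [abs_of_nonneg h5]
        linarith
      · rw [abs_of_neg h5]
        linarith

/-- the effective number of blocks -/
lemma Ctx.exists_NB (k3 : 3 ≤ k) {nb : ℤ} (hnb : 1 ≤ nb) :
    ∃ NB : ℝ, 1 ≤ NB ∧ (nb : ℝ) - 1 ≤ NB ∧ NB ≤ nb ∧ (nb ≤ k - 2 → NB = nb) ∧
      (k - 2 < nb → NB = nb - 1) := by
  by_cases h1 : nb ≤ k - 2
  · refine ⟨nb, by exact_mod_cast hnb, by linarith, le_rfl, fun _ => rfl, fun h2 => by omega⟩
  · push Not at h1
    have h2 : (2 : ℝ) ≤ nb := by exact_mod_cast (by omega : 2 ≤ nb)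
    exact ⟨nb - 1, by linarith, le_rfl, by linarith, fun h3 => by omega, fun _ => rfl⟩

/-- leaf 1a, nonempty `Rs` -/
theorem Ctx.po1aNe (hn : 2 * k - 1 ≤ (Rl.card : ℤ)) (hnv : ¬ Val B θ) (hpq : p 0 ≤ q 0)
    (hout : ∀ v ∈ Rl, k ≤ ∑ u, B v u) {i j : ℕ} (hi : i < ℓ) (hj : j + 1 < ℓ)
    (hD : θ < q (2 * i) - q (2 * i + 1)) (hE : θ - 2 < p (2 * j + 1) - p (2 * j + 2))
    (hC : Closed B nQ nP uq up q p θ (2 * i + 1) (2 * (j + 1)))
    (hd : Dec B pick (vs uq up (rr nQ nP (2 * i + 1) (2 * (j + 1)))) Rs S g Kc)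
    (hpick : ∀ K : Finset V, K.Nonempty → pick K ∈ K ∧ ∀ u ∈ K, indg B K (pick K) ≤ indg B K u)
    (hRs : Rs.Nonempty) {Y nb cR : ℤ} (hY : 0 ≤ Y) (hnb : 1 ≤ nb)
    (hcard : (Rs.card : ℤ) ≤ g + nb)
    (hcR : (cR : ℝ) = cRr B nQ nP uq up (2 * i + 1) (2 * (j + 1)))
    (hT2 : T2I B uq up (2 * i + 1) (2 * (j + 1)) S g Y)
    (hT1 : CrI B uq up q p (2 * i + 1) (2 * (j + 1)) ((max 0 (cR - 1) : ℤ) : ℝ) ∨
      EndI B uq up (q 0) (2 * i + 1) (2 * (j + 1)) S g Y nb cR 1) : False := by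
  have hl := h.fr.l2
  have hθ3 := h.θ3 hn
  have hlam := h.lam2 hn
  have hq1 := h.fr.qn (i := 2 * i + 1) (by omega)
  have hp1 := h.fr.pn (i := 2 * j + 2) (by omega)
  have haQ := hC.aQ
  have hbP := hC.bP
  have hqa := h.fr.qa (i := 0) (j := 2 * i) (by omega) (by omega)
  have hq0 : 0 < q 0 := by linarith
  have hqn := h.qle (i := 0) (by omega) hq0
  have hpa := h.fr.pa (i := 0) (j := 2 * j + 1) (by omega) (by omega)
  have hp0 : p 0 ≤ Rl.card - 1 - k := h.pleK hout (by omega) (by linarith)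
  have hpj : p (2 * j + 1) ≤ Rl.card - 1 - k := h.pleK hout (by omega) (by linarith)
  have hcR' := h.cR hC.a1 haQ hbP
  rw [← hcR] at hcR'
  have k3r := h.k3r
  have c1 : 1 ≤ (Rs.card : ℤ) := by
    have := Finset.card_pos.2 hRs
    exact_mod_cast this
  have g1 : 1 ≤ g := by
    have := hd.cg
    omega
  have g1r : (1 : ℝ) ≤ g := by exact_mod_cast g1
  have hnbr : (1 : ℝ) ≤ nb := by exact_mod_cast hnb
  have hSR : S ⊆ vs uq up (rr nQ nP (2 * i + 1) (2 * (j + 1))) := by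
    rw [← hd.un]
    exact Finset.subset_union_right
  rcases hT1 with hT1 | hT1
  · refine hnv (hC.cr _ ?_ hT1)
    rw [← hcR]
    push_cast
    exact le_rfl
  obtain ⟨NB, n1, n2, n3, n4, n5⟩ := h.exists_NB h.k3 hnb
  have hneg : ∀ v ∈ S, im B v < 0 → |((im B v : ℤ) : ℝ)| ≤ Rl.card + 1 - k - θ := by
    intro v hv hv0
    have h1 := h.fr.negR (hSR hv) hv0
    have h2 : p (2 * (j + 1)) = p (2 * j + 2) := by ring_nf
    linarith
  obtain ⟨i1, i2, i3⟩ := h.fr.qgap hi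
  obtain ⟨z0, hSz, hYz, hΓ⟩ := h.poT1 hnv hi (by omega) haQ hbP hpq hSR (m := 2)
    (z := (Rl.card : ℝ) - 1 - θ - NB) hT2 hT1 (fun D hD' hC' => hC.crs D (by linarith) hC') hY hnb
    g1 (by norm_num) (by linarith) (by linarith) (by linarith) (by linarith) (by linarith)
    (by linarith) (by linarith) (Or.inr (Or.inl le_rfl)) (by linarith) (by
      intro v hv hv0
      rcases le_or_gt nb (k - 2) with h1 | h1
      · left
        have h2 := hneg v hv hv0
        have h3 : (nb : ℝ) ≤ k - 2 := by exact_mod_cast h1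
        rw [n4 h1]
        linarith
      · right
        have h3 := h.k3
        refine ⟨by omega, le_rfl, ?_⟩
        rw [n5 h1]
        linarith) (by linarith) (by linarith)
  rcases lt_or_ge (θ + g) (q (2 * i)) with h1 | h1
  · exact h.poNeHigh hn hnv hpq hout hi (by omega) haQ hbP hd hpick hRs hnb hcard hT2 hq0 h1
      (by linarith) hΓ (Or.inl ⟨n2, fun h2 => (n4 h2).ge⟩) z0 hSz hYz
  · exact hnv (h.poA hi (by omega) hT2 z0 hSz hYz h1 (by linarith) (by linarith) (by linarith)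
      (by linarith) (by linarith))

end
end Pool.Agent.Exact
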