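import Pool.Agent.Lib_helper68.Exact.PoH

/-!
# The first statement T1: hubs of both types, an odd number of the first, an even of the second
-/

set_option autoImplicit false
set_option linter.unusedSectionVars false

namespace Pool.Agent.Exact

open Finset

variable {V : Type*} [Fintype V] [DecidableEq V]
variable {B : V → V → ℤ} {Rl : Finset V} {ℓ nQ nP : ℕ} {uq up : ℕ → V} {q p : ℕ → ℝ}
variable {k : ℤ} {θ : ℝ}

section
variable (h : Ctx B Rl ℓ nQ nP uq up q p k θ)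
include h

/-- **The first statement T1 fails only because of an item.** -/
theorem Ctx.poT1 (hnv : ¬ Val B θ) {i j : ℕ} (hi : i < ℓ) (hj : j < ℓ)
    (haQ : 2 * i + 1 ≤ nQ) (hbP : 2 * (j + 1) ≤ nP) (hpq : p 0 ≤ q 0) {S : Finset V}
    {g Y nb cR e : ℤ}
    (hSR : S ⊆ vs uq up (rr nQ nP (2 * i + 1) (2 * (j + 1)))) {m z : ℝ}
    (hT2 : T2I B uq up (2 * i + 1) (2 * (j + 1)) S g Y)
    (hE : EndI B uq up (q 0) (2 * i + 1) (2 * (j + 1)) S g Y nb cR e)
    (hCrS : ∀ D : ℝ, D ≤ cR → CrSI B uq up p (2 * i + 1) (2 * (j + 1)) D → Val B θ)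
    (hY0 : 0 ≤ Y) (hnb : 1 ≤ nb) (hg : 1 ≤ g)
    (hm : 0 ≤ m) (hEg : q 0 - q (2 * i) - AA q i ≤ q 0 - θ + m)
    (m1 : θ - m ≤ q (2 * i)) (m2 : θ - m ≤ p (2 * j + 1))
    (hR : cR + (q 0 - θ + m) ≤ θ) (hR3 : cR + q 0 + 2 ≤ 2 * θ)
    (gP' : p 0 - p (2 * j + 1) ≤ q (2 * i)) (gE : p 0 - p (2 * j + 1) ≤ θ + g - 2)
    (gQ : AA q i ≤ θ + g - 2 ∨ m ≤ 2 ∨ cR - nb + 1 + q 0 - θ + m ≤ θ)
    (z1 : cR - nb + q 0 - θ ≤ z)
    (zneg : ∀ v ∈ S, im B v < 0 → |((im B v : ℤ) : ℝ)| ≤ z ∨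
      (2 ≤ nb ∧ e ≤ 1 ∧ cR - nb + 1 + q 0 - θ ≤ z))
    (z2 : z + 2 ≤ θ + g) (z5 : z + 5 + (cR - nb) + q 0 ≤ 3 * θ + 2 * g) :
    0 ≤ z ∧ (∀ v ∈ S, |((im B v : ℤ) : ℝ)| ≤ z) ∧ (Y : ℝ) ≤ z ∧
      ((Gam B (uq 0) S : ℤ) : ℝ) < q 0 - θ - g := by
  classical
  have hl := h.fr.l2
  have hnbr : (1 : ℝ) ≤ nb := by exact_mod_cast hnb
  have hgr : (1 : ℝ) ≤ g := by exact_mod_cast hg
  have hY0r : (0 : ℝ) ≤ Y := by exact_mod_cast hY0
  obtain ⟨q1, q2, q3, q4⟩ := h.fr.qgap hi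
  obtain ⟨p1, p2, p3, p4⟩ := h.fr.pgap hj
  have e1 := AA_succ p j
  -- all neutral vertices are small
  have hall : (∀ v ∈ S, |((im B v : ℤ) : ℝ)| ≤ z) ∧ (Y : ℝ) ≤ z := by
    by_contra hcon
    -- the largest neutral vertex
    have hmax : ∃ Z : ℝ, z < Z ∧ (Y : ℝ) ≤ Z ∧ (∀ v ∈ S, |((im B v : ℤ) : ℝ)| ≤ Z) ∧
        (Z = Y ∨ ∃ v ∈ S, Z = |((im B v : ℤ) : ℝ)|) := by
      rcases S.eq_empty_or_nonempty with hS | hS
      · refine ⟨Y, ?_, le_rfl, by simp [hS], Or.inl rfl⟩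
        by_contra hc
        push Not at hc
        exact hcon ⟨by simp [hS], hc⟩
      · obtain ⟨v, hv, hvm⟩ := Finset.exists_max_image S
          (fun v => |((im B v : ℤ) : ℝ)|) hS
        refine ⟨max Y |((im B v : ℤ) : ℝ)|, ?_, le_max_left _ _,
          fun u hu => (hvm u hu).trans (le_max_right _ _), ?_⟩
        · by_contra hc
          push Not at hc
          exact hcon ⟨fun u hu => (hvm u hu).trans ((le_max_right _ _).trans hc),
            (le_max_left _ _).trans hc⟩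
        · rcases max_choice (Y : ℝ) |((im B v : ℤ) : ℝ)| with h1 | h1
          · exact Or.inl h1
          · exact Or.inr ⟨v, hv, h1⟩
    obtain ⟨Z, hZz, hYZ, hSZ, hZ⟩ := hmax
    rcases hZ with hZ | ⟨v, hv, hZ⟩
    · exact h.poD hnv hi hj haQ hbP hpq hSR (D1 := cR - nb) (m := m) (X := Y) (Z := Z) hT2
        (hE.t) (fun hC => hCrS _ (by linarith) hC) hm hEg m1 m2
        (by linarith) (by linarith) (by linarith) hgr gP' gE (by linarith) hZ.le hYZ hSZ
    · rcases lt_or_ge (im B v) 0 with hv0 | hv0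
      · rcases zneg v hv hv0 with h1 | ⟨h1, h1', h2⟩
        · linarith
        · have h1r : (2 : ℝ) ≤ nb := by exact_mod_cast h1
          exact h.poD hnv hi hj haQ hbP hpq hSR (D1 := cR - nb + 1) (m := m)
            (X := Y + |((im B v : ℤ) : ℝ)|) (Z := Z) hT2
            ((hE.v' (by linarith) v hv).mono le_rfl (by linarith))
            (fun hC => hCrS _ (by linarith) hC) hm hEg m1 m2
            (by linarith) (by linarith) (by linarith) hgr gP' gE (by linarith) (by linarith)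
            hYZ hSZ
      · exact h.poD hnv hi hj haQ hbP hpq hSR (D1 := cR - nb) (m := m)
          (X := Y + |((im B v : ℤ) : ℝ)|) (Z := Z) hT2
          ((hE.v v hv hv0).mono le_rfl (by linarith))
          (fun hC => hCrS _ (by linarith) hC) hm hEg m1 m2
          (by linarith) (by linarith) (by linarith) hgr gP' gE (by linarith) (by linarith)
          hYZ hSZ
  obtain ⟨hSz, hYz⟩ := hall
  have z0 : 0 ≤ z := hY0r.trans hYz
  refine ⟨z0, hSz, hYz, ?_⟩
  by_contra hc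
  push Not at hc
  have hT := h.tot hnv hi hj haQ hbP hSR hE.w (m := m)
    (fun hC => hCrS _ (by linarith) hC) hEg (by linarith) (by linarith) (by linarith)
  have hgQ : AA q i ≤ θ + g - 2 := by
    have h1 : AA q i < AA p (j + 1) - q (2 * i) + (cR - nb + 1) + q 0 - θ := by linarith
    rcases gQ with h2 | h2 | h2
    · exact h2
    · linarith
    · linarith
  exact h.poW hnv hi hj hT2 (D1 := cR - nb) z0 hSz hYz (by linarith) gP' hgQ gE
    (by linarith) z2 z5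

end
end Pool.Agent.Exact
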