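import Pool.Agent.Lib_helper68.Exact.Cut

/-!
# Exchanging the two types
-/

set_option autoImplicit false
set_option linter.unusedSectionVars false

namespace Pool.Agent.Exact

open Finset

variable {V : Type*} [Fintype V] [DecidableEq V]
variable {B : V → V → ℤ} {Rl : Finset V} {ℓ nQ nP : ℕ} {uq up : ℕ → V} {q p : ℕ → ℝ}

/-- the transposed digraph -/
def Tr (B : V → V → ℤ) : V → V → ℤ := fun u v => B v u

lemma im_Tr (v : V) : im (Tr B) v = - im B v := im_transpose v

lemma MM_Tr (u v : V) : MM (Tr B) u v = MM B u v := MM_transpose u v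

lemma Qd_Tr (S : Finset V) (x : V → ℤ) : Qd (Tr B) S x = Qd B S x := Qd_transpose S x

lemma Val_Tr {r : ℝ} (h : Val (Tr B) r) : Val B r := Val_transpose h

lemma Chain.swap {u : ℕ → V} {L : ℕ} {w : ℕ → ℝ} (h : Chain (im B) u L w) :
    Chain (im (Tr B)) u L w := by
  refine ⟨h.inj, ?_, h.anti, h.nn⟩
  rcases h.wt with h1 | h1
  · right
    intro i hi
    rw [im_Tr]
    push_cast
    rw [h1 i hi]
  · left
    intro i hi
    rw [im_Tr]
    push_cast
    rw [h1 i hi, neg_neg]

/-- exchanging the two types -/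
lemma Frame.swap (h : Frame B Rl ℓ nQ nP uq up q p) : Frame (Tr B) Rl ℓ nP nQ up uq p q := by
  refine ⟨⟨fun u v => h.sys.B0 v u, fun u v => h.sys.B1 v u, fun v => h.sys.Bd v,
    fun v hv u => ⟨(h.sys.dummy v hv u).2, (h.sys.dummy v hv u).1⟩, h.sys.chP.swap, ?_,
    h.sys.chQ.swap, ?_, fun i hi j hj e => h.sys.disj j hj i hi e.symm,
    fun v => (h.sys.cover v).symm, h.sys.realP, h.sys.realQ, ?_, h.sys.big⟩⟩
  · intro i hi
    rw [im_Tr]; push_cast; rw [h.sys.wtP i hi, neg_neg]
  · intro i hi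
    rw [im_Tr]; push_cast; rw [h.sys.wtQ i hi]
  · rw [add_comm]; exact h.sys.card

lemma Grp.swap {S : Finset V} {M : ℤ} {l : List ℝ} (h : Grp B (im B) S M l) :
    Grp (Tr B) (im (Tr B)) S M (l.map fun d => -d) := by
  induction h with
  | empty => exact Grp.empty
  | cons S M l T z hS hd hz ih =>
    have h1 := Grp.cons (B := Tr B) (s := im (Tr B)) S M _ T z ih hd hz
    rw [Qd_Tr] at h1
    have e : ((∑ v ∈ T, im (Tr B) v * z v : ℤ) : ℝ) = -((∑ v ∈ T, im B v * z v : ℤ) : ℝ) := by
      push_cast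
      rw [← Finset.sum_neg_distrib]
      refine Finset.sum_congr rfl fun v _ => ?_
      rw [im_Tr]; push_cast; ring
    rw [e] at h1
    exact h1

lemma St.swap {S : Finset V} {M K t : ℝ} (h : St B (im B) S M K t) :
    St (Tr B) (im (Tr B)) S M K t := by
  obtain ⟨m, l, h1, h2, h3, h4⟩ := h
  refine ⟨m, l.map fun d => -d, h1.swap, h2, ?_, ?_⟩
  · intro d hd
    rw [List.mem_map] at hd
    obtain ⟨e, he, rfl⟩ := hd
    rw [abs_neg]
    exact h3 e he
  · rw [List.map_map]
    have : ((fun d : ℝ => |d|) ∘ fun d : ℝ => -d) = fun d => |d| := by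
      funext d; simp
    rw [this]
    exact h4

/-- structures on index sets after exchanging the two types -/
lemma StI.swap {I : Finset (ℕ ⊕ ℕ)} {M K t : ℝ}
    (h : StI (Tr B) up uq (I.image Sum.swap) M K t) : StI B uq up I M K t := by
  unfold StI at h ⊢
  have h1 := St.swap (B := Tr B) h
  have e : (I.image Sum.swap).image (vx up uq) = I.image (vx uq up) := by
    rw [Finset.image_image]
    congr 1
    funext x
    rcases x with x | x <;> rfl
  rw [e] at h1
  exact h1

lemma swap_hb (a b : ℕ) : (hb a b).image Sum.swap = hb b a := by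
  ext x
  rcases x with x | x
  · simp [hb, iq, ip]
  · simp [hb, iq, ip]

end Pool.Agent.Exact
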