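import Pool.Agent.Lib_helper68.Exact.Comp
import Pool.Agent.Lib_helper23.Exact.NCount

/-!
# Counting facts for hubs of both types, minimum outdegree at least `k`
-/

set_option autoImplicit false
set_option linter.unusedSectionVars false
set_option linter.unusedSimpArgs false
set_option linter.unnecessarySeqFocus false
set_option linter.unreachableTactic false
set_option linter.unusedTactic false

namespace Pool.Agent.Exact

open Finset

variable {V : Type*} [Fintype V] [DecidableEq V]
variable {B : V → V → ℤ} {Rl : Finset V} {ℓ nQ nP : ℕ} {uq up : ℕ → V} {q p : ℕ → ℝ}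
variable {k : ℤ} {θ : ℝ}

lemma Frame.ipf (h : Frame B Rl ℓ nQ nP uq up q p) {b : ℕ} (hb : b ≤ nP) :
    ip 0 b ⊆ full ℓ := by
  have := h.nPle
  (intro x hx; revert hx; rcases x with x | x <;>
    simp only [Finset.mem_union, Finset.mem_insert, Finset.mem_singleton, inl_mem_full,
      inr_mem_full, inl_mem_iq, inr_mem_iq, inl_mem_ip, inr_mem_ip, Sum.inl.injEq, Sum.inr.injEq,
      reduceCtorEq, Finset.notMem_empty, or_false, false_or, false_imp_iff, imp_false,
      implies_true, not_false_eq_true, iff_false, false_iff] <;> omega)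

/-- the sum of the imbalances of hubs of the second type -/
lemma Frame.sum_hubP (h : Frame B Rl ℓ nQ nP uq up q p) {b : ℕ} (hb : b ≤ nP) :
    (((∑ v ∈ vs uq up (ip 0 b), im B v : ℤ)) : ℝ) = - ∑ j ∈ range b, p j := by
  have hP := h.nPle
  have e1 : vs uq up (ip 0 b) = (range b).image up := by
    unfold vs
    rw [image_ip]
    unfold sg
    rw [Nat.Ico_zero_eq_range]
  rw [e1, Finset.sum_image (fun i hi j hj e => h.sys.chP.inj i (by
    have := Finset.mem_range.1 hi; omega) j (by have := Finset.mem_range.1 hj; omega) e)]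
  push_cast
  rw [← Finset.sum_neg_distrib]
  refine Finset.sum_congr rfl fun j hj => ?_
  have := Finset.mem_range.1 hj
  exact h.sys.wtP j (by omega)

lemma Frame.card_hubP (h : Frame B Rl ℓ nQ nP uq up q p) {b : ℕ} (hb : b ≤ nP) :
    (vs uq up (ip 0 b)).card = b := by
  have hP := h.nPle
  have e1 : vs uq up (ip 0 b) = (range b).image up := by
    unfold vs
    rw [image_ip]
    unfold sg
    rw [Nat.Ico_zero_eq_range]
  rw [e1, Finset.card_image_of_injOn (fun i hi j hj e => h.sys.chP.inj i (by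
    have := Finset.mem_range.1 hi; omega) j (by have := Finset.mem_range.1 hj; omega) e),
    Finset.card_range]

variable {Rs S : Finset V} {g : ℤ} {Kc : V → Finset V} {pick : Finset V → V}

/-- the partition of the real vertices -/
lemma Frame.par (h : Frame B Rl ℓ nQ nP uq up q p) {a b : ℕ} (ha : a ≤ nQ) (hb : b ≤ nP)
    (hd : Dec B pick (vs uq up (rr nQ nP a b)) Rs S g Kc) :
    Par Rl (vs uq up (iq 0 a)) (vs uq up (ip 0 b)) Rs S := by
  have hQ := h.nQle
  have hP := h.nPle
  have hqf := h.iqf ha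
  have hpf := h.ipf hb
  have hrf : rr nQ nP a b ⊆ full ℓ := by unfold rr; (intro x hx; revert hx; rcases x with x | x <;>
    simp only [Finset.mem_union, Finset.mem_insert, Finset.mem_singleton, inl_mem_full,
      inr_mem_full, inl_mem_iq, inr_mem_iq, inl_mem_ip, inr_mem_ip, Sum.inl.injEq, Sum.inr.injEq,
      reduceCtorEq, Finset.notMem_empty, or_false, false_or, false_imp_iff, imp_false,
      implies_true, not_false_eq_true, iff_false, false_iff] <;> omega)
  refine ⟨?_, ?_, ?_, hd.dj⟩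
  · rw [hd.un, ← h.real]
    unfold vs
    rw [← Finset.image_union, ← Finset.image_union]
    congr 1
    unfold rr
    (ext x; rcases x with x | x <;>
    simp only [Finset.mem_union, Finset.mem_insert, Finset.mem_singleton, inl_mem_full,
      inr_mem_full, inl_mem_iq, inr_mem_iq, inl_mem_ip, inr_mem_ip, Sum.inl.injEq, Sum.inr.injEq,
      reduceCtorEq, Finset.notMem_empty, or_false, false_or, false_imp_iff, imp_false,
      implies_true, not_false_eq_true, iff_false, false_iff] <;> omega)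
  · exact h.disj hqf hpf (by (rw [Finset.disjoint_left]; intro x hx hx'; revert hx hx'; rcases x with x | x <;>
    simp only [Finset.mem_union, Finset.mem_insert, Finset.mem_singleton, inl_mem_full,
      inr_mem_full, inl_mem_iq, inr_mem_iq, inl_mem_ip, inr_mem_ip, Sum.inl.injEq, Sum.inr.injEq,
      reduceCtorEq, Finset.notMem_empty, or_false, false_or, false_imp_iff, imp_false,
      implies_true, not_false_eq_true, iff_false, false_iff] <;> omega))
  · rw [hd.un]
    have e : vs uq up (iq 0 a) ∪ vs uq up (ip 0 b) = vs uq up (iq 0 a ∪ ip 0 b) := by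
      unfold vs
      rw [Finset.image_union]
    rw [e]
    exact h.disj (Finset.union_subset hqf hpf) hrf (by unfold rr; (rw [Finset.disjoint_left]; intro x hx hx'; revert hx hx'; rcases x with x | x <;>
    simp only [Finset.mem_union, Finset.mem_insert, Finset.mem_singleton, inl_mem_full,
      inr_mem_full, inl_mem_iq, inr_mem_iq, inl_mem_ip, inr_mem_ip, Sum.inl.injEq, Sum.inr.injEq,
      reduceCtorEq, Finset.notMem_empty, or_false, false_or, false_imp_iff, imp_false,
      implies_true, not_false_eq_true, iff_false, false_iff] <;> omega))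

lemma Gam_ge (h : V) (S : Finset V) :
    ∑ v ∈ S, (MM B h v + im B v) ≤ Gam B h S := by
  classical
  have hG : Gam B h S = ∑ v ∈ S.filter (Harm (MM B h) (im B)), |MM B h v + im B v| := by
    unfold Gam
    congr
  rw [hG, ← Finset.sum_filter_add_sum_filter_not S (Harm (MM B h) (im B))]
  have h1 : ∑ v ∈ S.filter (Harm (MM B h) (im B)), (MM B h v + im B v) ≤
      ∑ v ∈ S.filter (Harm (MM B h) (im B)), |MM B h v + im B v| :=
    Finset.sum_le_sum fun v _ => le_abs_self _
  have h2 : ∑ v ∈ S.filter (fun v => ¬ Harm (MM B h) (im B) v), (MM B h v + im B v) ≤ 0 := by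
    refine Finset.sum_nonpos fun v hv => ?_
    have h3 := (Finset.mem_filter.1 hv).2
    unfold Harm at h3
    push Not at h3
    linarith [h3.1]
  linarith

lemma Gam_nn (h : V) (S : Finset V) : 0 ≤ Gam B h S := by
  unfold Gam
  exact Finset.sum_nonneg fun v _ => abs_nonneg _

/-- **The counting facts**, minimum outdegree at least `k`, the largest vertex has outgoing
type -/
structure CntO (k θ n a b ρ σ Γ q0 SQ SP : ℝ) : Prop where
  card : n = a + b + ρ + σ
  C : k * σ - (a - 1) * σ - ρ / 2 - Γ + SP ≤ b * (a + ρ + σ)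
  D : SQ + k * (n - a) ≤ (2 * k - 1) * θ
  D' : b ≤ k → SQ + k * (n - a) + (k - b) * σ - ρ / 2 ≤ (2 * k - 1) * θ
  T : b * k + SP + k * σ - Γ + q0 - b ≤ (2 * k - 1) * θ
  SS : (k + 1) * σ + q0 - n + 1 - ρ / 2 - Γ + SP ≤ (2 * k - 1) * θ - k * (n - a) + b * (ρ + σ)
  ii : SP ≤ b * (n - b)
  G0 : 0 ≤ Γ

theorem Ctx.cntO (h : Ctx B Rl ℓ nQ nP uq up q p k θ) (hout : ∀ v ∈ Rl, k ≤ ∑ u, B v u)
    {a b : ℕ} (ha1 : 1 ≤ a) (ha : a ≤ nQ) (hb : b ≤ nP)
    (hd : Dec B pick (vs uq up (rr nQ nP a b)) Rs S g Kc)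
    (hpick : ∀ K : Finset V, K.Nonempty → pick K ∈ K ∧ ∀ u ∈ K, indg B K (pick K) ≤ indg B K u) :
    CntO k θ Rl.card a b Rs.card S.card (Gam B (uq 0) S) (q 0) (∑ j ∈ range a, q j)
      (∑ j ∈ range b, p j) := by
  classical
  have hQ := h.fr.nQle
  have hP := h.fr.nPle
  have B0 := h.fr.sys.B0
  have B1 := h.fr.sys.B1
  have Bd := h.fr.sys.Bd
  have dum := h.fr.sys.dummy
  have par := h.fr.par ha hb hd
  set O : Finset V := vs uq up (iq 0 a) with hO
  set I : Finset V := vs uq up (ip 0 b) with hI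
  have cO : (O.card : ℤ) = a := by rw [hO, h.fr.card_hub ha]
  have cI : (I.card : ℤ) = b := by rw [hI, h.fr.card_hubP hb]
  have sO : (((∑ v ∈ O, im B v : ℤ)) : ℝ) = ∑ j ∈ range a, q j := h.fr.sum_hub ha
  have sI : (((∑ v ∈ I, im B v : ℤ)) : ℝ) = - ∑ j ∈ range b, p j := h.fr.sum_hubP hb
  have h0O : uq 0 ∈ O := by
    rw [hO]
    unfold vs
    rw [Finset.mem_image]
    exact ⟨Sum.inl 0, by simp only [inl_mem_iq]; omega, rfl⟩
  set H : Finset V := {uq 0} with hH
  set O' : Finset V := O.erase (uq 0) with hO'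
  have hOu : O = H ∪ O' := by
    rw [hH, hO', ← Finset.insert_eq, Finset.insert_erase h0O]
  have hHd : Disjoint H O' := by rw [hH, hO']; simp
  have cO' : (O'.card : ℤ) = a - 1 := by
    rw [hO', Finset.card_erase_of_mem h0O]
    have : 1 ≤ O.card := Finset.card_pos.2 ⟨_, h0O⟩
    push_cast [Nat.cast_sub this]
    rw [cO]
  have cH : (H.card : ℤ) = 1 := by rw [hH]; simp
  -- total number
  have tot := par.total (B := B) dum
  have tot' := par.total' (B := B) dum
  have rO := par.row (B := B) O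
  have rI := par.row (B := B) I
  have rR := par.row (B := B) Rs
  have rS := par.row (B := B) S
  have rH := par.row (B := B) H
  have c_O := par.col (B := B) O
  have c_I := par.col (B := B) I
  have c_R := par.col (B := B) Rs
  have c_S := par.col (B := B) S
  have oO := ar_out dum hout par.sO
  have oI := ar_out dum hout par.sI
  have oR := ar_out dum hout par.sR
  have oS := ar_out dum hout par.sS
  have iO := im_sum_ar dum O
  have iI := im_sum_ar dum I
  have iS := im_sum_ar dum S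
  have iH := im_sum_ar dum H
  have SS0 := hd.SS B0
  have RS := hd.RS B0 Bd hpick
  have spOS : ar B O S = ar B H S + ar B O' S := by rw [← ar_unL hHd, ← hOu]
  have spOI : ar B O I = ar B H I + ar B O' I := by rw [← ar_unL hHd, ← hOu]
  have spSO : ar B S O = ar B S H + ar B S O' := by rw [← ar_unR hHd, ← hOu]
  have lO'S := ar_le B1 O' S
  have lOI := ar_le B1 O I
  have lRI := ar_le B1 Rs I
  have lSI := ar_le B1 S I
  have lHI := ar_le B1 H I
  have lHO := ar_le B1 H O
  have lHR := ar_le B1 H Rs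
  have nn : ∀ X Y : Finset V, 0 ≤ ar B X Y := fun X Y => ar_nn B0 X Y
  have cardE := par.card
  have Gge := Gam_ge (B := B) (uq 0) S
  have Gnn := Gam_nn (B := B) (uq 0) S
  have eMM : ∑ v ∈ S, (MM B (uq 0) v + im B v) = ar B H S + ar B S H + ∑ v ∈ S, im B v := by
    rw [Finset.sum_add_distrib]
    congr 1
    unfold MM ar
    rw [hH, Finset.sum_singleton, Finset.sum_add_distrib]
    congr 1
    refine Finset.sum_congr rfl fun v _ => ?_
    rw [Finset.sum_singleton]
  rw [eMM] at Gge
  have imH : ((∑ v ∈ H, im B v : ℤ) : ℝ) = q 0 := by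
    rw [hH, Finset.sum_singleton]
    exact h.fr.sys.wtQ 0 (by have := h.fr.l2; omega)
  have hHO : ar B H O ≤ (a : ℤ) - 1 := by
    have e1 : ar B H O = ar B H H + ar B H O' := by rw [← ar_unR hHd, ← hOu]
    have e2 : ar B H H = 0 := by
      unfold ar
      rw [hH]
      simp [Bd]
    have e3 := ar_le B1 H O'
    rw [cH, cO', one_mul] at e3
    rw [e1, e2, zero_add]
    exact e3
  rw [cO'] at lO'S
  rw [cO, cI] at lOI
  rw [cI] at lRI lSI
  rw [cH, cI, one_mul] at lHI
  rw [cH, one_mul] at lHR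
  rw [cO, cI] at cardE
  rw [cI] at oI
  have spHO' := ar_monoL B0 (X := H) (X' := O) (by rw [hOu]; exact Finset.subset_union_left)
  have mHO := ar_monoL B0 (X := H) (X' := Rl) (by
    refine Finset.Subset.trans ?_ par.sO
    rw [hOu]; exact Finset.subset_union_left)
  have m1 := mHO O
  have m2 := mHO Rs
  have tot1 : (2 * (k : ℝ) - 1) * θ = ((mm B : ℤ) : ℝ) := h.hm
  set ρ : ℤ := (Rs.card : ℤ) with hρ
  set σ : ℤ := (S.card : ℤ) with hσ
  set Γ : ℤ := Gam B (uq 0) S with hΓ
  -- integer statements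
  have C1 : 2 * (k * σ) - 2 * (((a : ℤ) - 1) * σ) - ρ - 2 * Γ - 2 * ∑ v ∈ I, im B v ≤
      2 * (b * (a + ρ + σ)) := by
    have n1 := nn I O
    have n2 := nn I Rs
    have n3 := nn S H
    linarith
  have D1 : ∑ v ∈ O, im B v + k * (b + ρ + σ) ≤ mm B := by
    have n1 := nn Rl O
    linarith
  have D2 : (b : ℤ) ≤ k → 2 * (∑ v ∈ O, im B v + k * (b + ρ + σ)) + 2 * ((k - b) * σ) - ρ ≤
      2 * mm B := by
    intro hbk
    have hW : (O ∪ I) ∪ vs uq up (rr nQ nP a b) = Rl := by rw [← hd.un]; exact par.un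
    have hdj : Disjoint (O ∪ I) (vs uq up (rr nQ nP a b)) := by rw [← hd.un]; exact par.d2
    have e1 := hd.outR B0 B1 Bd dum hout par.d1 hW hdj (by rw [cI]; exact hbk)
    rw [cI, ← hd.un, ar_unL par.d3] at e1
    have n1 := nn O O
    have n2 := nn I O
    linarith
  have T1 : (b : ℤ) * k - ∑ v ∈ I, im B v + k * σ - Γ + ∑ v ∈ H, im B v - b ≤ mm B := by
    have n1 := nn Rl H
    have n3 := nn S H
    linarith
  have SS1 : 2 * ((k + 1) * σ) + 2 * ∑ v ∈ H, im B v - 2 * Rl.card + 2 - ρ - 2 * Γ -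
      2 * ∑ v ∈ I, im B v ≤ 2 * mm B - 2 * (k * (b + ρ + σ)) + 2 * (b * (ρ + σ)) := by
    have n1 := nn I O
    have n2 := nn I Rs
    have n3 := nn S H
    have n4 := nn O Rs
    have n5 := nn Rl H
    have n6 := nn O O
    linarith
  have ii1 : - ∑ v ∈ I, im B v ≤ b * (Rl.card - b) := by
    have h1 := sum_im_le B0 B1 dum (S := I) par.sI
    rw [cI] at h1
    have h2 := (abs_le.1 h1).1
    linarith
  have cardR : (Rl.card : ℝ) = a + b + (Rs.card : ℝ) + S.card := by
    have h1 : ((Rl.card : ℤ) : ℝ) = (((a : ℤ) + b + ρ + σ : ℤ) : ℝ) := by rw [cardE]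
    rw [hρ, hσ] at h1
    push_cast at h1
    exact h1
  have C1r : 2 * ((k : ℝ) * S.card) - 2 * (((a : ℝ) - 1) * S.card) - Rs.card - 2 * (Γ : ℝ) -
      2 * ((∑ v ∈ I, im B v : ℤ) : ℝ) ≤ 2 * (b * (a + Rs.card + S.card)) := by
    exact_mod_cast C1
  have D1r : ((∑ v ∈ O, im B v : ℤ) : ℝ) + k * (b + Rs.card + S.card) ≤ mm B := by
    exact_mod_cast D1
  have T1r : (b : ℝ) * k - ((∑ v ∈ I, im B v : ℤ) : ℝ) + k * S.card - Γ +
      ((∑ v ∈ H, im B v : ℤ) : ℝ) - b ≤ mm B := by exact_mod_cast T1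
  have SS1r : 2 * (((k : ℝ) + 1) * S.card) + 2 * ((∑ v ∈ H, im B v : ℤ) : ℝ) - 2 * Rl.card + 2 -
      Rs.card - 2 * Γ - 2 * ((∑ v ∈ I, im B v : ℤ) : ℝ) ≤
      2 * mm B - 2 * (k * (b + Rs.card + S.card)) + 2 * (b * (Rs.card + S.card)) := by
    exact_mod_cast SS1
  have ii1r : - ((∑ v ∈ I, im B v : ℤ) : ℝ) ≤ b * (Rl.card - b) := by exact_mod_cast ii1
  rw [sI] at C1r T1r SS1r ii1r
  rw [sO] at D1r
  rw [imH] at T1r SS1r
  rw [← tot1] at D1r T1r SS1r
  refine ⟨cardR, ?_, ?_, ?_, ?_, ?_, ?_, ?_⟩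
  · linarith
  · have : (Rl.card : ℝ) - a = b + Rs.card + S.card := by rw [cardR]; ring
    rw [this]
    linarith
  · intro hbk
    have hbk' : (b : ℤ) ≤ k := by exact_mod_cast hbk
    have D2r : 2 * (((∑ v ∈ O, im B v : ℤ) : ℝ) + k * (b + Rs.card + S.card)) +
        2 * (((k : ℝ) - b) * S.card) - Rs.card ≤ 2 * mm B := by exact_mod_cast D2 hbk'
    rw [sO, ← tot1] at D2r
    have : (Rl.card : ℝ) - a = b + Rs.card + S.card := by rw [cardR]; ring
    rw [this]
    linarith
  · linarith
  · have : (Rl.card : ℝ) - a = b + Rs.card + S.card := by rw [cardR]; ring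
    rw [this]
    linarith
  · linarith
  · exact_mod_cast Gnn

end Pool.Agent.Exact
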