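import Pool.Agent.Lib_helper68.Exact.MiCnt
import Pool.Agent.Lib_helper23.Exact.Glue

/-!
# Hubs of both types, an even number of the first and an odd number of the second, minimum
indegree at least `k`: attaching vertices to the lowest hub of the second type
-/

set_option autoImplicit false
set_option linter.unusedSectionVars false
set_option linter.unusedSimpArgs false
set_option linter.unnecessarySeqFocus false
set_option linter.unreachableTactic false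
set_option linter.unusedTactic false

namespace Pool.Agent.Exact

open Finset

/-- a maximal subset with a bounded sum -/
theorem exists_max_sub {α : Type*} [DecidableEq α] (f : α → ℝ) {c : ℝ} (hc : 0 ≤ c)
    (P : Finset α) : ∃ F ⊆ P, ∑ v ∈ F, f v ≤ c ∧ (F = P ∨ ∃ v ∈ P, c < ∑ v ∈ F, f v + f v) := by
  induction P using Finset.induction_on with
  | empty => exact ⟨∅, Finset.Subset.refl _, by simpa using hc, Or.inl rfl⟩
  | insert x P hx ih =>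
    obtain ⟨F, hF, h1, h2⟩ := ih
    rcases h2 with rfl | ⟨v, hv, h2⟩
    · rcases le_or_gt (∑ v ∈ F, f v + f x) c with h3 | h3
      · refine ⟨insert x F, Finset.Subset.refl _, ?_, Or.inl rfl⟩
        rw [Finset.sum_insert hx]
        linarith
      · exact ⟨F, Finset.subset_insert _ _, h1, Or.inr ⟨x, Finset.mem_insert_self _ _, h3⟩⟩
    · exact ⟨F, hF.trans (Finset.subset_insert _ _), h1,
        Or.inr ⟨v, Finset.mem_insert_of_mem hv, h2⟩⟩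

variable {V : Type*} [Fintype V] [DecidableEq V]
variable {B : V → V → ℤ} {Rl : Finset V} {ℓ nQ nP : ℕ} {uq up : ℕ → V} {q p : ℕ → ℝ}
variable {k : ℤ} {θ : ℝ}
variable {Rs S : Finset V} {g : ℤ} {Kc : V → Finset V} {pick : Finset V → V}

/-- **Attaching vertices of the second type to a hub of the second type.** -/
theorem closeZ {a b : ℕ} {F : Finset V} {Y : ℤ} {y0 K0 t pz : ℝ} {z : ℕ ⊕ ℕ}
    (hT : T2A B uq up a b S g Y) (hz : z ∈ hb a b)
    (hst : StI B uq up ((hb a b).erase z) 0 K0 t) (hK0 : 0 ≤ K0)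
    (hpz : ((im B (vx uq up z) : ℤ) : ℝ) = - pz) (hB0 : ∀ u v, 0 ≤ B u v) (hFS : F ⊆ S)
    (hneg : ∀ v ∈ F, im B v < 0) (hF : ∑ v ∈ F, |((im B v : ℤ) : ℝ)| ≤ pz)
    (hy0 : 0 ≤ y0) (hβ : ∀ v ∈ S, |((im B v : ℤ) : ℝ)| ≤ y0)
    (h1 : (Y : ℝ) - (∑ v ∈ S, |((im B v : ℤ) : ℝ)| - ∑ v ∈ F, |((im B v : ℤ) : ℝ)|) ≤ θ + g)
    (h2 : y0 ≤ θ + g) (h3 : K0 ≤ θ + g)
    (h4 : pz - ∑ v ∈ F, |((im B v : ℤ) : ℝ)| ≤ θ + g)
    (h5 : (Y : ℝ) - ∑ v ∈ S, |((im B v : ℤ) : ℝ)| + t + pz ≤ 2 * θ + 2 * g)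
    (h6 : y0 + t + (pz - ∑ v ∈ F, |((im B v : ℤ) : ℝ)|) ≤ 2 * θ + 2 * g) : Val B θ := by
  classical
  have hSF : S \ (S \ F) = F := Finset.sdiff_sdiff_eq_self hFS
  have hsum : ∑ v ∈ S \ F, |((im B v : ℤ) : ℝ)| =
      ∑ v ∈ S, |((im B v : ℤ) : ℝ)| - ∑ v ∈ F, |((im B v : ℤ) : ℝ)| := by
    rw [← Finset.sum_sdiff hFS]
    ring
  set L : ℝ := ((im B (vx uq up z) + ∑ v ∈ F, im B v * (-1) : ℤ) : ℝ) with hL
  have hLe : L = - (pz - ∑ v ∈ F, |((im B v : ℤ) : ℝ)|) := by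
    rw [hL]
    push_cast
    rw [hpz, neg_sub, sub_eq_add_neg, add_comm]
    congr 1
    refine Finset.sum_congr rfl fun v hv => ?_
    have h7 : ((im B v : ℤ) : ℝ) < 0 := by exact_mod_cast hneg v hv
    rw [abs_of_neg h7]
    ring
  have hLa : |L| = pz - ∑ v ∈ F, |((im B v : ℤ) : ℝ)| := by
    rw [hLe, abs_neg, abs_of_nonneg (by linarith)]
  have hcost : ((∑ v ∈ F, MM B (vx uq up z) v * (-1) : ℤ) : ℝ) ≤ 0 := by
    have h7 : ∑ v ∈ F, MM B (vx uq up z) v * (-1) ≤ 0 := by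
      refine Finset.sum_nonpos fun v _ => ?_
      have : 0 ≤ MM B (vx uq up z) v := by
        unfold MM
        linarith [hB0 (vx uq up z) v, hB0 v (vx uq up z)]
      linarith
    exact_mod_cast h7
  have h7 := hT z hz (S \ F) Finset.sdiff_subset (fun _ => -1) (fun _ => Or.inr rfl) y0 0
    (max K0 |L|) t (hK0.trans (le_max_left _ _)) hy0
    (fun v hv => hβ v (Finset.mem_sdiff.1 hv).1)
    (by rw [hSF]; exact le_max_right _ _) (hst.mono le_rfl (le_max_left _ _) le_rfl)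
  rw [hSF, ← hL, hsum] at h7
  refine h7.mono ?_
  rw [hLa]
  generalize ((∑ v ∈ F, MM B (vx uq up z) v * (-1) : ℤ) : ℝ) = C at *
  generalize ∑ v ∈ S, |((im B v : ℤ) : ℝ)| = W at *
  generalize ∑ v ∈ F, |((im B v : ℤ) : ℝ)| = X at *
  have e : -(g : ℝ) + (0 + C) ≤ -(g : ℝ) := by linarith
  have m1 : max (max (max ((Y : ℝ) - (W - X)) y0) (max K0 (pz - X)))
      ((max ((Y : ℝ) - (W - X)) y0 + (t + (pz - X))) / 2) ≤ θ + g := by
    refine max_le (max_le (max_le h1 h2) (max_le h3 h4)) ?_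
    rcases max_choice ((Y : ℝ) - (W - X)) y0 with h8 | h8 <;> rw [h8] <;> linarith
  linarith

/-- the vertices of the rest -/
lemma Frame.absR (h : Frame B Rl ℓ nQ nP uq up q p) {a b : ℕ} {v : V}
    (hv : v ∈ vs uq up (rr nQ nP a b)) {m : ℝ} (hq : ∀ l, a ≤ l → l < nQ → q l ≤ m)
    (hp : ∀ l, b ≤ l → l < nP → p l ≤ m) : |((im B v : ℤ) : ℝ)| ≤ m := by
  have hQ := h.nQle
  have hP := h.nPle
  unfold vs at hv
  rw [Finset.mem_image] at hv
  obtain ⟨x, hx, rfl⟩ := hv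
  rcases x with l | l
  · have hx' : a ≤ l ∧ l < nQ := by
      unfold rr at hx
      simpa only [Finset.mem_union, inl_mem_iq, inl_mem_ip, or_false] using hx
    have h1 : ((im B (vx uq up (Sum.inl l)) : ℤ) : ℝ) = q l := h.sys.wtQ l (by omega)
    rw [h1, abs_of_nonneg (h.sys.chQ.nn l (by omega))]
    exact hq l hx'.1 hx'.2
  · have hx' : b ≤ l ∧ l < nP := by
      unfold rr at hx
      simpa only [Finset.mem_union, inr_mem_iq, inr_mem_ip, false_or] using hx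
    have h1 : ((im B (vx uq up (Sum.inr l)) : ℤ) : ℝ) = - p l := h.sys.wtP l (by omega)
    rw [h1, abs_neg, abs_of_nonneg (h.sys.chP.nn l (by omega))]
    exact hp l hx'.1 hx'.2

lemma ch_add_MM (a : V → ℤ) (ha : ∀ v, 0 ≤ a v) (S : Finset V) :
    (S.card : ℤ) ≤ ch a S + ∑ v ∈ S, a v := by
  unfold ch
  rw [← Finset.sum_add_distrib]
  calc (S.card : ℤ) = ∑ _v ∈ S, (1 : ℤ) := by simp
    _ ≤ _ := by
      refine Finset.sum_le_sum fun v _ => ?_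
      have := ha v
      split_ifs with h1 <;> omega

/-- the hubs without the lowest hub of the second type -/
lemma hb_erase (a b : ℕ) : (hb a (b + 1)).erase (Sum.inr b) = iq (2 * 0) a ∪ ip (2 * 0) b := by
  unfold hb
  ext x
  rcases x with x | x
  · simp only [Finset.mem_erase, Finset.mem_union, inl_mem_iq, inl_mem_ip, or_false, ne_eq,
      reduceCtorEq, not_false_eq_true, true_and, Nat.mul_zero]
  · simp only [Finset.mem_erase, Finset.mem_union, inr_mem_iq, inr_mem_ip, false_or, ne_eq,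
      Sum.inr.injEq, Nat.mul_zero]
    omega

/-- **No low values for the hubs of the second type if item and total fail.** -/
theorem Ctx.mi4 (h : Ctx B Rl ℓ nQ nP uq up q p k θ) (hn : 2 * k - 1 ≤ (Rl.card : ℤ))
    (hnv : ¬ Val B θ) (hpq : p 0 ≤ q 0) (hin : ∀ v ∈ Rl, k ≤ ∑ u, B u v) {i j : ℕ}
    (hi : i + 1 < ℓ) (hj : j < ℓ) (haQ : 2 * (i + 1) ≤ nQ) (hbP : 2 * j + 1 ≤ nP)
    (hd : Dec B pick (vs uq up (rr nQ nP (2 * (i + 1)) (2 * j + 1))) Rs S g Kc) {Y : ℤ} {nb : ℝ}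
    (hT : T2A B uq up (2 * (i + 1)) (2 * j + 1) S g Y) (hnb : 0 ≤ nb)
    (hqi : θ - 2 ≤ q (2 * i + 1))
    (hrQ : q (2 * (i + 1)) ≤ max (q (2 * i + 1) - (θ - 2)) (p (2 * j) - θ) + 2)
    (hrP : p (2 * j + 1) ≤ max (q (2 * i + 1) - (θ - 2)) (p (2 * j) - θ) + 2)
    (hu : θ + g < p (2 * j)) (hΓ : ((Gam B (uq 0) S : ℤ) : ℝ) < q 0 - θ - g + 2)
    (hTf : ((Y : ℝ) + ((Gam B (uq 0) S : ℤ) : ℝ) + ((ch (MM B (uq 0)) S : ℤ) : ℝ) + nb <
      cRr B nQ nP uq up (2 * (i + 1)) (2 * j + 1) + q 0 - θ + 2) ∨ Y ≤ 0) : False := by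
  classical
  have hl := h.fr.l2
  have hQ := h.fr.nQle
  have hP := h.fr.nPle
  have hlam := h.lam2 hn
  have hqθ := h.top hnv hpq
  have hθ3 := h.θ3 hn
  have k3r := h.k3r
  have hq0k : q 0 ≤ Rl.card - 1 - k := h.qleK hin (by omega) (by linarith)
  have hcR := h.cR (a := 2 * (i + 1)) (b := 2 * j + 1) (by omega) haQ hbP
  have hcg : (Rs.card : ℝ) ≤ 2 * (g : ℝ) := by exact_mod_cast hd.cg
  have hg0 : (0 : ℝ) ≤ (g : ℝ) := by exact_mod_cast hd.g0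
  obtain ⟨c, hw⟩ := h.cntM hin (a := 2 * (i + 1)) (b := 2 * j + 1) (by omega) haQ hbP hd
  have hpp : ∀ l < 2 * j + 1, p (2 * j) ≤ p l := fun l hl' =>
    h.fr.pa (i := l) (j := 2 * j) (by omega) (by omega)
  have hpj0 : p (2 * j) ≤ p 0 := h.fr.pa (i := 0) (j := 2 * j) (by omega) (by omega)
  have hqi0 : q (2 * i + 1) ≤ q 0 := h.fr.qa (i := 0) (j := 2 * i + 1) (by omega) (by omega)
  have c' : CntM k θ Rl.card (((2 * (i + 1) : ℕ) : ℤ) : ℝ) (((2 * j + 1 : ℕ) : ℤ) : ℝ) Rs.card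
      S.card ((∑ v ∈ S, MM B (uq 0) v : ℤ) : ℝ) ((- ∑ v ∈ S, im B v : ℤ) : ℝ) (q 0)
      (∑ l ∈ range (2 * (i + 1)), q l) (∑ l ∈ range (2 * j + 1), p l) := by
    simpa only [Int.cast_natCast] using c
  have hS2 : (2 * j + 1 : ℕ) * p (2 * j) ≤ ∑ l ∈ range (2 * j + 1), p l := by
    have h1 : ∑ _l ∈ range (2 * j + 1), p (2 * j) ≤ ∑ l ∈ range (2 * j + 1), p l :=
      Finset.sum_le_sum fun l hl' => hpp l (Finset.mem_range.1 hl')
    rwa [Finset.sum_const, nsmul_eq_mul, Finset.card_range] at h1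
  have hS3 : q 0 + (2 * i + 1 : ℕ) * q (2 * i + 1) ≤ ∑ l ∈ range (2 * i + 1 + 1), q l := by
    rw [Finset.sum_range_succ', add_comm]
    have h1 : ∑ _l ∈ range (2 * i + 1), q (2 * i + 1) ≤ ∑ l ∈ range (2 * i + 1), q (l + 1) :=
      Finset.sum_le_sum fun l hl' => h.fr.qa (i := l + 1) (j := 2 * i + 1)
        (by have := Finset.mem_range.1 hl'; omega) (by omega)
    rw [Finset.sum_const, nsmul_eq_mul, Finset.card_range] at h1
    linarith
  have hi0 : (0 : ℝ) ≤ ((2 * i + 1 : ℕ) : ℝ) := Nat.cast_nonneg _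
  have hS4 : ((2 * i + 1 : ℕ) : ℝ) * (θ - 2) ≤ ((2 * i + 1 : ℕ) : ℝ) * q (2 * i + 1) :=
    mul_le_mul_of_nonneg_left hqi hi0
  have e1 : 2 * (i + 1) = 2 * i + 1 + 1 := by ring
  -- the set S
  have hGz : ∑ v ∈ S, MM B (uq 0) v - (- ∑ v ∈ S, im B v) ≤ Gam B (uq 0) S := by
    have := Gam_ge (B := B) (uq 0) S
    rw [Finset.sum_add_distrib] at this
    linarith
  have hGr : ((∑ v ∈ S, MM B (uq 0) v : ℤ) : ℝ) - ((- ∑ v ∈ S, im B v : ℤ) : ℝ) ≤
      ((Gam B (uq 0) S : ℤ) : ℝ) := by exact_mod_cast hGz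
  have hG0 : (0 : ℝ) ≤ ((Gam B (uq 0) S : ℤ) : ℝ) := by exact_mod_cast Gam_nn (B := B) (uq 0) S
  have hchz := ch_add_MM (MM B (uq 0)) (fun v => by
    unfold MM; linarith [h.fr.sys.B0 (uq 0) v, h.fr.sys.B0 v (uq 0)]) S
  have hchr : (S.card : ℝ) ≤ ((ch (MM B (uq 0)) S : ℤ) : ℝ) +
      ((∑ v ∈ S, MM B (uq 0) v : ℤ) : ℝ) := by exact_mod_cast hchz
  have hch0 : (0 : ℝ) ≤ ((ch (MM B (uq 0)) S : ℤ) : ℝ) := by
    exact_mod_cast ch_nonneg (a := MM B (uq 0)) S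
  obtain ⟨⟨n1, n2⟩, n3, n4, n5⟩ := c'.num (g := g) (y := q 0 - θ) (u := p (2 * j) - θ)
    (Γ := ((Gam B (uq 0) S : ℤ) : ℝ)) (by push_cast; omega) (by push_cast; omega) (by omega)
    (Nat.cast_nonneg _) hcg (by linarith) (by ring) hq0k (by linarith) (by linarith)
    (by rw [e1]; push_cast at hS3 hS4 ⊢; linarith) (by push_cast at hS2 ⊢; linarith) hGr
    (by linarith)
  have n1r : ((2 * (i + 1) : ℕ) : ℝ) + ((2 * j + 1 : ℕ) : ℝ) ≤ 2 * k - 3 := by exact_mod_cast n1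
  -- the negative vertices of `S`
  set P : Finset V := S.filter fun v => im B v < 0 with hPd
  have hPS : P ⊆ S := Finset.filter_subset _ _
  obtain ⟨F, hFP, hF1, hF2⟩ := exists_max_sub (fun v => |((im B v : ℤ) : ℝ)|)
    (c := p (2 * j)) (by linarith) P
  have hWP : ((- ∑ v ∈ S, im B v : ℤ) : ℝ) ≤ ∑ v ∈ P, |((im B v : ℤ) : ℝ)| := by
    have e2 : ∑ v ∈ S, im B v = ∑ v ∈ P, im B v + ∑ v ∈ S.filter (fun v => ¬ im B v < 0), im B v :=
      (Finset.sum_filter_add_sum_filter_not S _ _).symm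
    have e3 : 0 ≤ ∑ v ∈ S.filter (fun v => ¬ im B v < 0), im B v :=
      Finset.sum_nonneg fun v hv => not_lt.1 (Finset.mem_filter.1 hv).2
    have e4 : - ∑ v ∈ P, im B v = ∑ v ∈ P, |im B v| := by
      rw [← Finset.sum_neg_distrib]
      refine Finset.sum_congr rfl fun v hv => ?_
      rw [abs_of_neg (Finset.mem_filter.1 hv).2]
    have e5 : - ∑ v ∈ S, im B v ≤ ∑ v ∈ P, |im B v| := by linarith
    have e6 : ((- ∑ v ∈ S, im B v : ℤ) : ℝ) ≤ ((∑ v ∈ P, |im B v| : ℤ) : ℝ) := by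
      exact_mod_cast e5
    push_cast at e6 ⊢
    exact e6
  have hPW : ∑ v ∈ P, |((im B v : ℤ) : ℝ)| ≤ ∑ v ∈ S, |((im B v : ℤ) : ℝ)| :=
    Finset.sum_le_sum_of_subset_of_nonneg hPS fun v _ _ => abs_nonneg _
  have hFW : ∑ v ∈ F, |((im B v : ℤ) : ℝ)| ≤ ∑ v ∈ S, |((im B v : ℤ) : ℝ)| :=
    Finset.sum_le_sum_of_subset_of_nonneg (hFP.trans hPS) fun v _ _ => abs_nonneg _
  -- the hubs
  have hzm : (Sum.inr (2 * j) : ℕ ⊕ ℕ) ∈ hb (2 * (i + 1)) (2 * j + 1) := by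
    unfold hb
    simp only [Finset.mem_union, inr_mem_iq, inr_mem_ip]
    omega
  have hzw : ((im B (vx uq up (Sum.inr (2 * j))) : ℤ) : ℝ) = - p (2 * j) :=
    h.fr.sys.wtP (2 * j) (by omega)
  have hAq : AA q (i + 1) ≤ q 0 - q (2 * i + 1) := by
    have f1 := h.fr.qE (Nat.zero_le i) (by omega : i < ℓ)
    simp only [Nat.mul_zero, AA_zero, sub_zero] at f1
    rw [AA_succ]
    linarith
  have hAp : AA p j ≤ p 0 - p (2 * j) := by
    have f1 := h.fr.pE (Nat.zero_le j) hj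
    simp only [Nat.mul_zero, AA_zero, sub_zero] at f1
    linarith
  have hst : StI B uq up ((hb (2 * (i + 1)) (2 * j + 1)).erase (Sum.inr (2 * j))) 0 (q 0 - θ + 2)
      (AA q (i + 1) + AA p j) := by
    have f1 := h.fr.Qe (K := q 0 - θ + 2) 0 (i + 1) (Nat.zero_le _) hi.le fun l _ hl' => by
      have g1 := h.fr.qgA (Nat.zero_le l) hl' hi.le
      simp only [AA_zero, sub_zero] at g1
      linarith
    have f2 := h.fr.Pe (K := q 0 - θ + 2) 0 j (Nat.zero_le _) hj.le fun l _ hl' => by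
      have g1 := h.fr.pgA (Nat.zero_le l) hl' hj.le
      simp only [AA_zero, sub_zero] at g1
      linarith
    have f3 := h.fr.join f1 f2 rfl (by unfold full; (intro x hx; revert hx; rcases x with x | x <;>
    simp only [Finset.mem_union, Finset.inl_mem_disjSum, Finset.inr_mem_disjSum, Finset.mem_range,
      inl_mem_iq, inr_mem_iq, inl_mem_ip, inr_mem_ip, or_false, false_or] <;> omega))
      (by (rw [Finset.disjoint_left]; intro x hx hx'; revert hx hx'; rcases x with x | x <;>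
    simp only [inl_mem_iq, inr_mem_iq, inl_mem_ip, inr_mem_ip, false_imp_iff, imp_false,
      implies_true, not_false_eq_true] <;> omega))
    rw [hb_erase]
    simp only [AA_zero, sub_zero] at f3
    exact f3.mono (by norm_num) le_rfl le_rfl
  -- the bound of the rest
  obtain ⟨x, hx⟩ : ∃ x : ℝ, x = q (2 * i + 1) - (θ - 2) := ⟨_, rfl⟩
  obtain ⟨u, hu'⟩ : ∃ u : ℝ, u = p (2 * j) - θ := ⟨_, rfl⟩
  rw [← hx, ← hu'] at hrQ hrP
  have hβ : ∀ v ∈ S, |((im B v : ℤ) : ℝ)| ≤ max x u + 2 := by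
    intro v hv
    refine h.fr.absR (a := 2 * (i + 1)) (b := 2 * j + 1) ?_ ?_ ?_
    · rw [← hd.un]
      exact Finset.mem_union_right _ hv
    · intro l h1 h2
      exact (h.fr.qa (i := 2 * (i + 1)) (j := l) h1 (by omega)).trans hrQ
    · intro l h1 h2
      exact (h.fr.pa (i := 2 * j + 1) (j := l) h1 (by omega)).trans hrP
  apply hnv
  have hF0 : 0 ≤ ∑ v ∈ F, |((im B v : ℤ) : ℝ)| := Finset.sum_nonneg fun v _ => abs_nonneg _
  have hmx : max x u = x ∨ max x u = u := max_choice _ _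
  have hmx0 : x ≤ max x u := le_max_left _ _
  have hmu0 : u ≤ max x u := le_max_right _ _
  have key : ∑ v ∈ P, |((im B v : ℤ) : ℝ)| = ∑ v ∈ F, |((im B v : ℤ) : ℝ)| ∨
      (p (2 * j) - ∑ v ∈ F, |((im B v : ℤ) : ℝ)| < 2 * k - 3 + 2 * g ∧
        p (2 * j) - ∑ v ∈ F, |((im B v : ℤ) : ℝ)| < max x u + 2) := by
    rcases hF2 with rfl | ⟨v, hv, hF2⟩
    · exact Or.inl rfl
    · right
      have h1 := hw v (hPS hv)
      have h2 := hβ v (hPS hv)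
      constructor <;> linarith
  have hmx4 : max x u + 2 ≤ q 0 - θ + 4 := by
    rcases hmx with h1 | h1 <;> rw [h1] <;> linarith
  have hY : (Y : ℝ) + ((Gam B (uq 0) S : ℤ) : ℝ) + ((ch (MM B (uq 0)) S : ℤ) : ℝ) <
      Rl.card + 1 - θ ∨ (Y : ℝ) ≤ 0 := by
    rcases hTf with h1 | h1
    · left
      linarith
    · right
      exact_mod_cast h1
  refine closeZ (F := F) (K0 := q 0 - θ + 2) (y0 := max x u + 2) hT hzm hst (by linarith) hzw
    h.fr.sys.B0 (hFP.trans hPS) (fun v hv => (Finset.mem_filter.1 (hFP hv)).2) hF1 (by linarith)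
    hβ ?_ ?_ ?_ ?_ ?_ ?_
  · rcases hY with h1 | h1 <;> linarith
  · linarith
  · linarith
  · rcases key with h1 | ⟨_, h1⟩ <;> linarith
  · rcases hY with h1 | h1 <;> linarith
  · rcases key with h1 | ⟨h1, _⟩
    · rcases hmx with h2 | h2 <;> rw [h2] <;> linarith
    · rcases hmx with h2 | h2 <;> rw [h2] <;> linarith

section leafs
variable (h : Ctx B Rl ℓ nQ nP uq up q p k θ) (hn : 2 * k - 1 ≤ (Rl.card : ℤ))
  (hnv : ¬ Val B θ) (hpq : p 0 ≤ q 0) (hin : ∀ v ∈ Rl, k ≤ ∑ u, B u v)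
include h hn hnv hpq hin

/-- the leaf 2a -/
theorem Ctx.mi2a {i j : ℕ} (hi : i + 1 < ℓ) (hj : j < ℓ)
    (hE : θ - MM B (uq 0) (up 0) < q (2 * i + 1) - q (2 * i + 2))
    (hD : θ < p (2 * j) - p (2 * j + 1)) (haQ : 2 * (i + 1) ≤ nQ) (hbP : 2 * j + 1 ≤ nP)
    (hd : Dec B pick (vs uq up (rr nQ nP (2 * (i + 1)) (2 * j + 1))) Rs S g Kc) {Y : ℤ} {nb : ℝ}
    (hT : T2A B uq up (2 * (i + 1)) (2 * j + 1) S g Y) (hnb : 0 ≤ nb)
    (hu : θ + g < p (2 * j)) (hΓ : ((Gam B (uq 0) S : ℤ) : ℝ) < q 0 - θ - g + 2)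
    (hTf : ((Y : ℝ) + ((Gam B (uq 0) S : ℤ) : ℝ) + ((ch (MM B (uq 0)) S : ℤ) : ℝ) + nb <
      cRr B nQ nP uq up (2 * (i + 1)) (2 * j + 1) + q 0 - θ + 2) ∨ Y ≤ 0) : False := by
  have hM2 := h.MM2 (uq 0) (up 0)
  have hQ := h.fr.nQle
  have hP := h.fr.nPle
  have hqn := h.fr.qn (i := 2 * i + 2) (by omega)
  have hpn := h.fr.pn (i := 2 * j + 1) (by omega)
  have e1 : 2 * (i + 1) = 2 * i + 2 := by ring
  have m1 := le_max_left (q (2 * i + 1) - (θ - 2)) (p (2 * j) - θ)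
  have m2 := le_max_right (q (2 * i + 1) - (θ - 2)) (p (2 * j) - θ)
  exact h.mi4 hn hnv hpq hin hi hj haQ hbP hd hT hnb (by linarith) (by rw [e1]; linarith)
    (by linarith) hu hΓ hTf

/-- the leaf 2c -/
theorem Ctx.mi2c {i j : ℕ} (hi : i + 1 < ℓ) (hj : j < ℓ)
    (hD : θ < p (2 * j) - p (2 * j + 1)) (h1 : θ - 2 < q (2 * i + 1))
    (h3 : q (2 * (i + 1)) < p (2 * j) - p (2 * j + 1) - θ + 2)
    (haQ : 2 * (i + 1) ≤ nQ) (hbP : 2 * j + 1 ≤ nP)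
    (hd : Dec B pick (vs uq up (rr nQ nP (2 * (i + 1)) (2 * j + 1))) Rs S g Kc) {Y : ℤ} {nb : ℝ}
    (hT : T2A B uq up (2 * (i + 1)) (2 * j + 1) S g Y) (hnb : 0 ≤ nb)
    (hu : θ + g < p (2 * j)) (hΓ : ((Gam B (uq 0) S : ℤ) : ℝ) < q 0 - θ - g + 2)
    (hTf : ((Y : ℝ) + ((Gam B (uq 0) S : ℤ) : ℝ) + ((ch (MM B (uq 0)) S : ℤ) : ℝ) + nb <
      cRr B nQ nP uq up (2 * (i + 1)) (2 * j + 1) + q 0 - θ + 2) ∨ Y ≤ 0) : False := by
  have hQ := h.fr.nQle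
  have hP := h.fr.nPle
  have hpn := h.fr.pn (i := 2 * j + 1) (by omega)
  have m1 := le_max_left (q (2 * i + 1) - (θ - 2)) (p (2 * j) - θ)
  have m2 := le_max_right (q (2 * i + 1) - (θ - 2)) (p (2 * j) - θ)
  exact h.mi4 hn hnv hpq hin hi hj haQ hbP hd hT hnb h1.le (by linarith)
    (by linarith) hu hΓ hTf

/-- the leaf 3c -/
theorem Ctx.mi3c {i l : ℕ} (hi : i + 1 < ℓ) (hl : l < ℓ)
    (hE : θ - MM B (uq 0) (up 0) < q (2 * i + 1) - q (2 * i + 2))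
    (h3 : p (2 * l + 1) < q (2 * i + 1) - q (2 * i + 2) - θ + (MM B (uq 0) (up 0) + 2))
    (haQ : 2 * (i + 1) ≤ nQ) (hbP : 2 * l + 1 ≤ nP)
    (hd : Dec B pick (vs uq up (rr nQ nP (2 * (i + 1)) (2 * l + 1))) Rs S g Kc) {Y : ℤ} {nb : ℝ}
    (hT : T2A B uq up (2 * (i + 1)) (2 * l + 1) S g Y) (hnb : 0 ≤ nb)
    (hu : θ + g < p (2 * l)) (hΓ : ((Gam B (uq 0) S : ℤ) : ℝ) < q 0 - θ - g + 2)
    (hTf : ((Y : ℝ) + ((Gam B (uq 0) S : ℤ) : ℝ) + ((ch (MM B (uq 0)) S : ℤ) : ℝ) + nb <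
      cRr B nQ nP uq up (2 * (i + 1)) (2 * l + 1) + q 0 - θ + 2) ∨ Y ≤ 0) : False := by
  have hM2 := h.MM2 (uq 0) (up 0)
  have hQ := h.fr.nQle
  have hP := h.fr.nPle
  have hqn := h.fr.qn (i := 2 * i + 2) (by omega)
  have hpn := h.fr.pn (i := 2 * l + 1) (by omega)
  have e1 : 2 * (i + 1) = 2 * i + 2 := by ring
  have m1 := le_max_left (q (2 * i + 1) - (θ - 2)) (p (2 * l) - θ)
  have m2 := le_max_right (q (2 * i + 1) - (θ - 2)) (p (2 * l) - θ)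
  exact h.mi4 hn hnv hpq hin hi hl haQ hbP hd hT hnb (by linarith) (by rw [e1]; linarith)
    (by linarith) hu hΓ hTf

end leafs

end Pool.Agent.Exact
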