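import Pool.Agent.Lib_helper68.Exact.MoCnt
import Pool.Agent.Lib_helper23.Exact.Glue

/-!
# Hubs of both types, an even number of the first and an odd number of the second:
crossings if the rest is independent
-/

set_option autoImplicit false
set_option linter.unusedSectionVars false

namespace Pool.Agent.Exact

open Finset

variable {V : Type*} [Fintype V] [DecidableEq V]
variable {B : V → V → ℤ} {Rl : Finset V} {ℓ nQ nP : ℕ} {uq up : ℕ → V} {q p : ℕ → ℝ}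
variable {k : ℤ} {θ : ℝ}
variable {Rs S : Finset V} {g : ℤ} {Kc : V → Finset V} {pick : Finset V → V}

section
variable (h : Ctx B Rl ℓ nQ nP uq up q p k θ)
include h

/-- `2θ - n` is large, minimum outdegree at least `k`, hubs of both types -/
theorem Ctx.moDy (hn : 2 * k - 1 ≤ (Rl.card : ℤ)) (hout : ∀ v ∈ Rl, k ≤ ∑ u, B v u)
    {i j : ℕ} (hi : i + 1 < ℓ) (haQ : 2 * (i + 1) ≤ nQ) (hbP : 2 * j + 1 ≤ nP)
    (hd : Dec B pick (vs uq up (rr nQ nP (2 * (i + 1)) (2 * j + 1))) Rs S g Kc)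
    (hpick : ∀ K : Finset V, K.Nonempty → pick K ∈ K ∧ ∀ u ∈ K, indg B K (pick K) ≤ indg B K u)
    (hqi : θ - 2 ≤ q (2 * i + 1)) (hp0 : θ < p 0) (hq0 : θ ≤ q 0) :
    ((2 * (i + 1) : ℕ) : ℤ) ≤ k - 2 ∧
      q 0 - θ + 4 + (((2 * (i + 1) : ℕ) : ℝ) + 1) * (Rl.card - 1 - k - θ) ≤
        (k - 1 - ((2 * (i + 1) : ℕ) : ℝ)) * (2 * θ - Rl.card - 1) := by
  have hl := h.fr.l2
  have hlam := h.lam2 hn
  have hθ3 := h.θ3 hn
  have hp0k : p 0 ≤ Rl.card - 1 - k := h.pleK hout (by omega) (by linarith)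
  have c := h.cntO hout (a := 2 * (i + 1)) (b := 2 * j + 1) (by omega) haQ hbP hd hpick
  have hS3 := sum_first q (2 * i + 1) fun l hl' =>
    h.fr.qa (i := l) (j := 2 * i + 1) hl' (by omega)
  have hi0 : (0 : ℝ) ≤ ((2 * i + 1 : ℕ) : ℝ) := Nat.cast_nonneg _
  have hS4 : ((2 * i + 1 : ℕ) : ℝ) * (θ - 2) ≤ ((2 * i + 1 : ℕ) : ℝ) * q (2 * i + 1) :=
    mul_le_mul_of_nonneg_left hqi hi0
  have e1 : 2 * (i + 1) = 2 * i + 1 + 1 := by ring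
  have h2 := c.D
  rw [e1] at h2 ⊢
  have key : q 0 - θ + 4 + (((2 * i + 1 + 1 : ℕ) : ℝ) + 1) * (Rl.card - 1 - k - θ) ≤
      (k - 1 - ((2 * i + 1 + 1 : ℕ) : ℝ)) * (2 * θ - Rl.card - 1) := by
    push_cast at h2 hS3 hS4 ⊢
    linarith
  refine ⟨?_, key⟩
  by_contra hc
  push Not at hc
  have hc' : (k : ℝ) - 1 ≤ ((2 * i + 1 + 1 : ℕ) : ℝ) := by
    have : k - 1 ≤ ((2 * i + 1 + 1 : ℕ) : ℤ) := by omega
    exact_mod_cast this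
  have h5 : (k - 1 - ((2 * i + 1 + 1 : ℕ) : ℝ)) * (2 * θ - Rl.card - 1) ≤ 0 :=
    mul_nonpos_of_nonpos_of_nonneg (by linarith) (by linarith)
  have h6 : 0 ≤ (((2 * i + 1 + 1 : ℕ) : ℝ) + 1) * (Rl.card - 1 - k - θ) :=
    mul_nonneg (by positivity) (by linarith)
  linarith

/-- `2θ - n` is large if `q 0` is large -/
theorem Ctx.moMu (hn : 2 * k - 1 ≤ (Rl.card : ℤ)) (hout : ∀ v ∈ Rl, k ≤ ∑ u, B v u)
    {i j : ℕ} (hi : i + 1 < ℓ) (haQ : 2 * (i + 1) ≤ nQ) (hbP : 2 * j + 1 ≤ nP)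
    (hd : Dec B pick (vs uq up (rr nQ nP (2 * (i + 1)) (2 * j + 1))) Rs S g Kc)
    (hpick : ∀ K : Finset V, K.Nonempty → pick K ∈ K ∧ ∀ u ∈ K, indg B K (pick K) ≤ indg B K u)
    (hqi : θ - 2 ≤ q (2 * i + 1)) (hp0 : θ < p 0) (hq0 : (Rl.card : ℝ) - 8 ≤ q 0)
    (hqθ : θ ≤ q 0) :
    3 < 2 * θ - Rl.card + 1 := by
  have hl := h.fr.l2
  have hlam := h.lam2 hn
  have hθ3 := h.θ3 hn
  have k3r := h.k3r
  have hp0k : p 0 ≤ Rl.card - 1 - k := h.pleK hout (by omega) (by linarith)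
  obtain ⟨h1, h2⟩ := h.moDy hn hout hi haQ hbP hd hpick hqi hp0 hqθ
  have h1r : ((2 * (i + 1) : ℕ) : ℝ) ≤ k - 2 := by exact_mod_cast h1
  have h3 : (2 : ℝ) ≤ ((2 * (i + 1) : ℕ) : ℝ) := by push_cast; linarith [(Nat.cast_nonneg i : (0:ℝ) ≤ i)]
  by_contra hc
  push Not at hc
  have h4 : (k - 1 - ((2 * (i + 1) : ℕ) : ℝ)) * (2 * θ - Rl.card - 1) ≤
      (k - 1 - ((2 * (i + 1) : ℕ) : ℝ)) * 1 :=
    mul_le_mul_of_nonneg_left (by linarith) (by linarith)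
  have h6 : 0 ≤ (((2 * (i + 1) : ℕ) : ℝ) + 1) * (Rl.card - 1 - k - θ) :=
    mul_nonneg (by linarith) (by linarith)
  linarith

/-- crossing in the leaf 2a -/
theorem Ctx.cr2a0 (hn : 2 * k - 1 ≤ (Rl.card : ℤ)) (hpq : p 0 ≤ q 0 - 1)
    {i j : ℕ} (hi : i + 1 < ℓ) (hj : j < ℓ)
    (hE : θ - MM B (uq 0) (up 0) < q (2 * i + 1) - q (2 * i + 2))
    (hD : θ < p (2 * j) - p (2 * j + 1))
    (hc : q 1 + 1 ≤ q 0 ∨ B (uq 0) (uq 1) ≤ B (uq 1) (uq 0))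
    (haQ : 2 * (i + 1) ≤ nQ) (hbP : 2 * j + 1 ≤ nP) {D : ℝ}
    (hD' : D ≤ cRr B nQ nP uq up (2 * (i + 1)) (2 * j + 1))
    (hC : CrI B uq up q p (2 * (i + 1)) (2 * j + 1) D) : Val B θ := by
  have hl := h.fr.l2
  have hlam := h.lam2 hn
  have hM0 := h.MM0 (uq 0) (up 0)
  have hN2 := h.MM2 (uq 1) (up 0)
  have hcR := h.cRM (a := 2 * (i + 1)) (b := 2 * j + 1) (by omega) haQ hbP (by omega)
  have hb1 : ((B (uq 0) (uq 1) : ℤ) : ℝ) ≤ 1 := by exact_mod_cast h.fr.sys.B1 _ _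
  have hb0 : (0 : ℝ) ≤ ((B (uq 1) (uq 0) : ℤ) : ℝ) := by exact_mod_cast h.fr.sys.B0 _ _
  have hc' : q 1 + 1 ≤ q 0 ∨ ((B (uq 0) (uq 1) : ℤ) : ℝ) ≤ ((B (uq 1) (uq 0) : ℤ) : ℝ) := by
    rcases hc with h1 | h1
    · exact Or.inl h1
    · right; exact_mod_cast h1
  have ha : q 1 ≤ q 0 := h.fr.qa (by omega) (by omega)
  refine (h.fr.leaf2a (y := q 0 - θ) (by ring) hpq hi hj hM0 hE hD ?_ ?_).1 hC
  · rcases hc' with h2 | h2 <;> linarith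
  · linarith

/-- crossing in the leaf 3c -/
theorem Ctx.cr3c0 (hnv : ¬ Val B θ) (hpq : p 0 ≤ q 0)
    {i l : ℕ} (hi : i + 1 < ℓ) (hl : l < ℓ) (hlam : 3 < 2 * θ - (Rl.card : ℝ) + 1)
    (hA : 2 * θ < AA q ℓ + AA p ℓ)
    (hE : θ - MM B (uq 0) (up 0) < q (2 * i + 1) - q (2 * i + 2))
    (h3 : p (2 * l + 1) < q (2 * i + 1) - q (2 * i + 2) - θ + (MM B (uq 0) (up 0) + 2))
    (haQ : 2 * (i + 1) ≤ nQ) (hbP : 2 * l + 1 ≤ nP) {D : ℝ}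
    (hD' : D ≤ cRr B nQ nP uq up (2 * (i + 1)) (2 * l + 1))
    (hC : CrI B uq up q p (2 * (i + 1)) (2 * l + 1) D) : Val B θ := by
  have hl2 := h.fr.l2
  have hqθ := h.top hnv hpq
  have hM2 := h.MM2 (uq 0) (up 0)
  have hM0 := h.MM0 (uq 0) (up 0)
  have hN2 := h.MM2 (uq 1) (up 0)
  have hcRB := h.cRB (a := 2 * (i + 1)) (b := 2 * l + 1) (by omega) haQ hbP (by omega)
  have hcR := h.cR (a := 2 * (i + 1)) (b := 2 * l + 1) (by omega) haQ hbP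
  have hcR0 := h.cR0 (a := 2 * (i + 1)) (b := 2 * l + 1)
  exact (h.fr.leaf3c (y := q 0 - θ) (ζ := Rl.card - 1 - q 0) (lam := 2 * θ - Rl.card + 1)
      (by ring) hpq (by ring) (by linarith) hi hl hE hA h3 (by linarith) (by linarith)).1 hC

/-- crossing in the leaf 2c -/
theorem Ctx.cr2c0 (hn : 2 * k - 1 ≤ (Rl.card : ℤ)) (hpq : p 0 ≤ q 0 - 1) (hqθ : θ ≤ q 0)
    {i j : ℕ} (hi : i + 1 < ℓ) (hj : j < ℓ)
    (hD : θ < p (2 * j) - p (2 * j + 1))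
    (hA : AA q ℓ + AA p ℓ < 2 * (q 0 - θ) + 2 * MM B (uq 0) (up 0))
    (h3 : q (2 * (i + 1)) < p (2 * j) - p (2 * j + 1) - θ + 2)
    (hμ : (Rl.card : ℝ) - 3 ≤ q 0 → 3 < 2 * θ - Rl.card + 1)
    (haQ : 2 * (i + 1) ≤ nQ) (hbP : 2 * j + 1 ≤ nP) {D : ℝ} (D1 : D ≤ 1)
    (hD' : D ≤ cRr B nQ nP uq up (2 * (i + 1)) (2 * j + 1))
    (hC : CrI B uq up q p (2 * (i + 1)) (2 * j + 1) D) : Val B θ := by
  have hl := h.fr.l2
  have hlam := h.lam2 hn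
  have hθ3 := h.θ3 hn
  have hq0 : 0 < q 0 := by linarith
  have hM2 := h.MM2 (uq 0) (up 0)
  have hM0 := h.MM0 (uq 0) (up 0)
  have hN2 := h.MM2 (uq 1) (up 0)
  have hMz := h.MM_le (up 0) (i := 0) (by omega) hq0 (h.uqp (by omega) (by omega))
  have hcR' := h.cR (a := 2 * (i + 1)) (b := 2 * j + 1) (by omega) haQ hbP
  have ha : q 1 ≤ q 0 := h.fr.qa (by omega) (by omega)
  obtain ⟨ζ, hζ0, hζ⟩ := h.zeta (i := 0) (by omega) hq0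
  have hζ0r : (0 : ℝ) ≤ ζ := by exact_mod_cast hζ0
  have hz : 3 < 2 * θ - (Rl.card : ℝ) + 1 ∨ q 0 ≤ Rl.card - 4 := by
    rcases (show ζ ≤ 2 ∨ 3 ≤ ζ by omega) with h5 | h5
    · left
      have : (ζ : ℝ) ≤ 2 := by exact_mod_cast h5
      exact hμ (by linarith)
    · right
      have : (3 : ℝ) ≤ ζ := by exact_mod_cast h5
      linarith
  refine h.fr.leaf2c (y := q 0 - θ) (ζ := Rl.card - 1 - q 0) (lam := 2 * θ - Rl.card + 1)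
      (by ring) hpq (by ring) hi hj hD hA h3 ?_ ?_ ?_ hC
  · rcases hz with h6 | h6 <;> linarith
  · rcases hz with h6 | h6 <;> linarith
  · rcases hz with h6 | h6 <;> linarith

end
end Pool.Agent.Exact
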