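import Pool.Agent.Lib_helper68.Exact.Count

/-!
# Structures described by index ranges
-/

set_option autoImplicit false
set_option linter.unusedSectionVars false

namespace Pool.Agent.Exact

open Finset

variable {V : Type*} [Fintype V] [DecidableEq V] {B : V → V → ℤ}

/-- no structure of small value on everything -/
theorem St.val {M K t : ℝ} (hK : 0 ≤ K) (h : St B (im B) univ M K t) :
    Val B (M + max K (t / 2)) := by
  have h1 := extendSt (B := B) ∅ (fun _ => 1) (by simp) hK (by simpa using h)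
  refine h1.mono ?_
  have e : Qd B ∅ (fun _ : V => (1 : ℤ)) = 0 := by simp [Qd]
  rw [e]
  simp only [Finset.sum_empty, Int.cast_zero, abs_zero, zero_add]
  rw [max_eq_right hK]

/-- a chain that ends with two vertices of weight zero -/
structure Chain0 (s : V → ℤ) (u : ℕ → V) (ℓ : ℕ) (w : ℕ → ℝ) : Prop where
  ch : Chain s u (2 * ℓ) w
  pos : 2 ≤ ℓ
  z : ∀ i, 2 * ℓ ≤ i + 2 → i < 2 * ℓ → w i = 0

variable {s : V → ℤ} {u : ℕ → V} {ℓ : ℕ} {w : ℕ → ℝ}

/-- pairs from an even index to the end -/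
theorem Chain0.tail_even (h : Chain0 s u ℓ w) (hB : ∀ v, B v v = 0) (h0 : ∀ u v, 0 ≤ B u v)
    {K : ℝ} (i : ℕ) (hi : i ≤ ℓ)
    (hK : ∀ l, i ≤ l → l < ℓ → w (2 * l) - w (2 * l + 1) ≤ K) :
    St B s (sg u (2 * i) (2 * ℓ)) 0 K (AA w ℓ - AA w i) :=
  h.ch.seg_even hB h0 i ℓ hi le_rfl hK

/-- pairs from an odd index to the end -/
theorem Chain0.tail_odd (h : Chain0 s u ℓ w) (hB : ∀ v, B v v = 0) (h0 : ∀ u v, 0 ≤ B u v)
    {K : ℝ} (hK0 : 0 ≤ K) (i : ℕ) (hi : i < ℓ)
    (hK : ∀ l, i ≤ l → l + 1 < ℓ → w (2 * l + 1) - w (2 * l + 2) ≤ K) :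
    St B s (sg u (2 * i + 1) (2 * ℓ)) 0 K (w (2 * i) - (AA w ℓ - AA w i)) := by
  have hpos := h.pos
  have h1 := h.ch.seg_odd hB h0 (K := K) i (ℓ - 1) (by omega) (by omega)
    (fun l h1 h2 => hK l h1 (by omega))
  have e1 : 2 * (ℓ - 1) + 1 = 2 * ℓ - 1 := by omega
  have e2 : w (2 * (ℓ - 1)) = 0 := h.z _ (by omega) (by omega)
  have e3 : AA w ℓ = AA w (ℓ - 1) := by
    have h3 : ℓ = (ℓ - 1) + 1 := by omega
    have h4 : w (2 * (ℓ - 1) + 1) = 0 := h.z _ (by omega) (by omega)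
    conv_lhs => rw [h3]
    rw [AA_succ, e2, h4]
    ring
  have h2 : St B s (sg u (2 * ℓ - 1) (2 * ℓ)) 0 0 0 := by
    have e4 : sg u (2 * ℓ - 1) (2 * ℓ) = {u (2 * ℓ - 1)} := by
      have := sg_one u (2 * ℓ - 1)
      rwa [show 2 * ℓ - 1 + 1 = 2 * ℓ by omega] at this
    rw [e4]
    refine St.one hB _ ?_
    rw [h.ch.abs (by omega), h.z _ (by omega) (by omega)]
  have h3 : Disjoint (sg u (2 * i + 1) (2 * ℓ - 1)) (sg u (2 * ℓ - 1) (2 * ℓ)) :=
    sg_disjoint h.ch (by omega) (by omega) le_rfl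
  rw [e1] at h1
  have h4 := h1.union (h2.mono le_rfl hK0 le_rfl) h3
  rw [sg_union u (by omega) (by omega)] at h4
  refine h4.mono (by norm_num) le_rfl ?_
  rw [e2, e3]
  linarith

lemma AA_mono {s : V → ℤ} {u : ℕ → V} {L : ℕ} {w : ℕ → ℝ} (h : Chain s u L w) {i j : ℕ}
    (hij : i ≤ j) (hj : 2 * j ≤ L) : AA w i ≤ AA w j := by
  induction j, hij using Nat.le_induction with
  | base => exact le_rfl
  | succ j hij ih =>
    have := ih (by omega)
    rw [AA_succ]
    have := h.anti (2 * j) (2 * j + 1) (by omega) (by omega)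
    linarith

/-- the sum of the two kinds of differences telescopes -/
lemma EE_mono {s : V → ℤ} {u : ℕ → V} {L : ℕ} {w : ℕ → ℝ} (h : Chain s u L w) {i j : ℕ}
    (hij : i ≤ j) (hj : 2 * j < L) : AA w j - AA w i ≤ w (2 * i) - w (2 * j) := by
  induction j, hij using Nat.le_induction with
  | base => simp
  | succ j hij ih =>
    have := ih (by omega)
    rw [AA_succ]
    have := h.anti (2 * j + 1) (2 * (j + 1)) (by omega) (by omega)
    linarith

/-- each difference is at most the sum of the differences of its segment -/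
lemma gap_le_AA {s : V → ℤ} {u : ℕ → V} {L : ℕ} {w : ℕ → ℝ} (h : Chain s u L w) {i j l : ℕ}
    (hi : i ≤ l) (hj : l < j) (hL : 2 * j ≤ L) :
    w (2 * l) - w (2 * l + 1) ≤ AA w j - AA w i := by
  have h1 := AA_mono h hi (by omega)
  have h2 := AA_mono h (show l + 1 ≤ j by omega) hL
  rw [AA_succ] at h2
  linarith

lemma gap_le_EE {s : V → ℤ} {u : ℕ → V} {L : ℕ} {w : ℕ → ℝ} (h : Chain s u L w) {i j l : ℕ}
    (hi : i ≤ l) (hj : l < j) (hL : 2 * j < L) :
    w (2 * l + 1) - w (2 * l + 2) ≤ w (2 * i) - w (2 * j) - (AA w j - AA w i) := by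
  have h1 := EE_mono h hi (by omega)
  have h2 := EE_mono h (show l + 1 ≤ j by omega) hL
  rw [AA_succ] at h2
  have e : w (2 * (l + 1)) = w (2 * l + 2) := by ring_nf
  rw [e] at h2
  linarith

end Pool.Agent.Exact
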