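import Pool.Agent.Lib_helper68.Exact.Swap

/-!
# Counting arcs between classes
-/

set_option autoImplicit false
set_option linter.unusedSectionVars false

namespace Pool.Agent.Exact

open Finset

variable {V : Type*} [Fintype V] [DecidableEq V]
variable {B : V → V → ℤ} {Rl : Finset V}

/-- the number of arcs from `X` to `Y` -/
def ar (B : V → V → ℤ) (X Y : Finset V) : ℤ := ∑ u ∈ X, ∑ v ∈ Y, B u v

lemma ar_nn (h0 : ∀ u v, 0 ≤ B u v) (X Y : Finset V) : 0 ≤ ar B X Y :=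
  Finset.sum_nonneg fun u _ => Finset.sum_nonneg fun v _ => h0 u v

lemma ar_le (h1 : ∀ u v, B u v ≤ 1) (X Y : Finset V) : ar B X Y ≤ X.card * Y.card := by
  unfold ar
  calc ∑ u ∈ X, ∑ v ∈ Y, B u v ≤ ∑ _u ∈ X, (Y.card : ℤ) := by
        refine Finset.sum_le_sum fun u _ => ?_
        calc ∑ v ∈ Y, B u v ≤ ∑ _v ∈ Y, (1 : ℤ) := Finset.sum_le_sum fun v _ => h1 u v
          _ = Y.card := by simp
    _ = X.card * Y.card := by simp

lemma ar_self (h1 : ∀ u v, B u v ≤ 1) (hB : ∀ v, B v v = 0) (X : Finset V) :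
    ar B X X ≤ X.card * (X.card - 1) := by
  unfold ar
  calc ∑ u ∈ X, ∑ v ∈ X, B u v ≤ ∑ _u ∈ X, ((X.card : ℤ) - 1) := by
        refine Finset.sum_le_sum fun u hu => ?_
        rw [← Finset.add_sum_erase X _ hu, hB, zero_add]
        calc ∑ v ∈ X.erase u, B u v ≤ ∑ _v ∈ X.erase u, (1 : ℤ) :=
              Finset.sum_le_sum fun v _ => h1 u v
          _ = (X.card : ℤ) - 1 := by
              rw [Finset.sum_const, Finset.card_erase_of_mem hu, nsmul_eq_mul, mul_one]
              have : 1 ≤ X.card := Finset.card_pos.2 ⟨u, hu⟩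
              push_cast [Nat.cast_sub this]
              ring
    _ = X.card * (X.card - 1) := by rw [Finset.sum_const, nsmul_eq_mul]

lemma ar_Tr (X Y : Finset V) : ar (Tr B) X Y = ar B Y X := by
  unfold ar Tr
  exact Finset.sum_comm

lemma ar_unL {X X' : Finset V} (hd : Disjoint X X') (Y : Finset V) :
    ar B (X ∪ X') Y = ar B X Y + ar B X' Y := by
  unfold ar
  exact Finset.sum_union hd

lemma ar_unR {Y Y' : Finset V} (hd : Disjoint Y Y') (X : Finset V) :
    ar B X (Y ∪ Y') = ar B X Y + ar B X Y' := by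
  unfold ar
  rw [← Finset.sum_add_distrib]
  exact Finset.sum_congr rfl fun u _ => Finset.sum_union hd

lemma ar_monoL (h0 : ∀ u v, 0 ≤ B u v) {X X' : Finset V} (hX : X ⊆ X') (Y : Finset V) :
    ar B X Y ≤ ar B X' Y :=
  Finset.sum_le_sum_of_subset_of_nonneg hX fun u _ _ => Finset.sum_nonneg fun v _ => h0 u v

lemma ar_monoR (h0 : ∀ u v, 0 ≤ B u v) {Y Y' : Finset V} (hY : Y ⊆ Y') (X : Finset V) :
    ar B X Y ≤ ar B X Y' :=
  Finset.sum_le_sum fun u _ => Finset.sum_le_sum_of_subset_of_nonneg hY fun v _ _ => h0 u v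

lemma row_real (hdum : ∀ v, v ∉ Rl → ∀ u, B u v = 0 ∧ B v u = 0) (v : V) :
    ∑ u, B v u = ∑ u ∈ Rl, B v u :=
  (Finset.sum_subset (Finset.subset_univ _) fun u _ hu => (hdum u hu v).1).symm

lemma col_real (hdum : ∀ v, v ∉ Rl → ∀ u, B u v = 0 ∧ B v u = 0) (v : V) :
    ∑ u, B u v = ∑ u ∈ Rl, B u v :=
  (Finset.sum_subset (Finset.subset_univ _) fun u _ hu => (hdum u hu v).2).symm

lemma sum_row (hdum : ∀ v, v ∉ Rl → ∀ u, B u v = 0 ∧ B v u = 0) (X : Finset V) :
    ∑ v ∈ X, ∑ u, B v u = ar B X Rl := by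
  unfold ar
  exact Finset.sum_congr rfl fun v _ => row_real hdum v

lemma sum_col (hdum : ∀ v, v ∉ Rl → ∀ u, B u v = 0 ∧ B v u = 0) (X : Finset V) :
    ∑ v ∈ X, ∑ u, B u v = ar B Rl X := by
  unfold ar
  have h1 : ∑ u ∈ Rl, ∑ v ∈ X, B u v = ∑ v ∈ X, ∑ u ∈ Rl, B u v := Finset.sum_comm
  rw [h1]
  exact Finset.sum_congr rfl fun v _ => col_real hdum v

lemma im_sum_ar (hdum : ∀ v, v ∉ Rl → ∀ u, B u v = 0 ∧ B v u = 0) (X : Finset V) :
    ∑ v ∈ X, im B v = ar B X Rl - ar B Rl X := by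
  rw [← sum_row hdum, ← sum_col hdum, ← Finset.sum_sub_distrib]
  refine Finset.sum_congr rfl fun v _ => ?_
  unfold im
  rw [← Finset.sum_sub_distrib]

lemma mm_ar (hdum : ∀ v, v ∉ Rl → ∀ u, B u v = 0 ∧ B v u = 0) : mm B = ar B Rl Rl := by
  rw [mm_real hdum, sum_row hdum]

lemma ar_out {k : ℤ} (hdum : ∀ v, v ∉ Rl → ∀ u, B u v = 0 ∧ B v u = 0)
    (hdeg : ∀ v ∈ Rl, k ≤ ∑ u, B v u) {X : Finset V} (hX : X ⊆ Rl) :
    k * X.card ≤ ar B X Rl := by
  rw [← sum_row hdum]
  calc k * (X.card : ℤ) = ∑ _v ∈ X, k := by rw [Finset.sum_const, nsmul_eq_mul]; ring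
    _ ≤ _ := Finset.sum_le_sum fun v hv => hdeg v (hX hv)

/-- a partition of the real vertices -/
structure Par (Rl O I Rs S : Finset V) : Prop where
  un : O ∪ I ∪ (Rs ∪ S) = Rl
  d1 : Disjoint O I
  d2 : Disjoint (O ∪ I) (Rs ∪ S)
  d3 : Disjoint Rs S

section par
variable {O I Rs S : Finset V} (h : Par Rl O I Rs S)
include h

lemma Par.row (X : Finset V) :
    ar B X Rl = ar B X O + ar B X I + ar B X Rs + ar B X S := by
  rw [← h.un, ar_unR h.d2, ar_unR h.d1, ar_unR h.d3]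
  ring

lemma Par.col (Y : Finset V) :
    ar B Rl Y = ar B O Y + ar B I Y + ar B Rs Y + ar B S Y := by
  rw [← h.un, ar_unL h.d2, ar_unL h.d1, ar_unL h.d3]
  ring

lemma Par.card : (Rl.card : ℤ) = O.card + I.card + Rs.card + S.card := by
  rw [← h.un, Finset.card_union_of_disjoint h.d2, Finset.card_union_of_disjoint h.d1,
    Finset.card_union_of_disjoint h.d3]
  push_cast
  ring

lemma Par.sO : O ⊆ Rl := by
  rw [← h.un]
  exact Finset.subset_union_left.trans Finset.subset_union_left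

lemma Par.sI : I ⊆ Rl := by
  rw [← h.un]
  exact Finset.subset_union_right.trans Finset.subset_union_left

lemma Par.sR : Rs ⊆ Rl := by
  rw [← h.un]
  exact Finset.subset_union_left.trans Finset.subset_union_right

lemma Par.sS : S ⊆ Rl := by
  rw [← h.un]
  exact Finset.subset_union_right.trans Finset.subset_union_right

/-- the number of all arcs -/
lemma Par.total (hdum : ∀ v, v ∉ Rl → ∀ u, B u v = 0 ∧ B v u = 0) :
    mm B = ar B O Rl + ar B I Rl + ar B Rs Rl + ar B S Rl := by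
  rw [mm_ar hdum, h.col]

lemma Par.total' (hdum : ∀ v, v ∉ Rl → ∀ u, B u v = 0 ∧ B v u = 0) :
    mm B = ar B Rl O + ar B Rl I + ar B Rl Rs + ar B Rl S := by
  rw [mm_ar hdum, h.row]

end par

/-- the indegree inside `K` -/
def indg (B : V → V → ℤ) (K : Finset V) (v : V) : ℤ := ∑ u ∈ K, B u v

/-- a choice of a vertex of smallest indegree inside `K` -/
lemma exists_pick [Nonempty V] (B : V → V → ℤ) : ∃ pick : Finset V → V,
    ∀ K : Finset V, K.Nonempty → pick K ∈ K ∧ ∀ u ∈ K, indg B K (pick K) ≤ indg B K u := by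
  classical
  have h : ∀ K : Finset V, ∃ v : V, K.Nonempty → v ∈ K ∧ ∀ u ∈ K, indg B K v ≤ indg B K u := by
    intro K
    rcases K.eq_empty_or_nonempty with h | h
    · exact ⟨Classical.arbitrary V, fun h' => absurd h (Finset.nonempty_iff_ne_empty.1 h')⟩
    · obtain ⟨v, hv, h1⟩ := Finset.exists_min_image K (indg B K) h
      exact ⟨v, fun _ => ⟨hv, h1⟩⟩
  exact ⟨fun K => (h K).choose, fun K hK => (h K).choose_spec hK⟩

/-- the smallest indegree in a bad component -/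
lemma ind_le (hB : ∀ v, B v v = 0) {K : Finset V} {v : V} (hv : v ∈ K)
    (hmin : ∀ u ∈ K, indg B K v ≤ indg B K u) (hs : ∀ u ∈ K, ∀ v ∈ K, MM B u v ≤ 1) :
    2 * indg B K v ≤ K.card - 1 := by
  have h1 : (K.card : ℤ) * indg B K v ≤ EE B K := by
    unfold EE
    rw [Finset.sum_comm]
    calc (K.card : ℤ) * indg B K v = ∑ _u ∈ K, indg B K v := by
          rw [Finset.sum_const, nsmul_eq_mul]
      _ ≤ ∑ u ∈ K, indg B K u := Finset.sum_le_sum fun u hu => hmin u hu
  have h2 := EE_le_of_simple hB hs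
  have h3 : (0 : ℤ) < K.card := by exact_mod_cast Finset.card_pos.2 ⟨v, hv⟩
  have h4 : (K.card : ℤ) * (2 * indg B K v) ≤ K.card * (K.card - 1) := by linarith
  exact le_of_mul_le_mul_left h4 h3

lemma ClosedIn.zero (h0 : ∀ u v, 0 ≤ B u v) {R K : Finset V} (hK : ClosedIn B R K) {u v : V}
    (hu : u ∈ K) (hv : v ∈ R) (hv' : v ∉ K) : B u v = 0 ∧ B v u = 0 := by
  have h1 := hK.2 u hu v (Finset.mem_sdiff.2 ⟨hv, hv'⟩)
  unfold MM at h1
  have h2 := h0 u v
  have h3 := h0 v u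
  constructor <;> omega

section dec
variable {R Rs S : Finset V} {g : ℤ} {Kc : V → Finset V} {pick : Finset V → V}

/-- arcs inside `S` -/
lemma Dec.SS (hd : Dec B pick R Rs S g Kc) (h0 : ∀ u v, 0 ≤ B u v) : ar B S S = 0 := by
  unfold ar
  refine Finset.sum_eq_zero fun u hu => Finset.sum_eq_zero fun v hv => ?_
  have h1 := hd.ind u hu v hv
  unfold MM at h1
  have h2 := h0 u v
  have h3 := h0 v u
  omega

/-- the sizes of the bad components -/
lemma Dec.sizes (hd : Dec B pick R Rs S g Kc) :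
    ∑ v ∈ S, ((Kc v).card - 1 : ℤ) ≤ Rs.card := by
  classical
  have h1 : ∑ v ∈ S, ((Kc v).card - 1 : ℤ) = ∑ v ∈ S, (((Kc v).erase v).card : ℤ) := by
    refine Finset.sum_congr rfl fun v hv => ?_
    have h2 := (hd.bad v hv).2.1
    rw [Finset.card_erase_of_mem h2]
    have : 1 ≤ (Kc v).card := Finset.card_pos.2 ⟨v, h2⟩
    push_cast [Nat.cast_sub this]
    ring
  rw [h1]
  have h2 : (∑ v ∈ S, ((Kc v).erase v).card) = (S.biUnion fun v => (Kc v).erase v).card := by
    rw [Finset.card_biUnion]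
    intro u hu v hv huv
    exact Finset.disjoint_of_subset_left (Finset.erase_subset _ _)
      (Finset.disjoint_of_subset_right (Finset.erase_subset _ _) (hd.kd u hu v hv huv))
  have h3 : (S.biUnion fun v => (Kc v).erase v).card ≤ Rs.card := by
    refine Finset.card_le_card fun x hx => ?_
    rw [Finset.mem_biUnion] at hx
    obtain ⟨v, hv, hx⟩ := hx
    exact (hd.bad v hv).2.2.2 hx
  exact_mod_cast (by rw [h2]; exact h3 : (∑ v ∈ S, ((Kc v).erase v).card) ≤ Rs.card)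

/-- the indegree of a vertex of `S` inside `R` -/
lemma Dec.colS (hd : Dec B pick R Rs S g Kc) (h0 : ∀ u v, 0 ≤ B u v) (hB : ∀ v, B v v = 0)
    {v : V} (hv : v ∈ S) : ∑ u ∈ Rs, B u v = indg B (Kc v) v := by
  classical
  have hK := (hd.bad v hv).1.cl
  have hvK := (hd.bad v hv).2.1
  have hsub := (hd.bad v hv).2.2.2
  unfold indg
  rw [← Finset.add_sum_erase (Kc v) _ hvK, hB, zero_add]
  refine (Finset.sum_subset hsub ?_).symm
  intro u hu hu'
  have huR : u ∈ R := by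
    rw [← hd.un]
    exact Finset.mem_union_left _ hu
  have huv : u ≠ v := by
    rintro rfl
    exact Finset.disjoint_left.1 hd.dj hu hv
  have huK : u ∉ Kc v := fun h' => hu' (Finset.mem_erase.2 ⟨huv, h'⟩)
  exact (hK.zero h0 hvK huR huK).2

/-- arcs from `Rs` to `S` -/
lemma Dec.RS (hd : Dec B pick R Rs S g Kc) (h0 : ∀ u v, 0 ≤ B u v) (hB : ∀ v, B v v = 0)
    (hpick : ∀ K : Finset V, K.Nonempty → pick K ∈ K ∧ ∀ u ∈ K, indg B K (pick K) ≤ indg B K u) :
    2 * ar B Rs S ≤ Rs.card := by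
  classical
  have h1 : ar B Rs S = ∑ v ∈ S, indg B (Kc v) v := by
    unfold ar
    rw [Finset.sum_comm]
    exact Finset.sum_congr rfl fun v hv => hd.colS h0 hB hv
  rw [h1, Finset.mul_sum]
  refine le_trans (Finset.sum_le_sum fun v hv => ?_) hd.sizes
  have hne : (Kc v).Nonempty := ⟨v, (hd.bad v hv).2.1⟩
  have e := (hd.bad v hv).2.2.1
  refine ind_le hB (hd.bad v hv).2.1 ?_ (hd.bad v hv).1.simple
  intro u hu
  have h5 := (hpick (Kc v) hne).2 u hu
  rwa [← e] at h5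

end dec

end Pool.Agent.Exact
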