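import Pool.Agent.Lib_helper68.Exact.Stars

/-!
# Block structures and sign patterns built vertex by vertex
-/

set_option autoImplicit false

namespace Pool.Agent.Exact

open Finset

variable {V : Type*} [DecidableEq V]

/-- the number of arcs between two vertices -/
def MM (B : V → V → ℤ) (u v : V) : ℤ := B u v + B v u

/-- the quadratic form of the arcs inside `S` -/
def Qd (B : V → V → ℤ) (S : Finset V) (x : V → ℤ) : ℤ := ∑ u ∈ S, ∑ v ∈ S, B u v * (x u * x v)

/-- interaction of two sets -/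
def Int (B : V → V → ℤ) (S T : Finset V) (x : V → ℤ) : ℤ :=
  ∑ u ∈ S, ∑ v ∈ T, MM B u v * (x u * x v)

/-- linear part plus quadratic part -/
def DD (B : V → V → ℤ) (a : V → ℤ) (x : V → ℤ) (S : Finset V) : ℤ :=
  ∑ v ∈ S, a v * x v + Qd B S x

/-- the charge of a set -/
def ch (a : V → ℤ) (S : Finset V) : ℤ := ∑ v ∈ S, if a v = 1 then 0 else 1

/-- `S` can be built vertex by vertex such that the value is at most the charge at each time -/
inductive Good (B : V → V → ℤ) (a x : V → ℤ) : Finset V → Prop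
  | empty : Good B a x ∅
  | step (S : Finset V) (v : V) : Good B a x S → v ∉ S →
      DD B a x (insert v S) ≤ ch a (insert v S) → Good B a x (insert v S)

/-- partitions into stars and triples (adjacent pair and a further vertex) with the total number
of arcs in the blocks -/
inductive Blocks (B : V → V → ℤ) : Finset V → ℤ → Prop
  | empty : Blocks B ∅ 0
  | star (S : Finset V) (g : ℤ) (c : V) (L : Finset V) : Blocks B S g → c ∉ S → c ∉ L →
      Disjoint L S → L.Nonempty → (∀ l ∈ L, 1 ≤ MM B c l) → (∀ l ∈ L, ∀ l' ∈ L, MM B l l' = 0) →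
      Blocks B (S ∪ insert c L) (g + ∑ l ∈ L, MM B c l)
  | hole (S : Finset V) (g : ℤ) (u v w : V) : Blocks B S g → u ∉ S → v ∉ S → w ∉ S → u ≠ v →
      u ≠ w → v ≠ w → 1 ≤ MM B u v → Blocks B (insert w (S ∪ {u, v})) (g + MM B u v)

variable {B : V → V → ℤ} {a : V → ℤ}

lemma MM_comm (u v : V) : MM B u v = MM B v u := by unfold MM; ring

lemma Qd_congr {S : Finset V} {x y : V → ℤ} (h : ∀ v ∈ S, x v = y v) : Qd B S x = Qd B S y := by
  unfold Qd
  exact Finset.sum_congr rfl fun u hu => Finset.sum_congr rfl fun v hv => by rw [h u hu, h v hv]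

lemma DD_congr {S : Finset V} {x y : V → ℤ} (h : ∀ v ∈ S, x v = y v) :
    DD B a x S = DD B a y S := by
  unfold DD
  rw [Qd_congr h]
  congr 1
  exact Finset.sum_congr rfl fun u hu => by rw [h u hu]

lemma Good.congr {S : Finset V} {x y : V → ℤ} (hS : Good B a x S) (h : ∀ v ∈ S, x v = y v) :
    Good B a y S := by
  induction hS with
  | empty => exact Good.empty
  | step S v hS hv hD ih =>
    refine Good.step S v (ih fun u hu => h u (Finset.mem_insert_of_mem hu)) hv ?_
    rw [← DD_congr h]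
    exact hD

lemma Good.le {S : Finset V} {x : V → ℤ} (hS : Good B a x S) : DD B a x S ≤ ch a S := by
  cases hS with
  | empty => simp [DD, Qd, ch]
  | step S v hS hv hD => exact hD

lemma Qd_union {S T : Finset V} (h : Disjoint S T) (x : V → ℤ) :
    Qd B (S ∪ T) x = Qd B S x + Qd B T x + Int B S T x := by
  unfold Qd Int MM
  rw [Finset.sum_union h]
  simp only [Finset.sum_union h, Finset.sum_add_distrib, add_mul]
  have e : ∑ u ∈ S, ∑ v ∈ T, B v u * (x u * x v) = ∑ v ∈ T, ∑ u ∈ S, B v u * (x v * x u) := by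
    rw [Finset.sum_comm]
    exact Finset.sum_congr rfl fun v _ => Finset.sum_congr rfl fun u _ => by ring
  rw [e]
  ring

lemma Int_union_right {S T T' : Finset V} (h : Disjoint T T') (x : V → ℤ) :
    Int B S (T ∪ T') x = Int B S T x + Int B S T' x := by
  unfold Int
  rw [← Finset.sum_add_distrib]
  exact Finset.sum_congr rfl fun u _ => Finset.sum_union h

lemma Int_union_left {S S' T : Finset V} (h : Disjoint S S') (x : V → ℤ) :
    Int B (S ∪ S') T x = Int B S T x + Int B S' T x := by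
  unfold Int
  exact Finset.sum_union h

lemma Int_comm (S T : Finset V) (x : V → ℤ) : Int B S T x = Int B T S x := by
  unfold Int
  rw [Finset.sum_comm]
  exact Finset.sum_congr rfl fun v _ => Finset.sum_congr rfl fun u _ => by
    rw [MM_comm]; ring

lemma Int_neg (S T : Finset V) (x : V → ℤ) : Int B S T (fun v => - x v) = Int B S T x := by
  unfold Int
  exact Finset.sum_congr rfl fun v _ => Finset.sum_congr rfl fun u _ => by ring

lemma Qd_neg (S : Finset V) (x : V → ℤ) : Qd B S (fun v => - x v) = Qd B S x := by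
  unfold Qd
  exact Finset.sum_congr rfl fun v _ => Finset.sum_congr rfl fun u _ => by ring

lemma Int_sum_right (S T : Finset V) (x : V → ℤ) :
    Int B S T x = ∑ v ∈ T, Int B S {v} x := by
  unfold Int
  rw [Finset.sum_comm]
  simp

lemma Qd_indep {T : Finset V} (h0 : ∀ u v, 0 ≤ B u v) (h : ∀ u ∈ T, ∀ v ∈ T, MM B u v = 0)
    (x : V → ℤ) : Qd B T x = 0 := by
  unfold Qd
  refine Finset.sum_eq_zero fun u hu => Finset.sum_eq_zero fun v hv => ?_
  have h1 := h u hu v hv
  unfold MM at h1
  have h2 := h0 u v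
  have h3 := h0 v u
  have : B u v = 0 := by omega
  rw [this, zero_mul]

lemma Qd_single (c : V) (hB : ∀ v, B v v = 0) (x : V → ℤ) : Qd B {c} x = 0 := by
  simp [Qd, hB]

/-- adding several vertices -/
lemma Good.add {S T : Finset V} {x : V → ℤ} (hS : Good B a x S) (hd : Disjoint S T)
    (h : ∀ T' ⊆ T, DD B a x (S ∪ T') ≤ ch a (S ∪ T')) : Good B a x (S ∪ T) := by
  induction T using Finset.induction_on with
  | empty => simpa using hS
  | insert v T hv ih =>
    rw [Finset.disjoint_insert_right] at hd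
    have h1 := ih hd.2 fun T' hT' => h T' (hT'.trans (Finset.subset_insert _ _))
    have e : S ∪ insert v T = insert v (S ∪ T) := by
      rw [Finset.union_insert]
    rw [e]
    refine Good.step _ v h1 ?_ ?_
    · simp only [Finset.mem_union, not_or]
      exact ⟨hd.1, hv⟩
    · rw [← e]
      exact h _ (Finset.Subset.refl _)

lemma DD_union {S T : Finset V} (h : Disjoint S T) (x : V → ℤ) :
    DD B a x (S ∪ T) = DD B a x S + (∑ v ∈ T, (a v * x v + Int B S {v} x) + Qd B T x) := by
  unfold DD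
  rw [Finset.sum_union h, Qd_union h, Int_sum_right S T, Finset.sum_add_distrib]
  ring

lemma ch_union {S T : Finset V} (h : Disjoint S T) : ch a (S ∪ T) = ch a S + ch a T := by
  unfold ch
  exact Finset.sum_union h

lemma Qd_star (c : V) (L : Finset V) (hc : c ∉ L) (h0 : ∀ u v, 0 ≤ B u v) (hB : ∀ v, B v v = 0)
    (hL : ∀ l ∈ L, ∀ l' ∈ L, MM B l l' = 0) (x : V → ℤ) :
    Qd B (insert c L) x = ∑ l ∈ L, MM B c l * (x c * x l) := by
  have hd : Disjoint {c} L := by simpa using hc
  rw [Finset.insert_eq, Qd_union hd, Qd_single c hB, Qd_indep h0 hL]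
  simp [Int]

/-- a star can be added to a good set -/
lemma Good.star {S : Finset V} {x : V → ℤ} (hS : Good B a x S) (h0 : ∀ u v, 0 ≤ B u v)
    (hB : ∀ v, B v v = 0) (ha : ∀ v, 0 ≤ a v ∧ a v ≤ 2) (c : V) (L : Finset V) (hcS : c ∉ S)
    (hcL : c ∉ L) (hLS : Disjoint L S) (hL : L.Nonempty) (h1 : ∀ l ∈ L, 1 ≤ MM B c l)
    (h2 : ∀ l ∈ L, ∀ l' ∈ L, MM B l l' = 0) (σ : ℤ) (hσ : σ = 1 ∨ σ = -1) (hxc : x c = σ)
    (hxL : ∀ l ∈ L, x l = -σ) (hint : Int B S (insert c L) x ≤ 0) :
    Good B a x (S ∪ insert c L) ∧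
      DD B a x (S ∪ insert c L) ≤ ch a S + σ * (a c - ∑ l ∈ L, a l) - L.card := by
  classical
  have hint' : Int B S {c} x + ∑ l ∈ L, Int B S {l} x ≤ 0 := by
    rw [Int_sum_right, Finset.sum_insert hcL] at hint
    exact hint
  have hSle := hS.le
  have hLcard : (1 : ℤ) ≤ L.card := by exact_mod_cast hL.card_pos
  -- value after adding `c` and `T'`
  have hval : ∀ T' ⊆ L, DD B a x (S ∪ insert c T') =
      DD B a x S + (σ * a c + Int B S {c} x) +
        ∑ l ∈ T', (- (σ * a l) + Int B S {l} x - MM B c l) := by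
    intro T' hT'
    have hcT' : c ∉ T' := fun h => hcL (hT' h)
    have hd : Disjoint S (insert c T') := by
      rw [Finset.disjoint_insert_right]
      exact ⟨hcS, (Finset.disjoint_of_subset_left hT' hLS).symm⟩
    rw [DD_union hd, Qd_star c T' hcT' h0 hB (fun l hl l' hl' => h2 l (hT' hl) l' (hT' hl')),
      Finset.sum_insert hcT', hxc, Finset.sum_sub_distrib]
    have e1 : ∑ l ∈ T', MM B c l * (σ * x l) = - ∑ l ∈ T', MM B c l := by
      rw [← Finset.sum_neg_distrib]
      refine Finset.sum_congr rfl fun l hl => ?_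
      rw [hxL l (hT' hl)]
      rcases hσ with h | h <;> rw [h] <;> ring
    have e2 : ∑ l ∈ T', (a l * x l + Int B S {l} x) =
        ∑ l ∈ T', (- (σ * a l) + Int B S {l} x) := by
      refine Finset.sum_congr rfl fun l hl => ?_
      rw [hxL l (hT' hl)]
      ring
    rw [e1, e2]
    ring
  have hval0 : ∀ T' ⊆ L, DD B a x (S ∪ T') = DD B a x S +
      ∑ l ∈ T', (- (σ * a l) + Int B S {l} x) := by
    intro T' hT'
    have hd : Disjoint S T' := (Finset.disjoint_of_subset_left hT' hLS).symm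
    rw [DD_union hd, Qd_indep h0 (fun l hl l' hl' => h2 l (hT' hl) l' (hT' hl')), add_zero]
    congr 1
    refine Finset.sum_congr rfl fun l hl => ?_
    rw [hxL l (hT' hl)]
    ring
  have hch : ∀ T' ⊆ L, ch a (S ∪ insert c T') =
      ch a S + ((if a c = 1 then 0 else 1) + ∑ l ∈ T', if a l = 1 then 0 else 1) := by
    intro T' hT'
    have hcT' : c ∉ T' := fun h => hcL (hT' h)
    have hd : Disjoint S (insert c T') := by
      rw [Finset.disjoint_insert_right]
      exact ⟨hcS, (Finset.disjoint_of_subset_left hT' hLS).symm⟩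
    rw [ch_union hd]
    congr 1
    unfold ch
    rw [Finset.sum_insert hcT']
  have hch0 : ∀ T' ⊆ L, ch a (S ∪ T') = ch a S + ∑ l ∈ T', if a l = 1 then 0 else 1 := by
    intro T' hT'
    rw [ch_union (Finset.disjoint_of_subset_left hT' hLS).symm]
    rfl
  have hcharge0 : ∀ v, (0 : ℤ) ≤ if a v = 1 then 0 else 1 := by
    intro v; split_ifs <;> norm_num
  have hcharge1 : ∀ v, a v - 1 ≤ if a v = 1 then 0 else 1 := by
    intro v
    have := (ha v).2
    split_ifs with h
    · omega
    · omega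
  -- threshold
  obtain ⟨L1, L2, hdis, hun, hL1, hL2⟩ : ∃ L1 L2 : Finset V, Disjoint L1 L2 ∧ L1 ∪ L2 = L ∧
      (∀ l ∈ L1, 2 * Int B S {l} x + (1 - σ) ≤ 0) ∧
      (∀ l ∈ L2, 0 < 2 * Int B S {l} x + (1 - σ)) := by
    refine ⟨L.filter (fun l => 2 * Int B S {l} x + (1 - σ) ≤ 0),
      L.filter (fun l => ¬ 2 * Int B S {l} x + (1 - σ) ≤ 0),
      Finset.disjoint_filter_filter_not _ _ _, Finset.filter_union_filter_not_eq _ _, ?_, ?_⟩
    · intro l hl; exact (Finset.mem_filter.1 hl).2
    · intro l hl; exact not_le.1 (Finset.mem_filter.1 hl).2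
  have hL1L : L1 ⊆ L := by rw [← hun]; exact Finset.subset_union_left
  have hL2L : L2 ⊆ L := by rw [← hun]; exact Finset.subset_union_right
  have hsplit : ∀ f : V → ℤ, ∑ l ∈ L, f l = ∑ l ∈ L1, f l + ∑ l ∈ L2, f l := by
    intro f; rw [← hun]; exact Finset.sum_union hdis
  -- first stage
  have g1 : Good B a x (S ∪ L1) := by
    refine hS.add (Finset.disjoint_of_subset_left hL1L hLS).symm ?_
    intro T' hT'
    rw [hval0 T' (hT'.trans hL1L), hch0 T' (hT'.trans hL1L)]
    have : ∑ l ∈ T', (- (σ * a l) + Int B S {l} x) ≤ ∑ l ∈ T', if a l = 1 then 0 else 1 := by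
      refine Finset.sum_le_sum fun l hl => ?_
      have h3 := hL1 l (hT' hl)
      have h4 := hcharge1 l
      have h5 := hcharge0 l
      have h6 := (ha l).1
      rcases hσ with h | h
      · rw [h] at h3 ⊢; linarith
      · rw [h] at h3 ⊢
        have : Int B S {l} x ≤ -1 := by omega
        linarith
    linarith
  -- key inequality for `L1 ∪ T'`
  have key : ∀ T' ⊆ L2, (σ * a c + Int B S {c} x) +
      ∑ l ∈ L1 ∪ T', (- (σ * a l) + Int B S {l} x - MM B c l) ≤
      (if a c = 1 then 0 else 1) + ∑ l ∈ L1 ∪ T', if a l = 1 then 0 else 1 := by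
    intro T' hT'
    have hdT : Disjoint L1 T' := Finset.disjoint_of_subset_right hT' hdis
    have hTL : L1 ∪ T' ⊆ L := Finset.union_subset hL1L (hT'.trans hL2L)
    have hrest : ∑ l ∈ L, Int B S {l} x =
        ∑ l ∈ L1 ∪ T', Int B S {l} x + ∑ l ∈ L \ (L1 ∪ T'), Int B S {l} x := by
      rw [add_comm, Finset.sum_sdiff hTL]
    have hmem2 : ∀ l ∈ L \ (L1 ∪ T'), l ∈ L2 := by
      intro l hl
      rw [Finset.mem_sdiff, Finset.mem_union, not_or] at hl
      have h3 : l ∈ L1 ∪ L2 := by rw [hun]; exact hl.1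
      rcases Finset.mem_union.1 h3 with h4 | h4
      · exact absurd h4 hl.2.1
      · exact h4
    have hM : ∑ l ∈ L1 ∪ T', (1 : ℤ) ≤ ∑ l ∈ L1 ∪ T', MM B c l :=
      Finset.sum_le_sum fun l hl => h1 l (hTL hl)
    rw [Finset.sum_sub_distrib, Finset.sum_add_distrib, Finset.sum_neg_distrib,
      ← Finset.mul_sum]
    have hcs : ((L1 ∪ T').card : ℤ) + (L \ (L1 ∪ T')).card = L.card := by
      have := Finset.card_sdiff_add_card_eq_card hTL
      push_cast [← this]
      ring
    have hone : ∑ l ∈ L1 ∪ T', (1 : ℤ) = (L1 ∪ T').card := by simp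
    rcases hσ with h | h
    · subst h
      have h5 : ((L \ (L1 ∪ T')).card : ℤ) ≤ ∑ l ∈ L \ (L1 ∪ T'), Int B S {l} x := by
        have : ∑ l ∈ L \ (L1 ∪ T'), (1 : ℤ) ≤ ∑ l ∈ L \ (L1 ∪ T'), Int B S {l} x := by
          refine Finset.sum_le_sum fun l hl => ?_
          have := hL2 l (hmem2 l hl)
          omega
        simpa using this
      have h6 : 0 ≤ ∑ l ∈ L1 ∪ T', a l := Finset.sum_nonneg fun l _ => (ha l).1
      have h7 : 0 ≤ ∑ l ∈ L1 ∪ T', (if a l = 1 then (0 : ℤ) else 1) :=
        Finset.sum_nonneg fun l _ => hcharge0 l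
      have h8 := hcharge1 c
      linarith
    · subst h
      have h5 : 0 ≤ ∑ l ∈ L \ (L1 ∪ T'), Int B S {l} x := by
        refine Finset.sum_nonneg fun l hl => ?_
        have := hL2 l (hmem2 l hl)
        omega
      have h6 : ∑ l ∈ L1 ∪ T', (a l - 1) ≤ ∑ l ∈ L1 ∪ T', (if a l = 1 then (0 : ℤ) else 1) :=
        Finset.sum_le_sum fun l _ => hcharge1 l
      rw [Finset.sum_sub_distrib] at h6
      have h8 := hcharge0 c
      have h9 := (ha c).1
      linarith
  -- second stage
  have g2 : Good B a x (insert c (S ∪ L1)) := by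
    have e : insert c (S ∪ L1) = S ∪ insert c L1 := by rw [Finset.union_insert]
    refine Good.step _ c g1 ?_ ?_
    · simp only [Finset.mem_union, not_or]
      exact ⟨hcS, fun h => hcL (hL1L h)⟩
    · rw [e, hval L1 hL1L, hch L1 hL1L]
      have := key ∅ (Finset.empty_subset _)
      rw [Finset.union_empty] at this
      linarith
  have g3 : Good B a x (insert c (S ∪ L1) ∪ L2) := by
    refine g2.add ?_ ?_
    · rw [Finset.disjoint_insert_left, Finset.disjoint_union_left]
      exact ⟨fun h => hcL (hL2L h), (Finset.disjoint_of_subset_left hL2L hLS).symm, hdis⟩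
    · intro T' hT'
      have e : insert c (S ∪ L1) ∪ T' = S ∪ insert c (L1 ∪ T') := by
        ext v; simp only [Finset.mem_union, Finset.mem_insert]; tauto
      have hTL : L1 ∪ T' ⊆ L := Finset.union_subset hL1L (hT'.trans hL2L)
      rw [e, hval _ hTL, hch _ hTL]
      have := key T' hT'
      linarith
  have e3 : insert c (S ∪ L1) ∪ L2 = S ∪ insert c L := by
    rw [← hun]
    ext v; simp only [Finset.mem_union, Finset.mem_insert]; tauto
  rw [e3] at g3
  refine ⟨g3, ?_⟩
  rw [hval L (Finset.Subset.refl _), Finset.sum_sub_distrib, Finset.sum_add_distrib,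
    Finset.sum_neg_distrib, ← Finset.mul_sum]
  have hM : ∑ l ∈ L, (1 : ℤ) ≤ ∑ l ∈ L, MM B c l :=
    Finset.sum_le_sum fun l hl => h1 l hl
  rw [Finset.sum_const, nsmul_eq_mul, mul_one] at hM
  linarith

end Pool.Agent.Exact
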