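import Pool.Agent.Lib_helper68.Exact.Arcs

/-!
# Arcs from bad components
-/

set_option autoImplicit false
set_option linter.unusedSectionVars false

namespace Pool.Agent.Exact

open Finset

variable {V : Type*} [Fintype V] [DecidableEq V]
variable {B : V → V → ℤ} {Rl : Finset V}
variable {R Rs S : Finset V} {g : ℤ} {Kc : V → Finset V} {pick : Finset V → V}

/-- an arc from a bad component stays in the component or leaves `R` -/
lemma Dec.rowK (hd : Dec B pick R Rs S g Kc) (h0 : ∀ u v, 0 ≤ B u v)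
    (hdum : ∀ v, v ∉ Rl → ∀ u, B u v = 0 ∧ B v u = 0) {W : Finset V} (hW : W ∪ R = Rl)
    (hdj : Disjoint W R) {v : V} (hv : v ∈ S) {u : V} (hu : u ∈ Kc v) :
    ∑ w, B u w = ∑ w ∈ W, B u w + ∑ w ∈ Kc v, B u w := by
  classical
  have hK := (hd.bad v hv).1.cl
  have hKR := hK.1
  rw [row_real hdum, ← hW, Finset.sum_union hdj]
  congr 1
  refine (Finset.sum_subset hKR ?_).symm
  intro w hw hw'
  exact (hK.zero h0 hu hw hw').1

/-- **Arcs from a bad component to a set of vertices.** -/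
lemma Dec.outK (hd : Dec B pick R Rs S g Kc) (h0 : ∀ u v, 0 ≤ B u v) (h1 : ∀ u v, B u v ≤ 1)
    (hB : ∀ v, B v v = 0) (hdum : ∀ v, v ∉ Rl → ∀ u, B u v = 0 ∧ B v u = 0) {k : ℤ}
    (hdeg : ∀ v ∈ Rl, k ≤ ∑ u, B v u) {O I : Finset V} (hOI : Disjoint O I)
    (hW : (O ∪ I) ∪ R = Rl) (hdj : Disjoint (O ∪ I) R) (hk : (I.card : ℤ) ≤ k) {v : V}
    (hv : v ∈ S) :
    2 * (k - I.card) ≤ 2 * ar B (Kc v) O + ((Kc v).card - 1) := by
  classical
  have hKR := (hd.bad v hv).1.cl.1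
  have hsimple := (hd.bad v hv).1.simple
  have e3 := EE_le_of_simple hB hsimple
  have hn1 : (1 : ℤ) ≤ (Kc v).card := by
    exact_mod_cast Finset.card_pos.2 ⟨v, (hd.bad v hv).2.1⟩
  have e0 : 0 ≤ ar B (Kc v) O := ar_nn h0 _ _
  have e1 : k * (Kc v).card ≤ ar B (Kc v) O + ar B (Kc v) I + EE B (Kc v) := by
    have h2 : ∑ _u ∈ Kc v, k ≤ ∑ u ∈ Kc v, ∑ w, B u w := by
      refine Finset.sum_le_sum fun u hu => hdeg u ?_
      rw [← hW]
      exact Finset.mem_union_right _ (hKR hu)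
    rw [Finset.sum_const, nsmul_eq_mul,
      Finset.sum_congr rfl fun u hu => hd.rowK h0 hdum hW hdj hv hu,
      Finset.sum_add_distrib] at h2
    have h3 : ∑ u ∈ Kc v, ∑ w ∈ O ∪ I, B u w = ar B (Kc v) O + ar B (Kc v) I := by
      rw [← ar_unR hOI]
      rfl
    rw [h3] at h2
    unfold EE
    linarith
  have e2 : ar B (Kc v) I ≤ (Kc v).card * I.card := ar_le h1 _ _
  set n : ℤ := ((Kc v).card : ℤ) with hn
  set j : ℤ := k - I.card with hj
  have hj0 : 0 ≤ j := by linarith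
  have e4 : 2 * (n * j) ≤ 2 * ar B (Kc v) O + n * (n - 1) := by
    have : n * j = k * n - n * I.card := by rw [hj]; ring
    rw [this]
    linarith
  rcases le_or_gt n (2 * j) with h5 | h5
  · nlinarith [mul_nonneg (by linarith : (0 : ℤ) ≤ n - 1) (by linarith : (0 : ℤ) ≤ 2 * j - n)]
  · linarith

/-- **Arcs from `R` to a set of vertices.** -/
lemma Dec.outR (hd : Dec B pick R Rs S g Kc) (h0 : ∀ u v, 0 ≤ B u v) (h1 : ∀ u v, B u v ≤ 1)
    (hB : ∀ v, B v v = 0) (hdum : ∀ v, v ∉ Rl → ∀ u, B u v = 0 ∧ B v u = 0) {k : ℤ}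
    (hdeg : ∀ v ∈ Rl, k ≤ ∑ u, B v u) {O I : Finset V} (hOI : Disjoint O I)
    (hW : (O ∪ I) ∪ R = Rl) (hdj : Disjoint (O ∪ I) R) (hk : (I.card : ℤ) ≤ k) :
    2 * ((k - I.card) * S.card) ≤ 2 * ar B R O + Rs.card := by
  classical
  have h2 : ∑ v ∈ S, 2 * (k - (I.card : ℤ)) ≤
      ∑ v ∈ S, (2 * ar B (Kc v) O + ((Kc v).card - 1)) :=
    Finset.sum_le_sum fun v hv => hd.outK h0 h1 hB hdum hdeg hOI hW hdj hk hv
  rw [Finset.sum_const, nsmul_eq_mul, Finset.sum_add_distrib, ← Finset.mul_sum] at h2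
  have h3 := hd.sizes
  have h4 : ∑ v ∈ S, ar B (Kc v) O ≤ ar B R O := by
    have hpd : (S : Set V).PairwiseDisjoint Kc := fun u hu v hv huv => hd.kd u hu v hv huv
    have : ∑ v ∈ S, ar B (Kc v) O = ar B (S.biUnion Kc) O := by
      unfold ar
      rw [Finset.sum_biUnion hpd]
    rw [this]
    refine ar_monoL h0 ?_ _
    intro x hx
    rw [Finset.mem_biUnion] at hx
    obtain ⟨v, hv, hx⟩ := hx
    exact (hd.bad v hv).1.cl.1 hx
  linarith

lemma BlocksN.tr {N S : Finset V} {g : ℤ} (h : BlocksN B N S g) : BlocksN (Tr B) N S g := by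
  induction h with
  | empty => exact BlocksN.empty
  | star S g c L hS hcS hcL hLS hL h1 h2 h3 ih =>
    have e : ∑ l ∈ L, MM B c l = ∑ l ∈ L, MM (Tr B) c l :=
      Finset.sum_congr rfl fun l _ => by rw [MM_Tr]
    rw [e]
    refine BlocksN.star S g c L ih hcS hcL hLS hL ?_ ?_ ?_
    · intro l hl; rw [MM_Tr]; exact h1 l hl
    · intro l hl l' hl'; rw [MM_Tr]; exact h2 l hl l' hl'
    · intro z hz
      rw [MM_Tr, h3 z hz]
      exact Finset.sum_congr rfl fun l _ => by rw [MM_Tr]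
  | hole S g u v w hS hu hv hw huv huw hvw h1 h2 ih =>
    rw [← MM_Tr (B := B) u v]
    refine BlocksN.hole S g u v w ih hu hv hw huv huw hvw ?_ ?_
    · rw [MM_Tr]; exact h1
    · intro z hz
      rw [MM_Tr, MM_Tr, MM_Tr]
      exact h2 z hz

/-- the decomposition for the transposed digraph -/
lemma Dec.swap (hd : Dec B pick R Rs S g Kc) : Dec (Tr B) pick R Rs S g Kc := by
  have hA : Adj (Tr B) = Adj B := by
    funext u v
    unfold Adj
    rw [MM_Tr]
  refine ⟨hd.un, hd.dj, hd.cg, hd.g0, ?_, ?_, hd.kd, hd.bl.tr⟩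
  · intro u hu v hv
    rw [MM_Tr]
    exact hd.ind u hu v hv
  · intro v hv
    obtain ⟨hb, h2, h3, h4⟩ := hd.bad v hv
    refine ⟨⟨⟨hb.cl.1, fun u hu w hw => ?_⟩, ?_, ?_, ?_, ?_⟩, h2, h3, h4⟩
    · rw [MM_Tr]; exact hb.cl.2 u hu w hw
    · rw [hA]; exact hb.conn
    · rw [hA]; exact hb.ns
    · rw [hA]; exact hb.pm
    · intro u hu w hw
      rw [MM_Tr]; exact hb.simple u hu w hw

end Pool.Agent.Exact
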