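import Pool.Agent.Lib_helper68.Exact.Realise

/-!
# The gain of block structures
-/

set_option autoImplicit false
set_option linter.unusedSectionVars false

namespace Pool.Agent.Exact

open Finset

variable {V : Type*} [DecidableEq V] {B : V → V → ℤ}

/-- adjacency -/
def Adj (B : V → V → ℤ) (u v : V) : Prop := 1 ≤ MM B u v

lemma Adj.symm {u v : V} (h : Adj B u v) : Adj B v u := by
  unfold Adj at *
  rwa [MM_comm]

lemma adj_irrefl (hB : ∀ v, B v v = 0) (v : V) : ¬ Adj B v v := by
  unfold Adj MM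
  rw [hB]
  norm_num

lemma sc_blocks (h0 : ∀ u v, 0 ≤ B u v) {S : Finset V} (h : StarCover (Adj B) S) :
    ∃ g, Blocks B S g ∧ (S.card : ℤ) ≤ 2 * g := by
  induction h with
  | empty => exact ⟨0, Blocks.empty, by simp⟩
  | cons S c L hS hcS hcL hLS hL h1 h2 ih =>
    obtain ⟨g, hg, hc⟩ := ih
    refine ⟨_, Blocks.star S g c L hg hcS hcL hLS hL h1 ?_, ?_⟩
    · intro l hl l' hl'
      have h3 := h2 l hl l' hl'
      unfold Adj at h3
      have h4 : 0 ≤ MM B l l' := by
        unfold MM; linarith [h0 l l', h0 l' l]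
      omega
    · have hd : Disjoint S (insert c L) := by
        rw [Finset.disjoint_insert_right]
        exact ⟨hcS, hLS.symm⟩
      rw [Finset.card_union_of_disjoint hd, Finset.card_insert_of_notMem hcL]
      have h3 : ∑ l ∈ L, (1 : ℤ) ≤ ∑ l ∈ L, MM B c l := Finset.sum_le_sum fun l hl => h1 l hl
      rw [Finset.sum_const, nsmul_eq_mul, mul_one] at h3
      have h4 : (1 : ℤ) ≤ L.card := by exact_mod_cast hL.card_pos
      push_cast
      linarith

lemma hole_blocks (h0 : ∀ u v, 0 ≤ B u v) (hB : ∀ v, B v v = 0) {S : Finset V}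
    (hS : ∀ v ∈ S, PMatch (Adj B) (S.erase v)) (h2 : 2 ≤ S.card) :
    (∃ g, Blocks B S g ∧ (S.card : ℤ) ≤ 2 * g + 1) ∧
      ∀ u ∈ S, ∀ v ∈ S, 2 ≤ MM B u v → ∃ g, Blocks B S g ∧ (S.card : ℤ) + 1 ≤ 2 * g := by
  have hsym : ∀ x y, Adj B x y → Adj B y x := fun x y h => h.symm
  have hirr := adj_irrefl hB
  constructor
  · obtain ⟨w, hw⟩ : S.Nonempty := Finset.card_pos.1 (by omega)
    obtain ⟨y, hy⟩ : (S.erase w).Nonempty := by
      apply Finset.card_pos.1
      rw [Finset.card_erase_of_mem hw]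
      omega
    obtain ⟨T, z, hT, hyT, hzT, hyz, hadj, he⟩ := (hS w hw).exists_pair hsym hy
    obtain ⟨g, hg, hc⟩ := sc_blocks h0 (hT.starCover hirr)
    have hwe : w ∉ T ∪ {y, z} := by
      rw [← he]; exact Finset.notMem_erase _ _
    have hw1 : w ∉ T := fun h => hwe (by simp [h])
    have hw2 : y ≠ w := fun h => hwe (by simp [h])
    have hw3 : z ≠ w := fun h => hwe (by simp [h])
    have hSe : S = insert w (T ∪ {y, z}) := by
      rw [← he, Finset.insert_erase hw]
    refine ⟨g + MM B y z, ?_, ?_⟩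
    · rw [hSe]
      exact Blocks.hole T g y z w hg hyT hzT hw1 hyz hw2 hw3 hadj
    · have hcard : S.card = T.card + 3 := by
        rw [hSe, Finset.card_insert_of_notMem hwe, Finset.card_union_of_disjoint,
          Finset.card_pair hyz]
        rw [Finset.disjoint_right]
        intro x hx
        simp only [Finset.mem_insert, Finset.mem_singleton] at hx
        rcases hx with rfl | rfl
        · exact hyT
        · exact hzT
      rw [hcard]
      unfold Adj at hadj
      push_cast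
      linarith
  · intro u hu v hv huv2
    have huv : u ≠ v := by
      rintro rfl
      unfold MM at huv2
      rw [hB] at huv2
      norm_num at huv2
    obtain ⟨T, z, hT, hvT, hzT, hvz, hadj, he⟩ :=
      (hS u hu).exists_pair hsym (y := v) (Finset.mem_erase.2 ⟨huv.symm, hv⟩)
    obtain ⟨g, hg, hc⟩ := sc_blocks h0 (hT.starCover hirr)
    have hue : u ∉ T ∪ {v, z} := by
      rw [← he]; exact Finset.notMem_erase _ _
    have hu1 : u ∉ T := fun h => hue (by simp [h])
    have hu3 : u ≠ z := fun h => hue (by simp [h])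
    have hSe : S = insert z (T ∪ {u, v}) := by
      rw [← Finset.insert_erase hu, he]
      ext x
      simp only [Finset.mem_insert, Finset.mem_union, Finset.mem_singleton]
      tauto
    refine ⟨g + MM B u v, ?_, ?_⟩
    · rw [hSe]
      exact Blocks.hole T g u v z hg hu1 hvT hzT huv hu3 hvz (by linarith)
    · have hzm : z ∉ T ∪ {u, v} := by
        simp only [Finset.mem_union, Finset.mem_insert, Finset.mem_singleton, not_or]
        exact ⟨hzT, hu3.symm, hvz.symm⟩
      have hcard : S.card = T.card + 3 := by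
        rw [hSe, Finset.card_insert_of_notMem hzm, Finset.card_union_of_disjoint,
          Finset.card_pair huv]
        rw [Finset.disjoint_right]
        intro x hx
        simp only [Finset.mem_insert, Finset.mem_singleton] at hx
        rcases hx with rfl | rfl
        · exact hu1
        · exact hvT
      rw [hcard]
      push_cast
      linarith

/-- number of arcs inside -/
def EE (B : V → V → ℤ) (K : Finset V) : ℤ := ∑ u ∈ K, ∑ v ∈ K, B u v

lemma two_EE (K : Finset V) : 2 * EE B K = ∑ u ∈ K, ∑ v ∈ K, MM B u v := by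
  unfold EE MM
  have : ∑ u ∈ K, ∑ v ∈ K, B v u = ∑ u ∈ K, ∑ v ∈ K, B u v := Finset.sum_comm
  simp only [Finset.sum_add_distrib]
  rw [this]
  ring

lemma EE_le_of_simple (hB : ∀ v, B v v = 0) {K : Finset V}
    (h : ∀ u ∈ K, ∀ v ∈ K, MM B u v ≤ 1) : 2 * EE B K ≤ K.card * (K.card - 1) := by
  rw [two_EE]
  have h1 : ∀ u ∈ K, ∑ v ∈ K, MM B u v ≤ (K.card : ℤ) - 1 := by
    intro u hu
    rw [← Finset.add_sum_erase K _ hu]
    have h2 : MM B u u = 0 := by unfold MM; rw [hB]; norm_num
    have h3 : ∑ v ∈ K.erase u, MM B u v ≤ ∑ v ∈ K.erase u, (1 : ℤ) :=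
      Finset.sum_le_sum fun v hv => h u hu v (Finset.mem_of_mem_erase hv)
    rw [Finset.sum_const, nsmul_eq_mul, mul_one, Finset.card_erase_of_mem hu] at h3
    have h4 : 1 ≤ K.card := Finset.card_pos.2 ⟨u, hu⟩
    push_cast [Nat.cast_sub h4] at h3
    linarith
  calc ∑ u ∈ K, ∑ v ∈ K, MM B u v ≤ ∑ u ∈ K, ((K.card : ℤ) - 1) := Finset.sum_le_sum h1
    _ = K.card * (K.card - 1) := by rw [Finset.sum_const, nsmul_eq_mul]

/-- the gain of a connected set -/
lemma conn_gain (h0 : ∀ u v, 0 ≤ B u v) (h1 : ∀ u v, B u v ≤ 1) (hB : ∀ v, B v v = 0) (h : V)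
    (k : ℤ) (hk : 2 ≤ k) {K : Finset V} (hK : Conn (Adj B) K) (hne : K.Nonempty)
    (hdeg : k * K.card ≤ EE B K + ∑ v ∈ K, B v h ∨ k * K.card ≤ EE B K + ∑ v ∈ K, B h v) :
    ∃ g, Blocks B K g ∧ (2 * k - 1) * (∑ v ∈ K, B v h - ∑ v ∈ K, B h v) -
      (EE B K + ∑ v ∈ K, B v h + ∑ v ∈ K, B h v) ≤ (2 * k - 1) * g := by
  set i : ℤ := ∑ v ∈ K, B v h with hi
  set o : ℤ := ∑ v ∈ K, B h v with ho
  set E : ℤ := EE B K with hE
  have hc1 : (1 : ℤ) ≤ K.card := by exact_mod_cast hne.card_pos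
  have hi0 : 0 ≤ i := Finset.sum_nonneg fun v _ => h0 _ _
  have ho0 : 0 ≤ o := Finset.sum_nonneg fun v _ => h0 _ _
  have hi1 : i ≤ K.card := by
    have : i ≤ ∑ v ∈ K, (1 : ℤ) := Finset.sum_le_sum fun v _ => h1 _ _
    simpa using this
  have ho1 : o ≤ K.card := by
    have : o ≤ ∑ v ∈ K, (1 : ℤ) := Finset.sum_le_sum fun v _ => h1 _ _
    simpa using this
  -- requirement
  have hreq : 2 * ((2 * k - 1) * (i - o) - (E + i + o)) ≤ (2 * k - 2) * K.card := by
    have e1 : (2 * k - 1) * i ≤ (2 * k - 1) * K.card :=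
      mul_le_mul_of_nonneg_left hi1 (by linarith)
    have e2 : 0 ≤ (2 * k - 1) * o := mul_nonneg (by linarith) ho0
    have e3 : o ≤ (2 * k - 1) * o := by nlinarith
    rcases hdeg with hd | hd
    · nlinarith
    · nlinarith
  have hcard2 : 2 ≤ K.card := by
    by_contra hcon
    have h3 : K.card = 1 := by
      have := hne.card_pos
      omega
    obtain ⟨v, hv⟩ := Finset.card_eq_one.1 h3
    have hE0 : E = 0 := by
      rw [hE, hv]; simp [EE, hB]
    rw [hE0, h3] at hdeg
    rw [h3] at hi1 ho1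
    push_cast at hdeg hi1 ho1
    rcases hdeg with hd | hd <;> linarith
  rcases starCover_or_pmatch (G := Adj B) (fun x y h => h.symm) (adj_irrefl hB) hK with hs | hs
  · obtain ⟨g, hg, hc⟩ := sc_blocks h0 hs
    refine ⟨g, hg, ?_⟩
    nlinarith
  · obtain ⟨⟨g, hg, hc⟩, hdouble⟩ := hole_blocks h0 hB hs hcard2
    by_cases hbig : 2 * k - 1 ≤ (K.card : ℤ)
    · refine ⟨g, hg, ?_⟩
      nlinarith
    · by_cases hsimple : ∀ u ∈ K, ∀ v ∈ K, MM B u v ≤ 1
      · exfalso
        have h3 := EE_le_of_simple hB hsimple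
        rw [← hE] at h3
        push Not at hbig
        have h4 : k * K.card ≤ E + K.card := by
          rcases hdeg with hd | hd <;> linarith
        have h5 : (K.card : ℤ) * (2 * k) ≤ K.card * (K.card + 1) := by nlinarith
        have h6 : 2 * k ≤ (K.card : ℤ) + 1 := le_of_mul_le_mul_left h5 (by linarith)
        linarith
      · push Not at hsimple
        obtain ⟨u, hu, v, hv, huv⟩ := hsimple
        obtain ⟨g, hg, hc⟩ := hdouble u hu v hv (by linarith)
        refine ⟨g, hg, ?_⟩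
        nlinarith

/-- `K` is a union of components of `S` -/
def ClosedIn (B : V → V → ℤ) (S K : Finset V) : Prop :=
  K ⊆ S ∧ ∀ u ∈ K, ∀ v ∈ S \ K, MM B u v = 0

lemma exists_conn_closed (h0 : ∀ u v, 0 ≤ B u v) {S : Finset V} (hS : S.Nonempty) :
    ∃ K, K.Nonempty ∧ ClosedIn B S K ∧ Conn (Adj B) K := by
  classical
  set F := S.powerset.filter (fun K => K.Nonempty ∧ ClosedIn B S K) with hF
  have hFne : F.Nonempty := by
    refine ⟨S, ?_⟩
    rw [hF, Finset.mem_filter, Finset.mem_powerset]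
    refine ⟨Finset.Subset.refl _, hS, Finset.Subset.refl _, ?_⟩
    intro u _ v hv
    simp at hv
  obtain ⟨K, hKF, hmin⟩ := Finset.exists_min_image F Finset.card hFne
  rw [hF, Finset.mem_filter, Finset.mem_powerset] at hKF
  obtain ⟨hKS, hKne, hKcl⟩ := hKF
  refine ⟨K, hKne, hKcl, ?_⟩
  intro T hTK hTne hTne'
  by_contra hcon
  push Not at hcon
  have hTcl : ClosedIn B S T := by
    refine ⟨hTK.trans hKS, ?_⟩
    intro u hu v hv
    rw [Finset.mem_sdiff] at hv
    by_cases hvK : v ∈ K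
    · have h3 := hcon u hu v (Finset.mem_sdiff.2 ⟨hvK, hv.2⟩)
      unfold Adj at h3
      have h4 : 0 ≤ MM B u v := by unfold MM; linarith [h0 u v, h0 v u]
      omega
    · exact hKcl.2 u (hTK hu) v (Finset.mem_sdiff.2 ⟨hv.1, hvK⟩)
  have hTF : T ∈ F := by
    rw [hF, Finset.mem_filter, Finset.mem_powerset]
    exact ⟨hTK.trans hKS, hTne, hTcl⟩
  have h5 := hmin T hTF
  exact hTne' (Finset.eq_of_subset_of_card_le hTK h5)

lemma EE_union {S T : Finset V} (hd : Disjoint S T) (h0 : ∀ u v, 0 ≤ B u v)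
    (h : ∀ u ∈ S, ∀ v ∈ T, MM B u v = 0) : EE B (S ∪ T) = EE B S + EE B T := by
  have hz : ∀ u ∈ S, ∀ v ∈ T, B u v = 0 ∧ B v u = 0 := by
    intro u hu v hv
    have h3 := h u hu v hv
    unfold MM at h3
    have := h0 u v
    have := h0 v u
    constructor <;> omega
  unfold EE
  rw [Finset.sum_union hd]
  congr 1
  · refine Finset.sum_congr rfl fun u hu => ?_
    rw [Finset.sum_union hd]
    have : ∑ v ∈ T, B u v = 0 := Finset.sum_eq_zero fun v hv => (hz u hu v hv).1
    rw [this, add_zero]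
  · refine Finset.sum_congr rfl fun u hu => ?_
    rw [Finset.sum_union hd]
    have : ∑ v ∈ S, B u v = 0 := Finset.sum_eq_zero fun v hv => (hz v hv u hu).2
    rw [this, zero_add]

/-- the total gain -/
theorem gain_all (h0 : ∀ u v, 0 ≤ B u v) (h1 : ∀ u v, B u v ≤ 1) (hB : ∀ v, B v v = 0) (h : V)
    (k : ℤ) (hk : 2 ≤ k) : ∀ (n : ℕ) (S : Finset V), S.card = n →
    (∀ K, ClosedIn B S K → k * K.card ≤ EE B K + ∑ v ∈ K, B v h ∨
      k * K.card ≤ EE B K + ∑ v ∈ K, B h v) →
    ∃ g, Blocks B S g ∧ (2 * k - 1) * (∑ v ∈ S, B v h - ∑ v ∈ S, B h v) -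
      (EE B S + ∑ v ∈ S, B v h + ∑ v ∈ S, B h v) ≤ (2 * k - 1) * g := by
  intro n
  induction n using Nat.strong_induction_on with
  | _ n ih =>
    intro S hSn hdeg
    rcases S.eq_empty_or_nonempty with rfl | hS
    · exact ⟨0, Blocks.empty, by simp [EE]⟩
    · obtain ⟨K, hKne, hKcl, hKconn⟩ := exists_conn_closed h0 hS
      obtain ⟨g1, hg1, hr1⟩ := conn_gain h0 h1 hB h k hk hKconn hKne (hdeg K hKcl)
      have hlt : (S \ K).card < n := by
        rw [← hSn, Finset.card_sdiff_of_subset hKcl.1]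
        have := hKne.card_pos
        have := Finset.card_le_card hKcl.1
        omega
      obtain ⟨g2, hg2, hr2⟩ := ih _ hlt (S \ K) rfl (by
        intro K' hK'
        apply hdeg
        refine ⟨hK'.1.trans Finset.sdiff_subset, ?_⟩
        intro u hu v hv
        rw [Finset.mem_sdiff] at hv
        by_cases hvK : v ∈ K
        · rw [MM_comm]
          exact hKcl.2 v hvK u (hK'.1 hu)
        · exact hK'.2 u hu v (by simp [hv.1, hv.2, hvK]))
      have hd : Disjoint K (S \ K) := Finset.disjoint_sdiff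
      have he : K ∪ (S \ K) = S := Finset.union_sdiff_of_subset hKcl.1
      refine ⟨g1 + g2, ?_, ?_⟩
      · have := hg1.union hg2 hd
        rwa [he] at this
      · have hEu := EE_union hd h0 hKcl.2
        rw [he] at hEu
        have hs1 : ∑ v ∈ S, B v h = ∑ v ∈ K, B v h + ∑ v ∈ S \ K, B v h := by
          rw [← Finset.sum_union hd, he]
        have hs2 : ∑ v ∈ S, B h v = ∑ v ∈ K, B h v + ∑ v ∈ S \ K, B h v := by
          rw [← Finset.sum_union hd, he]
        rw [hEu, hs1, hs2]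
        linarith

end Pool.Agent.Exact
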