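import Pool.Agent.Lib_helper68.Exact.Frame
import Pool.Agent.Lib_helper68.Exact.Gain

/-!
# One dominating vertex
-/

set_option autoImplicit false
set_option linter.unusedSectionVars false

namespace Pool.Agent.Exact

open Finset

variable {V : Type*} [Fintype V] [DecidableEq V] {B : V → V → ℤ}

lemma MM_range (h0 : ∀ u v, 0 ≤ B u v) (h1 : ∀ u v, B u v ≤ 1) (u v : V) :
    0 ≤ MM B u v ∧ MM B u v ≤ 2 := by
  unfold MM
  constructor <;> linarith [h0 u v, h0 v u, h1 u v, h1 v u]

/-- tail of both types -/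
theorem tail (h0 : ∀ u v, 0 ≤ B u v) (s : V → ℤ) (S : Finset V) (β : ℤ) (hβ : 0 ≤ β)
    (hs : ∀ v ∈ S, |s v| ≤ β) :
    ∃ (M : ℤ) (l : List ℝ), Pairs B s S M l ∧ M ≤ 0 ∧
      ∀ c, NS l c ≤ max (max |c| β) ((|c| + 2 * β) / 2) := by
  obtain ⟨M1, l1, hp1, hM1, hl1, hs1⟩ := tail_pos h0 s _ (S.filter fun v => 0 ≤ s v) β rfl hβ
    (by
      intro v hv
      rw [Finset.mem_filter] at hv
      exact ⟨hv.2, (le_abs_self _).trans (hs v hv.1)⟩)
  obtain ⟨M2, l2, hp2, hM2, hl2, hs2⟩ := tail_pos h0 (fun v => - s v) _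
    (S.filter fun v => ¬ 0 ≤ s v) β rfl hβ (by
      intro v hv
      rw [Finset.mem_filter] at hv
      exact ⟨by linarith [not_le.1 hv.2], (neg_le_abs _).trans (hs v hv.1)⟩)
  have hp := hp1.union hp2.neg (Finset.disjoint_filter_filter_not _ _ _)
  rw [Finset.filter_union_filter_not_eq] at hp
  refine ⟨M1 + M2, _, hp, by linarith, ?_⟩
  intro c
  -- replace by the list of absolute values
  have key : ∀ (l l' : List ℝ) (c : ℝ), NS (l'.map (fun d => -d) ++ l) c = NS (l' ++ l) c := by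
    intro l l'
    induction l' with
    | nil => intro c; rfl
    | cons d l' ih =>
      intro c
      simp only [List.map_cons, List.cons_append, NS, ih]
      rw [show c - -d = c + d by ring, show c + -d = c - d by ring, add_comm]
  rw [key]
  have hmem : ∀ d ∈ l2 ++ l1, 0 ≤ d ∧ d ≤ (β : ℝ) := by
    intro d hd
    rcases List.mem_append.1 hd with hd | hd
    · exact ⟨hl2 d hd, (List.single_le_sum hl2 d hd).trans hs2⟩
    · exact ⟨hl1 d hd, (List.single_le_sum hl1 d hd).trans hs1⟩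
  have h3 := NS_le (β : ℝ) (by exact_mod_cast hβ) (l2 ++ l1) hmem c
  refine h3.trans (max_le_max le_rfl ?_)
  rw [List.sum_append]
  linarith

/-- the number of vertices with one arc from or to `h` -/
lemma ch_add_le (h0 : ∀ u v, 0 ≤ B u v) (h1 : ∀ u v, B u v ≤ 1) (h : V) (S : Finset V) :
    (∑ v ∈ S, (B v h - B h v)) + ch (MM B h) S ≤ S.card := by
  unfold ch
  rw [← Finset.sum_add_distrib]
  calc ∑ v ∈ S, (B v h - B h v + if MM B h v = 1 then 0 else 1) ≤ ∑ v ∈ S, (1 : ℤ) := by
        refine Finset.sum_le_sum fun v _ => ?_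
        have := h0 v h
        have := h0 h v
        have := h1 v h
        have := h1 h v
        unfold MM
        split_ifs <;> omega
    _ = S.card := by simp

lemma im_eq (hB : ∀ v, B v v = 0) (h : V) :
    im B h = - ∑ v ∈ univ.erase h, (B v h - B h v) := by
  unfold im
  rw [Finset.sum_sub_distrib, ← Finset.add_sum_erase univ (fun u => B h u) (Finset.mem_univ h),
    ← Finset.add_sum_erase univ (fun u => B u h) (Finset.mem_univ h), hB]
  ring

/-- all arcs -/
def mm (B : V → V → ℤ) : ℤ := ∑ u, ∑ v, B u v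

lemma mm_eq (hB : ∀ v, B v v = 0) (h : V) :
    mm B = EE B (univ.erase h) + ∑ v ∈ univ.erase h, B v h + ∑ v ∈ univ.erase h, B h v := by
  unfold mm EE
  rw [← Finset.add_sum_erase univ _ (Finset.mem_univ h),
    ← Finset.add_sum_erase univ (fun v => B h v) (Finset.mem_univ h), hB]
  have : ∀ u ∈ univ.erase h, ∑ v, B u v = B u h + ∑ v ∈ univ.erase h, B u v := by
    intro u _
    rw [← Finset.add_sum_erase univ _ (Finset.mem_univ h)]
  rw [Finset.sum_congr rfl this, Finset.sum_add_distrib]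
  ring

lemma closed_out (h0 : ∀ u v, 0 ≤ B u v) (h : V) {K : Finset V}
    (hK : ClosedIn B (univ.erase h) K) : ∑ v ∈ K, ∑ u, B v u = EE B K + ∑ v ∈ K, B v h := by
  unfold EE
  rw [← Finset.sum_add_distrib]
  refine Finset.sum_congr rfl fun v hv => ?_
  rw [← Finset.add_sum_erase univ _ (Finset.mem_univ h), add_comm]
  congr 1
  refine (Finset.sum_subset hK.1 ?_).symm
  intro u hu huK
  have h3 := hK.2 v hv u (Finset.mem_sdiff.2 ⟨hu, huK⟩)
  unfold MM at h3
  have := h0 v u
  have := h0 u v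
  omega

lemma closed_in (h0 : ∀ u v, 0 ≤ B u v) (h : V) {K : Finset V}
    (hK : ClosedIn B (univ.erase h) K) : ∑ v ∈ K, ∑ u, B u v = EE B K + ∑ v ∈ K, B h v := by
  have e : EE B K = ∑ v ∈ K, ∑ u ∈ K, B u v := by
    unfold EE; rw [Finset.sum_comm]
  rw [e, ← Finset.sum_add_distrib]
  refine Finset.sum_congr rfl fun v hv => ?_
  rw [← Finset.add_sum_erase univ _ (Finset.mem_univ h), add_comm]
  congr 1
  refine (Finset.sum_subset hK.1 ?_).symm
  intro u hu huK
  have h3 := hK.2 v hv u (Finset.mem_sdiff.2 ⟨hu, huK⟩)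
  unfold MM at h3
  have := h0 v u
  have := h0 u v
  omega

/-- **Single hub.** -/
theorem single (h0 : ∀ u v, 0 ≤ B u v) (h1 : ∀ u v, B u v ≤ 1) (hB : ∀ v, B v v = 0) (k : ℤ)
    (hk : 2 ≤ k) (hdeg : (∀ v, k ≤ ∑ u, B v u) ∨ ∀ v, k ≤ ∑ u, B u v) (h : V)
    (hb : im B h < 0) (β : ℤ) (hβ0 : 0 ≤ β) (hβ : ∀ v, v ≠ h → |im B v| ≤ β)
    (hcond : (2 * k - 1) * (4 * ((Fintype.card V : ℤ) - 1 + im B h) + 5 * β) ≤ 4 * mm B) :
    Val B ((mm B : ℝ) / (2 * k - 1)) := by
  set U := (univ : Finset V).erase h with hU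
  have hkR : (2 : ℝ) ≤ k := by exact_mod_cast hk
  have hN : (0 : ℝ) < 2 * k - 1 := by linarith
  obtain ⟨g, hg, hreq⟩ := gain_all h0 h1 hB h k hk U.card U rfl (by
    intro K hK
    rcases hdeg with hd | hd
    · left
      rw [← closed_out h0 h hK]
      calc k * (K.card : ℤ) = ∑ v ∈ K, k := by rw [Finset.sum_const, nsmul_eq_mul, mul_comm]
        _ ≤ _ := Finset.sum_le_sum fun v _ => hd v
    · right
      rw [← closed_in h0 h hK]
      calc k * (K.card : ℤ) = ∑ v ∈ K, k := by rw [Finset.sum_const, nsmul_eq_mul, mul_comm]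
        _ ≤ _ := Finset.sum_le_sum fun v _ => hd v)
  have him := im_eq hB h
  rw [← hU, Finset.sum_sub_distrib] at him
  have hm := mm_eq hB h
  rw [← hU] at hm
  have hreq' : (2 * k - 1) * (- im B h) - mm B ≤ (2 * k - 1) * g := by
    rw [him, hm]
    linarith
  obtain ⟨x, hx, hq, hg1, hg2⟩ := hg.realise h0 hB (MM_range h0 h1 h)
  -- choose the global sign
  obtain ⟨y, hy, hqy, hgy, hw⟩ : ∃ y : V → ℤ, (∀ v, y v = 1 ∨ y v = -1) ∧ Qd B U y ≤ -g ∧
      Good B (MM B h) y U ∧ 0 ≤ ∑ v ∈ U, (im B v - MM B h v) * y v := by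
    rcases le_total 0 (∑ v ∈ U, (im B v - MM B h v) * x v) with h3 | h3
    · exact ⟨x, hx, hq, hg1, h3⟩
    · refine ⟨fun v => - x v, ?_, ?_, hg2, ?_⟩
      · intro v; show - x v = 1 ∨ - x v = -1; rcases hx v with h | h <;> rw [h] <;> norm_num
      · rw [Qd_neg]; exact hq
      · have : ∑ v ∈ U, (im B v - MM B h v) * -x v = - ∑ v ∈ U, (im B v - MM B h v) * x v := by
          rw [← Finset.sum_neg_distrib]
          exact Finset.sum_congr rfl fun v _ => by ring
        rw [this]
        linarith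
  have hhU : h ∉ U := Finset.notMem_erase _ _
  have hUcard : (U.card : ℤ) = (Fintype.card V : ℤ) - 1 := by
    rw [hU, Finset.card_erase_of_mem (Finset.mem_univ h), Finset.card_univ]
    have : 1 ≤ Fintype.card V := Fintype.card_pos_iff.2 ⟨h⟩
    push_cast [Nat.cast_sub this]
    ring
  rcases le_or_gt (∑ v ∈ U, im B v * y v) (- im B h) with hno | hcr
  · -- no crossing
    have hc : (insert h U)ᶜ = (∅ : Finset V) := by
      rw [hU, Finset.insert_erase (Finset.mem_univ h), Finset.compl_univ]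
    have hp : Pairs B (im B) (insert h U)ᶜ 0 [] := by rw [hc]; exact Pairs.empty
    refine (stop hB h U hhU y hy hp).mono ?_
    simp only [NS]
    have habs : |((im B h + ∑ v ∈ U, im B v * y v : ℤ) : ℝ)| =
        -((im B h + ∑ v ∈ U, im B v * y v : ℤ) : ℝ) := by
      rw [abs_of_nonpos]
      exact_mod_cast (by linarith : im B h + ∑ v ∈ U, im B v * y v ≤ 0)
    rw [habs]
    have hval : DD B (MM B h) y U - (im B h + ∑ v ∈ U, im B v * y v) ≤ - im B h - g := by
      unfold DD
      have e : ∑ v ∈ U, (im B v - MM B h v) * y v =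
          ∑ v ∈ U, im B v * y v - ∑ v ∈ U, MM B h v * y v := by
        rw [← Finset.sum_sub_distrib]
        exact Finset.sum_congr rfl fun v _ => by ring
      rw [e] at hw
      linarith
    rw [le_div_iff₀ hN]
    have h5 : ((DD B (MM B h) y U - (im B h + ∑ v ∈ U, im B v * y v) : ℤ) : ℝ) ≤
        ((- im B h - g : ℤ) : ℝ) := by exact_mod_cast hval
    have h6 : ((- im B h - g : ℤ) : ℝ) * (2 * k - 1) ≤ mm B := by
      have : (- im B h - g) * (2 * k - 1) ≤ mm B := by linarith
      exact_mod_cast this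
    push_cast at h5 h6 ⊢
    nlinarith
  · -- crossing
    obtain ⟨P, v, hvP, hvU, hD1, hD2, hc1, hc2⟩ := hgy.cross (t := im B) ((- im B h : ℤ) : ℝ)
      (by exact_mod_cast (by linarith : (0 : ℤ) < - im B h)) (by exact_mod_cast hcr.le)
    have hvh : v ≠ h := by
      have : v ∈ U := hvU (Finset.mem_insert_self _ _)
      exact (Finset.mem_erase.1 this).1
    -- a set with small linear form
    obtain ⟨T, hTU, hDT, hLT⟩ : ∃ T ⊆ U, DD B (MM B h) y T ≤ ch (MM B h) T ∧
        |((im B h + ∑ u ∈ T, im B u * y u : ℤ) : ℝ)| ≤ β / 2 := by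
      have hstep : ∑ u ∈ insert v P, im B u * y u = im B v * y v + ∑ u ∈ P, im B u * y u :=
        Finset.sum_insert hvP
      have hvβ : im B v * y v ≤ β := by
        have h3 := abs_le.1 (hβ v hvh)
        rcases hy v with h | h <;> rw [h] <;> linarith
      have hvβ' : ((im B v * y v : ℤ) : ℝ) ≤ β := by exact_mod_cast hvβ
      rw [hstep] at hc2
      push_cast at hc1 hc2 hvβ'
      rcases le_total (-(im B h : ℝ) - ∑ u ∈ P, (im B u : ℝ) * y u) (β / 2) with h4 | h4
      · refine ⟨P, (Finset.subset_insert _ _).trans hvU, hD1, ?_⟩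
        push_cast
        rw [abs_le]
        constructor <;> linarith
      · refine ⟨insert v P, hvU, hD2, ?_⟩
        rw [hstep]
        push_cast
        rw [abs_le]
        constructor <;> linarith
    have hhT : h ∉ T := fun h' => hhU (hTU h')
    obtain ⟨M, l, hp, hM, hNS⟩ := tail h0 (im B) (insert h T)ᶜ β hβ0 (by
      intro u hu
      apply hβ
      rintro rfl
      rw [Finset.mem_compl] at hu
      exact hu (Finset.mem_insert_self _ _))
    refine (stop hB h T hhT y hy hp).mono ?_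
    have h7 := hNS ((im B h + ∑ u ∈ T, im B u * y u : ℤ) : ℝ)
    have hβR : (0 : ℝ) ≤ β := by exact_mod_cast hβ0
    have h8 : max (max |((im B h + ∑ u ∈ T, im B u * y u : ℤ) : ℝ)| β)
        ((|((im B h + ∑ u ∈ T, im B u * y u : ℤ) : ℝ)| + 2 * β) / 2) ≤ 5 * β / 4 := by
      refine max_le (max_le ?_ ?_) ?_ <;> linarith
    have hchT : ch (MM B h) T ≤ ch (MM B h) U := by
      unfold ch
      exact Finset.sum_le_sum_of_subset_of_nonneg hTU fun u _ _ => by split_ifs <;> norm_num
    have hchU := ch_add_le h0 h1 h U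
    rw [Finset.sum_sub_distrib] at hchU
    have h9 : DD B (MM B h) y T ≤ (Fintype.card V : ℤ) - 1 + im B h := by linarith
    have h10 : ((DD B (MM B h) y T : ℤ) : ℝ) ≤ (Fintype.card V : ℝ) - 1 + im B h := by
      exact_mod_cast h9
    have hMR : (M : ℝ) ≤ 0 := by exact_mod_cast hM
    have hcondR : (2 * (k : ℝ) - 1) * (4 * ((Fintype.card V : ℝ) - 1 + im B h) + 5 * β) ≤
        4 * mm B := by exact_mod_cast hcond
    rw [le_div_iff₀ hN]
    have h11 : ((DD B (MM B h) y T : ℤ) : ℝ) + M + NS l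
        ((im B h + ∑ u ∈ T, im B u * y u : ℤ) : ℝ) ≤
        (Fintype.card V : ℝ) - 1 + im B h + 5 * β / 4 := by linarith
    nlinarith

end Pool.Agent.Exact
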