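import Pool.Agent.Lib_helper68.Exact.Sys
import Pool.Agent.Lib_helper68.Exact.Single

/-!
# Counting facts
-/

set_option autoImplicit false
set_option linter.unusedSectionVars false

namespace Pool.Agent.Exact

open Finset

variable {V : Type*} [Fintype V] [DecidableEq V] {B : V → V → ℤ} {Rl : Finset V}

/-- the sum of the imbalances of a set counts only arcs leaving or entering it -/
lemma sum_im (S : Finset V) :
    ∑ v ∈ S, im B v = ∑ v ∈ S, ∑ u ∈ Sᶜ, (B v u - B u v) := by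
  unfold im
  have e : ∀ v, ∑ u, B v u - ∑ u, B u v =
      ∑ u ∈ S, (B v u - B u v) + ∑ u ∈ Sᶜ, (B v u - B u v) := by
    intro v
    rw [Finset.sum_add_sum_compl, Finset.sum_sub_distrib]
  have e2 : ∑ v ∈ S, ∑ u ∈ S, (B v u - B u v) = 0 := by
    have h1 : ∑ v ∈ S, ∑ u ∈ S, B v u = ∑ v ∈ S, ∑ u ∈ S, B u v := Finset.sum_comm
    simp only [Finset.sum_sub_distrib]
    rw [h1, sub_self]
  rw [Finset.sum_congr rfl fun v _ => e v, Finset.sum_add_distrib, e2, zero_add]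

/-- a set of real vertices -/
lemma sum_im_le (h0 : ∀ u v, 0 ≤ B u v) (h1 : ∀ u v, B u v ≤ 1)
    (hdum : ∀ v, v ∉ Rl → ∀ u, B u v = 0 ∧ B v u = 0) {S : Finset V} (hS : S ⊆ Rl) :
    |∑ v ∈ S, im B v| ≤ S.card * (Rl.card - S.card) := by
  have key : ∀ v ∈ S, |∑ u ∈ Sᶜ, (B v u - B u v)| ≤ Rl.card - S.card := by
    intro v _
    have e : ∑ u ∈ Sᶜ, (B v u - B u v) = ∑ u ∈ Rl \ S, (B v u - B u v) := by
      refine (Finset.sum_subset ?_ ?_).symm
      · intro u hu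
        rw [Finset.mem_sdiff] at hu
        simp [hu.2]
      · intro u hu hu'
        rw [Finset.mem_compl] at hu
        have hur : u ∉ Rl := fun h => hu' (Finset.mem_sdiff.2 ⟨h, hu⟩)
        rw [(hdum u hur v).1, (hdum u hur v).2, sub_self]
    rw [e]
    calc |∑ u ∈ Rl \ S, (B v u - B u v)| ≤ ∑ u ∈ Rl \ S, |B v u - B u v| :=
          Finset.abs_sum_le_sum_abs _ _
      _ ≤ ∑ u ∈ Rl \ S, (1 : ℤ) := by
          refine Finset.sum_le_sum fun u _ => ?_
          rw [abs_le]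
          constructor <;> linarith [h0 v u, h0 u v, h1 v u, h1 u v]
      _ = Rl.card - S.card := by
          rw [Finset.sum_const, nsmul_eq_mul, mul_one, Finset.card_sdiff_of_subset hS]
          rw [Nat.cast_sub (Finset.card_le_card hS)]
  rw [sum_im]
  calc |∑ v ∈ S, ∑ u ∈ Sᶜ, (B v u - B u v)| ≤ ∑ v ∈ S, |∑ u ∈ Sᶜ, (B v u - B u v)| :=
        Finset.abs_sum_le_sum_abs _ _
    _ ≤ ∑ v ∈ S, ((Rl.card : ℤ) - S.card) := Finset.sum_le_sum key
    _ = S.card * (Rl.card - S.card) := by rw [Finset.sum_const, nsmul_eq_mul]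

/-- the charges at a vertex -/
lemma charge_sum (h0 : ∀ u v, 0 ≤ B u v) (h1 : ∀ u v, B u v ≤ 1) (hB : ∀ v, B v v = 0)
    (hdum : ∀ v, v ∉ Rl → ∀ u, B u v = 0 ∧ B v u = 0) {h : V} (hh : h ∈ Rl) (ε : ℤ)
    (hε : ε = 1 ∨ ε = -1) {T : Finset V} (hT : T ⊆ Rl) (hhT : h ∉ T) :
    ∑ v ∈ T, (1 - ε * (B h v - B v h)) ≤ Rl.card - 1 - ε * im B h := by
  have e1 : im B h = ∑ v ∈ Rl.erase h, (B h v - B v h) := by
    unfold im
    rw [← Finset.sum_sub_distrib]
    refine (Finset.sum_subset (Finset.subset_univ _) ?_).symm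
    intro v _ hv
    by_cases hvh : v = h
    · rw [hvh, hB, sub_self]
    · have hvr : v ∉ Rl := fun h' => hv (Finset.mem_erase.2 ⟨hvh, h'⟩)
      rw [(hdum v hvr h).1, (hdum v hvr h).2, sub_self]
  have e2 : ((Rl.card : ℤ) - 1 - ε * im B h) = ∑ v ∈ Rl.erase h, (1 - ε * (B h v - B v h)) := by
    rw [Finset.sum_sub_distrib, ← Finset.mul_sum, ← e1, Finset.sum_const, nsmul_eq_mul, mul_one,
      Finset.card_erase_of_mem hh]
    have : 1 ≤ Rl.card := Finset.card_pos.2 ⟨h, hh⟩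
    rw [Nat.cast_sub this]
    norm_num
  rw [e2]
  refine Finset.sum_le_sum_of_subset_of_nonneg ?_ ?_
  · intro v hv
    exact Finset.mem_erase.2 ⟨fun e => hhT (e ▸ hv), hT hv⟩
  · intro v _ _
    have := h0 h v
    have := h0 v h
    have := h1 h v
    have := h1 v h
    rcases hε with h | h <;> rw [h] <;> linarith

/-- the charge of a single vertex bounds the deviation of the multiplicity from one -/
lemma mult_le (h0 : ∀ u v, 0 ≤ B u v) (h1 : ∀ u v, B u v ≤ 1) (u v : V) (ε : ℤ)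
    (hε : ε = 1 ∨ ε = -1) : |MM B u v - 1| ≤ 1 - ε * (B u v - B v u) := by
  have a1 := h0 u v
  have a2 := h0 v u
  have a3 := h1 u v
  have a4 := h1 v u
  have b1 : B u v = 0 ∨ B u v = 1 := by omega
  have b2 : B v u = 0 ∨ B v u = 1 := by omega
  unfold MM
  rcases hε with h | h <;> rcases b1 with b1 | b1 <;> rcases b2 with b2 | b2 <;>
    rw [h, b1, b2] <;> norm_num

lemma mm_real (hdum : ∀ v, v ∉ Rl → ∀ u, B u v = 0 ∧ B v u = 0) :
    mm B = ∑ v ∈ Rl, ∑ u, B v u := by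
  unfold mm
  refine (Finset.sum_subset (Finset.subset_univ _) ?_).symm
  intro v _ hv
  exact Finset.sum_eq_zero fun u _ => (hdum v hv u).2

lemma mm_real' (hdum : ∀ v, v ∉ Rl → ∀ u, B u v = 0 ∧ B v u = 0) :
    mm B = ∑ v ∈ Rl, ∑ u, B u v := by
  unfold mm
  rw [Finset.sum_comm]
  refine (Finset.sum_subset (Finset.subset_univ _) ?_).symm
  intro v _ hv
  exact Finset.sum_eq_zero fun u _ => (hdum v hv u).1

/-- minimum outdegree and many arcs leaving `S` -/
lemma mm_ge_out (h0 : ∀ u v, 0 ≤ B u v)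
    (hdum : ∀ v, v ∉ Rl → ∀ u, B u v = 0 ∧ B v u = 0) {k : ℤ}
    (hdeg : ∀ v ∈ Rl, k ≤ ∑ u, B v u) {S : Finset V} (hS : S ⊆ Rl) :
    k * (Rl.card - S.card) + ∑ v ∈ S, im B v ≤ mm B := by
  rw [mm_real hdum, ← Finset.sum_sdiff hS]
  have h2 : k * ((Rl.card : ℤ) - S.card) ≤ ∑ v ∈ Rl \ S, ∑ u, B v u := by
    calc k * ((Rl.card : ℤ) - S.card) = ∑ v ∈ Rl \ S, k := by
          rw [Finset.sum_const, nsmul_eq_mul, Finset.card_sdiff_of_subset hS,
            Nat.cast_sub (Finset.card_le_card hS)]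
          ring
      _ ≤ _ := Finset.sum_le_sum fun v hv => hdeg v (Finset.mem_sdiff.1 hv).1
  have h3 : ∑ v ∈ S, im B v ≤ ∑ v ∈ S, ∑ u, B v u := by
    refine Finset.sum_le_sum fun v _ => ?_
    unfold im
    have : 0 ≤ ∑ u, B u v := Finset.sum_nonneg fun u _ => h0 u v
    linarith
  linarith

/-- minimum outdegree and many arcs entering `S` -/
lemma mm_ge_in (h0 : ∀ u v, 0 ≤ B u v)
    (hdum : ∀ v, v ∉ Rl → ∀ u, B u v = 0 ∧ B v u = 0) {k : ℤ}
    (hdeg : ∀ v ∈ Rl, k ≤ ∑ u, B v u) {S : Finset V} (hS : S ⊆ Rl) :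
    k * S.card - ∑ v ∈ S, im B v ≤ mm B := by
  rw [mm_real' hdum]
  have h1 : ∑ v ∈ S, ∑ u, B u v ≤ ∑ v ∈ Rl, ∑ u, B u v :=
    Finset.sum_le_sum_of_subset_of_nonneg hS fun v _ _ => Finset.sum_nonneg fun u _ => h0 u v
  have h2 : k * (S.card : ℤ) - ∑ v ∈ S, im B v ≤ ∑ v ∈ S, ∑ u, B u v := by
    have e : k * (S.card : ℤ) = ∑ v ∈ S, k := by
      rw [Finset.sum_const, nsmul_eq_mul]; ring
    rw [e, ← Finset.sum_sub_distrib]
    refine Finset.sum_le_sum fun v hv => ?_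
    unfold im
    linarith [hdeg v (hS hv)]
  linarith

/-- an in-type vertex has imbalance at most `n - 1 - k` -/
lemma im_ge (h0 : ∀ u v, 0 ≤ B u v) (h1 : ∀ u v, B u v ≤ 1) (hB : ∀ v, B v v = 0)
    (hdum : ∀ v, v ∉ Rl → ∀ u, B u v = 0 ∧ B v u = 0) {k : ℤ}
    (hdeg : ∀ v ∈ Rl, k ≤ ∑ u, B v u) {v : V} (hv : v ∈ Rl) :
    - im B v ≤ Rl.card - 1 - k := by
  have h2 : ∑ u, B u v ≤ (Rl.card : ℤ) - 1 := by
    have e : ∑ u, B u v = ∑ u ∈ Rl.erase v, B u v := by
      refine (Finset.sum_subset (Finset.subset_univ _) ?_).symm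
      intro u _ hu
      by_cases huv : u = v
      · rw [huv, hB]
      · exact (hdum u (fun h' => hu (Finset.mem_erase.2 ⟨huv, h'⟩)) v).2
    rw [e]
    calc ∑ u ∈ Rl.erase v, B u v ≤ ∑ u ∈ Rl.erase v, (1 : ℤ) :=
          Finset.sum_le_sum fun u _ => h1 u v
      _ = (Rl.card : ℤ) - 1 := by
          rw [Finset.sum_const, nsmul_eq_mul, mul_one, Finset.card_erase_of_mem hv]
          have : 1 ≤ Rl.card := Finset.card_pos.2 ⟨v, hv⟩
          rw [Nat.cast_sub this]; norm_num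
  have h3 := hdeg v hv
  unfold im
  linarith

/-- the transposed digraph -/
lemma im_transpose (v : V) : im (fun u v => B v u) v = - im B v := by
  unfold im; ring

lemma MM_transpose (u v : V) : MM (fun u v => B v u) u v = MM B u v := by
  unfold MM; ring

lemma Qd_transpose (S : Finset V) (x : V → ℤ) : Qd (fun u v => B v u) S x = Qd B S x := by
  unfold Qd
  rw [Finset.sum_comm]
  exact Finset.sum_congr rfl fun u _ => Finset.sum_congr rfl fun v _ => by ring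

lemma Val_transpose {r : ℝ} (h : Val (fun u v => B v u) r) : Val B r := by
  obtain ⟨x, hx, hv⟩ := h
  refine ⟨x, hx, ?_⟩
  rw [Qd_transpose] at hv
  have e : ((∑ v, im (fun u v => B v u) v * x v : ℤ) : ℝ) = - ((∑ v, im B v * x v : ℤ) : ℝ) := by
    push_cast
    rw [← Finset.sum_neg_distrib]
    refine Finset.sum_congr rfl fun v _ => ?_
    rw [im_transpose]; push_cast; ring
  rw [e, abs_neg] at hv
  exact hv

lemma mm_transpose : mm (fun u v => B v u) = mm B := by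
  unfold mm
  rw [Finset.sum_comm]

end Pool.Agent.Exact
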