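import Pool.Agent.Lib_helper68.Exact.Path

/-!
# The two uses of a path: hub fixed (crossing or not), and path flipped as a whole
-/

set_option autoImplicit false
set_option linter.unusedSectionVars false

namespace Pool.Agent.Exact

open Finset

variable {V : Type*} [Fintype V] [DecidableEq V] {B : V → V → ℤ}

/-- hub `h` fixed with sign `+`, pattern `x` on `X`, structure on the rest -/
theorem stopSt (hB : ∀ v, B v v = 0) (h : V) (X : Finset V) (hX : h ∉ X) (x : V → ℤ)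
    (hx : ∀ v, x v = 1 ∨ x v = -1) {M K t : ℝ} (hK : 0 ≤ K)
    (hp : St B (im B) (insert h X)ᶜ M K t) :
    Val B (((DD B (MM B h) x X : ℤ) : ℝ) + M +
      max (max |((im B h + ∑ v ∈ X, im B v * x v : ℤ) : ℝ)| K)
        ((|((im B h + ∑ v ∈ X, im B v * x v : ℤ) : ℝ)| + t) / 2)) := by
  set z : V → ℤ := fun v => if v = h then 1 else x v with hz
  have hzh : z h = 1 := by simp [hz]
  have hzP : ∀ v ∈ X, z v = x v := by
    intro v hv
    have : v ≠ h := fun e => hX (e ▸ hv)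
    simp [hz, this]
  have hz1 : ∀ v, z v = 1 ∨ z v = -1 := by
    intro v
    simp only [hz]
    split_ifs
    · left; rfl
    · exact hx v
  have h3 := extendSt (insert h X) z hz1 hK hp
  have hd : Disjoint {h} X := by simpa using hX
  have e1 : Qd B (insert h X) z = DD B (MM B h) x X := by
    rw [Finset.insert_eq, Qd_union hd, Qd_single h hB, Qd_congr hzP]
    unfold DD Int
    rw [Finset.sum_singleton, zero_add, add_comm]
    congr 1
    refine Finset.sum_congr rfl fun v hv => ?_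
    rw [hzh, hzP v hv]
    ring
  have e2 : ∑ v ∈ insert h X, im B v * z v = im B h + ∑ v ∈ X, im B v * x v := by
    rw [Finset.sum_insert hX, hzh, mul_one]
    congr 1
    exact Finset.sum_congr rfl fun v hv => by rw [hzP v hv]
  rw [e1, e2] at h3
  exact h3

/-- the crossing step of a good set -/
theorem GoodE.cross {a x t : V → ℤ} {e : ℤ} {S : Finset V} (hS : GoodE B a x e S) (c : ℝ)
    (hc0 : 0 < c) (hc : c ≤ ((∑ v ∈ S, t v * x v : ℤ) : ℝ)) {Db : ℝ} (hDb0 : 0 ≤ Db)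
    (hDb : ∀ P ⊆ S, P.Nonempty → ((ch a P - e : ℤ) : ℝ) ≤ Db) :
    ∃ (P : Finset V) (v : V), v ∉ P ∧ insert v P ⊆ S ∧ ((DD B a x P : ℤ) : ℝ) ≤ Db ∧
      ((DD B a x (insert v P) : ℤ) : ℝ) ≤ Db ∧ ((∑ u ∈ P, t u * x u : ℤ) : ℝ) < c ∧
      c ≤ ((∑ u ∈ insert v P, t u * x u : ℤ) : ℝ) := by
  induction hS with
  | empty => simp at hc; linarith
  | step S v hS hv hD ih =>
    rcases lt_or_ge ((∑ u ∈ S, t u * x u : ℤ) : ℝ) c with h1 | h1
    · refine ⟨S, v, hv, Finset.Subset.refl _, ?_, ?_, h1, hc⟩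
      · rcases S.eq_empty_or_nonempty with rfl | hne
        · rw [DD_empty]; simpa using hDb0
        · have h2 := hS.le hne
          have h3 := hDb S (Finset.subset_insert _ _) hne
          have h4 : ((DD B a x S : ℤ) : ℝ) ≤ ((ch a S - e : ℤ) : ℝ) := by exact_mod_cast h2
          linarith
      · have h3 := hDb (insert v S) (Finset.Subset.refl _) (Finset.insert_nonempty _ _)
        have h4 : ((DD B a x (insert v S) : ℤ) : ℝ) ≤ ((ch a (insert v S) - e : ℤ) : ℝ) := by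
          exact_mod_cast hD
        linarith
    · obtain ⟨P, w, h2, h3, h4⟩ := ih h1 fun P hP => hDb P (hP.trans (Finset.subset_insert _ _))
      exact ⟨P, w, h2, h3.trans (Finset.subset_insert _ _), h4⟩

/-- structure of a part of the path set -/
lemma St.restR (hB : ∀ v, B v v = 0) (h0 : ∀ u v, 0 ≤ B u v) {U : Finset V} {K : ℝ}
    (hK : ∀ v ∈ U, |((im B v : ℤ) : ℝ)| ≤ K) :
    St B (im B) U 0 K (altF (fun v => |((im B v : ℤ) : ℝ)|) (U.filter fun v => 0 ≤ im B v) +
      altF (fun v => |((im B v : ℤ) : ℝ)|) (U.filter fun v => ¬ 0 ≤ im B v)) := by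
  have h1 := St.rest (K := K) hB h0 _ (U.filter fun v => 0 ≤ im B v) rfl
    (Or.inl fun v hv => (Finset.mem_filter.1 hv).2) (fun v hv => hK v (Finset.mem_filter.1 hv).1)
  have h2 := St.rest (K := K) hB h0 _ (U.filter fun v => ¬ 0 ≤ im B v) rfl
    (Or.inr fun v hv => (not_le.1 (Finset.mem_filter.1 hv).2).le)
    (fun v hv => hK v (Finset.mem_filter.1 hv).1)
  have h3 := h1.union h2 (Finset.disjoint_filter_filter_not _ _ _)
  rw [Finset.filter_union_filter_not_eq] at h3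
  exact h3.mono (by norm_num) le_rfl le_rfl

/-- **Crossing step.** The sign of the linear form changes between `P` and `insert v P`; the rest
of `R` is re-sorted. -/
theorem crossing_core (hB : ∀ v, B v v = 0) (h0 : ∀ u v, 0 ≤ B u v) (h : V) (R C : Finset V)
    (hR : h ∉ R) (hC : h ∉ C) (hd : Disjoint R C) (hu : insert h (R ∪ C) = univ)
    {x : V → ℤ} (hx : ∀ v, x v = 1 ∨ x v = -1) {Db : ℝ} {P : Finset V} {v : V} (hvP : v ∉ P)
    (hPR : insert v P ⊆ R) (hD1 : ((DD B (MM B h) x P : ℤ) : ℝ) ≤ Db)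
    (hD2 : ((DD B (MM B h) x (insert v P) : ℤ) : ℝ) ≤ Db)
    (hc1 : ((∑ u ∈ P, (- im B u) * x u : ℤ) : ℝ) < ((im B h : ℤ) : ℝ))
    (hc2 : ((im B h : ℤ) : ℝ) ≤ ((∑ u ∈ insert v P, (- im B u) * x u : ℤ) : ℝ))
    {M K t rQ rP : ℝ} (hK : 0 ≤ K) (hst : St B (im B) C M K t)
    (hrQ : ∀ v ∈ R, 0 ≤ im B v → ((im B v : ℤ) : ℝ) ≤ rQ) (hrQK : rQ ≤ K) (hrQ0 : 0 ≤ rQ)
    (hrP : ∀ v ∈ R, im B v < 0 → -((im B v : ℤ) : ℝ) ≤ rP) (hrPK : rP ≤ K) (hrP0 : 0 ≤ rP) :
    Val B (Db + M + max K ((t + rQ + rP) / 2)) := by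
  classical
  set w : V → ℝ := fun v => |((im B v : ℤ) : ℝ)| with hw
  have hvR : v ∈ R := hPR (Finset.mem_insert_self _ _)
  have hPR' : P ⊆ R := (Finset.subset_insert _ _).trans hPR
  have hwK : ∀ z ∈ R, w z ≤ K := by
    intro z hz
    simp only [hw]
    rcases le_or_gt 0 (im B z) with h3 | h3
    · have h4 : (0 : ℝ) ≤ im B z := by exact_mod_cast h3
      rw [abs_of_nonneg h4]
      exact (hrQ z hz h3).trans hrQK
    · have h4 : ((im B z : ℤ) : ℝ) < 0 := by exact_mod_cast h3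
      rw [abs_of_neg h4]
      exact (hrP z hz h3).trans hrPK
  -- value for a prefix
  have hval : ∀ X ⊆ R, ((DD B (MM B h) x X : ℤ) : ℝ) ≤ Db →
      |((im B h + ∑ v ∈ X, im B v * x v : ℤ) : ℝ)| ≤ K →
      Val B (Db + M + max K ((|((im B h + ∑ v ∈ X, im B v * x v : ℤ) : ℝ)| + t +
        altF w ((R \ X).filter fun v => 0 ≤ im B v) +
        altF w ((R \ X).filter fun v => ¬ 0 ≤ im B v)) / 2)) := by
    intro X hX hDX hLK
    have hhX : h ∉ X := fun h3 => hR (hX h3)
    have h3 := St.restR hB h0 (U := R \ X) (K := K)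
      (fun z hz => hwK z (Finset.mem_sdiff.1 hz).1)
    have h4 := hst.union h3 ((Finset.disjoint_of_subset_left Finset.sdiff_subset hd).symm)
    have h5 : C ∪ R \ X = (insert h X)ᶜ := by
      ext z
      have hz : z ∈ insert h (R ∪ C) := by rw [hu]; exact Finset.mem_univ z
      simp only [Finset.mem_insert, Finset.mem_union] at hz
      simp only [Finset.mem_union, Finset.mem_sdiff, Finset.mem_compl, Finset.mem_insert, not_or]
      constructor
      · rintro (h6 | ⟨h6, h7⟩)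
        · exact ⟨fun e => hC (e ▸ h6), fun h8 => Finset.disjoint_left.1 hd (hX h8) h6⟩
        · exact ⟨fun e => hR (e ▸ h6), h7⟩
      · rintro ⟨h6, h7⟩
        rcases hz with h8 | h8 | h8
        · exact absurd h8 h6
        · exact Or.inr ⟨h8, h7⟩
        · exact Or.inl h8
    rw [h5] at h4
    have h6 := stopSt hB h X hhX x hx hK h4
    refine h6.mono ?_
    rw [max_eq_right hLK]
    have h7 : max K ((|((im B h + ∑ v ∈ X, im B v * x v : ℤ) : ℝ)| +
        (t + (altF w ((R \ X).filter fun v => 0 ≤ im B v) +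
        altF w ((R \ X).filter fun v => ¬ 0 ≤ im B v)))) / 2) ≤
        max K ((|((im B h + ∑ v ∈ X, im B v * x v : ℤ) : ℝ)| + t +
        altF w ((R \ X).filter fun v => 0 ≤ im B v) +
        altF w ((R \ X).filter fun v => ¬ 0 ≤ im B v)) / 2) :=
      max_le_max le_rfl (by linarith)
    linarith
  set L1 : ℝ := ((im B h + ∑ v ∈ P, im B v * x v : ℤ) : ℝ) with hL1
  set L2 : ℝ := ((im B h + ∑ v ∈ insert v P, im B v * x v : ℤ) : ℝ) with hL2
  have hneg : ∀ X : Finset V, ((∑ v ∈ X, (- im B v) * x v : ℤ) : ℝ) =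
      - ((∑ v ∈ X, im B v * x v : ℤ) : ℝ) := by
    intro X
    push_cast
    rw [← Finset.sum_neg_distrib]
    exact Finset.sum_congr rfl fun v _ => by ring
  have hL1pos : 0 < L1 := by
    rw [hneg] at hc1
    rw [hL1]; push_cast at hc1 ⊢; linarith
  have hL2neg : L2 ≤ 0 := by
    rw [hneg] at hc2
    rw [hL2]; push_cast at hc2 ⊢; linarith
  have hdiff : L1 - L2 = w v := by
    have h3 : L2 = L1 + ((im B v * x v : ℤ) : ℝ) := by
      rw [hL1, hL2, Finset.sum_insert hvP]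
      push_cast; ring
    have h4 : ((im B v * x v : ℤ) : ℝ) ≤ 0 := by linarith
    have h5 : w v = |((im B v * x v : ℤ) : ℝ)| := by
      simp only [hw]
      push_cast
      rw [abs_mul]
      rcases hx v with h6 | h6 <;> rw [h6] <;> simp
    rw [h5, abs_of_nonpos h4]
    linarith
  have hwv := hwK v hvR
  have hwv0 : 0 ≤ w v := abs_nonneg _
  have hv1 := hval P hPR' hD1 (by rw [← hL1, abs_of_pos hL1pos]; linarith)
  have hv2 := hval (insert v P) hPR hD2 (by rw [← hL2, abs_of_nonpos hL2neg]; linarith)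
  rw [← hL1] at hv1
  rw [← hL2] at hv2
  -- the sum of the totals
  have hsd : R \ P = insert v (R \ insert v P) := by
    ext z
    simp only [Finset.mem_sdiff, Finset.mem_insert, not_or]
    constructor
    · rintro ⟨h3, h4⟩
      by_cases h5 : z = v
      · exact Or.inl h5
      · exact Or.inr ⟨h3, h5, h4⟩
    · rintro (rfl | ⟨h3, h4, h5⟩)
      · exact ⟨hvR, hvP⟩
      · exact ⟨h3, h5⟩
  set U := R \ insert v P with hU
  have hvU : v ∉ U := by simp [hU]
  have hwQ : ∀ z ∈ U.filter (fun v => 0 ≤ im B v), w z ≤ rQ := by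
    intro z hz
    rw [Finset.mem_filter, hU, Finset.mem_sdiff] at hz
    have h4 : (0 : ℝ) ≤ im B z := by exact_mod_cast hz.2
    simp only [hw]
    rw [abs_of_nonneg h4]
    exact hrQ z hz.1.1 hz.2
  have hwP : ∀ z ∈ U.filter (fun v => ¬ 0 ≤ im B v), w z ≤ rP := by
    intro z hz
    rw [Finset.mem_filter, hU, Finset.mem_sdiff] at hz
    have h4 : ((im B z : ℤ) : ℝ) < 0 := by exact_mod_cast not_le.1 hz.2
    simp only [hw]
    rw [abs_of_neg h4]
    exact hrP z hz.1.1 (not_le.1 hz.2)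
  have hw0 : ∀ (W : Finset V), ∀ z ∈ W, 0 ≤ w z := fun W z _ => abs_nonneg _
  have hsum : |L1| + altF w ((R \ P).filter fun v => 0 ≤ im B v) +
      altF w ((R \ P).filter fun v => ¬ 0 ≤ im B v) + (|L2| +
      altF w (U.filter fun v => 0 ≤ im B v) + altF w (U.filter fun v => ¬ 0 ≤ im B v)) ≤
      2 * rQ + 2 * rP := by
    rw [abs_of_pos hL1pos, abs_of_nonpos hL2neg, hsd]
    rcases le_or_gt 0 (im B v) with h3 | h3
    · rw [Finset.filter_insert, if_pos h3, Finset.filter_insert, if_neg (not_not.2 h3)]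
      have h4 := altF_insert w (U := U.filter fun v => 0 ≤ im B v) (v := v)
        (fun h => hvU (Finset.mem_filter.1 h).1) (hw0 _) (r := rQ) (by
          have h4 : (0 : ℝ) ≤ im B v := by exact_mod_cast h3
          simp only [hw]
          rw [abs_of_nonneg h4]
          exact hrQ v hvR h3) hwQ
      have h5 := altF_le w (U := U.filter fun v => ¬ 0 ≤ im B v) (hw0 _) hrP0 hwP
      linarith
    · rw [Finset.filter_insert, if_neg (not_le.2 h3), Finset.filter_insert,
        if_pos (not_le.2 h3)]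
      have h4 := altF_insert w (U := U.filter fun v => ¬ 0 ≤ im B v) (v := v)
        (fun h => hvU (Finset.mem_filter.1 h).1) (hw0 _) (r := rP) (by
          have h4 : ((im B v : ℤ) : ℝ) < 0 := by exact_mod_cast h3
          simp only [hw]
          rw [abs_of_neg h4]
          exact hrP v hvR h3) hwP
      have h5 := altF_le w (U := U.filter fun v => 0 ≤ im B v) (hw0 _) hrQ0 hwQ
      linarith
  rcases le_total (|L1| + altF w ((R \ P).filter fun v => 0 ≤ im B v) +
      altF w ((R \ P).filter fun v => ¬ 0 ≤ im B v)) (rQ + rP) with h3 | h3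
  · refine hv1.mono ?_
    have : max K ((|L1| + t + altF w ((R \ P).filter fun v => 0 ≤ im B v) +
        altF w ((R \ P).filter fun v => ¬ 0 ≤ im B v)) / 2) ≤ max K ((t + rQ + rP) / 2) :=
      max_le_max le_rfl (by linarith)
    linarith
  · refine hv2.mono ?_
    have : max K ((|L2| + t + altF w (U.filter fun v => 0 ≤ im B v) +
        altF w (U.filter fun v => ¬ 0 ≤ im B v)) / 2) ≤ max K ((t + rQ + rP) / 2) :=
      max_le_max le_rfl (by linarith)
    linarith


/-- **Crossing.** The path runs through `R0 ⊆ R`; the rest of `R` is re-sorted. -/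
theorem crossing (hB : ∀ v, B v v = 0) (h0 : ∀ u v, 0 ≤ B u v) (h : V) (R R0 C : Finset V)
    (hR0 : R0 ⊆ R)
    (hR : h ∉ R) (hC : h ∉ C) (hd : Disjoint R C) (hu : insert h (R ∪ C) = univ)
    {x : V → ℤ} (hx : ∀ v, x v = 1 ∨ x v = -1) {e : ℤ} (hg : GoodE B (MM B h) x e R0)
    (hq : 0 < im B h) (hY : im B h ≤ - ∑ v ∈ R0, im B v * x v) {Db : ℝ} (hDb0 : 0 ≤ Db)
    (hDb : ∀ P ⊆ R0, P.Nonempty → ((ch (MM B h) P - e : ℤ) : ℝ) ≤ Db)
    {M K t rQ rP : ℝ} (hK : 0 ≤ K) (hst : St B (im B) C M K t)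
    (hrQ : ∀ v ∈ R, 0 ≤ im B v → ((im B v : ℤ) : ℝ) ≤ rQ) (hrQK : rQ ≤ K) (hrQ0 : 0 ≤ rQ)
    (hrP : ∀ v ∈ R, im B v < 0 → -((im B v : ℤ) : ℝ) ≤ rP) (hrPK : rP ≤ K) (hrP0 : 0 ≤ rP) :
    Val B (Db + M + max K ((t + rQ + rP) / 2)) := by
  have hYR : ((im B h : ℤ) : ℝ) ≤ ((∑ v ∈ R0, (- im B v) * x v : ℤ) : ℝ) := by
    have : ∑ v ∈ R0, (- im B v) * x v = - ∑ v ∈ R0, im B v * x v := by
      rw [← Finset.sum_neg_distrib]
      exact Finset.sum_congr rfl fun v _ => by ring
    rw [this]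
    exact_mod_cast hY
  obtain ⟨P, v, hvP, hPR0, hD1, hD2, hc1, hc2⟩ := hg.cross (t := fun v => - im B v)
    ((im B h : ℤ) : ℝ) (by exact_mod_cast hq) hYR hDb0 hDb
  exact crossing_core hB h0 h R C hR hC hd hu hx hvP (hPR0.trans hR0) hD1 hD2 hc1 hc2 hK hst
    hrQ hrQK hrQ0 hrP hrPK hrP0

end Pool.Agent.Exact
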