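import Pool.Agent.Lib_helper68.Exact.Run2

/-!
# Cutting the two chains into hubs and the rest
-/

set_option autoImplicit false
set_option linter.unusedSectionVars false
set_option linter.unusedSimpArgs false
set_option linter.unnecessarySeqFocus false
set_option linter.unreachableTactic false
set_option linter.unusedTactic false

namespace Pool.Agent.Exact

open Finset

variable {V : Type*} [Fintype V] [DecidableEq V]
variable {B : V → V → ℤ} {Rl : Finset V} {ℓ nQ nP : ℕ} {uq up : ℕ → V} {q p : ℕ → ℝ}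

/-- the hubs: the first `a` vertices of `uq` and the first `b` vertices of `up` -/
def hb (a b : ℕ) : Finset (ℕ ⊕ ℕ) := iq 0 a ∪ ip 0 b

/-- the hubs without the first -/
def hb1 (a b : ℕ) : Finset (ℕ ⊕ ℕ) := iq 1 a ∪ ip 0 b

/-- the other real vertices -/
def rr (nQ nP a b : ℕ) : Finset (ℕ ⊕ ℕ) := iq a nQ ∪ ip b nP

/-- the dummies -/
def dm (ℓ nQ nP : ℕ) : Finset (ℕ ⊕ ℕ) := iq nQ (2 * ℓ) ∪ ip nP (2 * ℓ)

/-- vertices of an index set -/
def vs (uq up : ℕ → V) (I : Finset (ℕ ⊕ ℕ)) : Finset V := I.image (vx uq up)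

lemma Frame.nQle (h : Frame B Rl ℓ nQ nP uq up q p) : nQ + 10 ≤ 2 * ℓ := by
  have := h.sys.card
  have := h.sys.big
  omega

lemma Frame.nPle (h : Frame B Rl ℓ nQ nP uq up q p) : nP + 10 ≤ 2 * ℓ := by
  have := h.sys.card
  have := h.sys.big
  omega

lemma Frame.real (h : Frame B Rl ℓ nQ nP uq up q p) : vs uq up (rr nQ nP 0 0) = Rl := by
  have hQ := h.nQle
  have hP := h.nPle
  ext v
  simp only [vs, rr, Finset.mem_image, Finset.mem_union, Sum.exists, inl_mem_iq, inl_mem_ip,
    inr_mem_iq, inr_mem_ip, or_false, false_or, vx, Sum.elim_inl, Sum.elim_inr]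
  constructor
  · rintro (⟨i, hi, rfl⟩ | ⟨i, hi, rfl⟩)
    · exact (h.sys.realQ i (by omega)).2 (by omega)
    · exact (h.sys.realP i (by omega)).2 (by omega)
  · intro hv
    rcases h.sys.cover v with ⟨i, hi, rfl⟩ | ⟨i, hi, rfl⟩
    · left
      exact ⟨i, ⟨Nat.zero_le _, (h.sys.realQ i hi).1 hv⟩, rfl⟩
    · right
      exact ⟨i, ⟨Nat.zero_le _, (h.sys.realP i hi).1 hv⟩, rfl⟩

lemma vs_mono {I J : Finset (ℕ ⊕ ℕ)} (h : I ⊆ J) : vs uq up I ⊆ vs uq up J :=
  Finset.image_subset_image h

lemma Frame.stDm (h : Frame B Rl ℓ nQ nP uq up q p) {K : ℝ} (hK : 0 ≤ K) :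
    StI B uq up (dm ℓ nQ nP) 0 K 0 := by
  have key : ∀ v ∈ (dm ℓ nQ nP).image (vx uq up), v ∉ Rl := by
    intro v hv
    rw [Finset.mem_image] at hv
    obtain ⟨x, hx, rfl⟩ := hv
    unfold dm at hx
    rcases x with i | i
    · simp only [Finset.mem_union, inl_mem_iq, inl_mem_ip, or_false] at hx
      simp only [vx, Sum.elim_inl]
      rw [h.sys.realQ i hx.2]
      omega
    · simp only [Finset.mem_union, inr_mem_iq, inr_mem_ip, false_or] at hx
      simp only [vx, Sum.elim_inr]
      rw [h.sys.realP i hx.2]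
      omega
  refine St.zero ?_ ?_ hK
  · intro v hv
    have h4 := key v hv
    unfold im
    rw [Finset.sum_eq_zero fun u _ => (h.sys.dummy _ h4 u).2,
      Finset.sum_eq_zero fun u _ => (h.sys.dummy _ h4 u).1]
    rfl
  · intro u _ v hv
    exact (h.sys.dummy v (key v hv) u).1

lemma Frame.withDm (h : Frame B Rl ℓ nQ nP uq up q p) {I : Finset (ℕ ⊕ ℕ)} {M K t : ℝ}
    (hK : 0 ≤ K) (hI : StI B uq up I M K t) (hf : I ⊆ rr nQ nP 0 0) :
    StI B uq up (I ∪ dm ℓ nQ nP) M K t := by
  have hQ := h.nQle
  have hP := h.nPle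
  have h1 : I ∪ dm ℓ nQ nP ⊆ full ℓ := by
    refine Finset.union_subset (hf.trans ?_) ?_
    · unfold rr; (intro x hx; revert hx; rcases x with x | x <;>
    simp only [Finset.mem_union, Finset.mem_insert, Finset.mem_singleton, inl_mem_full,
      inr_mem_full, inl_mem_iq, inr_mem_iq, inl_mem_ip, inr_mem_ip, Sum.inl.injEq, Sum.inr.injEq,
      reduceCtorEq, Finset.notMem_empty, or_false, false_or, false_imp_iff, imp_false,
      implies_true, not_false_eq_true, iff_false, false_iff] <;> omega)
    · unfold dm; (intro x hx; revert hx; rcases x with x | x <;>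
    simp only [Finset.mem_union, Finset.mem_insert, Finset.mem_singleton, inl_mem_full,
      inr_mem_full, inl_mem_iq, inr_mem_iq, inl_mem_ip, inr_mem_ip, Sum.inl.injEq, Sum.inr.injEq,
      reduceCtorEq, Finset.notMem_empty, or_false, false_or, false_imp_iff, imp_false,
      implies_true, not_false_eq_true, iff_false, false_iff] <;> omega)
  have h2 : Disjoint I (dm ℓ nQ nP) := by
    refine Finset.disjoint_of_subset_left hf ?_
    unfold rr dm
    (rw [Finset.disjoint_left]; intro x hx hx'; revert hx hx'; rcases x with x | x <;>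
    simp only [Finset.mem_union, Finset.mem_insert, Finset.mem_singleton, inl_mem_full,
      inr_mem_full, inl_mem_iq, inr_mem_iq, inl_mem_ip, inr_mem_ip, Sum.inl.injEq, Sum.inr.injEq,
      reduceCtorEq, Finset.notMem_empty, or_false, false_or, false_imp_iff, imp_false,
      implies_true, not_false_eq_true, iff_false, false_iff] <;> omega)
  exact (h.jn hI (h.stDm hK) h1 h2).mono (by norm_num) le_rfl (by norm_num)

/-- crossing values in terms of index sets -/
def CrI (B : V → V → ℤ) (uq up : ℕ → V) (q p : ℕ → ℝ) (a b : ℕ) (Db : ℝ) : Prop :=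
  ∀ M K t : ℝ, 0 ≤ K → q a ≤ K → p b ≤ K → StI B uq up (hb1 a b) M K t →
    Val B (Db + M + max K ((t + q a + p b) / 2))

/-- values if only the last vertex leads to a crossing, in terms of index sets -/
def CrSI (B : V → V → ℤ) (uq up : ℕ → V) (p : ℕ → ℝ) (a b : ℕ) (Db : ℝ) : Prop :=
  ∀ M K t : ℝ, 0 ≤ K → p b - 1 ≤ K → StI B uq up (hb1 a b) M K t →
    Val B (Db + M + max K ((t + p b - 1) / 2))

/-- the finer version of `CrSI` -/
def CrTI (B : V → V → ℤ) (uq up : ℕ → V) (p : ℕ → ℝ) (a b : ℕ) (Db D1 : ℝ) : Prop :=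
  ∀ M K t κ : ℝ, 0 ≤ K → StI B uq up (hb1 a b) M K t →
    (κ < p b - 1 → Val B (Db + M + max (max K κ) ((t + p b - 1) / 2)) ∨
      Val B (D1 + M + max (max K (p b)) ((t + 2 * p b - κ) / 2))) ∧
    (p b - 1 ≤ κ → Val B (Db + M + max (max K κ) ((t + p b - 1) / 2)))

lemma CrTI.toS {a b : ℕ} {Db D1 : ℝ} (h : CrTI B uq up p a b Db D1) :
    CrSI B uq up p a b Db := by
  intro M K t hK hpK hst
  have h1 := (h M K t (p b - 1) hK hst).2 le_rfl
  rw [max_eq_left hpK] at h1
  exact h1

/-- values at the end of the path in terms of index sets -/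
def EnI (B : V → V → ℤ) (uq up : ℕ → V) (a b : ℕ) (Db β : ℝ) : Prop :=
  ∃ D L : ℝ, 0 ≤ L ∧ D ≤ Db ∧ D + L ≤ β ∧ ∀ M K t : ℝ, 0 ≤ K →
    StI B uq up (hb1 a b) M K t → Val B (D + M + max (max L K) ((L + t) / 2))

lemma EnI.mono {a b : ℕ} {Db β Db' β' : ℝ} (h : EnI B uq up a b Db β) (h1 : Db ≤ Db')
    (h2 : β ≤ β') : EnI B uq up a b Db' β' := by
  obtain ⟨D, L, h3, h4, h5, h6⟩ := h
  exact ⟨D, L, h3, h4.trans h1, h5.trans h2, h6⟩

/-- values at the end of a path with a last vertex `y`; the first kind does not use `y` -/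
def EnLI (B : V → V → ℤ) (uq up : ℕ → V) (a b : ℕ) (S : Finset V) (D1 β : ℝ) : Prop :=
  ∃ y ∈ S, im B y + MM B (uq 0) y < 0 ∧ 1 ≤ MM B (uq 0) y ∧ ∃ D L : ℝ, 1 ≤ L ∧ D ≤ D1 ∧
    D + MM B (uq 0) y ≤ D1 + 1 ∧ D + L + MM B (uq 0) y + ((im B y : ℤ) : ℝ) ≤ β ∧
    (∀ M K t : ℝ, 0 ≤ K → St B (im B) (insert y (vs uq up (hb1 a b))) M K t →
      Val B (D + M + max (max L K) ((L + t) / 2))) ∧
    (∀ M K t : ℝ, 0 ≤ K → StI B uq up (hb1 a b) M K t →
      Val B (D + MM B (uq 0) y + M + max (max |L + ((im B y : ℤ) : ℝ)| K)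
        ((|L + ((im B y : ℤ) : ℝ)| + t) / 2)))

/-- the end of the path in terms of index sets -/
def OutI (B : V → V → ℤ) (uq up : ℕ → V) (a b : ℕ) (S : Finset V) (D1 β : ℝ) : Prop :=
  EnI B uq up a b D1 β ∨ EnLI B uq up a b S D1 β

lemma OutI.mono {a b : ℕ} {S : Finset V} {D1 β D1' β' : ℝ} (h : OutI B uq up a b S D1 β)
    (h1 : D1 ≤ D1') (h2 : β ≤ β') : OutI B uq up a b S D1' β' := by
  rcases h with h | ⟨y, hy, h3, h4, D, L, h5, h6, h6', h7, h8, h9⟩
  · exact Or.inl (h.mono h1 h2)
  · exact Or.inr ⟨y, hy, h3, h4, D, L, h5, h6.trans h1, by linarith, h7.trans h2, h8, h9⟩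

/-- T2: all neutral vertices signed greedily -/
def T2I (B : V → V → ℤ) (uq up : ℕ → V) (a b : ℕ) (S : Finset V) (g Y : ℤ) : Prop :=
  ∀ y0 M K t : ℝ, 0 ≤ K → 0 ≤ y0 → (∀ v ∈ S, |((im B v : ℤ) : ℝ)| ≤ y0) →
    StI B uq up (hb a b) M K t →
    Val B (-(g : ℝ) + M + max (max (max ((Y : ℝ) - ∑ v ∈ S, |((im B v : ℤ) : ℝ)|) y0) K)
      ((max ((Y : ℝ) - ∑ v ∈ S, |((im B v : ℤ) : ℝ)|) y0 + t) / 2))

/-- T2: neutral vertices attached to a hub -/
def T2A (B : V → V → ℤ) (uq up : ℕ → V) (a b : ℕ) (S : Finset V) (g Y : ℤ) : Prop :=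
  ∀ z ∈ hb a b, ∀ S0 ⊆ S, ∀ s : V → ℤ, (∀ v, s v = 1 ∨ s v = -1) →
    ∀ y0 M K t : ℝ, 0 ≤ K → 0 ≤ y0 → (∀ v ∈ S0, |((im B v : ℤ) : ℝ)| ≤ y0) →
    |((im B (vx uq up z) + ∑ v ∈ S \ S0, im B v * s v : ℤ) : ℝ)| ≤ K →
    StI B uq up ((hb a b).erase z) M K t →
    Val B (-(g : ℝ) + (M + ((∑ v ∈ S \ S0, MM B (vx uq up z) v * s v : ℤ) : ℝ)) +
      max (max (max ((Y : ℝ) - ∑ v ∈ S0, |((im B v : ℤ) : ℝ)|) y0) K)
        ((max ((Y : ℝ) - ∑ v ∈ S0, |((im B v : ℤ) : ℝ)|) y0 + (t +
        |((im B (vx uq up z) + ∑ v ∈ S \ S0, im B v * s v : ℤ) : ℝ)|)) / 2))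

/-- T1 at the end of the path -/
structure EndI (B : V → V → ℤ) (uq up : ℕ → V) (q0 : ℝ) (a b : ℕ) (S : Finset V)
    (g Y nb cR e : ℤ) : Prop where
  w : OutI B uq up a b S (cR - nb) (q0 - g - Gam B (uq 0) S)
  t : OutI B uq up a b S (cR - nb) (cR - nb + q0 - Y)
  v : ∀ v ∈ S, 0 ≤ im B v → OutI B uq up a b S (cR - nb) (cR - nb + q0 - Y - |((im B v : ℤ) : ℝ)|)
  v' : e + 1 ≤ nb → ∀ v ∈ S,
    OutI B uq up a b S (cR - nb + 1) (cR - nb + 1 + q0 - Y - |((im B v : ℤ) : ℝ)|)

/-- T1 with a budget: a set `F` of harmful neutral vertices is placed on the side of the hub -/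
def BudI (B : V → V → ℤ) (uq up : ℕ → V) (q p : ℕ → ℝ) (a b : ℕ) (S : Finset V)
    (g Y nb cR e : ℤ) : Prop :=
  ∀ F ⊆ S, (∀ v ∈ F, im B v + MM B (uq 0) v < 0 ∧ 1 ≤ MM B (uq 0) v) →
    CrI B uq up q p a b ((max (max 0 (cR - e)) (cR - nb + F.card) : ℤ) : ℝ) ∨
    (OutI B uq up a b S (cR - nb + F.card)
        (q 0 - g - Gam B (uq 0) S + ∑ v ∈ F, ((MM B (uq 0) v : ℝ) + im B v)) ∧
      OutI B uq up a b S (cR - nb + F.card)
        (cR - nb + q 0 - Y + ∑ v ∈ F, ((MM B (uq 0) v : ℝ) + im B v)))

/-- the decomposition of the set `R` -/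
structure Dec (B : V → V → ℤ) (pick : Finset V → V) (R Rs S : Finset V) (g : ℤ)
    (Kc : V → Finset V) : Prop where
  un : Rs ∪ S = R
  dj : Disjoint Rs S
  cg : (Rs.card : ℤ) ≤ 2 * g
  g0 : 0 ≤ g
  ind : ∀ u ∈ S, ∀ v ∈ S, MM B u v = 0
  bad : ∀ v ∈ S, Bad B R (Kc v) ∧ v ∈ Kc v ∧ v = pick (Kc v) ∧ (Kc v).erase v ⊆ Rs
  kd : ∀ u ∈ S, ∀ v ∈ S, u ≠ v → Disjoint (Kc u) (Kc v)
  bl : BlocksN B S Rs g

/-- **The path statement for a cut of the two chains, with a budget.** -/
theorem Frame.cutF (h : Frame B Rl ℓ nQ nP uq up q p) {a b : ℕ} (ha1 : 1 ≤ a) (haQ : a ≤ nQ)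
    (hbP : b ≤ nP) (hq0 : 0 < q 0)
    (pick : Finset V → V) (hpick : ∀ K : Finset V, K.Nonempty → pick K ∈ K) :
    ∃ (Rs S : Finset V) (g : ℤ) (Kc : V → Finset V),
      Dec B pick (vs uq up (rr nQ nP a b)) Rs S g Kc ∧
      ∀ cR e : ℤ, ch (MM B (uq 0)) (vs uq up (rr nQ nP a b)) ≤ cR → e ≤ 1 → (Rs = ∅ → e ≤ 0) →
        ∃ Y nb : ℤ, (0 ≤ Y ∧ (Rs = ∅ → Y = 0)) ∧ 0 ≤ nb ∧ e ≤ nb ∧ (Rs.Nonempty → 1 ≤ nb) ∧
          (Rs.card : ℤ) ≤ g + nb ∧ T2I B uq up a b S g Y ∧ T2A B uq up a b S g Y ∧
          BudI B uq up q p a b S g Y nb cR e ∧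
          (CrI B uq up q p a b ((max 0 (cR - e) : ℤ) : ℝ) ∨
            EndI B uq up (q 0) a b S g Y nb cR e) := by
  classical
  have hQ := h.nQle
  have hP := h.nPle
  have hB0 := h.sys.B0
  have hB1 := h.sys.B1
  have hBd := h.sys.Bd
  set R := vs uq up (rr nQ nP a b) with hR
  obtain ⟨Rs, S, g, Kc, hRS, hdS, hbl, hcg, hind, hbad, hKd⟩ := exists_dec hB0 hB1 hBd pick hpick
    R.card R rfl
  have hg0 : 0 ≤ g := by
    have : (0 : ℤ) ≤ Rs.card := Nat.cast_nonneg _
    linarith
  refine ⟨Rs, S, g, Kc, ⟨hRS, hdS, hcg, hg0, hind, hbad, hKd, hbl⟩, ?_⟩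
  intro cR e hcR he1 he0
  set hv : V := uq 0 with hhv
  set Cv : Finset V := vs uq up (hb1 a b ∪ dm ℓ nQ nP) with hCv
  have hfull : insert (Sum.inl 0) (rr nQ nP a b ∪ (hb1 a b ∪ dm ℓ nQ nP)) = full ℓ := by
    unfold rr hb1 dm
    (ext x; rcases x with x | x <;>
    simp only [Finset.mem_union, Finset.mem_insert, Finset.mem_singleton, inl_mem_full,
      inr_mem_full, inl_mem_iq, inr_mem_iq, inl_mem_ip, inr_mem_ip, Sum.inl.injEq, Sum.inr.injEq,
      reduceCtorEq, Finset.notMem_empty, or_false, false_or, false_imp_iff, imp_false,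
      implies_true, not_false_eq_true, iff_false, false_iff] <;> omega)
  have hRf : rr nQ nP a b ⊆ full ℓ := by unfold rr; (intro x hx; revert hx; rcases x with x | x <;>
    simp only [Finset.mem_union, Finset.mem_insert, Finset.mem_singleton, inl_mem_full,
      inr_mem_full, inl_mem_iq, inr_mem_iq, inl_mem_ip, inr_mem_ip, Sum.inl.injEq, Sum.inr.injEq,
      reduceCtorEq, Finset.notMem_empty, or_false, false_or, false_imp_iff, imp_false,
      implies_true, not_false_eq_true, iff_false, false_iff] <;> omega)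
  have hCf : hb1 a b ∪ dm ℓ nQ nP ⊆ full ℓ := by unfold hb1 dm; (intro x hx; revert hx; rcases x with x | x <;>
    simp only [Finset.mem_union, Finset.mem_insert, Finset.mem_singleton, inl_mem_full,
      inr_mem_full, inl_mem_iq, inr_mem_iq, inl_mem_ip, inr_mem_ip, Sum.inl.injEq, Sum.inr.injEq,
      reduceCtorEq, Finset.notMem_empty, or_false, false_or, false_imp_iff, imp_false,
      implies_true, not_false_eq_true, iff_false, false_iff] <;> omega)
  have h0R : (Sum.inl 0 : ℕ ⊕ ℕ) ∉ rr nQ nP a b := by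
    unfold rr
    simp only [Finset.mem_union, inl_mem_iq, inl_mem_ip, or_false, not_and]
    omega
  have h0C : (Sum.inl 0 : ℕ ⊕ ℕ) ∉ hb1 a b ∪ dm ℓ nQ nP := by
    unfold hb1 dm
    simp only [Finset.mem_union, inl_mem_iq, inl_mem_ip, or_false, not_or, not_and]
    omega
  have h0f : (Sum.inl 0 : ℕ ⊕ ℕ) ∈ full ℓ := by simp; omega
  have hnot : ∀ I ⊆ full ℓ, (Sum.inl 0 : ℕ ⊕ ℕ) ∉ I → hv ∉ vs uq up I := by
    intro I hI h0 hmem
    unfold vs at hmem
    rw [Finset.mem_image] at hmem
    obtain ⟨x, hx, hx'⟩ := hmem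
    have := h.inj (hI hx) h0f hx'
    rw [this] at hx
    exact h0 hx
  have hhR : hv ∉ Rs ∪ S := by rw [hRS]; exact hnot _ hRf h0R
  have hhC : hv ∉ Cv := hnot _ hCf h0C
  have hdRC : Disjoint (Rs ∪ S) Cv := by
    rw [hRS]
    refine h.disj hRf hCf ?_
    unfold rr hb1 dm
    (rw [Finset.disjoint_left]; intro x hx hx'; revert hx hx'; rcases x with x | x <;>
    simp only [Finset.mem_union, Finset.mem_insert, Finset.mem_singleton, inl_mem_full,
      inr_mem_full, inl_mem_iq, inr_mem_iq, inl_mem_ip, inr_mem_ip, Sum.inl.injEq, Sum.inr.injEq,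
      reduceCtorEq, Finset.notMem_empty, or_false, false_or, false_imp_iff, imp_false,
      implies_true, not_false_eq_true, iff_false, false_iff] <;> omega)
  have huniv : insert hv ((Rs ∪ S) ∪ Cv) = Finset.univ := by
    rw [hRS, hR, hCv]
    unfold vs
    rw [← Finset.image_union, ← h.univ, ← hfull, Finset.image_insert]
    rfl
  have hRl : hv ∈ Rl := by
    rw [hhv, h.sys.realQ 0 (by omega)]; omega
  have himq : ((im B hv : ℤ) : ℝ) = q 0 := h.sys.wtQ 0 (by omega)
  have hq : 0 < im B hv := by
    have : (0 : ℝ) < ((im B hv : ℤ) : ℝ) := by rw [himq]; exact hq0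
    exact_mod_cast this
  obtain ⟨Y, nb, hY, hnb0, hnbe, hnb1, hcard, hT2, hTF, hT1⟩ := path_neutralF hB0 hB1 hBd hv hq hbl
    hdS hind hhR hhC hdRC huniv (cR := cR) (e := e) (by rw [hRS]; exact hcR) he1 he0
  refine ⟨Y, nb, hY, hnb0, hnbe, hnb1, hcard, ?_, ?_, ?_⟩
  · intro y0 M K t hK hy0 hy hst
    refine hT2 S (Finset.Subset.refl _) y0 M K t hK hy0 hy ?_
    have h3 := h.withDm hK hst (by unfold hb rr; (intro x hx; revert hx; rcases x with x | x <;>
    simp only [Finset.mem_union, Finset.mem_insert, Finset.mem_singleton, inl_mem_full,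
      inr_mem_full, inl_mem_iq, inr_mem_iq, inl_mem_ip, inr_mem_ip, Sum.inl.injEq, Sum.inr.injEq,
      reduceCtorEq, Finset.notMem_empty, or_false, false_or, false_imp_iff, imp_false,
      implies_true, not_false_eq_true, iff_false, false_iff] <;> omega))
    have h4 : Finset.univ \ (Rs ∪ S) = (hb a b ∪ dm ℓ nQ nP).image (vx uq up) := by
      rw [hRS, hR]
      unfold vs
      have h5 : full ℓ = rr nQ nP a b ∪ (hb a b ∪ dm ℓ nQ nP) := by
        unfold rr hb dm; (ext x; rcases x with x | x <;>
    simp only [Finset.mem_union, Finset.mem_insert, Finset.mem_singleton, inl_mem_full,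
      inr_mem_full, inl_mem_iq, inr_mem_iq, inl_mem_ip, inr_mem_ip, Sum.inl.injEq, Sum.inr.injEq,
      reduceCtorEq, Finset.notMem_empty, or_false, false_or, false_imp_iff, imp_false,
      implies_true, not_false_eq_true, iff_false, false_iff] <;> omega)
      rw [← h.univ, h5, Finset.image_union, Finset.union_sdiff_cancel_left]
      refine h.disj hRf (by unfold hb dm; (intro x hx; revert hx; rcases x with x | x <;>
    simp only [Finset.mem_union, Finset.mem_insert, Finset.mem_singleton, inl_mem_full,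
      inr_mem_full, inl_mem_iq, inr_mem_iq, inl_mem_ip, inr_mem_ip, Sum.inl.injEq, Sum.inr.injEq,
      reduceCtorEq, Finset.notMem_empty, or_false, false_or, false_imp_iff, imp_false,
      implies_true, not_false_eq_true, iff_false, false_iff] <;> omega)) ?_
      unfold rr hb dm
      (rw [Finset.disjoint_left]; intro x hx hx'; revert hx hx'; rcases x with x | x <;>
    simp only [Finset.mem_union, Finset.mem_insert, Finset.mem_singleton, inl_mem_full,
      inr_mem_full, inl_mem_iq, inr_mem_iq, inl_mem_ip, inr_mem_ip, Sum.inl.injEq, Sum.inr.injEq,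
      reduceCtorEq, Finset.notMem_empty, or_false, false_or, false_imp_iff, imp_false,
      implies_true, not_false_eq_true, iff_false, false_iff] <;> omega)
    rw [h4]
    exact h3
  · intro z hz S0 hS0 s hs y0 M K t hK hy0 hy hit hst
    have hzf : hb a b ⊆ full ℓ := by unfold hb; (intro x hx; revert hx; rcases x with x | x <;>
    simp only [Finset.mem_union, Finset.mem_insert, Finset.mem_singleton, inl_mem_full,
      inr_mem_full, inl_mem_iq, inr_mem_iq, inl_mem_ip, inr_mem_ip, Sum.inl.injEq, Sum.inr.injEq,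
      reduceCtorEq, Finset.notMem_empty, or_false, false_or, false_imp_iff, imp_false,
      implies_true, not_false_eq_true, iff_false, false_iff] <;> omega)
    set zv : V := vx uq up z with hzv
    -- the group
    have hzS : zv ∉ Rs ∪ S := by
      rw [hRS]
      have : Disjoint (rr nQ nP a b) (hb a b) := by
        unfold rr hb
        (rw [Finset.disjoint_left]; intro x hx hx'; revert hx hx'; rcases x with x | x <;>
    simp only [Finset.mem_union, Finset.mem_insert, Finset.mem_singleton, inl_mem_full,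
      inr_mem_full, inl_mem_iq, inr_mem_iq, inl_mem_ip, inr_mem_ip, Sum.inl.injEq, Sum.inr.injEq,
      reduceCtorEq, Finset.notMem_empty, or_false, false_or, false_imp_iff, imp_false,
      implies_true, not_false_eq_true, iff_false, false_iff] <;> omega)
      exact Finset.disjoint_right.1 (h.disj hRf hzf this) (Finset.mem_image_of_mem _ hz)
    have hzS' : zv ∉ S \ S0 := fun h' => hzS (by
      rw [Finset.mem_union]; right; exact (Finset.mem_sdiff.1 h').1)
    set x : V → ℤ := fun v => if v = zv then 1 else s v with hx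
    have hxz : x zv = 1 := by simp [hx]
    have hxS : ∀ v ∈ S \ S0, x v = s v := by
      intro v hv'
      have : v ≠ zv := fun e => hzS' (e ▸ hv')
      simp [hx, this]
    have hgr : St B (im B) (insert zv (S \ S0)) ((∑ v ∈ S \ S0, MM B zv v * s v : ℤ) : ℝ)
        |((im B zv + ∑ v ∈ S \ S0, im B v * s v : ℤ) : ℝ)|
        |((im B zv + ∑ v ∈ S \ S0, im B v * s v : ℤ) : ℝ)| := by
      refine St.group _ x ?_ ?_ ?_
      · intro v
        simp only [hx]
        split_ifs
        · left; rfl
        · exact hs v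
      · rw [Qd_star zv (S \ S0) hzS' hB0 hBd (fun l hl l' hl' => hind l
          (Finset.mem_sdiff.1 hl).1 l' (Finset.mem_sdiff.1 hl').1)]
        refine le_of_eq ?_
        congr 1
        refine Finset.sum_congr rfl fun v hv' => ?_
        rw [hxz, hxS v hv', one_mul]
      · rw [Finset.sum_insert hzS', hxz, mul_one, Finset.sum_congr rfl fun v hv' => by
          rw [hxS v hv']]
    have h3 := h.withDm hK hst (by
      refine (Finset.erase_subset _ _).trans ?_
      unfold hb rr; (intro x hx; revert hx; rcases x with x | x <;>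
    simp only [Finset.mem_union, Finset.mem_insert, Finset.mem_singleton, inl_mem_full,
      inr_mem_full, inl_mem_iq, inr_mem_iq, inl_mem_ip, inr_mem_ip, Sum.inl.injEq, Sum.inr.injEq,
      reduceCtorEq, Finset.notMem_empty, or_false, false_or, false_imp_iff, imp_false,
      implies_true, not_false_eq_true, iff_false, false_iff] <;> omega))
    have hdj : Disjoint (((hb a b).erase z ∪ dm ℓ nQ nP).image (vx uq up))
        (insert zv (S \ S0)) := by
      rw [Finset.disjoint_right]
      intro v hv' hv''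
      rcases Finset.mem_insert.1 hv' with rfl | hv'
      · rw [Finset.mem_image] at hv''
        obtain ⟨w, hw, hw'⟩ := hv''
        have hzf' : z ∈ full ℓ := hzf hz
        have hwf : w ∈ full ℓ := by
          rcases Finset.mem_union.1 hw with h5 | h5
          · exact hzf (Finset.mem_of_mem_erase h5)
          · revert h5
            have : dm ℓ nQ nP ⊆ full ℓ := by unfold dm; (intro x hx; revert hx; rcases x with x | x <;>
    simp only [Finset.mem_union, Finset.mem_insert, Finset.mem_singleton, inl_mem_full,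
      inr_mem_full, inl_mem_iq, inr_mem_iq, inl_mem_ip, inr_mem_ip, Sum.inl.injEq, Sum.inr.injEq,
      reduceCtorEq, Finset.notMem_empty, or_false, false_or, false_imp_iff, imp_false,
      implies_true, not_false_eq_true, iff_false, false_iff] <;> omega)
            intro h5
            exact this h5
        have hwz := h.inj hwf hzf' hw'
        rw [hwz] at hw
        rcases Finset.mem_union.1 hw with h5 | h5
        · exact Finset.notMem_erase _ _ h5
        · have : Disjoint (hb a b) (dm ℓ nQ nP) := by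
            unfold hb dm
            (rw [Finset.disjoint_left]; intro x hx hx'; revert hx hx'; rcases x with x | x <;>
    simp only [Finset.mem_union, Finset.mem_insert, Finset.mem_singleton, inl_mem_full,
      inr_mem_full, inl_mem_iq, inr_mem_iq, inl_mem_ip, inr_mem_ip, Sum.inl.injEq, Sum.inr.injEq,
      reduceCtorEq, Finset.notMem_empty, or_false, false_or, false_imp_iff, imp_false,
      implies_true, not_false_eq_true, iff_false, false_iff] <;> omega)
          exact Finset.disjoint_left.1 this hz h5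
      · have h5 : v ∈ Rs ∪ S := by
          rw [Finset.mem_union]; right; exact (Finset.mem_sdiff.1 hv').1
        rw [hRS] at h5
        have : Disjoint (rr nQ nP a b) ((hb a b).erase z ∪ dm ℓ nQ nP) := by
          refine Finset.disjoint_of_subset_right (Finset.union_subset_union_left
            (Finset.erase_subset _ _)) ?_
          unfold rr hb dm
          (rw [Finset.disjoint_left]; intro x hx hx'; revert hx hx'; rcases x with x | x <;>
    simp only [Finset.mem_union, Finset.mem_insert, Finset.mem_singleton, inl_mem_full,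
      inr_mem_full, inl_mem_iq, inr_mem_iq, inl_mem_ip, inr_mem_ip, Sum.inl.injEq, Sum.inr.injEq,
      reduceCtorEq, Finset.notMem_empty, or_false, false_or, false_imp_iff, imp_false,
      implies_true, not_false_eq_true, iff_false, false_iff] <;> omega)
        refine Finset.disjoint_left.1 (h.disj hRf ?_ this) h5 hv''
        refine Finset.union_subset ((Finset.erase_subset _ _).trans hzf) ?_
        unfold dm; (intro x hx; revert hx; rcases x with x | x <;>
    simp only [Finset.mem_union, Finset.mem_insert, Finset.mem_singleton, inl_mem_full,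
      inr_mem_full, inl_mem_iq, inr_mem_iq, inl_mem_ip, inr_mem_ip, Sum.inl.injEq, Sum.inr.injEq,
      reduceCtorEq, Finset.notMem_empty, or_false, false_or, false_imp_iff, imp_false,
      implies_true, not_false_eq_true, iff_false, false_iff] <;> omega)
    have h4 := St.union h3 (hgr.mono le_rfl hit le_rfl) hdj
    have h6 : Finset.univ \ (Rs ∪ S0) = ((hb a b).erase z ∪ dm ℓ nQ nP).image (vx uq up) ∪
        insert zv (S \ S0) := by
      have e1 : full ℓ = rr nQ nP a b ∪ insert z ((hb a b).erase z ∪ dm ℓ nQ nP) := by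
        rw [← Finset.insert_union, Finset.insert_erase hz]
        unfold rr hb dm; (ext x; rcases x with x | x <;>
    simp only [Finset.mem_union, Finset.mem_insert, Finset.mem_singleton, inl_mem_full,
      inr_mem_full, inl_mem_iq, inr_mem_iq, inl_mem_ip, inr_mem_ip, Sum.inl.injEq, Sum.inr.injEq,
      reduceCtorEq, Finset.notMem_empty, or_false, false_or, false_imp_iff, imp_false,
      implies_true, not_false_eq_true, iff_false, false_iff] <;> omega)
      have e2 : (Finset.univ : Finset V) = (Rs ∪ S) ∪ insert zv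
          (((hb a b).erase z ∪ dm ℓ nQ nP).image (vx uq up)) := by
        rw [← h.univ, e1, Finset.image_union, Finset.image_insert, hRS]
        rfl
      ext v
      have hv' : v ∈ (Rs ∪ S) ∪ insert zv
          (((hb a b).erase z ∪ dm ℓ nQ nP).image (vx uq up)) := by
        rw [← e2]; exact Finset.mem_univ v
      have hd5 : v ∈ (((hb a b).erase z ∪ dm ℓ nQ nP).image (vx uq up)) → v ∉ Rs ∪ S := by
        intro h7 h5
        rw [hRS] at h5
        have : Disjoint (rr nQ nP a b) ((hb a b).erase z ∪ dm ℓ nQ nP) := by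
          refine Finset.disjoint_of_subset_right (Finset.union_subset_union_left
            (Finset.erase_subset _ _)) ?_
          unfold rr hb dm
          (rw [Finset.disjoint_left]; intro x hx hx'; revert hx hx'; rcases x with x | x <;>
    simp only [Finset.mem_union, Finset.mem_insert, Finset.mem_singleton, inl_mem_full,
      inr_mem_full, inl_mem_iq, inr_mem_iq, inl_mem_ip, inr_mem_ip, Sum.inl.injEq, Sum.inr.injEq,
      reduceCtorEq, Finset.notMem_empty, or_false, false_or, false_imp_iff, imp_false,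
      implies_true, not_false_eq_true, iff_false, false_iff] <;> omega)
        refine Finset.disjoint_left.1 (h.disj hRf ?_ this) h5 h7
        refine Finset.union_subset ((Finset.erase_subset _ _).trans hzf) ?_
        unfold dm; (intro x hx; revert hx; rcases x with x | x <;>
    simp only [Finset.mem_union, Finset.mem_insert, Finset.mem_singleton, inl_mem_full,
      inr_mem_full, inl_mem_iq, inr_mem_iq, inl_mem_ip, inr_mem_ip, Sum.inl.injEq, Sum.inr.injEq,
      reduceCtorEq, Finset.notMem_empty, or_false, false_or, false_imp_iff, imp_false,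
      implies_true, not_false_eq_true, iff_false, false_iff] <;> omega)
      have hd6 : v ∈ Rs → v ∉ S := fun h7 h8 => Finset.disjoint_left.1 hdS h7 h8
      simp only [Finset.mem_sdiff, Finset.mem_univ, true_and, Finset.mem_union,
        Finset.mem_insert, not_or] at hv' hd5 hzS ⊢
      constructor
      · rintro ⟨h7, h8⟩
        rcases hv' with (h9 | h9) | h9 | h9
        · exact absurd h9 h7
        · right; right; exact ⟨h9, h8⟩
        · right; left; exact h9
        · left; exact h9
      · rintro (h9 | h9 | h9)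
        · exact ⟨(hd5 h9).1, fun h10 => (hd5 h9).2 (hS0 h10)⟩
        · rw [h9]; exact ⟨hzS.1, fun h10 => hzS.2 (hS0 h10)⟩
        · exact ⟨fun h10 => hd6 h10 h9.1, h9.2⟩
    rw [← h6] at h4
    exact hT2 S0 hS0 y0 _ K _ hK hy0 hy h4
  · -- T1
    have conv : ∀ Db : ℤ, ∀ Db' : ℝ, (Db : ℝ) = Db' → ∀ β : ℤ, ∀ β' : ℝ, (β : ℝ) = β' →
        Out B (MM B hv) S Cv Db β → OutI B uq up a b S Db' β' := by
      intro Db Db' hDb β β' hβ hO
      rcases hO with hE | hE
      · left
        obtain ⟨D, L, h3, h4, h5, h6⟩ := hE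
        refine ⟨D, L, h3, by rw [← hDb]; exact h4, by rw [← hβ]; exact h5, ?_⟩
        intro M K t hK hst
        exact h6 M K t hK (h.withDm hK hst (by unfold hb1 rr; (intro x hx; revert hx; rcases x with x | x <;>
    simp only [Finset.mem_union, Finset.mem_insert, Finset.mem_singleton, inl_mem_full,
      inr_mem_full, inl_mem_iq, inr_mem_iq, inl_mem_ip, inr_mem_ip, Sum.inl.injEq, Sum.inr.injEq,
      reduceCtorEq, Finset.notMem_empty, or_false, false_or, false_imp_iff, imp_false,
      implies_true, not_false_eq_true, iff_false, false_iff] <;> omega)))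
      · right
        obtain ⟨y, hy, h3, h4, D, L, h5, h6, h6', h7, h8, h9⟩ := hE
        refine ⟨y, hy, h3, h4, D, L, h5, by rw [← hDb]; exact h6, by rw [← hDb]; exact h6',
          by rw [← hβ]; exact h7, ?_, ?_⟩
        · intro M K t hK hst
          refine h8 M K t hK ?_
          have hyR : y ∈ vs uq up (rr nQ nP a b) := by
            rw [← hR, ← hRS, Finset.mem_union]; right; exact hy
          have hdm : Disjoint (insert y (vs uq up (hb1 a b))) ((dm ℓ nQ nP).image (vx uq up)) := by
            rw [Finset.disjoint_insert_left]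
            constructor
            · have : Disjoint (rr nQ nP a b) (dm ℓ nQ nP) := by
                unfold rr dm
                (rw [Finset.disjoint_left]; intro x hx hx'; revert hx hx'; rcases x with x | x <;>
    simp only [Finset.mem_union, Finset.mem_insert, Finset.mem_singleton, inl_mem_full,
      inr_mem_full, inl_mem_iq, inr_mem_iq, inl_mem_ip, inr_mem_ip, Sum.inl.injEq, Sum.inr.injEq,
      reduceCtorEq, Finset.notMem_empty, or_false, false_or, false_imp_iff, imp_false,
      implies_true, not_false_eq_true, iff_false, false_iff] <;> omega)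
              exact Finset.disjoint_left.1 (h.disj hRf (by unfold dm; (intro x hx; revert hx; rcases x with x | x <;>
    simp only [Finset.mem_union, Finset.mem_insert, Finset.mem_singleton, inl_mem_full,
      inr_mem_full, inl_mem_iq, inr_mem_iq, inl_mem_ip, inr_mem_ip, Sum.inl.injEq, Sum.inr.injEq,
      reduceCtorEq, Finset.notMem_empty, or_false, false_or, false_imp_iff, imp_false,
      implies_true, not_false_eq_true, iff_false, false_iff] <;> omega)) this) hyR
            · exact h.disj (by unfold hb1; (intro x hx; revert hx; rcases x with x | x <;>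
    simp only [Finset.mem_union, Finset.mem_insert, Finset.mem_singleton, inl_mem_full,
      inr_mem_full, inl_mem_iq, inr_mem_iq, inl_mem_ip, inr_mem_ip, Sum.inl.injEq, Sum.inr.injEq,
      reduceCtorEq, Finset.notMem_empty, or_false, false_or, false_imp_iff, imp_false,
      implies_true, not_false_eq_true, iff_false, false_iff] <;> omega)) (by unfold dm; (intro x hx; revert hx; rcases x with x | x <;>
    simp only [Finset.mem_union, Finset.mem_insert, Finset.mem_singleton, inl_mem_full,
      inr_mem_full, inl_mem_iq, inr_mem_iq, inl_mem_ip, inr_mem_ip, Sum.inl.injEq, Sum.inr.injEq,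
      reduceCtorEq, Finset.notMem_empty, or_false, false_or, false_imp_iff, imp_false,
      implies_true, not_false_eq_true, iff_false, false_iff] <;> omega)) (by
                unfold hb1 dm
                (rw [Finset.disjoint_left]; intro x hx hx'; revert hx hx'; rcases x with x | x <;>
    simp only [Finset.mem_union, Finset.mem_insert, Finset.mem_singleton, inl_mem_full,
      inr_mem_full, inl_mem_iq, inr_mem_iq, inl_mem_ip, inr_mem_ip, Sum.inl.injEq, Sum.inr.injEq,
      reduceCtorEq, Finset.notMem_empty, or_false, false_or, false_imp_iff, imp_false,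
      implies_true, not_false_eq_true, iff_false, false_iff] <;> omega))
          have h10 := St.union hst (h.stDm hK) hdm
          have e1 : insert y (vs uq up (hb1 a b)) ∪ (dm ℓ nQ nP).image (vx uq up) =
              insert y Cv := by
            rw [hCv]
            unfold vs
            rw [Finset.image_union, Finset.insert_union]
          rw [e1] at h10
          exact h10.mono (by norm_num) le_rfl (by norm_num)
        · intro M K t hK hst
          exact h9 M K t hK (h.withDm hK hst (by unfold hb1 rr; (intro x hx; revert hx; rcases x with x | x <;>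
    simp only [Finset.mem_union, Finset.mem_insert, Finset.mem_singleton, inl_mem_full,
      inr_mem_full, inl_mem_iq, inr_mem_iq, inl_mem_ip, inr_mem_ip, Sum.inl.injEq, Sum.inr.injEq,
      reduceCtorEq, Finset.notMem_empty, or_false, false_or, false_imp_iff, imp_false,
      implies_true, not_false_eq_true, iff_false, false_iff] <;> omega)))
    have hqn : 0 ≤ q a := h.sys.chQ.nn a (by omega)
    have hpn : 0 ≤ p b := h.sys.chP.nn b (by omega)
    have bQ : ∀ v ∈ Rs ∪ S, 0 ≤ im B v → ((im B v : ℤ) : ℝ) ≤ q a := by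
      intro v hv' hv0
      rw [hRS, hR] at hv'
      unfold vs rr at hv'
      simp only [Finset.mem_image, Finset.mem_union, Sum.exists, inl_mem_iq, inl_mem_ip,
        inr_mem_iq, inr_mem_ip, or_false, false_or, vx, Sum.elim_inl, Sum.elim_inr] at hv'
      rcases hv' with ⟨i, hi, rfl⟩ | ⟨i, hi, rfl⟩
      · rw [h.sys.wtQ i (by omega)]
        exact h.sys.chQ.anti a i hi.1 (by omega)
      · rw [h.sys.wtP i (by omega)]
        have := h.sys.chP.nn i (by omega)
        linarith
    have bP : ∀ v ∈ Rs ∪ S, im B v < 0 → -((im B v : ℤ) : ℝ) ≤ p b := by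
      intro v hv' hv0
      rw [hRS, hR] at hv'
      unfold vs rr at hv'
      simp only [Finset.mem_image, Finset.mem_union, Sum.exists, inl_mem_iq, inl_mem_ip,
        inr_mem_iq, inr_mem_ip, or_false, false_or, vx, Sum.elim_inl, Sum.elim_inr] at hv'
      rcases hv' with ⟨i, hi, rfl⟩ | ⟨i, hi, rfl⟩
      · have h7 := h.sys.wtQ i (by omega)
        have h8 := h.sys.chQ.nn i (by omega)
        have h9 : ((im B (uq i) : ℤ) : ℝ) < 0 := by exact_mod_cast hv0
        linarith
      · rw [h.sys.wtP i (by omega), neg_neg]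
        exact h.sys.chP.anti b i hi.1 (by omega)
    have cr : ∀ Db : ℝ, Cr B (Rs ∪ S) Cv Db → CrI B uq up q p a b Db := by
      intro Db h3 M K t hK hqa hpb hst
      have h4 := h.withDm hK hst (by unfold hb1 rr; (intro x hx; revert hx; rcases x with x | x <;>
    simp only [Finset.mem_union, Finset.mem_insert, Finset.mem_singleton, inl_mem_full,
      inr_mem_full, inl_mem_iq, inr_mem_iq, inl_mem_ip, inr_mem_ip, Sum.inl.injEq, Sum.inr.injEq,
      reduceCtorEq, Finset.notMem_empty, or_false, false_or, false_imp_iff, imp_false,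
      implies_true, not_false_eq_true, iff_false, false_iff] <;> omega))
      exact h3 M K t (q a) (p b) hK h4 bQ hqa hqn bP hpb hpn
    refine ⟨?_, ?_⟩
    · intro F hF hF'
      rcases hTF F hF hF' with h3 | ⟨h3, h4⟩
      · exact Or.inl (cr _ h3)
      · right
        refine ⟨conv _ _ ?_ _ _ ?_ h3, conv _ _ ?_ _ _ ?_ h4⟩
        all_goals first
          | (push_cast; done)
          | (push_cast; rw [himq]; done)
          | (push_cast; ring1)
          | (push_cast; rw [himq]; ring1)
    rcases hT1 with h3 | ⟨h3, h4, h5, h6⟩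
    · left
      intro M K t hK hqa hpb hst
      have h4 := h.withDm hK hst (by unfold hb1 rr; (intro x hx; revert hx; rcases x with x | x <;>
    simp only [Finset.mem_union, Finset.mem_insert, Finset.mem_singleton, inl_mem_full,
      inr_mem_full, inl_mem_iq, inr_mem_iq, inl_mem_ip, inr_mem_ip, Sum.inl.injEq, Sum.inr.injEq,
      reduceCtorEq, Finset.notMem_empty, or_false, false_or, false_imp_iff, imp_false,
      implies_true, not_false_eq_true, iff_false, false_iff] <;> omega))
      exact h3 M K t (q a) (p b) hK h4 bQ hqa hqn bP hpb hpn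
    · right
      refine ⟨conv _ _ ?_ _ _ ?_ h3, conv _ _ ?_ _ _ ?_ h4,
        fun v hv' hv0 => conv _ _ ?_ _ _ ?_ (h5 v hv' hv0),
        fun hn v hv' => conv _ _ ?_ _ _ ?_ (h6 hn v hv')⟩
      all_goals first
        | (push_cast; done)
        | (push_cast; rw [himq]; done)
        | (push_cast; ring1)
        | (push_cast; rw [himq]; ring1)

/-- **The path statement for a cut of the two chains.** -/
theorem Frame.cut (h : Frame B Rl ℓ nQ nP uq up q p) {a b : ℕ} (ha1 : 1 ≤ a) (haQ : a ≤ nQ)
    (hbP : b ≤ nP) (hq0 : 0 < q 0)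
    (pick : Finset V → V) (hpick : ∀ K : Finset V, K.Nonempty → pick K ∈ K) :
    ∃ (Rs S : Finset V) (g : ℤ) (Kc : V → Finset V),
      Dec B pick (vs uq up (rr nQ nP a b)) Rs S g Kc ∧
      ∀ cR e : ℤ, ch (MM B (uq 0)) (vs uq up (rr nQ nP a b)) ≤ cR → e ≤ 1 → (Rs = ∅ → e ≤ 0) →
        ∃ Y nb : ℤ, (0 ≤ Y ∧ (Rs = ∅ → Y = 0)) ∧ 0 ≤ nb ∧ e ≤ nb ∧ (Rs.Nonempty → 1 ≤ nb) ∧
          (Rs.card : ℤ) ≤ g + nb ∧ T2I B uq up a b S g Y ∧ T2A B uq up a b S g Y ∧
          (CrI B uq up q p a b ((max 0 (cR - e) : ℤ) : ℝ) ∨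
            EndI B uq up (q 0) a b S g Y nb cR e) := by
  obtain ⟨Rs, S, g, Kc, h1, h2⟩ := h.cutF ha1 haQ hbP hq0 pick hpick
  refine ⟨Rs, S, g, Kc, h1, ?_⟩
  intro cR e h3 h4 h5
  obtain ⟨Y, nb, h6, h7, h8, h9, h10, h11, h12, _, h13⟩ := h2 cR e h3 h4 h5
  exact ⟨Y, nb, h6, h7, h8, h9, h10, h11, h12, h13⟩

/-- from the end of the path to the last crossing or the simple end -/
lemma Frame.outI (h : Frame B Rl ℓ nQ nP uq up q p) {a b : ℕ} (hbP : b ≤ nP) {S : Finset V}
    (haQ : a ≤ nQ) (hS : S ⊆ vs uq up (rr nQ nP a b)) {D1 β : ℝ}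
    (hO : OutI B uq up a b S D1 β) :
    CrTI B uq up p a b (D1 + 1) D1 ∨ EnI B uq up a b (D1 + 1) β := by
  have hQ := h.nQle
  have hP := h.nPle
  rcases hO with hE | ⟨y, hy, h3, h4, D, L, h5, h6, h6', h7, h8, h9⟩
  · exact Or.inr (hE.mono (by linarith) le_rfl)
  · have hy0 : im B y < 0 := by linarith
    have hy0' : ((im B y : ℤ) : ℝ) < 0 := by exact_mod_cast hy0
    have hyp : -((im B y : ℤ) : ℝ) ≤ p b := by
      have hv' := hS hy
      unfold vs rr at hv'
      simp only [Finset.mem_image, Finset.mem_union, Sum.exists, inl_mem_iq, inl_mem_ip,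
        inr_mem_iq, inr_mem_ip, or_false, false_or, vx, Sum.elim_inl, Sum.elim_inr] at hv'
      rcases hv' with ⟨i, hi, hiy⟩ | ⟨i, hi, hiy⟩
      · have h7 := h.sys.wtQ i (by omega)
        have h8 := h.sys.chQ.nn i (by omega)
        rw [hiy] at h7
        linarith
      · have h7 := h.sys.wtP i (by omega)
        rw [hiy] at h7
        rw [h7, neg_neg]
        exact h.sys.chP.anti b i hi.1 (by omega)
    rcases lt_or_ge 0 (L + ((im B y : ℤ) : ℝ)) with h10 | h10
    · right
      refine ⟨D + MM B (uq 0) y, L + ((im B y : ℤ) : ℝ), h10.le, by linarith, by linarith, ?_⟩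
      intro M K t hK hst
      have := h9 M K t hK hst
      rw [abs_of_pos h10] at this
      exact this
    · left
      intro M K t κ hK hst
      have hsm : -(L + ((im B y : ℤ) : ℝ)) ≤ κ →
          Val B (D1 + 1 + M + max (max K κ) ((t + p b - 1) / 2)) := by
        intro h11
        have h12 := h9 M K t hK hst
        rw [abs_of_nonpos h10] at h12
        refine h12.mono ?_
        have h13 : max (max (-(L + ((im B y : ℤ) : ℝ))) K)
            ((-(L + ((im B y : ℤ) : ℝ)) + t) / 2) ≤ max (max K κ) ((t + p b - 1) / 2) :=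
          max_le_max (max_le (h11.trans (le_max_right _ _)) (le_max_left _ _)) (by linarith)
        linarith
      refine ⟨fun hκ => ?_, fun hκ => hsm (by linarith)⟩
      rcases le_or_gt (-(L + ((im B y : ℤ) : ℝ))) κ with h11 | h11
      · exact Or.inl (hsm h11)
      · right
        have hyC : Disjoint (vs uq up (hb1 a b)) {y} := by
          rw [Finset.disjoint_singleton_right]
          have : Disjoint (rr nQ nP a b) (hb1 a b) := by
            unfold rr hb1
            (rw [Finset.disjoint_left]; intro x hx hx'; revert hx hx'; rcases x with x | x <;>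
    simp only [Finset.mem_union, Finset.mem_insert, Finset.mem_singleton, inl_mem_full,
      inr_mem_full, inl_mem_iq, inr_mem_iq, inl_mem_ip, inr_mem_ip, Sum.inl.injEq, Sum.inr.injEq,
      reduceCtorEq, Finset.notMem_empty, or_false, false_or, false_imp_iff, imp_false,
      implies_true, not_false_eq_true, iff_false, false_iff] <;> omega)
          exact Finset.disjoint_left.1 (h.disj (by unfold rr; (intro x hx; revert hx; rcases x with x | x <;>
    simp only [Finset.mem_union, Finset.mem_insert, Finset.mem_singleton, inl_mem_full,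
      inr_mem_full, inl_mem_iq, inr_mem_iq, inl_mem_ip, inr_mem_ip, Sum.inl.injEq, Sum.inr.injEq,
      reduceCtorEq, Finset.notMem_empty, or_false, false_or, false_imp_iff, imp_false,
      implies_true, not_false_eq_true, iff_false, false_iff] <;> omega)) (by unfold hb1; (intro x hx; revert hx; rcases x with x | x <;>
    simp only [Finset.mem_union, Finset.mem_insert, Finset.mem_singleton, inl_mem_full,
      inr_mem_full, inl_mem_iq, inr_mem_iq, inl_mem_ip, inr_mem_ip, Sum.inl.injEq, Sum.inr.injEq,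
      reduceCtorEq, Finset.notMem_empty, or_false, false_or, false_imp_iff, imp_false,
      implies_true, not_false_eq_true, iff_false, false_iff] <;> omega))
            this) (hS hy)
        have h12 : St B (im B) {y} 0 (max K (p b)) (p b) :=
          (St.one h.sys.Bd y (K := -((im B y : ℤ) : ℝ)) (by rw [abs_of_neg hy0'])).mono le_rfl
            (hyp.trans (le_max_right _ _)) hyp
        have h14 := St.union (St.mono hst le_rfl (le_max_left K (p b)) le_rfl) h12 hyC
        have e : vs uq up (hb1 a b) ∪ {y} = insert y (vs uq up (hb1 a b)) := by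
          ext z; simp only [Finset.mem_union, Finset.mem_singleton, Finset.mem_insert]; tauto
        have h15 : St B (im B) (insert y (vs uq up (hb1 a b))) (M + 0) (max K (p b)) (t + p b) := by
          rw [← e]; exact h14
        refine (h8 _ _ _ (hK.trans (le_max_left _ _)) h15).mono ?_
        have hL : L ≤ p b - κ := by linarith
        have hLr : L ≤ p b := by linarith
        have h13 : max (max L (max K (p b))) ((L + (t + p b)) / 2) ≤
            max (max K (p b)) ((t + 2 * p b - κ) / 2) :=
          max_le_max (max_le (hLr.trans (le_max_right _ _)) le_rfl) (by linarith)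
        linarith

/-- the charges of the first hub -/
lemma Frame.chR (h : Frame B Rl ℓ nQ nP uq up q p) {a b : ℕ} (ha1 : 1 ≤ a) (haQ : a ≤ nQ)
    (hbP : b ≤ nP) {T : Finset V} (hT : T ⊆ vs uq up (hb1 a b)) :
    ((ch (MM B (uq 0)) (vs uq up (rr nQ nP a b)) +
      ∑ c ∈ T, (1 - (B (uq 0) c - B c (uq 0))) : ℤ) : ℝ) ≤ Rl.card - 1 - q 0 := by
  have hQ := h.nQle
  have hP := h.nPle
  have hRl : uq 0 ∈ Rl := by
    rw [h.sys.realQ 0 (by omega)]; omega
  have himq : ((im B (uq 0) : ℤ) : ℝ) = q 0 := h.sys.wtQ 0 (by omega)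
  have hsub : ∀ I ⊆ rr nQ nP 0 0, vs uq up I ⊆ Rl := by
    intro I hI
    rw [← h.real]
    exact vs_mono hI
  have hRRl : vs uq up (rr nQ nP a b) ⊆ Rl := hsub _ (by unfold rr; (intro x hx; revert hx; rcases x with x | x <;>
    simp only [Finset.mem_union, Finset.mem_insert, Finset.mem_singleton, inl_mem_full,
      inr_mem_full, inl_mem_iq, inr_mem_iq, inl_mem_ip, inr_mem_ip, Sum.inl.injEq, Sum.inr.injEq,
      reduceCtorEq, Finset.notMem_empty, or_false, false_or, false_imp_iff, imp_false,
      implies_true, not_false_eq_true, iff_false, false_iff] <;> omega))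
  have hTRl : T ⊆ Rl := hT.trans (hsub _ (by unfold hb1 rr; (intro x hx; revert hx; rcases x with x | x <;>
    simp only [Finset.mem_union, Finset.mem_insert, Finset.mem_singleton, inl_mem_full,
      inr_mem_full, inl_mem_iq, inr_mem_iq, inl_mem_ip, inr_mem_ip, Sum.inl.injEq, Sum.inr.injEq,
      reduceCtorEq, Finset.notMem_empty, or_false, false_or, false_imp_iff, imp_false,
      implies_true, not_false_eq_true, iff_false, false_iff] <;> omega)))
  have hd : Disjoint (vs uq up (rr nQ nP a b)) T := by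
    refine Finset.disjoint_of_subset_right hT (h.disj (by unfold rr; (intro x hx; revert hx; rcases x with x | x <;>
    simp only [Finset.mem_union, Finset.mem_insert, Finset.mem_singleton, inl_mem_full,
      inr_mem_full, inl_mem_iq, inr_mem_iq, inl_mem_ip, inr_mem_ip, Sum.inl.injEq, Sum.inr.injEq,
      reduceCtorEq, Finset.notMem_empty, or_false, false_or, false_imp_iff, imp_false,
      implies_true, not_false_eq_true, iff_false, false_iff] <;> omega))
      (by unfold hb1; (intro x hx; revert hx; rcases x with x | x <;>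
    simp only [Finset.mem_union, Finset.mem_insert, Finset.mem_singleton, inl_mem_full,
      inr_mem_full, inl_mem_iq, inr_mem_iq, inl_mem_ip, inr_mem_ip, Sum.inl.injEq, Sum.inr.injEq,
      reduceCtorEq, Finset.notMem_empty, or_false, false_or, false_imp_iff, imp_false,
      implies_true, not_false_eq_true, iff_false, false_iff] <;> omega)) ?_)
    unfold rr hb1
    (rw [Finset.disjoint_left]; intro x hx hx'; revert hx hx'; rcases x with x | x <;>
    simp only [Finset.mem_union, Finset.mem_insert, Finset.mem_singleton, inl_mem_full,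
      inr_mem_full, inl_mem_iq, inr_mem_iq, inl_mem_ip, inr_mem_ip, Sum.inl.injEq, Sum.inr.injEq,
      reduceCtorEq, Finset.notMem_empty, or_false, false_or, false_imp_iff, imp_false,
      implies_true, not_false_eq_true, iff_false, false_iff] <;> omega)
  have h0f : (Sum.inl 0 : ℕ ⊕ ℕ) ∈ full ℓ := by simp; omega
  have hnot : ∀ I ⊆ full ℓ, (Sum.inl 0 : ℕ ⊕ ℕ) ∉ I → uq 0 ∉ vs uq up I := by
    intro I hI h0 hmem
    unfold vs at hmem
    rw [Finset.mem_image] at hmem
    obtain ⟨x, hx, hx'⟩ := hmem
    have := h.inj (hI hx) h0f hx'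
    rw [this] at hx
    exact h0 hx
  have hh : uq 0 ∉ vs uq up (rr nQ nP a b) ∪ T := by
    rw [Finset.mem_union, not_or]
    refine ⟨hnot _ (by unfold rr; (intro x hx; revert hx; rcases x with x | x <;>
    simp only [Finset.mem_union, Finset.mem_insert, Finset.mem_singleton, inl_mem_full,
      inr_mem_full, inl_mem_iq, inr_mem_iq, inl_mem_ip, inr_mem_ip, Sum.inl.injEq, Sum.inr.injEq,
      reduceCtorEq, Finset.notMem_empty, or_false, false_or, false_imp_iff, imp_false,
      implies_true, not_false_eq_true, iff_false, false_iff] <;> omega)) ?_, fun h' => hnot _ (by unfold hb1; (intro x hx; revert hx; rcases x with x | x <;>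
    simp only [Finset.mem_union, Finset.mem_insert, Finset.mem_singleton, inl_mem_full,
      inr_mem_full, inl_mem_iq, inr_mem_iq, inl_mem_ip, inr_mem_ip, Sum.inl.injEq, Sum.inr.injEq,
      reduceCtorEq, Finset.notMem_empty, or_false, false_or, false_imp_iff, imp_false,
      implies_true, not_false_eq_true, iff_false, false_iff] <;> omega)) ?_
      (hT h')⟩
    · unfold rr
      simp only [Finset.mem_union, inl_mem_iq, inl_mem_ip, or_false, not_and]
      omega
    · unfold hb1
      simp only [Finset.mem_union, inl_mem_iq, inl_mem_ip, or_false, not_and]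
      omega
  have h3 := charge_sum h.sys.B0 h.sys.B1 h.sys.Bd h.sys.dummy hRl 1 (Or.inl rfl)
    (Finset.union_subset hRRl hTRl) hh
  rw [one_mul, Finset.sum_union hd] at h3
  have h4 : ch (MM B (uq 0)) (vs uq up (rr nQ nP a b)) ≤
      ∑ v ∈ vs uq up (rr nQ nP a b), (1 - 1 * (B (uq 0) v - B v (uq 0))) := by
    unfold ch
    refine Finset.sum_le_sum fun v _ => ?_
    have h4 := mult_le h.sys.B0 h.sys.B1 (uq 0) v 1 (Or.inl rfl)
    refine le_trans ?_ h4
    split_ifs with h5
    · exact abs_nonneg _
    · have : MM B (uq 0) v - 1 ≠ 0 := fun e => h5 (by linarith)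
      exact Int.one_le_abs this
  have h5 : ∑ c ∈ T, (1 - (B (uq 0) c - B c (uq 0))) =
      ∑ c ∈ T, (1 - 1 * (B (uq 0) c - B c (uq 0))) :=
    Finset.sum_congr rfl fun c _ => by rw [one_mul]
  have h6 : ch (MM B (uq 0)) (vs uq up (rr nQ nP a b)) +
      ∑ c ∈ T, (1 - (B (uq 0) c - B c (uq 0))) ≤ Rl.card - 1 - im B (uq 0) := by
    rw [h5]; linarith
  rw [← himq]
  exact_mod_cast h6

end Pool.Agent.Exact
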