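import Pool.Agent.Lib_helper68.Exact.Blocks

/-!
# Averaging over the signs of pairs
-/

set_option autoImplicit false
set_option linter.unusedSectionVars false

namespace Pool.Agent.Exact

open Finset

variable {V : Type*} [DecidableEq V] {B : V → V → ℤ}

/-- the mean of `|c + sum of ± l|` -/
noncomputable def NS : List ℝ → ℝ → ℝ
  | [], c => |c|
  | d :: l, c => (NS l (c + d) + NS l (c - d)) / 2

lemma NS_neg (l : List ℝ) : ∀ c, NS l (-c) = NS l c := by
  induction l with
  | nil => intro c; simp [NS]
  | cons d l ih =>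
    intro c
    simp only [NS]
    rw [show -c + d = -(c - d) by ring, show -c - d = -(c + d) by ring, ih, ih]
    ring

lemma NS_abs (l : List ℝ) (c : ℝ) : NS l |c| = NS l c := by
  rcases abs_cases c with ⟨h, _⟩ | ⟨h, _⟩ <;> rw [h]
  rw [NS_neg]

/-- the bound (R1) -/
theorem NS_le (M : ℝ) (hM : 0 ≤ M) (l : List ℝ) (hl : ∀ d ∈ l, 0 ≤ d ∧ d ≤ M) :
    ∀ c : ℝ, NS l c ≤ max (max |c| M) ((|c| + l.sum) / 2) := by
  -- the sum is at least each item: use a variable maximum
  have key : ∀ (l : List ℝ), (∀ d ∈ l, 0 ≤ d) → ∃ m : ℝ, 0 ≤ m ∧ m ≤ l.sum ∧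
      (∀ K, 0 ≤ K → (∀ d ∈ l, d ≤ K) → m ≤ K) ∧
      ∀ c : ℝ, 0 ≤ c → NS l c ≤ max (max c m) ((c + l.sum) / 2) := by
    intro l
    induction l with
    | nil =>
      intro _
      refine ⟨0, le_rfl, by simp, fun K hK _ => hK, fun c hc => ?_⟩
      simp only [NS, abs_of_nonneg hc]
      exact (le_max_left _ _).trans (le_max_left _ _)
    | cons d l ih =>
      intro hd
      have hd0 : 0 ≤ d := hd d (by simp)
      obtain ⟨m, hm0, hms, hmK, hm⟩ := ih fun e he => hd e (by simp [he])
      refine ⟨max d m, le_max_of_le_left hd0, ?_, ?_, ?_⟩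
      · rw [List.sum_cons]
        exact max_le (by linarith) (by linarith)
      · intro K hK h
        exact max_le (h d (by simp)) (hmK K hK fun e he => h e (by simp [he]))
      · intro c hc
        rw [List.sum_cons]
        have h1 := hm (c + d) (by linarith)
        have h2 := hm |c - d| (abs_nonneg _)
        rw [NS_abs] at h2
        simp only [NS]
        set s := l.sum with hs
        set T := max (max c (max d m)) ((c + (d + s)) / 2) with hT
        have t1 : c ≤ T := (le_max_left _ _).trans (le_max_left _ _)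
        have t2 : d ≤ T := ((le_max_left _ _).trans (le_max_right _ _)).trans (le_max_left _ _)
        have t3 : m ≤ T := ((le_max_right _ _).trans (le_max_right _ _)).trans (le_max_left _ _)
        have t4 : (c + (d + s)) / 2 ≤ T := le_max_right _ _
        have habs : |c - d| ≤ max c d := by
          rw [abs_le]
          constructor
          · have := le_max_right c d; linarith
          · have := le_max_left c d; linarith
        have habs2 : |c - d| ≤ T := habs.trans (max_le t1 t2)
        have habs3 : |c - d| ≤ c + d := by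
          rw [abs_le]; constructor <;> linarith
        have h3 : max (max |c - d| m) ((|c - d| + s) / 2) ≤ T := by
          refine max_le (max_le habs2 t3) ?_
          linarith
        have h1' := h1
        -- first maximum
        rcases le_total (max (c + d) m) ((c + d + s) / 2) with h4 | h4
        · rw [max_eq_right h4] at h1
          linarith
        · rw [max_eq_left h4] at h1
          rcases le_total (c + d) m with h5 | h5
          · rw [max_eq_right h5] at h1
            linarith
          · rw [max_eq_left h5] at h1 h4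
            rcases le_total (max |c - d| m) ((|c - d| + s) / 2) with h6 | h6
            · rw [max_eq_right h6] at h2
              have h7 : |c - d| ≤ (|c - d| + s) / 2 := (le_max_left _ _).trans h6
              rcases le_total c d with h8 | h8
              · rw [abs_of_nonpos (by linarith)] at h2 h7
                linarith
              · rw [abs_of_nonneg (by linarith)] at h2 h7
                linarith
            · rw [max_eq_left h6] at h2
              rcases le_total |c - d| m with h7 | h7
              · rw [max_eq_right h7] at h2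
                linarith
              · rw [max_eq_left h7] at h2
                rcases le_total c d with h8 | h8
                · rw [abs_of_nonpos (by linarith)] at h2
                  linarith
                · rw [abs_of_nonneg (by linarith)] at h2
                  linarith
  intro c
  obtain ⟨m, _, _, hmK, hm⟩ := key l fun d hd => (hl d hd).1
  have h1 := hm |c| (abs_nonneg _)
  rw [NS_abs] at h1
  have h2 := hmK M hM fun d hd => (hl d hd).2
  exact h1.trans (max_le_max (max_le_max le_rfl h2) le_rfl)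

/-- a set divided into pairs: on opposite sides (`opp`), on the same side (`same`), and single
vertices; with the quadratic cost and the list of the contributions to the linear form -/
inductive Pairs (B : V → V → ℤ) (s : V → ℤ) : Finset V → ℤ → List ℝ → Prop
  | empty : Pairs B s ∅ 0 []
  | opp (S : Finset V) (M : ℤ) (l : List ℝ) (u v : V) : Pairs B s S M l → u ∉ S → v ∉ S → u ≠ v →
      Pairs B s (S ∪ {u, v}) (M - MM B u v) (((s u - s v : ℤ) : ℝ) :: l)
  | same (S : Finset V) (M : ℤ) (l : List ℝ) (u v : V) : Pairs B s S M l → u ∉ S → v ∉ S → u ≠ v →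
      Pairs B s (S ∪ {u, v}) (M + MM B u v) (((s u + s v : ℤ) : ℝ) :: l)
  | one (S : Finset V) (M : ℤ) (l : List ℝ) (v : V) : Pairs B s S M l → v ∉ S →
      Pairs B s (S ∪ {v}) M (((s v : ℤ) : ℝ) :: l)

lemma Qd_pair (hB : ∀ v, B v v = 0) {u v : V} (huv : u ≠ v) (x : V → ℤ) :
    Qd B {u, v} x = MM B u v * (x u * x v) := by
  unfold Qd MM
  rw [Finset.sum_pair huv, Finset.sum_pair huv, Finset.sum_pair huv, hB, hB]
  ring

/-- **Averaging lemma.** -/
theorem Pairs.exists_sign {s : V → ℤ} (hB : ∀ v, B v v = 0) {S : Finset V} {M : ℤ} {l : List ℝ}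
    (h : Pairs B s S M l) : ∀ (f : V → ℤ) (c : ℝ), ∃ x : V → ℤ, (∀ v, x v = 1 ∨ x v = -1) ∧
      ((∑ v ∈ S, f v * x v + Qd B S x : ℤ) : ℝ) + |c + ((∑ v ∈ S, s v * x v : ℤ) : ℝ)| ≤
        M + NS l c := by
  induction h with
  | empty =>
    intro f c
    exact ⟨fun _ => 1, fun _ => Or.inl rfl, by simp [Qd, NS]⟩
  | opp S M l u v hS hu hv huv ih =>
    intro f c
    have hd : Disjoint S {u, v} := by
      rw [Finset.disjoint_right]
      intro z hz
      rw [Finset.mem_insert, Finset.mem_singleton] at hz
      rcases hz with rfl | rfl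
      · exact hu
      · exact hv
    have step : ∀ ε : ℤ, (ε = 1 ∨ ε = -1) → ∃ x : V → ℤ, (∀ v, x v = 1 ∨ x v = -1) ∧
        ((∑ w ∈ S ∪ {u, v}, f w * x w + Qd B (S ∪ {u, v}) x : ℤ) : ℝ) +
          |c + ((∑ w ∈ S ∪ {u, v}, s w * x w : ℤ) : ℝ)| ≤
        ((ε * (f u - f v) - MM B u v + M : ℤ) : ℝ) +
          NS l (c + ((ε * (s u - s v) : ℤ) : ℝ)) := by
      intro ε hε
      obtain ⟨x, hx, hx'⟩ := ih (fun w => f w + ε * (MM B w u - MM B w v))
        (c + ((ε * (s u - s v) : ℤ) : ℝ))
      set y : V → ℤ := fun w => if w = u then ε else if w = v then -ε else x w with hy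
      have hyu : y u = ε := by simp [hy]
      have hyv : y v = -ε := by simp [hy, huv.symm]
      have hyS : ∀ w ∈ S, y w = x w := by
        intro w hw
        have h3 : w ≠ u := fun e => hu (e ▸ hw)
        have h4 : w ≠ v := fun e => hv (e ▸ hw)
        simp [hy, h3, h4]
      refine ⟨y, ?_, ?_⟩
      · intro w
        simp only [hy]
        split_ifs
        · exact hε
        · rcases hε with h | h <;> rw [h] <;> norm_num
        · exact hx w
      · have e1 : ∑ w ∈ S ∪ {u, v}, f w * y w = ∑ w ∈ S, f w * x w + ε * (f u - f v) := by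
          rw [Finset.sum_union hd, Finset.sum_pair huv, hyu, hyv]
          rw [Finset.sum_congr rfl fun w hw => by rw [hyS w hw]]
          ring
        have e2 : ∑ w ∈ S ∪ {u, v}, s w * y w = ∑ w ∈ S, s w * x w + ε * (s u - s v) := by
          rw [Finset.sum_union hd, Finset.sum_pair huv, hyu, hyv]
          rw [Finset.sum_congr rfl fun w hw => by rw [hyS w hw]]
          ring
        have e3 : Qd B (S ∪ {u, v}) y = Qd B S x - MM B u v +
            ∑ w ∈ S, (ε * (MM B w u - MM B w v)) * x w := by
          rw [Qd_union hd, Qd_pair hB huv, Qd_congr hyS, hyu, hyv]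
          have e4 : Int B S {u, v} y = ∑ w ∈ S, (ε * (MM B w u - MM B w v)) * x w := by
            unfold Int
            refine Finset.sum_congr rfl fun w hw => ?_
            rw [Finset.sum_pair huv, hyu, hyv, hyS w hw]
            ring
          rw [e4]
          have : ε * -ε = -1 := by rcases hε with h | h <;> rw [h] <;> norm_num
          rw [this]
          ring
        rw [e1, e2, e3]
        have e5 : ∑ w ∈ S, (f w + ε * (MM B w u - MM B w v)) * x w =
            ∑ w ∈ S, f w * x w + ∑ w ∈ S, (ε * (MM B w u - MM B w v)) * x w := by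
          rw [← Finset.sum_add_distrib]
          exact Finset.sum_congr rfl fun w _ => by ring
        rw [e5] at hx'
        push_cast at hx' ⊢
        have e6 : c + (∑ w ∈ S, (s w : ℝ) * x w + ε * (s u - s v)) =
            c + ε * (s u - s v) + ∑ w ∈ S, (s w : ℝ) * x w := by ring
        rw [e6]
        linarith
    obtain ⟨x1, hx1, h1⟩ := step 1 (Or.inl rfl)
    obtain ⟨x2, hx2, h2⟩ := step (-1) (Or.inr rfl)
    have hc2 : c + (((-1) * (s u - s v) : ℤ) : ℝ) = c - ((s u - s v : ℤ) : ℝ) := by
      push_cast; ring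
    have hc1 : c + ((1 * (s u - s v) : ℤ) : ℝ) = c + ((s u - s v : ℤ) : ℝ) := by
      push_cast; ring
    rw [hc2] at h2
    rw [hc1] at h1
    simp only [NS]
    rcases le_total
      (((∑ w ∈ S ∪ {u, v}, f w * x1 w + Qd B (S ∪ {u, v}) x1 : ℤ) : ℝ) +
          |c + ((∑ w ∈ S ∪ {u, v}, s w * x1 w : ℤ) : ℝ)|)
      (((∑ w ∈ S ∪ {u, v}, f w * x2 w + Qd B (S ∪ {u, v}) x2 : ℤ) : ℝ) +
          |c + ((∑ w ∈ S ∪ {u, v}, s w * x2 w : ℤ) : ℝ)|) with h3 | h3
    · refine ⟨x1, hx1, ?_⟩
      push_cast at h1 h2 h3 ⊢
      linarith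
    · refine ⟨x2, hx2, ?_⟩
      push_cast at h1 h2 h3 ⊢
      linarith
  | same S M l u v hS hu hv huv ih =>
    intro f c
    have hd : Disjoint S {u, v} := by
      rw [Finset.disjoint_right]
      intro z hz
      rw [Finset.mem_insert, Finset.mem_singleton] at hz
      rcases hz with rfl | rfl
      · exact hu
      · exact hv
    have step : ∀ ε : ℤ, (ε = 1 ∨ ε = -1) → ∃ x : V → ℤ, (∀ v, x v = 1 ∨ x v = -1) ∧
        ((∑ w ∈ S ∪ {u, v}, f w * x w + Qd B (S ∪ {u, v}) x : ℤ) : ℝ) +
          |c + ((∑ w ∈ S ∪ {u, v}, s w * x w : ℤ) : ℝ)| ≤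
        ((ε * (f u + f v) + MM B u v + M : ℤ) : ℝ) +
          NS l (c + ((ε * (s u + s v) : ℤ) : ℝ)) := by
      intro ε hε
      obtain ⟨x, hx, hx'⟩ := ih (fun w => f w + ε * (MM B w u + MM B w v))
        (c + ((ε * (s u + s v) : ℤ) : ℝ))
      set y : V → ℤ := fun w => if w = u then ε else if w = v then ε else x w with hy
      have hyu : y u = ε := by simp [hy]
      have hyv : y v = ε := by simp [hy]
      have hyS : ∀ w ∈ S, y w = x w := by
        intro w hw
        have h3 : w ≠ u := fun e => hu (e ▸ hw)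
        have h4 : w ≠ v := fun e => hv (e ▸ hw)
        simp [hy, h3, h4]
      refine ⟨y, ?_, ?_⟩
      · intro w
        simp only [hy]
        split_ifs
        · exact hε
        · exact hε
        · exact hx w
      · have e1 : ∑ w ∈ S ∪ {u, v}, f w * y w = ∑ w ∈ S, f w * x w + ε * (f u + f v) := by
          rw [Finset.sum_union hd, Finset.sum_pair huv, hyu, hyv]
          rw [Finset.sum_congr rfl fun w hw => by rw [hyS w hw]]
          ring
        have e2 : ∑ w ∈ S ∪ {u, v}, s w * y w = ∑ w ∈ S, s w * x w + ε * (s u + s v) := by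
          rw [Finset.sum_union hd, Finset.sum_pair huv, hyu, hyv]
          rw [Finset.sum_congr rfl fun w hw => by rw [hyS w hw]]
          ring
        have e3 : Qd B (S ∪ {u, v}) y = Qd B S x + MM B u v +
            ∑ w ∈ S, (ε * (MM B w u + MM B w v)) * x w := by
          rw [Qd_union hd, Qd_pair hB huv, Qd_congr hyS, hyu, hyv]
          have e4 : Int B S {u, v} y = ∑ w ∈ S, (ε * (MM B w u + MM B w v)) * x w := by
            unfold Int
            refine Finset.sum_congr rfl fun w hw => ?_
            rw [Finset.sum_pair huv, hyu, hyv, hyS w hw]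
            ring
          rw [e4]
          have : ε * ε = 1 := by rcases hε with h | h <;> rw [h] <;> norm_num
          rw [this]
          ring
        rw [e1, e2, e3]
        have e5 : ∑ w ∈ S, (f w + ε * (MM B w u + MM B w v)) * x w =
            ∑ w ∈ S, f w * x w + ∑ w ∈ S, (ε * (MM B w u + MM B w v)) * x w := by
          rw [← Finset.sum_add_distrib]
          exact Finset.sum_congr rfl fun w _ => by ring
        rw [e5] at hx'
        push_cast at hx' ⊢
        have e6 : c + (∑ w ∈ S, (s w : ℝ) * x w + ε * (s u + s v)) =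
            c + ε * (s u + s v) + ∑ w ∈ S, (s w : ℝ) * x w := by ring
        rw [e6]
        linarith
    obtain ⟨x1, hx1, h1⟩ := step 1 (Or.inl rfl)
    obtain ⟨x2, hx2, h2⟩ := step (-1) (Or.inr rfl)
    have hc2 : c + (((-1) * (s u + s v) : ℤ) : ℝ) = c - ((s u + s v : ℤ) : ℝ) := by
      push_cast; ring
    have hc1 : c + ((1 * (s u + s v) : ℤ) : ℝ) = c + ((s u + s v : ℤ) : ℝ) := by
      push_cast; ring
    rw [hc2] at h2
    rw [hc1] at h1
    simp only [NS]
    rcases le_total
      (((∑ w ∈ S ∪ {u, v}, f w * x1 w + Qd B (S ∪ {u, v}) x1 : ℤ) : ℝ) +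
          |c + ((∑ w ∈ S ∪ {u, v}, s w * x1 w : ℤ) : ℝ)|)
      (((∑ w ∈ S ∪ {u, v}, f w * x2 w + Qd B (S ∪ {u, v}) x2 : ℤ) : ℝ) +
          |c + ((∑ w ∈ S ∪ {u, v}, s w * x2 w : ℤ) : ℝ)|) with h3 | h3
    · refine ⟨x1, hx1, ?_⟩
      push_cast at h1 h2 h3 ⊢
      linarith
    · refine ⟨x2, hx2, ?_⟩
      push_cast at h1 h2 h3 ⊢
      linarith
  | one S M l v hS hv ih =>
    intro f c
    have hd : Disjoint S {v} := by simpa using hv
    have step : ∀ ε : ℤ, (ε = 1 ∨ ε = -1) → ∃ x : V → ℤ, (∀ v, x v = 1 ∨ x v = -1) ∧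
        ((∑ w ∈ S ∪ {v}, f w * x w + Qd B (S ∪ {v}) x : ℤ) : ℝ) +
          |c + ((∑ w ∈ S ∪ {v}, s w * x w : ℤ) : ℝ)| ≤
        ((ε * f v + M : ℤ) : ℝ) + NS l (c + ((ε * s v : ℤ) : ℝ)) := by
      intro ε hε
      obtain ⟨x, hx, hx'⟩ := ih (fun w => f w + ε * MM B w v) (c + ((ε * s v : ℤ) : ℝ))
      set y : V → ℤ := fun w => if w = v then ε else x w with hy
      have hyv : y v = ε := by simp [hy]
      have hyS : ∀ w ∈ S, y w = x w := by
        intro w hw
        have h4 : w ≠ v := fun e => hv (e ▸ hw)
        simp [hy, h4]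
      refine ⟨y, ?_, ?_⟩
      · intro w
        simp only [hy]
        split_ifs
        · exact hε
        · exact hx w
      · have e1 : ∑ w ∈ S ∪ {v}, f w * y w = ∑ w ∈ S, f w * x w + ε * f v := by
          rw [Finset.sum_union hd, Finset.sum_singleton, hyv]
          rw [Finset.sum_congr rfl fun w hw => by rw [hyS w hw]]
          ring
        have e2 : ∑ w ∈ S ∪ {v}, s w * y w = ∑ w ∈ S, s w * x w + ε * s v := by
          rw [Finset.sum_union hd, Finset.sum_singleton, hyv]
          rw [Finset.sum_congr rfl fun w hw => by rw [hyS w hw]]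
          ring
        have e3 : Qd B (S ∪ {v}) y = Qd B S x + ∑ w ∈ S, (ε * MM B w v) * x w := by
          rw [Qd_union hd, Qd_single v hB, Qd_congr hyS]
          have e4 : Int B S {v} y = ∑ w ∈ S, (ε * MM B w v) * x w := by
            unfold Int
            refine Finset.sum_congr rfl fun w hw => ?_
            rw [Finset.sum_singleton, hyv, hyS w hw]
            ring
          rw [e4]
          ring
        rw [e1, e2, e3]
        have e5 : ∑ w ∈ S, (f w + ε * MM B w v) * x w =
            ∑ w ∈ S, f w * x w + ∑ w ∈ S, (ε * MM B w v) * x w := by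
          rw [← Finset.sum_add_distrib]
          exact Finset.sum_congr rfl fun w _ => by ring
        rw [e5] at hx'
        push_cast at hx' ⊢
        have e6 : c + (∑ w ∈ S, (s w : ℝ) * x w + ε * s v) =
            c + ε * s v + ∑ w ∈ S, (s w : ℝ) * x w := by ring
        rw [e6]
        linarith
    obtain ⟨x1, hx1, h1⟩ := step 1 (Or.inl rfl)
    obtain ⟨x2, hx2, h2⟩ := step (-1) (Or.inr rfl)
    have hc2 : c + (((-1) * s v : ℤ) : ℝ) = c - ((s v : ℤ) : ℝ) := by
      push_cast; ring
    have hc1 : c + ((1 * s v : ℤ) : ℝ) = c + ((s v : ℤ) : ℝ) := by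
      push_cast; ring
    rw [hc2] at h2
    rw [hc1] at h1
    simp only [NS]
    rcases le_total
      (((∑ w ∈ S ∪ {v}, f w * x1 w + Qd B (S ∪ {v}) x1 : ℤ) : ℝ) +
          |c + ((∑ w ∈ S ∪ {v}, s w * x1 w : ℤ) : ℝ)|)
      (((∑ w ∈ S ∪ {v}, f w * x2 w + Qd B (S ∪ {v}) x2 : ℤ) : ℝ) +
          |c + ((∑ w ∈ S ∪ {v}, s w * x2 w : ℤ) : ℝ)|) with h3 | h3
    · refine ⟨x1, hx1, ?_⟩
      push_cast at h1 h2 h3 ⊢
      linarith
    · refine ⟨x2, hx2, ?_⟩
      push_cast at h1 h2 h3 ⊢
      linarith

end Pool.Agent.Exact
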