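import Pool.Agent.Lib_helper68.Exact.Even

/-!
# The frame: hub, fixed part, paired part
-/

set_option autoImplicit false
set_option linter.unusedSectionVars false

namespace Pool.Agent.Exact

open Finset

variable {V : Type*} [Fintype V] [DecidableEq V] {B : V → V → ℤ}

/-- outdegree minus indegree -/
def im (B : V → V → ℤ) (v : V) : ℤ := ∑ u, B v u - ∑ u, B u v

/-- there is a sign pattern of value at most `r` -/
def Val (B : V → V → ℤ) (r : ℝ) : Prop :=
  ∃ x : V → ℤ, (∀ v, x v = 1 ∨ x v = -1) ∧
    ((Qd B univ x : ℤ) : ℝ) + |((∑ v, im B v * x v : ℤ) : ℝ)| ≤ r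

lemma Val.mono {r r' : ℝ} (h : Val B r) (hr : r ≤ r') : Val B r' := by
  obtain ⟨x, hx, h⟩ := h
  exact ⟨x, hx, h.trans hr⟩

/-- extension of a fixed pattern by a paired part -/
theorem extend (hB : ∀ v, B v v = 0) (T : Finset V) (y : V → ℤ) (hy : ∀ v, y v = 1 ∨ y v = -1)
    {M : ℤ} {l : List ℝ} (hp : Pairs B (im B) Tᶜ M l) :
    Val B (((Qd B T y : ℤ) : ℝ) + M + NS l ((∑ v ∈ T, im B v * y v : ℤ) : ℝ)) := by
  obtain ⟨x, hx, hle⟩ := hp.exists_sign hB (fun v => ∑ u ∈ T, MM B u v * y u)
    ((∑ v ∈ T, im B v * y v : ℤ) : ℝ)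
  set z : V → ℤ := fun v => if v ∈ T then y v else x v with hz
  have hzT : ∀ v ∈ T, z v = y v := by intro v hv; simp [hz, hv]
  have hzC : ∀ v ∈ Tᶜ, z v = x v := by
    intro v hv
    rw [Finset.mem_compl] at hv
    simp [hz, hv]
  refine ⟨z, ?_, ?_⟩
  · intro v
    simp only [hz]
    split_ifs
    · exact hy v
    · exact hx v
  · have hd : Disjoint T Tᶜ := disjoint_compl_right
    have hu : T ∪ Tᶜ = univ := Finset.union_compl T
    have e1 : Qd B univ z = Qd B T y + Qd B Tᶜ x +
        ∑ v ∈ Tᶜ, (∑ u ∈ T, MM B u v * y u) * x v := by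
      rw [← hu, Qd_union hd, Qd_congr hzT, Qd_congr hzC, Int_comm]
      congr 1
      unfold Int
      refine Finset.sum_congr rfl fun v hv => ?_
      rw [Finset.sum_mul]
      refine Finset.sum_congr rfl fun u hu => ?_
      rw [hzC v hv, hzT u hu, MM_comm]
      ring
    have e2 : ∑ v, im B v * z v = ∑ v ∈ T, im B v * y v + ∑ v ∈ Tᶜ, im B v * x v := by
      rw [← hu, Finset.sum_union hd]
      congr 1
      · exact Finset.sum_congr rfl fun v hv => by rw [hzT v hv]
      · exact Finset.sum_congr rfl fun v hv => by rw [hzC v hv]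
    rw [e1, e2]
    push_cast at hle ⊢
    linarith

/-- the part fixed by a hub `h` (with sign `+`) and a pattern on `P` -/
theorem stop (hB : ∀ v, B v v = 0) (h : V) (P : Finset V) (hP : h ∉ P) (y : V → ℤ)
    (hy : ∀ v, y v = 1 ∨ y v = -1) {M : ℤ} {l : List ℝ}
    (hp : Pairs B (im B) (insert h P)ᶜ M l) :
    Val B (((DD B (MM B h) y P : ℤ) : ℝ) + M +
      NS l ((im B h + ∑ v ∈ P, im B v * y v : ℤ) : ℝ)) := by
  set z : V → ℤ := fun v => if v = h then 1 else y v with hz
  have hzh : z h = 1 := by simp [hz]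
  have hzP : ∀ v ∈ P, z v = y v := by
    intro v hv
    have : v ≠ h := fun e => hP (e ▸ hv)
    simp [hz, this]
  have hz1 : ∀ v, z v = 1 ∨ z v = -1 := by
    intro v
    simp only [hz]
    split_ifs
    · left; rfl
    · exact hy v
  have h3 := extend hB (insert h P) z hz1 hp
  have hd : Disjoint {h} P := by simpa using hP
  have e1 : Qd B (insert h P) z = DD B (MM B h) y P := by
    rw [Finset.insert_eq, Qd_union hd, Qd_single h hB, Qd_congr hzP]
    unfold DD Int
    rw [Finset.sum_singleton, zero_add, add_comm]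
    congr 1
    refine Finset.sum_congr rfl fun v hv => ?_
    rw [hzh, hzP v hv]
    ring
  have e2 : ∑ v ∈ insert h P, im B v * z v = im B h + ∑ v ∈ P, im B v * y v := by
    rw [Finset.sum_insert hP, hzh, mul_one]
    congr 1
    exact Finset.sum_congr rfl fun v hv => by rw [hzP v hv]
  rw [e1, e2] at h3
  exact h3

/-- sorted pairs in a set of vertices of one type -/
theorem tail_pos (h0 : ∀ u v, 0 ≤ B u v) (s : V → ℤ) : ∀ (n : ℕ) (S : Finset V) (β : ℤ),
    S.card = n → 0 ≤ β → (∀ v ∈ S, 0 ≤ s v ∧ s v ≤ β) →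
    ∃ (M : ℤ) (l : List ℝ), Pairs B s S M l ∧ M ≤ 0 ∧ (∀ d ∈ l, 0 ≤ d) ∧ l.sum ≤ β := by
  intro n
  induction n using Nat.strong_induction_on with
  | _ n ih =>
    intro S β hSn hβ hs
    rcases S.eq_empty_or_nonempty with rfl | hne
    · exact ⟨0, [], Pairs.empty, le_rfl, by simp, by simpa using hβ⟩
    · obtain ⟨u, hu, humax⟩ := Finset.exists_max_image S s hne
      rcases (S.erase u).eq_empty_or_nonempty with he | hne'
      · have hSu : S = ∅ ∪ {u} := by
          rw [Finset.empty_union]
          refine Finset.eq_singleton_iff_unique_mem.2 ⟨hu, fun v hv => ?_⟩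
          by_contra hvu
          have : v ∈ S.erase u := Finset.mem_erase.2 ⟨hvu, hv⟩
          rw [he] at this
          simp at this
        refine ⟨0, [((s u : ℤ) : ℝ)], ?_, le_rfl, ?_, ?_⟩
        · rw [hSu]
          exact Pairs.one ∅ 0 [] u Pairs.empty (by simp)
        · intro d hd
          rw [List.mem_singleton] at hd
          rw [hd]
          exact_mod_cast (hs u hu).1
        · simp only [List.sum_cons, List.sum_nil, add_zero]
          exact_mod_cast (hs u hu).2
      · obtain ⟨v, hv, hvmax⟩ := Finset.exists_max_image (S.erase u) s hne'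
        have hvS : v ∈ S := Finset.mem_of_mem_erase hv
        have hvu : v ≠ u := (Finset.mem_erase.1 hv).1
        have hcard : ((S.erase u).erase v).card < n := by
          rw [← hSn]
          exact (Finset.card_lt_card (Finset.erase_ssubset hv)).trans_le
            (Finset.card_le_card (Finset.erase_subset _ _))
        obtain ⟨M, l, hp, hM, hl, hsum⟩ := ih _ hcard ((S.erase u).erase v) (s v) rfl
          (hs v hvS).1 (fun w hw => by
            have hw1 : w ∈ S.erase u := Finset.mem_of_mem_erase hw
            exact ⟨(hs w (Finset.mem_of_mem_erase hw1)).1, hvmax w hw1⟩)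
        have hSe : S = (S.erase u).erase v ∪ {u, v} := by
          ext w
          simp only [Finset.mem_union, Finset.mem_erase, Finset.mem_insert, Finset.mem_singleton]
          by_cases h1 : w = u
          · subst h1; simp [hu]
          · by_cases h2 : w = v
            · subst h2; simp [hvS]
            · simp [h1, h2]
        refine ⟨M - MM B u v, ((s u - s v : ℤ) : ℝ) :: l, ?_, ?_, ?_, ?_⟩
        · have := Pairs.opp _ M l u v hp (fun h => (Finset.mem_erase.1
            (Finset.mem_of_mem_erase h)).1 rfl) (Finset.notMem_erase _ _) hvu.symm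
          rwa [← hSe] at this
        · have : 0 ≤ MM B u v := by unfold MM; linarith [h0 u v, h0 v u]
          linarith
        · intro d hd
          rcases List.mem_cons.1 hd with rfl | hd
          · have := humax v hvS
            exact_mod_cast sub_nonneg.2 this
          · exact hl d hd
        · rw [List.sum_cons]
          have h5 : ((s u : ℤ) : ℝ) ≤ β := by exact_mod_cast (hs u hu).2
          push_cast
          linarith

lemma Pairs.neg {s : V → ℤ} {S : Finset V} {M : ℤ} {l : List ℝ}
    (h : Pairs B (fun v => - s v) S M l) : Pairs B s S M (l.map fun d => -d) := by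
  induction h with
  | empty => exact Pairs.empty
  | opp S M l u v hS hu hv huv ih =>
    have := Pairs.opp S M _ u v ih hu hv huv
    have e : ((s u - s v : ℤ) : ℝ) = -((-s u - -s v : ℤ) : ℝ) := by push_cast; ring
    rw [e] at this
    exact this
  | same S M l u v hS hu hv huv ih =>
    have := Pairs.same S M _ u v ih hu hv huv
    have e : ((s u + s v : ℤ) : ℝ) = -((-s u + -s v : ℤ) : ℝ) := by push_cast; ring
    rw [e] at this
    exact this
  | one S M l v hS hv ih =>
    have := Pairs.one S M _ v ih hv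
    have e : ((s v : ℤ) : ℝ) = -((-s v : ℤ) : ℝ) := by push_cast; ring
    rw [e] at this
    exact this

lemma NS_map_neg (l : List ℝ) : ∀ c, NS (l.map fun d => -d) c = NS l c := by
  induction l with
  | nil => intro c; rfl
  | cons d l ih =>
    intro c
    simp only [List.map_cons, NS, ih]
    rw [show c - -d = c + d by ring, show c + -d = c - d by ring, add_comm]

/-- union of paired parts -/
lemma Pairs.union {s : V → ℤ} {S T : Finset V} {M M' : ℤ} {l l' : List ℝ}
    (hS : Pairs B s S M l) (hT : Pairs B s T M' l') (h : Disjoint S T) :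
    Pairs B s (S ∪ T) (M + M') (l' ++ l) := by
  induction hT with
  | empty => simpa using hS
  | opp T M' l' u v hT hu hv huv ih =>
    rw [Finset.disjoint_union_right] at h
    have h2 := h.2
    rw [Finset.disjoint_insert_right, Finset.disjoint_singleton_right] at h2
    rw [← Finset.union_assoc, ← add_sub_assoc, List.cons_append]
    refine Pairs.opp _ _ _ u v (ih h.1) ?_ ?_ huv
    · simp only [Finset.mem_union, not_or]; exact ⟨h2.1, hu⟩
    · simp only [Finset.mem_union, not_or]; exact ⟨h2.2, hv⟩
  | same T M' l' u v hT hu hv huv ih =>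
    rw [Finset.disjoint_union_right] at h
    have h2 := h.2
    rw [Finset.disjoint_insert_right, Finset.disjoint_singleton_right] at h2
    rw [← Finset.union_assoc, ← add_assoc, List.cons_append]
    refine Pairs.same _ _ _ u v (ih h.1) ?_ ?_ huv
    · simp only [Finset.mem_union, not_or]; exact ⟨h2.1, hu⟩
    · simp only [Finset.mem_union, not_or]; exact ⟨h2.2, hv⟩
  | one T M' l' v hT hv ih =>
    rw [Finset.disjoint_union_right] at h
    have h2 := h.2
    rw [Finset.disjoint_singleton_right] at h2
    rw [← Finset.union_assoc, List.cons_append]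
    refine Pairs.one _ _ _ v (ih h.1) ?_
    simp only [Finset.mem_union, not_or]; exact ⟨h2, hv⟩

/-- the crossing step of a good set -/
theorem Good.cross {a x t : V → ℤ} {S : Finset V} (hS : Good B a x S) (c : ℝ) (hc0 : 0 < c)
    (hc : c ≤ ((∑ v ∈ S, t v * x v : ℤ) : ℝ)) :
    ∃ (P : Finset V) (v : V), v ∉ P ∧ insert v P ⊆ S ∧ DD B a x P ≤ ch a P ∧
      DD B a x (insert v P) ≤ ch a (insert v P) ∧ ((∑ u ∈ P, t u * x u : ℤ) : ℝ) < c ∧
      c ≤ ((∑ u ∈ insert v P, t u * x u : ℤ) : ℝ) := by
  induction hS with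
  | empty => simp at hc; linarith
  | step S v hS hv hD ih =>
    rcases lt_or_ge ((∑ u ∈ S, t u * x u : ℤ) : ℝ) c with h1 | h1
    · exact ⟨S, v, hv, Finset.Subset.refl _, hS.le, hD, h1, hc⟩
    · obtain ⟨P, w, h2, h3, h4⟩ := ih h1
      exact ⟨P, w, h2, h3.trans (Finset.subset_insert _ _), h4⟩

end Pool.Agent.Exact
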