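import Pool.Agent.Lib_helper68.Exact.PathMain

/-!
# Structures on index sets

`Sum.inl i` stands for the vertex `uq i`, `Sum.inr j` for the vertex `up j`.
-/

set_option autoImplicit false
set_option linter.unusedSectionVars false

namespace Pool.Agent.Exact

open Finset

variable {V : Type*} [Fintype V] [DecidableEq V]

/-- the frame with both chains of the same even length `2 * ℓ` -/
structure Frame (B : V → V → ℤ) (Rl : Finset V) (ℓ nQ nP : ℕ) (uq up : ℕ → V)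
    (q p : ℕ → ℝ) : Prop where
  sys : Sys B Rl (2 * ℓ) nQ nP uq up q p

variable {B : V → V → ℤ} {Rl : Finset V} {ℓ nQ nP : ℕ} {uq up : ℕ → V} {q p : ℕ → ℝ}

/-- all indices -/
def full (ℓ : ℕ) : Finset (ℕ ⊕ ℕ) := (range (2 * ℓ)).disjSum (range (2 * ℓ))

/-- an interval of `uq`-indices -/
def iq (i j : ℕ) : Finset (ℕ ⊕ ℕ) := (Ico i j).disjSum ∅

/-- an interval of `up`-indices -/
def ip (i j : ℕ) : Finset (ℕ ⊕ ℕ) := (∅ : Finset ℕ).disjSum (Ico i j)

@[simp] lemma inl_mem_full {i : ℕ} : Sum.inl i ∈ full ℓ ↔ i < 2 * ℓ := by simp [full]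
@[simp] lemma inr_mem_full {i : ℕ} : Sum.inr i ∈ full ℓ ↔ i < 2 * ℓ := by simp [full]
@[simp] lemma inl_mem_iq {i j l : ℕ} : Sum.inl l ∈ iq i j ↔ i ≤ l ∧ l < j := by simp [iq]
@[simp] lemma inr_mem_iq {i j l : ℕ} : Sum.inr l ∈ iq i j ↔ False := by simp [iq]
@[simp] lemma inl_mem_ip {i j l : ℕ} : Sum.inl l ∈ ip i j ↔ False := by simp [ip]
@[simp] lemma inr_mem_ip {i j l : ℕ} : Sum.inr l ∈ ip i j ↔ i ≤ l ∧ l < j := by simp [ip]

/-- the vertex of an index -/
def vx (uq up : ℕ → V) : ℕ ⊕ ℕ → V := Sum.elim uq up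

/-- a structure on the vertices of an index set -/
def StI (B : V → V → ℤ) (uq up : ℕ → V) (I : Finset (ℕ ⊕ ℕ)) (M K t : ℝ) : Prop :=
  St B (im B) (I.image (vx uq up)) M K t

lemma Frame.inj (h : Frame B Rl ℓ nQ nP uq up q p) {x y : ℕ ⊕ ℕ} (hx : x ∈ full ℓ)
    (hy : y ∈ full ℓ) (e : vx uq up x = vx uq up y) : x = y := by
  rcases x with i | i <;> rcases y with j | j
  · rw [inl_mem_full] at hx hy
    rw [h.sys.chQ.inj i hx j hy e]
  · rw [inl_mem_full] at hx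
    rw [inr_mem_full] at hy
    exact absurd e (h.sys.disj i hx j hy)
  · rw [inr_mem_full] at hx
    rw [inl_mem_full] at hy
    exact absurd e.symm (h.sys.disj j hy i hx)
  · rw [inr_mem_full] at hx hy
    rw [h.sys.chP.inj i hx j hy e]

lemma Frame.disj (h : Frame B Rl ℓ nQ nP uq up q p) {I J : Finset (ℕ ⊕ ℕ)} (hI : I ⊆ full ℓ)
    (hJ : J ⊆ full ℓ) (hd : Disjoint I J) :
    Disjoint (I.image (vx uq up)) (J.image (vx uq up)) := by
  rw [Finset.disjoint_left]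
  intro v hv hv'
  rw [Finset.mem_image] at hv hv'
  obtain ⟨x, hx, rfl⟩ := hv
  obtain ⟨y, hy, hxy⟩ := hv'
  rw [h.inj (hJ hy) (hI hx) hxy] at hy
  exact Finset.disjoint_left.1 hd hx hy

lemma Frame.univ (h : Frame B Rl ℓ nQ nP uq up q p) :
    (full ℓ).image (vx uq up) = Finset.univ := by
  ext v
  simp only [Finset.mem_image, Finset.mem_univ, iff_true]
  rcases h.sys.cover v with ⟨i, hi, rfl⟩ | ⟨i, hi, rfl⟩
  · exact ⟨Sum.inl i, by simpa using hi, rfl⟩
  · exact ⟨Sum.inr i, by simpa using hi, rfl⟩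

lemma StI.mono {I : Finset (ℕ ⊕ ℕ)} {M K t M' K' t' : ℝ} (h : StI B uq up I M K t)
    (hM : M ≤ M') (hK : K ≤ K') (ht : t ≤ t') : StI B uq up I M' K' t' :=
  St.mono h hM hK ht

/-- joining structures on disjoint index sets -/
theorem Frame.join (h : Frame B Rl ℓ nQ nP uq up q p) {I J U : Finset (ℕ ⊕ ℕ)}
    {M M' K t t' : ℝ} (hI : StI B uq up I M K t) (hJ : StI B uq up J M' K t')
    (hU : U = I ∪ J) (hf : U ⊆ full ℓ) (hd : Disjoint I J) :
    StI B uq up U (M + M') K (t + t') := by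
  subst hU
  have h1 := St.union hI hJ (h.disj (Finset.subset_union_left.trans hf)
    (Finset.subset_union_right.trans hf) hd)
  unfold StI
  rw [Finset.image_union]
  exact h1

lemma StI.empty (K : ℝ) : StI B uq up ∅ 0 K 0 := by
  unfold StI
  rw [Finset.image_empty]
  exact St.empty _ K

lemma image_iq (i j : ℕ) : (iq i j).image (vx uq up) = sg uq i j := by
  ext v
  simp only [Finset.mem_image, mem_sg, Sum.exists, inl_mem_iq, inr_mem_iq, false_and, exists_false,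
    or_false, vx, Sum.elim_inl, and_assoc]

lemma image_ip (i j : ℕ) : (ip i j).image (vx uq up) = sg up i j := by
  ext v
  simp only [Finset.mem_image, mem_sg, Sum.exists, inl_mem_ip, inr_mem_ip, false_and, exists_false,
    false_or, vx, Sum.elim_inr, and_assoc]

lemma Frame.zQ (h : Frame B Rl ℓ nQ nP uq up q p) {i : ℕ} (h1 : nQ ≤ i) (h2 : i < 2 * ℓ) :
    q i = 0 := by
  have h3 := h.sys.wtQ i h2
  have h4 : uq i ∉ Rl := by
    rw [h.sys.realQ i h2]; omega
  have h5 : im B (uq i) = 0 := by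
    unfold im
    rw [Finset.sum_eq_zero fun u _ => (h.sys.dummy _ h4 u).2,
      Finset.sum_eq_zero fun u _ => (h.sys.dummy _ h4 u).1]
    rfl
  rw [h5] at h3
  simpa using h3.symm

lemma Frame.zP (h : Frame B Rl ℓ nQ nP uq up q p) {i : ℕ} (h1 : nP ≤ i) (h2 : i < 2 * ℓ) :
    p i = 0 := by
  have h3 := h.sys.wtP i h2
  have h4 : up i ∉ Rl := by
    rw [h.sys.realP i h2]; omega
  have h5 : im B (up i) = 0 := by
    unfold im
    rw [Finset.sum_eq_zero fun u _ => (h.sys.dummy _ h4 u).2,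
      Finset.sum_eq_zero fun u _ => (h.sys.dummy _ h4 u).1]
    rfl
  rw [h5] at h3
  simp only [Int.cast_zero] at h3
  linarith

lemma Frame.c0Q (h : Frame B Rl ℓ nQ nP uq up q p) : Chain0 (im B) uq ℓ q := by
  have h1 := h.sys.big
  have h2 := h.sys.card
  exact ⟨h.sys.chQ, by omega, fun i h3 h4 => h.zQ (by omega) h4⟩

lemma Frame.c0P (h : Frame B Rl ℓ nQ nP uq up q p) : Chain0 (im B) up ℓ p := by
  have h1 := h.sys.big
  have h2 := h.sys.card
  exact ⟨h.sys.chP, by omega, fun i h3 h4 => h.zP (by omega) h4⟩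

/-- pairs `(2i, 2i+1), ...` of `uq` -/
theorem Frame.Qe (h : Frame B Rl ℓ nQ nP uq up q p) {K : ℝ} (i j : ℕ) (hij : i ≤ j) (hj : j ≤ ℓ)
    (hK : ∀ l, i ≤ l → l < j → q (2 * l) - q (2 * l + 1) ≤ K) :
    StI B uq up (iq (2 * i) (2 * j)) 0 K (AA q j - AA q i) := by
  unfold StI
  rw [image_iq]
  exact h.sys.chQ.seg_even h.sys.Bd h.sys.B0 i j hij (by omega) hK

/-- pairs `(2i+1, 2i+2), ...` of `uq` -/
theorem Frame.Qo (h : Frame B Rl ℓ nQ nP uq up q p) {K : ℝ} (i j : ℕ) (hij : i ≤ j) (hj : j < ℓ)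
    (hK : ∀ l, i ≤ l → l < j → q (2 * l + 1) - q (2 * l + 2) ≤ K) :
    StI B uq up (iq (2 * i + 1) (2 * j + 1)) 0 K (q (2 * i) - q (2 * j) - (AA q j - AA q i)) := by
  unfold StI
  rw [image_iq]
  exact h.sys.chQ.seg_odd h.sys.Bd h.sys.B0 i j hij (by omega) hK

/-- pairs `(2i+1, 2i+2), ...` of `uq`, to the end -/
theorem Frame.Qot (h : Frame B Rl ℓ nQ nP uq up q p) {K : ℝ} (hK0 : 0 ≤ K) (i : ℕ) (hi : i < ℓ)
    (hK : ∀ l, i ≤ l → l + 1 < ℓ → q (2 * l + 1) - q (2 * l + 2) ≤ K) :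
    StI B uq up (iq (2 * i + 1) (2 * ℓ)) 0 K (q (2 * i) - (AA q ℓ - AA q i)) := by
  unfold StI
  rw [image_iq]
  exact h.c0Q.tail_odd h.sys.Bd h.sys.B0 hK0 i hi hK

/-- pairs `(2i, 2i+1), ...` of `up` -/
theorem Frame.Pe (h : Frame B Rl ℓ nQ nP uq up q p) {K : ℝ} (i j : ℕ) (hij : i ≤ j) (hj : j ≤ ℓ)
    (hK : ∀ l, i ≤ l → l < j → p (2 * l) - p (2 * l + 1) ≤ K) :
    StI B uq up (ip (2 * i) (2 * j)) 0 K (AA p j - AA p i) := by
  unfold StI
  rw [image_ip]
  exact h.sys.chP.seg_even h.sys.Bd h.sys.B0 i j hij (by omega) hK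

/-- pairs `(2i+1, 2i+2), ...` of `up` -/
theorem Frame.Po (h : Frame B Rl ℓ nQ nP uq up q p) {K : ℝ} (i j : ℕ) (hij : i ≤ j) (hj : j < ℓ)
    (hK : ∀ l, i ≤ l → l < j → p (2 * l + 1) - p (2 * l + 2) ≤ K) :
    StI B uq up (ip (2 * i + 1) (2 * j + 1)) 0 K (p (2 * i) - p (2 * j) - (AA p j - AA p i)) := by
  unfold StI
  rw [image_ip]
  exact h.sys.chP.seg_odd h.sys.Bd h.sys.B0 i j hij (by omega) hK

/-- pairs `(2i+1, 2i+2), ...` of `up`, to the end -/
theorem Frame.Pot (h : Frame B Rl ℓ nQ nP uq up q p) {K : ℝ} (hK0 : 0 ≤ K) (i : ℕ) (hi : i < ℓ)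
    (hK : ∀ l, i ≤ l → l + 1 < ℓ → p (2 * l + 1) - p (2 * l + 2) ≤ K) :
    StI B uq up (ip (2 * i + 1) (2 * ℓ)) 0 K (p (2 * i) - (AA p ℓ - AA p i)) := by
  unfold StI
  rw [image_ip]
  exact h.c0P.tail_odd h.sys.Bd h.sys.B0 hK0 i hi hK

/-- a single vertex of `uq` -/
theorem Frame.Q1 (h : Frame B Rl ℓ nQ nP uq up q p) {K : ℝ} (i : ℕ) (hi : i < 2 * ℓ)
    (hK : q i ≤ K) : StI B uq up (iq i (i + 1)) 0 K (q i) := by
  unfold StI
  rw [image_iq, sg_one]
  exact (St.one h.sys.Bd (uq i) (h.sys.chQ.abs hi).le).mono le_rfl hK le_rfl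

/-- a single vertex of `up` -/
theorem Frame.P1 (h : Frame B Rl ℓ nQ nP uq up q p) {K : ℝ} (i : ℕ) (hi : i < 2 * ℓ)
    (hK : p i ≤ K) : StI B uq up (ip i (i + 1)) 0 K (p i) := by
  unfold StI
  rw [image_ip, sg_one]
  exact (St.one h.sys.Bd (up i) (h.sys.chP.abs hi).le).mono le_rfl hK le_rfl

/-- a mixed pair on the same side -/
theorem Frame.QP (h : Frame B Rl ℓ nQ nP uq up q p) {K : ℝ} (i j : ℕ) (hi : i < 2 * ℓ)
    (hj : j < 2 * ℓ) (hK : |q i - p j| ≤ K) :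
    StI B uq up {Sum.inl i, Sum.inr j} (MM B (uq i) (up j)) K |q i - p j| := by
  unfold StI
  rw [Finset.image_insert, Finset.image_singleton]
  refine (St.same h.sys.Bd (h.sys.disj i hi j hj) le_rfl ?_).mono le_rfl hK le_rfl
  rw [h.sys.wtQ i hi, h.sys.wtP j hj, ← sub_eq_add_neg]

/-- the cost of three vertices -/
lemma Qd_triple (hB : ∀ v, B v v = 0) {u v w : V} (huv : u ≠ v) (huw : u ≠ w) (hvw : v ≠ w)
    (x : V → ℤ) : Qd B {u, v, w} x =
      MM B u v * (x u * x v) + MM B u w * (x u * x w) + MM B v w * (x v * x w) := by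
  have h1 : ({u, v, w} : Finset V) = {u, v} ∪ {w} := by
    ext z; simp only [Finset.mem_insert, Finset.mem_singleton, Finset.mem_union]; tauto
  have h2 : Disjoint ({u, v} : Finset V) {w} := by
    rw [Finset.disjoint_singleton_right]
    simp only [Finset.mem_insert, Finset.mem_singleton, not_or]
    exact ⟨huw.symm, hvw.symm⟩
  rw [h1, Qd_union h2, Qd_pair hB huv, Qd_single w hB]
  unfold Int
  rw [Finset.sum_pair huv]
  simp only [Finset.sum_singleton]
  ring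

/-- a group of three vertices with signs `a`, `b`, `c` -/
theorem Frame.tri (h : Frame B Rl ℓ nQ nP uq up q p) {x y z : ℕ ⊕ ℕ} (hx : x ∈ full ℓ)
    (hy : y ∈ full ℓ) (hz : z ∈ full ℓ) (hxy : x ≠ y) (hxz : x ≠ z) (hyz : y ≠ z) (a b c : ℤ)
    (ha : a = 1 ∨ a = -1) (hb : b = 1 ∨ b = -1) (hc : c = 1 ∨ c = -1) {M K : ℝ}
    (hM : ((MM B (vx uq up x) (vx uq up y) * (a * b) + MM B (vx uq up x) (vx uq up z) * (a * c) +
      MM B (vx uq up y) (vx uq up z) * (b * c) : ℤ) : ℝ) ≤ M)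
    (hK : |((im B (vx uq up x) * a + im B (vx uq up y) * b + im B (vx uq up z) * c : ℤ) : ℝ)| ≤
      K) :
    StI B uq up {x, y, z} M K K := by
  have n1 : vx uq up x ≠ vx uq up y := fun e => hxy (h.inj hx hy e)
  have n2 : vx uq up x ≠ vx uq up z := fun e => hxz (h.inj hx hz e)
  have n3 : vx uq up y ≠ vx uq up z := fun e => hyz (h.inj hy hz e)
  unfold StI
  rw [Finset.image_insert, Finset.image_insert, Finset.image_singleton]
  set u := vx uq up x
  set v := vx uq up y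
  set w := vx uq up z
  refine St.group {u, v, w} (fun s => if s = u then a else if s = v then b else c) ?_ ?_ ?_
  · intro s
    split_ifs
    · exact ha
    · exact hb
    · exact hc
  · rw [Qd_triple h.sys.Bd n1 n2 n3]
    simp only [if_true, n1.symm, n2.symm, n3.symm, if_false]
    exact hM
  · have e : ∑ s ∈ ({u, v, w} : Finset V), im B s * (if s = u then a else if s = v then b else c) =
        im B u * a + im B v * b + im B w * c := by
      have h3 : u ∉ ({v, w} : Finset V) := by simp [n1, n2]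
      rw [Finset.sum_insert h3, Finset.sum_pair n3]
      simp only [if_true, n1.symm, n2.symm, n3.symm, if_false]
      ring
    rw [e]
    exact hK

/-- a structure on all indices -/
theorem Frame.val (h : Frame B Rl ℓ nQ nP uq up q p) {M K t : ℝ} (hK : 0 ≤ K)
    (hs : StI B uq up (full ℓ) M K t) : Val B (M + max K (t / 2)) := by
  unfold StI at hs
  rw [h.univ] at hs
  exact St.val hK hs

end Pool.Agent.Exact
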