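import Pool.Agent.Lib_helper68.Exact.Swap

/-!
# The arrangements of the remaining hubs
-/

set_option autoImplicit false
set_option linter.unusedSectionVars false
set_option linter.unusedSimpArgs false
set_option linter.unnecessarySeqFocus false
set_option linter.unreachableTactic false
set_option linter.unusedTactic false

namespace Pool.Agent.Exact

open Finset

variable {V : Type*} [Fintype V] [DecidableEq V]
variable {B : V → V → ℤ} {Rl : Finset V} {ℓ nQ nP : ℕ} {uq up : ℕ → V} {q p : ℕ → ℝ}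

/-- the pure arrangement: `(q₁,q₂), …` and `(p₀,p₁), …` -/
theorem Frame.aPure (h : Frame B Rl ℓ nQ nP uq up q p) {K : ℝ} (i j : ℕ) (hi : i < ℓ) (hj : j ≤ ℓ)
    (hQ : ∀ l < i, q (2 * l + 1) - q (2 * l + 2) ≤ K)
    (hP : ∀ l < j, p (2 * l) - p (2 * l + 1) ≤ K) :
    StI B uq up (hb1 (2 * i + 1) (2 * j)) 0 K (q 0 - q (2 * i) - AA q i + AA p j) := by
  have h1 := h.Qo (K := K) 0 i (Nat.zero_le _) hi fun l _ h2 => hQ l h2
  have h2 := h.Pe (K := K) 0 j (Nat.zero_le _) hj fun l _ h2 => hP l h2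
  have h3 := h.join (U := hb1 (2 * i + 1) (2 * j)) h1 h2 (by unfold hb1; (ext x; rcases x with x | x <;>
    simp only [Finset.mem_union, Finset.mem_insert, Finset.mem_singleton, inl_mem_full,
      inr_mem_full, inl_mem_iq, inr_mem_iq, inl_mem_ip, inr_mem_ip, Sum.inl.injEq, Sum.inr.injEq,
      reduceCtorEq, Finset.notMem_empty, or_false, false_or, false_imp_iff, imp_false,
      implies_true, not_false_eq_true, iff_false, false_iff] <;> omega))
    (by unfold hb1; (intro x hx; revert hx; rcases x with x | x <;>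
    simp only [Finset.mem_union, Finset.mem_insert, Finset.mem_singleton, inl_mem_full,
      inr_mem_full, inl_mem_iq, inr_mem_iq, inl_mem_ip, inr_mem_ip, Sum.inl.injEq, Sum.inr.injEq,
      reduceCtorEq, Finset.notMem_empty, or_false, false_or, false_imp_iff, imp_false,
      implies_true, not_false_eq_true, iff_false, false_iff] <;> omega)) (by (rw [Finset.disjoint_left]; intro x hx hx'; revert hx hx'; rcases x with x | x <;>
    simp only [Finset.mem_union, Finset.mem_insert, Finset.mem_singleton, inl_mem_full,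
      inr_mem_full, inl_mem_iq, inr_mem_iq, inl_mem_ip, inr_mem_ip, Sum.inl.injEq, Sum.inr.injEq,
      reduceCtorEq, Finset.notMem_empty, or_false, false_or, false_imp_iff, imp_false,
      implies_true, not_false_eq_true, iff_false, false_iff] <;> omega))
  rw [AA_zero, AA_zero] at h3
  refine h3.mono (by norm_num) le_rfl ?_
  rw [Nat.mul_zero]
  linarith

/-- the mixed arrangement: `(q₁,p₀)` aligned, `(q₂,q₃), …` and `(p₁,p₂), …` -/
theorem Frame.aMix (h : Frame B Rl ℓ nQ nP uq up q p) {K : ℝ} (i j : ℕ) (hi : i + 1 ≤ ℓ)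
    (hj : j < ℓ) (h0 : |q 1 - p 0| ≤ K)
    (hQ : ∀ l, 1 ≤ l → l < i + 1 → q (2 * l) - q (2 * l + 1) ≤ K)
    (hP : ∀ l < j, p (2 * l + 1) - p (2 * l + 2) ≤ K) :
    StI B uq up (hb1 (2 * (i + 1)) (2 * j + 1)) (MM B (uq 1) (up 0)) K
      (|q 1 - p 0| + (AA q (i + 1) - AA q 1) + (p 0 - p (2 * j) - AA p j)) := by
  have hl := h.l2
  have h1 := h.Qe (K := K) 1 (i + 1) (by omega) hi hQ
  have h2 := h.Po (K := K) 0 j (Nat.zero_le _) hj fun l _ h2 => hP l h2
  have h3 := h.QP (K := K) 1 0 (by omega) (by omega) h0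
  have h4 := h.join (U := {Sum.inl 1, Sum.inr 0} ∪ iq (2 * 1) (2 * (i + 1))) h3 h1 rfl
    (by (intro x hx; revert hx; rcases x with x | x <;>
    simp only [Finset.mem_union, Finset.mem_insert, Finset.mem_singleton, inl_mem_full,
      inr_mem_full, inl_mem_iq, inr_mem_iq, inl_mem_ip, inr_mem_ip, Sum.inl.injEq, Sum.inr.injEq,
      reduceCtorEq, Finset.notMem_empty, or_false, false_or, false_imp_iff, imp_false,
      implies_true, not_false_eq_true, iff_false, false_iff] <;> omega)) (by (rw [Finset.disjoint_left]; intro x hx hx'; revert hx hx'; rcases x with x | x <;>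
    simp only [Finset.mem_union, Finset.mem_insert, Finset.mem_singleton, inl_mem_full,
      inr_mem_full, inl_mem_iq, inr_mem_iq, inl_mem_ip, inr_mem_ip, Sum.inl.injEq, Sum.inr.injEq,
      reduceCtorEq, Finset.notMem_empty, or_false, false_or, false_imp_iff, imp_false,
      implies_true, not_false_eq_true, iff_false, false_iff] <;> omega))
  have h5 := h.join (U := hb1 (2 * (i + 1)) (2 * j + 1)) h4 h2 (by unfold hb1; (ext x; rcases x with x | x <;>
    simp only [Finset.mem_union, Finset.mem_insert, Finset.mem_singleton, inl_mem_full,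
      inr_mem_full, inl_mem_iq, inr_mem_iq, inl_mem_ip, inr_mem_ip, Sum.inl.injEq, Sum.inr.injEq,
      reduceCtorEq, Finset.notMem_empty, or_false, false_or, false_imp_iff, imp_false,
      implies_true, not_false_eq_true, iff_false, false_iff] <;> omega))
    (by unfold hb1; (intro x hx; revert hx; rcases x with x | x <;>
    simp only [Finset.mem_union, Finset.mem_insert, Finset.mem_singleton, inl_mem_full,
      inr_mem_full, inl_mem_iq, inr_mem_iq, inl_mem_ip, inr_mem_ip, Sum.inl.injEq, Sum.inr.injEq,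
      reduceCtorEq, Finset.notMem_empty, or_false, false_or, false_imp_iff, imp_false,
      implies_true, not_false_eq_true, iff_false, false_iff] <;> omega)) (by (rw [Finset.disjoint_left]; intro x hx hx'; revert hx hx'; rcases x with x | x <;>
    simp only [Finset.mem_union, Finset.mem_insert, Finset.mem_singleton, inl_mem_full,
      inr_mem_full, inl_mem_iq, inr_mem_iq, inl_mem_ip, inr_mem_ip, Sum.inl.injEq, Sum.inr.injEq,
      reduceCtorEq, Finset.notMem_empty, or_false, false_or, false_imp_iff, imp_false,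
      implies_true, not_false_eq_true, iff_false, false_iff] <;> omega))
  rw [AA_zero] at h5
  refine h5.mono (by norm_num) le_rfl ?_
  rw [Nat.mul_zero]
  linarith

/-- crossing with the pure arrangement -/
theorem Frame.crPure (h : Frame B Rl ℓ nQ nP uq up q p) {K D θ : ℝ} (i j : ℕ) (hi : i < ℓ)
    (hj : j ≤ ℓ) (hK0 : 0 ≤ K) (hq : q (2 * i + 1) ≤ K) (hp : p (2 * j) ≤ K)
    (hQ : ∀ l < i, q (2 * l + 1) - q (2 * l + 2) ≤ K)
    (hP : ∀ l < j, p (2 * l) - p (2 * l + 1) ≤ K) (h1 : D + K ≤ θ)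
    (h2 : D + (q 0 - q (2 * i) - AA q i + AA p j + q (2 * i + 1) + p (2 * j)) / 2 ≤ θ)
    (hC : CrI B uq up q p (2 * i + 1) (2 * j) D) : Val B θ := by
  refine (hC _ K _ hK0 hq hp (h.aPure i j hi hj hQ hP)).mono ?_
  rw [add_zero, ← max_add_add_left]
  exact max_le h1 h2

/-- last crossing with the pure arrangement -/
theorem Frame.crsPure (h : Frame B Rl ℓ nQ nP uq up q p) {K D θ : ℝ} (i j : ℕ) (hi : i < ℓ)
    (hj : j ≤ ℓ) (hK0 : 0 ≤ K) (hp : p (2 * j) - 1 ≤ K)
    (hQ : ∀ l < i, q (2 * l + 1) - q (2 * l + 2) ≤ K)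
    (hP : ∀ l < j, p (2 * l) - p (2 * l + 1) ≤ K) (h1 : D + K ≤ θ)
    (h2 : D + (q 0 - q (2 * i) - AA q i + AA p j + p (2 * j) - 1) / 2 ≤ θ)
    (hC : CrSI B uq up p (2 * i + 1) (2 * j) D) : Val B θ := by
  refine (hC _ K _ hK0 hp (h.aPure i j hi hj hQ hP)).mono ?_
  rw [add_zero, ← max_add_add_left]
  exact max_le h1 h2

/-- crossing with the mixed arrangement -/
theorem Frame.crMix (h : Frame B Rl ℓ nQ nP uq up q p) {K D θ : ℝ} (i j : ℕ) (hi : i + 1 ≤ ℓ)
    (hj : j < ℓ) (hK0 : 0 ≤ K) (hq : q (2 * (i + 1)) ≤ K) (hp : p (2 * j + 1) ≤ K)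
    (h0 : |q 1 - p 0| ≤ K)
    (hQ : ∀ l, 1 ≤ l → l < i + 1 → q (2 * l) - q (2 * l + 1) ≤ K)
    (hP : ∀ l < j, p (2 * l + 1) - p (2 * l + 2) ≤ K)
    (h1 : D + MM B (uq 1) (up 0) + K ≤ θ)
    (h2 : D + MM B (uq 1) (up 0) + (|q 1 - p 0| + (AA q (i + 1) - AA q 1) +
      (p 0 - p (2 * j) - AA p j) + q (2 * (i + 1)) + p (2 * j + 1)) / 2 ≤ θ)
    (hC : CrI B uq up q p (2 * (i + 1)) (2 * j + 1) D) : Val B θ := by
  refine (hC _ K _ hK0 hq hp (h.aMix i j hi hj h0 hQ hP)).mono ?_
  rw [← max_add_add_left]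
  exact max_le h1 h2

/-- last crossing with the mixed arrangement -/
theorem Frame.crsMix (h : Frame B Rl ℓ nQ nP uq up q p) {K D θ : ℝ} (i j : ℕ) (hi : i + 1 ≤ ℓ)
    (hj : j < ℓ) (hK0 : 0 ≤ K) (hp : p (2 * j + 1) - 1 ≤ K)
    (h0 : |q 1 - p 0| ≤ K)
    (hQ : ∀ l, 1 ≤ l → l < i + 1 → q (2 * l) - q (2 * l + 1) ≤ K)
    (hP : ∀ l < j, p (2 * l + 1) - p (2 * l + 2) ≤ K)
    (h1 : D + MM B (uq 1) (up 0) + K ≤ θ)
    (h2 : D + MM B (uq 1) (up 0) + (|q 1 - p 0| + (AA q (i + 1) - AA q 1) +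
      (p 0 - p (2 * j) - AA p j) + p (2 * j + 1) - 1) / 2 ≤ θ)
    (hC : CrSI B uq up p (2 * (i + 1)) (2 * j + 1) D) : Val B θ := by
  refine (hC _ K _ hK0 hp (h.aMix i j hi hj h0 hQ hP)).mono ?_
  rw [← max_add_add_left]
  exact max_le h1 h2

end Pool.Agent.Exact
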