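import Pool.Agent.Lib_helper68.Exact.Idx

/-!
# The static structures
-/

set_option autoImplicit false
set_option linter.unusedSectionVars false
set_option linter.unusedSimpArgs false
set_option linter.unnecessarySeqFocus false
set_option linter.unreachableTactic false
set_option linter.unusedTactic false

namespace Pool.Agent.Exact

open Finset

variable {V : Type*} [Fintype V] [DecidableEq V]
variable {B : V → V → ℤ} {Rl : Finset V} {ℓ nQ nP : ℕ} {uq up : ℕ → V} {q p : ℕ → ℝ}

lemma Frame.l2 (h : Frame B Rl ℓ nQ nP uq up q p) : 5 ≤ ℓ := by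
  have := h.sys.big; omega

/-- joining with the obvious union -/
theorem Frame.jn (h : Frame B Rl ℓ nQ nP uq up q p) {I J : Finset (ℕ ⊕ ℕ)}
    {M M' K t t' : ℝ} (hI : StI B uq up I M K t) (hJ : StI B uq up J M' K t')
    (hf : I ∪ J ⊆ full ℓ) (hd : Disjoint I J) :
    StI B uq up (I ∪ J) (M + M') K (t + t') := h.join hI hJ rfl hf hd

/-- structure A: all sorted pairs -/
theorem Frame.sA (h : Frame B Rl ℓ nQ nP uq up q p) {K : ℝ} (hK0 : 0 ≤ K)
    (hQ : ∀ l < ℓ, q (2 * l) - q (2 * l + 1) ≤ K) (hP : ∀ l < ℓ, p (2 * l) - p (2 * l + 1) ≤ K) :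
    Val B (max K ((AA q ℓ + AA p ℓ) / 2)) := by
  have h1 := h.Qe (K := K) 0 ℓ (Nat.zero_le _) le_rfl fun l _ h2 => hQ l h2
  have h2 := h.Pe (K := K) 0 ℓ (Nat.zero_le _) le_rfl fun l _ h2 => hP l h2
  have h3 := h.join (U := full ℓ) h1 h2 (by (ext x; rcases x with x | x <;>
    simp only [Finset.mem_union, Finset.mem_insert, Finset.mem_singleton, inl_mem_full,
      inr_mem_full, inl_mem_iq, inr_mem_iq, inl_mem_ip, inr_mem_ip, Sum.inl.injEq, Sum.inr.injEq,
      reduceCtorEq, Finset.notMem_empty, or_false, false_or, false_imp_iff, imp_false,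
      implies_true, not_false_eq_true, iff_false, false_iff] <;> omega)) (by (intro x hx; revert hx; rcases x with x | x <;>
    simp only [Finset.mem_union, Finset.mem_insert, Finset.mem_singleton, inl_mem_full,
      inr_mem_full, inl_mem_iq, inr_mem_iq, inl_mem_ip, inr_mem_ip, Sum.inl.injEq, Sum.inr.injEq,
      reduceCtorEq, Finset.notMem_empty, or_false, false_or, false_imp_iff, imp_false,
      implies_true, not_false_eq_true, iff_false, false_iff] <;> omega)) (by (rw [Finset.disjoint_left]; intro x hx hx'; revert hx hx'; rcases x with x | x <;>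
    simp only [Finset.mem_union, Finset.mem_insert, Finset.mem_singleton, inl_mem_full,
      inr_mem_full, inl_mem_iq, inr_mem_iq, inl_mem_ip, inr_mem_ip, Sum.inl.injEq, Sum.inr.injEq,
      reduceCtorEq, Finset.notMem_empty, or_false, false_or, false_imp_iff, imp_false,
      implies_true, not_false_eq_true, iff_false, false_iff] <;> omega))
  have h4 := h.val hK0 h3
  rw [AA_zero, AA_zero] at h4
  refine h4.mono ?_
  rw [add_zero, zero_add]
  exact max_le_max le_rfl (by linarith)

/-- structure B: tops aligned, the rest sorted -/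
theorem Frame.sB (h : Frame B Rl ℓ nQ nP uq up q p) {K : ℝ} (hK0 : 0 ≤ K)
    (h0 : |q 0 - p 0| ≤ K)
    (hQ : ∀ l, l + 1 < ℓ → q (2 * l + 1) - q (2 * l + 2) ≤ K)
    (hP : ∀ l, l + 1 < ℓ → p (2 * l + 1) - p (2 * l + 2) ≤ K) :
    Val B (MM B (uq 0) (up 0) +
      max K ((|q 0 - p 0| + (q 0 - AA q ℓ) + (p 0 - AA p ℓ)) / 2)) := by
  have hl := h.l2
  have h1 := h.Qot (K := K) hK0 0 (by omega) fun l _ h2 => hQ l h2
  have h2 := h.Pot (K := K) hK0 0 (by omega) fun l _ h2 => hP l h2
  have h3 := h.QP (K := K) 0 0 (by omega) (by omega) h0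
  have h4 := h.join (U := iq (2 * 0 + 1) (2 * ℓ) ∪ ip (2 * 0 + 1) (2 * ℓ)) h1 h2 rfl
    (by (intro x hx; revert hx; rcases x with x | x <;>
    simp only [Finset.mem_union, Finset.mem_insert, Finset.mem_singleton, inl_mem_full,
      inr_mem_full, inl_mem_iq, inr_mem_iq, inl_mem_ip, inr_mem_ip, Sum.inl.injEq, Sum.inr.injEq,
      reduceCtorEq, Finset.notMem_empty, or_false, false_or, false_imp_iff, imp_false,
      implies_true, not_false_eq_true, iff_false, false_iff] <;> omega)) (by (rw [Finset.disjoint_left]; intro x hx hx'; revert hx hx'; rcases x with x | x <;>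
    simp only [Finset.mem_union, Finset.mem_insert, Finset.mem_singleton, inl_mem_full,
      inr_mem_full, inl_mem_iq, inr_mem_iq, inl_mem_ip, inr_mem_ip, Sum.inl.injEq, Sum.inr.injEq,
      reduceCtorEq, Finset.notMem_empty, or_false, false_or, false_imp_iff, imp_false,
      implies_true, not_false_eq_true, iff_false, false_iff] <;> omega))
  have h5 := h.join (U := full ℓ) h3 h4 (by (ext x; rcases x with x | x <;>
    simp only [Finset.mem_union, Finset.mem_insert, Finset.mem_singleton, inl_mem_full,
      inr_mem_full, inl_mem_iq, inr_mem_iq, inl_mem_ip, inr_mem_ip, Sum.inl.injEq, Sum.inr.injEq,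
      reduceCtorEq, Finset.notMem_empty, or_false, false_or, false_imp_iff, imp_false,
      implies_true, not_false_eq_true, iff_false, false_iff] <;> omega)) (by (intro x hx; revert hx; rcases x with x | x <;>
    simp only [Finset.mem_union, Finset.mem_insert, Finset.mem_singleton, inl_mem_full,
      inr_mem_full, inl_mem_iq, inr_mem_iq, inl_mem_ip, inr_mem_ip, Sum.inl.injEq, Sum.inr.injEq,
      reduceCtorEq, Finset.notMem_empty, or_false, false_or, false_imp_iff, imp_false,
      implies_true, not_false_eq_true, iff_false, false_iff] <;> omega)) (by (rw [Finset.disjoint_left]; intro x hx hx'; revert hx hx'; rcases x with x | x <;>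
    simp only [Finset.mem_union, Finset.mem_insert, Finset.mem_singleton, inl_mem_full,
      inr_mem_full, inl_mem_iq, inr_mem_iq, inl_mem_ip, inr_mem_ip, Sum.inl.injEq, Sum.inr.injEq,
      reduceCtorEq, Finset.notMem_empty, or_false, false_or, false_imp_iff, imp_false,
      implies_true, not_false_eq_true, iff_false, false_iff] <;> omega))
  have h6 := h.val hK0 h5
  rw [AA_zero, AA_zero] at h6
  refine h6.mono ?_
  have : max K ((|q 0 - p 0| + (q (2 * 0) - (AA q ℓ - 0) + (p (2 * 0) - (AA p ℓ - 0)))) / 2) ≤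
      max K ((|q 0 - p 0| + (q 0 - AA q ℓ) + (p 0 - AA p ℓ)) / 2) := by
    refine max_le_max le_rfl ?_
    rw [Nat.mul_zero]
    linarith
  linarith

/-- the triple `q_{2i}+, q_{2i+1}-, p_{2r}+` -/
theorem Frame.sG3Q (h : Frame B Rl ℓ nQ nP uq up q p) {K : ℝ} (hK0 : 0 ≤ K) (i r : ℕ)
    (hi : i < ℓ) (hr : r < ℓ) (h0 : |q (2 * i) - q (2 * i + 1) - p (2 * r)| ≤ K)
    (hQ : ∀ l < ℓ, l ≠ i → q (2 * l) - q (2 * l + 1) ≤ K)
    (hP1 : ∀ l < r, p (2 * l) - p (2 * l + 1) ≤ K)
    (hP2 : ∀ l, r ≤ l → l + 1 < ℓ → p (2 * l + 1) - p (2 * l + 2) ≤ K) :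
    Val B (((MM B (uq (2 * i)) (up (2 * r)) - MM B (uq (2 * i)) (uq (2 * i + 1)) -
        MM B (uq (2 * i + 1)) (up (2 * r)) : ℤ) : ℝ) +
      max K ((|q (2 * i) - q (2 * i + 1) - p (2 * r)| + (AA q ℓ - (q (2 * i) - q (2 * i + 1))) +
        (AA p r + p (2 * r) - (AA p ℓ - AA p r))) / 2)) := by
  have hl := h.l2
  have h1 := h.Qe (K := K) 0 i (Nat.zero_le _) hi.le fun l _ h2 => hQ l (by omega) (by omega)
  have h2 := h.Qe (K := K) (i + 1) ℓ (by omega) le_rfl fun l h2 h3 => hQ l h3 (by omega)
  have h3 := h.Pe (K := K) 0 r (Nat.zero_le _) hr.le fun l _ h2 => hP1 l h2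
  have h4 := h.Pot (K := K) hK0 r hr hP2
  have h5 := h.tri (x := Sum.inl (2 * i)) (y := Sum.inl (2 * i + 1)) (z := Sum.inr (2 * r))
    (by rw [inl_mem_full]; omega) (by rw [inl_mem_full]; omega) (by rw [inr_mem_full]; omega)
    (by simp) (by simp) (by simp) 1 (-1) 1 (Or.inl rfl) (Or.inr rfl) (Or.inl rfl) le_rfl
    (K := |q (2 * i) - q (2 * i + 1) - p (2 * r)|) (by
      have e1 := h.sys.wtQ (2 * i) (by omega)
      have e2 := h.sys.wtQ (2 * i + 1) (by omega)
      have e3 := h.sys.wtP (2 * r) (by omega)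
      push_cast
      simp only [vx, Sum.elim_inl, Sum.elim_inr]
      rw [e1, e2, e3]
      apply le_of_eq
      congr 1
      ring)
  have h5' := h5.mono le_rfl h0 le_rfl
  have h6 := h.jn h1 h2 (by (intro x hx; revert hx; rcases x with x | x <;>
    simp only [Finset.mem_union, Finset.mem_insert, Finset.mem_singleton, inl_mem_full,
      inr_mem_full, inl_mem_iq, inr_mem_iq, inl_mem_ip, inr_mem_ip, Sum.inl.injEq, Sum.inr.injEq,
      reduceCtorEq, Finset.notMem_empty, or_false, false_or, false_imp_iff, imp_false,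
      implies_true, not_false_eq_true, iff_false, false_iff] <;> omega)) (by (rw [Finset.disjoint_left]; intro x hx hx'; revert hx hx'; rcases x with x | x <;>
    simp only [Finset.mem_union, Finset.mem_insert, Finset.mem_singleton, inl_mem_full,
      inr_mem_full, inl_mem_iq, inr_mem_iq, inl_mem_ip, inr_mem_ip, Sum.inl.injEq, Sum.inr.injEq,
      reduceCtorEq, Finset.notMem_empty, or_false, false_or, false_imp_iff, imp_false,
      implies_true, not_false_eq_true, iff_false, false_iff] <;> omega))
  have h7 := h.jn h3 h4 (by (intro x hx; revert hx; rcases x with x | x <;>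
    simp only [Finset.mem_union, Finset.mem_insert, Finset.mem_singleton, inl_mem_full,
      inr_mem_full, inl_mem_iq, inr_mem_iq, inl_mem_ip, inr_mem_ip, Sum.inl.injEq, Sum.inr.injEq,
      reduceCtorEq, Finset.notMem_empty, or_false, false_or, false_imp_iff, imp_false,
      implies_true, not_false_eq_true, iff_false, false_iff] <;> omega)) (by (rw [Finset.disjoint_left]; intro x hx hx'; revert hx hx'; rcases x with x | x <;>
    simp only [Finset.mem_union, Finset.mem_insert, Finset.mem_singleton, inl_mem_full,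
      inr_mem_full, inl_mem_iq, inr_mem_iq, inl_mem_ip, inr_mem_ip, Sum.inl.injEq, Sum.inr.injEq,
      reduceCtorEq, Finset.notMem_empty, or_false, false_or, false_imp_iff, imp_false,
      implies_true, not_false_eq_true, iff_false, false_iff] <;> omega))
  have h8 := h.jn h6 h7 (by (intro x hx; revert hx; rcases x with x | x <;>
    simp only [Finset.mem_union, Finset.mem_insert, Finset.mem_singleton, inl_mem_full,
      inr_mem_full, inl_mem_iq, inr_mem_iq, inl_mem_ip, inr_mem_ip, Sum.inl.injEq, Sum.inr.injEq,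
      reduceCtorEq, Finset.notMem_empty, or_false, false_or, false_imp_iff, imp_false,
      implies_true, not_false_eq_true, iff_false, false_iff] <;> omega)) (by (rw [Finset.disjoint_left]; intro x hx hx'; revert hx hx'; rcases x with x | x <;>
    simp only [Finset.mem_union, Finset.mem_insert, Finset.mem_singleton, inl_mem_full,
      inr_mem_full, inl_mem_iq, inr_mem_iq, inl_mem_ip, inr_mem_ip, Sum.inl.injEq, Sum.inr.injEq,
      reduceCtorEq, Finset.notMem_empty, or_false, false_or, false_imp_iff, imp_false,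
      implies_true, not_false_eq_true, iff_false, false_iff] <;> omega))
  have h9 := h.join (U := full ℓ) h5' h8 (by (ext x; rcases x with x | x <;>
    simp only [Finset.mem_union, Finset.mem_insert, Finset.mem_singleton, inl_mem_full,
      inr_mem_full, inl_mem_iq, inr_mem_iq, inl_mem_ip, inr_mem_ip, Sum.inl.injEq, Sum.inr.injEq,
      reduceCtorEq, Finset.notMem_empty, or_false, false_or, false_imp_iff, imp_false,
      implies_true, not_false_eq_true, iff_false, false_iff] <;> omega)) (by (intro x hx; revert hx; rcases x with x | x <;>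
    simp only [Finset.mem_union, Finset.mem_insert, Finset.mem_singleton, inl_mem_full,
      inr_mem_full, inl_mem_iq, inr_mem_iq, inl_mem_ip, inr_mem_ip, Sum.inl.injEq, Sum.inr.injEq,
      reduceCtorEq, Finset.notMem_empty, or_false, false_or, false_imp_iff, imp_false,
      implies_true, not_false_eq_true, iff_false, false_iff] <;> omega)) (by (rw [Finset.disjoint_left]; intro x hx hx'; revert hx hx'; rcases x with x | x <;>
    simp only [Finset.mem_union, Finset.mem_insert, Finset.mem_singleton, inl_mem_full,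
      inr_mem_full, inl_mem_iq, inr_mem_iq, inl_mem_ip, inr_mem_ip, Sum.inl.injEq, Sum.inr.injEq,
      reduceCtorEq, Finset.notMem_empty, or_false, false_or, false_imp_iff, imp_false,
      implies_true, not_false_eq_true, iff_false, false_iff] <;> omega))
  have h10 := h.val hK0 h9
  refine h10.mono ?_
  rw [AA_zero, AA_zero, AA_succ]
  simp only [vx, Sum.elim_inl, Sum.elim_inr]
  have e4 : (MM B (uq (2 * i)) (uq (2 * i + 1)) * (1 * -1) + MM B (uq (2 * i)) (up (2 * r)) * (1 * 1)
      + MM B (uq (2 * i + 1)) (up (2 * r)) * (-1 * 1)) = MM B (uq (2 * i)) (up (2 * r)) -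
      MM B (uq (2 * i)) (uq (2 * i + 1)) - MM B (uq (2 * i + 1)) (up (2 * r)) := by ring
  rw [e4]
  refine add_le_add (by linarith) (max_le_max le_rfl ?_)
  linarith

end Pool.Agent.Exact
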