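import Pool.Agent.Lib_helper68.Exact.CntO

/-!
# Hubs of both types, minimum indegree at least `k`: counting
-/

set_option autoImplicit false
set_option linter.unusedSectionVars false

namespace Pool.Agent.Exact

open Finset

/-- the counting facts, minimum indegree at least `k`, hubs of both types -/
structure CntM (k θ n a b ρ σ MMs Z q0 SQ SP : ℝ) : Prop where
  card : n = a + b + ρ + σ
  E1 : SP + k * (n - b) ≤ (2 * k - 1) * θ
  OI : SQ + SP + k * a ≤ (2 * k - 1) * θ + a * b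
  ZC : (k - b) * σ ≤ Z + ((2 * k - 1) * θ - SP - k * (n - b)) + k * a + ρ
  HH : σ - (n - 1 - q0 - k) ≤ MMs

/-- the numerical consequences -/
theorem CntM.num {k a b : ℤ} {θ n ρ σ MMs Z Γ q0 SQ SP g y u : ℝ}
    (c : CntM k θ n a b ρ σ MMs Z q0 SQ SP) (a2 : 2 ≤ a) (b1 : 1 ≤ b)
    (par : (a + b) % 2 = 1) (hρ : 0 ≤ ρ) (hg : ρ ≤ 2 * g) (hθ : n + 1 ≤ 2 * θ)
    (hq0 : q0 = θ + y) (hqn : q0 ≤ n - 1 - k) (hu : g < u) (huy : u ≤ y)
    (hSQ : q0 + (a - 1) * (θ - 2) ≤ SQ) (hSP : b * (θ + u) ≤ SP) (hG : MMs - Z ≤ Γ)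
    (hΓ : Γ < y - g + 2) :
    (a + b ≤ 2 * k - 3 ∧ b ≤ k - 2) ∧ u - g ≤ Z ∧ 3 * y + 4 ≤ Z + θ + 2 * g ∧
      2 * y + 2 - (2 * θ - n - 1) ≤ σ + 2 * g := by
  subst hq0
  have hc := c.card
  have e : σ = n - a - b - ρ := by linarith
  subst e
  have hE := c.E1
  have hO := c.OI
  have hZ := c.ZC
  have hH := c.HH
  have a2r : (2 : ℝ) ≤ a := by exact_mod_cast a2
  have b1r : (1 : ℝ) ≤ b := by exact_mod_cast b1
  obtain ⟨κ, hκ⟩ : ∃ κ : ℝ, κ = n - 1 - k - θ - y := ⟨_, rfl⟩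
  obtain ⟨μ, hμ⟩ : ∃ μ : ℝ, μ = 2 * θ - n - 1 := ⟨_, rfl⟩
  obtain ⟨G, hG'⟩ : ∃ G : ℝ, G = ρ / 2 := ⟨_, rfl⟩
  have κ0 : 0 ≤ κ := by linarith
  have μ0 : 0 ≤ μ := by linarith
  have G0 : 0 ≤ G := by linarith
  have Gg : G ≤ g := by linarith
  have g0 : 0 ≤ g := by linarith
  have y0 : 0 < y := by linarith
  have eρ : ρ = 2 * G := by linarith
  have eθ : θ = μ + 2 + k + y + κ := by linarith
  have en : n = μ + 3 + 2 * k + 2 * y + 2 * κ := by linarith
  clear hκ hμ hG' hc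
  subst eρ
  subst eθ
  subst en
  have bu : 0 < (b : ℝ) * u := mul_pos (by linarith) (by linarith)
  have byk : 0 < ((b : ℝ) + 1) * (y + 2 + κ) := mul_pos (by linarith) (by linarith)
  -- few hubs of the second type
  have s1 : b ≤ k - 2 := by
    by_contra hc1
    push Not at hc1
    have hc' : (k : ℝ) - 1 ≤ b := by exact_mod_cast (by omega : k - 1 ≤ b)
    have h6 : ((k : ℝ) - 1 - b) * μ ≤ 0 := mul_nonpos_of_nonpos_of_nonneg (by linarith) μ0
    linarith
  have s1r : (b : ℝ) ≤ k - 2 := by exact_mod_cast s1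
  have akb : 0 ≤ (a : ℝ) * (k - 2 - b) := mul_nonneg (by linarith) (by linarith)
  have s2 : a + b ≤ 2 * k - 3 := by
    by_contra hc1
    push Not at hc1
    have hc' : 2 * (k : ℝ) - 1 ≤ a + b := by exact_mod_cast (by omega : 2 * k - 1 ≤ a + b)
    have h6 : (2 * (k : ℝ) - 1 - a - b) * (μ + 2 + k + y + κ) ≤ 0 :=
      mul_nonpos_of_nonpos_of_nonneg (by linarith) (by linarith)
    linarith
  have s2r : (a : ℝ) + b ≤ 2 * k - 3 := by exact_mod_cast s2
  refine ⟨⟨s2, s1⟩, by linarith, ?_, by linarith⟩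
  rcases le_or_gt (y - g) (3 * k - 1 - a - b) with h1 | h1
  · linarith
  · have P1 : 0 ≤ (2 * (k : ℝ) - b - 1) * (y - g - (a + b - k) - 5) :=
      mul_nonneg (by linarith) (by linarith)
    have P2 : 0 ≤ (2 * (k : ℝ) - b + 2) * κ := mul_nonneg (by linarith) κ0
    have P3 : 0 ≤ (b : ℝ) * (u - g) := mul_nonneg (by linarith) (by linarith)
    have P4 : 0 ≤ ((k : ℝ) - b + 1) * (g - G) := mul_nonneg (by linarith) (by linarith)
    have P5 : 0 ≤ (2 * (b : ℝ) - 1) * g := mul_nonneg (by linarith) g0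
    linarith

variable {V : Type*} [Fintype V] [DecidableEq V]
variable {B : V → V → ℤ} {Rl : Finset V} {ℓ nQ nP : ℕ} {uq up : ℕ → V} {q p : ℕ → ℝ}
variable {k : ℤ} {θ : ℝ}
variable {R Rs S : Finset V} {g : ℤ} {Kc : V → Finset V} {pick : Finset V → V}

/-- the number of arcs from `S` to `Rs` -/
lemma Dec.SR (hd : Dec B pick R Rs S g Kc) (h0 : ∀ u v, 0 ≤ B u v) (h1 : ∀ u v, B u v ≤ 1) :
    ar B S Rs ≤ Rs.card := by
  classical
  refine le_trans ?_ hd.sizes
  unfold ar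
  refine Finset.sum_le_sum fun v hv => ?_
  have hK := (hd.bad v hv).1.cl
  have hvK := (hd.bad v hv).2.1
  have hsub := (hd.bad v hv).2.2.2
  have e1 : ∑ u ∈ Rs, B v u = ∑ u ∈ (Kc v).erase v, B v u := by
    refine (Finset.sum_subset hsub ?_).symm
    intro u hu hu'
    have huR : u ∈ R := by
      rw [← hd.un]
      exact Finset.mem_union_left _ hu
    have huv : u ≠ v := by
      rintro rfl
      exact Finset.disjoint_left.1 hd.dj hu hv
    have huK : u ∉ Kc v := fun h' => hu' (Finset.mem_erase.2 ⟨huv, h'⟩)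
    exact (hK.zero h0 hvK huR huK).1
  rw [e1]
  calc ∑ u ∈ (Kc v).erase v, B v u ≤ ∑ _u ∈ (Kc v).erase v, (1 : ℤ) :=
        Finset.sum_le_sum fun u _ => h1 v u
    _ = (((Kc v).erase v).card : ℤ) := by simp
    _ = (Kc v).card - 1 := by
        rw [Finset.card_erase_of_mem hvK]
        have : 1 ≤ (Kc v).card := Finset.card_pos.2 ⟨v, hvK⟩
        push_cast [Nat.cast_sub this]
        ring

/-- **The counting facts**, minimum indegree at least `k`, hubs of both types -/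
theorem Ctx.cntM (h : Ctx B Rl ℓ nQ nP uq up q p k θ) (hin : ∀ v ∈ Rl, k ≤ ∑ u, B u v)
    {a b : ℕ} (ha1 : 1 ≤ a) (ha : a ≤ nQ) (hb : b ≤ nP)
    (hd : Dec B pick (vs uq up (rr nQ nP a b)) Rs S g Kc) :
    CntM k θ Rl.card a b Rs.card S.card ((∑ v ∈ S, MM B (uq 0) v : ℤ) : ℝ)
      ((- ∑ v ∈ S, im B v : ℤ) : ℝ) (q 0) (∑ j ∈ range a, q j) (∑ j ∈ range b, p j) ∧
    ∀ v ∈ S, |((im B v : ℤ) : ℝ)| ≤ a + b + Rs.card := by
  classical
  have hQ := h.fr.nQle
  have hP := h.fr.nPle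
  have B0 := h.fr.sys.B0
  have B1 := h.fr.sys.B1
  have Bd := h.fr.sys.Bd
  have dum := h.fr.sys.dummy
  have par := h.fr.par ha hb hd
  set O : Finset V := vs uq up (iq 0 a) with hO
  set I : Finset V := vs uq up (ip 0 b) with hI
  have cO : (O.card : ℤ) = a := by rw [hO, h.fr.card_hub ha]
  have cI : (I.card : ℤ) = b := by rw [hI, h.fr.card_hubP hb]
  have sO : (((∑ v ∈ O, im B v : ℤ)) : ℝ) = ∑ j ∈ range a, q j := h.fr.sum_hub ha
  have sI : (((∑ v ∈ I, im B v : ℤ)) : ℝ) = - ∑ j ∈ range b, p j := h.fr.sum_hubP hb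
  have h0O : uq 0 ∈ O := by
    rw [hO]
    unfold vs
    rw [Finset.mem_image]
    exact ⟨Sum.inl 0, by simp only [inl_mem_iq]; omega, rfl⟩
  have h0R : uq 0 ∈ Rl := par.sO h0O
  have h0S : uq 0 ∉ S := by
    intro h'
    exact Finset.disjoint_left.1 par.d2 (Finset.mem_union_left _ h0O) (Finset.mem_union_right _ h')
  -- total number
  have tot := par.total (B := B) dum
  have tot' := par.total' (B := B) dum
  have rO := par.row (B := B) O
  have rI := par.row (B := B) I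
  have rR := par.row (B := B) Rs
  have rS := par.row (B := B) S
  have c_O := par.col (B := B) O
  have c_I := par.col (B := B) I
  have c_R := par.col (B := B) Rs
  have c_S := par.col (B := B) S
  have inn : ∀ X : Finset V, X ⊆ Rl → k * (X.card : ℤ) ≤ ar B Rl X := by
    intro X hX
    rw [← sum_col dum]
    calc k * (X.card : ℤ) = ∑ _v ∈ X, k := by rw [Finset.sum_const, nsmul_eq_mul]; ring
      _ ≤ _ := Finset.sum_le_sum fun v hv => hin v (hX hv)
  have nO := inn O par.sO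
  have nR := inn Rs par.sR
  have nS := inn S par.sS
  have iO := im_sum_ar dum O
  have iI := im_sum_ar dum I
  have iS := im_sum_ar dum S
  have SS0 := hd.SS B0
  have SR := hd.SR B0 B1
  have lOI := ar_le B1 O I
  have lSI := ar_le B1 S I
  have nn : ∀ X Y : Finset V, 0 ≤ ar B X Y := fun X Y => ar_nn B0 X Y
  have cardE := par.card
  rw [cO, cI] at lOI cardE
  rw [cI] at lSI
  rw [cO] at nO
  have tot1 : (2 * (k : ℝ) - 1) * θ = ((mm B : ℤ) : ℝ) := h.hm
  have q0e : ((im B (uq 0) : ℤ) : ℝ) = q 0 := h.fr.sys.wtQ 0 (by have := h.fr.l2; omega)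
  -- integer statements
  have E1z : - ∑ v ∈ I, im B v + k * (a + Rs.card + S.card) ≤ mm B := by
    have n1 := nn I O
    have n2 := nn I Rs
    have n3 := nn I S
    have n4 := nn I I
    linarith
  have OIz : ∑ v ∈ O, im B v - ∑ v ∈ I, im B v + k * a ≤ mm B + a * b := by
    have n1 := nn I O
    have n2 := nn I Rs
    have n3 := nn I S
    have n5 := nn Rs O
    have n6 := nn Rs Rs
    have n7 := nn Rs S
    have n8 := nn S O
    have n9 := nn S Rs
    have n10 := nn I I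
    linarith
  have ZCz : (k - b) * (S.card : ℤ) ≤ - ∑ v ∈ S, im B v +
      (mm B + ∑ v ∈ I, im B v - k * (a + Rs.card + S.card)) + k * a + Rs.card := by
    have n1 := nn I O
    have n2 := nn I Rs
    have n3 := nn I S
    have n4 := nn I I
    have n5 := nn Rs O
    have n6 := nn O O
    linarith
  have HHz : (S.card : ℤ) - ((Rl.card : ℤ) - 1 - im B (uq 0) - k) ≤ ∑ v ∈ S, MM B (uq 0) v := by
    have f1 : ∑ u, B (uq 0) u = ∑ u ∈ Rl.erase (uq 0), B (uq 0) u := by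
      rw [row_real dum, ← Finset.add_sum_erase Rl _ h0R, Bd, zero_add]
    have hSs : S ⊆ Rl.erase (uq 0) := fun v hv =>
      Finset.mem_erase.2 ⟨fun e => h0S (e ▸ hv), par.sS hv⟩
    have f2 : ∑ u ∈ Rl.erase (uq 0), B (uq 0) u =
        ∑ u ∈ Rl.erase (uq 0) \ S, B (uq 0) u + ∑ u ∈ S, B (uq 0) u :=
      (Finset.sum_sdiff hSs).symm
    have f3 : ∑ u ∈ Rl.erase (uq 0) \ S, B (uq 0) u ≤ (Rl.card : ℤ) - 1 - S.card := by
      calc ∑ u ∈ Rl.erase (uq 0) \ S, B (uq 0) u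
          ≤ ∑ _u ∈ Rl.erase (uq 0) \ S, (1 : ℤ) := Finset.sum_le_sum fun u _ => B1 _ u
        _ = ((Rl.erase (uq 0) \ S).card : ℤ) := by simp
        _ = (Rl.card : ℤ) - 1 - S.card := by
            rw [Finset.card_sdiff_of_subset hSs, Finset.card_erase_of_mem h0R]
            have g1 : 1 ≤ Rl.card := Finset.card_pos.2 ⟨_, h0R⟩
            have g2 : S.card ≤ Rl.card - 1 := by
              rw [← Finset.card_erase_of_mem h0R]
              exact Finset.card_le_card hSs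
            rw [Nat.cast_sub g2, Nat.cast_sub g1]
            push_cast
            ring
    have f4 : ∑ u ∈ S, B (uq 0) u ≤ ∑ v ∈ S, MM B (uq 0) v := by
      refine Finset.sum_le_sum fun v _ => ?_
      unfold MM
      linarith [B0 v (uq 0)]
    have f5 := hin (uq 0) h0R
    have f6 : im B (uq 0) = ∑ u, B (uq 0) u - ∑ u, B u (uq 0) := rfl
    linarith
  have cardR : (Rl.card : ℝ) = a + b + (Rs.card : ℝ) + S.card := by
    have h1 : ((Rl.card : ℤ) : ℝ) = (((a : ℤ) + b + Rs.card + S.card : ℤ) : ℝ) := by rw [cardE]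
    push_cast at h1
    exact h1
  have E1r : - ((∑ v ∈ I, im B v : ℤ) : ℝ) + k * (a + Rs.card + S.card) ≤ mm B := by
    exact_mod_cast E1z
  have OIr : ((∑ v ∈ O, im B v : ℤ) : ℝ) - ((∑ v ∈ I, im B v : ℤ) : ℝ) + k * a ≤
      mm B + a * b := by exact_mod_cast OIz
  have ZCr : ((k : ℝ) - b) * S.card ≤ ((- ∑ v ∈ S, im B v : ℤ) : ℝ) +
      (mm B + ((∑ v ∈ I, im B v : ℤ) : ℝ) - k * (a + Rs.card + S.card)) + k * a +
      Rs.card := by exact_mod_cast ZCz
  have HHr : (S.card : ℝ) - ((Rl.card : ℝ) - 1 - ((im B (uq 0) : ℤ) : ℝ) - k) ≤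
      ((∑ v ∈ S, MM B (uq 0) v : ℤ) : ℝ) := by exact_mod_cast HHz
  rw [sI, ← tot1] at E1r ZCr
  rw [sO, sI, ← tot1] at OIr
  rw [q0e] at HHr
  have e2 : (Rl.card : ℝ) - b = a + Rs.card + S.card := by rw [cardR]; ring
  refine ⟨⟨cardR, ?_, ?_, ?_, HHr⟩, ?_⟩
  · rw [e2]
    linarith
  · linarith
  · rw [e2]
    linarith
  · intro v hv
    have hcard : ((Rl \ S).card : ℤ) = a + b + Rs.card := by
      have e3 := Finset.card_sdiff_add_card_eq_card par.sS
      have e4 : ((Rl \ S).card : ℤ) + S.card = Rl.card := by exact_mod_cast e3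
      linarith
    have hz : ∀ u ∈ S, B v u = 0 ∧ B u v = 0 := by
      intro u hu
      have h5 := hd.ind v hv u hu
      unfold MM at h5
      have h6 := B0 v u
      have h7 := B0 u v
      constructor <;> omega
    have r1 : ∑ u, B v u ≤ (a : ℤ) + b + Rs.card := by
      rw [row_real dum, ← Finset.sum_sdiff par.sS, Finset.sum_eq_zero fun u hu => (hz u hu).1,
        add_zero, ← hcard]
      calc ∑ u ∈ Rl \ S, B v u ≤ ∑ _u ∈ Rl \ S, (1 : ℤ) := Finset.sum_le_sum fun u _ => B1 _ u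
        _ = _ := by simp
    have r2 : ∑ u, B u v ≤ (a : ℤ) + b + Rs.card := by
      rw [col_real dum, ← Finset.sum_sdiff par.sS, Finset.sum_eq_zero fun u hu => (hz u hu).2,
        add_zero, ← hcard]
      calc ∑ u ∈ Rl \ S, B u v ≤ ∑ _u ∈ Rl \ S, (1 : ℤ) := Finset.sum_le_sum fun u _ => B1 u _
        _ = _ := by simp
    have r3 : 0 ≤ ∑ u, B v u := Finset.sum_nonneg fun u _ => B0 v u
    have r4 : 0 ≤ ∑ u, B u v := Finset.sum_nonneg fun u _ => B0 u v
    have h1 : |im B v| ≤ (a : ℤ) + b + Rs.card := by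
      unfold im
      rw [abs_le]
      constructor <;> linarith
    rw [← Int.cast_abs]
    exact_mod_cast h1

end Pool.Agent.Exact
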