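import Pool.Agent.Lib_helper68.Exact.Lists
import Pool.Agent.Lib_helper68.Exact.Gain

/-!
# Block structures with neutral vertices
-/

set_option autoImplicit false
set_option linter.unusedSectionVars false

namespace Pool.Agent.Exact

open Finset

variable {V : Type*} [DecidableEq V] {B : V → V → ℤ} {a : V → ℤ}

private lemma fs_a (w u v : V) : insert w {u, v} = ({u, v} : Finset V) ∪ {w} := by
  rw [Finset.union_comm, Finset.insert_eq w]

private lemma fs_b (S : Finset V) (w u v : V) : insert w (S ∪ {u, v}) = (S ∪ {u, v}) ∪ {w} := by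
  rw [Finset.union_comm (S ∪ {u, v}), Finset.insert_eq w]

private lemma fs_c (S T : Finset V) (z u v : V) :
    insert z (S ∪ (T ∪ {u, v})) = insert z (S ∪ {u, v} ∪ T) := by
  rw [Finset.union_comm T, Finset.union_assoc]

private lemma fs_d (S T : Finset V) (z c b : V) :
    insert z (S ∪ {c, b} ∪ T) = (S ∪ T) ∪ insert c {b, z} := by
  ext x
  simp only [Finset.mem_insert, Finset.mem_union, Finset.mem_singleton, or_comm, or_left_comm,
    or_assoc]

private lemma fs_e (T : Finset V) (u v z : V) :
    insert u (T ∪ {v, z}) = insert z (T ∪ {u, v}) := by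
  ext x
  simp only [Finset.mem_insert, Finset.mem_union, Finset.mem_singleton, or_comm, or_left_comm,
    or_assoc]

/-- stars and triples (with a double edge); all vertices of `N` are neutral to each block -/
inductive BlocksN (B : V → V → ℤ) (N : Finset V) : Finset V → ℤ → Prop
  | empty : BlocksN B N ∅ 0
  | star (S : Finset V) (g : ℤ) (c : V) (L : Finset V) : BlocksN B N S g → c ∉ S → c ∉ L →
      Disjoint L S → L.Nonempty → (∀ l ∈ L, 1 ≤ MM B c l) → (∀ l ∈ L, ∀ l' ∈ L, MM B l l' = 0) →
      (∀ z ∈ N, MM B c z = ∑ l ∈ L, MM B l z) →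
      BlocksN B N (S ∪ insert c L) (g + ∑ l ∈ L, MM B c l)
  | hole (S : Finset V) (g : ℤ) (u v w : V) : BlocksN B N S g → u ∉ S → v ∉ S → w ∉ S → u ≠ v →
      u ≠ w → v ≠ w → 2 ≤ MM B u v → (∀ z ∈ N, MM B u z = MM B v z ∧ MM B w z = 0) →
      BlocksN B N (insert w (S ∪ {u, v})) (g + MM B u v)

/-- a double edge and a further vertex can be added to a good set, also as the first block -/
lemma GoodE.hole2 {S : Finset V} {x : V → ℤ} (hS : GoodE B a x 1 S)
    (h0 : ∀ u v, 0 ≤ B u v)
    (hB : ∀ v, B v v = 0) (ha : ∀ v, 0 ≤ a v ∧ a v ≤ 2) (u v w : V) (hu : u ∉ S) (hv : v ∉ S)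
    (hw : w ∉ S) (huv : u ≠ v) (huw : u ≠ w) (hvw : v ≠ w) (h1 : 2 ≤ MM B u v) (σ : ℤ)
    (hσ : σ = 1 ∨ σ = -1) (hxu : x u = σ) (hxv : x v = -σ) (hxw : x w = 1 ∨ x w = -1)
    (hint : Int B S {u, v} x ≤ 0) (hint' : Int B (S ∪ {u, v}) {w} x ≤ 0) :
    GoodE B a x 1 (insert w (S ∪ {u, v})) := by
  rcases S.eq_empty_or_nonempty with rfl | hne
  · have hvv : ∀ l ∈ ({v} : Finset V), ∀ l' ∈ ({v} : Finset V), MM B l l' = 0 := by
      intro l hl l' hl'
      rw [Finset.mem_singleton] at hl hl'
      rw [hl, hl']
      simp [MM, hB]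
    have g1 := GoodE.first (a := a) (x := x) (e := 1) le_rfl h0 hB ha u {v} (by simpa using huv)
      (by simp) (by intro l hl; rw [Finset.mem_singleton] at hl; rw [hl]; linarith) hvv σ hσ hxu
      (by simpa using hxv)
    rw [← insert_pair_eq2] at g1
    rw [Finset.empty_union] at hint' ⊢
    have hwS : w ∉ ({u, v} : Finset V) := by
      simp only [Finset.mem_insert, Finset.mem_singleton, not_or]
      exact ⟨huw.symm, hvw.symm⟩
    refine GoodE.step _ w g1 hwS ?_
    have e' : insert w {u, v} = ({u, v} : Finset V) ∪ {w} := fs_a w u v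
    have hd : Disjoint ({u, v} : Finset V) {w} := by simpa using hwS
    rw [e', DD_union hd, Qd_single w hB, ch_union hd]
    simp only [Finset.sum_singleton, add_zero]
    have e2 : ch a {u, v} = (if a u = 1 then 0 else 1) + (if a v = 1 then 0 else 1) := by
      unfold ch
      rw [Finset.sum_pair huv]
    have e3 : ch a {w} = if a w = 1 then 0 else 1 := by simp [ch]
    have e4 : DD B a x {u, v} = σ * (a u - a v) - MM B u v := by
      unfold DD
      rw [Qd_pair hB huv, Finset.sum_pair huv, hxu, hxv]
      rcases hσ with h | h <;> rw [h] <;> ring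
    rw [e2, e3, e4]
    have h3 : σ * (a u - a v) ≤ (if a u = 1 then 0 else 1) + (if a v = 1 then 0 else 1) := by
      have hu2 := ha u
      have hv2 := ha v
      rcases hσ with h | h <;> rw [h] <;> split_ifs <;> omega
    have h4 : a w * x w ≤ (if a w = 1 then 0 else 1) + 1 := by
      have hw2 := ha w
      rcases hxw with h | h <;> rw [h] <;> split_ifs <;> omega
    linarith
  · exact hS.hole le_rfl (Or.inr hne) h0 hB ha u v w hu hv hw huv huw hvw (by linarith) σ hσ hxu
      hxv hxw hint hint'

/-- every block structure is realised by a sign pattern with small quadratic form which can be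
built vertex by vertex, also after a global change of sign; neutral vertices see nothing -/
theorem BlocksN.realise {N S : Finset V} {g : ℤ} (h : BlocksN B N S g) (h0 : ∀ u v, 0 ≤ B u v)
    (hB : ∀ v, B v v = 0) (ha : ∀ v, 0 ≤ a v ∧ a v ≤ 2) :
    ∃ x : V → ℤ, (∀ v, x v = 1 ∨ x v = -1) ∧ Qd B S x ≤ -g ∧ GoodE B a x 1 S ∧
      GoodE B a (fun v => - x v) 1 S ∧ ∀ z ∈ N, ∑ u ∈ S, MM B u z * x u = 0 := by
  induction h with
  | empty => exact ⟨fun _ => 1, fun _ => Or.inl rfl, by simp [Qd], GoodE.empty, GoodE.empty,
      by simp⟩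
  | star S g c L hS hcS hcL hLS hL h1 h2 hN ih =>
    obtain ⟨x0, hx0, hq, hg, hg', hneu⟩ := ih
    have hd : Disjoint S (insert c L) := by
      rw [Finset.disjoint_insert_right]
      exact ⟨hcS, hLS.symm⟩
    set y : ℤ → V → ℤ := fun σ v => if v = c then σ else if v ∈ L then -σ else x0 v with hy
    have hyc : ∀ σ, y σ c = σ := by intro σ; simp [hy]
    have hyL : ∀ σ, ∀ l ∈ L, y σ l = -σ := by
      intro σ l hl
      have : l ≠ c := fun e => hcL (e ▸ hl)
      simp [hy, this, hl]
    have hyS : ∀ σ, ∀ v ∈ S, y σ v = x0 v := by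
      intro σ v hv
      have h3 : v ≠ c := fun e => hcS (e ▸ hv)
      have h4 : v ∉ L := fun h => Finset.disjoint_left.1 hLS h hv
      simp [hy, h3, h4]
    have hJ : ∀ σ, (σ = 1 ∨ σ = -1) →
        Int B S (insert c L) (y σ) = σ * Int B S (insert c L) (y 1) := by
      intro σ hσ
      unfold Int
      rw [Finset.mul_sum]
      refine Finset.sum_congr rfl fun u hu => ?_
      rw [Finset.mul_sum]
      refine Finset.sum_congr rfl fun v hv => ?_
      rw [hyS σ u hu, hyS 1 u hu]
      rcases Finset.mem_insert.1 hv with rfl | hv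
      · rw [hyc, hyc]; ring
      · rw [hyL σ v hv, hyL 1 v hv]; ring
    obtain ⟨σ, hσ, hσJ⟩ : ∃ σ : ℤ, (σ = 1 ∨ σ = -1) ∧ Int B S (insert c L) (y σ) ≤ 0 := by
      rcases le_total (Int B S (insert c L) (y 1)) 0 with h3 | h3
      · exact ⟨1, Or.inl rfl, h3⟩
      · refine ⟨-1, Or.inr rfl, ?_⟩
        rw [hJ _ (Or.inr rfl)]
        linarith
    refine ⟨y σ, ?_, ?_, ?_, ?_, ?_⟩
    · intro v
      simp only [hy]
      split_ifs
      · exact hσ
      · rcases hσ with h | h <;> rw [h] <;> norm_num
      · exact hx0 v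
    · rw [Qd_union hd, Qd_congr (hyS σ), Qd_star c L hcL h0 hB h2]
      have : ∑ l ∈ L, MM B c l * (y σ c * y σ l) = - ∑ l ∈ L, MM B c l := by
        rw [← Finset.sum_neg_distrib]
        refine Finset.sum_congr rfl fun l hl => ?_
        rw [hyc, hyL σ l hl]
        rcases hσ with h | h <;> rw [h] <;> ring
      rw [this]
      linarith
    · exact (hg.congr fun v hv => (hyS σ v hv).symm).star le_rfl h0 hB ha c L hcS hcL hLS hL h1 h2 σ hσ
        (hyc σ) (hyL σ) hσJ
    · refine GoodE.star (hg'.congr fun v hv => by rw [hyS σ v hv]) le_rfl h0 hB ha c L hcS hcL hLS hL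
        h1 h2 (-σ) ?_ (by rw [hyc σ]) (fun l hl => by rw [hyL σ l hl]) ?_
      · rcases hσ with h | h
        · right; rw [h]
        · left; rw [h]; norm_num
      · rw [Int_neg]; exact hσJ
    · intro z hz
      rw [Finset.sum_union hd, Finset.sum_insert hcL, hyc]
      have e1 : ∑ u ∈ S, MM B u z * y σ u = 0 := by
        rw [← hneu z hz]
        exact Finset.sum_congr rfl fun u hu => by rw [hyS σ u hu]
      have e2 : ∑ l ∈ L, MM B l z * y σ l = - (∑ l ∈ L, MM B l z) * σ := by
        rw [← Finset.sum_neg_distrib, Finset.sum_mul]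
        exact Finset.sum_congr rfl fun l hl => by rw [hyL σ l hl]; ring
      rw [e1, e2, hN z hz]
      ring
  | hole S g u v w hS hu hv hw huv huw hvw h1 hN ih =>
    obtain ⟨x0, hx0, hq, hg, hg', hneu⟩ := ih
    have hd : Disjoint S {u, v} := by
      rw [Finset.disjoint_right]
      intro z hz
      rw [Finset.mem_insert, Finset.mem_singleton] at hz
      rcases hz with rfl | rfl
      · exact hu
      · exact hv
    have hvv : ∀ l ∈ ({v} : Finset V), ∀ l' ∈ ({v} : Finset V), MM B l l' = 0 := by
      intro l hl l' hl'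
      rw [Finset.mem_singleton] at hl hl'
      rw [hl, hl']
      simp [MM, hB]
    have hwS : w ∉ S ∪ {u, v} := by
      simp only [Finset.mem_union, Finset.mem_insert, Finset.mem_singleton, not_or]
      exact ⟨hw, huw.symm, hvw.symm⟩
    have hdw : Disjoint (S ∪ {u, v}) {w} := by simpa using hwS
    set y : ℤ → ℤ → V → ℤ := fun σ τ z => if z = u then σ else if z = v then -σ else
      if z = w then τ else x0 z with hy
    have hyu : ∀ σ τ, y σ τ u = σ := by intro σ τ; simp [hy]
    have hyv : ∀ σ τ, y σ τ v = -σ := by intro σ τ; simp [hy, huv.symm]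
    have hyw : ∀ σ τ, y σ τ w = τ := by intro σ τ; simp [hy, huw.symm, hvw.symm]
    have hyS : ∀ σ τ, ∀ z ∈ S, y σ τ z = x0 z := by
      intro σ τ z hz
      have h3 : z ≠ u := fun e => hu (e ▸ hz)
      have h4 : z ≠ v := fun e => hv (e ▸ hz)
      have h5 : z ≠ w := fun e => hw (e ▸ hz)
      simp [hy, h3, h4, h5]
    have hJ : ∀ σ τ, Int B S {u, v} (y σ τ) = σ * Int B S {u, v} (y 1 1) := by
      intro σ τ
      unfold Int
      rw [Finset.mul_sum]
      refine Finset.sum_congr rfl fun z hz => ?_
      rw [Finset.sum_pair huv, Finset.sum_pair huv, hyu, hyv, hyS σ τ z hz, hyu, hyv,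
        hyS 1 1 z hz]
      ring
    obtain ⟨σ, hσ, hσJ⟩ : ∃ σ : ℤ, (σ = 1 ∨ σ = -1) ∧ ∀ τ, Int B S {u, v} (y σ τ) ≤ 0 := by
      rcases le_total (Int B S {u, v} (y 1 1)) 0 with h3 | h3
      · exact ⟨1, Or.inl rfl, fun τ => by rw [hJ]; linarith⟩
      · refine ⟨-1, Or.inr rfl, fun τ => ?_⟩
        rw [hJ]
        linarith
    have hJ' : ∀ τ, Int B (S ∪ {u, v}) {w} (y σ τ) = τ * Int B (S ∪ {u, v}) {w} (y σ 1) := by
      intro τ
      unfold Int
      rw [Finset.mul_sum]
      refine Finset.sum_congr rfl fun z hz => ?_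
      rw [Finset.sum_singleton, Finset.sum_singleton, hyw, hyw]
      have : y σ τ z = y σ 1 z := by
        have h5 : z ≠ w := fun e => hwS (e ▸ hz)
        simp [hy, h5]
      rw [this]
      ring
    obtain ⟨τ, hτ, hτJ⟩ : ∃ τ : ℤ, (τ = 1 ∨ τ = -1) ∧ Int B (S ∪ {u, v}) {w} (y σ τ) ≤ 0 := by
      rcases le_total (Int B (S ∪ {u, v}) {w} (y σ 1)) 0 with h3 | h3
      · exact ⟨1, Or.inl rfl, h3⟩
      · refine ⟨-1, Or.inr rfl, ?_⟩
        rw [hJ']
        linarith
    refine ⟨y σ τ, ?_, ?_, ?_, ?_, ?_⟩
    · intro z
      simp only [hy]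
      split_ifs
      · exact hσ
      · rcases hσ with h | h <;> rw [h] <;> norm_num
      · exact hτ
      · exact hx0 z
    · have e : insert w (S ∪ {u, v}) = (S ∪ {u, v}) ∪ {w} := fs_b S w u v
      rw [e, Qd_union hdw, Qd_union hd, Qd_congr (hyS σ τ), Qd_single w hB, insert_pair_eq2,
        Qd_star u {v} (by simpa using huv) h0 hB hvv, ← insert_pair_eq2]
      simp only [Finset.sum_singleton]
      have h3 := hσJ τ
      have h4 : MM B u v * (y σ τ u * y σ τ v) = - MM B u v := by
        rw [hyu, hyv]
        rcases hσ with h | h <;> rw [h] <;> ring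
      rw [h4]
      linarith
    · exact (hg.congr fun z hz => (hyS σ τ z hz).symm).hole2 h0 hB ha u v w hu hv hw huv huw hvw h1
        σ hσ (hyu σ τ) (hyv σ τ) (by rw [hyw]; exact hτ) (hσJ τ) hτJ
    · refine GoodE.hole2 (hg'.congr fun z hz => by rw [hyS σ τ z hz]) h0 hB ha u v w hu hv hw huv huw
        hvw h1 (-σ) ?_ (by rw [hyu]) (by rw [hyv]) ?_ ?_ ?_
      · rcases hσ with h | h
        · right; rw [h]
        · left; rw [h]; norm_num
      · rw [hyw]
        rcases hτ with h | h
        · right; rw [h]
        · left; rw [h]; norm_num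
      · rw [Int_neg]; exact hσJ τ
      · rw [Int_neg]; exact hτJ
    · intro z hz
      have hd3 : w ∉ S ∪ {u, v} := hwS
      rw [Finset.sum_insert hd3, Finset.sum_union hd, Finset.sum_pair huv, hyu, hyv]
      have e1 : ∑ s ∈ S, MM B s z * y σ τ s = 0 := by
        rw [← hneu z hz]
        exact Finset.sum_congr rfl fun s hs => by rw [hyS σ τ s hs]
      rw [e1, (hN z hz).1, (hN z hz).2]
      ring

lemma BlocksN.union {N S T : Finset V} {g g' : ℤ} (hS : BlocksN B N S g) (hT : BlocksN B N T g')
    (h : Disjoint S T) : BlocksN B N (S ∪ T) (g + g') := by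
  induction hT with
  | empty => simpa using hS
  | star T g' c L hT hcT hcL hLT hL h1 h2 h3 ih =>
    rw [Finset.disjoint_union_right, Finset.disjoint_insert_right] at h
    have e : S ∪ (T ∪ insert c L) = (S ∪ T) ∪ insert c L := (Finset.union_assoc _ _ _).symm
    rw [e, ← add_assoc]
    refine BlocksN.star _ _ c L (ih h.1) ?_ hcL ?_ hL h1 h2 h3
    · simp only [Finset.mem_union, not_or]
      exact ⟨h.2.1, hcT⟩
    · rw [Finset.disjoint_union_right]
      exact ⟨h.2.2.symm, hLT⟩
  | hole T g' u v w hT hu hv hw huv huw hvw h1 h2 ih =>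
    have hsub : T ⊆ insert w (T ∪ {u, v}) :=
      Finset.subset_union_left.trans (Finset.subset_insert _ _)
    have hmem : ∀ z, z = u ∨ z = v ∨ z = w → z ∉ S := by
      intro z hz hzS
      refine Finset.disjoint_left.1 h hzS ?_
      simp only [Finset.mem_insert, Finset.mem_union, Finset.mem_singleton]
      rcases hz with h | h | h
      · exact Or.inr (Or.inr (Or.inl h))
      · exact Or.inr (Or.inr (Or.inr h))
      · exact Or.inl h
    have e : S ∪ insert w (T ∪ {u, v}) = insert w ((S ∪ T) ∪ {u, v}) := by
      rw [Finset.union_insert, Finset.union_assoc]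
    rw [e, ← add_assoc]
    refine BlocksN.hole _ _ u v w (ih (Finset.disjoint_of_subset_right hsub h)) ?_ ?_ ?_ huv huw
      hvw h1 h2
    · simp only [Finset.mem_union, not_or]; exact ⟨hmem u (Or.inl rfl), hu⟩
    · simp only [Finset.mem_union, not_or]; exact ⟨hmem v (Or.inr (Or.inl rfl)), hv⟩
    · simp only [Finset.mem_union, not_or]; exact ⟨hmem w (Or.inr (Or.inr rfl)), hw⟩

/-- more neutral vertices -/
lemma BlocksN.more {N N' S : Finset V} {g : ℤ} (h : BlocksN B N S g)
    (hz : ∀ u ∈ S, ∀ z ∈ N', MM B u z = 0) : BlocksN B (N ∪ N') S g := by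
  induction h with
  | empty => exact BlocksN.empty
  | star S g c L hS hcS hcL hLS hL h1 h2 h3 ih =>
    refine BlocksN.star S g c L (ih fun u hu => hz u (by simp [hu])) hcS hcL hLS hL h1 h2 ?_
    intro z hzN
    rcases Finset.mem_union.1 hzN with h | h
    · exact h3 z h
    · rw [hz c (by simp) z h, Finset.sum_eq_zero fun l hl => hz l (by simp [hl]) z h]
  | hole S g u v w hS hu hv hw huv huw hvw h1 h2 ih =>
    refine BlocksN.hole S g u v w (ih fun u hu => hz u (by simp [hu])) hu hv hw huv huw hvw h1 ?_
    intro z hzN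
    rcases Finset.mem_union.1 hzN with h | h
    · exact h2 z h
    · rw [hz u (by simp) z h, hz v (by simp) z h, hz w (by simp) z h]
      exact ⟨rfl, rfl⟩

/-- star covers -/
lemma sc_blocksN (h0 : ∀ u v, 0 ≤ B u v) {S : Finset V} (h : StarCover (Adj B) S) :
    ∃ g, BlocksN B ∅ S g ∧ (S.card : ℤ) ≤ 2 * g := by
  induction h with
  | empty => exact ⟨0, BlocksN.empty, by simp⟩
  | cons S c L hS hcS hcL hLS hL h1 h2 ih =>
    obtain ⟨g, hg, hc⟩ := ih
    refine ⟨_, BlocksN.star S g c L hg hcS hcL hLS hL h1 ?_ (by simp), ?_⟩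
    · intro l hl l' hl'
      have h3 := h2 l hl l' hl'
      unfold Adj at h3
      have h4 : 0 ≤ MM B l l' := by unfold MM; linarith [h0 l l', h0 l' l]
      omega
    · have hd : Disjoint S (insert c L) := by
        rw [Finset.disjoint_insert_right]
        exact ⟨hcS, hLS.symm⟩
      rw [Finset.card_union_of_disjoint hd, Finset.card_insert_of_notMem hcL]
      have h5 : (L.card : ℤ) ≤ ∑ l ∈ L, MM B c l := by
        have : ∑ l ∈ L, (1 : ℤ) ≤ ∑ l ∈ L, MM B c l := Finset.sum_le_sum fun l hl => h1 l hl
        simpa using this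
      have h6 : (1 : ℤ) ≤ L.card := by exact_mod_cast hL.card_pos
      push_cast
      linarith

/-- a connected set without star cover but with a double edge -/
lemma double_blocksN (h0 : ∀ u v, 0 ≤ B u v) (hB : ∀ v, B v v = 0) {S : Finset V}
    (hS : ∀ v ∈ S, PMatch (Adj B) (S.erase v)) {u v : V} (hu : u ∈ S) (hv : v ∈ S)
    (huv2 : 2 ≤ MM B u v) : ∃ g, BlocksN B ∅ S g ∧ (S.card : ℤ) ≤ 2 * g := by
  have hsym : ∀ x y, Adj B x y → Adj B y x := fun x y h => h.symm
  have hirr := adj_irrefl hB
  have huv : u ≠ v := by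
    rintro rfl
    unfold MM at huv2
    rw [hB] at huv2
    norm_num at huv2
  obtain ⟨T, z, hT, hvT, hzT, hvz, hadj, he⟩ :=
    (hS u hu).exists_pair hsym (y := v) (Finset.mem_erase.2 ⟨huv.symm, hv⟩)
  obtain ⟨g, hg, hc⟩ := sc_blocksN h0 (hT.starCover hirr)
  have hue : u ∉ T ∪ {v, z} := by
    rw [← he]; exact Finset.notMem_erase _ _
  have hu1 : u ∉ T := fun h => hue (by simp [h])
  have hu3 : u ≠ z := fun h => hue (by simp [h])
  have hSe : S = insert z (T ∪ {u, v}) := by
    rw [← Finset.insert_erase hu, he]
    exact fs_e T u v z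
  refine ⟨g + MM B u v, ?_, ?_⟩
  · rw [hSe]
    exact BlocksN.hole T g u v z hg hu1 hvT hzT huv hu3 hvz huv2 (by simp)
  · have hzm : z ∉ T ∪ {u, v} := by
      simp only [Finset.mem_union, Finset.mem_insert, Finset.mem_singleton, not_or]
      exact ⟨hzT, hu3.symm, hvz.symm⟩
    have hcard : S.card = T.card + 3 := by
      rw [hSe, Finset.card_insert_of_notMem hzm, Finset.card_union_of_disjoint,
        Finset.card_pair huv]
      rw [Finset.disjoint_right]
      intro x hx
      simp only [Finset.mem_insert, Finset.mem_singleton] at hx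
      rcases hx with rfl | rfl
      · exact hu1
      · exact hvT
    rw [hcard]
    push_cast
    linarith

/-- a perfect matching of a set plus one neutral vertex, without star cover -/
lemma pm_blocksN (h0 : ∀ u v, 0 ≤ B u v) (hB : ∀ v, B v v = 0) {z : V} {S : Finset V}
    (h : PMatch (Adj B) S) : ∀ T : Finset V, z ∉ S → Disjoint S T → z ∉ T →
      (∀ u ∈ S, MM B u z ≤ 1) → StarCover (Adj B) T →
      ¬ StarCover (Adj B) (insert z (S ∪ T)) → ∃ g, BlocksN B {z} S g ∧ (S.card : ℤ) ≤ 2 * g := by
  induction h with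
  | empty => intro T _ _ _ _ _ _; exact ⟨0, BlocksN.empty, by simp⟩
  | cons S u v hS hu hv huv hadj ih =>
    intro T hzS hd hzT h1 hT hn
    have hsym : ∀ x y, Adj B x y → Adj B y x := fun x y h => h.symm
    have hirr := adj_irrefl hB
    have hdS : Disjoint S T := Finset.disjoint_of_subset_left Finset.subset_union_left hd
    have huT : u ∉ T := fun h => Finset.disjoint_left.1 hd (by simp) h
    have hvT : v ∉ T := fun h => Finset.disjoint_left.1 hd (by simp) h
    have hzu : z ≠ u := fun e => hzS (by simp [e])
    have hzv : z ≠ v := fun e => hzS (by simp [e])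
    have hzS' : z ∉ S := fun h => hzS (by simp [h])
    have hTuv : Disjoint T {u, v} := by
      rw [Finset.disjoint_right]
      intro x hx
      simp only [Finset.mem_insert, Finset.mem_singleton] at hx
      rcases hx with rfl | rfl
      · exact huT
      · exact hvT
    have hSuv : Disjoint S {u, v} := by
      rw [Finset.disjoint_right]
      intro x hx
      simp only [Finset.mem_insert, Finset.mem_singleton] at hx
      rcases hx with rfl | rfl
      · exact hu
      · exact hv
    obtain ⟨g, hg, hc⟩ := ih (T ∪ {u, v}) hzS' (by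
        rw [Finset.disjoint_union_right]; exact ⟨hdS, hSuv⟩)
      (by simp only [Finset.mem_union, Finset.mem_insert, Finset.mem_singleton, not_or]
          exact ⟨hzT, hzu, hzv⟩)
      (fun w hw => h1 w (by simp [hw]))
      (hT.union (StarCover.pair huv hadj hirr) hTuv)
      (by
        have e : insert z (S ∪ (T ∪ {u, v})) = insert z (S ∪ {u, v} ∪ T) := fs_c S T z u v
        rw [e]; exact hn)
    -- neutrality of the pair
    have hST : StarCover (Adj B) (S ∪ T) := (hS.starCover hirr).union hT hdS
    have key : ∀ a b : V, ({a, b} : Finset V) = {u, v} → a ≠ b → Adj B a b → Adj B a z →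
        ¬ Adj B b z → False := by
      intro c b hab hcb had hcz hbz
      apply hn
      have hc' : c ∈ ({u, v} : Finset V) := by rw [← hab]; simp
      have hb' : b ∈ ({u, v} : Finset V) := by rw [← hab]; simp
      have hcz' : c ≠ z := by
        rintro rfl
        exact hirr c hcz
      have hbz' : b ≠ z := by
        rintro rfl
        simp only [Finset.mem_insert, Finset.mem_singleton] at hb'
        rcases hb' with h | h
        · exact hzu h
        · exact hzv h
      have hstar : StarCover (Adj B) (insert c {b, z}) := by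
        refine StarCover.star c {b, z} ?_ (by simp) ?_ ?_
        · simp [hcb, hcz']
        · intro l hl
          simp only [Finset.mem_insert, Finset.mem_singleton] at hl
          rcases hl with rfl | rfl
          · exact had
          · exact hcz
        · intro l hl l' hl'
          simp only [Finset.mem_insert, Finset.mem_singleton] at hl hl'
          rcases hl with rfl | rfl <;> rcases hl' with rfl | rfl
          · exact hirr _
          · exact hbz
          · exact fun h => hbz (hsym _ _ h)
          · exact hirr _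
      have e : insert z (S ∪ {u, v} ∪ T) = (S ∪ T) ∪ insert c {b, z} := by
        rw [← hab]
        exact fs_d S T z c b
      rw [e]
      refine hST.union hstar ?_
      rw [Finset.disjoint_right]
      intro x hx
      simp only [Finset.mem_insert, Finset.mem_singleton] at hx
      simp only [Finset.mem_union, not_or]
      rcases hx with rfl | rfl | rfl
      · exact ⟨Finset.disjoint_right.1 hSuv hc', Finset.disjoint_right.1 hTuv hc'⟩
      · exact ⟨Finset.disjoint_right.1 hSuv hb', Finset.disjoint_right.1 hTuv hb'⟩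
      · exact ⟨hzS', hzT⟩
    have hneu : MM B u z = MM B v z := by
      have a1 := h1 u (by simp)
      have a2 := h1 v (by simp)
      have a3 : 0 ≤ MM B u z := by unfold MM; linarith [h0 u z, h0 z u]
      have a4 : 0 ≤ MM B v z := by unfold MM; linarith [h0 v z, h0 z v]
      by_cases c1 : MM B u z = 1 <;> by_cases c2 : MM B v z = 1
      · rw [c1, c2]
      · exfalso
        exact key u v rfl huv hadj (by unfold Adj; omega) (by unfold Adj; omega)
      · exfalso
        exact key v u (Finset.pair_comm v u) huv.symm (hsym _ _ hadj) (by unfold Adj; omega)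
          (by unfold Adj; omega)
      · omega
    refine ⟨g + ∑ l ∈ ({v} : Finset V), MM B u l, ?_, ?_⟩
    · rw [insert_pair_eq2]
      refine BlocksN.star S g u {v} hg hu (by simpa using huv) (by simpa using hv) (by simp) ?_ ?_ ?_
      · intro l hl
        rw [Finset.mem_singleton] at hl
        rw [hl]; exact hadj
      · intro l hl l' hl'
        rw [Finset.mem_singleton] at hl hl'
        rw [hl, hl']
        simp [MM, hB]
      · intro y hy
        rw [Finset.mem_singleton] at hy
        rw [hy, Finset.sum_singleton]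
        exact hneu
    · rw [Finset.card_union_of_disjoint hSuv, Finset.card_pair huv, Finset.sum_singleton]
      have : 1 ≤ MM B u v := hadj
      push_cast
      linarith

/-- a component without star cover and without double edges -/
structure Bad (B : V → V → ℤ) (R K : Finset V) : Prop where
  cl : ClosedIn B R K
  conn : Conn (Adj B) K
  ns : ¬ StarCover (Adj B) K
  pm : ∀ v ∈ K, PMatch (Adj B) (K.erase v)
  simple : ∀ u ∈ K, ∀ v ∈ K, MM B u v ≤ 1

/-- **Decomposition.** `R` is a set with a block structure plus one neutral vertex for each bad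
component; the neutral vertices can be chosen freely. -/
theorem exists_dec (h0 : ∀ u v, 0 ≤ B u v) (h1 : ∀ u v, B u v ≤ 1) (hB : ∀ v, B v v = 0)
    (pick : Finset V → V) (hpick : ∀ K : Finset V, K.Nonempty → pick K ∈ K) :
    ∀ (n : ℕ) (R : Finset V), R.card = n → ∃ (Rs S : Finset V) (g : ℤ) (Kc : V → Finset V),
      Rs ∪ S = R ∧ Disjoint Rs S ∧ BlocksN B S Rs g ∧ (Rs.card : ℤ) ≤ 2 * g ∧
      (∀ u ∈ S, ∀ v ∈ S, MM B u v = 0) ∧
      (∀ v ∈ S, Bad B R (Kc v) ∧ v ∈ Kc v ∧ v = pick (Kc v) ∧ (Kc v).erase v ⊆ Rs) ∧
      (∀ u ∈ S, ∀ v ∈ S, u ≠ v → Disjoint (Kc u) (Kc v)) := by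
  classical
  intro n
  induction n using Nat.strong_induction_on with
  | _ n ih =>
    intro R hRn
    rcases R.eq_empty_or_nonempty with rfl | hR
    · exact ⟨∅, ∅, 0, fun _ => ∅, by simp, by simp, BlocksN.empty, by simp, by simp, by simp,
        by simp⟩
    · obtain ⟨K, hKne, hKcl, hKconn⟩ := exists_conn_closed h0 hR
      have hlt : (R \ K).card < n := by
        rw [← hRn, Finset.card_sdiff_of_subset hKcl.1]
        have := hKne.card_pos
        have := Finset.card_le_card hKcl.1
        omega
      obtain ⟨Rs, S, g, Kc, hu, hd, hbl, hc, hS0, hSb, hSd⟩ := ih _ hlt (R \ K) rfl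
      have hRsR : Rs ⊆ R \ K := by rw [← hu]; exact Finset.subset_union_left
      have hSR : S ⊆ R \ K := by rw [← hu]; exact Finset.subset_union_right
      have hKR : K ∪ (R \ K) = R := Finset.union_sdiff_of_subset hKcl.1
      have hcross : ∀ u ∈ K, ∀ v ∈ R \ K, MM B u v = 0 := hKcl.2
      have hbadlift : ∀ K', Bad B (R \ K) K' → Bad B R K' := by
        intro K' hK'
        refine ⟨⟨hK'.cl.1.trans Finset.sdiff_subset, ?_⟩, hK'.conn, hK'.ns, hK'.pm, hK'.simple⟩
        intro u hu v hv
        rw [Finset.mem_sdiff] at hv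
        by_cases hvK : v ∈ K
        · rw [MM_comm]
          exact hcross v hvK u (hK'.cl.1 hu)
        · exact hK'.cl.2 u hu v (by simp [hv.1, hv.2, hvK])
      -- the component has a full block structure
      have full : ∀ g1, BlocksN B ∅ K g1 → (K.card : ℤ) ≤ 2 * g1 →
          ∃ (Rs S : Finset V) (g : ℤ) (Kc : V → Finset V),
          Rs ∪ S = R ∧ Disjoint Rs S ∧ BlocksN B S Rs g ∧ (Rs.card : ℤ) ≤ 2 * g ∧
          (∀ u ∈ S, ∀ v ∈ S, MM B u v = 0) ∧
          (∀ v ∈ S, Bad B R (Kc v) ∧ v ∈ Kc v ∧ v = pick (Kc v) ∧ (Kc v).erase v ⊆ Rs) ∧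
          (∀ u ∈ S, ∀ v ∈ S, u ≠ v → Disjoint (Kc u) (Kc v)) := by
        intro g1 hg1 hc1
        have h3 : BlocksN B (∅ ∪ S) K g1 :=
          hg1.more fun u hu z hz => hcross u hu z (hSR hz)
        rw [Finset.empty_union] at h3
        have hdK : Disjoint K Rs := Finset.disjoint_of_subset_right hRsR Finset.disjoint_sdiff
        have hdKS : Disjoint K S := Finset.disjoint_of_subset_right hSR Finset.disjoint_sdiff
        refine ⟨K ∪ Rs, S, g1 + g, Kc, ?_, ?_, h3.union hbl hdK, ?_, hS0, ?_, hSd⟩
        · rw [Finset.union_assoc, hu, hKR]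
        · rw [Finset.disjoint_union_left]; exact ⟨hdKS, hd⟩
        · rw [Finset.card_union_of_disjoint hdK]; push_cast; linarith
        · intro v hv
          obtain ⟨b1, b2, b3, b4⟩ := hSb v hv
          exact ⟨hbadlift _ b1, b2, b3, b4.trans Finset.subset_union_right⟩
      by_cases hsc : StarCover (Adj B) K
      · obtain ⟨g1, hg1, hc1⟩ := sc_blocksN h0 hsc
        exact full g1 hg1 hc1
      · have hpm : ∀ v ∈ K, PMatch (Adj B) (K.erase v) := by
          rcases starCover_or_pmatch (fun x y h => h.symm) (adj_irrefl hB) hKconn with h | h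
          · exact absurd h hsc
          · exact h
        by_cases hdb : ∃ u ∈ K, ∃ v ∈ K, 2 ≤ MM B u v
        · obtain ⟨u, hu', v, hv', huv⟩ := hdb
          obtain ⟨g1, hg1, hc1⟩ := double_blocksN h0 hB hpm hu' hv' huv
          exact full g1 hg1 hc1
        · push Not at hdb
          have hsimple : ∀ u ∈ K, ∀ v ∈ K, MM B u v ≤ 1 := fun u hu v hv => by
            have := hdb u hu v hv; omega
          set z := pick K with hz
          have hzK : z ∈ K := hpick K hKne
          have hins : insert z (K.erase z ∪ ∅) = K := by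
            rw [Finset.union_empty, Finset.insert_erase hzK]
          obtain ⟨g1, hg1, hc1⟩ := pm_blocksN h0 hB (hpm z hzK) ∅ (Finset.notMem_erase _ _)
            (by simp) (by simp) (fun u hu => hsimple u (Finset.mem_of_mem_erase hu) z hzK)
            StarCover.empty (by rw [hins]; exact hsc)
          have hzR : z ∉ R \ K := by simp [hzK]
          have hzS : z ∉ S := fun h => hzR (hSR h)
          have hzRs : z ∉ Rs := fun h => hzR (hRsR h)
          have h3 : BlocksN B ({z} ∪ S) (K.erase z) g1 :=
            hg1.more fun u hu y hy => hcross u (Finset.mem_of_mem_erase hu) y (hSR hy)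
          have h4 : BlocksN B (S ∪ {z}) Rs g := hbl.more fun u hu y hy => by
            rw [Finset.mem_singleton] at hy
            rw [hy, MM_comm]
            exact hcross z hzK u (hRsR hu)
          rw [Finset.union_comm, ← Finset.insert_eq] at h4
          rw [← Finset.insert_eq] at h3
          have hdK : Disjoint (K.erase z) Rs := by
            refine Finset.disjoint_of_subset_left (Finset.erase_subset _ _) ?_
            exact Finset.disjoint_of_subset_right hRsR Finset.disjoint_sdiff
          have hdKS : Disjoint K S := Finset.disjoint_of_subset_right hSR Finset.disjoint_sdiff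
          refine ⟨K.erase z ∪ Rs, insert z S, g1 + g, fun v => if v = z then K else Kc v, ?_, ?_,
            ?_, ?_, ?_, ?_, ?_⟩
          · have : K.erase z ∪ Rs ∪ insert z S = K ∪ (Rs ∪ S) := by
              ext x
              simp only [Finset.mem_union, Finset.mem_erase, Finset.mem_insert]
              by_cases hx : x = z
              · subst hx; simp [hzK]
              · simp [hx, or_assoc]
            rw [this, hu, hKR]
          · rw [Finset.disjoint_insert_right, Finset.disjoint_union_left]
            refine ⟨?_, Finset.disjoint_of_subset_left (Finset.erase_subset _ _) hdKS, hd⟩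
            simp only [Finset.mem_union, Finset.mem_erase, not_or]
            exact ⟨fun h => h.1 rfl, hzRs⟩
          · exact h3.union h4 hdK
          · rw [Finset.card_union_of_disjoint hdK]; push_cast; linarith
          · intro u hu' v hv'
            rcases Finset.mem_insert.1 hu' with rfl | hu' <;>
              rcases Finset.mem_insert.1 hv' with rfl | hv'
            · simp [MM, hB]
            · exact hcross z hzK v (hSR hv')
            · rw [MM_comm]; exact hcross z hzK u (hSR hu')
            · exact hS0 u hu' v hv'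
          · intro v hv
            rcases Finset.mem_insert.1 hv with rfl | hv
            · simp only [if_true]
              exact ⟨⟨hKcl, hKconn, hsc, hpm, hsimple⟩, hzK, rfl, Finset.subset_union_left⟩
            · have hvz : v ≠ z := fun e => hzS (e ▸ hv)
              simp only [hvz, if_false]
              obtain ⟨b1, b2, b3, b4⟩ := hSb v hv
              exact ⟨hbadlift _ b1, b2, b3, b4.trans Finset.subset_union_right⟩
          · intro u hu' v hv' huv
            have hKd : ∀ v ∈ S, Disjoint K (Kc v) := by
              intro v hv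
              obtain ⟨b1, b2, b3, b4⟩ := hSb v hv
              exact Finset.disjoint_of_subset_right b1.cl.1 Finset.disjoint_sdiff
            rcases Finset.mem_insert.1 hu' with rfl | hu' <;>
              rcases Finset.mem_insert.1 hv' with rfl | hv'
            · exact absurd rfl huv
            · have hvz : v ≠ z := fun e => hzS (e ▸ hv')
              simp only [if_true, hvz, if_false]
              exact hKd v hv'
            · have huz : u ≠ z := fun e => hzS (e ▸ hu')
              simp only [if_true, huz, if_false]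
              exact (hKd u hu').symm
            · have hvz : v ≠ z := fun e => hzS (e ▸ hv')
              have huz : u ≠ z := fun e => hzS (e ▸ hu')
              simp only [hvz, huz, if_false]
              exact hSd u hu' v hv' huv

end Pool.Agent.Exact
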