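import Mathlib

/-!
# Arithmetic of the case of hubs of both types, first type outgoing, odd
-/

set_option autoImplicit false

namespace Pool.Agent.Exact

/-- the numerical facts; `a = k-1-d-j` and `b = k-j` are the numbers of hubs -/
structure Po (k d j : ℤ) (K μ G y w : ℝ) : Prop where
  k3 : 3 ≤ k
  dj : d + j ≤ k - 2
  j2 : j ≤ k - 2
  K0 : 0 ≤ K
  μ0 : 0 ≤ μ
  G0 : 0 ≤ G
  yG : G < y
  Y : y ≤ K + k - 2
  w0 : 0 ≤ w
  wK : w ≤ (k - j) * K
  σ0 : 0 ≤ μ + 2 * K - 2 * G + d + 2 * j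
  C : ((d : ℝ) + 2 + j) * (μ + 2 * K - 2 * G + d + 2 * j) + w < y + (k - j) * (K + j + 1)
  D : ((k : ℝ) - 2 - d - j) * G + (k - d - j) * K + y ≤ (d + j) * μ
  D' : 0 ≤ j → ((k : ℝ) - 3 - d - j) * G + (k - d - j) * K + y +
    j * (μ + 2 * K - 2 * G + d + 2 * j) ≤ (d + j) * μ
  T : ((k : ℝ) - j + 2) * K + w + (2 - j) * μ + k * (d - 1) + 3 * j < (2 * k - 1) * G
  SS : ((k : ℝ) + 2 + j) * K + w + 2 * μ + k * (d - 2) + (2 * j + d + 2) * (j + 1) <
    (2 * k + 2) * G
  ii : w ≤ (k - j) * (K + j + 1)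

variable {k d j : ℤ} {K μ G y w : ℝ}

section
variable (h : Po k d j K μ G y w)
include h

lemma Po.dj1 : 1 ≤ d + j := by
  have h1 := h.D
  have h2 := h.dj
  have h3 := h.K0
  have h4 := h.G0
  have h5 := h.yG
  have h6 := h.μ0
  have hdj : ((d : ℝ) + j) ≤ k - 2 := by exact_mod_cast h2
  by_contra hc
  push Not at hc
  have hc' : (d : ℝ) + j ≤ 0 := by exact_mod_cast (by omega : d + j ≤ 0)
  have a1 : 0 ≤ ((k : ℝ) - 2 - d - j) * G := mul_nonneg (by linarith) h4
  have a2 : 0 ≤ ((k : ℝ) - d - j) * K := mul_nonneg (by linarith) h3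
  have a3 : ((d : ℝ) + j) * μ ≤ 0 := mul_nonpos_of_nonpos_of_nonneg hc' h6
  linarith

lemma Po.jlow : 3 - k ≤ j := by
  have h1 := h.T
  have h2 := h.σ0
  have h3 := h.K0
  have h6 := h.μ0
  have h7 := h.w0
  have hk := h.k3
  have hdj := h.dj1
  by_contra hc
  push Not at hc
  have k3r : (3 : ℝ) ≤ k := by exact_mod_cast hk
  have hc' : (j : ℝ) ≤ 2 - k := by exact_mod_cast (by omega : j ≤ 2 - k)
  have hdr : (1 : ℝ) - j ≤ d := by
    have : 1 - j ≤ d := by omega
    exact_mod_cast this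
  have a1 : (2 * (k : ℝ) - 1) * (2 * G) ≤ (2 * k - 1) * (μ + 2 * K + d + 2 * j) :=
    mul_le_mul_of_nonneg_left (by linarith) (by linarith)
  have a2 : 0 ≤ (2 * (3 - (k : ℝ) - j)) * K := mul_nonneg (by linarith) h3
  have a3 : 0 ≤ (5 - 2 * (k : ℝ) - 2 * j) * μ := mul_nonneg (by linarith) h6
  nlinarith

/-- the mean of the levels of the second type is small -/
theorem Po.C1 (hd : d % 2 = 0) : w < (k - j) * G := by
  have hk := h.k3
  have hj := h.j2
  have hjl := h.jlow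
  have hdj := h.dj
  have hdj1 := h.dj1
  have h3 := h.K0
  have h4 := h.G0
  have h5 := h.yG
  have h6 := h.μ0
  have hSS := h.SS
  have hwK := h.wK
  have k3r : (3 : ℝ) ≤ k := by exact_mod_cast hk
  have hjr : (j : ℝ) ≤ k - 2 := by exact_mod_cast hj
  have hjlr : 3 - (k : ℝ) ≤ j := by exact_mod_cast hjl
  have hdjr : (d : ℝ) + j ≤ k - 2 := by exact_mod_cast hdj
  have hdj1r : (1 : ℝ) ≤ (d : ℝ) + j := by exact_mod_cast hdj1
  by_contra hc
  push Not at hc
  have hKG : G ≤ K := by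
    by_contra hc'
    push Not at hc'
    have : ((k : ℝ) - j) * K < (k - j) * G := mul_lt_mul_of_pos_left hc' (by linarith)
    linarith
  have a1 : ((k : ℝ) + 2 + j) * G ≤ (k + 2 + j) * K :=
    mul_le_mul_of_nonneg_left hKG (by linarith)
  have a2 : 2 * μ + k * ((d : ℝ) - 2) + (2 * j + d + 2) * (j + 1) < 0 := by nlinarith
  rcases le_or_gt 0 j with h7 | h7
  · have h7r : (0 : ℝ) ≤ j := by exact_mod_cast h7
    rcases lt_or_ge d 1 with h8 | h8
    · have hD' := h.D' h7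
      have h8r : (d : ℝ) ≤ 0 := by exact_mod_cast (by omega : d ≤ 0)
      have b1 : (d : ℝ) * μ ≤ 0 := mul_nonpos_of_nonpos_of_nonneg h8r h6
      have b2 : ((k : ℝ) - d + j) * G ≤ (k - d + j) * K :=
        mul_le_mul_of_nonneg_left hKG (by linarith)
      have b3 : 0 ≤ (2 * (k : ℝ) - 2 * d - 2 * j - 2) * G := mul_nonneg (by linarith) h4
      have b4 : 0 ≤ (j : ℝ) * (d + j - 1) := mul_nonneg h7r (by linarith)
      have b5 : 0 ≤ (j : ℝ) * j := mul_nonneg h7r h7r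
      nlinarith
    · have h8' : 2 ≤ d := by omega
      have h8r : (2 : ℝ) ≤ d := by exact_mod_cast h8'
      have b1 : 0 ≤ (k : ℝ) * (d - 2) := mul_nonneg (by linarith) (by linarith)
      have b2 : 0 ≤ (2 * (j : ℝ) + d + 2) * (j + 1) := mul_nonneg (by linarith) (by linarith)
      linarith
  · have h7r : (j : ℝ) ≤ -1 := by exact_mod_cast (by omega : j ≤ -1)
    rcases le_or_gt (d + 2 + 2 * j) 0 with h9 | h9
    · have h9r : (d : ℝ) + 2 + 2 * j ≤ 0 := by exact_mod_cast h9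
      have b1 : 0 ≤ (2 * (j : ℝ) + d + 2) * (j + 1) :=
        mul_nonneg_of_nonpos_of_nonpos (by linarith) (by linarith)
      have b2 : 0 ≤ (k : ℝ) * (d - 2) := by
        refine mul_nonneg (by linarith) ?_
        have : 2 ≤ d := by omega
        have : (2 : ℝ) ≤ d := by exact_mod_cast this
        linarith
      linarith
    · have h9r : (0 : ℝ) ≤ (d : ℝ) + 2 + 2 * j := by exact_mod_cast h9.le
      have b1 : 0 ≤ (k - ((d : ℝ) + 2 + 2 * j)) * (-(j : ℝ) - 1) := by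
        refine mul_nonneg ?_ (by linarith)
        linarith
      have b2 : 0 ≤ (k : ℝ) * (d + j - 1) := mul_nonneg (by linarith) (by linarith)
      nlinarith

end

end Pool.Agent.Exact
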