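import Pool.Agent.Lib_helper68.Exact.NumPo

/-!
# Arithmetic of the case of hubs of both types, first type outgoing, odd: consequences
-/

set_option autoImplicit false

namespace Pool.Agent.Exact

variable {k d j : ℤ} {K μ G y w : ℝ}

section
variable (h : Po k d j K μ G y w)
include h

/-- a combination of `D'` and `μ + 2 G < 4` -/
lemma Po.star (hj : 0 ≤ j) (hd : 0 ≤ d) (hm : μ + 2 * G < 4) :
    ((k : ℝ) - 3 + d - 3 * j) * G + (k - d + j) * K + y + j * (d + 2 * j) ≤ 4 * d := by
  have h1 := h.D' hj
  have hdr : (0 : ℝ) ≤ d := by exact_mod_cast hd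
  have a1 : (d : ℝ) * (μ + 2 * G) ≤ d * 4 := mul_le_mul_of_nonneg_left hm.le hdr
  linarith

lemma Po.negd (hd : d ≤ 0) (hdp : d % 2 = 0) (hjp : (k - j) % 2 = 0) (hG : G ≤ 3 / 2) :
    False := by
  have hj := h.j2
  have hdj := h.dj
  have hdj1 := h.dj1
  have hk := h.k3
  have h3 := h.K0
  have h4 := h.G0
  have h5 := h.yG
  have h6 := h.μ0
  have hY := h.Y
  have j1 : 1 ≤ j := by omega
  have hD' := h.D' (by omega)
  have k3r : (3 : ℝ) ≤ k := by exact_mod_cast hk
  have hjr : (j : ℝ) ≤ k - 2 := by exact_mod_cast hj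
  have hdjr : (d : ℝ) + j ≤ k - 2 := by exact_mod_cast hdj
  have hdj1r : (1 : ℝ) ≤ (d : ℝ) + j := by exact_mod_cast hdj1
  have j1r : (1 : ℝ) ≤ j := by exact_mod_cast j1
  have hdr : (d : ℝ) ≤ 0 := by exact_mod_cast hd
  have b1 : (d : ℝ) * μ ≤ 0 := mul_nonpos_of_nonpos_of_nonneg hdr h6
  have b2 : 0 ≤ ((k : ℝ) - d + j) * K := mul_nonneg (by linarith) h3
  have key : ((k : ℝ) - 2 - d - 3 * j) * G + (k - d + j) * K + j * (d + 2 * j) < 0 := by
    linarith
  rcases le_or_gt 0 ((k : ℝ) - 2 - d - 3 * j) with h7 | h7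
  · have b3 : 0 ≤ ((k : ℝ) - 2 - d - 3 * j) * G := mul_nonneg h7 h4
    have b4 : 0 ≤ (j : ℝ) * (d + 2 * j) := mul_nonneg (by linarith) (by linarith)
    linarith
  · have b3 : ((k : ℝ) - 2 - d - 3 * j) * (3 / 2) ≤ ((k : ℝ) - 2 - d - 3 * j) * G :=
      mul_le_mul_of_nonpos_left hG h7.le
    rcases le_or_gt 2 j with h8 | h8
    · have h8r : (2 : ℝ) ≤ j := by exact_mod_cast h8
      have b4 : 0 ≤ ((j : ℝ) - 2) * (d + 2 * j) := mul_nonneg (by linarith) (by linarith)
      linarith
    · have e1 : j = 1 := by omega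
      have e2 : d = 0 := by omega
      have e3 : k = 3 := by
        subst e1 e2
        have : (k : ℝ) < 5 := by
          have := h7
          push_cast at this
          linarith
        have : k < 5 := by exact_mod_cast this
        omega
      subst e1 e2 e3
      push_cast at key hY hD'
      linarith

/-- **Either `4 ≤ μ + 2 G` or `y` is small.** -/
theorem Po.m (hdp : d % 2 = 0) (hjp : (k - j) % 2 = 0) (hG1 : G = 1 / 2 ∨ G = 1 ∨ G = 3 / 2)
    (hm : μ + 2 * G < 4) : 1 ≤ G ∧ y ≤ μ + 2 * G - 1 := by
  have hj := h.j2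
  have hjl := h.jlow
  have hdj := h.dj
  have hdj1 := h.dj1
  have hk := h.k3
  have h3 := h.K0
  have h4 := h.G0
  have h5 := h.yG
  have h6 := h.μ0
  have hw := h.w0
  have hY := h.Y
  have hT := h.T
  have hD := h.D
  have hC := h.C
  have G12 : 1 / 2 ≤ G := by rcases hG1 with h7 | h7 | h7 <;> rw [h7] <;> norm_num
  have G32 : G ≤ 3 / 2 := by rcases hG1 with h7 | h7 | h7 <;> rw [h7] <;> norm_num
  rcases le_or_gt d 0 with hd0 | hd0
  · exact (h.negd hd0 hdp hjp G32).elim
  have hd2 : 2 ≤ d := by omega
  have k3r : (3 : ℝ) ≤ k := by exact_mod_cast hk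
  have hjr : (j : ℝ) ≤ k - 2 := by exact_mod_cast hj
  have hjlr : 3 - (k : ℝ) ≤ j := by exact_mod_cast hjl
  have hdjr : (d : ℝ) + j ≤ k - 2 := by exact_mod_cast hdj
  have hdj1r : (1 : ℝ) ≤ (d : ℝ) + j := by exact_mod_cast hdj1
  have hd2r : (2 : ℝ) ≤ d := by exact_mod_cast hd2
  have GT : (2 * (k : ℝ) - 1) * G ≤ (2 * k - 1) * (3 / 2) :=
    mul_le_mul_of_nonneg_left G32 (by linarith)
  rcases le_or_gt 0 j with hj0 | hj0
  · have hj0r : (0 : ℝ) ≤ j := by exact_mod_cast hj0
    have hst := h.star hj0 (by omega) hm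
    have a1 : 0 ≤ ((k : ℝ) - j + 2) * K := mul_nonneg (by linarith) h3
    rcases le_or_gt 3 j with hj3 | hj3
    · exfalso
      have hj3r : (3 : ℝ) ≤ j := by exact_mod_cast hj3
      have a2 : ((j : ℝ) - 2) * (μ + 2 * G) ≤ (j - 2) * 4 :=
        mul_le_mul_of_nonneg_left hm.le (by linarith)
      have a3 : (2 * (k : ℝ) + 3 - 2 * j) * G ≤ (2 * k + 3 - 2 * j) * (3 / 2) :=
        mul_le_mul_of_nonneg_left G32 (by linarith)
      have hd3 : d < 4 := by
        by_contra hc
        push Not at hc
        have hcr : (4 : ℝ) ≤ d := by exact_mod_cast hc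
        have a4 : 0 ≤ (k : ℝ) * (d - 4) := mul_nonneg (by linarith) (by linarith)
        linarith
      have e1 : d = 2 := by omega
      subst e1
      push_cast at hst hdjr
      have a5 : 0 ≤ ((k : ℝ) - 2 + j) * K := mul_nonneg (by linarith) h3
      have a7 : 0 ≤ ((j : ℝ) - 3) * j := mul_nonneg (by linarith) hj0r
      rcases le_or_gt 0 ((k : ℝ) - 3 * j) with h7 | h7
      · have a6 : 0 ≤ ((k : ℝ) - 3 * j) * G := mul_nonneg h7 h4
        linarith
      · have a6 : ((k : ℝ) - 3 * j) * (3 / 2) ≤ (k - 3 * j) * G :=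
          mul_le_mul_of_nonpos_left G32 h7.le
        linarith
    · have a2 : 0 ≤ (2 - (j : ℝ)) * μ := by
        refine mul_nonneg ?_ h6
        have : (j : ℝ) ≤ 2 := by exact_mod_cast (by omega : j ≤ 2)
        linarith
      have hd3 : d < 4 := by
        by_contra hc
        push Not at hc
        have hcr : (4 : ℝ) ≤ d := by exact_mod_cast hc
        have a4 : 0 ≤ (k : ℝ) * (d - 4) := mul_nonneg (by linarith) (by linarith)
        linarith
      have e1 : d = 2 := by omega
      subst e1
      interval_cases j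
      · -- `j = 0`
        push_cast at hst hT hD hC
        have a3 : 0 ≤ ((k : ℝ) + 2) * K := mul_nonneg (by linarith) h3
        have a4 : 0 ≤ ((k : ℝ) - 2) * K := mul_nonneg (by linarith) h3
        rcases hG1 with h7 | h7 | h7
        · exfalso
          rw [h7] at hT
          linarith
        · have hk8 : k < 8 := by
            rw [h7] at hst h5
            have : (k : ℝ) < 8 := by linarith
            exact_mod_cast this
          have hk4 : 4 ≤ k := by omega
          have : k = 4 ∨ k = 6 := by omega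
          refine ⟨h7.ge, ?_⟩
          rcases this with h8 | h8 <;> subst h8 <;> push_cast at * <;> rw [h7] at * <;>
            by_contra hc <;> push Not at hc <;> linarith
        · have hk8 : k < 6 := by
            rw [h7] at hst h5
            have : (k : ℝ) < 6 := by linarith
            exact_mod_cast this
          have : k = 4 := by omega
          subst this
          refine ⟨by rw [h7]; norm_num, ?_⟩
          push_cast at *
          rw [h7] at *
          by_contra hc
          push Not at hc
          linarith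
      · -- `j = 1`
        push_cast at hst hT hD hC
        have a3 : 0 ≤ ((k : ℝ) + 1) * K := mul_nonneg (by linarith) h3
        have a4 : 0 ≤ ((k : ℝ) - 1) * K := mul_nonneg (by linarith) h3
        have hk5 : 5 ≤ k := by omega
        rcases hG1 with h7 | h7 | h7
        · exfalso
          rw [h7] at hT
          linarith
        · exfalso
          have hk8 : k < 7 := by
            rw [h7] at hst h5
            have : (k : ℝ) < 7 := by linarith
            exact_mod_cast this
          have : k = 5 := by omega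
          subst this
          push_cast at *
          rw [h7] at *
          linarith
        · have hk8 : k < 6 := by
            rw [h7] at hst h5
            have : (k : ℝ) < 6 := by linarith
            exact_mod_cast this
          have : k = 5 := by omega
          subst this
          refine ⟨by rw [h7]; norm_num, ?_⟩
          push_cast at *
          rw [h7] at *
          by_contra hc
          push Not at hc
          linarith
      · -- `j = 2`
        exfalso
        push_cast at hst
        have hk6 : 6 ≤ k := by omega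
        have hk6r : (6 : ℝ) ≤ k := by exact_mod_cast hk6
        have a3 : 0 ≤ ((k : ℝ) - 6) * G := mul_nonneg (by linarith) h4
        have a4 : 0 ≤ (k : ℝ) * K := mul_nonneg (by linarith) h3
        linarith
  · -- `j < 0`
    exfalso
    have hj0r : (j : ℝ) ≤ -1 := by exact_mod_cast (by omega : j ≤ -1)
    obtain ⟨t, rfl⟩ : ∃ t : ℤ, j = -t := ⟨-j, by ring⟩
    obtain ⟨c, rfl⟩ : ∃ c : ℤ, d = c - 2 + t := ⟨d + 2 - t, by ring⟩
    have ht1 : 1 ≤ t := by omega
    have ht2 : t ≤ k - 3 := by omega
    have hc3 : 3 ≤ c := by omega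
    have hck : c ≤ k := by omega
    push_cast at *
    have t1r : (1 : ℝ) ≤ t := by exact_mod_cast ht1
    have t2r : (t : ℝ) ≤ k - 3 := by exact_mod_cast ht2
    have c3r : (3 : ℝ) ≤ c := by exact_mod_cast hc3
    have ckr : (c : ℝ) ≤ k := by exact_mod_cast hck
    have a1 : 0 ≤ ((k : ℝ) + t + 2) * K := mul_nonneg (by linarith) h3
    have a2 : 0 ≤ ((t : ℝ)) * μ := mul_nonneg (by linarith) h6
    have a3 : 0 ≤ ((k : ℝ) - 3) * (t - 1) := mul_nonneg (by linarith) (by linarith)
    have a4 : 0 ≤ ((k : ℝ) + 2 - c) * K := mul_nonneg (by linarith) h3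
    have a5 : ((c : ℝ) - 2) * (μ + 2 * G) ≤ (c - 2) * 4 :=
      mul_le_mul_of_nonneg_left hm.le (by linarith)
    have hc6 : c < 6 := by
      by_contra hc
      push Not at hc
      have hcr : (6 : ℝ) ≤ c := by exact_mod_cast hc
      have a6 : 0 ≤ (k : ℝ) * (c - 6) := mul_nonneg (by linarith) (by linarith)
      linarith
    have hc345 : c = 3 ∨ c = 4 ∨ c = 5 := by omega
    rcases hc345 with rfl | rfl | rfl
    · -- `c = 3`
      have hk5 : 5 ≤ k := by omega
      have hk5r : (5 : ℝ) ≤ k := by exact_mod_cast hk5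
      push_cast at *
      have b1 : ((k : ℝ) - 2) * G < μ := by linarith
      have b2 : ((k : ℝ) - 3) * (1 / 2) ≤ (k - 3) * G := mul_le_mul_of_nonneg_left G12 (by linarith)
      have b3 : (t : ℝ) * ((k - 2) * G) ≤ t * μ := mul_le_mul_of_nonneg_left b1.le (by linarith)
      have b4 : ((k : ℝ) - 2) * G ≤ t * ((k - 2) * G) := by
        have : 0 ≤ ((t : ℝ) - 1) * ((k - 2) * G) :=
          mul_nonneg (by linarith) (mul_nonneg (by linarith) h4)
        linarith
      have b5 : 0 ≤ ((k : ℝ) - 5) * G := mul_nonneg (by linarith) h4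
      linarith
    · -- `c = 4`
      push_cast at *
      have ht : 2 ≤ t := by omega
      have htr : (2 : ℝ) ≤ t := by exact_mod_cast ht
      have hk5 : 5 ≤ k := by omega
      have hk5r : (5 : ℝ) ≤ k := by exact_mod_cast hk5
      have b1 : ((k : ℝ) - 3) * G < 2 * μ := by linarith
      have b2 : 0 ≤ ((t : ℝ) - 2) * μ := mul_nonneg (by linarith) h6
      have b3 : 0 ≤ ((k : ℝ) - 3) * (t - 2) := mul_nonneg (by linarith) (by linarith)
      linarith
    · -- `c = 5`
      push_cast at *
      have hk5r : (5 : ℝ) ≤ k := by exact_mod_cast hck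
      have hG32 : G = 3 / 2 := by
        rcases hG1 with h7 | h7 | h7
        · exfalso
          rw [h7] at hT
          linarith
        · exfalso
          rw [h7] at hT
          linarith
        · exact h7
      have b1 : 0 ≤ ((k : ℝ) - 5) * G := mul_nonneg (by linarith) h4
      have b2 : 0 ≤ ((t : ℝ) - 1) * μ := mul_nonneg (by linarith) h6
      have b3 : 0 ≤ ((k : ℝ) - 3) * K := mul_nonneg (by linarith) h3
      rw [hG32] at *
      linarith

end

end Pool.Agent.Exact
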