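import Pool.Agent.Lib_helper68.Exact.NumPo2
import Pool.Agent.Lib_helper68.Exact.CntO

/-!
# Arithmetic of the case of hubs of both types, first type outgoing, odd: summary
-/

set_option autoImplicit false
set_option linter.unusedSectionVars false

namespace Pool.Agent.Exact

variable {k d j : ℤ} {K μ G y w : ℝ}

section
variable (h : Po k d j K μ G y w)
include h

lemma Po.k4 (hdp : d % 2 = 0) (hjp : (k - j) % 2 = 0) : 4 ≤ k := by
  have hk := h.k3
  by_contra hc
  have e0 : k = 3 := by omega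
  subst e0
  have h1 := h.dj
  have h2 := h.dj1
  have h3 := h.jlow
  have h4 := h.j2
  have e1 : j = 1 := by omega
  have e2 : d = 0 := by omega
  subst e1 e2
  have h5 := h.D' (by norm_num)
  have h6 := h.Y
  have h7 := h.yG
  have h8 := h.K0
  push_cast at h5 h6
  linarith

/-- a crude form of `D` -/
lemma Po.Dy : y + 2 * K ≤ (k - 2) * μ := by
  have h1 := h.D
  have h2 := h.dj
  have h3 := h.K0
  have h4 := h.G0
  have h6 := h.μ0
  have hdjr : (d : ℝ) + j ≤ k - 2 := by exact_mod_cast h2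
  have a1 : 0 ≤ ((k : ℝ) - 2 - d - j) * G := mul_nonneg (by linarith) h4
  have a2 : 2 * K ≤ ((k : ℝ) - d - j) * K := mul_le_mul_of_nonneg_right (by linarith) h3
  have a3 : ((d : ℝ) + j) * μ ≤ (k - 2) * μ := mul_le_mul_of_nonneg_right hdjr h6
  linarith

theorem Po.out (hdp : d % 2 = 0) (hjp : (k - j) % 2 = 0) {card g nb : ℤ} {NB : ℝ}
    (hG : G = card / 2) (c1 : 1 ≤ card) (c2 : card ≤ 2 * g) (c3 : card ≤ g + nb) (nb1 : 1 ≤ nb)
    (hNB : (nb : ℝ) - 1 ≤ NB) (hNB' : nb ≤ k - 2 → (nb : ℝ) ≤ NB) :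
    (6 ≤ μ + 2 + NB + g ∧ G + 6 ≤ μ + 2 + NB + 2 * g ∧ 4 ≤ μ + 2 * g ∧
      8 ≤ 2 * μ + K + k + g) ∨ (y + 4 ≤ μ + 2 + NB + 2 * g ∧ y + 4 ≤ μ + K + k + g) := by
  have hk4 := h.k4 hdp hjp
  have h6 := h.μ0
  have hK := h.K0
  have hDy := h.Dy
  have hyG := h.yG
  have k4r : (4 : ℝ) ≤ k := by exact_mod_cast hk4
  have g1 : 1 ≤ g := by omega
  have g1r : (1 : ℝ) ≤ g := by exact_mod_cast g1
  have c2r : (card : ℝ) ≤ 2 * g := by exact_mod_cast c2
  have c3r : (card : ℝ) ≤ g + nb := by exact_mod_cast c3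
  have NB1 : 1 ≤ NB := by
    rcases le_or_gt nb (k - 2) with h1 | h1
    · have h2 := hNB' h1
      have : (1 : ℝ) ≤ nb := by exact_mod_cast nb1
      linarith
    · have : (2 : ℝ) ≤ nb := by exact_mod_cast (by omega : 2 ≤ nb)
      linarith
  rcases le_or_gt 4 (μ + 2 * G) with hm | hm
  · rcases le_or_gt 8 (2 * μ + K + k + g) with h8 | h8
    · left
      rcases le_or_gt nb (k - 2) with h1 | h1
      · have h2 := hNB' h1
        refine ⟨?_, ?_, ?_, h8⟩ <;> linarith
      · rcases le_or_gt card (g + nb - 1) with h3 | h3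
        · have h3r : (card : ℝ) ≤ g + nb - 1 := by exact_mod_cast h3
          refine ⟨?_, ?_, ?_, h8⟩ <;> linarith
        · have h4 : 6 ≤ card := by omega
          have h4r : (6 : ℝ) ≤ card := by exact_mod_cast h4
          refine ⟨?_, ?_, ?_, h8⟩ <;> linarith
    · right
      have g2 : g = 1 ∨ 2 ≤ g := by omega
      have k6 : k < 6 := by
        have : (k : ℝ) < 6 := by linarith
        exact_mod_cast this
      have k45 : k = 4 ∨ k = 5 := by omega
      rcases g2 with g2 | g2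
      · exfalso
        subst g2
        push_cast at *
        linarith
      · have g2r : (2 : ℝ) ≤ g := by exact_mod_cast g2
        rcases k45 with k5 | k5
        · subst k5
          push_cast at *
          constructor <;> linarith
        · exfalso
          subst k5
          push_cast at *
          linarith
  · right
    have hc4 : (card : ℝ) < 4 := by rw [hG] at hm; linarith
    have hc4' : card < 4 := by exact_mod_cast hc4
    have hc : card = 1 ∨ card = 2 ∨ card = 3 := by omega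
    have hG1 : G = 1 / 2 ∨ G = 1 ∨ G = 3 / 2 := by
      rcases hc with h1 | h1 | h1 <;> rw [hG, h1] <;> norm_num
    obtain ⟨m1, m2⟩ := h.m hdp hjp hG1 hm
    rcases hc with h1 | h1 | h1
    · exfalso
      rw [hG, h1] at m1
      norm_num at m1
    · rw [hG, h1] at m2
      push_cast at m2
      constructor <;> linarith
    · have g2 : 2 ≤ g := by omega
      have g2r : (2 : ℝ) ≤ g := by exact_mod_cast g2
      rw [hG, h1] at m2
      push_cast at m2
      constructor <;> linarith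

/-- the case of high hubs of the second type -/
theorem Po.outc (hdp : d % 2 = 0) (hjp : (k - j) % 2 = 0) {card g nb : ℤ} {NB : ℝ}
    (hG : G = card / 2) (c2 : card ≤ 2 * g) (c3 : card ≤ g + nb)
    (hNB : (nb : ℝ) - 1 ≤ NB) (hw : 2 * ((k : ℝ) - j) ≤ w) :
    6 ≤ μ + 2 + NB + g ∧ G + 6 ≤ μ + 2 + NB + 2 * g ∧ 4 ≤ μ + 2 * g ∧
      8 ≤ 2 * μ + K + k + g := by
  have hk4 := h.k4 hdp hjp
  have h1 := h.C1 hdp
  have h6 := h.μ0
  have hj := h.j2
  have hK := h.K0
  have hDy := h.Dy
  have hyG := h.yG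
  have c2r : (card : ℝ) ≤ 2 * g := by exact_mod_cast c2
  have c3r : (card : ℝ) ≤ g + nb := by exact_mod_cast c3
  have hjr : (j : ℝ) ≤ k - 2 := by exact_mod_cast hj
  have h2 : 2 < G := by
    have h3 : ((k : ℝ) - j) * 2 < (k - j) * G := by linarith
    exact lt_of_mul_lt_mul_left h3 (by linarith)
  have h4 : (4 : ℝ) < card := by rw [hG] at h2; linarith
  have h5 : 5 ≤ card := by
    have : (4 : ℤ) < card := by exact_mod_cast h4
    omega
  have h5r : (5 : ℝ) ≤ card := by exact_mod_cast h5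
  have g3 : 3 ≤ g := by omega
  have g3r : (3 : ℝ) ≤ g := by exact_mod_cast g3
  refine ⟨by linarith, by linarith, by linarith, ?_⟩
  rcases lt_or_ge 4 k with k5 | k5
  · have k5r : (5 : ℝ) ≤ k := by exact_mod_cast (by omega : 5 ≤ k)
    linarith
  · have : k = 4 := by omega
    subst this
    push_cast at *
    linarith

end

/-- the numerical structure from the counting facts -/
theorem CntO.po {k a b : ℤ} {θ n ρ σ Γ q0 SQ SP g : ℝ} (c : CntO k θ n a b ρ σ Γ q0 SQ SP)
    (k3 : 3 ≤ k) (a1 : 1 ≤ a) (b2 : 2 ≤ b) (hρ : 0 ≤ ρ) (hσ : 0 ≤ σ) (hg : ρ ≤ 2 * g)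
    (hΓ : Γ < q0 - θ - g) (hθ : n + 1 ≤ 2 * θ) (hq : q0 ≤ n - 1)
    (hSQ : q0 + (a - 1) * (θ + g) ≤ SQ) (hSP : b * (θ - 2) ≤ SP) (hSP' : SP ≤ b * (n - 1 - k))
    (hK : θ ≤ n + 1 - k) :
    Po k (b - a - 1) (k - b) (n + 1 - k - θ) (2 * θ - n - 1) (ρ / 2) (q0 - θ)
      (SP - b * (θ - 2)) := by
  have hc := c.card
  have e : σ = n - a - b - ρ := by linarith
  subst e
  have h1 := c.C
  have h2 := c.D
  have h4 := c.T
  have h5 := c.SS
  have h6 := c.ii
  have h7 := c.G0
  have a1r : (1 : ℝ) ≤ a := by exact_mod_cast a1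
  have b2r : (2 : ℝ) ≤ b := by exact_mod_cast b2
  have hSQ' : q0 + (a - 1) * (θ + ρ / 2) ≤ SQ := by
    have : ((a : ℝ) - 1) * (ρ / 2) ≤ (a - 1) * g :=
      mul_le_mul_of_nonneg_left (by linarith) (by linarith)
    linarith
  refine ⟨k3, by omega, by omega, by linarith, by linarith, by linarith, by linarith,
    by linarith, by linarith, ?_, ?_, ?_, ?_, ?_, ?_, ?_, ?_⟩
  · push_cast; linarith
  · push_cast; linarith
  · push_cast; linarith
  · push_cast; linarith
  · intro hj
    have h3 := c.D' (by exact_mod_cast (by omega : b ≤ k))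
    push_cast; linarith
  · push_cast; linarith
  · push_cast; linarith
  · push_cast; linarith

end Pool.Agent.Exact
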