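import Pool.Agent.Lib_helper68.Exact.NumPo3

/-!
# Arithmetic of the case of hubs of both types, first type outgoing, odd: a general lower bound
`u` for the levels of the hubs of the first type
-/

set_option autoImplicit false
set_option linter.unusedSectionVars false

namespace Pool.Agent.Exact

/-- the numerical facts with levels at least `u` -/
structure PoU (k d j : ℤ) (K μ G y w u : ℝ) : Prop where
  k3 : 3 ≤ k
  dj : d + j ≤ k - 2
  j2 : j ≤ k - 2
  K0 : 0 ≤ K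
  μ0 : 0 ≤ μ
  G0 : 0 ≤ G
  yG : G < y
  Y : y ≤ K + k - 2
  w0 : 0 ≤ w
  wK : w ≤ (k - j) * K
  σ0 : 0 ≤ μ + 2 * K - 2 * G + d + 2 * j
  C : ((d : ℝ) + 2 + j) * (μ + 2 * K - 2 * G + d + 2 * j) + w < y + (k - j) * (K + j + 1)
  D : ((k : ℝ) - 2 - d - j) * u + (k - d - j) * K + y ≤ (d + j) * μ
  D' : 0 ≤ j → ((k : ℝ) - 2 - d - j) * u - G + (k - d - j) * K + y +
    j * (μ + 2 * K - 2 * G + d + 2 * j) ≤ (d + j) * μ
  T : ((k : ℝ) - j + 2) * K + w + (2 - j) * μ + k * (d - 1) + 3 * j < (2 * k - 1) * G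
  SS : ((k : ℝ) + 2 + j) * K + w + 2 * μ + k * (d - 2) + (2 * j + d + 2) * (j + 1) <
    (2 * k + 2) * G
  ii : w ≤ (k - j) * (K + j + 1)

variable {k d j : ℤ} {K μ G y w u : ℝ}

/-- levels at least `G` -/
lemma PoU.toPo (h : PoU k d j K μ G y w u) (hu : G ≤ u) : Po k d j K μ G y w := by
  have h1 := h.D
  have h2 := h.dj
  have hdjr : (d : ℝ) + j ≤ k - 2 := by exact_mod_cast h2
  have a1 : ((k : ℝ) - 2 - d - j) * G ≤ ((k : ℝ) - 2 - d - j) * u :=
    mul_le_mul_of_nonneg_left hu (by linarith)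
  refine ⟨h.k3, h.dj, h.j2, h.K0, h.μ0, h.G0, h.yG, h.Y, h.w0, h.wK, h.σ0, h.C, by linarith,
    ?_, h.T, h.SS, h.ii⟩
  intro hj
  have h3 := h.D' hj
  linarith

section
variable (h : PoU k d j K μ G y w u)
include h

lemma PoU.jlow (hdj : 1 ≤ d + j) : 3 - k ≤ j := by
  have h1 := h.T
  have h2 := h.σ0
  have h3 := h.K0
  have h6 := h.μ0
  have h7 := h.w0
  have hk := h.k3
  by_contra hc
  push Not at hc
  have k3r : (3 : ℝ) ≤ k := by exact_mod_cast hk
  have hc' : (j : ℝ) ≤ 2 - k := by exact_mod_cast (by omega : j ≤ 2 - k)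
  have hdr : (1 : ℝ) - j ≤ d := by
    have : 1 - j ≤ d := by omega
    exact_mod_cast this
  have a1 : (2 * (k : ℝ) - 1) * (2 * G) ≤ (2 * k - 1) * (μ + 2 * K + d + 2 * j) :=
    mul_le_mul_of_nonneg_left (by linarith) (by linarith)
  have a2 : 0 ≤ (2 * (3 - (k : ℝ) - j)) * K := mul_nonneg (by linarith) h3
  have a3 : 0 ≤ (5 - 2 * (k : ℝ) - 2 * j) * μ := mul_nonneg (by linarith) h6
  nlinarith

lemma PoU.dj0 (hu : 0 ≤ u) : 1 ≤ d + j := by
  have h1 := h.D
  have h2 := h.dj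
  have h3 := h.K0
  have h4 := h.G0
  have h5 := h.yG
  have h6 := h.μ0
  have hdj : ((d : ℝ) + j) ≤ k - 2 := by exact_mod_cast h2
  by_contra hc
  push Not at hc
  have hc' : (d : ℝ) + j ≤ 0 := by exact_mod_cast (by omega : d + j ≤ 0)
  have a1 : 0 ≤ ((k : ℝ) - 2 - d - j) * u := mul_nonneg (by linarith) hu
  have a2 : 0 ≤ ((k : ℝ) - d - j) * K := mul_nonneg (by linarith) h3
  have a3 : ((d : ℝ) + j) * μ ≤ 0 := mul_nonpos_of_nonpos_of_nonneg hc' h6
  linarith

/-- high hubs of the second type, few vertices in `Rs` -/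
theorem PoU.noc (hdp : d % 2 = 0) (hu : 0 ≤ u) (hw : 2 * ((k : ℝ) - j) ≤ w)
    (hG : G ≤ 3 / 2) : False := by
  have hk := h.k3
  have hj := h.j2
  have hdj := h.dj
  have hdj1 := h.dj0 hu
  have hjl := h.jlow hdj1
  have h3 := h.K0
  have h4 := h.G0
  have h5 := h.yG
  have h6 := h.μ0
  have hSS := h.SS
  have hwK := h.wK
  have k3r : (3 : ℝ) ≤ k := by exact_mod_cast hk
  have hjr : (j : ℝ) ≤ k - 2 := by exact_mod_cast hj
  have hjlr : 3 - (k : ℝ) ≤ j := by exact_mod_cast hjl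
  have hdjr : (d : ℝ) + j ≤ k - 2 := by exact_mod_cast hdj
  have hdj1r : (1 : ℝ) ≤ (d : ℝ) + j := by exact_mod_cast hdj1
  have K2 : 2 ≤ K := by
    have h7 : ((k : ℝ) - j) * 2 ≤ (k - j) * K := by linarith
    exact le_of_mul_le_mul_left h7 (by linarith)
  have a1 : ((k : ℝ) + 2 + j) * 2 ≤ (k + 2 + j) * K :=
    mul_le_mul_of_nonneg_left K2 (by linarith)
  have a2 : (2 * (k : ℝ) + 2) * G ≤ (2 * k + 2) * (3 / 2) :=
    mul_le_mul_of_nonneg_left hG (by linarith)
  have key : (k : ℝ) * (d - 1) + 1 + (2 * j + d + 2) * (j + 1) < 0 := by linarith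
  rcases lt_or_ge d 1 with h8 | h8
  · have h8r : (d : ℝ) ≤ 0 := by exact_mod_cast (by omega : d ≤ 0)
    have hD' := h.D' (by omega)
    have hj1r : (1 : ℝ) ≤ j := by exact_mod_cast (by omega : 1 ≤ j)
    have b1 : (d : ℝ) * μ ≤ 0 := mul_nonpos_of_nonpos_of_nonneg h8r h6
    have b2 : 0 ≤ ((k : ℝ) - d - j) * K := mul_nonneg (by linarith) h3
    have b3 : 0 ≤ (j : ℝ) * (2 * K - 2 * G + d + 2 * j) :=
      mul_nonneg (by linarith) (by linarith)
    have b4 : 0 ≤ ((k : ℝ) - 2 - d - j) * u := mul_nonneg (by linarith) hu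
    linarith
  · have h8r : (2 : ℝ) ≤ d := by exact_mod_cast (by omega : 2 ≤ d)
    rcases le_or_gt (-1) j with h9 | h9
    · have h9r : (-1 : ℝ) ≤ j := by exact_mod_cast h9
      have b1 : 0 ≤ (2 * (j : ℝ) + d + 2) * (j + 1) := mul_nonneg (by linarith) (by linarith)
      have b2 : 0 ≤ (k : ℝ) * (d - 1) := mul_nonneg (by linarith) (by linarith)
      linarith
    · have h9r : (j : ℝ) ≤ -2 := by exact_mod_cast (by omega : j ≤ -2)
      rcases le_or_gt (2 * (j : ℝ) + d + 2) 0 with h10 | h10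
      · have b1 : 0 ≤ (2 * (j : ℝ) + d + 2) * (j + 1) :=
          mul_nonneg_of_nonpos_of_nonpos h10 (by linarith)
        have b2 : 0 ≤ (k : ℝ) * (d - 1) := mul_nonneg (by linarith) (by linarith)
        linarith
      · have b1 : 0 ≤ (k - ((d : ℝ) + 2 + 2 * j)) * (-(j : ℝ) - 1) :=
          mul_nonneg (by linarith) (by linarith)
        have b2 : 0 ≤ (k : ℝ) * (d + j - 1) := mul_nonneg (by linarith) (by linarith)
        nlinarith

/-- large `K`, few vertices in `Rs` -/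
theorem PoU.noc3 (hdp : d % 2 = 0) (hu : -4 ≤ u) (hμ : 1 ≤ μ) (hK : μ + 3 ≤ K)
    (hG : G ≤ 1) : False := by
  have hk := h.k3
  have hj := h.j2
  have hdj := h.dj
  have h3 := h.K0
  have h4 := h.G0
  have h5 := h.yG
  have h6 := h.μ0
  have hSS := h.SS
  have hD := h.D
  have hw := h.w0
  have k3r : (3 : ℝ) ≤ k := by exact_mod_cast hk
  have hjr : (j : ℝ) ≤ k - 2 := by exact_mod_cast hj
  have hdjr : (d : ℝ) + j ≤ k - 2 := by exact_mod_cast hdj
  have c1 : ((k : ℝ) - 2 - d - j) * (-4) ≤ ((k : ℝ) - 2 - d - j) * u :=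
    mul_le_mul_of_nonneg_left hu (by linarith)
  have c2 : ((k : ℝ) - d - j) * (μ + 3) ≤ (k - d - j) * K :=
    mul_le_mul_of_nonneg_left hK (by linarith)
  have hdj1 : 1 ≤ d + j := by
    by_contra hc
    push Not at hc
    have hc' : (d : ℝ) + j ≤ 0 := by exact_mod_cast (by omega : d + j ≤ 0)
    have a1 : ((k : ℝ) - 2 * (d + j)) * 1 ≤ (k - 2 * (d + j)) * μ :=
      mul_le_mul_of_nonneg_left hμ (by linarith)
    linarith
  have hjl := h.jlow hdj1
  have hjlr : 3 - (k : ℝ) ≤ j := by exact_mod_cast hjl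
  have hdj1r : (1 : ℝ) ≤ (d : ℝ) + j := by exact_mod_cast hdj1
  have a1 : ((k : ℝ) + 2 + j) * 4 ≤ (k + 2 + j) * K :=
    mul_le_mul_of_nonneg_left (by linarith) (by linarith)
  have a2 : (2 * (k : ℝ) + 2) * G ≤ (2 * k + 2) * 1 :=
    mul_le_mul_of_nonneg_left hG (by linarith)
  have key : (k : ℝ) * d + 8 + 4 * j + (2 * j + d + 2) * (j + 1) < 0 := by linarith
  rcases lt_or_ge d 0 with h8 | h8
  · have h8r : (d : ℝ) ≤ -1 := by exact_mod_cast (by omega : d ≤ -1)
    have hD' := h.D' (by omega)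
    have hj1r : (1 : ℝ) ≤ j := by exact_mod_cast (by omega : 1 ≤ j)
    have b1 : (d : ℝ) * μ ≤ 0 := mul_nonpos_of_nonpos_of_nonneg (by linarith) h6
    have b3 : 0 ≤ (j : ℝ) * (2 * K - 2 * G + d + 2 * j) :=
      mul_nonneg (by linarith) (by linarith)
    have b4 : ((k : ℝ) - d - j) * 1 ≤ (k - d - j) * μ :=
      mul_le_mul_of_nonneg_left hμ (by linarith)
    linarith
  · have h8r : (0 : ℝ) ≤ d := by exact_mod_cast h8
    rcases le_or_gt 0 j with h9 | h9
    · have h9r : (0 : ℝ) ≤ j := by exact_mod_cast h9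
      have b1 : 0 ≤ (2 * (j : ℝ) + d + 2) * (j + 1) := mul_nonneg (by linarith) (by linarith)
      have b2 : 0 ≤ (k : ℝ) * d := mul_nonneg (by linarith) (by linarith)
      linarith
    · have h9r : (j : ℝ) ≤ -1 := by exact_mod_cast (by omega : j ≤ -1)
      rcases le_or_gt (2 * (j : ℝ) + d + 2) 0 with h10 | h10
      · have b1 : 0 ≤ (2 * (j : ℝ) + d + 2) * (j + 1) :=
          mul_nonneg_of_nonpos_of_nonpos h10 (by linarith)
        have b2 : 0 ≤ ((k : ℝ) - 3) * (d + j - 1) := mul_nonneg (by linarith) (by linarith)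
        nlinarith
      · have b1 : 0 ≤ (k - 2 - ((d : ℝ) + j)) * (-(j : ℝ) - 1) :=
          mul_nonneg (by linarith) (by linarith)
        have b2 : 0 ≤ (k : ℝ) * (d + j - 1) := mul_nonneg (by linarith) (by linarith)
        nlinarith [sq_nonneg ((j : ℝ) + 5 / 2)]

end

/-- the numerical structure from the counting facts -/
theorem CntO.poU {k a b : ℤ} {θ n ρ σ Γ q0 SQ SP g u : ℝ} (c : CntO k θ n a b ρ σ Γ q0 SQ SP)
    (k3 : 3 ≤ k) (a1 : 1 ≤ a) (b2 : 2 ≤ b) (hρ : 0 ≤ ρ) (hσ : 0 ≤ σ) (hg : ρ ≤ 2 * g)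
    (hΓ : Γ < q0 - θ - g) (hθ : n + 1 ≤ 2 * θ) (hq : q0 ≤ n - 1)
    (hSQ : q0 + (a - 1) * (θ + u) ≤ SQ) (hSP : b * (θ - 2) ≤ SP) (hSP' : SP ≤ b * (n - 1 - k))
    (hK : θ ≤ n + 1 - k) :
    PoU k (b - a - 1) (k - b) (n + 1 - k - θ) (2 * θ - n - 1) (ρ / 2) (q0 - θ)
      (SP - b * (θ - 2)) u := by
  have hc := c.card
  have e : σ = n - a - b - ρ := by linarith
  subst e
  have h1 := c.C
  have h2 := c.D
  have h4 := c.T
  have h5 := c.SS
  have h6 := c.ii
  have h7 := c.G0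
  have a1r : (1 : ℝ) ≤ a := by exact_mod_cast a1
  have b2r : (2 : ℝ) ≤ b := by exact_mod_cast b2
  refine ⟨k3, by omega, by omega, by linarith, by linarith, by linarith, by linarith,
    by linarith, by linarith, ?_, ?_, ?_, ?_, ?_, ?_, ?_, ?_⟩
  · push_cast; linarith
  · push_cast; linarith
  · push_cast; linarith
  · push_cast; linarith
  · intro hj
    have h3 := c.D' (by exact_mod_cast (by omega : b ≤ k))
    push_cast; linarith
  · push_cast; linarith
  · push_cast; linarith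
  · push_cast; linarith

/-- high hubs of the second type and one block: the requirements of the arrangements -/
theorem Po.outc1 (h : Po k d j K μ G y w) (hdp : d % 2 = 0) (hjp : (k - j) % 2 = 0)
    {card g : ℤ} {NB : ℝ} (hG : G = card / 2) (c2 : card ≤ 2 * g) (c3 : card ≤ g + 1)
    (hw : 2 * ((k : ℝ) - j) ≤ w)
    (hNB : 0 ≤ NB ∨ (NB = -1 ∧ y = K + k - 3) ∨ (NB = -2 ∧ y = K + k - 2)) :
    6 ≤ μ + 2 + NB + g ∧ G + 6 ≤ μ + 2 + NB + 2 * g ∧ 4 ≤ μ + 2 * g ∧
      8 ≤ 2 * μ + K + k + g := by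
  rcases hNB with hNB | hNB
  · exact h.outc hdp hjp hG c2 (nb := 1) c3 (by push_cast; linarith) hw
  have hk4 := h.k4 hdp hjp
  have h1 := h.C1 hdp
  have h6 := h.μ0
  have hj := h.j2
  have hK := h.K0
  have hDy := h.Dy
  have hyG := h.yG
  have hwK := h.wK
  have k4r : (4 : ℝ) ≤ k := by exact_mod_cast hk4
  have c2r : (card : ℝ) ≤ 2 * g := by exact_mod_cast c2
  have c3r : (card : ℝ) ≤ g + 1 := by exact_mod_cast c3
  have hjr : (j : ℝ) ≤ k - 2 := by exact_mod_cast hj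
  have K2 : 2 ≤ K := by
    have h7 : ((k : ℝ) - j) * 2 ≤ (k - j) * K := by linarith
    exact le_of_mul_le_mul_left h7 (by linarith)
  have h2 : 2 < G := by
    have h3 : ((k : ℝ) - j) * 2 < (k - j) * G := by linarith
    exact lt_of_mul_lt_mul_left h3 (by linarith)
  have h4 : (4 : ℝ) < card := by rw [hG] at h2; linarith
  have h5 : 5 ≤ card := by
    have : (4 : ℤ) < card := by exact_mod_cast h4
    omega
  have h5r : (5 : ℝ) ≤ card := by exact_mod_cast h5
  have g4 : 4 ≤ g := by omega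
  have g4r : (4 : ℝ) ≤ g := by exact_mod_cast g4
  have μ1 : 1 < μ := by
    by_contra hc
    push Not at hc
    have a1 : ((k : ℝ) - 2) * μ ≤ (k - 2) * 1 := mul_le_mul_of_nonneg_left hc (by linarith)
    rcases hNB with ⟨_, h7⟩ | ⟨_, h7⟩ <;> linarith
  rcases hNB with ⟨h7, h8⟩ | ⟨h7, h8⟩
  · subst h7
    refine ⟨?_, ?_, ?_, ?_⟩ <;> linarith
  · subst h7
    rcases lt_or_ge 4 g with g5 | g5
    · have g5r : (5 : ℝ) ≤ g := by exact_mod_cast (by omega : 5 ≤ g)
      refine ⟨?_, ?_, ?_, ?_⟩ <;> linarith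
    · have g4' : g = 4 := by omega
      have hcard : card = 5 := by omega
      have μ2 : 2 ≤ μ := by
        by_contra hc
        push Not at hc
        have hSS := h.SS
        have hD := h.D
        have hjl := h.jlow
        have hdj := h.dj
        have hdj1 := h.dj1
        have hjlr : 3 - (k : ℝ) ≤ j := by exact_mod_cast hjl
        have hdjr : (d : ℝ) + j ≤ k - 2 := by exact_mod_cast hdj
        have hdj1r : (1 : ℝ) ≤ (d : ℝ) + j := by exact_mod_cast hdj1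
        have hG5 : G = 5 / 2 := by rw [hG, hcard]; norm_num
        rw [hG5] at hSS hD
        rw [h8] at hD
        clear hG hG5 h1 hyG h2 h4 h5r g4r c2r c3r
        have a1 : ((k : ℝ) + 2 + j) * 2 ≤ (k + 2 + j) * K :=
          mul_le_mul_of_nonneg_left K2 (by linarith)
        have a2 : ((k : ℝ) + 1 - d - j) * 2 ≤ (k + 1 - d - j) * K :=
          mul_le_mul_of_nonneg_left K2 (by linarith)
        have a3 : ((d : ℝ) + j) * μ ≤ (d + j) * 2 :=
          mul_le_mul_of_nonneg_left hc.le (by linarith)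
        have b1 : 11 * (k : ℝ) + 16 ≤ 13 * (d + 2 + j) := by linarith
        have b2 : 0 ≤ (13 * ((d : ℝ) + 2 + j) - (11 * (k : ℝ) + 16)) * (k + 1 + j) :=
          mul_nonneg (by linarith) (by linarith)
        have b3 : ((d : ℝ) + 2 + j) * ((k : ℝ) + 1 + j) - 5 * k - k * j - 1 + j * j + j < 0 := by
          linarith
        have hk9 : (8 : ℝ) ≤ k := by linarith
        have b4 : 11 * (k : ℝ) * k - 38 * k - 2 * k * j + 13 * j * j + 29 * j + 3 < 0 := by
          linarith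
        nlinarith [sq_nonneg ((k : ℝ) - j), sq_nonneg ((j : ℝ) + 2),
          mul_nonneg (sub_nonneg.2 hk9) (sub_nonneg.2 hk9)]
      have : (g : ℝ) = 4 := by rw [g4']; norm_num
      have hc5 : (card : ℝ) = 5 := by rw [hcard]; norm_num
      refine ⟨?_, ?_, ?_, ?_⟩ <;> linarith

end Pool.Agent.Exact
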