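import Pool.Agent.Lib_helper68.Exact.Rest

/-!
# Paths: vertex by vertex, with value at most charge minus `e`
-/

set_option autoImplicit false
set_option linter.unusedSectionVars false

namespace Pool.Agent.Exact

open Finset

variable {V : Type*} [DecidableEq V] {B : V → V → ℤ} {a : V → ℤ} {e : ℤ}

/-- `S` can be built vertex by vertex such that the value is at most the charge minus `e` after
each step -/
inductive GoodE (B : V → V → ℤ) (a x : V → ℤ) (e : ℤ) : Finset V → Prop
  | empty : GoodE B a x e ∅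
  | step (S : Finset V) (v : V) : GoodE B a x e S → v ∉ S →
      DD B a x (insert v S) ≤ ch a (insert v S) - e → GoodE B a x e (insert v S)

/-- stars and triples; a triple is not the first block unless `e ≤ 0` -/
inductive BlocksE (B : V → V → ℤ) (e : ℤ) : Finset V → ℤ → Prop
  | empty : BlocksE B e ∅ 0
  | star (S : Finset V) (g : ℤ) (c : V) (L : Finset V) : BlocksE B e S g → c ∉ S → c ∉ L →
      Disjoint L S → L.Nonempty → (∀ l ∈ L, 1 ≤ MM B c l) → (∀ l ∈ L, ∀ l' ∈ L, MM B l l' = 0) →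
      BlocksE B e (S ∪ insert c L) (g + ∑ l ∈ L, MM B c l)
  | hole (S : Finset V) (g : ℤ) (u v w : V) : BlocksE B e S g → u ∉ S → v ∉ S → w ∉ S → u ≠ v →
      u ≠ w → v ≠ w → 1 ≤ MM B u v → (e ≤ 0 ∨ S.Nonempty) →
      BlocksE B e (insert w (S ∪ {u, v})) (g + MM B u v)

/-- identities of finite sets -/
private lemma set_id1 (c : V) (S L T : Finset V) :
    insert c (S ∪ L) ∪ T = S ∪ insert c (L ∪ T) := by
  rw [Finset.insert_union, Finset.union_insert, Finset.union_assoc]

private lemma set_id2 (w : V) (S : Finset V) : insert w S = S ∪ {w} := by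
  rw [Finset.insert_eq, Finset.union_comm]

lemma Blocks.toE {S : Finset V} {g : ℤ} (h : Blocks B S g) : BlocksE B 0 S g := by
  induction h with
  | empty => exact BlocksE.empty
  | star S g c L _ h1 h2 h3 h4 h5 h6 ih => exact BlocksE.star S g c L ih h1 h2 h3 h4 h5 h6
  | hole S g u v w _ h1 h2 h3 h4 h5 h6 h7 ih =>
    exact BlocksE.hole S g u v w ih h1 h2 h3 h4 h5 h6 h7 (Or.inl le_rfl)

lemma GoodE.congr {S : Finset V} {x y : V → ℤ} (hS : GoodE B a x e S) (h : ∀ v ∈ S, x v = y v) :
    GoodE B a y e S := by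
  induction hS with
  | empty => exact GoodE.empty
  | step S v hS hv hD ih =>
    refine GoodE.step S v (ih fun u hu => h u (Finset.mem_insert_of_mem hu)) hv ?_
    rw [← DD_congr h]
    exact hD

lemma GoodE.le {S : Finset V} {x : V → ℤ} (hS : GoodE B a x e S) (hne : S.Nonempty) :
    DD B a x S ≤ ch a S - e := by
  cases hS with
  | empty => exact absurd hne Finset.not_nonempty_empty
  | step S v hS hv hD => exact hD

/-- adding several vertices -/
lemma GoodE.add {S T : Finset V} {x : V → ℤ} (hS : GoodE B a x e S) (hd : Disjoint S T)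
    (h : ∀ T' ⊆ T, T'.Nonempty → DD B a x (S ∪ T') ≤ ch a (S ∪ T') - e) :
    GoodE B a x e (S ∪ T) := by
  induction T using Finset.induction_on with
  | empty => simpa using hS
  | insert v T hv ih =>
    rw [Finset.disjoint_insert_right] at hd
    have h1 := ih hd.2 fun T' hT' => h T' (hT'.trans (Finset.subset_insert _ _))
    have e1 : S ∪ insert v T = insert v (S ∪ T) := by
      rw [Finset.union_insert]
    rw [e1]
    refine GoodE.step _ v h1 ?_ ?_
    · simp only [Finset.mem_union, not_or]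
      exact ⟨hd.1, hv⟩
    · rw [← e1]
      exact h _ (Finset.Subset.refl _) (Finset.insert_nonempty _ _)

/-- a star can be added to a nonempty good set -/
lemma GoodE.star' {S : Finset V} {x : V → ℤ} (hS : GoodE B a x e S) (hne : S.Nonempty) (h0 : ∀ u v, 0 ≤ B u v)
    (hB : ∀ v, B v v = 0) (ha : ∀ v, 0 ≤ a v ∧ a v ≤ 2) (c : V) (L : Finset V) (hcS : c ∉ S)
    (hcL : c ∉ L) (hLS : Disjoint L S) (hL : L.Nonempty) (h1 : ∀ l ∈ L, 1 ≤ MM B c l)
    (h2 : ∀ l ∈ L, ∀ l' ∈ L, MM B l l' = 0) (σ : ℤ) (hσ : σ = 1 ∨ σ = -1) (hxc : x c = σ)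
    (hxL : ∀ l ∈ L, x l = -σ) (hint : Int B S (insert c L) x ≤ 0) :
    GoodE B a x e (S ∪ insert c L) ∧
      DD B a x (S ∪ insert c L) ≤ ch a S - e + σ * (a c - ∑ l ∈ L, a l) - L.card := by
  classical
  have hint' : Int B S {c} x + ∑ l ∈ L, Int B S {l} x ≤ 0 := by
    rw [Int_sum_right, Finset.sum_insert hcL] at hint
    exact hint
  have hSle := hS.le hne
  have hLcard : (1 : ℤ) ≤ L.card := by exact_mod_cast hL.card_pos
  -- value after adding `c` and `T'`
  have hval : ∀ T' ⊆ L, DD B a x (S ∪ insert c T') =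
      DD B a x S + (σ * a c + Int B S {c} x) +
        ∑ l ∈ T', (- (σ * a l) + Int B S {l} x - MM B c l) := by
    intro T' hT'
    have hcT' : c ∉ T' := fun h => hcL (hT' h)
    have hd : Disjoint S (insert c T') := by
      rw [Finset.disjoint_insert_right]
      exact ⟨hcS, (Finset.disjoint_of_subset_left hT' hLS).symm⟩
    rw [DD_union hd, Qd_star c T' hcT' h0 hB (fun l hl l' hl' => h2 l (hT' hl) l' (hT' hl')),
      Finset.sum_insert hcT', hxc, Finset.sum_sub_distrib]
    have e1 : ∑ l ∈ T', MM B c l * (σ * x l) = - ∑ l ∈ T', MM B c l := by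
      rw [← Finset.sum_neg_distrib]
      refine Finset.sum_congr rfl fun l hl => ?_
      rw [hxL l (hT' hl)]
      rcases hσ with h | h <;> rw [h] <;> ring
    have e2 : ∑ l ∈ T', (a l * x l + Int B S {l} x) =
        ∑ l ∈ T', (- (σ * a l) + Int B S {l} x) := by
      refine Finset.sum_congr rfl fun l hl => ?_
      rw [hxL l (hT' hl)]
      ring
    rw [e1, e2]
    ring
  have hval0 : ∀ T' ⊆ L, DD B a x (S ∪ T') = DD B a x S +
      ∑ l ∈ T', (- (σ * a l) + Int B S {l} x) := by
    intro T' hT'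
    have hd : Disjoint S T' := (Finset.disjoint_of_subset_left hT' hLS).symm
    rw [DD_union hd, Qd_indep h0 (fun l hl l' hl' => h2 l (hT' hl) l' (hT' hl')), add_zero]
    congr 1
    refine Finset.sum_congr rfl fun l hl => ?_
    rw [hxL l (hT' hl)]
    ring
  have hch : ∀ T' ⊆ L, ch a (S ∪ insert c T') =
      ch a S + ((if a c = 1 then 0 else 1) + ∑ l ∈ T', if a l = 1 then 0 else 1) := by
    intro T' hT'
    have hcT' : c ∉ T' := fun h => hcL (hT' h)
    have hd : Disjoint S (insert c T') := by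
      rw [Finset.disjoint_insert_right]
      exact ⟨hcS, (Finset.disjoint_of_subset_left hT' hLS).symm⟩
    rw [ch_union hd]
    congr 1
    unfold ch
    rw [Finset.sum_insert hcT']
  have hch0 : ∀ T' ⊆ L, ch a (S ∪ T') = ch a S + ∑ l ∈ T', if a l = 1 then 0 else 1 := by
    intro T' hT'
    rw [ch_union (Finset.disjoint_of_subset_left hT' hLS).symm]
    rfl
  have hcharge0 : ∀ v, (0 : ℤ) ≤ if a v = 1 then 0 else 1 := by
    intro v; split_ifs <;> norm_num
  have hcharge1 : ∀ v, a v - 1 ≤ if a v = 1 then 0 else 1 := by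
    intro v
    have := (ha v).2
    split_ifs with h
    · omega
    · omega
  -- threshold
  obtain ⟨L1, L2, hdis, hun, hL1, hL2⟩ : ∃ L1 L2 : Finset V, Disjoint L1 L2 ∧ L1 ∪ L2 = L ∧
      (∀ l ∈ L1, 2 * Int B S {l} x + (1 - σ) ≤ 0) ∧
      (∀ l ∈ L2, 0 < 2 * Int B S {l} x + (1 - σ)) := by
    refine ⟨L.filter (fun l => 2 * Int B S {l} x + (1 - σ) ≤ 0),
      L.filter (fun l => ¬ 2 * Int B S {l} x + (1 - σ) ≤ 0),
      Finset.disjoint_filter_filter_not _ _ _, Finset.filter_union_filter_not_eq _ _, ?_, ?_⟩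
    · intro l hl; exact (Finset.mem_filter.1 hl).2
    · intro l hl; exact not_le.1 (Finset.mem_filter.1 hl).2
  have hL1L : L1 ⊆ L := by rw [← hun]; exact Finset.subset_union_left
  have hL2L : L2 ⊆ L := by rw [← hun]; exact Finset.subset_union_right
  have hsplit : ∀ f : V → ℤ, ∑ l ∈ L, f l = ∑ l ∈ L1, f l + ∑ l ∈ L2, f l := by
    intro f; rw [← hun]; exact Finset.sum_union hdis
  -- first stage
  have g1 : GoodE B a x e (S ∪ L1) := by
    refine hS.add (Finset.disjoint_of_subset_left hL1L hLS).symm ?_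
    intro T' hT' _
    rw [hval0 T' (hT'.trans hL1L), hch0 T' (hT'.trans hL1L)]
    have : ∑ l ∈ T', (- (σ * a l) + Int B S {l} x) ≤ ∑ l ∈ T', if a l = 1 then 0 else 1 := by
      refine Finset.sum_le_sum fun l hl => ?_
      have h3 := hL1 l (hT' hl)
      have h4 := hcharge1 l
      have h5 := hcharge0 l
      have h6 := (ha l).1
      rcases hσ with h | h
      · rw [h] at h3 ⊢; linarith
      · rw [h] at h3 ⊢
        have : Int B S {l} x ≤ -1 := by omega
        linarith
    linarith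
  -- key inequality for `L1 ∪ T'`
  have key : ∀ T' ⊆ L2, (σ * a c + Int B S {c} x) +
      ∑ l ∈ L1 ∪ T', (- (σ * a l) + Int B S {l} x - MM B c l) ≤
      (if a c = 1 then 0 else 1) + ∑ l ∈ L1 ∪ T', if a l = 1 then 0 else 1 := by
    intro T' hT'
    have hdT : Disjoint L1 T' := Finset.disjoint_of_subset_right hT' hdis
    have hTL : L1 ∪ T' ⊆ L := Finset.union_subset hL1L (hT'.trans hL2L)
    have hrest : ∑ l ∈ L, Int B S {l} x =
        ∑ l ∈ L1 ∪ T', Int B S {l} x + ∑ l ∈ L \ (L1 ∪ T'), Int B S {l} x := by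
      rw [add_comm, Finset.sum_sdiff hTL]
    have hmem2 : ∀ l ∈ L \ (L1 ∪ T'), l ∈ L2 := by
      intro l hl
      rw [Finset.mem_sdiff, Finset.mem_union, not_or] at hl
      have h3 : l ∈ L1 ∪ L2 := by rw [hun]; exact hl.1
      rcases Finset.mem_union.1 h3 with h4 | h4
      · exact absurd h4 hl.2.1
      · exact h4
    have hM : ∑ l ∈ L1 ∪ T', (1 : ℤ) ≤ ∑ l ∈ L1 ∪ T', MM B c l :=
      Finset.sum_le_sum fun l hl => h1 l (hTL hl)
    rw [Finset.sum_sub_distrib, Finset.sum_add_distrib, Finset.sum_neg_distrib,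
      ← Finset.mul_sum]
    have hcs : ((L1 ∪ T').card : ℤ) + (L \ (L1 ∪ T')).card = L.card := by
      have := Finset.card_sdiff_add_card_eq_card hTL
      push_cast [← this]
      ring
    have hone : ∑ l ∈ L1 ∪ T', (1 : ℤ) = (L1 ∪ T').card := by simp
    rcases hσ with h | h
    · subst h
      have h5 : ((L \ (L1 ∪ T')).card : ℤ) ≤ ∑ l ∈ L \ (L1 ∪ T'), Int B S {l} x := by
        have : ∑ l ∈ L \ (L1 ∪ T'), (1 : ℤ) ≤ ∑ l ∈ L \ (L1 ∪ T'), Int B S {l} x := by
          refine Finset.sum_le_sum fun l hl => ?_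
          have := hL2 l (hmem2 l hl)
          omega
        simpa using this
      have h6 : 0 ≤ ∑ l ∈ L1 ∪ T', a l := Finset.sum_nonneg fun l _ => (ha l).1
      have h7 : 0 ≤ ∑ l ∈ L1 ∪ T', (if a l = 1 then (0 : ℤ) else 1) :=
        Finset.sum_nonneg fun l _ => hcharge0 l
      have h8 := hcharge1 c
      linarith
    · subst h
      have h5 : 0 ≤ ∑ l ∈ L \ (L1 ∪ T'), Int B S {l} x := by
        refine Finset.sum_nonneg fun l hl => ?_
        have := hL2 l (hmem2 l hl)
        omega
      have h6 : ∑ l ∈ L1 ∪ T', (a l - 1) ≤ ∑ l ∈ L1 ∪ T', (if a l = 1 then (0 : ℤ) else 1) :=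
        Finset.sum_le_sum fun l _ => hcharge1 l
      rw [Finset.sum_sub_distrib] at h6
      have h8 := hcharge0 c
      have h9 := (ha c).1
      linarith
  -- second stage
  have g2 : GoodE B a x e (insert c (S ∪ L1)) := by
    have e' : insert c (S ∪ L1) = S ∪ insert c L1 := by rw [Finset.union_insert]
    refine GoodE.step _ c g1 ?_ ?_
    · simp only [Finset.mem_union, not_or]
      exact ⟨hcS, fun h => hcL (hL1L h)⟩
    · rw [e', hval L1 hL1L, hch L1 hL1L]
      have := key ∅ (Finset.empty_subset _)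
      rw [Finset.union_empty] at this
      linarith
  have g3 : GoodE B a x e (insert c (S ∪ L1) ∪ L2) := by
    refine g2.add ?_ ?_
    · rw [Finset.disjoint_insert_left, Finset.disjoint_union_left]
      exact ⟨fun h => hcL (hL2L h), (Finset.disjoint_of_subset_left hL2L hLS).symm, hdis⟩
    · intro T' hT' _
      have e' : insert c (S ∪ L1) ∪ T' = S ∪ insert c (L1 ∪ T') := set_id1 _ _ _ _
      have hTL : L1 ∪ T' ⊆ L := Finset.union_subset hL1L (hT'.trans hL2L)
      rw [e', hval _ hTL, hch _ hTL]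
      have := key T' hT'
      linarith
  have e3 : insert c (S ∪ L1) ∪ L2 = S ∪ insert c L := by
    rw [← hun]
    exact set_id1 _ _ _ _
  rw [e3] at g3
  refine ⟨g3, ?_⟩
  rw [hval L (Finset.Subset.refl _), Finset.sum_sub_distrib, Finset.sum_add_distrib,
    Finset.sum_neg_distrib, ← Finset.mul_sum]
  have hM : ∑ l ∈ L, (1 : ℤ) ≤ ∑ l ∈ L, MM B c l :=
    Finset.sum_le_sum fun l hl => h1 l hl
  rw [Finset.sum_const, nsmul_eq_mul, mul_one] at hM
  linarith


/-- the first star -/
lemma GoodE.first {x : V → ℤ} (he : e ≤ 1) (h0 : ∀ u v, 0 ≤ B u v)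
    (hB : ∀ v, B v v = 0) (ha : ∀ v, 0 ≤ a v ∧ a v ≤ 2) (c : V) (L : Finset V)
    (hcL : c ∉ L) (hL : L.Nonempty) (h1 : ∀ l ∈ L, 1 ≤ MM B c l)
    (h2 : ∀ l ∈ L, ∀ l' ∈ L, MM B l l' = 0) (σ : ℤ) (hσ : σ = 1 ∨ σ = -1) (hxc : x c = σ)
    (hxL : ∀ l ∈ L, x l = -σ) : GoodE B a x e (insert c L) := by
  have hc1 : ∀ v, 1 ≤ a v + (if a v = 1 then 0 else 1) := by
    intro v
    have := ha v
    split_ifs with h
    · omega
    · rcases lt_or_ge (a v) 0 with h3 | h3 <;> omega
  have hc2 : ∀ v, a v - (if a v = 1 then 0 else 1) ≤ 1 := by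
    intro v
    have := ha v
    split_ifs with h <;> omega
  have hval0 : ∀ T' ⊆ L, DD B a x T' = ∑ l ∈ T', (- (σ * a l)) := by
    intro T' hT'
    unfold DD
    rw [Qd_indep h0 (fun l hl l' hl' => h2 l (hT' hl) l' (hT' hl')), add_zero]
    exact Finset.sum_congr rfl fun l hl => by rw [hxL l (hT' hl)]; ring
  have hval : ∀ T' ⊆ L, DD B a x (insert c T') = σ * a c - ∑ l ∈ T', (σ * a l + MM B c l) := by
    intro T' hT'
    have hcT' : c ∉ T' := fun h => hcL (hT' h)
    unfold DD
    rw [Qd_star c T' hcT' h0 hB (fun l hl l' hl' => h2 l (hT' hl) l' (hT' hl')),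
      Finset.sum_insert hcT', hxc, Finset.sum_add_distrib]
    have e1 : ∑ l ∈ T', MM B c l * (σ * x l) = - ∑ l ∈ T', MM B c l := by
      rw [← Finset.sum_neg_distrib]
      refine Finset.sum_congr rfl fun l hl => ?_
      rw [hxL l (hT' hl)]
      rcases hσ with h | h <;> rw [h] <;> ring
    have e2 : ∑ l ∈ T', a l * x l = - ∑ l ∈ T', σ * a l := by
      rw [← Finset.sum_neg_distrib]
      refine Finset.sum_congr rfl fun l hl => ?_
      rw [hxL l (hT' hl)]
      ring
    rw [e1, e2]
    ring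
  have hcs : ∀ T' : Finset V, c ∉ T' → ch a (insert c T') =
      (if a c = 1 then 0 else 1) + ∑ l ∈ T', if a l = 1 then 0 else 1 := by
    intro T' hT'
    unfold ch
    rw [Finset.sum_insert hT']
  rcases hσ with h | h
  · subst h
    have g1 : GoodE B a x e (∅ ∪ L) := by
      refine GoodE.empty.add (by simp) ?_
      intro T' hT' hne'
      rw [Finset.empty_union, hval0 T' hT']
      unfold ch
      have h3 : ∑ l ∈ T', (1 : ℤ) ≤ ∑ l ∈ T', (a l + if a l = 1 then 0 else 1) :=
        Finset.sum_le_sum fun l _ => hc1 l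
      rw [Finset.sum_add_distrib] at h3
      have h4 : (1 : ℤ) ≤ ∑ l ∈ T', (1 : ℤ) := by
        rw [Finset.sum_const, nsmul_eq_mul, mul_one]
        exact_mod_cast hne'.card_pos
      have h5 : ∑ l ∈ T', (- (1 * a l)) = - ∑ l ∈ T', a l := by
        rw [← Finset.sum_neg_distrib]
        exact Finset.sum_congr rfl fun l _ => by ring
      rw [h5]
      linarith
    rw [Finset.empty_union] at g1
    refine GoodE.step _ c g1 hcL ?_
    rw [hval L (Finset.Subset.refl _), hcs L hcL]
    have h3 : ∑ l ∈ L, (1 : ℤ) ≤ ∑ l ∈ L, (a l + if a l = 1 then 0 else 1) :=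
      Finset.sum_le_sum fun l _ => hc1 l
    have h6 : ∑ l ∈ L, (1 : ℤ) ≤ ∑ l ∈ L, MM B c l := Finset.sum_le_sum fun l hl => h1 l hl
    rw [Finset.sum_add_distrib] at h3
    have h4 : (1 : ℤ) ≤ ∑ l ∈ L, (1 : ℤ) := by
      rw [Finset.sum_const, nsmul_eq_mul, mul_one]
      exact_mod_cast hL.card_pos
    have h7 := hc2 c
    rw [Finset.sum_add_distrib]
    have h5 : ∑ l ∈ L, (1 * a l) = ∑ l ∈ L, a l := Finset.sum_congr rfl fun l _ => by ring
    rw [h5]
    linarith
  · subst h
    have key : ∀ T' ⊆ L, DD B a x (insert c T') ≤ ch a (insert c T') - e := by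
      intro T' hT'
      have hcT' : c ∉ T' := fun h => hcL (hT' h)
      rw [hval T' hT', hcs T' hcT']
      have h3 : ∑ l ∈ T', (a l - MM B c l) ≤ ∑ l ∈ T', (if a l = 1 then (0 : ℤ) else 1) := by
        refine Finset.sum_le_sum fun l hl => ?_
        have := h1 l (hT' hl)
        have := hc2 l
        linarith
      have h5 : ∑ l ∈ T', (-1 * a l + MM B c l) = - ∑ l ∈ T', (a l - MM B c l) := by
        rw [← Finset.sum_neg_distrib]
        exact Finset.sum_congr rfl fun l _ => by ring
      have h7 := hc1 c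
      rw [h5]
      linarith
    have g1 : GoodE B a x e {c} := by
      have := GoodE.step ∅ c (GoodE.empty (B := B) (a := a) (x := x) (e := e)) (by simp) (by
        have := key ∅ (Finset.empty_subset _)
        simpa using this)
      simpa using this
    have g2 : GoodE B a x e ({c} ∪ L) := by
      refine g1.add (by simpa using hcL) ?_
      intro T' hT' _
      have := key T' hT'
      rwa [Finset.insert_eq] at this
    rwa [← Finset.insert_eq] at g2

/-- a star can be added to a good set -/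
lemma GoodE.star {S : Finset V} {x : V → ℤ} (hS : GoodE B a x e S) (he : e ≤ 1)
    (h0 : ∀ u v, 0 ≤ B u v)
    (hB : ∀ v, B v v = 0) (ha : ∀ v, 0 ≤ a v ∧ a v ≤ 2) (c : V) (L : Finset V) (hcS : c ∉ S)
    (hcL : c ∉ L) (hLS : Disjoint L S) (hL : L.Nonempty) (h1 : ∀ l ∈ L, 1 ≤ MM B c l)
    (h2 : ∀ l ∈ L, ∀ l' ∈ L, MM B l l' = 0) (σ : ℤ) (hσ : σ = 1 ∨ σ = -1) (hxc : x c = σ)
    (hxL : ∀ l ∈ L, x l = -σ) (hint : Int B S (insert c L) x ≤ 0) :
    GoodE B a x e (S ∪ insert c L) := by
  rcases S.eq_empty_or_nonempty with rfl | hne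
  · rw [Finset.empty_union]
    exact GoodE.first he h0 hB ha c L hcL hL h1 h2 σ hσ hxc hxL
  · exact (hS.star' hne h0 hB ha c L hcS hcL hLS hL h1 h2 σ hσ hxc hxL hint).1

lemma DD_empty (x : V → ℤ) : DD B a x ∅ = 0 := by simp [DD, Qd]

lemma ch_empty : ch a ∅ = 0 := by simp [ch]

lemma insert_pair_eq2 (u v : V) : ({u, v} : Finset V) = insert u {v} := rfl

/-- an adjacent pair and a further vertex can be added to a good set -/
lemma GoodE.hole {S : Finset V} {x : V → ℤ} (hS : GoodE B a x e S) (he : e ≤ 1)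
    (hne : e ≤ 0 ∨ S.Nonempty) (h0 : ∀ u v, 0 ≤ B u v)
    (hB : ∀ v, B v v = 0) (ha : ∀ v, 0 ≤ a v ∧ a v ≤ 2) (u v w : V) (hu : u ∉ S) (hv : v ∉ S)
    (hw : w ∉ S) (huv : u ≠ v) (huw : u ≠ w) (hvw : v ≠ w) (h1 : 1 ≤ MM B u v) (σ : ℤ)
    (hσ : σ = 1 ∨ σ = -1) (hxu : x u = σ) (hxv : x v = -σ) (hxw : x w = 1 ∨ x w = -1)
    (hint : Int B S {u, v} x ≤ 0) (hint' : Int B (S ∪ {u, v}) {w} x ≤ 0) :
    GoodE B a x e (insert w (S ∪ {u, v})) := by
  have hvv : ∀ l ∈ ({v} : Finset V), ∀ l' ∈ ({v} : Finset V), MM B l l' = 0 := by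
    intro l hl l' hl'
    rw [Finset.mem_singleton] at hl hl'
    rw [hl, hl']
    simp [MM, hB]
  have g1 := hS.star he h0 hB ha u {v} hu (by simpa using huv) (by simpa using hv)
    (by simp) (by simpa using h1) hvv σ hσ hxu (by simpa using hxv) hint
  rw [← insert_pair_eq2] at g1
  have hd2' : Disjoint S {u, v} := by
    rw [Finset.disjoint_right]
    intro z hz
    rw [Finset.mem_insert, Finset.mem_singleton] at hz
    rcases hz with rfl | rfl
    · exact hu
    · exact hv
  have g2 : DD B a x (S ∪ {u, v}) ≤ ch a S - e + σ * (a u - a v) - 1 := by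
    have hSle : DD B a x S ≤ ch a S - e := by
      rcases hne with h | h
      · rcases S.eq_empty_or_nonempty with rfl | h'
        · rw [DD_empty, ch_empty]; linarith
        · exact hS.le h'
      · exact hS.le h
    have e4 : ∑ w ∈ ({u, v} : Finset V), Int B S {w} x = Int B S {u, v} x :=
      (Int_sum_right _ _ _).symm
    rw [DD_union hd2', Finset.sum_add_distrib, e4, Finset.sum_pair huv, hxu, hxv, insert_pair_eq2,
      Qd_star u {v} (by simpa using huv) h0 hB hvv, ← insert_pair_eq2]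
    simp only [Finset.sum_singleton]
    have h4 : MM B u v * (x u * x v) = - MM B u v := by
      rw [hxu, hxv]
      rcases hσ with h | h <;> rw [h] <;> ring
    rw [h4]
    linarith
  have hwS : w ∉ S ∪ {u, v} := by
    simp only [Finset.mem_union, Finset.mem_insert, Finset.mem_singleton, not_or]
    exact ⟨hw, huw.symm, hvw.symm⟩
  refine GoodE.step _ w g1 hwS ?_
  have e' : insert w (S ∪ {u, v}) = (S ∪ {u, v}) ∪ {w} := set_id2 _ _
  have hd : Disjoint (S ∪ {u, v}) {w} := by simpa using hwS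
  have hd2 : Disjoint S {u, v} := by
    rw [Finset.disjoint_right]
    intro z hz
    rw [Finset.mem_insert, Finset.mem_singleton] at hz
    rcases hz with rfl | rfl
    · exact hu
    · exact hv
  rw [e', DD_union hd, Qd_single w hB, ch_union hd, ch_union hd2]
  simp only [Finset.sum_singleton, add_zero]
  have e2 : ch a {u, v} = (if a u = 1 then 0 else 1) + (if a v = 1 then 0 else 1) := by
    unfold ch
    rw [Finset.sum_pair huv]
  have e3 : ch a {w} = if a w = 1 then 0 else 1 := by simp [ch]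
  rw [e2, e3]
  have h3 : σ * (a u - a v) ≤ (if a u = 1 then 0 else 1) + (if a v = 1 then 0 else 1) := by
    have hu2 := ha u
    have hv2 := ha v
    rcases hσ with h | h <;> rw [h] <;> split_ifs <;> omega
  have h4 : a w * x w ≤ (if a w = 1 then 0 else 1) + 1 := by
    have hw2 := ha w
    rcases hxw with h | h <;> rw [h] <;> split_ifs <;> omega
  linarith

/-- every block structure is realised by a sign pattern with small quadratic form which can be
built vertex by vertex, also after a global change of sign -/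
theorem BlocksE.realise {S : Finset V} {g : ℤ} (h : BlocksE B e S g) (he : e ≤ 1) (h0 : ∀ u v, 0 ≤ B u v)
    (hB : ∀ v, B v v = 0) (ha : ∀ v, 0 ≤ a v ∧ a v ≤ 2) :
    ∃ x : V → ℤ, (∀ v, x v = 1 ∨ x v = -1) ∧ Qd B S x ≤ -g ∧ GoodE B a x e S ∧
      GoodE B a (fun v => - x v) e S := by
  induction h with
  | empty => exact ⟨fun _ => 1, fun _ => Or.inl rfl, by simp [Qd], GoodE.empty, GoodE.empty⟩
  | star S g c L hS hcS hcL hLS hL h1 h2 ih =>
    obtain ⟨x0, hx0, hq, hg, hg'⟩ := ih
    have hd : Disjoint S (insert c L) := by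
      rw [Finset.disjoint_insert_right]
      exact ⟨hcS, hLS.symm⟩
    set y : ℤ → V → ℤ := fun σ v => if v = c then σ else if v ∈ L then -σ else x0 v with hy
    have hyc : ∀ σ, y σ c = σ := by intro σ; simp [hy]
    have hyL : ∀ σ, ∀ l ∈ L, y σ l = -σ := by
      intro σ l hl
      have : l ≠ c := fun e => hcL (e ▸ hl)
      simp [hy, this, hl]
    have hyS : ∀ σ, ∀ v ∈ S, y σ v = x0 v := by
      intro σ v hv
      have h3 : v ≠ c := fun e => hcS (e ▸ hv)
      have h4 : v ∉ L := fun h => Finset.disjoint_left.1 hLS h hv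
      simp [hy, h3, h4]
    have hJ : ∀ σ, (σ = 1 ∨ σ = -1) →
        Int B S (insert c L) (y σ) = σ * Int B S (insert c L) (y 1) := by
      intro σ hσ
      unfold Int
      rw [Finset.mul_sum]
      refine Finset.sum_congr rfl fun u hu => ?_
      rw [Finset.mul_sum]
      refine Finset.sum_congr rfl fun v hv => ?_
      rw [hyS σ u hu, hyS 1 u hu]
      rcases Finset.mem_insert.1 hv with rfl | hv
      · rw [hyc, hyc]; ring
      · rw [hyL σ v hv, hyL 1 v hv]; ring
    obtain ⟨σ, hσ, hσJ⟩ : ∃ σ : ℤ, (σ = 1 ∨ σ = -1) ∧ Int B S (insert c L) (y σ) ≤ 0 := by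
      rcases le_total (Int B S (insert c L) (y 1)) 0 with h3 | h3
      · exact ⟨1, Or.inl rfl, h3⟩
      · refine ⟨-1, Or.inr rfl, ?_⟩
        rw [hJ _ (Or.inr rfl)]
        linarith
    refine ⟨y σ, ?_, ?_, ?_, ?_⟩
    · intro v
      simp only [hy]
      split_ifs
      · exact hσ
      · rcases hσ with h | h <;> rw [h] <;> norm_num
      · exact hx0 v
    · rw [Qd_union hd, Qd_congr (hyS σ), Qd_star c L hcL h0 hB h2]
      have : ∑ l ∈ L, MM B c l * (y σ c * y σ l) = - ∑ l ∈ L, MM B c l := by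
        rw [← Finset.sum_neg_distrib]
        refine Finset.sum_congr rfl fun l hl => ?_
        rw [hyc, hyL σ l hl]
        rcases hσ with h | h <;> rw [h] <;> ring
      rw [this]
      linarith
    · exact (hg.congr fun v hv => (hyS σ v hv).symm).star he h0 hB ha c L hcS hcL hLS hL h1 h2 σ hσ
        (hyc σ) (hyL σ) hσJ
    · refine GoodE.star (hg'.congr fun v hv => by rw [hyS σ v hv]) he h0 hB ha c L hcS hcL hLS hL
        h1 h2 (-σ) ?_ (by rw [hyc σ]) (fun l hl => by rw [hyL σ l hl]) ?_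
      · rcases hσ with h | h
        · right; rw [h]
        · left; rw [h]; norm_num
      · rw [Int_neg]; exact hσJ
  | hole S g u v w hS hu hv hw huv huw hvw h1 hne ih =>
    obtain ⟨x0, hx0, hq, hg, hg'⟩ := ih
    have hd : Disjoint S {u, v} := by
      rw [Finset.disjoint_right]
      intro z hz
      rw [Finset.mem_insert, Finset.mem_singleton] at hz
      rcases hz with rfl | rfl
      · exact hu
      · exact hv
    have hvv : ∀ l ∈ ({v} : Finset V), ∀ l' ∈ ({v} : Finset V), MM B l l' = 0 := by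
      intro l hl l' hl'
      rw [Finset.mem_singleton] at hl hl'
      rw [hl, hl']
      simp [MM, hB]
    have hwS : w ∉ S ∪ {u, v} := by
      simp only [Finset.mem_union, Finset.mem_insert, Finset.mem_singleton, not_or]
      exact ⟨hw, huw.symm, hvw.symm⟩
    have hdw : Disjoint (S ∪ {u, v}) {w} := by simpa using hwS
    set y : ℤ → ℤ → V → ℤ := fun σ τ z => if z = u then σ else if z = v then -σ else
      if z = w then τ else x0 z with hy
    have hyu : ∀ σ τ, y σ τ u = σ := by intro σ τ; simp [hy]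
    have hyv : ∀ σ τ, y σ τ v = -σ := by intro σ τ; simp [hy, huv.symm]
    have hyw : ∀ σ τ, y σ τ w = τ := by intro σ τ; simp [hy, huw.symm, hvw.symm]
    have hyS : ∀ σ τ, ∀ z ∈ S, y σ τ z = x0 z := by
      intro σ τ z hz
      have h3 : z ≠ u := fun e => hu (e ▸ hz)
      have h4 : z ≠ v := fun e => hv (e ▸ hz)
      have h5 : z ≠ w := fun e => hw (e ▸ hz)
      simp [hy, h3, h4, h5]
    have hJ : ∀ σ τ, Int B S {u, v} (y σ τ) = σ * Int B S {u, v} (y 1 1) := by
      intro σ τ
      unfold Int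
      rw [Finset.mul_sum]
      refine Finset.sum_congr rfl fun z hz => ?_
      rw [Finset.sum_pair huv, Finset.sum_pair huv, hyu, hyv, hyS σ τ z hz, hyu, hyv,
        hyS 1 1 z hz]
      ring
    obtain ⟨σ, hσ, hσJ⟩ : ∃ σ : ℤ, (σ = 1 ∨ σ = -1) ∧ ∀ τ, Int B S {u, v} (y σ τ) ≤ 0 := by
      rcases le_total (Int B S {u, v} (y 1 1)) 0 with h3 | h3
      · exact ⟨1, Or.inl rfl, fun τ => by rw [hJ]; linarith⟩
      · refine ⟨-1, Or.inr rfl, fun τ => ?_⟩
        rw [hJ]
        linarith
    have hJ' : ∀ τ, Int B (S ∪ {u, v}) {w} (y σ τ) = τ * Int B (S ∪ {u, v}) {w} (y σ 1) := by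
      intro τ
      unfold Int
      rw [Finset.mul_sum]
      refine Finset.sum_congr rfl fun z hz => ?_
      rw [Finset.sum_singleton, Finset.sum_singleton, hyw, hyw]
      have : y σ τ z = y σ 1 z := by
        have h5 : z ≠ w := fun e => hwS (e ▸ hz)
        simp [hy, h5]
      rw [this]
      ring
    obtain ⟨τ, hτ, hτJ⟩ : ∃ τ : ℤ, (τ = 1 ∨ τ = -1) ∧ Int B (S ∪ {u, v}) {w} (y σ τ) ≤ 0 := by
      rcases le_total (Int B (S ∪ {u, v}) {w} (y σ 1)) 0 with h3 | h3
      · exact ⟨1, Or.inl rfl, h3⟩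
      · refine ⟨-1, Or.inr rfl, ?_⟩
        rw [hJ']
        linarith
    refine ⟨y σ τ, ?_, ?_, ?_, ?_⟩
    · intro z
      simp only [hy]
      split_ifs
      · exact hσ
      · rcases hσ with h | h <;> rw [h] <;> norm_num
      · exact hτ
      · exact hx0 z
    · have e : insert w (S ∪ {u, v}) = (S ∪ {u, v}) ∪ {w} := set_id2 _ _
      rw [e, Qd_union hdw, Qd_union hd, Qd_congr (hyS σ τ), Qd_single w hB, insert_pair_eq2,
        Qd_star u {v} (by simpa using huv) h0 hB hvv, ← insert_pair_eq2]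
      simp only [Finset.sum_singleton]
      have h3 := hσJ τ
      have h4 : MM B u v * (y σ τ u * y σ τ v) = - MM B u v := by
        rw [hyu, hyv]
        rcases hσ with h | h <;> rw [h] <;> ring
      rw [h4]
      linarith
    · exact (hg.congr fun z hz => (hyS σ τ z hz).symm).hole he hne h0 hB ha u v w hu hv hw huv huw hvw h1
        σ hσ (hyu σ τ) (hyv σ τ) (by rw [hyw]; exact hτ) (hσJ τ) hτJ
    · refine GoodE.hole (hg'.congr fun z hz => by rw [hyS σ τ z hz]) he hne h0 hB ha u v w hu hv hw huv huw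
        hvw h1 (-σ) ?_ (by rw [hyu]) (by rw [hyv]) ?_ ?_ ?_
      · rcases hσ with h | h
        · right; rw [h]
        · left; rw [h]; norm_num
      · rw [hyw]
        rcases hτ with h | h
        · right; rw [h]
        · left; rw [h]; norm_num
      · rw [Int_neg]; exact hσJ τ
      · rw [Int_neg]; exact hτJ

end Pool.Agent.Exact
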