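import Pool.Agent.Lib_helper68.Exact.Api

/-!
# The path statement: everything a path through `Rs` gives
-/

set_option autoImplicit false
set_option linter.unusedSectionVars false

namespace Pool.Agent.Exact

open Finset

variable {V : Type*} [Fintype V] [DecidableEq V] {B : V → V → ℤ}

theorem path_main (h0 : ∀ u v, 0 ≤ B u v) (h1 : ∀ u v, B u v ≤ 1) (hB : ∀ v, B v v = 0)
    {e : ℤ} (he : e ≤ 1) (h : V) (hq : 0 < im B h) {Rs : Finset V} (hh : h ∉ Rs) {g : ℤ}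
    (hbl : BlocksE B e Rs g) {Db : ℝ} (hDb0 : 0 ≤ Db)
    (hDb : ∀ P ⊆ Rs, P.Nonempty → ((ch (MM B h) P - e : ℤ) : ℝ) ≤ Db) :
    ∃ Y D : ℝ, 0 ≤ Y ∧ D ≤ Db ∧ Y ≤ ∑ v ∈ Rs, |((im B v : ℤ) : ℝ)| ∧
      (∀ M K t : ℝ, 0 ≤ K → St B (im B) (univ \ Rs) M K t →
        Val B (-(g : ℝ) + M + max (max Y K) ((Y + t) / 2))) ∧
      (∀ M K t : ℝ, 0 ≤ K → St B (im B) (univ \ insert h Rs) M K t →
        Val B (D + M + max (max |((im B h : ℤ) : ℝ) - Y| K)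
          ((|((im B h : ℤ) : ℝ) - Y| + t) / 2))) ∧
      (((im B h : ℤ) : ℝ) ≤ Y → ∀ (R C : Finset V) (M K t rQ rP : ℝ), Rs ⊆ R → h ∉ R → h ∉ C →
        Disjoint R C → insert h (R ∪ C) = univ → 0 ≤ K → St B (im B) C M K t →
        (∀ v ∈ R, 0 ≤ im B v → ((im B v : ℤ) : ℝ) ≤ rQ) → rQ ≤ K → 0 ≤ rQ →
        (∀ v ∈ R, im B v < 0 → -((im B v : ℤ) : ℝ) ≤ rP) → rP ≤ K → 0 ≤ rP →
        Val B (Db + M + max K ((t + rQ + rP) / 2))) := by
  have ha : ∀ v, 0 ≤ MM B h v ∧ MM B h v ≤ 2 := fun v => MM_range h0 h1 h v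
  obtain ⟨x0, hx0, hq0, hg0, hg0'⟩ := hbl.realise he h0 hB ha
  -- choose the global sign
  obtain ⟨x, hx, hqx, hgx, hsx⟩ : ∃ x : V → ℤ, (∀ v, x v = 1 ∨ x v = -1) ∧ Qd B Rs x ≤ -g ∧
      GoodE B (MM B h) x e Rs ∧ ∑ v ∈ Rs, im B v * x v ≤ 0 := by
    rcases le_total (∑ v ∈ Rs, im B v * x0 v) 0 with h3 | h3
    · exact ⟨x0, hx0, hq0, hg0, h3⟩
    · refine ⟨fun v => - x0 v, ?_, ?_, hg0', ?_⟩
      · intro v
        rcases hx0 v with h | h <;> simp [h]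
      · rw [Qd_neg]; exact hq0
      · have : ∑ v ∈ Rs, im B v * - x0 v = - ∑ v ∈ Rs, im B v * x0 v := by
          rw [← Finset.sum_neg_distrib]
          exact Finset.sum_congr rfl fun v _ => by ring
        rw [this]; linarith
  set Yz : ℤ := - ∑ v ∈ Rs, im B v * x v with hYz
  have hYz0 : 0 ≤ Yz := by rw [hYz]; linarith
  have hY0 : (0 : ℝ) ≤ (Yz : ℝ) := by exact_mod_cast hYz0
  have hqR : ((Qd B Rs x : ℤ) : ℝ) ≤ -(g : ℝ) := by exact_mod_cast hqx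
  refine ⟨(Yz : ℝ), ((DD B (MM B h) x Rs : ℤ) : ℝ), hY0, ?_, ?_, ?_, ?_, ?_⟩
  · rcases Rs.eq_empty_or_nonempty with rfl | hne
    · rw [DD_empty]; simpa using hDb0
    · have h3 : ((DD B (MM B h) x Rs : ℤ) : ℝ) ≤ ((ch (MM B h) Rs - e : ℤ) : ℝ) := by
        exact_mod_cast hgx.le hne
      exact h3.trans (hDb Rs (Finset.Subset.refl _) hne)
  · rw [hYz]
    push_cast
    rw [← Finset.sum_neg_distrib]
    refine Finset.sum_le_sum fun v _ => ?_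
    have : -(((im B v : ℤ) : ℝ) * ((x v : ℤ) : ℝ)) ≤ |((im B v : ℤ) : ℝ) * ((x v : ℤ) : ℝ)| :=
      neg_le_abs _
    rw [abs_mul] at this
    have h3 : |((x v : ℤ) : ℝ)| = 1 := by
      rcases hx v with h | h <;> rw [h] <;> simp
    rw [h3, mul_one] at this
    exact this
  · intro M K t hK hst
    rw [← Finset.compl_eq_univ_sdiff] at hst
    have h3 := extendSt Rs x hx hK hst
    have e1 : |((∑ v ∈ Rs, im B v * x v : ℤ) : ℝ)| = (Yz : ℝ) := by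
      rw [hYz]
      push_cast
      rw [abs_of_nonpos]
      have : ((∑ v ∈ Rs, im B v * x v : ℤ) : ℝ) ≤ 0 := by exact_mod_cast hsx
      push_cast at this
      exact this
    rw [e1] at h3
    refine h3.mono ?_
    linarith
  · intro M K t hK hst
    rw [← Finset.compl_eq_univ_sdiff] at hst
    have h3 := stopSt hB h Rs hh x hx hK hst
    have e1 : ((im B h + ∑ v ∈ Rs, im B v * x v : ℤ) : ℝ) = ((im B h : ℤ) : ℝ) - (Yz : ℝ) := by
      rw [hYz]; push_cast; ring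
    rw [e1] at h3
    exact h3
  · intro hcross R C M K t rQ rP hRsR hhR hhC hd hu hK hst hrQ hrQK hrQ0 hrP hrPK hrP0
    refine crossing hB h0 h R Rs C hRsR hhR hhC hd hu hx hgx hq ?_ hDb0 hDb hK hst hrQ hrQK hrQ0
      hrP hrPK hrP0
    have : im B h ≤ Yz := by exact_mod_cast hcross
    exact this

end Pool.Agent.Exact
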