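import Pool.Agent.Lib_helper68.Exact.Neutral

/-!
# Placing neutral vertices at the end of a path
-/

set_option autoImplicit false
set_option linter.unusedSectionVars false

namespace Pool.Agent.Exact

open Finset

variable {V : Type*} [DecidableEq V] {B : V → V → ℤ} {a : V → ℤ}

/-- `S` can be built vertex by vertex with value at most `b` after each step -/
inductive PathB (B : V → V → ℤ) (a x : V → ℤ) (b : ℤ) : Finset V → Prop
  | empty : PathB B a x b ∅
  | step (S : Finset V) (v : V) : PathB B a x b S → v ∉ S → DD B a x (insert v S) ≤ b →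
      PathB B a x b (insert v S)

lemma PathB.congr {S : Finset V} {x y : V → ℤ} {b : ℤ} (hS : PathB B a x b S)
    (h : ∀ v ∈ S, x v = y v) : PathB B a y b S := by
  induction hS with
  | empty => exact PathB.empty
  | step S v hS hv hD ih =>
    refine PathB.step S v (ih fun u hu => h u (Finset.mem_insert_of_mem hu)) hv ?_
    rw [← DD_congr h]
    exact hD

lemma GoodE.toPathB {x : V → ℤ} {e b : ℤ} {S : Finset V} (h : GoodE B a x e S)
    (hb : ∀ P ⊆ S, P.Nonempty → ch a P - e ≤ b) : PathB B a x b S := by
  induction h with
  | empty => exact PathB.empty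
  | step S v hS hv hD ih =>
    refine PathB.step S v (ih fun P hP => hb P (hP.trans (Finset.subset_insert _ _))) hv ?_
    exact hD.trans (hb _ (Finset.Subset.refl _) (Finset.insert_nonempty _ _))

lemma PathB.le {x : V → ℤ} {b : ℤ} (hb : 0 ≤ b) {S : Finset V} (h : PathB B a x b S) :
    DD B a x S ≤ b := by
  cases h with
  | empty => rw [DD_empty]; exact hb
  | step S v hS hv hD => exact hD

theorem PathB.cross {x t : V → ℤ} {b : ℤ} {S : Finset V} (hS : PathB B a x b S) (hb : 0 ≤ b)
    (c : ℝ) (hc0 : 0 < c) (hc : c ≤ ((∑ v ∈ S, t v * x v : ℤ) : ℝ)) :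
    ∃ (P : Finset V) (v : V), v ∉ P ∧ insert v P ⊆ S ∧ DD B a x P ≤ b ∧
      DD B a x (insert v P) ≤ b ∧ ((∑ u ∈ P, t u * x u : ℤ) : ℝ) < c ∧
      c ≤ ((∑ u ∈ insert v P, t u * x u : ℤ) : ℝ) := by
  induction hS with
  | empty => simp at hc; linarith
  | step S v hS hv hD ih =>
    rcases lt_or_ge ((∑ u ∈ S, t u * x u : ℤ) : ℝ) c with h1 | h1
    · exact ⟨S, v, hv, Finset.Subset.refl _, hS.le hb, hD, h1, hc⟩
    · obtain ⟨P, w, h2, h3, h4⟩ := ih h1
      exact ⟨P, w, h2, h3.trans (Finset.subset_insert _ _), h4⟩

/-- value after placing a neutral vertex -/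
lemma DD_place (hB : ∀ v, B v v = 0) {X : Finset V} {v : V} (hv : v ∉ X) {x x' : V → ℤ}
    (hx : ∀ u ∈ X, x' u = x u) (hn : ∑ u ∈ X, MM B u v * x u = 0) :
    DD B a x' (insert v X) = DD B a x X + a v * x' v := by
  have e : insert v X = X ∪ {v} := by
    ext z; simp only [Finset.mem_insert, Finset.mem_union, Finset.mem_singleton]; tauto
  have hd : Disjoint X {v} := by simpa using hv
  rw [e, DD_union hd, Qd_single v hB, add_zero, Finset.sum_singleton]
  have e1 : DD B a x' X = DD B a x X := DD_congr hx
  have e2 : Int B X {v} x' = 0 := by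
    unfold Int
    have : ∑ u ∈ X, ∑ w ∈ ({v} : Finset V), MM B u w * (x' u * x' w) =
        (∑ u ∈ X, MM B u v * x u) * x' v := by
      rw [Finset.sum_mul]
      refine Finset.sum_congr rfl fun u hu => ?_
      rw [Finset.sum_singleton, hx u hu]
      ring
    rw [this, hn, zero_mul]
  rw [e1, e2, add_zero]

/-- harmless vertices: `s v + a v ≥ 0` or `a v = 0` -/
def Harm (a s : V → ℤ) (v : V) : Prop := 0 ≤ s v + a v ∨ a v = 0

/-- the value of the sign of a harmless vertex -/
lemma harm_sign {s : V → ℤ} (ha : ∀ v, 0 ≤ a v ∧ a v ≤ 2) {v : V} (h : Harm a s v) :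
    ∃ y : ℤ, (y = 1 ∨ y = -1) ∧ a v * y ≤ 0 ∧ (a v + s v) * y = - |a v + s v| := by
  rcases le_or_gt 0 (s v + a v) with h1 | h1
  · refine ⟨-1, Or.inr rfl, ?_, ?_⟩
    · linarith [(ha v).1]
    · rw [abs_of_nonneg (by linarith)]; ring
  · have h2 : a v = 0 := by
      rcases h with h | h
      · linarith
      · exact h
    refine ⟨1, Or.inl rfl, by rw [h2]; norm_num, ?_⟩
    rw [abs_of_neg (by linarith)]; ring

open Classical in
/-- **Placement.** All vertices of the neutral independent set `S` can be placed after `X`; only
the last one may lead to a value above `b`. -/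
theorem place (hB : ∀ v, B v v = 0) (ha : ∀ v, 0 ≤ a v ∧ a v ≤ 2)
    (s : V → ℤ) {b : ℤ} :
    ∀ (n : ℕ) (S X : Finset V) (x : V → ℤ), S.card = n → (∀ v, x v = 1 ∨ x v = -1) →
      PathB B a x b X → Disjoint X S → DD B a x X ≤ b →
      (∀ v ∈ S, a v = 2 → DD B a x X + 1 ≤ b) →
      (∀ v ∈ S, ∑ u ∈ X, MM B u v * x u = 0) → (∀ u ∈ S, ∀ v ∈ S, MM B u v = 0) →
      ∃ x' : V → ℤ, (∀ v, x' v = 1 ∨ x' v = -1) ∧ (∀ v ∈ X, x' v = x v) ∧
        ((PathB B a x' b (X ∪ S) ∧ DD B a x' (X ∪ S) ≤ DD B a x X + ch a S) ∨
          ∃ y ∈ S, PathB B a x' b ((X ∪ S).erase y) ∧ s y + a y < 0 ∧ 1 ≤ a y ∧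
          DD B a x' (X ∪ S) = DD B a x' ((X ∪ S).erase y) + a y ∧
          DD B a x' ((X ∪ S).erase y) ≤ DD B a x X ∧ x' y = 1) ∧
        DD B a x' (X ∪ S) + ∑ v ∈ X ∪ S, s v * x' v ≤
          DD B a x X + ∑ v ∈ X, s v * x v - ∑ v ∈ S.filter (Harm a s), |a v + s v| := by
  intro n
  induction n using Nat.strong_induction_on with
  | _ n ih =>
    intro S X x hSn hx hP hd hb1 hb2 hneu hind
    -- general step
    have step : ∀ (X : Finset V) (x : V → ℤ) (v : V) (y : ℤ), (∀ v, x v = 1 ∨ x v = -1) →
        PathB B a x b X → v ∉ X → (y = 1 ∨ y = -1) → (∑ u ∈ X, MM B u v * x u = 0) →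
        ∃ x1 : V → ℤ, (∀ v, x1 v = 1 ∨ x1 v = -1) ∧ (∀ u ∈ X, x1 u = x u) ∧ x1 v = y ∧
          PathB B a x1 b X ∧ (DD B a x X + a v * y ≤ b → PathB B a x1 b (insert v X)) ∧
          DD B a x1 (insert v X) = DD B a x X + a v * y ∧
          ∑ u ∈ insert v X, s u * x1 u = ∑ u ∈ X, s u * x u + s v * y ∧
          (∀ w, MM B v w = 0 → ∑ u ∈ X, MM B u w * x u = 0 →
            ∑ u ∈ insert v X, MM B u w * x1 u = 0) := by
      intro X x v y hx hP hv hy hn
      set x1 : V → ℤ := fun u => if u = v then y else x u with hx1
      have h1 : x1 v = y := by simp [hx1]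
      have h2 : ∀ u ∈ X, x1 u = x u := by
        intro u hu
        have : u ≠ v := fun e => hv (e ▸ hu)
        simp [hx1, this]
      have h3 : DD B a x1 (insert v X) = DD B a x X + a v * y := by
        rw [DD_place hB hv h2 hn, h1]
      have hPX : PathB B a x1 b X := hP.congr fun u hu => (h2 u hu).symm
      refine ⟨x1, ?_, h2, h1, hPX, ?_, h3, ?_, ?_⟩
      · intro u
        simp only [hx1]
        split_ifs
        · exact hy
        · exact hx u
      · intro hD
        refine PathB.step X v hPX hv ?_
        rw [h3]; exact hD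
      · rw [Finset.sum_insert hv, h1, Finset.sum_congr rfl fun u hu => by rw [h2 u hu]]
        ring
      · intro w hw hw'
        rw [Finset.sum_insert hv, hw, zero_mul, zero_add]
        rw [← hw']
        exact Finset.sum_congr rfl fun u hu => by rw [h2 u hu]
    by_cases hH : ∃ v ∈ S, Harm a s v
    · obtain ⟨v, hvS, hvH⟩ := hH
      obtain ⟨y, hy, hy1, hy2⟩ := harm_sign ha hvH
      have hvX : v ∉ X := fun h => Finset.disjoint_left.1 hd h hvS
      obtain ⟨x1, a1, a2, a3, a0, a4, a5, a6, a7⟩ := step X x v y hx hP hvX hy (hneu v hvS)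
      replace a4 := a4 (by linarith)
      have hlt : (S.erase v).card < n := by rw [← hSn]; exact Finset.card_erase_lt_of_mem hvS
      have hsub : ∀ u ∈ S.erase v, u ∈ S := fun u hu => Finset.mem_of_mem_erase hu
      have hchS : ch a S = (if a v = 1 then 0 else 1) + ch a (S.erase v) := by
        unfold ch
        rw [Finset.add_sum_erase S (fun v => if a v = 1 then (0 : ℤ) else 1) hvS]
      have hcv0 : (0 : ℤ) ≤ (if a v = 1 then 0 else 1) := by split_ifs <;> norm_num
      obtain ⟨x', b1, b2, b3, b4⟩ := ih _ hlt (S.erase v) (insert v X) x1 rfl a1 a4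
        (by
          rw [Finset.disjoint_insert_left]
          exact ⟨Finset.notMem_erase _ _, Finset.disjoint_of_subset_right
            (Finset.erase_subset _ _) hd⟩)
        (by rw [a5]; linarith)
        (fun u hu h2 => by have := hb2 u (hsub u hu) h2; rw [a5]; linarith)
        (fun u hu => a7 u (hind v hvS u (hsub u hu)) (hneu u (hsub u hu)))
        (fun u hu w hw => hind u (hsub u hu) w (hsub w hw))
      have e : insert v X ∪ S.erase v = X ∪ S := by
        ext z
        simp only [Finset.mem_union, Finset.mem_insert, Finset.mem_erase]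
        by_cases hz : z = v
        · subst hz; simp [hvS]
        · simp [hz]
      rw [e] at b3 b4
      refine ⟨x', b1, ?_, ?_, ?_⟩
      · intro u hu
        rw [b2 u (Finset.mem_insert_of_mem hu), a2 u hu]
      · rcases b3 with ⟨b3, b5⟩ | ⟨z, hz, c1, c2, c3, c4, c5, c6⟩
        · rw [a5] at b5
          exact Or.inl ⟨b3, by rw [hchS]; linarith⟩
        · right
          rw [a5] at c5
          exact ⟨z, hsub z hz, c1, c2, c3, c4, by linarith, c6⟩
      · rw [a5, a6] at b4
        have e2 : ∑ u ∈ S.filter (Harm a s), |a u + s u| = |a v + s v| +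
            ∑ u ∈ (S.erase v).filter (Harm a s), |a u + s u| := by
          rw [← Finset.insert_erase hvS, Finset.filter_insert, if_pos hvH,
            Finset.sum_insert (by simp), Finset.erase_insert (Finset.notMem_erase _ _)]
        rw [e2]
        have e3 : (a v + s v) * y = a v * y + s v * y := by ring
        rw [e3] at hy2
        linarith
    · push Not at hH
      have hHf : S.filter (Harm a s) = ∅ := by
        rw [Finset.filter_eq_empty_iff]
        exact fun v hv => hH v hv
      have hprop : ∀ v ∈ S, s v + a v < 0 ∧ (a v = 1 ∨ a v = 2) := by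
        intro v hv
        have h1 := hH v hv
        unfold Harm at h1
        push Not at h1
        have := ha v
        exact ⟨h1.1, by omega⟩
      rw [hHf, Finset.sum_empty, sub_zero]
      by_cases hpair : ∃ u ∈ S, ∃ v ∈ S, u ≠ v ∧ a u = a v ∧ s u ≤ s v
      · -- `u` gets `+`, `v` gets `-`
        obtain ⟨u, hu, v, hv, huv, hauv, hsuv⟩ := hpair
        have hvX : v ∉ X := fun h => Finset.disjoint_left.1 hd h hv
        have huX : u ∉ insert v X := by
          simp only [Finset.mem_insert, not_or]
          exact ⟨huv, fun h => Finset.disjoint_left.1 hd h hu⟩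
        obtain ⟨x1, a1, a2, a3, a0, a4, a5, a6, a7⟩ := step X x v (-1) hx hP hvX (Or.inr rfl)
          (hneu v hv)
        replace a4 := a4 (by have := ha v; linarith)
        obtain ⟨x2, c1, c2, c3, c0, c4, c5, c6, c7⟩ := step (insert v X) x1 u 1 a1 a4 huX
          (Or.inl rfl) (a7 u (hind v hv u hu) (hneu u hu))
        replace c4 := c4 (by rw [a5, hauv]; linarith)
        have hlt : ((S.erase v).erase u).card < n := by
          rw [← hSn]
          refine (Finset.card_lt_card ?_).trans (Finset.card_lt_card (Finset.erase_ssubset hv))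
          exact Finset.erase_ssubset (Finset.mem_erase.2 ⟨huv, hu⟩)
        have hsub : ∀ w ∈ (S.erase v).erase u, w ∈ S := fun w hw =>
          Finset.mem_of_mem_erase (Finset.mem_of_mem_erase hw)
        have hDD : DD B a x2 (insert u (insert v X)) = DD B a x X := by
          rw [c5, a5, hauv]; ring
        have hchS : ch a ((S.erase v).erase u) ≤ ch a S := by
          unfold ch
          exact Finset.sum_le_sum_of_subset_of_nonneg hsub fun v _ _ => by
            split_ifs <;> norm_num
        obtain ⟨x', b1, b2, b3, b4⟩ := ih _ hlt ((S.erase v).erase u)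
          (insert u (insert v X)) x2 rfl c1 c4
          (by
            rw [Finset.disjoint_insert_left, Finset.disjoint_insert_left]
            refine ⟨Finset.notMem_erase _ _, ?_, ?_⟩
            · simp
            · exact Finset.disjoint_of_subset_right (fun w hw => hsub w hw) hd)
          (by rw [hDD]; exact hb1)
          (fun w hw h2 => by rw [hDD]; exact hb2 w (hsub w hw) h2)
          (fun w hw => c7 w (hind u hu w (hsub w hw))
            (a7 w (hind v hv w (hsub w hw)) (hneu w (hsub w hw))))
          (fun w hw z hz => hind w (hsub w hw) z (hsub z hz))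
        have e : insert u (insert v X) ∪ (S.erase v).erase u = X ∪ S := by
          ext z
          simp only [Finset.mem_union, Finset.mem_insert, Finset.mem_erase]
          by_cases hz : z = v
          · subst hz; simp [hv]
          · by_cases hz' : z = u
            · subst hz'; simp [hu]
            · simp [hz, hz']
        rw [e] at b3 b4
        have hf2 : ((S.erase v).erase u).filter (Harm a s) = ∅ := by
          rw [Finset.filter_eq_empty_iff]
          exact fun w hw => hH w (hsub w hw)
        rw [hf2, Finset.sum_empty, sub_zero, hDD, c6, a6] at b4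
        refine ⟨x', b1, ?_, ?_, ?_⟩
        · intro w hw
          rw [b2 w (by simp [hw]), c2 w (by simp [hw]), a2 w hw]
        · rcases b3 with ⟨b3, b5⟩ | ⟨z, hz, d1, d2, d3, d4, d5, d6⟩
          · rw [hDD] at b5
            exact Or.inl ⟨b3, by linarith⟩
          · right
            rw [hDD] at d5
            exact ⟨z, hsub z hz, d1, d2, d3, d4, by linarith, d6⟩
        · linarith
      · -- at most one vertex of each class
        push Not at hpair
        have huniq : ∀ u ∈ S, ∀ v ∈ S, a u = a v → u = v := by
          intro u hu v hv hauv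
          by_contra huv
          have h1 := hpair u hu v hv huv hauv
          have h2 := hpair v hv u hu (Ne.symm huv) hauv.symm
          linarith
        rcases S.eq_empty_or_nonempty with rfl | ⟨v, hv⟩
        · refine ⟨x, hx, fun _ _ => rfl, Or.inl ⟨by simpa using hP, by simp [ch]⟩, by simp⟩
        · by_cases hone : S = {v}
          · subst hone
            have hvX : v ∉ X := fun h => Finset.disjoint_left.1 hd h hv
            obtain ⟨x1, a1, a2, a3, a0, a4, a5, a6, a7⟩ := step X x v 1 hx hP hvX (Or.inl rfl)
              (hneu v hv)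
            have e : X ∪ {v} = insert v X := by
              ext z; simp only [Finset.mem_insert, Finset.mem_union, Finset.mem_singleton]; tauto
            have e2 : (insert v X).erase v = X := Finset.erase_insert hvX
            have e3 : DD B a x1 X = DD B a x X := DD_congr a2
            rw [e]
            refine ⟨x1, a1, a2, Or.inr ⟨v, hv, by rw [e2]; exact a0, (hprop v hv).1, ?_, ?_, ?_,
              a3⟩, ?_⟩
            · rcases (hprop v hv).2 with h | h
              · rw [h]
              · rw [h]; norm_num
            · rw [e2, a5, e3]; ring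
            · rw [e2, e3]
            · rw [a5, a6]
              have := (hprop v hv).1
              linarith
          · -- two vertices with different `a`
            obtain ⟨w, hw, hwv⟩ : ∃ w ∈ S, w ≠ v := by
              by_contra hcon
              push Not at hcon
              exact hone (Finset.eq_singleton_iff_unique_mem.2 ⟨hv, hcon⟩)
            -- name them
            obtain ⟨y1, hy1, y2, hy2, ha1, ha2, hy12⟩ : ∃ y1 ∈ S, ∃ y2 ∈ S, a y1 = 1 ∧ a y2 = 2 ∧
                y1 ≠ y2 := by
              rcases (hprop v hv).2 with h | h <;> rcases (hprop w hw).2 with h' | h'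
              · exact absurd (huniq w hw v hv (by rw [h, h'])) hwv
              · exact ⟨v, hv, w, hw, h, h', hwv.symm⟩
              · exact ⟨w, hw, v, hv, h', h, hwv⟩
              · exact absurd (huniq w hw v hv (by rw [h, h'])) hwv
            have hS2 : S = {y1, y2} := by
              ext z
              simp only [Finset.mem_insert, Finset.mem_singleton]
              constructor
              · intro hz
                rcases (hprop z hz).2 with h | h
                · left; exact huniq z hz y1 hy1 (by rw [h, ha1])
                · right; exact huniq z hz y2 hy2 (by rw [h, ha2])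
              · rintro (rfl | rfl)
                · exact hy1
                · exact hy2
            have hb2' := hb2 y2 hy2 ha2
            have hch1 : 1 ≤ ch a S := by
              unfold ch
              rw [hS2, Finset.sum_pair hy12, ha1, ha2]
              norm_num
            have hy1X : y1 ∉ X := fun h => Finset.disjoint_left.1 hd h hy1
            have hy2X : y2 ∉ X := fun h => Finset.disjoint_left.1 hd h hy2
            have e : X ∪ S = insert y2 (insert y1 X) := by
              rw [hS2]
              ext z; simp only [Finset.mem_insert, Finset.mem_union, Finset.mem_singleton]; tauto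
            rcases lt_or_ge (s y2) (s y1) with hs | hs
            · -- `y1` gets `-`, `y2` gets `+`
              obtain ⟨x1, a1, a2, a3, a0, a4, a5, a6, a7⟩ := step X x y1 (-1) hx hP hy1X
                (Or.inr rfl) (hneu y1 hy1)
              replace a4 := a4 (by rw [ha1]; linarith)
              obtain ⟨x2, c1, c2, c3, c0, c4, c5, c6, c7⟩ := step (insert y1 X) x1 y2 1 a1 a4
                (by simp only [Finset.mem_insert, not_or]; exact ⟨hy12.symm, hy2X⟩)
                (Or.inl rfl) (a7 y2 (hind y1 hy1 y2 hy2) (hneu y2 hy2))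
              replace c4 := c4 (by rw [a5, ha1, ha2]; linarith)
              rw [e]
              refine ⟨x2, c1, ?_, Or.inl ⟨c4, ?_⟩, ?_⟩
              · intro z hz; rw [c2 z (by simp [hz]), a2 z hz]
              · rw [c5, a5, ha1, ha2]; linarith
              · rw [c5, c6, a5, a6, ha1, ha2]
                omega
            · -- `y1` gets `+`, `y2` gets `-`
              obtain ⟨x1, a1, a2, a3, a0, a4, a5, a6, a7⟩ := step X x y1 1 hx hP hy1X
                (Or.inl rfl) (hneu y1 hy1)
              replace a4 := a4 (by rw [ha1]; linarith)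
              obtain ⟨x2, c1, c2, c3, c0, c4, c5, c6, c7⟩ := step (insert y1 X) x1 y2 (-1) a1 a4
                (by simp only [Finset.mem_insert, not_or]; exact ⟨hy12.symm, hy2X⟩)
                (Or.inr rfl) (a7 y2 (hind y1 hy1 y2 hy2) (hneu y2 hy2))
              replace c4 := c4 (by rw [a5, ha1, ha2]; linarith)
              rw [e]
              refine ⟨x2, c1, ?_, Or.inl ⟨c4, ?_⟩, ?_⟩
              · intro z hz; rw [c2 z (by simp [hz]), a2 z hz]
              · rw [c5, a5, ha1, ha2]; linarith
              · rw [c5, c6, a5, a6, ha1, ha2]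
                linarith

end Pool.Agent.Exact
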