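import Pool.Agent.Lib_helper68.Exact.PoT
import Pool.Agent.Lib_helper23.Exact.Glue

/-!
# The end of the path, an odd number of hubs of the first type, an even number of the second
-/

set_option autoImplicit false
set_option linter.unusedSectionVars false

namespace Pool.Agent.Exact

open Finset

variable {V : Type*} [Fintype V] [DecidableEq V]
variable {B : V → V → ℤ} {Rl : Finset V} {ℓ nQ nP : ℕ} {uq up : ℕ → V} {q p : ℕ → ℝ}
variable {k : ℤ} {θ : ℝ}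

/-- closing the end of the path -/
lemma EnI.close2 {a b : ℕ} {Db β M K t : ℝ} (hE : EnI B uq up a b Db β)
    (hst : StI B uq up (hb1 a b) M K t) (hK : 0 ≤ K) (h1 : Db + M + K ≤ θ)
    (h2 : Db + β + t + 2 * M ≤ 2 * θ) (h3 : β + M ≤ θ) : Val B θ := by
  obtain ⟨D, L, hL, hD, hDL, hv⟩ := hE
  refine (hv M K t hK hst).mono ?_
  rw [← max_add_add_left, ← max_add_add_left]
  refine max_le (max_le ?_ ?_) ?_ <;> linarith

/-- closing the end of the path, with a last vertex -/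
lemma Frame.closeOut2 (h : Frame B Rl ℓ nQ nP uq up q p) {a b : ℕ} {S : Finset V}
    {D1 β M K t : ℝ} (hbP : b ≤ nP) (haQ : a ≤ nQ) (hS : S ⊆ vs uq up (rr nQ nP a b))
    (hO : OutI B uq up a b S D1 β) (hCrS : CrSI B uq up p a b (D1 + 1) → Val B θ)
    (hst : StI B uq up (hb1 a b) M K t) (hK : 0 ≤ K) (h1 : D1 + 1 + M + K ≤ θ)
    (h2 : D1 + 1 + β + t + 2 * M ≤ 2 * θ) (h3 : β + M ≤ θ) : Val B θ := by
  rcases h.outI hbP haQ hS hO with h4 | h4
  · exact hCrS h4.toS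
  · exact h4.close2 hst hK h1 h2 h3

section
variable (h : Ctx B Rl ℓ nQ nP uq up q p k θ)
include h

/-- the arrangement `TE` -/
theorem Ctx.poTE {i j : ℕ} (hi : i < ℓ) (hj : j < ℓ) {S : Finset V} {g Y : ℤ}
    (hT2 : T2I B uq up (2 * i + 1) (2 * (j + 1)) S g Y) {z : ℝ} (hz0 : 0 ≤ z)
    (hS : ∀ v ∈ S, |((im B v : ℤ) : ℝ)| ≤ z) (hY : (Y : ℝ) ≤ z)
    (i1 : q (2 * i) - (p 0 - p (2 * j + 1)) ≤ θ + g - 2)
    (gP' : p 0 - p (2 * j + 1) ≤ q (2 * i)) (gQ : AA q i ≤ θ + g - 2)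
    (gE : p 0 - p (2 * j + 1) ≤ θ + g - 2)
    (hz : z + (2 - MM B (up (2 * j + 1)) (uq (2 * i))) ≤ θ + g)
    (ht : z + 4 + (q (2 * i) + AA q i - AA p (j + 1)) ≤ 2 * θ + 2 * g) : Val B θ := by
  have hl := h.fr.l2
  obtain ⟨q1, q2, q3, q4⟩ := h.fr.qgap hi
  obtain ⟨p1, p2, p3, p4⟩ := h.fr.pgap hj
  have e1 := AA_succ p j
  have e2 := h.fr.pa (i := 2 * j) (j := 2 * j + 1) (by omega) (by omega)
  have h2 : |p 0 - p (2 * j + 1) - q (2 * i)| = q (2 * i) - (p 0 - p (2 * j + 1)) := by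
    rw [abs_of_nonpos (by linarith)]; ring
  have hM : ((MM B (up 0) (uq (2 * i)) - MM B (up 0) (up (2 * j + 1)) -
    MM B (up (2 * j + 1)) (uq (2 * i)) : ℤ) : ℝ) ≤
      2 - MM B (up (2 * j + 1)) (uq (2 * i)) := by
    have h3 := h.MM2z (up 0) (uq (2 * i))
    have h4 := h.MM0z (up 0) (up (2 * j + 1))
    exact_mod_cast (by linarith : MM B (up 0) (uq (2 * i)) - MM B (up 0) (up (2 * j + 1)) -
      MM B (up (2 * j + 1)) (uq (2 * i)) ≤ 2 - MM B (up (2 * j + 1)) (uq (2 * i)))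
  have hN0 := h.MM0 (up (2 * j + 1)) (uq (2 * i))
  have hK0 : 0 ≤ θ + g - 2 := le_trans (abs_nonneg _) (h2.le.trans i1)
  refine hT2.close (M := 2 - MM B (up (2 * j + 1)) (uq (2 * i))) (K := θ + g - 2)
    (h.fr.tTE (K := θ + g - 2) i j hi hj
    (by rw [h2]; linarith) hM (fun l hl' => by have := q3 l hl'; linarith)
    (fun l hl' => by have := p4 l hl'; linarith)) hK0 hz0 hS hY (by linarith) hz ?_
  rw [h2]
  linarith

/-- the end of the path fails only because of the total -/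
theorem Ctx.tot (hnv : ¬ Val B θ) {i j : ℕ} (hi : i < ℓ) (hj : j < ℓ)
    (haQ : 2 * i + 1 ≤ nQ) (hbP : 2 * (j + 1) ≤ nP) {S : Finset V}
    (hS : S ⊆ vs uq up (rr nQ nP (2 * i + 1) (2 * (j + 1)))) {D1 β m : ℝ}
    (hO : OutI B uq up (2 * i + 1) (2 * (j + 1)) S D1 β)
    (hCrS : CrSI B uq up p (2 * i + 1) (2 * (j + 1)) (D1 + 1) → Val B θ)
    (m1 : q 0 - q (2 * i) - AA q i ≤ q 0 - θ + m) (m2 : p 0 - p (2 * j + 1) ≤ q 0 - θ + m)
    (hR : D1 + 1 + (q 0 - θ + m) ≤ θ) (hβ : β ≤ θ) :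
    2 * θ < D1 + 1 + β + (q 0 - q (2 * i) - AA q i + AA p (j + 1)) := by
  have hl := h.fr.l2
  obtain ⟨q1, q2, q3, q4⟩ := h.fr.qgap hi
  obtain ⟨p1, p2, p3, p4⟩ := h.fr.pgap hj
  have e1 := AA_succ p j
  have e2 := h.fr.pa (i := 2 * j) (j := 2 * j + 1) (by omega) (by omega)
  by_contra hc
  push Not at hc
  have hst := h.fr.aPure (K := q 0 - θ + m) i (j + 1) hi (by omega)
    (fun l hl' => by have := q4 l hl'; linarith) (fun l hl' => by
      rcases Nat.lt_succ_iff_lt_or_eq.1 hl' with h1 | h1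
      · have := p3 l h1; linarith
      · subst h1; linarith)
  exact hnv (h.fr.closeOut2 hbP haQ hS hO hCrS hst (by linarith) (by linarith) (by linarith)
    (by linarith))

/-- the total fails and all neutral vertices are small -/
theorem Ctx.poW (hnv : ¬ Val B θ) {i j : ℕ} (hi : i < ℓ) (hj : j < ℓ) {S : Finset V} {g Y : ℤ}
    (hT2 : T2I B uq up (2 * i + 1) (2 * (j + 1)) S g Y) {z D1 : ℝ} (hz0 : 0 ≤ z)
    (hS : ∀ v ∈ S, |((im B v : ℤ) : ℝ)| ≤ z) (hY : (Y : ℝ) ≤ z)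
    (hT : θ < D1 + 1 + (q 0 - q (2 * i) - AA q i + AA p (j + 1)))
    (gP' : p 0 - p (2 * j + 1) ≤ q (2 * i)) (gQ : AA q i ≤ θ + g - 2)
    (gE : p 0 - p (2 * j + 1) ≤ θ + g - 2) (hR3 : D1 + q 0 + 3 ≤ 2 * θ + g) (hz : z + 2 ≤ θ + g)
    (hz5 : z + 5 + D1 + q 0 ≤ 3 * θ + 2 * g) : False := by
  have hl := h.fr.l2
  obtain ⟨q1, q2, q3, q4⟩ := h.fr.qgap hi
  obtain ⟨p1, p2, p3, p4⟩ := h.fr.pgap hj
  have e1 := AA_succ p j
  have hN0 := h.MM0 (up (2 * j + 1)) (uq (2 * i))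
  exact hnv (h.poTE hi hj hT2 hz0 hS hY (by linarith) gP' gQ gE (by linarith) (by linarith))

/-- the total fails and there is a large bound for the neutral vertices -/
theorem Ctx.poD (hnv : ¬ Val B θ) {i j : ℕ} (hi : i < ℓ) (hj : j < ℓ)
    (haQ : 2 * i + 1 ≤ nQ) (hbP : 2 * (j + 1) ≤ nP) (hpq : p 0 ≤ q 0) {S : Finset V} {g Y : ℤ}
    (hSR : S ⊆ vs uq up (rr nQ nP (2 * i + 1) (2 * (j + 1)))) {D1 m X Z : ℝ}
    (hT2 : T2I B uq up (2 * i + 1) (2 * (j + 1)) S g Y)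
    (hO : OutI B uq up (2 * i + 1) (2 * (j + 1)) S D1 (D1 + q 0 - X))
    (hCrS : CrSI B uq up p (2 * i + 1) (2 * (j + 1)) (D1 + 1) → Val B θ)
    (hm : 0 ≤ m) (hE : q 0 - q (2 * i) - AA q i ≤ q 0 - θ + m)
    (m1 : θ - m ≤ q (2 * i)) (m2 : θ - m ≤ p (2 * j + 1))
    (hR : D1 + 1 + (q 0 - θ + m) ≤ θ) (hR3 : D1 + q 0 + 3 ≤ 2 * θ)
    (hX : D1 + q 0 - X ≤ θ) (hg : (1 : ℝ) ≤ g)
    (gP' : p 0 - p (2 * j + 1) ≤ q (2 * i)) (gE : p 0 - p (2 * j + 1) ≤ θ + g - 2)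
    (hZ0 : 0 ≤ Z) (hZX : Z ≤ X) (hYZ : (Y : ℝ) ≤ Z)
    (hSZ : ∀ v ∈ S, |((im B v : ℤ) : ℝ)| ≤ Z) : False := by
  have hl := h.fr.l2
  obtain ⟨q1, q2, q3, q4⟩ := h.fr.qgap hi
  obtain ⟨p1, p2, p3, p4⟩ := h.fr.pgap hj
  have e1 := AA_succ p j
  have e2 := h.fr.pa (i := 2 * j) (j := 2 * j + 1) (by omega) (by omega)
  have hN0 := h.MM0 (up (2 * j + 1)) (uq (2 * i))
  have hN2 := h.MM2 (up (2 * j + 1)) (uq (2 * i))
  have hT := h.tot hnv hi hj haQ hbP hSR hO hCrS hE (by linarith) hR hX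
  obtain ⟨N, hN⟩ : ∃ N : ℝ, N = MM B (up (2 * j + 1)) (uq (2 * i)) := ⟨_, rfl⟩
  rw [← hN] at hN0 hN2
  rcases le_or_gt (Z + (2 - N)) (θ + g) with h1 | h1
  · exact hnv (h.poTE hi hj hT2 hZ0 hSZ hYZ (by linarith) gP' (by linarith) gE
      (by rw [← hN]; linarith) (by linarith))
  · rcases Nat.eq_zero_or_pos i with h0 | h0
    · subst h0
      rw [AA_zero, Nat.mul_zero] at hT
      linarith
    · obtain ⟨i, rfl⟩ : ∃ m, i = m + 1 := ⟨i - 1, by omega⟩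
      have f0 := h.fr.qgA (i := 0) (l := 0) (j := i + 1) le_rfl (by omega) (by omega)
      have f1 : AA q 1 = q 0 - q 1 := by
        have := AA_succ q 0
        rw [AA_zero] at this
        simp only [Nat.mul_zero, zero_add] at this
        rw [this]
      rw [AA_zero] at f0
      simp only [Nat.mul_zero, zero_add] at f0
      have f2 := h.fr.qa (i := 0) (j := 1) (by omega) (by omega)
      have b0 : q 0 - p 0 ≤ q 0 - θ + m - AA p (j + 1) := by linarith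
      have b3 : AA q (i + 1) ≤ θ - D1 - 3 - N := by linarith
      have b4 : q 0 - p 0 ≤ θ - D1 - 3 - N := by linarith
      have b5 : q (2 * (i + 1)) - θ + m ≤ θ - D1 - 3 - N := by linarith
      have b6 : p (2 * j + 1) - q (2 * (i + 1)) ≤ θ - D1 - 3 - N := by linarith
      have c1 : |q 1 - p 0| ≤ θ - D1 - 3 - N := abs_le.2 ⟨by linarith, by linarith⟩
      have c2 : |q (2 * (i + 1)) - p (2 * j + 1)| ≤ θ - D1 - 3 - N :=
        abs_le.2 ⟨by linarith, by linarith⟩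
      have hst := h.fr.aTwo (K := θ - D1 - 3 - N) i j hi hj c1 c2
        (fun l _ hl' => by have := q3 l hl'; linarith)
        (fun l hl' => by have := p4 l hl'; linarith)
      have hM1 := h.MM2 (uq 1) (up 0)
      have hMN : ((MM B (uq (2 * (i + 1))) (up (2 * j + 1)) : ℤ) : ℝ) = N := by
        rw [hN, MM_comm]
      rw [hMN] at hst
      refine hnv (h.fr.closeOut2 hbP haQ hSR hO hCrS
        (hst.mono (M' := 2 + N) (by linarith) le_rfl le_rfl)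
        (le_trans (abs_nonneg _) c1) (by linarith) ?_ (by linarith))
      rcases le_or_gt 0 (q 1 - p 0) with h2 | h2 <;>
        rcases le_or_gt 0 (q (2 * (i + 1)) - p (2 * j + 1)) with h3 | h3
      · rw [abs_of_nonneg h2, abs_of_nonneg h3]
        linarith
      · rw [abs_of_nonneg h2, abs_of_neg h3]
        linarith
      · rw [abs_of_neg h2, abs_of_nonneg h3]
        linarith
      · rw [abs_of_neg h2, abs_of_neg h3]
        linarith

end
end Pool.Agent.Exact
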