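import Pool.Agent.Lib_helper68.Exact.PoE
import Pool.Agent.Lib_helper68.Exact.NumPo4

/-!
# The first statement T1 does not fail because of an item: hubs of both types, first type outgoing
-/

set_option autoImplicit false
set_option linter.unusedSectionVars false

namespace Pool.Agent.Exact

open Finset

variable {V : Type*} [Fintype V] [DecidableEq V]
variable {B : V → V → ℤ} {Rl : Finset V} {ℓ nQ nP : ℕ} {uq up : ℕ → V} {q p : ℕ → ℝ}
variable {k : ℤ} {θ : ℝ}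

/-- the first term and the lower bound of the others -/
lemma sum_first (f : ℕ → ℝ) (m : ℕ) (hf : ∀ l ≤ m, f m ≤ f l) :
    f 0 + m * f m ≤ ∑ l ∈ range (m + 1), f l := by
  rw [Finset.sum_range_succ', add_comm]
  have h1 : ∑ _l ∈ range m, f m ≤ ∑ l ∈ range m, f (l + 1) := by
    refine Finset.sum_le_sum fun l hl => ?_
    have := Finset.mem_range.1 hl
    exact hf (l + 1) (by omega)
  rw [Finset.sum_const, nsmul_eq_mul, Finset.card_range] at h1
  linarith

/-- the sum of pairs -/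
lemma sum_pairs (f : ℕ → ℝ) (j : ℕ) {c : ℝ} (hf : ∀ l ≤ j, c ≤ f (2 * l) + f (2 * l + 1)) :
    (j + 1) * c ≤ ∑ l ∈ range (2 * (j + 1)), f l := by
  induction j with
  | zero =>
    rw [show 2 * (0 + 1) = 1 + 1 by norm_num, Finset.sum_range_succ, Finset.sum_range_one]
    have := hf 0 le_rfl
    simp only [Nat.mul_zero, zero_add] at this
    push_cast
    linarith
  | succ j ih =>
    rw [show 2 * (j + 1 + 1) = 2 * (j + 1) + 1 + 1 by ring, Finset.sum_range_succ,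
      Finset.sum_range_succ]
    have h1 := ih fun l hl => hf l (by omega)
    have h2 := hf (j + 1) le_rfl
    push_cast
    linarith

section
variable (h : Ctx B Rl ℓ nQ nP uq up q p k θ)
include h

/-- the arrangements if the hubs of the first type are high -/
theorem Ctx.poHigh (hn : 2 * k - 1 ≤ (Rl.card : ℤ)) (hpq : p 0 ≤ q 0) {i j : ℕ} (hi : i < ℓ)
    (hj : j < ℓ) {S : Finset V} {g Y : ℤ} (k4 : 4 ≤ k)
    (hT2 : T2I B uq up (2 * i + 1) (2 * (j + 1)) S g Y) {NB G : ℝ}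
    (hz0 : 0 ≤ (Rl.card : ℝ) - 1 - θ - NB)
    (hS : ∀ v ∈ S, |((im B v : ℤ) : ℝ)| ≤ (Rl.card : ℝ) - 1 - θ - NB)
    (hY : (Y : ℝ) ≤ (Rl.card : ℝ) - 1 - θ - NB)
    (hq : θ + g < q (2 * i)) (hp : θ - 2 < p (2 * j + 1)) (hp0 : p 0 ≤ Rl.card - 1 - k)
    (hq0 : q 0 ≤ Rl.card - 1) (hG : G ≤ g) (g1 : 1 ≤ g) (hNB : 0 ≤ NB + g)
    (hC1 : p (2 * j) + p (2 * j + 1) + 4 < 2 * θ + 2 * G)
    (hO : (6 ≤ (2 * θ - Rl.card - 1) + 2 + NB + g ∧
      G + 6 ≤ (2 * θ - Rl.card - 1) + 2 + NB + 2 * g ∧ 4 ≤ (2 * θ - Rl.card - 1) + 2 * g ∧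
      8 ≤ 2 * (2 * θ - Rl.card - 1) + (Rl.card + 1 - k - θ) + k + g) ∨
      (q 0 - θ + 4 ≤ (2 * θ - Rl.card - 1) + 2 + NB + 2 * g ∧
        q 0 - θ + 4 ≤ (2 * θ - Rl.card - 1) + (Rl.card + 1 - k - θ) + k + g)) : Val B θ := by
  have hl := h.fr.l2
  have hlam := h.lam2 hn
  have e2 := h.fr.pa (i := 2 * j) (j := 2 * j + 1) (by omega) (by omega)
  have k4r : (4 : ℝ) ≤ k := by exact_mod_cast k4
  have g1r : (1 : ℝ) ≤ g := by exact_mod_cast g1
  rcases hO with ⟨o1, o2, o3, o4⟩ | ⟨o1, o2⟩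
  · have μg : 2 ≤ (2 * θ - Rl.card - 1) + (g : ℝ) := by
      rcases (show g = 1 ∨ 2 ≤ g by omega) with g2 | g2
      · rw [g2] at o3 ⊢
        push_cast at o3 ⊢
        linarith
      · have : (2 : ℝ) ≤ g := by exact_mod_cast g2
        linarith
    rcases le_or_gt (p (2 * j) + p (2 * j + 1) + 6) (q 0 + θ + g) with h1 | h1
    · exact h.poG hi hj hT2 hz0 hS hY (by linarith) (by linarith) (by linarith) (by linarith)
        (by linarith) (by linarith) (by linarith) h1 (by linarith) (by linarith)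
    · exact h.poB hi hj hT2 hz0 hS hY hpq (by linarith) (by linarith) (by linarith)
        (by linarith) (by linarith) (by linarith) (by linarith)
  · exact h.poB hi hj hT2 hz0 hS hY hpq (by linarith) (by linarith) (by linarith)
      (by linarith) (by linarith) (by linarith) (by linarith)

variable {Rs S : Finset V} {g : ℤ} {Kc : V → Finset V} {pick : Finset V → V}

/-- the arithmetic structure in the case of a failing item -/
theorem Ctx.poPoU (hn : 2 * k - 1 ≤ (Rl.card : ℤ)) (hout : ∀ v ∈ Rl, k ≤ ∑ u, B v u)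
    {i j : ℕ} (hi : i < ℓ) (hj : j < ℓ) (haQ : 2 * i + 1 ≤ nQ) (hbP : 2 * (j + 1) ≤ nP)
    (hd : Dec B pick (vs uq up (rr nQ nP (2 * i + 1) (2 * (j + 1)))) Rs S g Kc)
    (hpick : ∀ K : Finset V, K.Nonempty → pick K ∈ K ∧ ∀ u ∈ K, indg B K (pick K) ≤ indg B K u)
    {u : ℝ} (hq0 : 0 < q 0) (hu : θ + u ≤ q (2 * i)) (hv : θ - 2 ≤ p (2 * j + 1))
    (hΓ : ((Gam B (uq 0) S : ℤ) : ℝ) < q 0 - θ - g) :
    PoU k ((2 * (j + 1) : ℕ) - (2 * i + 1 : ℕ) - 1) (k - (2 * (j + 1) : ℕ))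
      (Rl.card + 1 - k - θ) (2 * θ - Rl.card - 1) (Rs.card / 2) (q 0 - θ)
      (∑ l ∈ range (2 * (j + 1)), p l - (2 * (j + 1) : ℕ) * (θ - 2)) u := by
  have hl := h.fr.l2
  have hlam := h.lam2 hn
  have hθ3 := h.θ3 hn
  have c := h.cntO hout (a := 2 * i + 1) (b := 2 * (j + 1)) (by omega) haQ hbP hd hpick
  have hcg : (Rs.card : ℝ) ≤ 2 * (g : ℝ) := by exact_mod_cast hd.cg
  have hqn := h.qle (i := 0) (by omega) hq0
  have hpp : ∀ l < 2 * (j + 1), p (2 * j + 1) ≤ p l := fun l hl' =>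
    h.fr.pa (i := l) (j := 2 * j + 1) (by omega) (by omega)
  have hpn : ∀ l < 2 * (j + 1), p l ≤ Rl.card - 1 - k := fun l hl' =>
    h.pleK hout (by omega) (by have := hpp l hl'; linarith)
  have c' : CntO k θ Rl.card (((2 * i + 1 : ℕ) : ℤ) : ℝ) (((2 * (j + 1) : ℕ) : ℤ) : ℝ) Rs.card
      S.card (Gam B (uq 0) S) (q 0) (∑ l ∈ range (2 * i + 1), q l)
      (∑ l ∈ range (2 * (j + 1)), p l) := by simpa only [Int.cast_natCast] using c
  have hS1 : ∑ l ∈ range (2 * (j + 1)), p l ≤ (2 * (j + 1) : ℕ) * ((Rl.card : ℝ) - 1 - k) := by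
    have h1 : ∑ l ∈ range (2 * (j + 1)), p l ≤
        ∑ _l ∈ range (2 * (j + 1)), ((Rl.card : ℝ) - 1 - k) :=
      Finset.sum_le_sum fun l hl' => hpn l (Finset.mem_range.1 hl')
    rwa [Finset.sum_const, nsmul_eq_mul, Finset.card_range] at h1
  have hS2 : (2 * (j + 1) : ℕ) * (θ - 2) ≤ ∑ l ∈ range (2 * (j + 1)), p l := by
    have h1 : ∑ _l ∈ range (2 * (j + 1)), (θ - 2) ≤ ∑ l ∈ range (2 * (j + 1)), p l :=
      Finset.sum_le_sum fun l hl' => by
        have := hpp l (Finset.mem_range.1 hl')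
        linarith
    rwa [Finset.sum_const, nsmul_eq_mul, Finset.card_range] at h1
  have hS3 := sum_first q (2 * i) fun l hl' => h.fr.qa (i := l) (j := 2 * i) hl' (by omega)
  have h2 := hpn (2 * j + 1) (by omega)
  have hi0 : (0 : ℝ) ≤ ((2 * i : ℕ) : ℝ) := Nat.cast_nonneg _
  have hS4 : ((2 * i : ℕ) : ℝ) * (θ + u) ≤ ((2 * i : ℕ) : ℝ) * q (2 * i) :=
    mul_le_mul_of_nonneg_left hu hi0
  have key := c'.poU (g := g) (u := u) h.k3 (by push_cast; omega) (by push_cast; omega)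
    (Nat.cast_nonneg _) (Nat.cast_nonneg _) hcg (by linarith) (by linarith) hqn
    (by push_cast at hS3 hS4 ⊢; linarith) (by exact_mod_cast hS2) (by exact_mod_cast hS1)
    (by linarith)
  simpa only [Int.cast_natCast] using key

end
end Pool.Agent.Exact
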