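import Pool.Agent.Lib_helper68.Exact.PoT1

/-!
# No crossing, hubs of both types, an odd number of the first, minimum outdegree at least `k`:
nonempty set `Rs`
-/

set_option autoImplicit false
set_option linter.unusedSectionVars false

namespace Pool.Agent.Exact

open Finset

variable {V : Type*} [Fintype V] [DecidableEq V]
variable {B : V → V → ℤ} {Rl : Finset V} {ℓ nQ nP : ℕ} {uq up : ℕ → V} {q p : ℕ → ℝ}
variable {k : ℤ} {θ : ℝ}

section
variable (h : Ctx B Rl ℓ nQ nP uq up q p k θ)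
include h

variable {Rs S : Finset V} {g : ℤ} {Kc : V → Finset V} {pick : Finset V → V}

/-- the two lowest hubs of the second type -/
lemma Ctx.poC1 {j : ℕ} (hj : j < ℓ) {G : ℝ}
    (hw : ∑ l ∈ range (2 * (j + 1)), p l - ((2 * (j + 1) : ℕ) : ℝ) * (θ - 2) <
      ((2 * (j + 1) : ℕ) : ℝ) * G) :
    p (2 * j) + p (2 * j + 1) + 4 < 2 * θ + 2 * G := by
  have h1 := sum_pairs p j (c := p (2 * j) + p (2 * j + 1)) fun l hl => by
    have h2 := h.fr.pa (i := 2 * l) (j := 2 * j) (by omega) (by omega)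
    have h3 := h.fr.pa (i := 2 * l + 1) (j := 2 * j + 1) (by omega) (by omega)
    linarith
  push_cast at hw
  have h2 : ((j : ℝ) + 1) * (p (2 * j) + p (2 * j + 1) + 4) < (j + 1) * (2 * θ + 2 * G) := by
    linarith
  exact lt_of_mul_lt_mul_left h2 (by positivity)

/-- the item fails and the hubs of the first type are high -/
theorem Ctx.poNeHigh (hn : 2 * k - 1 ≤ (Rl.card : ℤ)) (hnv : ¬ Val B θ) (hpq : p 0 ≤ q 0)
    (hout : ∀ v ∈ Rl, k ≤ ∑ u, B v u) {i j : ℕ} (hi : i < ℓ) (hj : j < ℓ)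
    (haQ : 2 * i + 1 ≤ nQ) (hbP : 2 * (j + 1) ≤ nP)
    (hd : Dec B pick (vs uq up (rr nQ nP (2 * i + 1) (2 * (j + 1)))) Rs S g Kc)
    (hpick : ∀ K : Finset V, K.Nonempty → pick K ∈ K ∧ ∀ u ∈ K, indg B K (pick K) ≤ indg B K u)
    (hRs : Rs.Nonempty) {Y nb : ℤ} (hnb : 1 ≤ nb) (hcard : (Rs.card : ℤ) ≤ g + nb)
    (hT2 : T2I B uq up (2 * i + 1) (2 * (j + 1)) S g Y) (hq0 : 0 < q 0)
    (hq : θ + g < q (2 * i)) (hv : θ - 2 < p (2 * j + 1))
    (hΓ : ((Gam B (uq 0) S : ℤ) : ℝ) < q 0 - θ - g) {NB : ℝ}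
    (hNB : ((nb : ℝ) - 1 ≤ NB ∧ (nb ≤ k - 2 → (nb : ℝ) ≤ NB)) ∨
      ((nb : ℝ) - 1 ≤ NB ∧ θ ≤ p (2 * j + 1)) ∨
      (nb = 1 ∧ θ ≤ p (2 * j + 1) ∧
        (0 ≤ NB ∨ (NB = -1 ∧ q 0 = Rl.card - 2) ∨ (NB = -2 ∧ q 0 = Rl.card - 1))))
    (hz0 : 0 ≤ (Rl.card : ℝ) - 1 - θ - NB)
    (hS : ∀ v ∈ S, |((im B v : ℤ) : ℝ)| ≤ (Rl.card : ℝ) - 1 - θ - NB)
    (hY : (Y : ℝ) ≤ (Rl.card : ℝ) - 1 - θ - NB) : False := by
  have hl := h.fr.l2
  have hθ3 := h.θ3 hn
  have hU := h.poPoU hn hout hi hj haQ hbP hd hpick (u := g) hq0 hq.le hv.le hΓ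
  have hcg : (Rs.card : ℝ) ≤ 2 * (g : ℝ) := by exact_mod_cast hd.cg
  have hP := hU.toPo (by linarith)
  have hdp : (((2 * (j + 1) : ℕ) : ℤ) - (2 * i + 1 : ℕ) - 1) % 2 = 0 := by push_cast; omega
  have hjp : (k - (k - ((2 * (j + 1) : ℕ) : ℤ))) % 2 = 0 := by push_cast; omega
  have k4 := hP.k4 hdp hjp
  have hC := hP.C1 hdp
  have c1 : 1 ≤ (Rs.card : ℤ) := by
    have := Finset.card_pos.2 hRs
    exact_mod_cast this
  have g1 : 1 ≤ g := by
    have := hd.cg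
    omega
  have hC1 := h.poC1 hj (θ := θ) (G := Rs.card / 2) (by push_cast at hC ⊢; linarith)
  have hp0 : p 0 ≤ Rl.card - 1 - k := by
    refine h.pleK hout (by omega) ?_
    have := h.fr.pa (i := 0) (j := 2 * j + 1) (by omega) (by omega)
    linarith
  have hqn := h.qle (i := 0) (by omega) hq0
  have hnbr : (1 : ℝ) ≤ nb := by exact_mod_cast hnb
  have hg1 : (1 : ℝ) ≤ g := by exact_mod_cast g1
  have hGe : ((Rs.card : ℝ) / 2) = (((Rs.card : ℤ) : ℝ) / 2) := by push_cast; ring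
  have hw2 : θ ≤ p (2 * j + 1) → 2 * ((k : ℝ) - ((k - ((2 * (j + 1) : ℕ) : ℤ) : ℤ) : ℝ)) ≤
      ∑ l ∈ range (2 * (j + 1)), p l - (2 * (j + 1) : ℕ) * (θ - 2) := by
    intro hp
    have h1 : ∑ _l ∈ range (2 * (j + 1)), θ ≤ ∑ l ∈ range (2 * (j + 1)), p l :=
      Finset.sum_le_sum fun l hl' => by
        have := h.fr.pa (i := l) (j := 2 * j + 1) (by have := Finset.mem_range.1 hl'; omega)
          (by omega)
        linarith
    rw [Finset.sum_const, nsmul_eq_mul, Finset.card_range] at h1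
    push_cast at h1 ⊢
    linarith
  rcases hNB with ⟨n1, n2⟩ | ⟨n1, n2⟩ | ⟨n1, n2, n3⟩
  · have hO := hP.out hdp hjp hGe c1 hd.cg hcard hnb n1 n2
    refine hnv (h.poHigh hn hpq hi hj k4 hT2 hz0 hS hY hq hv hp0 hqn (G := Rs.card / 2)
      (by linarith) g1 (by linarith) hC1 ?_)
    rcases hO with ⟨o1, o2, o3, o4⟩ | ⟨o1, o2⟩
    · exact Or.inl ⟨by linarith, by linarith, by linarith, by linarith⟩
    · exact Or.inr ⟨by linarith, by linarith⟩
  · obtain ⟨o1, o2, o3, o4⟩ := hP.outc hdp hjp hGe hd.cg hcard n1 (hw2 n2)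
    exact hnv (h.poHigh hn hpq hi hj k4 hT2 hz0 hS hY hq hv hp0 hqn (G := Rs.card / 2)
      (by linarith) g1 (by linarith) hC1
      (Or.inl ⟨by linarith, by linarith, by linarith, by linarith⟩))
  · rw [n1] at hcard
    obtain ⟨o1, o2, o3, o4⟩ := hP.outc1 hdp hjp (NB := NB) hGe hd.cg hcard (hw2 n2) (by
      rcases n3 with n3 | ⟨n3, n4⟩ | ⟨n3, n4⟩
      · exact Or.inl n3
      · exact Or.inr (Or.inl ⟨n3, by linarith⟩)
      · exact Or.inr (Or.inr ⟨n3, by linarith⟩))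
    have hcr : (Rs.card : ℝ) ≤ g + 1 := by exact_mod_cast hcard
    have hC5 : 0 ≤ NB + g := by
      rcases n3 with n3 | ⟨n3, n4⟩ | ⟨n3, n4⟩
      · linarith
      · linarith
      · -- `g ≥ 2`
        have h5 : (2 : ℝ) < (Rs.card : ℝ) / 2 := by
          have h6 := hw2 n2
          have h7 : ((k : ℝ) - ((k - ((2 * (j + 1) : ℕ) : ℤ) : ℤ) : ℝ)) * 2 <
              (k - ((k - ((2 * (j + 1) : ℕ) : ℤ) : ℤ) : ℝ)) * (Rs.card / 2) := by linarith
          refine lt_of_mul_lt_mul_left h7 ?_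
          push_cast
          have : (0 : ℝ) ≤ j := Nat.cast_nonneg _
          linarith
        linarith
    exact hnv (h.poHigh hn hpq hi hj k4 hT2 hz0 hS hY hq hv hp0 hqn (G := Rs.card / 2)
      (by linarith) g1 hC5 hC1
      (Or.inl ⟨by linarith, by linarith, by linarith, by linarith⟩))

end
end Pool.Agent.Exact
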