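import Pool.Agent.Lib_helper68.Exact.PoNC2

/-!
# No crossing, hubs of both types, an odd number of the first, minimum outdegree at least `k`:
the leaves 1c and 3b with nonempty `Rs`
-/

set_option autoImplicit false
set_option linter.unusedSectionVars false

namespace Pool.Agent.Exact

open Finset

variable {V : Type*} [Fintype V] [DecidableEq V]
variable {B : V → V → ℤ} {Rl : Finset V} {ℓ nQ nP : ℕ} {uq up : ℕ → V} {q p : ℕ → ℝ}
variable {k : ℤ} {θ : ℝ}

/-- a consequence of the counting fact `D` -/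
lemma CntO.Dy {k a b : ℤ} {θ n ρ σ Γ q0 SQ SP : ℝ} (c : CntO k θ n a b ρ σ Γ q0 SQ SP)
    (a1 : 1 ≤ a) (hθ : n + 1 ≤ 2 * θ) (hK : θ + k ≤ n + 1) (hy : θ < q0)
    (hSQ : q0 + (a - 1) * θ ≤ SQ) :
    a ≤ k - 2 ∧ q0 - θ + 2 * (n + 1 - k - θ) ≤ (k - 2) * (2 * θ - n - 1) := by
  have h2 := c.D
  have a1r : (1 : ℝ) ≤ a := by exact_mod_cast a1
  have h3 : (q0 - θ) + (a + 1) * (n + 1 - k - θ) ≤ (k - 1 - a) * (2 * θ - n - 1) := by linarith
  have h4 : a ≤ k - 2 := by
    by_contra hc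
    push Not at hc
    have hc' : (k : ℝ) - 1 ≤ a := by exact_mod_cast (by omega : k - 1 ≤ a)
    have h5 : ((k : ℝ) - 1 - a) * (2 * θ - n - 1) ≤ 0 :=
      mul_nonpos_of_nonpos_of_nonneg (by linarith) (by linarith)
    have h6 : 0 ≤ ((a : ℝ) + 1) * (n + 1 - k - θ) := mul_nonneg (by linarith) (by linarith)
    linarith
  refine ⟨h4, ?_⟩
  have h5 : ((k : ℝ) - 1 - a) * (2 * θ - n - 1) ≤ (k - 2) * (2 * θ - n - 1) :=
    mul_le_mul_of_nonneg_right (by linarith) (by linarith)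
  have h6 : 2 * (n + 1 - k - θ) ≤ ((a : ℝ) + 1) * (n + 1 - k - θ) :=
    mul_le_mul_of_nonneg_right (by linarith) (by linarith)
  linarith

section
variable (h : Ctx B Rl ℓ nQ nP uq up q p k θ)
include h

variable {Rs S : Finset V} {g : ℤ} {Kc : V → Finset V} {pick : Finset V → V}

/-- a consequence of the counting fact `D`, high hubs of the first type -/
lemma Ctx.poDy (hn : 2 * k - 1 ≤ (Rl.card : ℤ)) (hout : ∀ v ∈ Rl, k ≤ ∑ u, B v u)
    {i j : ℕ} (hi : i < ℓ) (haQ : 2 * i + 1 ≤ nQ) (hbP : 2 * (j + 1) ≤ nP)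
    (hd : Dec B pick (vs uq up (rr nQ nP (2 * i + 1) (2 * (j + 1)))) Rs S g Kc)
    (hpick : ∀ K : Finset V, K.Nonempty → pick K ∈ K ∧ ∀ u ∈ K, indg B K (pick K) ≤ indg B K u)
    (hu : θ < q (2 * i)) (hK : θ + k ≤ Rl.card + 1) :
    ((2 * i + 1 : ℕ) : ℤ) ≤ k - 2 ∧
      q 0 - θ + 2 * (Rl.card + 1 - k - θ) ≤ (k - 2) * (2 * θ - Rl.card - 1) := by
  have hl := h.fr.l2
  have hlam := h.lam2 hn
  have c := h.cntO hout (a := 2 * i + 1) (b := 2 * (j + 1)) (by omega) haQ hbP hd hpick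
  have c' : CntO k θ Rl.card (((2 * i + 1 : ℕ) : ℤ) : ℝ) (((2 * (j + 1) : ℕ) : ℤ) : ℝ) Rs.card
      S.card (Gam B (uq 0) S) (q 0) (∑ l ∈ range (2 * i + 1), q l)
      (∑ l ∈ range (2 * (j + 1)), p l) := by simpa only [Int.cast_natCast] using c
  have hS3 := sum_first q (2 * i) fun l hl' => h.fr.qa (i := l) (j := 2 * i) hl' (by omega)
  have hi0 : (0 : ℝ) ≤ ((2 * i : ℕ) : ℝ) := Nat.cast_nonneg _
  have hS4 : ((2 * i : ℕ) : ℝ) * θ ≤ ((2 * i : ℕ) : ℝ) * q (2 * i) :=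
    mul_le_mul_of_nonneg_left hu.le hi0
  have hq := h.fr.qa (i := 0) (j := 2 * i) (by omega) (by omega)
  exact c'.Dy (by push_cast; omega) (by linarith) hK (by linarith)
    (by push_cast at hS3 hS4 ⊢; linarith)

/-- leaf 1c, nonempty `Rs` -/
theorem Ctx.po1cNe (hn : 2 * k - 1 ≤ (Rl.card : ℤ)) (hnv : ¬ Val B θ) (hpq : p 0 ≤ q 0)
    (hout : ∀ v ∈ Rl, k ≤ ∑ u, B v u) {i j : ℕ} (hi : i < ℓ) (hj : j + 1 < ℓ)
    (hD : θ < q (2 * i) - q (2 * i + 1)) (hE : θ < p (2 * j + 1))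
    (hp2 : p (2 * (j + 1)) < q (2 * i) - q (2 * i + 1) - θ + 2)
    (hC : Closed B nQ nP uq up q p θ (2 * i + 1) (2 * (j + 1)))
    (hd : Dec B pick (vs uq up (rr nQ nP (2 * i + 1) (2 * (j + 1)))) Rs S g Kc)
    (hpick : ∀ K : Finset V, K.Nonempty → pick K ∈ K ∧ ∀ u ∈ K, indg B K (pick K) ≤ indg B K u)
    (hRs : Rs.Nonempty) {Y nb cR : ℤ} (hY : 0 ≤ Y) (hnb : 1 ≤ nb)
    (hcard : (Rs.card : ℤ) ≤ g + nb)
    (hcR : (cR : ℝ) = cRr B nQ nP uq up (2 * i + 1) (2 * (j + 1)))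
    (hT2 : T2I B uq up (2 * i + 1) (2 * (j + 1)) S g Y)
    (hT1 : CrI B uq up q p (2 * i + 1) (2 * (j + 1)) ((max 0 (cR - 1) : ℤ) : ℝ) ∨
      EndI B uq up (q 0) (2 * i + 1) (2 * (j + 1)) S g Y nb cR 1) : False := by
  have hl := h.fr.l2
  have hθ3 := h.θ3 hn
  have hlam := h.lam2 hn
  have hq1 := h.fr.qn (i := 2 * i + 1) (by omega)
  have haQ := hC.aQ
  have hbP := hC.bP
  have hqa := h.fr.qa (i := 0) (j := 2 * i) (by omega) (by omega)
  have hq0 : 0 < q 0 := by linarith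
  have hqn := h.qle (i := 0) (by omega) hq0
  have hpa := h.fr.pa (i := 0) (j := 2 * j + 1) (by omega) (by omega)
  have hp0 : p 0 ≤ Rl.card - 1 - k := h.pleK hout (by omega) (by linarith)
  have hpj : p (2 * j + 1) ≤ Rl.card - 1 - k := h.pleK hout (by omega) (by linarith)
  have hcR' := h.cR hC.a1 haQ hbP
  rw [← hcR] at hcR'
  have k3r := h.k3r
  have c1 : 1 ≤ (Rs.card : ℤ) := by
    have := Finset.card_pos.2 hRs
    exact_mod_cast this
  have g1 : 1 ≤ g := by
    have := hd.cg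
    omega
  have g1r : (1 : ℝ) ≤ g := by exact_mod_cast g1
  have hnbr : (1 : ℝ) ≤ nb := by exact_mod_cast hnb
  have hSR : S ⊆ vs uq up (rr nQ nP (2 * i + 1) (2 * (j + 1))) := by
    rw [← hd.un]
    exact Finset.subset_union_right
  rcases hT1 with hT1 | hT1
  · refine hnv (hC.cr _ ?_ hT1)
    rw [← hcR]
    push_cast
    exact le_rfl
  obtain ⟨i1, i2, i3⟩ := h.fr.qgap hi
  rcases (show nb = 1 ∨ 2 ≤ nb by omega) with hnb1 | hnb2
  · -- one block
    obtain ⟨z, hz0, hz⟩ := h.zeta (i := 0) (by omega) hq0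
    obtain ⟨d1, d2⟩ := h.poDy hn hout hi haQ hbP hd hpick (by linarith) (by linarith)
    have k5 : 3 ≤ k := by push_cast at d1; omega
    obtain ⟨NB, m1, m2, m3⟩ : ∃ NB : ℝ, NB ≤ 1 ∧ -2 ≤ NB ∧
        (0 ≤ NB ∨ (NB = -1 ∧ q 0 = Rl.card - 2) ∨ (NB = -2 ∧ q 0 = Rl.card - 1)) ∧
        q 0 - θ + 2 ≤ (Rl.card : ℝ) - 1 - θ - NB := by
      rcases (show z = 0 ∨ z = 1 ∨ 2 ≤ z by omega) with z1 | z1 | z1
      · rw [z1] at hz
        push_cast at hz
        exact ⟨-2, by norm_num, by norm_num, Or.inr (Or.inr ⟨rfl, by linarith⟩), by linarith⟩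
      · rw [z1] at hz
        push_cast at hz
        exact ⟨-1, by norm_num, by norm_num, Or.inr (Or.inl ⟨rfl, by linarith⟩), by linarith⟩
      · have z1r : (2 : ℝ) ≤ z := by exact_mod_cast z1
        exact ⟨0, by norm_num, by norm_num, Or.inl le_rfl, by linarith⟩
    obtain ⟨m3, m4⟩ := m3
    have μ1 : NB = -2 → 1 ≤ 2 * θ - (Rl.card : ℝ) - 1 := by
      intro h5
      rcases m3 with h6 | ⟨h6, _⟩ | ⟨_, h6⟩
      · linarith
      · linarith
      · by_contra hc
        push Not at hc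
        have k5r : (3 : ℝ) ≤ k := by exact_mod_cast k5
        have h7 : ((k : ℝ) - 2) * (2 * θ - Rl.card - 1) ≤ (k - 2) * 1 :=
          mul_le_mul_of_nonneg_left hc.le (by linarith)
        linarith
    have hμ : 0 ≤ (2 * θ - (Rl.card : ℝ) - 1) + NB + g := by
      rcases m3 with h6 | ⟨h6, _⟩ | ⟨h6, _⟩
      · linarith
      · linarith
      · have := μ1 h6
        linarith
    obtain ⟨z0, hSz, hYz, hΓ⟩ := h.poT1 hnv hi (by omega) haQ hbP hpq hSR (m := 2)
      (z := (Rl.card : ℝ) - 1 - θ - NB) hT2 hT1 (fun D hD' hC' => hC.crs D (by linarith) hC')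
      hY hnb
      g1 (by norm_num) (by linarith) (by linarith) (by linarith) (by linarith) (by linarith)
      (by linarith) (by linarith) (Or.inr (Or.inl le_rfl)) (by linarith) (by
        intro v hv hv0
        left
        have h1 := h.fr.negR (hSR hv) hv0
        linarith) (by linarith) (by linarith)
    rcases lt_or_ge (θ + g) (q (2 * i)) with h1 | h1
    · exact h.poNeHigh hn hnv hpq hout hi (by omega) haQ hbP hd hpick hRs hnb hcard hT2 hq0 h1
        (by linarith) hΓ (Or.inr (Or.inr ⟨hnb1, hE.le, m3⟩)) z0 hSz hYz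
    · rcases lt_or_ge g 3 with g3 | g3
      · have hU := h.poPoU hn hout hi (by omega) haQ hbP hd hpick (u := 0) hq0
          (by linarith) (by linarith) hΓ
        rw [hnb1] at hcard
        have hc3 : (Rs.card : ℤ) ≤ 3 := by omega
        have hc3r : (Rs.card : ℝ) ≤ 3 := by exact_mod_cast hc3
        refine hU.noc (by push_cast; omega) le_rfl ?_ (by linarith)
        have h1 : ∑ _l ∈ range (2 * (j + 1)), θ ≤ ∑ l ∈ range (2 * (j + 1)), p l :=
          Finset.sum_le_sum fun l hl' => by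
            have := h.fr.pa (i := l) (j := 2 * j + 1) (by have := Finset.mem_range.1 hl'; omega)
              (by omega)
            linarith
        rw [Finset.sum_const, nsmul_eq_mul, Finset.card_range] at h1
        push_cast at h1 ⊢
        linarith
      · have g3r : (3 : ℝ) ≤ g := by exact_mod_cast g3
        refine hnv (h.poA hi (by omega) hT2 z0 hSz hYz h1 (by linarith) (by linarith)
          (by linarith) (by linarith) ?_)
        rcases m3 with h6 | ⟨h6, _⟩ | ⟨h6, _⟩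
        · linarith
        · linarith
        · have := μ1 h6
          linarith
  · -- several blocks
    have hnb2r : (2 : ℝ) ≤ nb := by exact_mod_cast hnb2
    obtain ⟨z0, hSz, hYz, hΓ⟩ := h.poT1 hnv hi (by omega) haQ hbP hpq hSR (m := 2)
      (z := (Rl.card : ℝ) - 1 - θ - (nb - 1)) hT2 hT1
      (fun D hD' hC' => hC.crs D (by linarith) hC') hY hnb
      g1 (by norm_num) (by linarith) (by linarith) (by linarith) (by linarith) (by linarith)
      (by linarith) (by linarith) (Or.inr (Or.inl le_rfl)) (by linarith) (by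
        intro v hv hv0
        exact Or.inr ⟨hnb2, le_rfl, by linarith⟩) (by linarith) (by linarith)
    rcases lt_or_ge (θ + g) (q (2 * i)) with h1 | h1
    · exact h.poNeHigh hn hnv hpq hout hi (by omega) haQ hbP hd hpick hRs hnb hcard hT2 hq0 h1
        (by linarith) hΓ (Or.inr (Or.inl ⟨le_rfl, hE.le⟩)) z0 hSz hYz
    · exact hnv (h.poA hi (by omega) hT2 z0 hSz hYz h1 (by linarith) (by linarith)
        (by linarith) (by linarith) (by linarith))

/-- leaf 3b, nonempty `Rs` -/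
theorem Ctx.po3bNe (hn : 2 * k - 1 ≤ (Rl.card : ℤ)) (hnv : ¬ Val B θ) (hpq : p 0 ≤ q 0)
    (hout : ∀ v ∈ Rl, k ≤ ∑ u, B v u) {i j : ℕ} (hi : i < ℓ) (hj : j + 1 < ℓ)
    (hlam : 3 < 2 * θ - (Rl.card : ℝ) + 1)
    (hQ : ∀ l < ℓ, q (2 * l) - q (2 * l + 1) ≤ θ)
    (hP : ∀ l < ℓ, p (2 * l) - p (2 * l + 1) ≤ θ)
    (hA : 2 * θ < AA q ℓ + AA p ℓ)
    (hE : θ - MM B (uq 0) (up 0) < p (2 * j + 1) - p (2 * j + 2))
    (h1 : θ - (MM B (uq 0) (up 0) + 2) < q (2 * i))
    (hC : Closed B nQ nP uq up q p θ (2 * i + 1) (2 * (j + 1)))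
    (hd : Dec B pick (vs uq up (rr nQ nP (2 * i + 1) (2 * (j + 1)))) Rs S g Kc)
    (hpick : ∀ K : Finset V, K.Nonempty → pick K ∈ K ∧ ∀ u ∈ K, indg B K (pick K) ≤ indg B K u)
    (hRs : Rs.Nonempty) {Y nb cR : ℤ} (hY : 0 ≤ Y) (hnb : 1 ≤ nb)
    (hcard : (Rs.card : ℤ) ≤ g + nb)
    (hcR : (cR : ℝ) = cRr B nQ nP uq up (2 * i + 1) (2 * (j + 1)))
    (hT2 : T2I B uq up (2 * i + 1) (2 * (j + 1)) S g Y)
    (hT1 : CrI B uq up q p (2 * i + 1) (2 * (j + 1)) ((max 0 (cR - 1) : ℤ) : ℝ) ∨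
      EndI B uq up (q 0) (2 * i + 1) (2 * (j + 1)) S g Y nb cR 1) : False := by
  have hl := h.fr.l2
  have hθ3 := h.θ3 hn
  have hqθ := h.top hnv hpq
  have hp1 := h.fr.pn (i := 2 * j + 2) (by omega)
  have haQ := hC.aQ
  have hbP := hC.bP
  have hM0 := h.MM0 (uq 0) (up 0)
  have hM2 := h.MM2 (uq 0) (up 0)
  have hqa := h.fr.qa (i := 0) (j := 2 * i) (by omega) (by omega)
  have hq0 : 0 < q 0 := by linarith
  have hqn := h.qle (i := 0) (by omega) hq0
  have hpa := h.fr.pa (i := 0) (j := 2 * j + 1) (by omega) (by omega)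
  have hp0 : p 0 ≤ Rl.card - 1 - k := h.pleK hout (by omega) (by linarith)
  have hpj : p (2 * j + 1) ≤ Rl.card - 1 - k := h.pleK hout (by omega) (by linarith)
  have hcR' := h.cR hC.a1 haQ hbP
  have hcRB := h.cRB hC.a1 haQ hbP (by omega)
  rw [← hcR] at hcR' hcRB
  have hMz := h.MM_le (up 0) (i := 0) (by omega) hq0 (h.uqp (by omega) (by omega))
  have k3r := h.k3r
  have c1 : 1 ≤ (Rs.card : ℤ) := by
    have := Finset.card_pos.2 hRs
    exact_mod_cast this
  have g1 : 1 ≤ g := by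
    have := hd.cg
    omega
  have g1r : (1 : ℝ) ≤ g := by exact_mod_cast g1
  have hnbr : (1 : ℝ) ≤ nb := by exact_mod_cast hnb
  have hSR : S ⊆ vs uq up (rr nQ nP (2 * i + 1) (2 * (j + 1))) := by
    rw [← hd.un]
    exact Finset.subset_union_right
  rcases hT1 with hT1 | hT1
  · refine hnv (hC.cr _ ?_ hT1)
    rw [← hcR]
    push_cast
    exact le_rfl
  obtain ⟨NB, n1, n2, n3, n4, n5⟩ := h.exists_NB h.k3 hnb
  have hneg : ∀ v ∈ S, im B v < 0 → |((im B v : ℤ) : ℝ)| ≤ Rl.card + 1 - k - θ := by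
    intro v hv hv0
    have h1 := h.fr.negR (hSR hv) hv0
    have h2 : p (2 * (j + 1)) = p (2 * j + 2) := by ring_nf
    linarith
  obtain ⟨i1, i2, i3⟩ := h.fr.qgap hi
  obtain ⟨z0, hSz, hYz, hΓ⟩ := h.poT1 hnv hi (by omega) haQ hbP hpq hSR
    (m := MM B (uq 0) (up 0) + 2)
    (z := (Rl.card : ℝ) - 1 - θ - NB) hT2 hT1 (fun D hD' hC' => hC.crs D (by linarith) hC') hY hnb
    g1 (by linarith) (by linarith) (by linarith) (by linarith) (by linarith) (by linarith)
    (by linarith) (by linarith) (Or.inr (Or.inr (by linarith))) (by linarith) (by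
      intro v hv hv0
      rcases le_or_gt nb (k - 2) with h1 | h1
      · left
        have h2 := hneg v hv hv0
        have h3 : (nb : ℝ) ≤ k - 2 := by exact_mod_cast h1
        rw [n4 h1]
        linarith
      · right
        have h3 := h.k3
        refine ⟨by omega, le_rfl, ?_⟩
        rw [n5 h1]
        linarith) (by linarith) (by linarith)
  rcases lt_or_ge (θ + g) (q (2 * i)) with h2 | h2
  · exact h.poNeHigh hn hnv hpq hout hi (by omega) haQ hbP hd hpick hRs hnb hcard hT2 hq0 h2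
      (by linarith) hΓ (Or.inl ⟨n2, fun h3 => (n4 h3).ge⟩) z0 hSz hYz
  · rcases lt_or_ge g 2 with g2 | g2
    · have hU := h.poPoU hn hout hi (by omega) haQ hbP hd hpick (u := -4) hq0
        (by linarith) (by linarith) hΓ
      have hc2 : (Rs.card : ℤ) ≤ 2 := by
        have := hd.cg
        omega
      have hc2r : (Rs.card : ℝ) ≤ 2 := by exact_mod_cast hc2
      have f1 := h.fr.qT (i := i) hi
      have f2 := h.fr.pT (i := j + 1) (by omega)
      have f3 : p (2 * (j + 1)) = p (2 * j + 2) := by ring_nf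
      obtain ⟨p1, p2, p3, p4⟩ := h.fr.pgap (j := j) (by omega)
      have e1 := AA_succ p j
      exact hU.noc3 (by push_cast; omega) le_rfl (by linarith) (by linarith) (by linarith)
    · have g2r : (2 : ℝ) ≤ g := by exact_mod_cast g2
      exact hnv (h.poA3 hi (by omega) hT2 (m := MM B (uq 0) (up 0) + 2) z0 hSz hYz h2 g2r
        (by linarith) hQ hP (by linarith) (by linarith) (by linarith) (by linarith)
        (by linarith) (by linarith) (by linarith))

end
end Pool.Agent.Exact
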