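import Pool.Agent.Lib_helper68.Exact.Arr
import Pool.Agent.Lib_helper23.Exact.Tree2

/-!
# Greedy arrangements, an odd number of hubs of the first type, an even number of the second
-/

set_option autoImplicit false
set_option linter.unusedSectionVars false

namespace Pool.Agent.Exact

open Finset

variable {V : Type*} [Fintype V] [DecidableEq V]
variable {B : V → V → ℤ} {Rl : Finset V} {ℓ nQ nP : ℕ} {uq up : ℕ → V} {q p : ℕ → ℝ}
variable {k : ℤ} {θ : ℝ}

/-- closing with all neutral vertices signed greedily -/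
lemma T2I.close {a b : ℕ} {S : Finset V} {g Y : ℤ} (hT2 : T2I B uq up a b S g Y)
    {M K t z : ℝ} (hst : StI B uq up (hb a b) M K t) (hK0 : 0 ≤ K) (hz0 : 0 ≤ z)
    (hS : ∀ v ∈ S, |((im B v : ℤ) : ℝ)| ≤ z) (hY : (Y : ℝ) ≤ z) (h1 : K + M ≤ θ + g)
    (h2 : z + M ≤ θ + g) (h3 : z + t + 2 * M ≤ 2 * θ + 2 * g) : Val B θ := by
  refine (hT2 z M K t hK0 hz0 hS hst).mono ?_
  have h5 : (0 : ℝ) ≤ ∑ v ∈ S, |((im B v : ℤ) : ℝ)| :=
    Finset.sum_nonneg fun v _ => abs_nonneg _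
  have h6 : max ((Y : ℝ) - ∑ v ∈ S, |((im B v : ℤ) : ℝ)|) z = z :=
    max_eq_right (by linarith)
  rw [h6, ← max_add_add_left, ← max_add_add_left]
  refine max_le (max_le ?_ ?_) ?_ <;> linarith

lemma Frame.qgap (h : Frame B Rl ℓ nQ nP uq up q p) {i : ℕ} (hi : i < ℓ) :
    0 ≤ AA q i ∧ AA q i ≤ q 0 - q (2 * i) ∧
    (∀ l < i, q (2 * l) - q (2 * l + 1) ≤ AA q i) ∧
    (∀ l < i, q (2 * l + 1) - q (2 * l + 2) ≤ q 0 - q (2 * i) - AA q i) := by
  have e2 := h.qE (Nat.zero_le i) hi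
  have e7 := h.qAm (Nat.zero_le i) hi.le
  simp only [Nat.mul_zero, AA_zero, sub_zero] at e2 e7
  refine ⟨e7, by linarith, ?_, ?_⟩
  · intro l hl
    have := h.qgA (Nat.zero_le l) hl hi.le
    simp only [AA_zero] at this
    linarith
  · intro l hl
    have := h.qgE (Nat.zero_le l) hl hi
    simp only [Nat.mul_zero, AA_zero, sub_zero] at this
    linarith

lemma Frame.pgap (h : Frame B Rl ℓ nQ nP uq up q p) {j : ℕ} (hj : j < ℓ) :
    0 ≤ AA p j ∧ AA p j ≤ p 0 - p (2 * j) ∧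
    (∀ l < j, p (2 * l) - p (2 * l + 1) ≤ AA p j) ∧
    (∀ l < j, p (2 * l + 1) - p (2 * l + 2) ≤ p 0 - p (2 * j) - AA p j) := h.swap.qgap hj

section
variable (h : Ctx B Rl ℓ nQ nP uq up q p k θ)
include h

lemma Ctx.MM2z (u v : V) : MM B u v ≤ 2 := by
  have := h.MM2 u v
  exact_mod_cast this

lemma Ctx.MM0z (u v : V) : 0 ≤ MM B u v := by
  have := h.MM0 u v
  exact_mod_cast this

/-- the arrangements `S4` or `TE`, with the lowest vertex of the second type -/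
theorem Ctx.poS4 {i j : ℕ} (hi : i < ℓ) (hj : j < ℓ) {S : Finset V} {g Y : ℤ}
    (hT2 : T2I B uq up (2 * i + 1) (2 * (j + 1)) S g Y) {z : ℝ} (hz0 : 0 ≤ z)
    (hS : ∀ v ∈ S, |((im B v : ℤ) : ℝ)| ≤ z) (hY : (Y : ℝ) ≤ z)
    (b1 : p (2 * j + 1) ≤ θ + g - 2) (c1 : q 0 - p (2 * j + 1) ≤ θ + g - 2)
    (gQ : q 0 - q (2 * i) ≤ θ + g - 2) (gP : p 0 - p (2 * j + 1) ≤ θ + g - 2)
    (gP' : p 0 - p (2 * j + 1) ≤ q (2 * i)) (hz : z + 2 ≤ θ + g)
    (ht : z + 4 + (q (2 * i) + AA q i - AA p (j + 1)) ≤ 2 * θ + 2 * g) : Val B θ := by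
  have hl := h.fr.l2
  obtain ⟨q1, q2, q3, q4⟩ := h.fr.qgap hi
  obtain ⟨p1, p2, p3, p4⟩ := h.fr.pgap hj
  have e1 := AA_succ p j
  have e2 := h.fr.pa (i := 2 * j) (j := 2 * j + 1) (by omega) (by omega)
  have e3 := h.fr.pa (i := 0) (j := 2 * j + 1) (by omega) (by omega)
  have e4 := h.fr.qa (i := 0) (j := 2 * i) (by omega) (by omega)
  have e5 := h.fr.pn (i := 2 * j + 1) (by omega)
  rcases le_or_gt (p 0) (q (2 * i)) with h1 | h1
  · have h2 : |q (2 * i) - p 0| = q (2 * i) - p 0 := abs_of_nonneg (by linarith)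
    refine hT2.close (M := 2) (K := θ + g - 2) ((h.fr.tS4 (K := θ + g - 2) i j hi hj
      (by rw [h2]; linarith) b1 (fun l hl' => by have := q3 l hl'; linarith)
      (fun l hl' => by have := p4 l hl'; linarith)).mono (h.MM2 _ _) le_rfl le_rfl)
      (by linarith) hz0 hS hY (by linarith) hz ?_
    rw [h2]
    linarith
  · have h2 : |p 0 - p (2 * j + 1) - q (2 * i)| = q (2 * i) - (p 0 - p (2 * j + 1)) := by
      rw [abs_of_nonpos (by linarith)]; ring
    have hM : ((MM B (up 0) (uq (2 * i)) - MM B (up 0) (up (2 * j + 1)) -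
      MM B (up (2 * j + 1)) (uq (2 * i)) : ℤ) : ℝ) ≤ 2 := by
      have h3 := h.MM2z (up 0) (uq (2 * i))
      have h4 := h.MM0z (up 0) (up (2 * j + 1))
      have h5 := h.MM0z (up (2 * j + 1)) (uq (2 * i))
      exact_mod_cast (by linarith : MM B (up 0) (uq (2 * i)) - MM B (up 0) (up (2 * j + 1)) -
        MM B (up (2 * j + 1)) (uq (2 * i)) ≤ 2)
    refine hT2.close (M := 2) (K := θ + g - 2) (h.fr.tTE (K := θ + g - 2) (M := 2) i j hi hj
      (by rw [h2]; linarith) hM (fun l hl' => by have := q3 l hl'; linarith)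
      (fun l hl' => by have := p4 l hl'; linarith)) (by linarith) hz0 hS hY (by linarith) hz ?_
    rw [h2]
    linarith

/-- the arrangements `S4` or `TE` and `G3` -/
theorem Ctx.poG {i j : ℕ} (hi : i < ℓ) (hj : j < ℓ) {S : Finset V} {g Y : ℤ}
    (hT2 : T2I B uq up (2 * i + 1) (2 * (j + 1)) S g Y) {z : ℝ} (hz0 : 0 ≤ z)
    (hS : ∀ v ∈ S, |((im B v : ℤ) : ℝ)| ≤ z) (hY : (Y : ℝ) ≤ z)
    (b1 : p (2 * j + 1) ≤ θ + g - 2) (c1 : q 0 - p (2 * j + 1) ≤ θ + g - 2)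
    (gQ : q 0 - q (2 * i) ≤ θ + g - 6) (gP : p 0 - p (2 * j + 1) ≤ θ + g - 6)
    (gP' : p 0 - p (2 * j + 1) ≤ q (2 * i)) (hz : z + 6 ≤ θ + g)
    (c2 : q 0 - p (2 * j) - p (2 * j + 1) ≤ θ + g - 6)
    (c3 : p (2 * j) + p (2 * j + 1) + 6 ≤ q 0 + θ + g)
    (c4 : q 0 - p (2 * j) + 8 + z ≤ 2 * θ + 2 * g)
    (c5 : p (2 * j + 1) + 8 + z ≤ 2 * θ + 2 * g) : Val B θ := by
  have hl := h.fr.l2
  by_contra hn
  obtain ⟨q1, q2, q3, q4⟩ := h.fr.qgap hi
  obtain ⟨p1, p2, p3, p4⟩ := h.fr.pgap hj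
  have e1 := AA_succ p j
  have e2 := h.fr.pa (i := 2 * j) (j := 2 * j + 1) (by omega) (by omega)
  have e3 := h.fr.pa (i := 0) (j := 2 * j + 1) (by omega) (by omega)
  have e4 := h.fr.qa (i := 0) (j := 2 * i) (by omega) (by omega)
  have F1 : 2 * θ + 2 * g < z + 4 + (q (2 * i) + AA q i - AA p (j + 1)) := by
    by_contra hc
    push Not at hc
    exact hn (h.poS4 hi hj hT2 hz0 hS hY b1 c1 (by linarith) (by linarith) gP' (by linarith) hc)
  have hM : ((MM B (uq 0) (up (2 * j)) + MM B (uq 0) (up (2 * j + 1)) +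
      MM B (up (2 * j)) (up (2 * j + 1)) : ℤ) : ℝ) ≤ 6 := by
    have h3 := h.MM2z (uq 0) (up (2 * j))
    have h4 := h.MM2z (uq 0) (up (2 * j + 1))
    have h5 := h.MM2z (up (2 * j)) (up (2 * j + 1))
    exact_mod_cast (by linarith : MM B (uq 0) (up (2 * j)) + MM B (uq 0) (up (2 * j + 1)) +
      MM B (up (2 * j)) (up (2 * j + 1)) ≤ 6)
  have hG := h.fr.tG3 (K := θ + g - 6) (M := 6) i j hi hj
    (abs_le.2 ⟨by linarith, by linarith⟩) hM (fun l hl' => by have := q4 l hl'; linarith)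
    (fun l hl' => by have := p3 l hl'; linarith)
  refine hn (hT2.close hG (by linarith) hz0 hS hY (by linarith) hz ?_)
  rcases le_or_gt 0 (q 0 - p (2 * j) - p (2 * j + 1)) with h1 | h1
  · rw [abs_of_nonneg h1]
    linarith
  · rw [abs_of_neg h1]
    linarith

/-- the arrangements `S2` and `B` -/
theorem Ctx.poB {i j : ℕ} (hi : i < ℓ) (hj : j < ℓ) {S : Finset V} {g Y : ℤ}
    (hT2 : T2I B uq up (2 * i + 1) (2 * (j + 1)) S g Y) {z : ℝ} (hz0 : 0 ≤ z)
    (hS : ∀ v ∈ S, |((im B v : ℤ) : ℝ)| ≤ z) (hY : (Y : ℝ) ≤ z) (hpq : p 0 ≤ q 0)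
    (b1 : p (2 * j + 1) ≤ θ + g - 2) (c1 : q 0 - p (2 * j + 1) ≤ θ + g - 2)
    (gQ : q 0 - q (2 * i) ≤ θ + g - 2) (gP : p 0 - p (2 * j + 1) ≤ θ + g - 2)
    (b2 : p (2 * j + 1) ≤ q (2 * i)) (hz : z + 2 ≤ θ + g)
    (c4 : q 0 + 4 + z ≤ 2 * θ + 2 * g) : Val B θ := by
  have hl := h.fr.l2
  by_contra hn
  obtain ⟨q1, q2, q3, q4⟩ := h.fr.qgap hi
  obtain ⟨p1, p2, p3, p4⟩ := h.fr.pgap hj
  have e1 := AA_succ p j
  have e2 := h.fr.pa (i := 2 * j) (j := 2 * j + 1) (by omega) (by omega)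
  have e3 := h.fr.pa (i := 0) (j := 2 * j + 1) (by omega) (by omega)
  have e4 := h.fr.qa (i := 0) (j := 2 * i) (by omega) (by omega)
  have e6 := h.fr.pa (i := 0) (j := 2 * j) (by omega) (by omega)
  have h2 : |q 0 - p 0| = q 0 - p 0 := abs_of_nonneg (by linarith)
  have F1 := h.fr.tB (K := θ + g - 2) i j hi hj (by rw [h2]; linarith) b1
    (fun l hl' => by have := q4 l hl'; linarith) (fun l hl' => by have := p4 l hl'; linarith)
  have F2 := h.fr.tS2 (K := θ + g - 2) i j hi hj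
    (abs_le.2 ⟨by linarith, by linarith⟩) b1
    (fun l hl' => by have := q3 l hl'; linarith) (fun l hl' => by have := p3 l hl'; linarith)
  have G1 : 2 * θ + 2 * g < z + (|q 0 - p 0| + (q 0 - q (2 * i) - AA q i) +
      (p 0 - p (2 * j) - AA p j) + p (2 * j + 1)) + 2 * 2 := by
    by_contra hc
    push Not at hc
    exact hn (hT2.close (F1.mono (h.MM2 _ _) le_rfl le_rfl) (by linarith) hz0 hS hY
      (by linarith) hz hc)
  have G2 : 2 * θ + 2 * g < z + (|q (2 * i) - p (2 * j)| + AA q i + AA p j +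
      p (2 * j + 1)) + 2 * 2 := by
    by_contra hc
    push Not at hc
    exact hn (hT2.close (F2.mono (h.MM2 _ _) le_rfl le_rfl) (by linarith) hz0 hS hY
      (by linarith) hz hc)
  rw [h2] at G1
  rcases le_or_gt 0 (q (2 * i) - p (2 * j)) with h1 | h1
  · rw [abs_of_nonneg h1] at G2
    linarith
  · rw [abs_of_neg h1] at G2
    linarith

/-- the arrangements `A`, `TE` and `TO` -/
theorem Ctx.poA {i j : ℕ} (hi : i < ℓ) (hj : j < ℓ) {S : Finset V} {g Y : ℤ}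
    (hT2 : T2I B uq up (2 * i + 1) (2 * (j + 1)) S g Y) {z : ℝ} (hz0 : 0 ≤ z)
    (hS : ∀ v ∈ S, |((im B v : ℤ) : ℝ)| ≤ z) (hY : (Y : ℝ) ≤ z)
    (a1 : q (2 * i) ≤ θ + g) (gQ : q 0 - q (2 * i) ≤ θ + g) (gQ' : q 0 ≤ 2 * q (2 * i))
    (gP : p 0 - p (2 * j + 1) ≤ θ + g - 2) (gP' : p 0 - p (2 * j + 1) ≤ q (2 * i))
    (hz : z + 4 ≤ θ + g) : Val B θ := by
  have hl := h.fr.l2
  by_contra hn
  obtain ⟨q1, q2, q3, q4⟩ := h.fr.qgap hi
  obtain ⟨p1, p2, p3, p4⟩ := h.fr.pgap hj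
  have e1 := AA_succ p j
  have e2 := h.fr.pa (i := 2 * j) (j := 2 * j + 1) (by omega) (by omega)
  have e3 := h.fr.pa (i := 0) (j := 2 * j + 1) (by omega) (by omega)
  have e4 := h.fr.qa (i := 0) (j := 2 * i) (by omega) (by omega)
  have e6 := h.fr.pa (i := 0) (j := 2 * j) (by omega) (by omega)
  have F1 := h.fr.tA (K := θ + g) i (j + 1) hi (by omega) a1
    (fun l hl' => by have := q3 l hl'; linarith) (fun l hl' => by
      rcases Nat.lt_succ_iff_lt_or_eq.1 hl' with h1 | h1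
      · have := p3 l h1; linarith
      · subst h1; linarith)
  have G1 : 2 * θ + 2 * g < z + (AA q i + q (2 * i) + AA p (j + 1)) + 2 * 0 := by
    by_contra hc
    push Not at hc
    exact hn (hT2.close F1 (by linarith) hz0 hS hY (by linarith) (by linarith) hc)
  rcases le_or_gt (AA q i) (AA p (j + 1)) with h1 | h1
  · -- `TE`
    have h2 : |p 0 - p (2 * j + 1) - q (2 * i)| = q (2 * i) - (p 0 - p (2 * j + 1)) := by
      rw [abs_of_nonpos (by linarith)]; ring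
    have hM : ((MM B (up 0) (uq (2 * i)) - MM B (up 0) (up (2 * j + 1)) -
      MM B (up (2 * j + 1)) (uq (2 * i)) : ℤ) : ℝ) ≤ 2 := by
      have h3 := h.MM2z (up 0) (uq (2 * i))
      have h4 := h.MM0z (up 0) (up (2 * j + 1))
      have h5 := h.MM0z (up (2 * j + 1)) (uq (2 * i))
      exact_mod_cast (by linarith : MM B (up 0) (uq (2 * i)) - MM B (up 0) (up (2 * j + 1)) -
        MM B (up (2 * j + 1)) (uq (2 * i)) ≤ 2)
    have F2 := h.fr.tTE (K := θ + g - 2) (M := 2) i j hi hj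
      (by rw [h2]; linarith) hM (fun l hl' => by have := q3 l hl'; linarith)
      (fun l hl' => by have := p4 l hl'; linarith)
    refine hn (hT2.close F2 (by linarith) hz0 hS hY (by linarith) (by linarith) ?_)
    rw [h2]
    linarith
  · -- `TO`
    rcases Nat.eq_zero_or_pos i with h0 | h0
    · subst h0
      rw [AA_zero] at h1 G1
      linarith
    · obtain ⟨i, rfl⟩ : ∃ m, i = m + 1 := ⟨i - 1, by omega⟩
      have f1 := AA_succ q i
      obtain ⟨r1, r2, r3, r4⟩ := h.fr.qgap (i := i) (by omega)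
      have f2 := h.fr.qa (i := 2 * i) (j := 2 * i + 1) (by omega) (by omega)
      have f3 := h.fr.qa (i := 2 * i + 1) (j := 2 * (i + 1)) (by omega) (by omega)
      have f4 : q (2 * (i + 1)) = q (2 * i + 2) := by ring_nf
      have hM : ((MM B (uq (2 * i + 1)) (uq (2 * i + 2)) - MM B (uq 0) (uq (2 * i + 1)) -
        MM B (uq 0) (uq (2 * i + 2)) : ℤ) : ℝ) ≤ 2 := by
        have h3 := h.MM2z (uq (2 * i + 1)) (uq (2 * i + 2))
        have h4 := h.MM0z (uq 0) (uq (2 * i + 1))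
        have h5 := h.MM0z (uq 0) (uq (2 * i + 2))
        exact_mod_cast (by linarith : MM B (uq (2 * i + 1)) (uq (2 * i + 2)) -
          MM B (uq 0) (uq (2 * i + 1)) - MM B (uq 0) (uq (2 * i + 2)) ≤ 2)
      have h2 : |q 0 - q (2 * i + 1) - q (2 * i + 2)| =
          q (2 * i + 1) + q (2 * i + 2) - q 0 := by
        rw [abs_of_nonpos (by linarith)]; ring
      have F2 := h.fr.tTO (K := θ + g - 2) (M := 2) i (j + 1) (by omega) (by omega)
        (by rw [h2]; linarith) hM (fun l hl' => by have := r4 l hl'; linarith)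
        (fun l hl' => by
          rcases Nat.lt_succ_iff_lt_or_eq.1 hl' with h1 | h1
          · have := p3 l h1; linarith
          · subst h1; linarith)
      refine hn (hT2.close F2 (by linarith) hz0 hS hY (by linarith) (by linarith) ?_)
      rw [h2]
      linarith

end
end Pool.Agent.Exact
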