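import Pool.Agent.Lib_helper68.Exact.Blocks

/-!
# Realising a block structure by a sign pattern
-/

set_option autoImplicit false
set_option linter.unusedSectionVars false

namespace Pool.Agent.Exact

open Finset

variable {V : Type*} [DecidableEq V] {B : V → V → ℤ} {a : V → ℤ}

lemma insert_pair_eq (u v : V) : ({u, v} : Finset V) = insert u {v} := rfl

/-- an adjacent pair and a further vertex can be added to a good set -/
lemma Good.hole {S : Finset V} {x : V → ℤ} (hS : Good B a x S) (h0 : ∀ u v, 0 ≤ B u v)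
    (hB : ∀ v, B v v = 0) (ha : ∀ v, 0 ≤ a v ∧ a v ≤ 2) (u v w : V) (hu : u ∉ S) (hv : v ∉ S)
    (hw : w ∉ S) (huv : u ≠ v) (huw : u ≠ w) (hvw : v ≠ w) (h1 : 1 ≤ MM B u v) (σ : ℤ)
    (hσ : σ = 1 ∨ σ = -1) (hxu : x u = σ) (hxv : x v = -σ) (hxw : x w = 1 ∨ x w = -1)
    (hint : Int B S {u, v} x ≤ 0) (hint' : Int B (S ∪ {u, v}) {w} x ≤ 0) :
    Good B a x (insert w (S ∪ {u, v})) := by
  have hvv : ∀ l ∈ ({v} : Finset V), ∀ l' ∈ ({v} : Finset V), MM B l l' = 0 := by
    intro l hl l' hl'
    rw [Finset.mem_singleton] at hl hl'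
    rw [hl, hl']
    simp [MM, hB]
  obtain ⟨g1, g2⟩ := hS.star h0 hB ha u {v} hu (by simpa using huv) (by simpa using hv)
    (by simp) (by simpa using h1) hvv σ hσ hxu (by simpa using hxv) hint
  rw [← insert_pair_eq] at g1 g2
  simp only [Finset.sum_singleton, Finset.card_singleton, Nat.cast_one] at g2
  have hwS : w ∉ S ∪ {u, v} := by
    simp only [Finset.mem_union, Finset.mem_insert, Finset.mem_singleton, not_or]
    exact ⟨hw, huw.symm, hvw.symm⟩
  refine Good.step _ w g1 hwS ?_
  have e : insert w (S ∪ {u, v}) = (S ∪ {u, v}) ∪ {w} := by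
    ext z; simp only [Finset.mem_insert, Finset.mem_union, Finset.mem_singleton]; tauto
  have hd : Disjoint (S ∪ {u, v}) {w} := by simpa using hwS
  have hd2 : Disjoint S {u, v} := by
    rw [Finset.disjoint_right]
    intro z hz
    rw [Finset.mem_insert, Finset.mem_singleton] at hz
    rcases hz with rfl | rfl
    · exact hu
    · exact hv
  rw [e, DD_union hd, Qd_single w hB, ch_union hd, ch_union hd2]
  simp only [Finset.sum_singleton, add_zero]
  have e2 : ch a {u, v} = (if a u = 1 then 0 else 1) + (if a v = 1 then 0 else 1) := by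
    unfold ch
    rw [Finset.sum_pair huv]
  have e3 : ch a {w} = if a w = 1 then 0 else 1 := by simp [ch]
  rw [e2, e3]
  have h3 : σ * (a u - a v) ≤ (if a u = 1 then 0 else 1) + (if a v = 1 then 0 else 1) := by
    have hu2 := ha u
    have hv2 := ha v
    rcases hσ with h | h <;> rw [h] <;> split_ifs <;> omega
  have h4 : a w * x w ≤ (if a w = 1 then 0 else 1) + 1 := by
    have hw2 := ha w
    rcases hxw with h | h <;> rw [h] <;> split_ifs <;> omega
  linarith

/-- every block structure is realised by a sign pattern with small quadratic form which can be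
built vertex by vertex, also after a global change of sign -/
theorem Blocks.realise {S : Finset V} {g : ℤ} (h : Blocks B S g) (h0 : ∀ u v, 0 ≤ B u v)
    (hB : ∀ v, B v v = 0) (ha : ∀ v, 0 ≤ a v ∧ a v ≤ 2) :
    ∃ x : V → ℤ, (∀ v, x v = 1 ∨ x v = -1) ∧ Qd B S x ≤ -g ∧ Good B a x S ∧
      Good B a (fun v => - x v) S := by
  induction h with
  | empty => exact ⟨fun _ => 1, fun _ => Or.inl rfl, by simp [Qd], Good.empty, Good.empty⟩
  | star S g c L hS hcS hcL hLS hL h1 h2 ih =>
    obtain ⟨x0, hx0, hq, hg, hg'⟩ := ih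
    have hd : Disjoint S (insert c L) := by
      rw [Finset.disjoint_insert_right]
      exact ⟨hcS, hLS.symm⟩
    set y : ℤ → V → ℤ := fun σ v => if v = c then σ else if v ∈ L then -σ else x0 v with hy
    have hyc : ∀ σ, y σ c = σ := by intro σ; simp [hy]
    have hyL : ∀ σ, ∀ l ∈ L, y σ l = -σ := by
      intro σ l hl
      have : l ≠ c := fun e => hcL (e ▸ hl)
      simp [hy, this, hl]
    have hyS : ∀ σ, ∀ v ∈ S, y σ v = x0 v := by
      intro σ v hv
      have h3 : v ≠ c := fun e => hcS (e ▸ hv)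
      have h4 : v ∉ L := fun h => Finset.disjoint_left.1 hLS h hv
      simp [hy, h3, h4]
    have hJ : ∀ σ, (σ = 1 ∨ σ = -1) →
        Int B S (insert c L) (y σ) = σ * Int B S (insert c L) (y 1) := by
      intro σ hσ
      unfold Int
      rw [Finset.mul_sum]
      refine Finset.sum_congr rfl fun u hu => ?_
      rw [Finset.mul_sum]
      refine Finset.sum_congr rfl fun v hv => ?_
      rw [hyS σ u hu, hyS 1 u hu]
      rcases Finset.mem_insert.1 hv with rfl | hv
      · rw [hyc, hyc]; ring
      · rw [hyL σ v hv, hyL 1 v hv]; ring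
    obtain ⟨σ, hσ, hσJ⟩ : ∃ σ : ℤ, (σ = 1 ∨ σ = -1) ∧ Int B S (insert c L) (y σ) ≤ 0 := by
      rcases le_total (Int B S (insert c L) (y 1)) 0 with h3 | h3
      · exact ⟨1, Or.inl rfl, h3⟩
      · refine ⟨-1, Or.inr rfl, ?_⟩
        rw [hJ _ (Or.inr rfl)]
        linarith
    refine ⟨y σ, ?_, ?_, ?_, ?_⟩
    · intro v
      simp only [hy]
      split_ifs
      · exact hσ
      · rcases hσ with h | h <;> rw [h] <;> norm_num
      · exact hx0 v
    · rw [Qd_union hd, Qd_congr (hyS σ), Qd_star c L hcL h0 hB h2]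
      have : ∑ l ∈ L, MM B c l * (y σ c * y σ l) = - ∑ l ∈ L, MM B c l := by
        rw [← Finset.sum_neg_distrib]
        refine Finset.sum_congr rfl fun l hl => ?_
        rw [hyc, hyL σ l hl]
        rcases hσ with h | h <;> rw [h] <;> ring
      rw [this]
      linarith
    · exact ((hg.congr fun v hv => (hyS σ v hv).symm).star h0 hB ha c L hcS hcL hLS hL h1 h2 σ hσ
        (hyc σ) (hyL σ) hσJ).1
    · refine (Good.star (hg'.congr fun v hv => by rw [hyS σ v hv]) h0 hB ha c L hcS hcL hLS hL
        h1 h2 (-σ) ?_ (by rw [hyc σ]) (fun l hl => by rw [hyL σ l hl]) ?_).1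
      · rcases hσ with h | h
        · right; rw [h]
        · left; rw [h]; norm_num
      · rw [Int_neg]; exact hσJ
  | hole S g u v w hS hu hv hw huv huw hvw h1 ih =>
    obtain ⟨x0, hx0, hq, hg, hg'⟩ := ih
    have hd : Disjoint S {u, v} := by
      rw [Finset.disjoint_right]
      intro z hz
      rw [Finset.mem_insert, Finset.mem_singleton] at hz
      rcases hz with rfl | rfl
      · exact hu
      · exact hv
    have hvv : ∀ l ∈ ({v} : Finset V), ∀ l' ∈ ({v} : Finset V), MM B l l' = 0 := by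
      intro l hl l' hl'
      rw [Finset.mem_singleton] at hl hl'
      rw [hl, hl']
      simp [MM, hB]
    have hwS : w ∉ S ∪ {u, v} := by
      simp only [Finset.mem_union, Finset.mem_insert, Finset.mem_singleton, not_or]
      exact ⟨hw, huw.symm, hvw.symm⟩
    have hdw : Disjoint (S ∪ {u, v}) {w} := by simpa using hwS
    set y : ℤ → ℤ → V → ℤ := fun σ τ z => if z = u then σ else if z = v then -σ else
      if z = w then τ else x0 z with hy
    have hyu : ∀ σ τ, y σ τ u = σ := by intro σ τ; simp [hy]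
    have hyv : ∀ σ τ, y σ τ v = -σ := by intro σ τ; simp [hy, huv.symm]
    have hyw : ∀ σ τ, y σ τ w = τ := by intro σ τ; simp [hy, huw.symm, hvw.symm]
    have hyS : ∀ σ τ, ∀ z ∈ S, y σ τ z = x0 z := by
      intro σ τ z hz
      have h3 : z ≠ u := fun e => hu (e ▸ hz)
      have h4 : z ≠ v := fun e => hv (e ▸ hz)
      have h5 : z ≠ w := fun e => hw (e ▸ hz)
      simp [hy, h3, h4, h5]
    have hJ : ∀ σ τ, Int B S {u, v} (y σ τ) = σ * Int B S {u, v} (y 1 1) := by
      intro σ τ
      unfold Int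
      rw [Finset.mul_sum]
      refine Finset.sum_congr rfl fun z hz => ?_
      rw [Finset.sum_pair huv, Finset.sum_pair huv, hyu, hyv, hyS σ τ z hz, hyu, hyv,
        hyS 1 1 z hz]
      ring
    obtain ⟨σ, hσ, hσJ⟩ : ∃ σ : ℤ, (σ = 1 ∨ σ = -1) ∧ ∀ τ, Int B S {u, v} (y σ τ) ≤ 0 := by
      rcases le_total (Int B S {u, v} (y 1 1)) 0 with h3 | h3
      · exact ⟨1, Or.inl rfl, fun τ => by rw [hJ]; linarith⟩
      · refine ⟨-1, Or.inr rfl, fun τ => ?_⟩
        rw [hJ]
        linarith
    have hJ' : ∀ τ, Int B (S ∪ {u, v}) {w} (y σ τ) = τ * Int B (S ∪ {u, v}) {w} (y σ 1) := by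
      intro τ
      unfold Int
      rw [Finset.mul_sum]
      refine Finset.sum_congr rfl fun z hz => ?_
      rw [Finset.sum_singleton, Finset.sum_singleton, hyw, hyw]
      have : y σ τ z = y σ 1 z := by
        have h5 : z ≠ w := fun e => hwS (e ▸ hz)
        simp [hy, h5]
      rw [this]
      ring
    obtain ⟨τ, hτ, hτJ⟩ : ∃ τ : ℤ, (τ = 1 ∨ τ = -1) ∧ Int B (S ∪ {u, v}) {w} (y σ τ) ≤ 0 := by
      rcases le_total (Int B (S ∪ {u, v}) {w} (y σ 1)) 0 with h3 | h3
      · exact ⟨1, Or.inl rfl, h3⟩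
      · refine ⟨-1, Or.inr rfl, ?_⟩
        rw [hJ']
        linarith
    refine ⟨y σ τ, ?_, ?_, ?_, ?_⟩
    · intro z
      simp only [hy]
      split_ifs
      · exact hσ
      · rcases hσ with h | h <;> rw [h] <;> norm_num
      · exact hτ
      · exact hx0 z
    · have e : insert w (S ∪ {u, v}) = (S ∪ {u, v}) ∪ {w} := by
        ext z; simp only [Finset.mem_insert, Finset.mem_union, Finset.mem_singleton]; tauto
      rw [e, Qd_union hdw, Qd_union hd, Qd_congr (hyS σ τ), Qd_single w hB, insert_pair_eq,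
        Qd_star u {v} (by simpa using huv) h0 hB hvv, ← insert_pair_eq]
      simp only [Finset.sum_singleton]
      have h3 := hσJ τ
      have h4 : MM B u v * (y σ τ u * y σ τ v) = - MM B u v := by
        rw [hyu, hyv]
        rcases hσ with h | h <;> rw [h] <;> ring
      rw [h4]
      linarith
    · exact (hg.congr fun z hz => (hyS σ τ z hz).symm).hole h0 hB ha u v w hu hv hw huv huw hvw h1
        σ hσ (hyu σ τ) (hyv σ τ) (by rw [hyw]; exact hτ) (hσJ τ) hτJ
    · refine Good.hole (hg'.congr fun z hz => by rw [hyS σ τ z hz]) h0 hB ha u v w hu hv hw huv huw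
        hvw h1 (-σ) ?_ (by rw [hyu]) (by rw [hyv]) ?_ ?_ ?_
      · rcases hσ with h | h
        · right; rw [h]
        · left; rw [h]; norm_num
      · rw [hyw]
        rcases hτ with h | h
        · right; rw [h]
        · left; rw [h]; norm_num
      · rw [Int_neg]; exact hσJ τ
      · rw [Int_neg]; exact hτJ

lemma Blocks.union {S T : Finset V} {g g' : ℤ} (hS : Blocks B S g) (hT : Blocks B T g')
    (h : Disjoint S T) : Blocks B (S ∪ T) (g + g') := by
  induction hT with
  | empty => simpa using hS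
  | star T g' c L hT hcT hcL hLT hL h1 h2 ih =>
    rw [Finset.disjoint_union_right, Finset.disjoint_insert_right] at h
    have e : S ∪ (T ∪ insert c L) = (S ∪ T) ∪ insert c L := (Finset.union_assoc _ _ _).symm
    rw [e, ← add_assoc]
    refine Blocks.star _ _ c L (ih h.1) ?_ hcL ?_ hL h1 h2
    · simp only [Finset.mem_union, not_or]
      exact ⟨h.2.1, hcT⟩
    · rw [Finset.disjoint_union_right]
      exact ⟨h.2.2.symm, hLT⟩
  | hole T g' u v w hT hu hv hw huv huw hvw h1 ih =>
    have hsub : T ⊆ insert w (T ∪ {u, v}) :=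
      Finset.subset_union_left.trans (Finset.subset_insert _ _)
    have hmem : ∀ z, z = u ∨ z = v ∨ z = w → z ∉ S := by
      intro z hz hzS
      refine Finset.disjoint_left.1 h hzS ?_
      simp only [Finset.mem_insert, Finset.mem_union, Finset.mem_singleton]
      tauto
    have e : S ∪ insert w (T ∪ {u, v}) = insert w ((S ∪ T) ∪ {u, v}) := by
      rw [Finset.union_insert, Finset.union_assoc]
    rw [e, ← add_assoc]
    refine Blocks.hole _ _ u v w (ih (Finset.disjoint_of_subset_right hsub h)) ?_ ?_ ?_ huv huw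
      hvw h1
    · simp only [Finset.mem_union, not_or]; exact ⟨hmem u (Or.inl rfl), hu⟩
    · simp only [Finset.mem_union, not_or]; exact ⟨hmem v (Or.inr (Or.inl rfl)), hv⟩
    · simp only [Finset.mem_union, not_or]; exact ⟨hmem w (Or.inr (Or.inr rfl)), hw⟩

end Pool.Agent.Exact
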