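import Pool.Agent.Lib_helper68.Exact.Seg

/-!
# The rest: all vertices of one type in a set, sorted
-/

set_option autoImplicit false
set_option linter.unusedSectionVars false

namespace Pool.Agent.Exact

open Finset

variable {V : Type*} [DecidableEq V] {B : V → V → ℤ}

/-- the sorted list of the weights of a set -/
noncomputable def wl (w : V → ℝ) (U : Finset V) : List ℝ := (U.1.map w).sort (· ≥ ·)

/-- the alternating sum of the sorted weights of a set -/
noncomputable def altF (w : V → ℝ) (U : Finset V) : ℝ := altL (wl w U)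

lemma wl_mem {w : V → ℝ} {U : Finset V} {a : ℝ} : a ∈ wl w U ↔ ∃ v ∈ U, w v = a := by
  unfold wl
  rw [Multiset.mem_sort]
  simp

lemma wl_sorted (w : V → ℝ) (U : Finset V) : (wl w U).Pairwise (· ≥ ·) :=
  Multiset.pairwise_sort _ _

lemma wl_insert (w : V → ℝ) {U : Finset V} {v : V} (hv : v ∉ U) :
    wl w (insert v U) = (wl w U).orderedInsert (· ≥ ·) (w v) := by
  refine List.Perm.eq_of_pairwise' (r := (· ≥ ·)) (wl_sorted _ _)
    (List.Pairwise.orderedInsert _ _ (wl_sorted _ _)) ?_
  refine List.Perm.trans ?_ (List.perm_orderedInsert _ _ _).symm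
  rw [← Multiset.coe_eq_coe, ← Multiset.cons_coe]
  unfold wl
  rw [Multiset.sort_eq, Multiset.sort_eq, Finset.insert_val_of_notMem hv, Multiset.map_cons]

lemma altF_empty (w : V → ℝ) : altF w ∅ = 0 := by
  simp [altF, wl, altL]

lemma altF_insert_max (w : V → ℝ) {U : Finset V} {v : V} (hv : v ∉ U) (h : ∀ u ∈ U, w u ≤ w v) :
    altF w (insert v U) = w v - altF w U := by
  unfold altF wl
  rw [Finset.insert_val_of_notMem hv, Multiset.map_cons, Multiset.sort_cons]
  · rfl
  · intro b hb
    rw [Multiset.mem_map] at hb
    obtain ⟨u, hu, rfl⟩ := hb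
    exact h u hu

lemma altF_nonneg (w : V → ℝ) {U : Finset V} (h : ∀ u ∈ U, 0 ≤ w u) : 0 ≤ altF w U :=
  (altL_nonneg _ (wl_sorted w U) fun a ha => by
    obtain ⟨v, hv, rfl⟩ := wl_mem.1 ha
    exact h v hv).1

lemma altF_le (w : V → ℝ) {U : Finset V} (h : ∀ u ∈ U, 0 ≤ w u) {r : ℝ} (hr : 0 ≤ r)
    (h' : ∀ u ∈ U, w u ≤ r) : altF w U ≤ r :=
  (altL_nonneg _ (wl_sorted w U) fun a ha => by
    obtain ⟨v, hv, rfl⟩ := wl_mem.1 ha
    exact h v hv).2 r hr fun a ha => by
      obtain ⟨v, hv, rfl⟩ := wl_mem.1 ha
      exact h' v hv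

/-- no loss at a crossing -/
lemma altF_insert (w : V → ℝ) {U : Finset V} {v : V} (hv : v ∉ U) (h : ∀ u ∈ U, 0 ≤ w u) {r : ℝ}
    (hr : w v ≤ r) (h' : ∀ u ∈ U, w u ≤ r) : altF w (insert v U) + altF w U + w v ≤ 2 * r := by
  unfold altF
  rw [wl_insert w hv]
  exact (altL_insert (w v) (wl w U) (wl_sorted w U) fun a ha => by
    obtain ⟨v, hv, rfl⟩ := wl_mem.1 ha
    exact h v hv).2 r hr fun a ha => by
      obtain ⟨v, hv, rfl⟩ := wl_mem.1 ha
      exact h' v hv

/-- the structure of the rest -/
theorem St.rest {s : V → ℤ} (hB : ∀ v, B v v = 0) (h0 : ∀ u v, 0 ≤ B u v) {K : ℝ} :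
    ∀ (n : ℕ) (U : Finset V), U.card = n →
      ((∀ v ∈ U, 0 ≤ s v) ∨ ∀ v ∈ U, s v ≤ 0) → (∀ v ∈ U, |((s v : ℤ) : ℝ)| ≤ K) →
      St B s U 0 K (altF (fun v => |((s v : ℤ) : ℝ)|) U) := by
  intro n
  induction n using Nat.strong_induction_on with
  | _ n ih =>
    intro U hn hs hK
    set w : V → ℝ := fun v => |((s v : ℤ) : ℝ)| with hw
    rcases U.eq_empty_or_nonempty with rfl | hne
    · rw [altF_empty]; exact St.empty s K
    · obtain ⟨u, hu, humax⟩ := Finset.exists_max_image U w hne
      rcases (U.erase u).eq_empty_or_nonempty with he | hne'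
      · have hU : U = {u} := by
          refine Finset.eq_singleton_iff_unique_mem.2 ⟨hu, fun v hv => ?_⟩
          by_contra hvu
          have : v ∈ U.erase u := Finset.mem_erase.2 ⟨hvu, hv⟩
          rw [he] at this
          simp at this
        have e : altF w U = w u := by
          have := altF_insert_max w (U := ∅) (v := u) (by simp) (by simp)
          rw [altF_empty, sub_zero] at this
          rw [hU]; exact this
        rw [e, hU]
        exact (St.one hB u le_rfl).mono le_rfl (hK u hu) le_rfl
      · obtain ⟨v, hv, hvmax⟩ := Finset.exists_max_image (U.erase u) w hne'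
        have hvU : v ∈ U := Finset.mem_of_mem_erase hv
        have hvu : v ≠ u := (Finset.mem_erase.1 hv).1
        have hcard : ((U.erase u).erase v).card < n := by
          rw [← hn]
          exact (Finset.card_lt_card (Finset.erase_ssubset hv)).trans_le
            (Finset.card_le_card (Finset.erase_subset _ _))
        have hsub : ∀ z ∈ (U.erase u).erase v, z ∈ U := fun z hz =>
          Finset.mem_of_mem_erase (Finset.mem_of_mem_erase hz)
        have h1 := ih _ hcard ((U.erase u).erase v) rfl
          (hs.imp (fun h z hz => h z (hsub z hz)) fun h z hz => h z (hsub z hz))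
          (fun z hz => hK z (hsub z hz))
        have e1 : altF w U = w u - altF w (U.erase u) := by
          have := altF_insert_max w (U := U.erase u) (v := u) (Finset.notMem_erase _ _)
            (fun z hz => humax z (Finset.mem_of_mem_erase hz))
          rwa [Finset.insert_erase hu] at this
        have e2 : altF w (U.erase u) = w v - altF w ((U.erase u).erase v) := by
          have := altF_insert_max w (U := (U.erase u).erase v) (v := v) (Finset.notMem_erase _ _)
            (fun z hz => hvmax z (Finset.mem_of_mem_erase hz))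
          rwa [Finset.insert_erase hv] at this
        have hwuv : |((s u : ℤ) : ℝ) - s v| = w u - w v := by
          have h5 := humax v hvU
          simp only [hw] at h5 ⊢
          rcases hs with hs | hs
          · have h3 : (0 : ℝ) ≤ s u := by exact_mod_cast hs u hu
            have h4 : (0 : ℝ) ≤ s v := by exact_mod_cast hs v hvU
            rw [abs_of_nonneg h3, abs_of_nonneg h4] at h5 ⊢
            rw [abs_of_nonneg (by linarith)]
          · have h3 : (s u : ℝ) ≤ 0 := by exact_mod_cast hs u hu
            have h4 : (s v : ℝ) ≤ 0 := by exact_mod_cast hs v hvU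
            rw [abs_of_nonpos h3, abs_of_nonpos h4] at h5 ⊢
            rw [abs_of_nonpos (by linarith)]
            ring
        have h2 : St B s ({u, v} : Finset V) 0 (w u - w v) (w u - w v) := by
          refine St.opp hB hvu.symm ?_ hwuv.le
          have : 0 ≤ MM B u v := by unfold MM; linarith [h0 u v, h0 v u]
          have : (0 : ℝ) ≤ ((MM B u v : ℤ) : ℝ) := by exact_mod_cast this
          linarith
        have hwv : 0 ≤ w v := abs_nonneg _
        have h3 := h2.mono le_rfl (show w u - w v ≤ K by linarith [hK u hu]) le_rfl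
        have hU : U = (U.erase u).erase v ∪ {u, v} := by
          ext z
          simp only [Finset.mem_union, Finset.mem_erase, Finset.mem_insert, Finset.mem_singleton]
          by_cases h1 : z = u
          · subst h1; simp [hu]
          · by_cases h2 : z = v
            · subst h2; simp [hvU]
            · simp [h1, h2]
        have hd : Disjoint ((U.erase u).erase v) {u, v} := by
          rw [Finset.disjoint_right]
          intro z hz
          simp only [Finset.mem_insert, Finset.mem_singleton] at hz
          rcases hz with rfl | rfl <;> simp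
        rw [hU]
        rw [hU] at e1
        refine (h1.union h3 hd).mono (by norm_num) le_rfl ?_
        rw [← hU] at e1 ⊢
        rw [e1, e2]
        linarith

/-- a set of vertices of weight zero -/
lemma St.zero {s : V → ℤ} {Z : Finset V} (h : ∀ v ∈ Z, s v = 0)
    (h' : ∀ u ∈ Z, ∀ v ∈ Z, B u v = 0) {K : ℝ} (hK : 0 ≤ K) : St B s Z 0 K 0 := by
  have := St.group (B := B) (s := s) Z (fun _ => 1) (by simp) (M := 0) (K := 0) (by
    have : Qd B Z (fun _ => 1) = 0 := by
      unfold Qd
      exact Finset.sum_eq_zero fun u hu => Finset.sum_eq_zero fun v hv => by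
        rw [h' u hu v hv, zero_mul]
    rw [this]; simp) (by
    have : ∑ v ∈ Z, s v * (1 : ℤ) = 0 := Finset.sum_eq_zero fun v hv => by rw [h v hv, zero_mul]
    rw [this]; simp)
  exact this.mono le_rfl hK le_rfl

end Pool.Agent.Exact
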