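import Pool.Agent.Lib_helper68.Exact.Neutral

/-!
# The path statement with neutral vertices
-/

set_option autoImplicit false
set_option linter.unusedSectionVars false

namespace Pool.Agent.Exact

open Finset

variable {V : Type*} [DecidableEq V] {B : V → V → ℤ} {a : V → ℤ}

lemma insert_eq_union (w : V) (T : Finset V) : insert w T = T ∪ {w} := by
  rw [Finset.union_comm, ← Finset.insert_eq]

lemma ch_bounds (ha : ∀ v, 0 ≤ a v ∧ a v ≤ 2) (v : V) :
    1 ≤ a v + (if a v = 1 then 0 else 1) ∧ a v ≤ 1 + (if a v = 1 then (0 : ℤ) else 1) := by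
  have := ha v
  split_ifs with h
  · omega
  · constructor
    · omega
    · omega

/-- value after a complete star block -/
lemma DD_star_end (h0 : ∀ u v, 0 ≤ B u v) (hB : ∀ v, B v v = 0) (ha : ∀ v, 0 ≤ a v ∧ a v ≤ 2)
    {S : Finset V} (c : V) (L : Finset V) (hcS : c ∉ S)
    (hcL : c ∉ L) (hLS : Disjoint L S) (hL : L.Nonempty) (h1 : ∀ l ∈ L, 1 ≤ MM B c l)
    (h2 : ∀ l ∈ L, ∀ l' ∈ L, MM B l l' = 0) {x : V → ℤ} (σ : ℤ) (hσ : σ = 1 ∨ σ = -1)
    (hxc : x c = σ) (hxL : ∀ l ∈ L, x l = -σ) (hint : Int B S (insert c L) x ≤ 0) :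
    DD B a x (S ∪ insert c L) - ch a (S ∪ insert c L) ≤ DD B a x S - ch a S - 1 := by
  have hd : Disjoint S (insert c L) := by
    rw [Finset.disjoint_insert_right]
    exact ⟨hcS, hLS.symm⟩
  have hLcard : (1 : ℤ) ≤ L.card := by exact_mod_cast hL.card_pos
  rw [DD_union hd, ch_union hd, Qd_star c L hcL h0 hB h2]
  have e1 : ∑ l ∈ L, MM B c l * (x c * x l) = - ∑ l ∈ L, MM B c l := by
    rw [← Finset.sum_neg_distrib]
    refine Finset.sum_congr rfl fun l hl => ?_
    rw [hxc, hxL l hl]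
    rcases hσ with h | h <;> rw [h] <;> ring
  have e2 : ∑ w ∈ insert c L, (a w * x w + Int B S {w} x) =
      σ * (a c - ∑ l ∈ L, a l) + Int B S (insert c L) x := by
    rw [Finset.sum_add_distrib, ← Int_sum_right, Finset.sum_insert hcL, hxc]
    have : ∑ l ∈ L, a l * x l = - (σ * ∑ l ∈ L, a l) := by
      rw [Finset.mul_sum, ← Finset.sum_neg_distrib]
      exact Finset.sum_congr rfl fun l hl => by rw [hxL l hl]; ring
    rw [this]; ring
  have e3 : ch a (insert c L) = (if a c = 1 then 0 else 1) + ch a L := by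
    unfold ch
    rw [Finset.sum_insert hcL]
  have hM : (L.card : ℤ) ≤ ∑ l ∈ L, MM B c l := by
    have : ∑ l ∈ L, (1 : ℤ) ≤ ∑ l ∈ L, MM B c l := Finset.sum_le_sum fun l hl => h1 l hl
    simpa using this
  have hl1 : (L.card : ℤ) ≤ ∑ l ∈ L, a l + ch a L := by
    unfold ch
    rw [← Finset.sum_add_distrib]
    have : ∑ l ∈ L, (1 : ℤ) ≤ ∑ l ∈ L, (a l + if a l = 1 then 0 else 1) :=
      Finset.sum_le_sum fun l _ => (ch_bounds ha l).1
    simpa using this
  have hl2 : ∑ l ∈ L, a l ≤ (L.card : ℤ) + ch a L := by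
    unfold ch
    have : ∑ l ∈ L, a l ≤ ∑ l ∈ L, (1 + if a l = 1 then (0 : ℤ) else 1) :=
      Finset.sum_le_sum fun l _ => (ch_bounds ha l).2
    rw [Finset.sum_add_distrib] at this
    simpa using this
  have hc := ch_bounds ha c
  rw [e1, e2, e3]
  rcases hσ with h | h
  · rw [h]; linarith [hc.2]
  · rw [h]; linarith [hc.1]

/-- value after a complete triple -/
lemma DD_hole_end (hB : ∀ v, B v v = 0) (ha : ∀ v, 0 ≤ a v ∧ a v ≤ 2)
    {S : Finset V} (u v w : V) (hu : u ∉ S) (hv : v ∉ S)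
    (hw : w ∉ S) (huv : u ≠ v) (huw : u ≠ w) (hvw : v ≠ w) (h1 : 2 ≤ MM B u v) {x : V → ℤ} (σ : ℤ)
    (hσ : σ = 1 ∨ σ = -1) (hxu : x u = σ) (hxv : x v = -σ) (hxw : x w = 1 ∨ x w = -1)
    (hint : Int B S {u, v} x ≤ 0) (hint' : Int B (S ∪ {u, v}) {w} x ≤ 0) :
    DD B a x (insert w (S ∪ {u, v})) - ch a (insert w (S ∪ {u, v})) ≤
      DD B a x S - ch a S - 1 := by
  have hd : Disjoint S {u, v} := by
    rw [Finset.disjoint_right]
    intro z hz
    rw [Finset.mem_insert, Finset.mem_singleton] at hz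
    rcases hz with rfl | rfl
    · exact hu
    · exact hv
  have hwS : w ∉ S ∪ {u, v} := by
    simp only [Finset.mem_union, Finset.mem_insert, Finset.mem_singleton, not_or]
    exact ⟨hw, huw.symm, hvw.symm⟩
  have hdw : Disjoint (S ∪ {u, v}) {w} := by simpa using hwS
  have e' : insert w (S ∪ {u, v}) = (S ∪ {u, v}) ∪ {w} := insert_eq_union _ _
  have e4 : ∑ w ∈ ({u, v} : Finset V), Int B S {w} x = Int B S {u, v} x :=
    (Int_sum_right _ _ _).symm
  have e2 : ch a {u, v} = (if a u = 1 then 0 else 1) + (if a v = 1 then 0 else 1) := by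
    unfold ch
    rw [Finset.sum_pair huv]
  have e3 : ch a {w} = if a w = 1 then 0 else 1 := by simp [ch]
  have e5 : Qd B {u, v} x = - MM B u v := by
    rw [Qd_pair hB huv, hxu, hxv]
    rcases hσ with h | h <;> rw [h] <;> ring
  rw [e', DD_union hdw, DD_union hd, Qd_single w hB, ch_union hdw, ch_union hd,
    Finset.sum_add_distrib, e4, Finset.sum_pair huv, hxu, hxv, e2, e3, e5]
  simp only [Finset.sum_singleton]
  have cu := ch_bounds ha u
  have cv := ch_bounds ha v
  have cw := ch_bounds ha w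
  have aw := ha w
  have h3 : a u * σ + a v * -σ ≤ (if a u = 1 then 0 else 1) + (if a v = 1 then 0 else 1) := by
    rcases hσ with h | h <;> rw [h] <;> linarith [cu.1, cu.2, cv.1, cv.2]
  have h4 : a w * x w ≤ 1 + (if a w = 1 then 0 else 1) := by
    rcases hxw with h | h <;> rw [h] <;> linarith [cw.2, aw.1]
  linarith

/-- the realisation, with the number of blocks -/
theorem BlocksN.realise2 {N S : Finset V} {g : ℤ} (h : BlocksN B N S g) (h0 : ∀ u v, 0 ≤ B u v)
    (hB : ∀ v, B v v = 0) (ha : ∀ v, 0 ≤ a v ∧ a v ≤ 2) :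
    ∃ (x : V → ℤ) (nb : ℤ), (∀ v, x v = 1 ∨ x v = -1) ∧ Qd B S x ≤ -g ∧ GoodE B a x 1 S ∧
      GoodE B a (fun v => - x v) 1 S ∧ (∀ z ∈ N, ∑ u ∈ S, MM B u z * x u = 0) ∧
      (S.card : ℤ) ≤ g + nb ∧ 0 ≤ nb ∧ (S.Nonempty → 1 ≤ nb) ∧
      DD B a x S ≤ ch a S - nb ∧ DD B a (fun v => - x v) S ≤ ch a S - nb := by
  induction h with
  | empty => exact ⟨fun _ => 1, 0, fun _ => Or.inl rfl, by simp [Qd], GoodE.empty, GoodE.empty,
      by simp, by simp, le_rfl, by simp, by simp [DD_empty, ch_empty], by simp [DD_empty, ch_empty]⟩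
  | star S g c L hS hcS hcL hLS hL h1 h2 hN ih =>
    obtain ⟨x0, nb, hx0, hq, hg, hg', hneu, hcd, hnb0, hnb1, hDD, hDD'⟩ := ih
    have hd : Disjoint S (insert c L) := by
      rw [Finset.disjoint_insert_right]
      exact ⟨hcS, hLS.symm⟩
    set y : ℤ → V → ℤ := fun σ v => if v = c then σ else if v ∈ L then -σ else x0 v with hy
    have hyc : ∀ σ, y σ c = σ := by intro σ; simp [hy]
    have hyL : ∀ σ, ∀ l ∈ L, y σ l = -σ := by
      intro σ l hl
      have : l ≠ c := fun e => hcL (e ▸ hl)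
      simp [hy, this, hl]
    have hyS : ∀ σ, ∀ v ∈ S, y σ v = x0 v := by
      intro σ v hv
      have h3 : v ≠ c := fun e => hcS (e ▸ hv)
      have h4 : v ∉ L := fun h => Finset.disjoint_left.1 hLS h hv
      simp [hy, h3, h4]
    have hJ : ∀ σ, (σ = 1 ∨ σ = -1) →
        Int B S (insert c L) (y σ) = σ * Int B S (insert c L) (y 1) := by
      intro σ hσ
      unfold Int
      rw [Finset.mul_sum]
      refine Finset.sum_congr rfl fun u hu => ?_
      rw [Finset.mul_sum]
      refine Finset.sum_congr rfl fun v hv => ?_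
      rw [hyS σ u hu, hyS 1 u hu]
      rcases Finset.mem_insert.1 hv with rfl | hv
      · rw [hyc, hyc]; ring
      · rw [hyL σ v hv, hyL 1 v hv]; ring
    obtain ⟨σ, hσ, hσJ⟩ : ∃ σ : ℤ, (σ = 1 ∨ σ = -1) ∧ Int B S (insert c L) (y σ) ≤ 0 := by
      rcases le_total (Int B S (insert c L) (y 1)) 0 with h3 | h3
      · exact ⟨1, Or.inl rfl, h3⟩
      · refine ⟨-1, Or.inr rfl, ?_⟩
        rw [hJ _ (Or.inr rfl)]
        linarith
    have hσ' : -σ = 1 ∨ -σ = -1 := by
      rcases hσ with h | h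
      · right; rw [h]
      · left; rw [h]; norm_num
    have hM : (L.card : ℤ) ≤ ∑ l ∈ L, MM B c l := by
      have : ∑ l ∈ L, (1 : ℤ) ≤ ∑ l ∈ L, MM B c l := Finset.sum_le_sum fun l hl => h1 l hl
      simpa using this
    refine ⟨y σ, nb + 1, ?_, ?_, ?_, ?_, ?_, ?_, by linarith, fun _ => by linarith, ?_, ?_⟩
    · intro v
      simp only [hy]
      split_ifs
      · exact hσ
      · rcases hσ with h | h <;> rw [h] <;> norm_num
      · exact hx0 v
    · rw [Qd_union hd, Qd_congr (hyS σ), Qd_star c L hcL h0 hB h2]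
      have : ∑ l ∈ L, MM B c l * (y σ c * y σ l) = - ∑ l ∈ L, MM B c l := by
        rw [← Finset.sum_neg_distrib]
        refine Finset.sum_congr rfl fun l hl => ?_
        rw [hyc, hyL σ l hl]
        rcases hσ with h | h <;> rw [h] <;> ring
      rw [this]
      linarith
    · exact (hg.congr fun v hv => (hyS σ v hv).symm).star le_rfl h0 hB ha c L hcS hcL hLS hL h1 h2 σ hσ
        (hyc σ) (hyL σ) hσJ
    · refine GoodE.star (hg'.congr fun v hv => by rw [hyS σ v hv]) le_rfl h0 hB ha c L hcS hcL hLS hL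
        h1 h2 (-σ) hσ' (by rw [hyc σ]) (fun l hl => by rw [hyL σ l hl]) ?_
      rw [Int_neg]; exact hσJ
    · intro z hz
      rw [Finset.sum_union hd, Finset.sum_insert hcL, hyc]
      have e1 : ∑ u ∈ S, MM B u z * y σ u = 0 := by
        rw [← hneu z hz]
        exact Finset.sum_congr rfl fun u hu => by rw [hyS σ u hu]
      have e2 : ∑ l ∈ L, MM B l z * y σ l = - (∑ l ∈ L, MM B l z) * σ := by
        rw [← Finset.sum_neg_distrib, Finset.sum_mul]
        exact Finset.sum_congr rfl fun l hl => by rw [hyL σ l hl]; ring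
      rw [e1, e2, hN z hz]
      ring
    · rw [Finset.card_union_of_disjoint hd, Finset.card_insert_of_notMem hcL]
      push_cast
      linarith
    · have h5 := DD_star_end h0 hB ha c L hcS hcL hLS hL h1 h2 (x := y σ) σ hσ (hyc σ) (hyL σ) hσJ
      have h6 : DD B a (y σ) S = DD B a x0 S := DD_congr (hyS σ)
      linarith
    · have h5 := DD_star_end h0 hB ha c L hcS hcL hLS hL h1 h2 (x := fun v => - y σ v) (-σ) hσ'
        (by rw [hyc σ]) (fun l hl => by rw [hyL σ l hl]) (by rw [Int_neg]; exact hσJ)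
      have h6 : DD B a (fun v => - y σ v) S = DD B a (fun v => - x0 v) S :=
        DD_congr fun v hv => by rw [hyS σ v hv]
      linarith
  | hole S g u v w hS hu hv hw huv huw hvw h1 hN ih =>
    obtain ⟨x0, nb, hx0, hq, hg, hg', hneu, hcd, hnb0, hnb1, hDD, hDD'⟩ := ih
    have hd : Disjoint S {u, v} := by
      rw [Finset.disjoint_right]
      intro z hz
      rw [Finset.mem_insert, Finset.mem_singleton] at hz
      rcases hz with rfl | rfl
      · exact hu
      · exact hv
    have hvv : ∀ l ∈ ({v} : Finset V), ∀ l' ∈ ({v} : Finset V), MM B l l' = 0 := by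
      intro l hl l' hl'
      rw [Finset.mem_singleton] at hl hl'
      rw [hl, hl']
      simp [MM, hB]
    have hwS : w ∉ S ∪ {u, v} := by
      simp only [Finset.mem_union, Finset.mem_insert, Finset.mem_singleton, not_or]
      exact ⟨hw, huw.symm, hvw.symm⟩
    have hdw : Disjoint (S ∪ {u, v}) {w} := by simpa using hwS
    set y : ℤ → ℤ → V → ℤ := fun σ τ z => if z = u then σ else if z = v then -σ else
      if z = w then τ else x0 z with hy
    have hyu : ∀ σ τ, y σ τ u = σ := by intro σ τ; simp [hy]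
    have hyv : ∀ σ τ, y σ τ v = -σ := by intro σ τ; simp [hy, huv.symm]
    have hyw : ∀ σ τ, y σ τ w = τ := by intro σ τ; simp [hy, huw.symm, hvw.symm]
    have hyS : ∀ σ τ, ∀ z ∈ S, y σ τ z = x0 z := by
      intro σ τ z hz
      have h3 : z ≠ u := fun e => hu (e ▸ hz)
      have h4 : z ≠ v := fun e => hv (e ▸ hz)
      have h5 : z ≠ w := fun e => hw (e ▸ hz)
      simp [hy, h3, h4, h5]
    have hJ : ∀ σ τ, Int B S {u, v} (y σ τ) = σ * Int B S {u, v} (y 1 1) := by
      intro σ τ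
      unfold Int
      rw [Finset.mul_sum]
      refine Finset.sum_congr rfl fun z hz => ?_
      rw [Finset.sum_pair huv, Finset.sum_pair huv, hyu, hyv, hyS σ τ z hz, hyu, hyv,
        hyS 1 1 z hz]
      ring
    obtain ⟨σ, hσ, hσJ⟩ : ∃ σ : ℤ, (σ = 1 ∨ σ = -1) ∧ ∀ τ, Int B S {u, v} (y σ τ) ≤ 0 := by
      rcases le_total (Int B S {u, v} (y 1 1)) 0 with h3 | h3
      · exact ⟨1, Or.inl rfl, fun τ => by rw [hJ]; linarith⟩
      · refine ⟨-1, Or.inr rfl, fun τ => ?_⟩
        rw [hJ]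
        linarith
    have hJ' : ∀ τ, Int B (S ∪ {u, v}) {w} (y σ τ) = τ * Int B (S ∪ {u, v}) {w} (y σ 1) := by
      intro τ
      unfold Int
      rw [Finset.mul_sum]
      refine Finset.sum_congr rfl fun z hz => ?_
      rw [Finset.sum_singleton, Finset.sum_singleton, hyw, hyw]
      have : y σ τ z = y σ 1 z := by
        have h5 : z ≠ w := fun e => hwS (e ▸ hz)
        simp [hy, h5]
      rw [this]
      ring
    obtain ⟨τ, hτ, hτJ⟩ : ∃ τ : ℤ, (τ = 1 ∨ τ = -1) ∧ Int B (S ∪ {u, v}) {w} (y σ τ) ≤ 0 := by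
      rcases le_total (Int B (S ∪ {u, v}) {w} (y σ 1)) 0 with h3 | h3
      · exact ⟨1, Or.inl rfl, h3⟩
      · refine ⟨-1, Or.inr rfl, ?_⟩
        rw [hJ']
        linarith
    have hσ' : -σ = 1 ∨ -σ = -1 := by
      rcases hσ with h | h
      · right; rw [h]
      · left; rw [h]; norm_num
    have hτ' : -τ = 1 ∨ -τ = -1 := by
      rcases hτ with h | h
      · right; rw [h]
      · left; rw [h]; norm_num
    refine ⟨y σ τ, nb + 1, ?_, ?_, ?_, ?_, ?_, ?_, by linarith, fun _ => by linarith, ?_, ?_⟩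
    · intro z
      simp only [hy]
      split_ifs
      · exact hσ
      · rcases hσ with h | h <;> rw [h] <;> norm_num
      · exact hτ
      · exact hx0 z
    · have e : insert w (S ∪ {u, v}) = (S ∪ {u, v}) ∪ {w} := insert_eq_union _ _
      rw [e, Qd_union hdw, Qd_union hd, Qd_congr (hyS σ τ), Qd_single w hB, insert_pair_eq2,
        Qd_star u {v} (by simpa using huv) h0 hB hvv, ← insert_pair_eq2]
      simp only [Finset.sum_singleton]
      have h3 := hσJ τ
      have h4 : MM B u v * (y σ τ u * y σ τ v) = - MM B u v := by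
        rw [hyu, hyv]
        rcases hσ with h | h <;> rw [h] <;> ring
      rw [h4]
      linarith
    · exact (hg.congr fun z hz => (hyS σ τ z hz).symm).hole2 h0 hB ha u v w hu hv hw huv huw hvw h1
        σ hσ (hyu σ τ) (hyv σ τ) (by rw [hyw]; exact hτ) (hσJ τ) hτJ
    · refine GoodE.hole2 (hg'.congr fun z hz => by rw [hyS σ τ z hz]) h0 hB ha u v w hu hv hw huv huw
        hvw h1 (-σ) hσ' (by rw [hyu]) (by rw [hyv]) ?_ ?_ ?_
      · rw [hyw]; exact hτ'
      · rw [Int_neg]; exact hσJ τ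
      · rw [Int_neg]; exact hτJ
    · intro z hz
      have hd3 : w ∉ S ∪ {u, v} := hwS
      rw [Finset.sum_insert hd3, Finset.sum_union hd, Finset.sum_pair huv, hyu, hyv]
      have e1 : ∑ s ∈ S, MM B s z * y σ τ s = 0 := by
        rw [← hneu z hz]
        exact Finset.sum_congr rfl fun s hs => by rw [hyS σ τ s hs]
      rw [e1, (hN z hz).1, (hN z hz).2]
      ring
    · rw [Finset.card_insert_of_notMem hwS, Finset.card_union_of_disjoint hd, Finset.card_pair huv]
      push_cast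
      linarith
    · have h5 := DD_hole_end (a := a) hB ha u v w hu hv hw huv huw hvw h1 (x := y σ τ) σ hσ
        (hyu σ τ) (hyv σ τ) (by rw [hyw]; exact hτ) (hσJ τ) hτJ
      have h6 : DD B a (y σ τ) S = DD B a x0 S := DD_congr (hyS σ τ)
      linarith
    · have h5 := DD_hole_end (a := a) hB ha u v w hu hv hw huv huw hvw h1
        (x := fun v => - y σ τ v) (-σ) hσ'
        (by rw [hyu]) (by rw [hyv]) (by rw [hyw]; exact hτ') (by rw [Int_neg]; exact hσJ τ)
        (by rw [Int_neg]; exact hτJ)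
      have h6 : DD B a (fun v => - y σ τ v) S = DD B a (fun v => - x0 v) S :=
        DD_congr fun v hv => by rw [hyS σ τ v hv]
      linarith

end Pool.Agent.Exact
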