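import Pool.Agent.Lib_helper68.Exact.Run
import Pool.Agent.Lib_helper68.Exact.Place

/-!
# The path statement with neutral vertices, second part
-/

set_option autoImplicit false
set_option linter.unusedSectionVars false

namespace Pool.Agent.Exact

open Finset

variable {V : Type*} [Fintype V] [DecidableEq V] {B : V → V → ℤ}

/-- the values available at a crossing -/
def Cr (B : V → V → ℤ) (R C : Finset V) (Db : ℝ) : Prop :=
  ∀ M K t rQ rP : ℝ, 0 ≤ K → St B (im B) C M K t →
    (∀ v ∈ R, 0 ≤ im B v → ((im B v : ℤ) : ℝ) ≤ rQ) → rQ ≤ K → 0 ≤ rQ →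
    (∀ v ∈ R, im B v < 0 → -((im B v : ℤ) : ℝ) ≤ rP) → rP ≤ K → 0 ≤ rP →
    Val B (Db + M + max K ((t + rQ + rP) / 2))

/-- the values available at the end of the path, with bounds `Db` and `β` -/
def En (B : V → V → ℤ) (C : Finset V) (Db β : ℝ) : Prop :=
  ∃ D L : ℝ, 0 ≤ L ∧ D ≤ Db ∧ D + L ≤ β ∧ ∀ M K t : ℝ, 0 ≤ K → St B (im B) C M K t →
    Val B (D + M + max (max L K) ((L + t) / 2))

lemma En.mono {C : Finset V} {Db β Db' β' : ℝ} (h : En B C Db β) (h1 : Db ≤ Db') (h2 : β ≤ β') :
    En B C Db' β' := by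
  obtain ⟨D, L, h3, h4, h5, h6⟩ := h
  exact ⟨D, L, h3, h4.trans h1, h5.trans h2, h6⟩

lemma Cr.mono {R C : Finset V} {Db Db' : ℝ} (h : Cr B R C Db) (h1 : Db ≤ Db') : Cr B R C Db' := by
  intro M K t rQ rP hK hst a1 a2 a3 a4 a5 a6
  exact (h M K t rQ rP hK hst a1 a2 a3 a4 a5 a6).mono (by linarith)

/-- **One run of the path.** -/
theorem run (hB : ∀ v, B v v = 0) (h0 : ∀ u v, 0 ≤ B u v) (h : V) (R C : Finset V)
    (hR : h ∉ R) (hC : h ∉ C) (hd : Disjoint R C) (hu : insert h (R ∪ C) = univ)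
    {x : V → ℤ} (hx : ∀ v, x v = 1 ∨ x v = -1) {Db : ℤ} (hDb : 0 ≤ Db)
    (hP : PathB B (MM B h) x Db R) (hq : 0 < im B h) :
    Cr B R C Db ∨ (0 < im B h + ∑ v ∈ R, im B v * x v ∧ DD B (MM B h) x R ≤ Db ∧
      ∀ M K t : ℝ, 0 ≤ K → St B (im B) C M K t →
        Val B (((DD B (MM B h) x R : ℤ) : ℝ) + M +
          max (max ((im B h + ∑ v ∈ R, im B v * x v : ℤ) : ℝ) K)
            ((((im B h + ∑ v ∈ R, im B v * x v : ℤ) : ℝ) + t) / 2))) := by
  have hneg : ∀ X : Finset V, ∑ v ∈ X, (- im B v) * x v = - ∑ v ∈ X, im B v * x v := by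
    intro X
    rw [← Finset.sum_neg_distrib]
    exact Finset.sum_congr rfl fun v _ => by ring
  rcases lt_or_ge 0 (im B h + ∑ v ∈ R, im B v * x v) with h1 | h1
  · right
    refine ⟨h1, hP.le hDb, ?_⟩
    intro M K t hK hst
    have hC' : C = (insert h R)ᶜ := by
      ext z
      have hz : z ∈ insert h (R ∪ C) := by rw [hu]; exact Finset.mem_univ z
      simp only [Finset.mem_insert, Finset.mem_union] at hz
      simp only [Finset.mem_compl, Finset.mem_insert, not_or]
      constructor
      · intro h3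
        exact ⟨fun e => hC (e ▸ h3), fun h4 => Finset.disjoint_left.1 hd h4 h3⟩
      · rintro ⟨h3, h4⟩
        rcases hz with h5 | h5 | h5
        · exact absurd h5 h3
        · exact absurd h5 h4
        · exact h5
    rw [hC'] at hst
    have h3 := stopSt hB h R hR x hx hK hst
    rw [abs_of_pos (by exact_mod_cast h1)] at h3
    exact h3
  · left
    intro M K t rQ rP hK hst a1 a2 a3 a4 a5 a6
    have hc : ((im B h : ℤ) : ℝ) ≤ ((∑ v ∈ R, (- im B v) * x v : ℤ) : ℝ) := by
      rw [hneg]
      have : im B h ≤ - ∑ v ∈ R, im B v * x v := by linarith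
      exact_mod_cast this
    obtain ⟨P, v, hvP, hPR, hD1, hD2, hc1, hc2⟩ := hP.cross (t := fun v => - im B v) hDb
      ((im B h : ℤ) : ℝ) (by exact_mod_cast hq) hc
    exact crossing_core hB h0 h R C hR hC hd hu hx hvP hPR (by exact_mod_cast hD1)
      (by exact_mod_cast hD2) hc1 hc2 hK hst a1 a2 a3 a4 a5 a6

/-- the values available if only the last vertex leads to a crossing -/
def CrS (B : V → V → ℤ) (R C : Finset V) (Db D1 : ℝ) : Prop :=
  ∀ M K t r κ : ℝ, 0 ≤ K → St B (im B) C M K t →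
    (∀ v ∈ R, im B v < 0 → -((im B v : ℤ) : ℝ) ≤ r) → 0 ≤ r →
    Val B (Db + M + max (max K κ) ((t + r) / 2)) ∨
      Val B (D1 + M + max (max K r) ((t + 2 * r - κ) / 2))

/-- the end of the path with a last vertex `y`; the first kind of values does not use `y` -/
def EnL (B : V → V → ℤ) (a : V → ℤ) (S C : Finset V) (D1 β : ℝ) : Prop :=
  ∃ y ∈ S, im B y + a y < 0 ∧ 1 ≤ a y ∧ ∃ D L : ℝ, 1 ≤ L ∧ D ≤ D1 ∧ D + a y ≤ D1 + 1 ∧
    D + L + a y + ((im B y : ℤ) : ℝ) ≤ β ∧
    (∀ M K t : ℝ, 0 ≤ K → St B (im B) (insert y C) M K t →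
      Val B (D + M + max (max L K) ((L + t) / 2))) ∧
    (∀ M K t : ℝ, 0 ≤ K → St B (im B) C M K t →
      Val B (D + a y + M + max (max |L + ((im B y : ℤ) : ℝ)| K)
        ((|L + ((im B y : ℤ) : ℝ)| + t) / 2)))

lemma EnL.mono {a : V → ℤ} {S C : Finset V} {D1 β D1' β' : ℝ} (h : EnL B a S C D1 β)
    (h1 : D1 ≤ D1') (h2 : β ≤ β') : EnL B a S C D1' β' := by
  obtain ⟨y, hy, h3, h4, D, L, h5, h6, h6', h7, h8, h9⟩ := h
  exact ⟨y, hy, h3, h4, D, L, h5, h6.trans h1, by linarith, h7.trans h2, h8, h9⟩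

lemma CrS.mono {R C : Finset V} {Db D1 Db' D1' : ℝ} (h : CrS B R C Db D1) (h1 : Db ≤ Db')
    (h2 : D1 ≤ D1') : CrS B R C Db' D1' := by
  intro M K t r κ hK hst a1 a2
  rcases h M K t r κ hK hst a1 a2 with h3 | h3
  · exact Or.inl (h3.mono (by linarith))
  · exact Or.inr (h3.mono (by linarith))

/-- with a last vertex there are the values of the last crossing or of the end of the path -/
lemma EnL.toCr (hB : ∀ v, B v v = 0) {a : V → ℤ} {R S C : Finset V} {D1 β : ℝ}
    (h : EnL B a S C D1 β) (hSR : S ⊆ R) (hd : Disjoint S C) :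
    CrS B R C (D1 + 1) D1 ∨ En B C (D1 + 1) β := by
  obtain ⟨y, hy, h3, h4, D, L, h5, h6, hDy, h7, h8, h9⟩ := h
  have hy0 : im B y < 0 := by linarith
  have hy0' : ((im B y : ℤ) : ℝ) < 0 := by exact_mod_cast hy0
  rcases lt_or_ge 0 (L + ((im B y : ℤ) : ℝ)) with h10 | h10
  · right
    refine ⟨D + a y, L + ((im B y : ℤ) : ℝ), h10.le, by linarith, by linarith, ?_⟩
    intro M K t hK hst
    have := h9 M K t hK hst
    rw [abs_of_pos h10] at this
    exact this
  · left
    intro M K t r κ hK hst hr hr0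
    have hyr := hr y (hSR hy) hy0
    rcases le_or_gt (-(L + ((im B y : ℤ) : ℝ))) κ with h11 | h11
    · left
      have h12 := h9 M K t hK hst
      rw [abs_of_nonpos h10] at h12
      refine h12.mono ?_
      have h13 : max (max (-(L + ((im B y : ℤ) : ℝ))) K) ((-(L + ((im B y : ℤ) : ℝ)) + t) / 2) ≤
          max (max K κ) ((t + r) / 2) :=
        max_le_max (max_le (h11.trans (le_max_right _ _)) (le_max_left _ _)) (by linarith)
      linarith
    · right
      have hyC : Disjoint C {y} := by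
        rw [Finset.disjoint_singleton_right]
        exact fun h' => Finset.disjoint_left.1 hd hy h'
      have h12 : St B (im B) {y} 0 (max K r) r :=
        (St.one hB y (K := -((im B y : ℤ) : ℝ)) (by rw [abs_of_neg hy0'])).mono le_rfl
          (hyr.trans (le_max_right _ _)) hyr
      have h14 := St.union (hst.mono le_rfl (le_max_left K r) le_rfl) h12 hyC
      have e : C ∪ {y} = insert y C := by
        ext z; simp only [Finset.mem_union, Finset.mem_singleton, Finset.mem_insert]; tauto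
      rw [e] at h14
      refine (h8 _ _ _ (hK.trans (le_max_left _ _)) h14).mono ?_
      have hL : L ≤ r - κ := by linarith
      have hLr : L ≤ r := by linarith
      have h13 : max (max L (max K r)) ((L + (t + r)) / 2) ≤
          max (max K r) ((t + 2 * r - κ) / 2) :=
        max_le_max (max_le (hLr.trans (le_max_right _ _)) le_rfl) (by linarith)
      linarith

/-- One run of the path whose last vertex is `y`. -/
theorem run_last (hB : ∀ v, B v v = 0) (h0 : ∀ u v, 0 ≤ B u v) (h : V) (R C : Finset V)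
    (hR : h ∉ R) (hC : h ∉ C) (hd : Disjoint R C) (hu : insert h (R ∪ C) = univ)
    {x : V → ℤ} (hx : ∀ v, x v = 1 ∨ x v = -1) {b : ℤ} (hb : 0 ≤ b) {y : V} (hy : y ∈ R)
    (hP : PathB B (MM B h) x b (R.erase y)) (hq : 0 < im B h) :
    Cr B R C b ∨ (0 < im B h + ∑ v ∈ R.erase y, im B v * x v ∧
      (∀ M K t : ℝ, 0 ≤ K → St B (im B) (insert y C) M K t →
        Val B (((DD B (MM B h) x (R.erase y) : ℤ) : ℝ) + M +
          max (max ((im B h + ∑ v ∈ R.erase y, im B v * x v : ℤ) : ℝ) K)
            ((((im B h + ∑ v ∈ R.erase y, im B v * x v : ℤ) : ℝ) + t) / 2))) ∧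
      (∀ M K t : ℝ, 0 ≤ K → St B (im B) C M K t →
        Val B (((DD B (MM B h) x R : ℤ) : ℝ) + M +
          max (max |((im B h + ∑ v ∈ R, im B v * x v : ℤ) : ℝ)| K)
            ((|((im B h + ∑ v ∈ R, im B v * x v : ℤ) : ℝ)| + t) / 2)))) := by
  have hneg : ∀ X : Finset V, ∑ v ∈ X, (- im B v) * x v = - ∑ v ∈ X, im B v * x v := by
    intro X
    rw [← Finset.sum_neg_distrib]
    exact Finset.sum_congr rfl fun v _ => by ring
  have hC' : C = (insert h R)ᶜ := by
    ext z
    have hz : z ∈ insert h (R ∪ C) := by rw [hu]; exact Finset.mem_univ z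
    simp only [Finset.mem_insert, Finset.mem_union] at hz
    simp only [Finset.mem_compl, Finset.mem_insert, not_or]
    constructor
    · intro h3
      exact ⟨fun e => hC (e ▸ h3), fun h4 => Finset.disjoint_left.1 hd h4 h3⟩
    · rintro ⟨h3, h4⟩
      rcases hz with h5 | h5 | h5
      · exact absurd h5 h3
      · exact absurd h5 h4
      · exact h5
  have hyh : y ≠ h := fun e => hR (e ▸ hy)
  have hC2 : insert y C = (insert h (R.erase y))ᶜ := by
    rw [hC']
    ext z
    simp only [Finset.mem_compl, Finset.mem_insert, not_or, Finset.mem_erase, not_and]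
    constructor
    · rintro (rfl | ⟨h3, h4⟩)
      · exact ⟨hyh, fun h5 => absurd rfl h5⟩
      · exact ⟨h3, fun _ => h4⟩
    · rintro ⟨h3, h4⟩
      by_cases hzy : z = y
      · exact Or.inl hzy
      · exact Or.inr ⟨h3, h4 hzy⟩
  rcases lt_or_ge 0 (im B h + ∑ v ∈ R.erase y, im B v * x v) with h1 | h1
  · right
    refine ⟨h1, ?_, ?_⟩
    · intro M K t hK hst
      rw [hC2] at hst
      have h3 := stopSt hB h (R.erase y) (fun h' => hR (Finset.mem_of_mem_erase h')) x hx hK hst
      rw [abs_of_pos (by exact_mod_cast h1)] at h3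
      exact h3
    · intro M K t hK hst
      rw [hC'] at hst
      exact stopSt hB h R hR x hx hK hst
  · left
    intro M K t rQ rP hK hst a1 a2 a3 a4 a5 a6
    have hc : ((im B h : ℤ) : ℝ) ≤ ((∑ v ∈ R.erase y, (- im B v) * x v : ℤ) : ℝ) := by
      rw [hneg]
      have : im B h ≤ - ∑ v ∈ R.erase y, im B v * x v := by linarith
      exact_mod_cast this
    obtain ⟨P, v, hvP, hPR, hD1, hD2, hc1, hc2⟩ := hP.cross (t := fun v => - im B v) hb
      ((im B h : ℤ) : ℝ) (by exact_mod_cast hq) hc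
    exact crossing_core hB h0 h R C hR hC hd hu hx hvP (hPR.trans (Finset.erase_subset _ _))
      (by exact_mod_cast hD1) (by exact_mod_cast hD2) hc1 hc2 hK hst a1 a2 a3 a4 a5 a6

lemma ch_nonneg {a : V → ℤ} (S : Finset V) : 0 ≤ ch a S := by
  unfold ch
  exact Finset.sum_nonneg fun v _ => by split_ifs <;> norm_num

lemma ch_mono {a : V → ℤ} {S T : Finset V} (h : S ⊆ T) : ch a S ≤ ch a T := by
  unfold ch
  exact Finset.sum_le_sum_of_subset_of_nonneg h fun v _ _ => by split_ifs <;> norm_num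

open Classical in
/-- the gain of the harmless neutral vertices -/
noncomputable def Gam (B : V → V → ℤ) (h : V) (S : Finset V) : ℤ :=
  ∑ v ∈ S.filter (Harm (MM B h) (im B)), |MM B h v + im B v|

/-- the end of the path, with or without a last vertex -/
def Out (B : V → V → ℤ) (a : V → ℤ) (S C : Finset V) (D1 β : ℝ) : Prop :=
  En B C D1 β ∨ EnL B a S C D1 β

lemma Out.mono {a : V → ℤ} {S C : Finset V} {D1 β D1' β' : ℝ} (h : Out B a S C D1 β)
    (h1 : D1 ≤ D1') (h2 : β ≤ β') : Out B a S C D1' β' := by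
  rcases h with h | h
  · exact Or.inl (h.mono h1 h2)
  · exact Or.inr (h.mono h1 h2)

lemma exists_sign_abs (L w : ℝ) : ∃ τ : ℤ, (τ = 1 ∨ τ = -1) ∧ |L + w * τ| = |(|L| - |w|)| := by
  rcases le_total 0 L with h1 | h1 <;> rcases le_total 0 w with h2 | h2
  · exact ⟨-1, Or.inr rfl, by
      rw [abs_of_nonneg h1, abs_of_nonneg h2]
      push_cast
      rw [show L + w * -1 = L - w by ring]⟩
  · exact ⟨1, Or.inl rfl, by
      rw [abs_of_nonneg h1, abs_of_nonpos h2]
      push_cast
      rw [show L + w * 1 = L - -w by ring]⟩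
  · exact ⟨1, Or.inl rfl, by
      rw [abs_of_nonpos h1, abs_of_nonneg h2]
      push_cast
      rw [show L + w * 1 = -(-L - w) by ring, abs_neg]⟩
  · exact ⟨-1, Or.inr rfl, by
      rw [abs_of_nonpos h1, abs_of_nonpos h2]
      push_cast
      rw [show L + w * -1 = -(-L - -w) by ring, abs_neg]⟩

/-- placing a set `F` of neutral vertices with sign `+` -/
theorem placeF {W : Type*} [DecidableEq W] {B : W → W → ℤ} {a : W → ℤ} (hB : ∀ v, B v v = 0)
    (ha : ∀ v, 0 ≤ a v) {b : ℤ} {X F : Finset W} {x : W → ℤ} (hx : ∀ v, x v = 1 ∨ x v = -1)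
    (hP : PathB B a x b X) (hd : Disjoint X F) (hn : ∀ v ∈ F, ∑ u ∈ X, MM B u v * x u = 0)
    (hi : ∀ u ∈ F, ∀ v ∈ F, MM B u v = 0) (hD : DD B a x X + ∑ v ∈ F, a v ≤ b) :
    ∃ x' : W → ℤ, (∀ v, x' v = 1 ∨ x' v = -1) ∧ (∀ v ∈ X, x' v = x v) ∧ (∀ v ∈ F, x' v = 1) ∧
      PathB B a x' b (X ∪ F) ∧ DD B a x' (X ∪ F) = DD B a x X + ∑ v ∈ F, a v := by
  classical
  set x' : W → ℤ := fun u => if u ∈ F then 1 else x u with hx'
  have h1 : ∀ v ∈ X, x' v = x v := by
    intro v hv
    have : v ∉ F := Finset.disjoint_left.1 hd hv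
    simp [hx', this]
  have h2 : ∀ v ∈ F, x' v = 1 := by
    intro v hv
    simp [hx', hv]
  refine ⟨x', ?_, h1, h2, ?_⟩
  · intro v
    simp only [hx']
    split_ifs
    · left; rfl
    · exact hx v
  have key : ∀ T : Finset W, T ⊆ F → PathB B a x' b (X ∪ T) ∧
      DD B a x' (X ∪ T) = DD B a x X + ∑ v ∈ T, a v := by
    intro T
    induction T using Finset.induction_on with
    | empty =>
      intro _
      rw [Finset.union_empty, Finset.sum_empty, add_zero]
      exact ⟨hP.congr fun u hu => (h1 u hu).symm, DD_congr h1⟩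
    | insert v T hv ih =>
      intro hT
      obtain ⟨h3, h4⟩ := ih ((Finset.subset_insert _ _).trans hT)
      have hvF : v ∈ F := hT (Finset.mem_insert_self _ _)
      have hvX : v ∉ X ∪ T := by
        simp only [Finset.mem_union, not_or]
        exact ⟨Finset.disjoint_right.1 hd hvF, hv⟩
      have hdT : Disjoint X T := Finset.disjoint_of_subset_right
        ((Finset.subset_insert _ _).trans hT) hd
      have h5 : ∑ u ∈ X ∪ T, MM B u v * x' u = 0 := by
        rw [Finset.sum_union hdT]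
        have h6 : ∑ u ∈ X, MM B u v * x' u = 0 := by
          rw [← hn v hvF]
          exact Finset.sum_congr rfl fun u hu => by rw [h1 u hu]
        have h7 : ∑ u ∈ T, MM B u v * x' u = 0 := by
          refine Finset.sum_eq_zero fun u hu => ?_
          rw [hi u (hT (Finset.mem_insert_of_mem hu)) v hvF, zero_mul]
        rw [h6, h7, add_zero]
      have h8 := DD_place (a := a) hB hvX (x := x') (x' := x') (fun _ _ => rfl) h5
      have h9 : DD B a x' (insert v (X ∪ T)) = DD B a x X + ∑ w ∈ insert v T, a w := by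
        rw [h8, h4, h2 v hvF, Finset.sum_insert hv]
        ring
      rw [Finset.union_insert]
      refine ⟨PathB.step (X ∪ T) v h3 hvX ?_, h9⟩
      rw [h9]
      refine le_trans ?_ hD
      have : ∑ w ∈ insert v T, a w ≤ ∑ w ∈ F, a w :=
        Finset.sum_le_sum_of_subset_of_nonneg hT fun w _ _ => ha w
      linarith
  exact key F (Finset.Subset.refl _)

/-- **Path statement with neutral vertices.** -/
theorem path_neutralF (h0 : ∀ u v, 0 ≤ B u v) (h1 : ∀ u v, B u v ≤ 1) (hB : ∀ v, B v v = 0)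
    (h : V) (hq : 0 < im B h) {Rs S C : Finset V} {g : ℤ} (hbl : BlocksN B S Rs g)
    (hdS : Disjoint Rs S) (hind : ∀ u ∈ S, ∀ v ∈ S, MM B u v = 0)
    (hhR : h ∉ Rs ∪ S) (hC : h ∉ C) (hd : Disjoint (Rs ∪ S) C)
    (hu : insert h ((Rs ∪ S) ∪ C) = univ) {cR e : ℤ} (hcR : ch (MM B h) (Rs ∪ S) ≤ cR)
    (he1 : e ≤ 1) (he : Rs = ∅ → e ≤ 0) :
    ∃ Y nb : ℤ, (0 ≤ Y ∧ (Rs = ∅ → Y = 0)) ∧ 0 ≤ nb ∧ e ≤ nb ∧ (Rs.Nonempty → 1 ≤ nb) ∧ (Rs.card : ℤ) ≤ g + nb ∧
      (∀ S0 ⊆ S, ∀ y0 M K t : ℝ, 0 ≤ K → 0 ≤ y0 → (∀ v ∈ S0, |((im B v : ℤ) : ℝ)| ≤ y0) →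
        St B (im B) (univ \ (Rs ∪ S0)) M K t →
        Val B (-(g : ℝ) + M + max (max (max ((Y : ℝ) - ∑ v ∈ S0, |((im B v : ℤ) : ℝ)|) y0) K)
          ((max ((Y : ℝ) - ∑ v ∈ S0, |((im B v : ℤ) : ℝ)|) y0 + t) / 2))) ∧
      (∀ F ⊆ S, (∀ v ∈ F, im B v + MM B h v < 0 ∧ 1 ≤ MM B h v) →
        Cr B (Rs ∪ S) C ((max (max 0 (cR - e)) (cR - nb + F.card) : ℤ) : ℝ) ∨
        (Out B (MM B h) S C ((cR - nb + F.card : ℤ) : ℝ)
            ((im B h - g - Gam B h S + ∑ v ∈ F, (MM B h v + im B v) : ℤ) : ℝ) ∧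
          Out B (MM B h) S C ((cR - nb + F.card : ℤ) : ℝ)
            ((cR - nb + im B h - Y + ∑ v ∈ F, (MM B h v + im B v) : ℤ) : ℝ))) ∧
      (Cr B (Rs ∪ S) C ((max 0 (cR - e) : ℤ) : ℝ) ∨
        (Out B (MM B h) S C ((cR - nb : ℤ) : ℝ) ((im B h - g - Gam B h S : ℤ) : ℝ) ∧
          Out B (MM B h) S C ((cR - nb : ℤ) : ℝ) ((cR - nb + im B h - Y : ℤ) : ℝ) ∧
          (∀ v ∈ S, 0 ≤ im B v →
            Out B (MM B h) S C ((cR - nb : ℤ) : ℝ)
              ((cR - nb + im B h - Y - |im B v| : ℤ) : ℝ)) ∧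
          (e + 1 ≤ nb → ∀ v ∈ S,
            Out B (MM B h) S C ((cR - nb + 1 : ℤ) : ℝ)
              ((cR - nb + 1 + im B h - Y - |im B v| : ℤ) : ℝ)))) := by
  classical
  have ha : ∀ v, 0 ≤ MM B h v ∧ MM B h v ≤ 2 := fun v => MM_range h0 h1 h v
  have hGamS : Gam B h S = ∑ v ∈ S.filter (Harm (MM B h) (im B)), |MM B h v + im B v| := by
    unfold Gam
    congr
  rw [hGamS]
  set a := MM B h with hadef
  obtain ⟨x0, nb, hx0, hq0, hg0, hg0', hneu, hcard, hnb0, hnb1, hDD, hDD'⟩ :=
    hbl.realise2 h0 hB ha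
  have hnbe : e ≤ nb := by
    rcases Rs.eq_empty_or_nonempty with h3 | h3
    · exact (he h3).trans hnb0
    · exact he1.trans (hnb1 h3)
  set b : ℤ := max 0 (cR - e) with hbdef
  have hb0 : 0 ≤ b := le_max_left _ _
  have hb1 : cR - e ≤ b := le_max_right _ _
  have hchU : ch a (Rs ∪ S) = ch a Rs + ch a S := ch_union hdS
  have hchS0 : 0 ≤ ch a S := ch_nonneg _
  have hchRs : ch a Rs ≤ cR := by linarith
  -- both signs
  have both : ∀ f : V → ℤ, ∃ x : V → ℤ, (∀ v, x v = 1 ∨ x v = -1) ∧ Qd B Rs x ≤ -g ∧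
      GoodE B a x 1 Rs ∧ (∀ z ∈ S, ∑ u ∈ Rs, MM B u z * x u = 0) ∧
      DD B a x Rs ≤ ch a Rs - nb ∧ ∑ v ∈ Rs, f v * x v ≤ 0 := by
    intro f
    rcases le_total (∑ v ∈ Rs, f v * x0 v) 0 with h3 | h3
    · exact ⟨x0, hx0, hq0, hg0, hneu, hDD, h3⟩
    · refine ⟨fun v => - x0 v, ?_, ?_, hg0', ?_, hDD', ?_⟩
      · intro v
        rcases hx0 v with h | h <;> simp [h]
      · rw [Qd_neg]; exact hq0
      · intro z hz
        have : ∑ u ∈ Rs, MM B u z * - x0 u = - ∑ u ∈ Rs, MM B u z * x0 u := by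
          rw [← Finset.sum_neg_distrib]
          exact Finset.sum_congr rfl fun v _ => by ring
        rw [this, hneu z hz, neg_zero]
      · have : ∑ v ∈ Rs, f v * - x0 v = - ∑ v ∈ Rs, f v * x0 v := by
          rw [← Finset.sum_neg_distrib]
          exact Finset.sum_congr rfl fun v _ => by ring
        rw [this]; linarith
  -- a good path as a `PathB`
  have toP : ∀ x : V → ℤ, GoodE B a x 1 Rs → PathB B a x b Rs := by
    intro x hx
    refine hx.toPathB fun P hP _ => ?_
    have := ch_mono (a := a) hP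
    linarith
  have chS : ∀ v ∈ S, (if a v = 1 then 0 else 1) ≤ ch a S := by
    intro v hv
    unfold ch
    exact Finset.single_le_sum (f := fun v => if a v = 1 then (0 : ℤ) else 1)
      (fun i _ => by split_ifs <;> norm_num) hv
  have hGam0 : ∀ T : Finset V, 0 ≤ ∑ v ∈ T.filter (Harm a (im B)), |a v + im B v| :=
    fun T => Finset.sum_nonneg fun v _ => abs_nonneg _
  -- the general run after `X`
  have go : ∀ (b : ℤ), 0 ≤ b → ∀ (X T : Finset V) (x : V → ℤ) (Df : ℤ),
      (∀ v, x v = 1 ∨ x v = -1) →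
      PathB B a x b X → Disjoint X T → X ∪ T = Rs ∪ S → T ⊆ S → DD B a x X ≤ b →
      (∀ v ∈ T, a v = 2 → DD B a x X + 1 ≤ b) → (∀ z ∈ T, ∑ u ∈ X, MM B u z * x u = 0) →
      DD B a x X + ch a T ≤ Df →
      Cr B (Rs ∪ S) C (b : ℝ) ∨
        Out B a S C (Df : ℝ) ((DD B a x X + ∑ v ∈ X, im B v * x v + im B h -
        ∑ v ∈ T.filter (Harm a (im B)), |a v + im B v| : ℤ) : ℝ) := by
    intro b hb0 X T x Df hx hP hdX hXT hTS hD1 hD2 hn hDf
    obtain ⟨x', b1, b2, b3, b4⟩ := place hB ha (im B) (b := b) T.card T X x rfl hx hP hdX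
      hD1 hD2 hn (fun u hu v hv => hind u (hTS hu) v (hTS hv))
    rw [hXT] at b3 b4
    have hfin : DD B a x' (Rs ∪ S) + (im B h + ∑ v ∈ Rs ∪ S, im B v * x' v) ≤
            DD B a x X + ∑ v ∈ X, im B v * x v + im B h -
              ∑ v ∈ T.filter (Harm a (im B)), |a v + im B v| := by linarith
    rcases b3 with ⟨b3, b5⟩ | ⟨y, hyT, c1, c2, c3, c4, c5, c6⟩
    · have hle : DD B a x' (Rs ∪ S) ≤ Df := by linarith
      rcases run hB h0 h (Rs ∪ S) C hhR hC hd hu b1 hb0 b3 hq with h3 | ⟨h3, h4, h5⟩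
      · exact Or.inl h3
      · right; left
        refine ⟨_, _, ?_, ?_, ?_, h5⟩
        · exact_mod_cast h3.le
        · exact_mod_cast hle
        · exact_mod_cast hfin
    · have hyR : y ∈ Rs ∪ S := by rw [Finset.mem_union]; right; exact hTS hyT
      have hyS : y ∈ S := hTS hyT
      have hchT : a y ≤ 1 + ch a T := by
        have h3 := ch_bounds ha y
        have h4 : (if a y = 1 then 0 else 1) ≤ ch a T := by
          unfold ch
          exact Finset.single_le_sum (f := fun v => if a v = 1 then (0 : ℤ) else 1)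
            (fun i _ => by split_ifs <;> norm_num) hyT
        linarith [h3.2]
      have hcT0 : 0 ≤ ch a T := ch_nonneg _
      rcases run_last hB h0 h (Rs ∪ S) C hhR hC hd hu b1 hb0 hyR c1 hq with
        h3 | ⟨h3, h4, h5⟩
      · exact Or.inl h3
      · right; right
        have hsum : ∑ v ∈ Rs ∪ S, im B v * x' v = im B y +
            ∑ v ∈ (Rs ∪ S).erase y, im B v * x' v := by
          rw [← Finset.add_sum_erase _ _ hyR, c6, mul_one]
        refine ⟨y, hyS, c2, c3, ((DD B a x' ((Rs ∪ S).erase y) : ℤ) : ℝ),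
          ((im B h + ∑ v ∈ (Rs ∪ S).erase y, im B v * x' v : ℤ) : ℝ), ?_, ?_, ?_, ?_, h4, ?_⟩
        · exact_mod_cast h3
        · have : DD B a x' ((Rs ∪ S).erase y) ≤ Df := by linarith
          exact_mod_cast this
        · have : DD B a x' ((Rs ∪ S).erase y) + a y ≤ Df + 1 := by linarith
          exact_mod_cast this
        · have : DD B a x' ((Rs ∪ S).erase y) + (im B h + ∑ v ∈ (Rs ∪ S).erase y,
              im B v * x' v) + a y + im B y ≤ DD B a x X + ∑ v ∈ X, im B v * x v + im B h -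
              ∑ v ∈ T.filter (Harm a (im B)), |a v + im B v| := by
            rw [hsum] at hfin
            linarith
          exact_mod_cast this
        · intro M K t hK hst
          have h6 := h5 M K t hK hst
          have e1 : ((DD B (MM B h) x' (Rs ∪ S) : ℤ) : ℝ) =
              ((DD B a x' ((Rs ∪ S).erase y) : ℤ) : ℝ) + (a y : ℝ) := by
            rw [← hadef, c4]; push_cast; ring
          have e2 : ((im B h + ∑ v ∈ Rs ∪ S, im B v * x' v : ℤ) : ℝ) =
              ((im B h + ∑ v ∈ (Rs ∪ S).erase y, im B v * x' v : ℤ) : ℝ) +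
                ((im B y : ℤ) : ℝ) := by
            rw [hsum]; push_cast; ring
          rw [e1, e2] at h6
          exact h6
  have go0 : ∀ x : V → ℤ, (∀ v, x v = 1 ∨ x v = -1) → GoodE B a x 1 Rs →
      (∀ z ∈ S, ∑ u ∈ Rs, MM B u z * x u = 0) → DD B a x Rs ≤ ch a Rs - nb →
      Cr B (Rs ∪ S) C (b : ℝ) ∨
        Out B a S C ((cR - nb : ℤ) : ℝ) ((DD B a x Rs + ∑ v ∈ Rs, im B v * x v + im B h -
        ∑ v ∈ S.filter (Harm a (im B)), |a v + im B v| : ℤ) : ℝ) := by
    intro x hx hg hn hD
    refine go b hb0 Rs S x (cR - nb) hx (toP x hg) hdS rfl (Finset.Subset.refl _) (by linarith) ?_ hn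
      (by linarith)
    intro v hv h2
    have := chS v hv
    rw [h2] at this
    norm_num at this
    linarith
  -- first sign
  obtain ⟨x1, hx1, hq1, hg1, hn1, hD1, hs1⟩ := both fun v => a v + im B v
  have hx1e : DD B a x1 Rs + ∑ v ∈ Rs, im B v * x1 v =
      Qd B Rs x1 + ∑ v ∈ Rs, (a v + im B v) * x1 v := by
    unfold DD
    rw [add_comm (∑ v ∈ Rs, a v * x1 v), add_assoc, ← Finset.sum_add_distrib]
    congr 1
    exact Finset.sum_congr rfl fun v _ => by ring
  -- second sign
  obtain ⟨x, hx, hqx, hgx, hnx, hDx, hsx⟩ := both (im B)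
  set Y : ℤ := - ∑ v ∈ Rs, im B v * x v with hY
  have hY0 : 0 ≤ Y := by rw [hY]; linarith
  have hYe : Rs = ∅ → Y = 0 := by
    intro h3
    rw [hY, h3]
    simp
  refine ⟨Y, nb, ⟨hY0, hYe⟩, hnb0, hnbe, hnb1, hcard, ?_, ?_, ?_⟩
  · -- T2
    intro S0 hS0 y0 M K t hK hy0 hy hst
    -- signs for `S0`
    have key : ∀ T : Finset V, T ⊆ S0 → ∃ z : V → ℤ, (∀ v, z v = 1 ∨ z v = -1) ∧
        (∀ v ∈ Rs, z v = x v) ∧
        |((∑ v ∈ Rs ∪ T, im B v * z v : ℤ) : ℝ)| ≤
          max ((Y : ℝ) - ∑ v ∈ T, |((im B v : ℤ) : ℝ)|) y0 := by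
      intro T
      induction T using Finset.induction_on with
      | empty =>
        intro _
        refine ⟨x, hx, fun _ _ => rfl, ?_⟩
        rw [Finset.union_empty, Finset.sum_empty, sub_zero]
        refine le_trans (le_of_eq ?_) (le_max_left _ _)
        rw [hY]
        push_cast
        rw [abs_of_nonpos]
        have : ((∑ v ∈ Rs, im B v * x v : ℤ) : ℝ) ≤ 0 := by exact_mod_cast hsx
        push_cast at this
        exact this
      | insert v T hv ih =>
        intro hT
        obtain ⟨z, hz, hzx, hzb⟩ := ih ((Finset.subset_insert _ _).trans hT)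
        have hvS0 : v ∈ S0 := hT (Finset.mem_insert_self _ _)
        have hvRs : v ∉ Rs := Finset.disjoint_right.1 hdS (hS0 hvS0)
        have hvU : v ∉ Rs ∪ T := by
          simp only [Finset.mem_union, not_or]; exact ⟨hvRs, hv⟩
        have hvy := hy v hvS0
        set L : ℝ := ((∑ v ∈ Rs ∪ T, im B v * z v : ℤ) : ℝ) with hL
        -- choose the sign
        obtain ⟨τ, hτ, hτL⟩ := exists_sign_abs L ((im B v : ℤ) : ℝ)
        refine ⟨fun u => if u = v then τ else z u, ?_, ?_, ?_⟩
        · intro u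
          dsimp only
          split_ifs
          · exact hτ
          · exact hz u
        · intro u hu'
          have : u ≠ v := fun e => hvRs (e ▸ hu')
          simp only [this, if_false]
          exact hzx u hu'
        · have e1 : Rs ∪ insert v T = insert v (Rs ∪ T) := by rw [Finset.union_insert]
          rw [e1, Finset.sum_insert hvU]
          simp only [if_true]
          have e2 : ∑ u ∈ Rs ∪ T, im B u * (if u = v then τ else z u) =
              ∑ u ∈ Rs ∪ T, im B u * z u := by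
            refine Finset.sum_congr rfl fun u hu' => ?_
            have : u ≠ v := fun e => hvU (e ▸ hu')
            simp only [this, if_false]
          rw [e2]
          have e3 : ((im B v * τ + ∑ u ∈ Rs ∪ T, im B u * z u : ℤ) : ℝ) =
              L + ((im B v : ℤ) : ℝ) * τ := by
            rw [hL]; push_cast; ring
          rw [e3, hτL, Finset.sum_insert hv]
          have hw0 : 0 ≤ |((im B v : ℤ) : ℝ)| := abs_nonneg _
          have hL0 : 0 ≤ |L| := abs_nonneg _
          rw [abs_le]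
          rcases le_max_iff.1 hzb with h3 | h3
          · have m1 := le_max_left ((Y : ℝ) - (|((im B v : ℤ) : ℝ)| +
              ∑ v ∈ T, |((im B v : ℤ) : ℝ)|)) y0
            have m2 := le_max_right ((Y : ℝ) - (|((im B v : ℤ) : ℝ)| +
              ∑ v ∈ T, |((im B v : ℤ) : ℝ)|)) y0
            constructor <;> linarith
          · have m2 := le_max_right ((Y : ℝ) - (|((im B v : ℤ) : ℝ)| +
              ∑ v ∈ T, |((im B v : ℤ) : ℝ)|)) y0
            constructor <;> linarith
    obtain ⟨z, hz, hzx, hzb⟩ := key S0 (Finset.Subset.refl _)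
    have hdS0 : Disjoint Rs S0 := Finset.disjoint_of_subset_right hS0 hdS
    rw [← Finset.compl_eq_univ_sdiff] at hst
    have h3 := extendSt (Rs ∪ S0) z hz hK hst
    have h4 : Qd B (Rs ∪ S0) z ≤ -g := by
      rw [Qd_union hdS0, Qd_congr hzx,
        Qd_indep h0 (fun l hl l' hl' => hind l (hS0 hl) l' (hS0 hl'))]
      have : Int B Rs S0 z = 0 := by
        rw [Int_sum_right]
        refine Finset.sum_eq_zero fun w hw => ?_
        unfold Int
        simp only [Finset.sum_singleton]
        have : ∑ u ∈ Rs, MM B u w * (z u * z w) = (∑ u ∈ Rs, MM B u w * x u) * z w := by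
          rw [Finset.sum_mul]
          exact Finset.sum_congr rfl fun u hu' => by rw [hzx u hu']; ring
        rw [this, hnx w (hS0 hw), zero_mul]
      rw [this]
      linarith
    have h4' : ((Qd B (Rs ∪ S0) z : ℤ) : ℝ) ≤ -(g : ℝ) := by exact_mod_cast h4
    refine h3.mono ?_
    set L : ℝ := |((∑ v ∈ Rs ∪ S0, im B v * z v : ℤ) : ℝ)| with hL
    have h5 : max (max L K) ((L + t) / 2) ≤
        max (max (max ((Y : ℝ) - ∑ v ∈ S0, |((im B v : ℤ) : ℝ)|) y0) K)
          ((max ((Y : ℝ) - ∑ v ∈ S0, |((im B v : ℤ) : ℝ)|) y0 + t) / 2) :=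
      max_le_max (max_le_max hzb le_rfl) (by linarith)
    linarith
  · -- budget
    intro F hFS hF
    have hdF : Disjoint Rs F := Finset.disjoint_of_subset_right hFS hdS
    set b' : ℤ := max b (cR - nb + F.card) with hb'
    have hb'0 : 0 ≤ b' := hb0.trans (le_max_left _ _)
    have hb'1 : cR - nb + F.card ≤ b' := le_max_right _ _
    have hsub : S \ F ⊆ S := Finset.sdiff_subset
    have hchF : ∑ v ∈ F, a v + ch a (S \ F) ≤ F.card + ch a S := by
      have h3 : ch a S = ch a (S \ F) + ch a F := by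
        unfold ch
        rw [Finset.sum_sdiff hFS]
      have h4 : ∑ v ∈ F, a v ≤ ∑ v ∈ F, (1 + if a v = 1 then (0 : ℤ) else 1) := by
        refine Finset.sum_le_sum fun v _ => ?_
        have := ch_bounds ha v
        linarith [this.2]
      rw [Finset.sum_add_distrib, Finset.sum_const, nsmul_eq_mul, mul_one] at h4
      unfold ch at *
      linarith
    have hchSF : 0 ≤ ch a (S \ F) := ch_nonneg _
    have hGF : ∑ v ∈ (S \ F).filter (Harm a (im B)), |a v + im B v| =
        ∑ v ∈ S.filter (Harm a (im B)), |a v + im B v| := by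
      congr 1
      ext v
      simp only [Finset.mem_filter, Finset.mem_sdiff]
      constructor
      · rintro ⟨⟨h3, _⟩, h4⟩; exact ⟨h3, h4⟩
      · rintro ⟨h3, h4⟩
        refine ⟨⟨h3, fun h5 => ?_⟩, h4⟩
        have h6 := hF v h5
        rcases h4 with h7 | h7
        · linarith [h6.1]
        · linarith [h6.2]
    -- the run after `Rs ∪ F`
    have goF : ∀ x : V → ℤ, (∀ v, x v = 1 ∨ x v = -1) → GoodE B a x 1 Rs →
        (∀ z ∈ S, ∑ u ∈ Rs, MM B u z * x u = 0) → DD B a x Rs ≤ ch a Rs - nb →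
        Cr B (Rs ∪ S) C (b' : ℝ) ∨
          Out B a S C ((cR - nb + F.card : ℤ) : ℝ) ((DD B a x Rs + ∑ v ∈ Rs, im B v * x v +
            im B h + ∑ v ∈ F, (a v + im B v) -
            ∑ v ∈ S.filter (Harm a (im B)), |a v + im B v| : ℤ) : ℝ) := by
      intro x hx hg hn hD
      have hP' : PathB B a x b' Rs := by
        refine hg.toPathB fun P hP _ => ?_
        have := ch_mono (a := a) hP
        have := le_max_left b (cR - nb + F.card)
        linarith
      obtain ⟨x', c1, c2, c3, c4, c5⟩ := placeF hB (fun v => (ha v).1) hx hP' hdF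
        (fun v hv => hn v (hFS hv)) (fun u hu v hv => hind u (hFS hu) v (hFS hv))
        (by linarith)
      have e : (Rs ∪ F) ∪ (S \ F) = Rs ∪ S := by
        rw [Finset.union_assoc, Finset.union_sdiff_of_subset hFS]
      have e3 : ∑ u ∈ Rs ∪ F, im B u * x' u = ∑ u ∈ Rs, im B u * x u + ∑ u ∈ F, im B u := by
        rw [Finset.sum_union hdF]
        congr 1
        · exact Finset.sum_congr rfl fun w hw => by rw [c2 w hw]
        · exact Finset.sum_congr rfl fun w hw => by rw [c3 w hw, mul_one]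
      have h3 := go b' hb'0 (Rs ∪ F) (S \ F) x' (cR - nb + F.card) c1 c4
        (by
          rw [Finset.disjoint_union_left]
          exact ⟨Finset.disjoint_of_subset_right hsub hdS, Finset.disjoint_sdiff⟩) e hsub
        (by rw [c5]; linarith)
        (fun u hu' h2 => by
          have h4 : (if a u = 1 then 0 else 1) ≤ ch a (S \ F) := by
            unfold ch
            exact Finset.single_le_sum (f := fun v => if a v = 1 then (0 : ℤ) else 1)
              (fun i _ => by split_ifs <;> norm_num) hu'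
          rw [h2] at h4
          norm_num at h4
          rw [c5]
          linarith)
        (fun u hu' => by
          rw [Finset.sum_union hdF]
          have h6 : ∑ w ∈ Rs, MM B w u * x' w = 0 := by
            rw [← hn u (hsub hu')]
            exact Finset.sum_congr rfl fun w hw => by rw [c2 w hw]
          have h7 : ∑ w ∈ F, MM B w u * x' w = 0 := by
            refine Finset.sum_eq_zero fun w hw => ?_
            rw [hind w (hFS hw) u (hsub hu'), zero_mul]
          rw [h6, h7, add_zero])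
        (by rw [c5]; linarith)
      rcases h3 with h3 | h3
      · exact Or.inl h3
      · right
        refine h3.mono le_rfl ?_
        rw [e3, c5, hGF]
        have : DD B a x Rs + ∑ v ∈ F, a v + (∑ u ∈ Rs, im B u * x u + ∑ u ∈ F, im B u) +
            im B h - ∑ v ∈ S.filter (Harm a (im B)), |a v + im B v| ≤
            DD B a x Rs + ∑ v ∈ Rs, im B v * x v + im B h + ∑ v ∈ F, (a v + im B v) -
              ∑ v ∈ S.filter (Harm a (im B)), |a v + im B v| := by
          rw [Finset.sum_add_distrib]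
          linarith
        exact_mod_cast this
    by_cases hcr : Cr B (Rs ∪ S) C (b' : ℝ)
    · exact Or.inl hcr
    right
    have E1 := (goF x1 hx1 hg1 hn1 hD1).resolve_left hcr
    have E2 := (goF x hx hgx hnx hDx).resolve_left hcr
    have hGS := hGam0 S
    refine ⟨?_, ?_⟩
    · refine E1.mono le_rfl ?_
      have h4 : DD B a x1 Rs + ∑ v ∈ Rs, im B v * x1 v + im B h + ∑ v ∈ F, (a v + im B v) -
        ∑ v ∈ S.filter (Harm a (im B)), |a v + im B v| ≤
        im B h - g - ∑ v ∈ S.filter (Harm a (im B)), |a v + im B v| +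
          ∑ v ∈ F, (a v + im B v) := by
        rw [hx1e]; linarith
      exact_mod_cast h4
    · refine E2.mono le_rfl ?_
      have : DD B a x Rs + ∑ v ∈ Rs, im B v * x v + im B h + ∑ v ∈ F, (a v + im B v) -
          ∑ v ∈ S.filter (Harm a (im B)), |a v + im B v| ≤
          cR - nb + im B h - Y + ∑ v ∈ F, (a v + im B v) := by
        linarith
      exact_mod_cast this
  · -- T1
    by_cases hcr : Cr B (Rs ∪ S) C (b : ℝ)
    · exact Or.inl hcr
    right
    have E1 := (go0 x1 hx1 hg1 hn1 hD1).resolve_left hcr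
    have E2 := (go0 x hx hgx hnx hDx).resolve_left hcr
    have hGS := hGam0 S
    refine ⟨?_, ?_, ?_, ?_⟩
    · refine E1.mono le_rfl ?_
      have h4 : DD B a x1 Rs + ∑ v ∈ Rs, im B v * x1 v + im B h -
        ∑ v ∈ S.filter (Harm a (im B)), |a v + im B v| ≤
        im B h - g - ∑ v ∈ S.filter (Harm a (im B)), |a v + im B v| := by
        rw [hx1e]; linarith
      exact_mod_cast h4
    · refine E2.mono le_rfl ?_
      have : DD B a x Rs + ∑ v ∈ Rs, im B v * x v + im B h -
          ∑ v ∈ S.filter (Harm a (im B)), |a v + im B v| ≤ cR - nb + im B h - Y := by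
        linarith
      exact_mod_cast this
    · intro v hv hv0
      -- `v` is placed first, with sign `-`
      have hvRs : v ∉ Rs := Finset.disjoint_right.1 hdS hv
      set x1 : V → ℤ := fun u => if u = v then -1 else x u with hx1def
      have hxv : x1 v = -1 := by simp [hx1def]
      have hxR : ∀ u ∈ Rs, x1 u = x u := by
        intro u hu'
        have : u ≠ v := fun e => hvRs (e ▸ hu')
        simp [hx1def, this]
      have hx1 : ∀ u, x1 u = 1 ∨ x1 u = -1 := by
        intro u
        simp only [hx1def]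
        split_ifs
        · right; rfl
        · exact hx u
      have hDv : DD B a x1 (insert v Rs) = DD B a x Rs + a v * x1 v :=
        DD_place hB hvRs hxR (hnx v hv)
      have hav := ha v
      have hPv : PathB B a x1 b (insert v Rs) := by
        refine PathB.step Rs v ((toP x hgx).congr fun u hu' => (hxR u hu').symm) hvRs ?_
        rw [hDv, hxv]
        linarith
      have hsub : S.erase v ⊆ S := Finset.erase_subset _ _
      have hchv : ch a S = (if a v = 1 then 0 else 1) + ch a (S.erase v) := by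
        unfold ch
        rw [Finset.add_sum_erase S (fun v => if a v = 1 then (0 : ℤ) else 1) hv]
      have hcv0 : (0 : ℤ) ≤ (if a v = 1 then 0 else 1) := by split_ifs <;> norm_num
      have e : insert v Rs ∪ S.erase v = Rs ∪ S := by
        ext z
        simp only [Finset.mem_union, Finset.mem_insert, Finset.mem_erase]
        by_cases hz : z = v
        · subst hz; simp [hv]
        · simp [hz]
      have e3 : ∑ u ∈ insert v Rs, im B u * x1 u = - im B v + ∑ u ∈ Rs, im B u * x u := by
        rw [Finset.sum_insert hvRs, hxv]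
        congr 1
        · ring
        · exact Finset.sum_congr rfl fun w hw => by rw [hxR w hw]
      have hG := hGam0 (S.erase v)
      have h3 := go b hb0 (insert v Rs) (S.erase v) x1 (cR - nb) hx1 hPv
        (by
          rw [Finset.disjoint_insert_left]
          exact ⟨Finset.notMem_erase _ _, Finset.disjoint_of_subset_right
            (Finset.erase_subset _ _) hdS⟩) e hsub
        (by rw [hDv, hxv]; linarith)
        (fun u hu' h2 => by
          have := chS u (hsub hu')
          rw [h2] at this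
          norm_num at this
          rw [hDv, hxv]
          linarith)
        (fun u hu' => by
          rw [Finset.sum_insert hvRs, hind v hv u (hsub hu'), zero_mul, zero_add,
            ← hnx u (hsub hu')]
          exact Finset.sum_congr rfl fun w hw => by rw [hxR w hw])
        (by rw [hDv, hxv]; linarith)
      refine (h3.resolve_left hcr).mono le_rfl ?_
      rw [e3, hDv, hxv]
      have : DD B a x Rs + a v * -1 + (-im B v + ∑ u ∈ Rs, im B u * x u) + im B h -
          ∑ v ∈ (S.erase v).filter (Harm a (im B)), |a v + im B v| ≤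
          cR - nb + im B h - Y - |im B v| := by
        rw [abs_of_nonneg hv0]
        linarith
      exact_mod_cast this
    · intro hnb2 v hv
      have hvRs : v ∉ Rs := Finset.disjoint_right.1 hdS hv
      obtain ⟨τ, hτ, hτv⟩ : ∃ τ : ℤ, (τ = 1 ∨ τ = -1) ∧ im B v * τ = - |im B v| := by
        rcases le_total 0 (im B v) with h3 | h3
        · exact ⟨-1, Or.inr rfl, by rw [abs_of_nonneg h3]; ring⟩
        · exact ⟨1, Or.inl rfl, by rw [abs_of_nonpos h3]; ring⟩
      set x1 : V → ℤ := fun u => if u = v then τ else x u with hx1def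
      have hxv : x1 v = τ := by simp [hx1def]
      have hxR : ∀ u ∈ Rs, x1 u = x u := by
        intro u hu'
        have : u ≠ v := fun e => hvRs (e ▸ hu')
        simp [hx1def, this]
      have hx1 : ∀ u, x1 u = 1 ∨ x1 u = -1 := by
        intro u
        simp only [hx1def]
        split_ifs
        · exact hτ
        · exact hx u
      have hDv : DD B a x1 (insert v Rs) = DD B a x Rs + a v * x1 v :=
        DD_place hB hvRs hxR (hnx v hv)
      have hav := ha v
      have hcv := ch_bounds ha v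
      have hav1 : a v * τ ≤ 1 + (if a v = 1 then (0 : ℤ) else 1) := by
        rcases hτ with h3 | h3 <;> rw [h3] <;> linarith [hcv.2, hav.1]
      have hchv := chS v hv
      have hPv : PathB B a x1 b (insert v Rs) := by
        refine PathB.step Rs v ((toP x hgx).congr fun u hu' => (hxR u hu').symm) hvRs ?_
        rw [hDv, hxv]
        linarith
      have hsub : S.erase v ⊆ S := Finset.erase_subset _ _
      have hchvS : ch a S = (if a v = 1 then 0 else 1) + ch a (S.erase v) := by
        unfold ch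
        rw [Finset.add_sum_erase S (fun v => if a v = 1 then (0 : ℤ) else 1) hv]
      have hchv0 : 0 ≤ ch a (S.erase v) := ch_nonneg _
      have chS2 : ∀ u ∈ S.erase v, a u = 2 → 1 ≤ ch a (S.erase v) := by
        intro u hu' h2
        have : (if a u = 1 then 0 else 1) ≤ ch a (S.erase v) := by
          unfold ch
          exact Finset.single_le_sum (f := fun v => if a v = 1 then (0 : ℤ) else 1)
            (fun i _ => by split_ifs <;> norm_num) hu'
        rw [h2] at this
        norm_num at this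
        linarith
      have e : insert v Rs ∪ S.erase v = Rs ∪ S := by
        ext z
        simp only [Finset.mem_union, Finset.mem_insert, Finset.mem_erase]
        by_cases hz : z = v
        · subst hz; simp [hv]
        · simp [hz]
      have e3 : ∑ u ∈ insert v Rs, im B u * x1 u = - |im B v| + ∑ u ∈ Rs, im B u * x u := by
        rw [Finset.sum_insert hvRs, hxv, hτv]
        congr 1
        exact Finset.sum_congr rfl fun w hw => by rw [hxR w hw]
      have hG := hGam0 (S.erase v)
      have h3 := go b hb0 (insert v Rs) (S.erase v) x1 (cR - nb + 1) hx1 hPv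
        (by
          rw [Finset.disjoint_insert_left]
          exact ⟨Finset.notMem_erase _ _, Finset.disjoint_of_subset_right
            (Finset.erase_subset _ _) hdS⟩) e hsub
        (by rw [hDv, hxv]; linarith)
        (fun u hu' h2 => by
          have := chS2 u hu' h2
          rw [hDv, hxv]
          linarith)
        (fun u hu' => by
          rw [Finset.sum_insert hvRs, hind v hv u (hsub hu'), zero_mul, zero_add,
            ← hnx u (hsub hu')]
          exact Finset.sum_congr rfl fun w hw => by rw [hxR w hw])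
        (by rw [hDv, hxv]; linarith)
      refine (h3.resolve_left hcr).mono le_rfl ?_
      rw [e3, hDv, hxv]
      have : DD B a x Rs + a v * τ + (-|im B v| + ∑ u ∈ Rs, im B u * x u) + im B h -
          ∑ v ∈ (S.erase v).filter (Harm a (im B)), |a v + im B v| ≤
          cR - nb + 1 + im B h - Y - |im B v| := by
        linarith
      exact_mod_cast this

/-- the path statement without budget -/
theorem path_neutral (h0 : ∀ u v, 0 ≤ B u v) (h1 : ∀ u v, B u v ≤ 1) (hB : ∀ v, B v v = 0)
    (h : V) (hq : 0 < im B h) {Rs S C : Finset V} {g : ℤ} (hbl : BlocksN B S Rs g)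
    (hdS : Disjoint Rs S) (hind : ∀ u ∈ S, ∀ v ∈ S, MM B u v = 0)
    (hhR : h ∉ Rs ∪ S) (hC : h ∉ C) (hd : Disjoint (Rs ∪ S) C)
    (hu : insert h ((Rs ∪ S) ∪ C) = univ) {cR e : ℤ} (hcR : ch (MM B h) (Rs ∪ S) ≤ cR)
    (he1 : e ≤ 1) (he : Rs = ∅ → e ≤ 0) :
    ∃ Y nb : ℤ, (0 ≤ Y ∧ (Rs = ∅ → Y = 0)) ∧ 0 ≤ nb ∧ e ≤ nb ∧ (Rs.Nonempty → 1 ≤ nb) ∧ (Rs.card : ℤ) ≤ g + nb ∧
      (∀ S0 ⊆ S, ∀ y0 M K t : ℝ, 0 ≤ K → 0 ≤ y0 → (∀ v ∈ S0, |((im B v : ℤ) : ℝ)| ≤ y0) →
        St B (im B) (univ \ (Rs ∪ S0)) M K t →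
        Val B (-(g : ℝ) + M + max (max (max ((Y : ℝ) - ∑ v ∈ S0, |((im B v : ℤ) : ℝ)|) y0) K)
          ((max ((Y : ℝ) - ∑ v ∈ S0, |((im B v : ℤ) : ℝ)|) y0 + t) / 2))) ∧
      (Cr B (Rs ∪ S) C ((max 0 (cR - e) : ℤ) : ℝ) ∨
        (Out B (MM B h) S C ((cR - nb : ℤ) : ℝ) ((im B h - g - Gam B h S : ℤ) : ℝ) ∧
          Out B (MM B h) S C ((cR - nb : ℤ) : ℝ) ((cR - nb + im B h - Y : ℤ) : ℝ) ∧
          (∀ v ∈ S, 0 ≤ im B v →
            Out B (MM B h) S C ((cR - nb : ℤ) : ℝ)
              ((cR - nb + im B h - Y - |im B v| : ℤ) : ℝ)) ∧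
          (e + 1 ≤ nb → ∀ v ∈ S,
            Out B (MM B h) S C ((cR - nb + 1 : ℤ) : ℝ)
              ((cR - nb + 1 + im B h - Y - |im B v| : ℤ) : ℝ)))) := by
  obtain ⟨Y, nb, h2, h3, h4, h5, h6, h7, _, h8⟩ := path_neutralF h0 h1 hB h hq hbl hdS hind hhR
    hC hd hu hcR he1 he
  exact ⟨Y, nb, h2, h3, h4, h5, h6, h7, h8⟩

end Pool.Agent.Exact
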