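import Pool.Agent.Lib_helper68.Exact.St

/-!
# Chains of vertices of one type and their segments
-/

set_option autoImplicit false
set_option linter.unusedSectionVars false

namespace Pool.Agent.Exact

open Finset

variable {V : Type*} [DecidableEq V] {B : V → V → ℤ}

/-- vertices of one type, sorted by weight -/
structure Chain (s : V → ℤ) (u : ℕ → V) (L : ℕ) (w : ℕ → ℝ) : Prop where
  inj : ∀ i < L, ∀ j < L, u i = u j → i = j
  wt : (∀ i < L, ((s (u i) : ℤ) : ℝ) = w i) ∨ ∀ i < L, ((s (u i) : ℤ) : ℝ) = - w i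
  anti : ∀ i j, i ≤ j → j < L → w j ≤ w i
  nn : ∀ i < L, 0 ≤ w i

/-- the sum of the first `i` differences `w 0 - w 1`, `w 2 - w 3`, ... -/
noncomputable def AA (w : ℕ → ℝ) (i : ℕ) : ℝ := ∑ l ∈ range i, (w (2 * l) - w (2 * l + 1))

lemma AA_zero (w : ℕ → ℝ) : AA w 0 = 0 := by simp [AA]

lemma AA_succ (w : ℕ → ℝ) (i : ℕ) : AA w (i + 1) = AA w i + (w (2 * i) - w (2 * i + 1)) := by
  unfold AA
  rw [Finset.sum_range_succ]

/-- the segment from `i` to `j` (exclusive) -/
def sg (u : ℕ → V) (i j : ℕ) : Finset V := (Finset.Ico i j).image u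

lemma mem_sg {u : ℕ → V} {i j : ℕ} {v : V} : v ∈ sg u i j ↔ ∃ l, i ≤ l ∧ l < j ∧ u l = v := by
  simp [sg, and_assoc]

lemma sg_empty (u : ℕ → V) (i : ℕ) : sg u i i = ∅ := by simp [sg]

lemma sg_disjoint {s : V → ℤ} {u : ℕ → V} {L : ℕ} {w : ℕ → ℝ} (h : Chain s u L w)
    {i j i' j' : ℕ} (_hj : j ≤ L) (hj' : j' ≤ L) (hd : j ≤ i') : Disjoint (sg u i j) (sg u i' j') := by
  rw [Finset.disjoint_left]
  intro v hv hv'
  obtain ⟨l, h1, h2, rfl⟩ := mem_sg.1 hv
  obtain ⟨l', h1', h2', h3'⟩ := mem_sg.1 hv'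
  have := h.inj l' (by omega) l (by omega) h3'
  omega

lemma sg_union (u : ℕ → V) {i j l : ℕ} (h1 : i ≤ j) (h2 : j ≤ l) : sg u i j ∪ sg u j l = sg u i l := by
  unfold sg
  rw [← Finset.image_union, Finset.Ico_union_Ico_eq_Ico h1 h2]

lemma sg_one (u : ℕ → V) (i : ℕ) : sg u i (i + 1) = {u i} := by
  unfold sg
  rw [Nat.Ico_succ_singleton, Finset.image_singleton]

lemma Qd_pair' (hB : ∀ v, B v v = 0) {u v : V} (huv : u ≠ v) (x : V → ℤ) :
    Qd B {u, v} x = MM B u v * (x u * x v) := Qd_pair hB huv x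

/-- a pair on opposite sides -/
lemma St.opp {s : V → ℤ} (hB : ∀ v, B v v = 0) {u v : V} (huv : u ≠ v) {M K : ℝ}
    (hM : -((MM B u v : ℤ) : ℝ) ≤ M) (hK : |((s u : ℤ) : ℝ) - s v| ≤ K) :
    St B s {u, v} M K K := by
  refine St.group {u, v} (fun w => if w = u then 1 else -1) ?_ ?_ ?_
  · intro w; by_cases h : w = u <;> simp [h]
  · rw [Qd_pair hB huv]
    simp only [if_true, huv.symm, if_false]
    push_cast
    linarith
  · rw [Finset.sum_pair huv]
    simp only [if_true, huv.symm, if_false]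
    push_cast
    rw [show (s u : ℝ) * 1 + (s v : ℝ) * -1 = s u - s v by ring]
    exact hK

/-- a pair on the same side -/
lemma St.same {s : V → ℤ} (hB : ∀ v, B v v = 0) {u v : V} (huv : u ≠ v) {M K : ℝ}
    (hM : ((MM B u v : ℤ) : ℝ) ≤ M) (hK : |((s u : ℤ) : ℝ) + s v| ≤ K) :
    St B s {u, v} M K K := by
  refine St.group {u, v} (fun _ => 1) ?_ ?_ ?_
  · intro w; simp
  · rw [Qd_pair hB huv]
    push_cast
    linarith
  · rw [Finset.sum_pair huv]
    push_cast
    rw [show (s u : ℝ) * 1 + (s v : ℝ) * 1 = s u + s v by ring]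
    exact hK

/-- a single vertex -/
lemma St.one {s : V → ℤ} (hB : ∀ v, B v v = 0) (v : V) {K : ℝ}
    (hK : |((s v : ℤ) : ℝ)| ≤ K) : St B s {v} 0 K K := by
  refine St.group {v} (fun _ => 1) ?_ ?_ ?_
  · intro w; simp
  · rw [Qd_single v hB]; simp
  · rw [Finset.sum_singleton]
    push_cast
    rw [mul_one]
    exact hK

lemma Chain.diff {s : V → ℤ} {u : ℕ → V} {L : ℕ} {w : ℕ → ℝ} (h : Chain s u L w) {i j : ℕ}
    (hij : i ≤ j) (hj : j < L) : |((s (u i) : ℤ) : ℝ) - s (u j)| = w i - w j := by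
  have h1 := h.anti i j hij hj
  rcases h.wt with h2 | h2
  · rw [h2 i (by omega), h2 j hj, abs_of_nonneg (by linarith)]
  · rw [h2 i (by omega), h2 j hj, abs_of_nonpos (by linarith)]
    ring

lemma Chain.abs {s : V → ℤ} {u : ℕ → V} {L : ℕ} {w : ℕ → ℝ} (h : Chain s u L w) {i : ℕ}
    (hi : i < L) : |((s (u i) : ℤ) : ℝ)| = w i := by
  have h1 := h.nn i hi
  rcases h.wt with h2 | h2
  · rw [h2 i hi, abs_of_nonneg h1]
  · rw [h2 i hi, abs_of_nonpos (by linarith)]
    ring

lemma Chain.ne {s : V → ℤ} {u : ℕ → V} {L : ℕ} {w : ℕ → ℝ} (h : Chain s u L w) {i j : ℕ}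
    (hij : i < j) (hj : j < L) : u i ≠ u j := by
  intro e
  have := h.inj i (by omega) j hj e
  omega

/-- consecutive pairs starting at an even index -/
theorem Chain.seg_even {s : V → ℤ} {u : ℕ → V} {L : ℕ} {w : ℕ → ℝ} (h : Chain s u L w)
    (hB : ∀ v, B v v = 0) (h0 : ∀ u v, 0 ≤ B u v) {K : ℝ} (i : ℕ) : ∀ j, i ≤ j → 2 * j ≤ L →
    (∀ l, i ≤ l → l < j → w (2 * l) - w (2 * l + 1) ≤ K) →
    St B s (sg u (2 * i) (2 * j)) 0 K (AA w j - AA w i) := by
  intro j hij
  induction j, hij using Nat.le_induction with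
  | base =>
    intro _ _
    rw [sg_empty, sub_self]
    exact St.empty s K
  | succ j hij ih =>
    intro hL hK
    have h1 := ih (by omega) fun l h1 h2 => hK l h1 (by omega)
    have h2 : St B s ({u (2 * j), u (2 * j + 1)} : Finset V) 0 (w (2 * j) - w (2 * j + 1))
        (w (2 * j) - w (2 * j + 1)) := by
      refine St.opp hB (h.ne (by omega) (by omega)) ?_ (h.diff (by omega) (by omega)).le
      have : 0 ≤ MM B (u (2 * j)) (u (2 * j + 1)) := by
        unfold MM; linarith [h0 (u (2 * j)) (u (2 * j + 1)), h0 (u (2 * j + 1)) (u (2 * j))]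
      have : (0 : ℝ) ≤ ((MM B (u (2 * j)) (u (2 * j + 1)) : ℤ) : ℝ) := by exact_mod_cast this
      linarith
    have h3 := h2.mono le_rfl (hK j hij (by omega)) le_rfl
    have e : sg u (2 * i) (2 * (j + 1)) = sg u (2 * i) (2 * j) ∪ {u (2 * j), u (2 * j + 1)} := by
      rw [← sg_union u (show 2 * i ≤ 2 * j by omega) (show 2 * j ≤ 2 * (j + 1) by omega),
        ← sg_union u (show 2 * j ≤ 2 * j + 1 by omega) (show 2 * j + 1 ≤ 2 * (j + 1) by omega),
        sg_one, show 2 * (j + 1) = 2 * j + 1 + 1 by ring, sg_one, ← Finset.insert_eq]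
    have hd : Disjoint (sg u (2 * i) (2 * j)) {u (2 * j), u (2 * j + 1)} := by
      have h4 := sg_disjoint h (i := 2 * i) (j := 2 * j) (i' := 2 * j) (j' := 2 * j + 2)
        (by omega) (by omega) le_rfl
      rw [← sg_union u (show 2 * j ≤ 2 * j + 1 by omega) (show 2 * j + 1 ≤ 2 * j + 2 by omega),
        sg_one, show 2 * j + 2 = 2 * j + 1 + 1 by ring, sg_one, ← Finset.insert_eq] at h4
      exact h4
    rw [e]
    refine (h1.union h3 hd).mono (by norm_num) le_rfl ?_
    rw [AA_succ]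
    linarith

/-- consecutive pairs starting at an odd index -/
theorem Chain.seg_odd {s : V → ℤ} {u : ℕ → V} {L : ℕ} {w : ℕ → ℝ} (h : Chain s u L w)
    (hB : ∀ v, B v v = 0) (h0 : ∀ u v, 0 ≤ B u v) {K : ℝ} (i : ℕ) : ∀ j, i ≤ j → 2 * j + 1 ≤ L →
    (∀ l, i ≤ l → l < j → w (2 * l + 1) - w (2 * l + 2) ≤ K) →
    St B s (sg u (2 * i + 1) (2 * j + 1)) 0 K (w (2 * i) - w (2 * j) - (AA w j - AA w i)) := by
  intro j hij
  induction j, hij using Nat.le_induction with
  | base =>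
    intro _ _
    rw [sg_empty, sub_self, sub_self, sub_zero]
    exact St.empty s K
  | succ j hij ih =>
    intro hL hK
    have h1 := ih (by omega) fun l h1 h2 => hK l h1 (by omega)
    have h2 : St B s ({u (2 * j + 1), u (2 * j + 2)} : Finset V) 0 (w (2 * j + 1) - w (2 * j + 2))
        (w (2 * j + 1) - w (2 * j + 2)) := by
      refine St.opp hB (h.ne (by omega) (by omega)) ?_ (h.diff (by omega) (by omega)).le
      have : 0 ≤ MM B (u (2 * j + 1)) (u (2 * j + 2)) := by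
        unfold MM; linarith [h0 (u (2 * j + 1)) (u (2 * j + 2)), h0 (u (2 * j + 2)) (u (2 * j + 1))]
      have : (0 : ℝ) ≤ ((MM B (u (2 * j + 1)) (u (2 * j + 2)) : ℤ) : ℝ) := by exact_mod_cast this
      linarith
    have h3 := h2.mono le_rfl (hK j hij (by omega)) le_rfl
    have e : sg u (2 * i + 1) (2 * (j + 1) + 1) =
        sg u (2 * i + 1) (2 * j + 1) ∪ {u (2 * j + 1), u (2 * j + 2)} := by
      rw [← sg_union u (show 2 * i + 1 ≤ 2 * j + 1 by omega)
          (show 2 * j + 1 ≤ 2 * (j + 1) + 1 by omega),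
        ← sg_union u (show 2 * j + 1 ≤ 2 * j + 1 + 1 by omega)
          (show 2 * j + 1 + 1 ≤ 2 * (j + 1) + 1 by omega),
        sg_one, show 2 * (j + 1) + 1 = 2 * j + 1 + 1 + 1 by ring, sg_one, ← Finset.insert_eq]
    have hd : Disjoint (sg u (2 * i + 1) (2 * j + 1)) {u (2 * j + 1), u (2 * j + 2)} := by
      have h4 := sg_disjoint h (i := 2 * i + 1) (j := 2 * j + 1) (i' := 2 * j + 1)
        (j' := 2 * j + 1 + 1 + 1) (by omega) (by omega) le_rfl
      rw [← sg_union u (show 2 * j + 1 ≤ 2 * j + 1 + 1 by omega)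
          (show 2 * j + 1 + 1 ≤ 2 * j + 1 + 1 + 1 by omega),
        sg_one, sg_one, ← Finset.insert_eq] at h4
      exact h4
    rw [e]
    refine (h1.union h3 hd).mono (by norm_num) le_rfl ?_
    rw [AA_succ]
    have e2 : w (2 * (j + 1)) = w (2 * j + 2) := by ring_nf
    rw [e2]
    linarith

/-- alternating sum of a list -/
noncomputable def altL : List ℝ → ℝ
  | [] => 0
  | a :: l => a - altL l

/-- inserting an element into a sorted list changes the alternating sum in a controlled way -/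
lemma altL_insert (v : ℝ) : ∀ l : List ℝ, l.Pairwise (· ≥ ·) →
    (∀ a ∈ l, 0 ≤ a) →
    v ≤ altL (l.orderedInsert (· ≥ ·) v) + altL l ∧
    ∀ r, v ≤ r → (∀ a ∈ l, a ≤ r) →
      altL (l.orderedInsert (· ≥ ·) v) + altL l + v ≤ 2 * r := by
  intro l
  induction l with
  | nil =>
    intro _ _
    simp only [List.orderedInsert, altL]
    refine ⟨by linarith, fun r hr _ => by linarith⟩
  | cons a l ih =>
    intro hs hn
    rw [List.pairwise_cons] at hs
    have hn' : ∀ b ∈ l, 0 ≤ b := fun b hb => hn b (List.mem_cons_of_mem _ hb)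
    obtain ⟨h1, h2⟩ := ih hs.2 hn'
    by_cases hav : v ≥ a
    · rw [List.orderedInsert, if_pos hav]
      simp only [altL]
      refine ⟨by linarith, fun r hr _ => by linarith⟩
    · rw [List.orderedInsert, if_neg hav]
      simp only [altL]
      have h3 := h2 a (not_le.1 hav).le hs.1
      refine ⟨by linarith, fun r _ hr => ?_⟩
      have := hr a (by simp)
      linarith

lemma altL_nonneg : ∀ l : List ℝ, l.Pairwise (· ≥ ·) → (∀ a ∈ l, 0 ≤ a) →
    0 ≤ altL l ∧ ∀ r, 0 ≤ r → (∀ a ∈ l, a ≤ r) → altL l ≤ r := by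
  intro l
  induction l with
  | nil => intro _ _; simp [altL]
  | cons a l ih =>
    intro hs hn
    rw [List.pairwise_cons] at hs
    obtain ⟨h1, h2⟩ := ih hs.2 fun b hb => hn b (List.mem_cons_of_mem _ hb)
    have ha := hn a (by simp)
    have h3 := h2 a ha hs.1
    simp only [altL]
    refine ⟨by linarith, fun r _ hr => ?_⟩
    have := hr a (by simp)
    linarith

end Pool.Agent.Exact
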