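import Pool.Agent.Lib_helper68.Exact.Frame

/-!
# Structures: sets divided into groups with fixed patterns and independent signs

`St B s S M K t`: the set `S` can be divided into groups, each with a fixed sign pattern, with
quadratic cost at most `M`, contributions to the linear form `s` of absolute value at most `K`,
and sum of these absolute values at most `t`.
-/

set_option autoImplicit false
set_option linter.unusedSectionVars false

namespace Pool.Agent.Exact

open Finset

variable {V : Type*} [DecidableEq V] {B : V → V → ℤ}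

/-- groups with fixed patterns -/
inductive Grp (B : V → V → ℤ) (s : V → ℤ) : Finset V → ℤ → List ℝ → Prop
  | empty : Grp B s ∅ 0 []
  | cons (S : Finset V) (M : ℤ) (l : List ℝ) (T : Finset V) (z : V → ℤ) : Grp B s S M l →
      Disjoint S T → (∀ v, z v = 1 ∨ z v = -1) →
      Grp B s (S ∪ T) (M + Qd B T z) (((∑ v ∈ T, s v * z v : ℤ) : ℝ) :: l)

/-- **Averaging lemma for groups.** -/
theorem Grp.exists_sign {s : V → ℤ} {S : Finset V} {M : ℤ} {l : List ℝ}
    (h : Grp B s S M l) : ∀ (f : V → ℤ) (c : ℝ), ∃ x : V → ℤ, (∀ v, x v = 1 ∨ x v = -1) ∧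
      ((∑ v ∈ S, f v * x v + Qd B S x : ℤ) : ℝ) + |c + ((∑ v ∈ S, s v * x v : ℤ) : ℝ)| ≤
        M + NS l c := by
  induction h with
  | empty =>
    intro f c
    exact ⟨fun _ => 1, fun _ => Or.inl rfl, by simp [Qd, NS]⟩
  | cons S M l T z hS hd hz ih =>
    intro f c
    set F : ℤ := ∑ v ∈ T, f v * z v with hF
    set σ : ℤ := ∑ v ∈ T, s v * z v with hσ
    have step : ∀ ε : ℤ, (ε = 1 ∨ ε = -1) → ∃ x : V → ℤ, (∀ v, x v = 1 ∨ x v = -1) ∧
        ((∑ w ∈ S ∪ T, f w * x w + Qd B (S ∪ T) x : ℤ) : ℝ) +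
          |c + ((∑ w ∈ S ∪ T, s w * x w : ℤ) : ℝ)| ≤
        ((ε * F + Qd B T z + M : ℤ) : ℝ) + NS l (c + ((ε * σ : ℤ) : ℝ)) := by
      intro ε hε
      obtain ⟨x, hx, hx'⟩ := ih (fun w => f w + ε * ∑ u ∈ T, MM B w u * z u)
        (c + ((ε * σ : ℤ) : ℝ))
      set y : V → ℤ := fun w => if w ∈ T then ε * z w else x w with hy
      have hyT : ∀ w ∈ T, y w = ε * z w := by
        intro w hw
        simp [hy, hw]
      have hyS : ∀ w ∈ S, y w = x w := by
        intro w hw
        have : w ∉ T := fun h => Finset.disjoint_left.1 hd hw h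
        simp [hy, this]
      refine ⟨y, ?_, ?_⟩
      · intro w
        simp only [hy]
        split_ifs
        · rcases hε with h | h <;> rcases hz w with h' | h' <;> rw [h, h'] <;> norm_num
        · exact hx w
      · have e1 : ∑ w ∈ S ∪ T, f w * y w = ∑ w ∈ S, f w * x w + ε * F := by
          rw [Finset.sum_union hd, hF, Finset.mul_sum]
          congr 1
          · exact Finset.sum_congr rfl fun w hw => by rw [hyS w hw]
          · exact Finset.sum_congr rfl fun w hw => by rw [hyT w hw]; ring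
        have e2 : ∑ w ∈ S ∪ T, s w * y w = ∑ w ∈ S, s w * x w + ε * σ := by
          rw [Finset.sum_union hd, hσ, Finset.mul_sum]
          congr 1
          · exact Finset.sum_congr rfl fun w hw => by rw [hyS w hw]
          · exact Finset.sum_congr rfl fun w hw => by rw [hyT w hw]; ring
        have hεε : ε * ε = 1 := by rcases hε with h | h <;> rw [h] <;> norm_num
        have e5 : Qd B T y = Qd B T z := by
          unfold Qd
          refine Finset.sum_congr rfl fun u hu => Finset.sum_congr rfl fun v hv => ?_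
          rw [hyT u hu, hyT v hv]
          calc B u v * (ε * z u * (ε * z v)) = (ε * ε) * (B u v * (z u * z v)) := by ring
            _ = B u v * (z u * z v) := by rw [hεε, one_mul]
        have e3 : Qd B (S ∪ T) y = Qd B S x + Qd B T z +
            ∑ w ∈ S, (ε * ∑ u ∈ T, MM B w u * z u) * x w := by
          rw [Qd_union hd, e5, Qd_congr hyS]
          congr 1
          unfold Int
          refine Finset.sum_congr rfl fun w hw => ?_
          rw [Finset.mul_sum, Finset.sum_mul]
          refine Finset.sum_congr rfl fun u hu => ?_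
          rw [hyS w hw, hyT u hu]
          ring
        have e6 : ∑ w ∈ S, (f w + ε * ∑ u ∈ T, MM B w u * z u) * x w =
            ∑ w ∈ S, f w * x w + ∑ w ∈ S, (ε * ∑ u ∈ T, MM B w u * z u) * x w := by
          rw [← Finset.sum_add_distrib]
          exact Finset.sum_congr rfl fun w _ => by ring
        rw [e1, e2, e3]
        rw [e6] at hx'
        push_cast at hx' ⊢
        have e7 : c + (∑ w ∈ S, (s w : ℝ) * x w + (ε : ℝ) * σ) =
            c + (ε : ℝ) * σ + ∑ w ∈ S, (s w : ℝ) * x w := by ring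
        rw [e7]
        linarith
    obtain ⟨x1, hx1, h1⟩ := step 1 (Or.inl rfl)
    obtain ⟨x2, hx2, h2⟩ := step (-1) (Or.inr rfl)
    have hc2 : c + (((-1) * σ : ℤ) : ℝ) = c - (σ : ℝ) := by push_cast; ring
    have hc1 : c + ((1 * σ : ℤ) : ℝ) = c + (σ : ℝ) := by push_cast; ring
    rw [hc2] at h2
    rw [hc1] at h1
    simp only [NS]
    rcases le_total
      (((∑ w ∈ S ∪ T, f w * x1 w + Qd B (S ∪ T) x1 : ℤ) : ℝ) +
          |c + ((∑ w ∈ S ∪ T, s w * x1 w : ℤ) : ℝ)|)
      (((∑ w ∈ S ∪ T, f w * x2 w + Qd B (S ∪ T) x2 : ℤ) : ℝ) +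
          |c + ((∑ w ∈ S ∪ T, s w * x2 w : ℤ) : ℝ)|) with h3 | h3
    · refine ⟨x1, hx1, ?_⟩
      push_cast at h1 h2 h3 ⊢
      linarith
    · refine ⟨x2, hx2, ?_⟩
      push_cast at h1 h2 h3 ⊢
      linarith

/-- a set with a structure of cost at most `M`, items at most `K` and total at most `t` -/
def St (B : V → V → ℤ) (s : V → ℤ) (S : Finset V) (M K t : ℝ) : Prop :=
  ∃ (M' : ℤ) (l : List ℝ), Grp B s S M' l ∧ (M' : ℝ) ≤ M ∧ (∀ d ∈ l, |d| ≤ K) ∧
    (l.map fun d => |d|).sum ≤ t

lemma St.mono {s : V → ℤ} {S : Finset V} {M K t M' K' t' : ℝ} (h : St B s S M K t)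
    (hM : M ≤ M') (hK : K ≤ K') (ht : t ≤ t') : St B s S M' K' t' := by
  obtain ⟨m, l, h1, h2, h3, h4⟩ := h
  exact ⟨m, l, h1, h2.trans hM, fun d hd => (h3 d hd).trans hK, h4.trans ht⟩

lemma St.empty (s : V → ℤ) (K : ℝ) : St B s ∅ 0 K 0 :=
  ⟨0, [], Grp.empty, by simp, by simp, by simp⟩

lemma Grp.union {s : V → ℤ} {S T : Finset V} {M M' : ℤ} {l l' : List ℝ} (hS : Grp B s S M l)
    (hT : Grp B s T M' l') (hd : Disjoint S T) : Grp B s (S ∪ T) (M + M') (l' ++ l) := by
  induction hT with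
  | empty => simpa using hS
  | cons T M' l' U z hT hTU hz ih =>
    rw [Finset.disjoint_union_right] at hd
    have := Grp.cons _ _ _ U z (ih hd.1) (Finset.disjoint_union_left.2 ⟨hd.2, hTU⟩) hz
    rw [← Finset.union_assoc, ← add_assoc]
    exact this

lemma St.union {s : V → ℤ} {S T : Finset V} {M M' K t t' : ℝ} (hS : St B s S M K t)
    (hT : St B s T M' K t') (hd : Disjoint S T) : St B s (S ∪ T) (M + M') K (t + t') := by
  obtain ⟨m, l, h1, h2, h3, h4⟩ := hS
  obtain ⟨m', l', h1', h2', h3', h4'⟩ := hT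
  refine ⟨m + m', l' ++ l, h1.union h1' hd, ?_, ?_, ?_⟩
  · push_cast; linarith
  · intro d hd
    rcases List.mem_append.1 hd with h | h
    · exact h3' d h
    · exact h3 d h
  · rw [List.map_append, List.sum_append]; linarith

/-- a single group -/
lemma St.group {s : V → ℤ} (T : Finset V) (z : V → ℤ) (hz : ∀ v, z v = 1 ∨ z v = -1) {M K : ℝ}
    (hM : ((Qd B T z : ℤ) : ℝ) ≤ M) (hK : |((∑ v ∈ T, s v * z v : ℤ) : ℝ)| ≤ K) :
    St B s T M K K := by
  refine ⟨Qd B T z, [((∑ v ∈ T, s v * z v : ℤ) : ℝ)], ?_, hM, ?_, ?_⟩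
  · have := Grp.cons (B := B) (s := s) ∅ 0 [] T z Grp.empty (by simp) hz
    simpa using this
  · intro d hd
    rw [List.mem_singleton] at hd
    rw [hd]; exact hK
  · simpa using hK

lemma NS_map_abs (l : List ℝ) : ∀ c, NS (l.map fun d => |d|) c = NS l c := by
  induction l with
  | nil => intro c; rfl
  | cons d l ih =>
    intro c
    simp only [List.map_cons, NS, ih]
    rcases abs_cases d with ⟨h, _⟩ | ⟨h, _⟩
    · rw [h]
    · rw [h, show c + -d = c - d by ring, show c - -d = c + d by ring, add_comm]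

lemma St.bound {s : V → ℤ} {S : Finset V} {M K t : ℝ} (h : St B s S M K t) (hK : 0 ≤ K)
    (f : V → ℤ) (c : ℝ) : ∃ x : V → ℤ, (∀ v, x v = 1 ∨ x v = -1) ∧
      ((∑ v ∈ S, f v * x v + Qd B S x : ℤ) : ℝ) + |c + ((∑ v ∈ S, s v * x v : ℤ) : ℝ)| ≤
        M + max (max |c| K) ((|c| + t) / 2) := by
  obtain ⟨m, l, h1, h2, h3, h4⟩ := h
  obtain ⟨x, hx, hx'⟩ := h1.exists_sign f c
  refine ⟨x, hx, hx'.trans ?_⟩
  have h5 := NS_le K hK (l.map fun d => |d|) (by
    intro d hd
    rw [List.mem_map] at hd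
    obtain ⟨e, he, rfl⟩ := hd
    exact ⟨abs_nonneg e, h3 e he⟩) c
  rw [NS_map_abs] at h5
  have h6 : max (max |c| K) ((|c| + (l.map fun d => |d|).sum) / 2) ≤
      max (max |c| K) ((|c| + t) / 2) := max_le_max le_rfl (by linarith)
  linarith

section frame

variable [Fintype V]

/-- **Fixed pattern on `T`, structure on the rest.** -/
theorem extendSt (T : Finset V) (y : V → ℤ) (hy : ∀ v, y v = 1 ∨ y v = -1) {M K t : ℝ}
    (hK : 0 ≤ K) (hp : St B (im B) Tᶜ M K t) :
    Val B (((Qd B T y : ℤ) : ℝ) + M +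
      max (max |((∑ v ∈ T, im B v * y v : ℤ) : ℝ)| K)
        ((|((∑ v ∈ T, im B v * y v : ℤ) : ℝ)| + t) / 2)) := by
  obtain ⟨x, hx, hle⟩ := hp.bound hK (fun v => ∑ u ∈ T, MM B u v * y u)
    ((∑ v ∈ T, im B v * y v : ℤ) : ℝ)
  set z : V → ℤ := fun v => if v ∈ T then y v else x v with hz
  have hzT : ∀ v ∈ T, z v = y v := by intro v hv; simp [hz, hv]
  have hzC : ∀ v ∈ Tᶜ, z v = x v := by
    intro v hv
    rw [Finset.mem_compl] at hv
    simp [hz, hv]
  refine ⟨z, ?_, ?_⟩
  · intro v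
    simp only [hz]
    split_ifs
    · exact hy v
    · exact hx v
  · have hd : Disjoint T Tᶜ := disjoint_compl_right
    have hu : T ∪ Tᶜ = univ := Finset.union_compl T
    have e1 : Qd B univ z = Qd B T y + Qd B Tᶜ x +
        ∑ v ∈ Tᶜ, (∑ u ∈ T, MM B u v * y u) * x v := by
      rw [← hu, Qd_union hd, Qd_congr hzT, Qd_congr hzC, Int_comm]
      congr 1
      unfold Int
      refine Finset.sum_congr rfl fun v hv => ?_
      rw [Finset.sum_mul]
      refine Finset.sum_congr rfl fun u hu => ?_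
      rw [hzC v hv, hzT u hu, MM_comm]
      ring
    have e2 : ∑ v, im B v * z v = ∑ v ∈ T, im B v * y v + ∑ v ∈ Tᶜ, im B v * x v := by
      rw [← hu, Finset.sum_union hd]
      congr 1
      · exact Finset.sum_congr rfl fun v hv => by rw [hzT v hv]
      · exact Finset.sum_congr rfl fun v hv => by rw [hzC v hv]
    rw [e1, e2]
    push_cast at hle ⊢
    linarith

end frame

end Pool.Agent.Exact
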