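import Mathlib

/-!
# Partitions of connected graphs into induced stars

Every connected graph has a partition into induced stars with at least one leaf, or each of its
vertex deleted subgraphs has a perfect matching.
-/

set_option autoImplicit false

namespace Pool.Agent.Exact

open Finset

variable {V : Type*} [DecidableEq V]

/-- `S` has a partition into induced stars with at least one leaf. -/
inductive StarCover (G : V → V → Prop) : Finset V → Prop
  | empty : StarCover G ∅
  | cons (S : Finset V) (c : V) (L : Finset V) : StarCover G S → c ∉ S → c ∉ L → Disjoint L S →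
      L.Nonempty → (∀ l ∈ L, G c l) → (∀ l ∈ L, ∀ l' ∈ L, ¬ G l l') →
      StarCover G (S ∪ insert c L)

/-- `S` has a perfect matching. -/
inductive PMatch (G : V → V → Prop) : Finset V → Prop
  | empty : PMatch G ∅
  | cons (S : Finset V) (u v : V) : PMatch G S → u ∉ S → v ∉ S → u ≠ v → G u v →
      PMatch G (S ∪ {u, v})

/-- connectedness in terms of cuts -/
def Conn (G : V → V → Prop) (S : Finset V) : Prop :=
  ∀ T ⊆ S, T.Nonempty → T ≠ S → ∃ u ∈ T, ∃ v ∈ S \ T, G u v

variable {G : V → V → Prop}

lemma StarCover.union {S T : Finset V} (hS : StarCover G S) (hT : StarCover G T)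
    (h : Disjoint S T) : StarCover G (S ∪ T) := by
  induction hS with
  | empty => simpa using hT
  | cons S c L hS hcS hcL hLS hL h1 h2 ih =>
    rw [Finset.disjoint_union_left, Finset.disjoint_insert_left] at h
    have e : S ∪ insert c L ∪ T = (S ∪ T) ∪ insert c L := by
      ext x; simp only [Finset.mem_union, Finset.mem_insert]; grind
    rw [e]
    refine StarCover.cons _ c L (ih h.1) ?_ hcL ?_ hL h1 h2
    · simp only [Finset.mem_union, not_or]
      exact ⟨hcS, h.2.1⟩
    · rw [Finset.disjoint_union_right]
      exact ⟨hLS, h.2.2⟩

lemma StarCover.star (c : V) (L : Finset V) (hc : c ∉ L) (hL : L.Nonempty)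
    (h1 : ∀ l ∈ L, G c l) (h2 : ∀ l ∈ L, ∀ l' ∈ L, ¬ G l l') : StarCover G (insert c L) := by
  have := StarCover.cons ∅ c L StarCover.empty (by simp) hc (by simp) hL h1 h2
  simpa using this

lemma StarCover.pair {u v : V} (huv : u ≠ v) (h : G u v) (hirr : ∀ x, ¬ G x x) :
    StarCover G {u, v} := by
  have := StarCover.star (G := G) u {v} (by simpa using huv) (by simp) (by simpa using h)
    (by simpa using hirr v)
  exact this

/-- extracting the block of a vertex -/
lemma StarCover.exists_block {S : Finset V} (hS : StarCover G S) {y : V} (hy : y ∈ S) :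
    ∃ (T : Finset V) (c : V) (L : Finset V), StarCover G T ∧ c ∉ T ∧ c ∉ L ∧ Disjoint L T ∧
      L.Nonempty ∧ (∀ l ∈ L, G c l) ∧ (∀ l ∈ L, ∀ l' ∈ L, ¬ G l l') ∧ S = T ∪ insert c L ∧
      (y = c ∨ y ∈ L) := by
  induction hS with
  | empty => simp at hy
  | cons S c L hS hcS hcL hLS hL h1 h2 ih =>
    by_cases hyB : y = c ∨ y ∈ L
    · exact ⟨S, c, L, hS, hcS, hcL, hLS, hL, h1, h2, rfl, hyB⟩
    · push Not at hyB
      have hyS : y ∈ S := by
        simp only [Finset.mem_union, Finset.mem_insert] at hy
        grind
      obtain ⟨T, c', L', hT, hc'T, hc'L, hLT, hL', h1', h2', hSe, hy'⟩ := ih hyS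
      have hc'S : c' ∈ S := by rw [hSe]; simp
      have hL'S : L' ⊆ S := by
        rw [hSe]
        intro x hx
        simp [hx]
      have hTS : T ⊆ S := by rw [hSe]; exact Finset.subset_union_left
      refine ⟨T ∪ insert c L, c', L', ?_, ?_, hc'L, ?_, hL', h1', h2', ?_, hy'⟩
      · refine StarCover.cons T c L hT (fun h => hcS (hTS h)) hcL ?_ hL h1 h2
        exact Finset.disjoint_of_subset_right hTS hLS
      · simp only [Finset.mem_union, Finset.mem_insert, not_or]
        refine ⟨hc'T, fun h => hcS (h ▸ hc'S), fun h => ?_⟩
        exact (Finset.disjoint_left.1 hLS h) hc'S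
      · rw [Finset.disjoint_union_right, Finset.disjoint_insert_right]
        refine ⟨hLT, fun h => hcS (hL'S h), ?_⟩
        exact (Finset.disjoint_of_subset_right hL'S hLS).symm
      · rw [hSe]
        ext x
        simp only [Finset.mem_union, Finset.mem_insert]
        grind

/-- Adding a vertex adjacent to a leaf of a star with another leaf. -/
lemma StarCover.aug_leaf (hirr : ∀ x, ¬ G x x) {S : Finset V} {u : V} (hu : u ∉ S)
    (T : Finset V) (c : V) (L : Finset V) (hT : StarCover G T) (hcT : c ∉ T) (hcL : c ∉ L)
    (hLT : Disjoint L T) (h1 : ∀ l ∈ L, G c l) (h2 : ∀ l ∈ L, ∀ l' ∈ L, ¬ G l l')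
    (hSe : S = T ∪ insert c L) (l : V) (hl : l ∈ L) (hul : G u l) (hl' : ∃ l' ∈ L, l' ≠ l) :
    StarCover G (insert u S) := by
  obtain ⟨l', hl', hne⟩ := hl'
  have hlc : l ≠ c := fun e => hcL (e ▸ hl)
  have huS : ∀ x, x ∈ S → x ≠ u := fun x hx e => hu (e ▸ hx)
  have hlS : l ∈ S := by rw [hSe]; simp [hl]
  have hA : StarCover G (T ∪ insert c (L.erase l)) :=
    StarCover.cons T c (L.erase l) hT hcT (fun h => hcL (Finset.mem_of_mem_erase h))
      (Finset.disjoint_of_subset_left (Finset.erase_subset _ _) hLT)
      ⟨l', Finset.mem_erase.2 ⟨hne, hl'⟩⟩ (fun x hx => h1 x (Finset.mem_of_mem_erase hx))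
      (fun x hx x' hx' => h2 x (Finset.mem_of_mem_erase hx) x' (Finset.mem_of_mem_erase hx'))
  have hB : StarCover G {u, l} := StarCover.pair (fun e => huS l hlS e.symm) hul hirr
  have hd : Disjoint (T ∪ insert c (L.erase l)) {u, l} := by
    rw [Finset.disjoint_right]
    intro x hx hx'
    simp only [Finset.mem_insert, Finset.mem_singleton] at hx
    rcases hx with rfl | rfl
    · apply hu
      rw [hSe]
      simp only [Finset.mem_union, Finset.mem_insert, Finset.mem_erase] at hx' ⊢
      grind
    · simp only [Finset.mem_union, Finset.mem_insert, Finset.mem_erase] at hx'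
      rcases hx' with hx' | hx' | hx'
      · exact Finset.disjoint_left.1 hLT hl hx'
      · exact hlc hx'
      · exact hx'.1 rfl
  have e : insert u S = (T ∪ insert c (L.erase l)) ∪ {u, l} := by
    rw [hSe]
    ext x
    simp only [Finset.mem_union, Finset.mem_insert, Finset.mem_erase, Finset.mem_singleton]
    by_cases hx : x = l
    · subst hx; simp [hl]
    · simp only [hx, or_false]
      grind
  rw [e]
  exact hA.union hB hd

/-- Adding a vertex adjacent to the centre of a star but to no leaf. -/
lemma StarCover.aug_center (hsym : ∀ x y, G x y → G y x) (hirr : ∀ x, ¬ G x x) {S : Finset V}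
    {u : V} (hu : u ∉ S) (T : Finset V) (c : V) (L : Finset V) (hT : StarCover G T)
    (hcT : c ∉ T) (hcL : c ∉ L) (hLT : Disjoint L T) (h1 : ∀ l ∈ L, G c l)
    (h2 : ∀ l ∈ L, ∀ l' ∈ L, ¬ G l l') (hSe : S = T ∪ insert c L) (h : G u c)
    (hleaf : ∀ l ∈ L, ¬ G u l) : StarCover G (insert u S) := by
  have e : insert u S = T ∪ insert c (insert u L) := by
    rw [hSe]
    ext x
    simp only [Finset.mem_union, Finset.mem_insert]
    grind
  rw [e]
  have huT : u ∉ T := fun h => hu (by rw [hSe]; simp [h])
  have huc : u ≠ c := fun e => hu (by rw [hSe, e]; simp)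
  refine StarCover.cons T c (insert u L) hT hcT ?_ ?_ (by simp) ?_ ?_
  · simp only [Finset.mem_insert, not_or]
    exact ⟨fun e => huc e.symm, hcL⟩
  · rw [Finset.disjoint_insert_left]
    exact ⟨huT, hLT⟩
  · intro l hl
    simp only [Finset.mem_insert] at hl
    rcases hl with rfl | hl
    · exact hsym _ _ h
    · exact h1 l hl
  · intro l hl l' hl'
    simp only [Finset.mem_insert] at hl hl'
    rcases hl with rfl | hl <;> rcases hl' with rfl | hl'
    · exact hirr _
    · exact hleaf l' hl'
    · exact fun h => hleaf l hl (hsym _ _ h)
    · exact h2 l hl l' hl'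

/-- Adding a vertex adjacent to a star with at least two leaves. -/
lemma StarCover.aug_big (hsym : ∀ x y, G x y → G y x) (hirr : ∀ x, ¬ G x x) {S : Finset V}
    {u y : V} (hu : u ∉ S) (T : Finset V) (c : V) (L : Finset V) (hT : StarCover G T)
    (hcT : c ∉ T) (hcL : c ∉ L) (hLT : Disjoint L T) (h1 : ∀ l ∈ L, G c l)
    (h2 : ∀ l ∈ L, ∀ l' ∈ L, ¬ G l l') (hSe : S = T ∪ insert c L) (hL2 : 2 ≤ L.card)
    (hy : y = c ∨ y ∈ L) (h : G u y) : StarCover G (insert u S) := by
  have hother : ∀ l ∈ L, ∃ l' ∈ L, l' ≠ l := by
    intro l hl
    obtain ⟨l', hl', hne⟩ := Finset.exists_mem_ne (by omega : 1 < L.card) l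
    exact ⟨l', hl', hne⟩
  rcases hy with rfl | hy
  · by_cases hleaf : ∃ l ∈ L, G u l
    · obtain ⟨l, hl, hul⟩ := hleaf
      exact StarCover.aug_leaf hirr hu T y L hT hcT hcL hLT h1 h2 hSe l hl hul (hother l hl)
    · push Not at hleaf
      exact StarCover.aug_center hsym hirr hu T y L hT hcT hcL hLT h1 h2 hSe h hleaf
  · exact StarCover.aug_leaf hirr hu T c L hT hcT hcL hLT h1 h2 hSe y hy h (hother y hy)

/-- Adding a vertex adjacent to one end of a block with two vertices. -/
lemma StarCover.aug_pair (hsym : ∀ x y, G x y → G y x) (hirr : ∀ x, ¬ G x x) {S : Finset V}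
    {u : V} (hu : u ∉ S) (T : Finset V) (a b : V) (hT : StarCover G T) (haT : a ∉ T)
    (hbT : b ∉ T) (hab : a ≠ b) (hG : G a b) (hSe : S = T ∪ {a, b}) (hua : G u a) :
    StarCover G (insert u S) ∨
      (G u b ∧ StarCover G (T ∪ {u, b}) ∧ (insert u S).erase a = T ∪ {u, b}) := by
  have huT : u ∉ T := fun h => hu (by rw [hSe]; simp [h])
  have hua' : u ≠ a := fun e => hu (by rw [hSe, e]; simp)
  have hub' : u ≠ b := fun e => hu (by rw [hSe, e]; simp)
  by_cases hub : G u b
  · right
    have e : (insert u S).erase a = T ∪ {u, b} := by
      rw [hSe]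
      ext x
      simp only [Finset.mem_erase, Finset.mem_union, Finset.mem_insert, Finset.mem_singleton]
      constructor
      · rintro ⟨h1, h2⟩
        grind
      · intro h1
        refine ⟨?_, by grind⟩
        rintro rfl
        rcases h1 with h1 | h1 | h1
        · exact haT h1
        · exact hua' h1.symm
        · exact hab h1
    refine ⟨hub, ?_, e⟩
    refine hT.union (StarCover.pair hub' hub hirr) ?_
    rw [Finset.disjoint_right]
    intro x hx hx'
    simp only [Finset.mem_insert, Finset.mem_singleton] at hx
    rcases hx with rfl | rfl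
    · exact huT hx'
    · exact hbT hx'
  · left
    have e : insert u S = T ∪ insert a {u, b} := by
      rw [hSe]
      ext x
      simp only [Finset.mem_union, Finset.mem_insert, Finset.mem_singleton]
      grind
    rw [e]
    refine StarCover.cons T a {u, b} hT haT ?_ ?_ (by simp) ?_ ?_
    · simp only [Finset.mem_insert, Finset.mem_singleton, not_or]
      exact ⟨fun e => hua' e.symm, hab⟩
    · rw [Finset.disjoint_left]
      intro x hx hx'
      simp only [Finset.mem_insert, Finset.mem_singleton] at hx
      rcases hx with rfl | rfl
      · exact huT hx'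
      · exact hbT hx'
    · intro l hl
      simp only [Finset.mem_insert, Finset.mem_singleton] at hl
      rcases hl with rfl | rfl
      · exact hsym _ _ hua
      · exact hG
    · intro l hl l' hl'
      simp only [Finset.mem_insert, Finset.mem_singleton] at hl hl'
      rcases hl with rfl | rfl <;> rcases hl' with rfl | rfl
      · exact hirr _
      · exact hub
      · exact fun h => hub (hsym _ _ h)
      · exact hirr _

/-- The augmentation step: `S` covered, `u` outside adjacent to `y ∈ S`.  Either `insert u S` is
covered or the uncovered vertex can be moved to `y`. -/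
lemma StarCover.augment (hsym : ∀ x y, G x y → G y x) (hirr : ∀ x, ¬ G x x)
    {S : Finset V} (hS : StarCover G S) {u y : V} (hu : u ∉ S) (hy : y ∈ S) (h : G u y) :
    StarCover G (insert u S) ∨ StarCover G ((insert u S).erase y) := by
  obtain ⟨T, c, L, hT, hcT, hcL, hLT, hL, h1, h2, hSe, hyB⟩ := hS.exists_block hy
  by_cases hL2 : 2 ≤ L.card
  · exact Or.inl (StarCover.aug_big hsym hirr hu T c L hT hcT hcL hLT h1 h2 hSe hL2 hyB h)
  · have hL1 : L.card = 1 := by
      have := hL.card_pos
      omega
    obtain ⟨l, rfl⟩ := Finset.card_eq_one.1 hL1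
    have hlT : l ∉ T := fun h => Finset.disjoint_left.1 hLT (by simp) h
    have hlc : c ≠ l := by simpa using hcL
    have hG := h1 l (by simp)
    rcases hyB with rfl | hyL
    · rcases StarCover.aug_pair hsym hirr hu T y l hT hcT hlT hlc hG hSe h with h' | h'
      · exact Or.inl h'
      · right
        rw [h'.2.2]
        exact h'.2.1
    · have hyl : y = l := by simpa using hyL
      subst hyl
      have hSe' : S = T ∪ {y, c} := by
        rw [hSe]
        congr 1
        exact Finset.pair_comm c y
      rcases StarCover.aug_pair hsym hirr hu T y c hT hlT hcT hlc.symm (hsym _ _ hG) hSe' h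
        with h' | h'
      · exact Or.inl h'
      · right
        rw [h'.2.2]
        exact h'.2.1

/-- In a connected set without a star partition every vertex deleted set has one. -/
lemma StarCover.erase_of_conn (hsym : ∀ x y, G x y → G y x) (hirr : ∀ x, ¬ G x x)
    {S : Finset V} (hS : Conn G S) (hn : ¬ StarCover G S) :
    ∀ u ∈ S, StarCover G (S.erase u) := by
  classical
  have hne : (S.powerset.filter (fun T => StarCover G T)).Nonempty :=
    ⟨∅, by simp [StarCover.empty]⟩
  obtain ⟨T, hT, hmax⟩ := Finset.exists_max_image _ Finset.card hne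
  simp only [Finset.mem_filter, Finset.mem_powerset] at hT hmax
  obtain ⟨hTS, hTc⟩ := hT
  have hTne : T ≠ S := fun e => hn (e ▸ hTc)
  obtain ⟨v, hvS, hvT⟩ := Finset.exists_of_ssubset (Finset.ssubset_iff_subset_ne.2 ⟨hTS, hTne⟩)
  set W := insert v T with hW
  have hWS : W ⊆ S := Finset.insert_subset hvS hTS
  have hWc : W.card = T.card + 1 := Finset.card_insert_of_notMem hvT
  have hWn : ¬ StarCover G W := by
    intro h
    have := hmax W ⟨hWS, h⟩
    omega
  set R := W.filter (fun u => StarCover G (W.erase u)) with hR
  have hRW : R ⊆ W := Finset.filter_subset _ _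
  have hvR : v ∈ R := by
    rw [hR, Finset.mem_filter]
    refine ⟨by simp [hW], ?_⟩
    rw [hW, Finset.erase_insert hvT]
    exact hTc
  have hRS : R = S := by
    by_contra hRS
    obtain ⟨u, huR, y, hy, huy⟩ := hS R (hRW.trans hWS) ⟨v, hvR⟩ hRS
    rw [Finset.mem_sdiff] at hy
    have huR' := huR
    rw [hR, Finset.mem_filter] at huR'
    obtain ⟨huW, huc⟩ := huR'
    have hney : y ≠ u := fun e => hy.2 (e ▸ huR)
    by_cases hyW : y ∈ W
    · have hyE : y ∈ W.erase u := Finset.mem_erase.2 ⟨hney, hyW⟩
      rcases huc.augment hsym hirr (Finset.notMem_erase u W) hyE huy with h' | h'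
      · rw [Finset.insert_erase huW] at h'
        exact hWn h'
      · rw [Finset.insert_erase huW] at h'
        exact hy.2 (by rw [hR, Finset.mem_filter]; exact ⟨hyW, h'⟩)
    · have hd : Disjoint (W.erase u) {u, y} := by
        rw [Finset.disjoint_right]
        intro x hx hx'
        simp only [Finset.mem_insert, Finset.mem_singleton] at hx
        rcases hx with rfl | rfl
        · exact Finset.notMem_erase x W hx'
        · exact hyW (Finset.mem_of_mem_erase hx')
      have h' := huc.union (StarCover.pair hney.symm huy hirr) hd
      have e : W.erase u ∪ {u, y} = insert y W := by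
        ext x
        simp only [Finset.mem_union, Finset.mem_erase, Finset.mem_insert, Finset.mem_singleton]
        by_cases hx : x = u
        · subst hx; simp [huW]
        · simp only [ne_eq, hx, not_false_eq_true, true_and, false_or]
          grind
      rw [e] at h'
      have := hmax (insert y W) ⟨Finset.insert_subset hy.1 hWS, h'⟩
      rw [Finset.card_insert_of_notMem hyW] at this
      omega
  have hWe : W = S := Finset.Subset.antisymm hWS (hRS ▸ hRW)
  intro u hu
  rw [← hRS, hR, Finset.mem_filter, hWe] at hu
  exact hu.2

/-! ### Perfect matchings -/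

lemma PMatch.starCover (hirr : ∀ x, ¬ G x x) {S : Finset V} (h : PMatch G S) :
    StarCover G S := by
  induction h with
  | empty => exact StarCover.empty
  | cons S u v hS hu hv huv hG ih =>
    refine ih.union (StarCover.pair huv hG hirr) ?_
    rw [Finset.disjoint_right]
    intro x hx hx'
    simp only [Finset.mem_insert, Finset.mem_singleton] at hx
    rcases hx with rfl | rfl
    · exact hu hx'
    · exact hv hx'

lemma PMatch.exists_pair (hsym : ∀ x y, G x y → G y x) {S : Finset V} (h : PMatch G S) {y : V}
    (hy : y ∈ S) : ∃ (T : Finset V) (z : V), PMatch G T ∧ y ∉ T ∧ z ∉ T ∧ y ≠ z ∧ G y z ∧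
      S = T ∪ {y, z} := by
  induction h with
  | empty => simp at hy
  | cons S u v hS hu hv huv hG ih =>
    simp only [Finset.mem_union, Finset.mem_insert, Finset.mem_singleton] at hy
    rcases hy with hy | rfl | rfl
    · obtain ⟨T, z, hT, hyT, hzT, hyz, hGyz, rfl⟩ := ih hy
      have hyS : y ∈ T ∪ {y, z} := by simp
      have hzS : z ∈ T ∪ {y, z} := by simp
      refine ⟨T ∪ {u, v}, z, ?_, ?_, ?_, hyz, hGyz, ?_⟩
      · exact PMatch.cons T u v hT (fun h => hu (by simp [h])) (fun h => hv (by simp [h])) huv hG
      · simp only [Finset.mem_union, Finset.mem_insert, Finset.mem_singleton, not_or]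
        exact ⟨hyT, fun e => hu (e ▸ hyS), fun e => hv (e ▸ hyS)⟩
      · simp only [Finset.mem_union, Finset.mem_insert, Finset.mem_singleton, not_or]
        exact ⟨hzT, fun e => hu (e ▸ hzS), fun e => hv (e ▸ hzS)⟩
      · ext x
        simp only [Finset.mem_union, Finset.mem_insert, Finset.mem_singleton]
        grind
    · exact ⟨S, v, hS, hu, hv, huv, hG, rfl⟩
    · refine ⟨S, u, hS, hv, hu, huv.symm, hsym _ _ hG, ?_⟩
      rw [Finset.pair_comm]

/-- covers by stars with at least two leaves -/
inductive BigCover (G : V → V → Prop) : Finset V → Prop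
  | empty : BigCover G ∅
  | cons (S : Finset V) (c : V) (L : Finset V) : BigCover G S → c ∉ S → c ∉ L → Disjoint L S →
      2 ≤ L.card → (∀ l ∈ L, G c l) → (∀ l ∈ L, ∀ l' ∈ L, ¬ G l l') →
      BigCover G (S ∪ insert c L)

lemma BigCover.starCover {S : Finset V} (h : BigCover G S) : StarCover G S := by
  induction h with
  | empty => exact StarCover.empty
  | cons S c L hS hcS hcL hLS hL h1 h2 ih =>
    exact StarCover.cons S c L ih hcS hcL hLS (Finset.card_pos.1 (by omega)) h1 h2

lemma BigCover.exists_block {S : Finset V} (hS : BigCover G S) {y : V} (hy : y ∈ S) :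
    ∃ (T : Finset V) (c : V) (L : Finset V), BigCover G T ∧ c ∉ T ∧ c ∉ L ∧ Disjoint L T ∧
      2 ≤ L.card ∧ (∀ l ∈ L, G c l) ∧ (∀ l ∈ L, ∀ l' ∈ L, ¬ G l l') ∧ S = T ∪ insert c L ∧
      (y = c ∨ y ∈ L) := by
  induction hS with
  | empty => simp at hy
  | cons S c L hS hcS hcL hLS hL h1 h2 ih =>
    by_cases hyB : y = c ∨ y ∈ L
    · exact ⟨S, c, L, hS, hcS, hcL, hLS, hL, h1, h2, rfl, hyB⟩
    · push Not at hyB
      have hyS : y ∈ S := by
        simp only [Finset.mem_union, Finset.mem_insert] at hy
        grind
      obtain ⟨T, c', L', hT, hc'T, hc'L, hLT, hL', h1', h2', hSe, hy'⟩ := ih hyS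
      have hc'S : c' ∈ S := by rw [hSe]; simp
      have hL'S : L' ⊆ S := by
        rw [hSe]
        intro x hx
        simp [hx]
      have hTS : T ⊆ S := by rw [hSe]; exact Finset.subset_union_left
      refine ⟨T ∪ insert c L, c', L', ?_, ?_, hc'L, ?_, hL', h1', h2', ?_, hy'⟩
      · refine BigCover.cons T c L hT (fun h => hcS (hTS h)) hcL ?_ hL h1 h2
        exact Finset.disjoint_of_subset_right hTS hLS
      · simp only [Finset.mem_union, Finset.mem_insert, not_or]
        refine ⟨hc'T, fun h => hcS (h ▸ hc'S), fun h => ?_⟩
        exact (Finset.disjoint_left.1 hLS h) hc'S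
      · rw [Finset.disjoint_union_right, Finset.disjoint_insert_right]
        refine ⟨hLT, fun h => hcS (hL'S h), ?_⟩
        exact (Finset.disjoint_of_subset_right hL'S hLS).symm
      · rw [hSe]
        ext x
        simp only [Finset.mem_union, Finset.mem_insert]
        grind

/-- splitting a star cover -/
lemma StarCover.split {S : Finset V} (h : StarCover G S) :
    ∃ A B : Finset V, PMatch G A ∧ BigCover G B ∧ Disjoint A B ∧ S = A ∪ B := by
  induction h with
  | empty => exact ⟨∅, ∅, PMatch.empty, BigCover.empty, by simp, by simp⟩
  | cons S c L hS hcS hcL hLS hL h1 h2 ih =>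
    obtain ⟨A, B, hA, hB, hAB, rfl⟩ := ih
    simp only [Finset.mem_union, not_or] at hcS
    rw [Finset.disjoint_union_right] at hLS
    by_cases hL2 : 2 ≤ L.card
    · refine ⟨A, B ∪ insert c L, hA, BigCover.cons B c L hB hcS.2 hcL hLS.2 hL2 h1 h2, ?_, ?_⟩
      · rw [Finset.disjoint_union_right, Finset.disjoint_insert_right]
        exact ⟨hAB, hcS.1, hLS.1.symm⟩
      · rw [Finset.union_assoc]
    · have hL1 : L.card = 1 := by
        have := hL.card_pos
        omega
      obtain ⟨l, rfl⟩ := Finset.card_eq_one.1 hL1
      have hlA : l ∉ A := fun h => Finset.disjoint_left.1 hLS.1 (by simp) h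
      have hlB : l ∉ B := fun h => Finset.disjoint_left.1 hLS.2 (by simp) h
      refine ⟨A ∪ {c, l}, B, PMatch.cons A c l hA hcS.1 hlA (by simpa using hcL)
        (h1 l (by simp)), hB, ?_, ?_⟩
      · rw [Finset.disjoint_union_left, Finset.disjoint_insert_left,
          Finset.disjoint_singleton_left]
        exact ⟨hAB, hcS.2, hlB⟩
      · ext x
        simp only [Finset.mem_union, Finset.mem_insert, Finset.mem_singleton]
        grind

/-- **Lemma D.** A connected set has a partition into induced stars with at least one leaf, or all
vertex deleted subsets have a perfect matching. -/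
theorem starCover_or_pmatch (hsym : ∀ x y, G x y → G y x) (hirr : ∀ x, ¬ G x x)
    {S : Finset V} (hS : Conn G S) :
    StarCover G S ∨ ∀ v ∈ S, PMatch G (S.erase v) := by
  classical
  by_cases hn : StarCover G S
  · exact Or.inl hn
  · right
    intro v hv
    obtain ⟨A, B, hA, hB, hAB, hSe⟩ :=
      (StarCover.erase_of_conn hsym hirr hS hn v hv).split
    by_cases hB0 : B = ∅
    · subst hB0
      rw [hSe, Finset.union_empty]
      exact hA
    · exfalso
      have hBS : B ⊆ S := by
        intro x hx
        have : x ∈ S.erase v := by rw [hSe]; simp [hx]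
        exact Finset.mem_of_mem_erase this
      have hvB : v ∉ B := by
        intro h
        have : v ∈ S.erase v := by rw [hSe]; simp [h]
        exact Finset.notMem_erase v S this
      set W := S \ B with hW
      set R := W.filter (fun u => PMatch G (W.erase u)) with hR
      have hRW : R ⊆ W := Finset.filter_subset _ _
      have hWS : W ⊆ S := Finset.sdiff_subset
      have hvR : v ∈ R := by
        rw [hR, Finset.mem_filter]
        refine ⟨by simp [hW, hv, hvB], ?_⟩
        have e : W.erase v = A := by
          ext x
          have h1 : x ∈ S.erase v ↔ x ∈ A ∪ B := by rw [hSe]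
          simp only [Finset.mem_erase, Finset.mem_union] at h1
          simp only [hW, Finset.mem_erase, Finset.mem_sdiff]
          have h2 : x ∈ A → x ∉ B := fun h => Finset.disjoint_left.1 hAB h
          grind
        rw [e]
        exact hA
      have hRS : R ≠ S := by
        intro e
        obtain ⟨b, hb⟩ := Finset.nonempty_iff_ne_empty.2 hB0
        have : b ∈ W := hRW (e ▸ hBS hb)
        simp [hW, hb] at this
      obtain ⟨u, huR, y, hy, huy⟩ := hS R (hRW.trans hWS) ⟨v, hvR⟩ hRS
      rw [Finset.mem_sdiff] at hy
      have huR' := huR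
      rw [hR, Finset.mem_filter] at huR'
      obtain ⟨huW, huc⟩ := huR'
      have huS : u ∈ S := hWS huW
      have huB : u ∉ B := by
        rw [hW, Finset.mem_sdiff] at huW
        exact huW.2
      have hney : y ≠ u := fun e => hy.2 (e ▸ huR)
      by_cases hyB : y ∈ B
      · obtain ⟨T, c, L, hT, hcT, hcL, hLT, hL2, h1, h2, hBe, hyL⟩ := hB.exists_block hyB
        have hd : Disjoint (W.erase u) B := by
          rw [Finset.disjoint_left]
          intro x hx hx'
          simp only [hW, Finset.mem_erase, Finset.mem_sdiff] at hx
          exact hx.2.2 hx'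
        have hTB : T ⊆ B := by rw [hBe]; exact Finset.subset_union_left
        have hcB : c ∈ B := by rw [hBe]; simp
        have hLB : L ⊆ B := by
          rw [hBe]
          intro x hx
          simp [hx]
        have hT' : StarCover G (W.erase u ∪ T) :=
          (huc.starCover hirr).union hT.starCover (Finset.disjoint_of_subset_right hTB hd)
        have hfin := StarCover.aug_big hsym hirr (S := S.erase u) (u := u) (y := y)
          (Finset.notMem_erase u S) (W.erase u ∪ T) c L hT' (by
            simp only [Finset.mem_union, not_or]
            exact ⟨fun h => Finset.disjoint_left.1 hd h hcB, hcT⟩) hcL (by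
            rw [Finset.disjoint_union_right]
            exact ⟨(Finset.disjoint_of_subset_right hLB hd).symm, hLT⟩) h1 h2 (by
            ext x
            have hx : x ∈ B ↔ x ∈ T ∪ insert c L := by rw [← hBe]
            simp only [Finset.mem_union, Finset.mem_insert] at hx
            simp only [hW, Finset.mem_erase, Finset.mem_union, Finset.mem_sdiff,
              Finset.mem_insert]
            have h3 : x ∈ B → x ∈ S := fun h => hBS h
            have h4 : x ∈ B → x ≠ u := fun h e => huB (e ▸ h)
            grind) hL2 hyL huy
        rw [Finset.insert_erase huS] at hfin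
        exact hn hfin
      · have hyW : y ∈ W := by
          rw [hW, Finset.mem_sdiff]
          exact ⟨hy.1, hyB⟩
        have hyE : y ∈ W.erase u := Finset.mem_erase.2 ⟨hney, hyW⟩
        obtain ⟨T, z, hT, hyT, hzT, hyz, hGyz, hTe⟩ := huc.exists_pair hsym hyE
        have hzW : z ∈ W.erase u := by rw [hTe]; simp
        have hzu : z ≠ u := (Finset.mem_erase.1 hzW).1
        have huT : u ∉ T := by
          intro h
          have : u ∈ W.erase u := by rw [hTe]; simp [h]
          exact Finset.notMem_erase u W this
        have hTW : T ⊆ W := by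
          intro x hx
          have : x ∈ W.erase u := by rw [hTe]; simp [hx]
          exact Finset.mem_of_mem_erase this
        have hBW : Disjoint B W := by
          rw [hW]
          exact Finset.disjoint_sdiff
        have hWu : ∀ x, x ∈ W ↔ (x = u ∨ x ∈ T ∨ x = y ∨ x = z) := by
          intro x
          have h3 : x ∈ W.erase u ↔ x ∈ T ∪ {y, z} := by rw [hTe]
          simp only [Finset.mem_erase, Finset.mem_union, Finset.mem_insert,
            Finset.mem_singleton] at h3
          by_cases hxu : x = u
          · subst hxu; simp [huW]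
          · simp only [hxu, false_or]
            constructor
            · intro h
              exact h3.1 ⟨hxu, h⟩
            · intro h
              exact (h3.2 h).2
        by_cases huz : G u z
        · -- move the hole to `y`
          apply hy.2
          rw [hR, Finset.mem_filter]
          refine ⟨hyW, ?_⟩
          have e : W.erase y = T ∪ {u, z} := by
            ext x
            simp only [Finset.mem_erase, Finset.mem_union, Finset.mem_insert,
              Finset.mem_singleton, hWu x]
            constructor
            · rintro ⟨h1, h2⟩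
              grind
            · intro h1
              refine ⟨?_, by grind⟩
              rintro rfl
              rcases h1 with h1 | h1 | h1
              · exact hyT h1
              · exact hney h1
              · exact hyz h1
          rw [e]
          exact PMatch.cons T u z hT huT hzT hzu.symm huz
        · -- a star with centre `y` and leaves `u`, `z`
          apply hn
          have hTB : StarCover G (T ∪ B) := (hT.starCover hirr).union hB.starCover
            (Finset.disjoint_of_subset_left hTW hBW.symm)
          have hfin := StarCover.cons (G := G) (T ∪ B) y {u, z} hTB (by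
            simp only [Finset.mem_union, not_or]
            exact ⟨hyT, hyB⟩) (by
            simp only [Finset.mem_insert, Finset.mem_singleton, not_or]
            exact ⟨hney, hyz⟩) (by
            rw [Finset.disjoint_left]
            intro x hx hx'
            simp only [Finset.mem_insert, Finset.mem_singleton] at hx
            simp only [Finset.mem_union] at hx'
            rcases hx with rfl | rfl
            · rcases hx' with hx' | hx'
              · exact huT hx'
              · exact huB hx'
            · rcases hx' with hx' | hx'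
              · exact hzT hx'
              · exact Finset.disjoint_left.1 hBW hx' (Finset.mem_of_mem_erase hzW)) (by simp)
            (by
              intro l hl
              simp only [Finset.mem_insert, Finset.mem_singleton] at hl
              rcases hl with rfl | rfl
              · exact hsym _ _ huy
              · exact hGyz)
            (by
              intro l hl l' hl'
              simp only [Finset.mem_insert, Finset.mem_singleton] at hl hl'
              rcases hl with rfl | rfl <;> rcases hl' with rfl | rfl
              · exact hirr _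
              · exact huz
              · exact fun h => huz (hsym _ _ h)
              · exact hirr _)
          have e : S = T ∪ B ∪ insert y {u, z} := by
            ext x
            have h3 : x ∈ S ↔ x ∈ W ∨ x ∈ B := by
              rw [hW, Finset.mem_sdiff]
              have : x ∈ B → x ∈ S := fun h => hBS h
              grind
            rw [h3, hWu x]
            simp only [Finset.mem_union, Finset.mem_insert, Finset.mem_singleton]
            grind
          rw [e]
          exact hfin

end Pool.Agent.Exact
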