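import Pool.Agent.Lib_helper68.Exact.Cross

/-!
# Sorted enumerations of both types, with dummy vertices of weight zero
-/

set_option autoImplicit false
set_option linter.unusedSectionVars false

namespace Pool.Agent.Exact

open Finset

/-- The frame: `Rl` the real vertices, the others are isolated dummies; `uq` enumerates the
vertices with nonnegative imbalance, `up` those with nonpositive imbalance, sorted by weight. -/
structure Sys {V : Type*} [Fintype V] [DecidableEq V] (B : V → V → ℤ) (Rl : Finset V) (L : ℕ)
    (nQ nP : ℕ) (uq up : ℕ → V) (q p : ℕ → ℝ) : Prop where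
  B0 : ∀ u v, 0 ≤ B u v
  B1 : ∀ u v, B u v ≤ 1
  Bd : ∀ v, B v v = 0
  dummy : ∀ v, v ∉ Rl → ∀ u, B u v = 0 ∧ B v u = 0
  chQ : Chain (im B) uq L q
  wtQ : ∀ i < L, ((im B (uq i) : ℤ) : ℝ) = q i
  chP : Chain (im B) up L p
  wtP : ∀ i < L, ((im B (up i) : ℤ) : ℝ) = - p i
  disj : ∀ i < L, ∀ j < L, uq i ≠ up j
  cover : ∀ v, (∃ i < L, uq i = v) ∨ ∃ i < L, up i = v
  realQ : ∀ i < L, uq i ∈ Rl ↔ i < nQ
  realP : ∀ i < L, up i ∈ Rl ↔ i < nP
  card : nQ + nP = Rl.card
  big : Rl.card + 10 ≤ L

/-- dummies added -/
def Bx {V : Type*} (B : V → V → ℤ) (d : ℕ) : V ⊕ Fin d → V ⊕ Fin d → ℤ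
  | Sum.inl u, Sum.inl v => B u v
  | _, _ => 0

variable {V : Type*} [Fintype V] [DecidableEq V] {B : V → V → ℤ}

lemma im_Bx_inl (d : ℕ) (v : V) : im (Bx B d) (Sum.inl v) = im B v := by
  unfold im
  simp [Fintype.sum_sum_type, Bx]

lemma im_Bx_inr (d : ℕ) (v : Fin d) : im (Bx B d) (Sum.inr v) = 0 := by
  unfold im
  simp [Bx]

lemma Val_Bx {d : ℕ} {r : ℝ} (h : Val (Bx B d) r) : Val B r := by
  obtain ⟨x, hx, hv⟩ := h
  refine ⟨fun v => x (Sum.inl v), fun v => hx _, ?_⟩
  have e1 : Qd (Bx B d) univ x = Qd B univ fun v => x (Sum.inl v) := by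
    unfold Qd
    simp [Fintype.sum_sum_type, Bx]
  have e2 : ∑ v, im (Bx B d) v * x v = ∑ v, im B v * x (Sum.inl v) := by
    rw [Fintype.sum_sum_type]
    simp only [im_Bx_inl, im_Bx_inr, zero_mul, Finset.sum_const_zero, add_zero]
  rw [e1, e2] at hv
  exact hv

/-- sorting -/
lemma exists_sorted (f : V → ℤ) (S : Finset V) : ∃ l : List V, l.Nodup ∧
    (∀ v, v ∈ l ↔ v ∈ S) ∧ l.length = S.card ∧ l.Pairwise (fun a b => f b ≤ f a) := by
  classical
  haveI : Std.Total (fun a b : V => f b ≤ f a) := ⟨fun a b => le_total _ _⟩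
  haveI : IsTrans V (fun a b : V => f b ≤ f a) := ⟨fun a b c h1 h2 => h2.trans h1⟩
  refine ⟨S.toList.insertionSort (fun a b => f b ≤ f a), ?_, ?_, ?_, ?_⟩
  · exact (List.perm_insertionSort _ _).nodup_iff.2 (Finset.nodup_toList S)
  · intro v
    rw [(List.perm_insertionSort _ _).mem_iff, Finset.mem_toList]
  · rw [(List.perm_insertionSort _ _).length_eq, Finset.length_toList]
  · exact List.pairwise_insertionSort _ _

theorem exists_sys (h0 : ∀ u v, 0 ≤ B u v) (h1 : ∀ u v, B u v ≤ 1) (hB : ∀ v, B v v = 0) :
    ∃ (d L nQ nP : ℕ) (uq up : ℕ → V ⊕ Fin d) (q p : ℕ → ℝ),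
      Sys (Bx B d) ((univ : Finset V).map ⟨Sum.inl, Sum.inl_injective⟩) L nQ nP uq up q p ∧
      Even L := by
  classical
  set n := Fintype.card V with hn
  obtain ⟨lQ, ndQ, memQ, lenQ, srtQ⟩ := exists_sorted (im B) (univ.filter fun v => 0 ≤ im B v)
  obtain ⟨lP, ndP, memP, lenP, srtP⟩ := exists_sorted (fun v => - im B v)
    (univ.filter fun v => ¬ 0 ≤ im B v)
  have hcard : lQ.length + lP.length = n := by
    rw [lenQ, lenP, Finset.card_filter_add_card_filter_not, Finset.card_univ]
  set L := 2 * (n + 10) with hL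
  set d := 2 * L - n with hd
  have hd1 : 0 < d := by omega
  have hQL : lQ.length ≤ L := by omega
  have hPL : lP.length ≤ L := by omega
  set uq : ℕ → V ⊕ Fin d := fun i => if h : i < lQ.length then Sum.inl lQ[i] else
    if h' : i - lQ.length < d then Sum.inr ⟨i - lQ.length, h'⟩ else Sum.inr ⟨0, hd1⟩ with huq
  set up : ℕ → V ⊕ Fin d := fun i => if h : i < lP.length then Sum.inl lP[i] else
    if h' : (L - lQ.length) + (i - lP.length) < d then
      Sum.inr ⟨(L - lQ.length) + (i - lP.length), h'⟩ else Sum.inr ⟨0, hd1⟩ with hup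
  have uq1 : ∀ i (h : i < lQ.length), uq i = Sum.inl lQ[i] := by
    intro i h; simp [huq, h]
  have uq2 : ∀ i (h : ¬ i < lQ.length) (h' : i < L), uq i =
      Sum.inr ⟨i - lQ.length, by omega⟩ := by
    intro i h h'
    have : i - lQ.length < d := by omega
    simp [huq, h, this]
  have up1 : ∀ i (h : i < lP.length), up i = Sum.inl lP[i] := by
    intro i h; simp [hup, h]
  have up2 : ∀ i (h : ¬ i < lP.length) (h' : i < L), up i =
      Sum.inr ⟨(L - lQ.length) + (i - lP.length), by omega⟩ := by
    intro i h h'
    have : (L - lQ.length) + (i - lP.length) < d := by omega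
    simp [hup, h, this]
  have imQ : ∀ i (h : i < lQ.length), 0 ≤ im B lQ[i] := by
    intro i h
    have := (memQ lQ[i]).1 (List.getElem_mem h)
    exact (Finset.mem_filter.1 this).2
  have imP : ∀ i (h : i < lP.length), im B lP[i] < 0 := by
    intro i h
    have := (memP lP[i]).1 (List.getElem_mem h)
    exact not_le.1 (Finset.mem_filter.1 this).2
  refine ⟨d, L, lQ.length, lP.length, uq, up, fun i => ((im (Bx B d) (uq i) : ℤ) : ℝ),
    fun i => - ((im (Bx B d) (up i) : ℤ) : ℝ), ?_, ?_⟩
  · refine ⟨?_, ?_, ?_, ?_, ?_, ?_, ?_, ?_, ?_, ?_, ?_, ?_, ?_, ?_⟩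
    · intro u v
      rcases u with u | u <;> rcases v with v | v <;> simp [Bx, h0]
    · intro u v
      rcases u with u | u <;> rcases v with v | v <;> simp [Bx, h1]
    · intro v
      rcases v with v | v <;> simp [Bx, hB]
    · intro v hv u
      rcases v with v | v
      · exact absurd (by simp) hv
      · rcases u with u | u <;> simp [Bx]
    · refine ⟨?_, Or.inl fun i _ => rfl, ?_, ?_⟩
      · intro i hi j hj h
        by_cases h2 : i < lQ.length <;> by_cases h3 : j < lQ.length
        · rw [uq1 i h2, uq1 j h3, Sum.inl.injEq] at h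
          exact (List.Nodup.getElem_inj_iff ndQ).1 h
        · rw [uq1 i h2, uq2 j h3 hj] at h; simp at h
        · rw [uq2 i h2 hi, uq1 j h3] at h; simp at h
        · rw [uq2 i h2 hi, uq2 j h3 hj, Sum.inr.injEq, Fin.mk.injEq] at h
          omega
      · intro i j hij hj
        by_cases h3 : j < lQ.length
        · have h2 : i < lQ.length := by omega
          rw [uq1 i h2, uq1 j h3, im_Bx_inl, im_Bx_inl]
          rcases Nat.eq_or_lt_of_le hij with rfl | h4
          · exact le_rfl
          · have := List.pairwise_iff_getElem.1 srtQ i j h2 h3 h4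
            exact_mod_cast this
        · rw [uq2 j h3 hj, im_Bx_inr]
          by_cases h2 : i < lQ.length
          · rw [uq1 i h2, im_Bx_inl]
            exact_mod_cast imQ i h2
          · rw [uq2 i h2 (by omega), im_Bx_inr]
      · intro i hi
        by_cases h2 : i < lQ.length
        · simp only [uq1 i h2, im_Bx_inl]
          exact_mod_cast imQ i h2
        · simp only [uq2 i h2 hi, im_Bx_inr]
          simp
    · intro i _; rfl
    · refine ⟨?_, Or.inr fun i _ => by simp, ?_, ?_⟩
      · intro i hi j hj h
        by_cases h2 : i < lP.length <;> by_cases h3 : j < lP.length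
        · rw [up1 i h2, up1 j h3, Sum.inl.injEq] at h
          exact (List.Nodup.getElem_inj_iff ndP).1 h
        · rw [up1 i h2, up2 j h3 hj] at h; simp at h
        · rw [up2 i h2 hi, up1 j h3] at h; simp at h
        · rw [up2 i h2 hi, up2 j h3 hj, Sum.inr.injEq, Fin.mk.injEq] at h
          omega
      · intro i j hij hj
        by_cases h3 : j < lP.length
        · have h2 : i < lP.length := by omega
          rw [up1 i h2, up1 j h3, im_Bx_inl, im_Bx_inl]
          rcases Nat.eq_or_lt_of_le hij with rfl | h4
          · exact le_rfl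
          · have := List.pairwise_iff_getElem.1 srtP i j h2 h3 h4
            have : im B lP[i] ≤ im B lP[j] := by linarith
            have : ((im B lP[i] : ℤ) : ℝ) ≤ im B lP[j] := by exact_mod_cast this
            linarith
        · rw [up2 j h3 hj, im_Bx_inr]
          by_cases h2 : i < lP.length
          · rw [up1 i h2, im_Bx_inl]
            have : ((im B lP[i] : ℤ) : ℝ) < 0 := by exact_mod_cast imP i h2
            simp only [Int.cast_zero, neg_zero]
            linarith
          · rw [up2 i h2 (by omega), im_Bx_inr]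
      · intro i hi
        by_cases h2 : i < lP.length
        · simp only [up1 i h2, im_Bx_inl]
          have : ((im B lP[i] : ℤ) : ℝ) < 0 := by exact_mod_cast imP i h2
          linarith
        · simp only [up2 i h2 hi, im_Bx_inr]
          simp
    · intro i _; simp
    · intro i hi j hj h
      by_cases h2 : i < lQ.length <;> by_cases h3 : j < lP.length
      · rw [uq1 i h2, up1 j h3, Sum.inl.injEq] at h
        have h4 := imQ i h2
        have h5 := imP j h3
        rw [h] at h4
        omega
      · rw [uq1 i h2, up2 j h3 hj] at h; simp at h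
      · rw [uq2 i h2 hi, up1 j h3] at h; simp at h
      · rw [uq2 i h2 hi, up2 j h3 hj, Sum.inr.injEq, Fin.mk.injEq] at h
        omega
    · intro v
      rcases v with v | v
      · by_cases hv : 0 ≤ im B v
        · left
          have : v ∈ lQ := (memQ v).2 (by simp [hv])
          obtain ⟨i, hi, rfl⟩ := List.getElem_of_mem this
          exact ⟨i, by omega, uq1 i hi⟩
        · right
          have : v ∈ lP := (memP v).2 (by simpa using hv)
          obtain ⟨i, hi, rfl⟩ := List.getElem_of_mem this
          exact ⟨i, by omega, up1 i hi⟩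
      · have hv := v.2
        by_cases h2 : (v : ℕ) < L - lQ.length
        · left
          refine ⟨v + lQ.length, by omega, ?_⟩
          rw [uq2 _ (by omega) (by omega)]
          congr 1
          ext
          simp
        · right
          refine ⟨v - (L - lQ.length) + lP.length, by omega, ?_⟩
          rw [up2 _ (by omega) (by omega)]
          congr 1
          ext
          simp
          omega
    · intro i hi
      by_cases h2 : i < lQ.length
      · rw [uq1 i h2]; simp [h2]
      · rw [uq2 i h2 hi]; simp [h2]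
    · intro i hi
      by_cases h2 : i < lP.length
      · rw [up1 i h2]; simp [h2]
      · rw [up2 i h2 hi]; simp [h2]
    · rw [Finset.card_map, Finset.card_univ]; exact hcard
    · rw [Finset.card_map, Finset.card_univ]; omega
  · exact ⟨n + 10, by omega⟩

end Pool.Agent.Exact
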